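import Pool.Agent.Lib.LU1_h15.Basic

/-! # G: fixed fields, decomposition group -/

set_option autoImplicit false

open Polynomial

namespace Pool.Agent.LU1

open Pool.Agent.H15JM (RVal)

universe u

variable {k Ω : Type u} [Field k] [Field Ω] [Algebra k Ω] {v : RVal Ω} {r : ℕ}

/-- The subfield of `Ω` of the elements of `N` fixed by `H`. -/
noncomputable def fixO (F : IntermediateField k Ω) (N : IntermediateField F Ω)
    (H : Subgroup (N ≃ₐ[F] N)) : IntermediateField k Ω :=
  ((IntermediateField.fixedField H).map N.val).restrictScalars k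

theorem mem_fixO (F : IntermediateField k Ω) (N : IntermediateField F Ω)
    (H : Subgroup (N ≃ₐ[F] N)) (g : Ω) :
    g ∈ fixO F N H ↔ ∃ n : N, (n : Ω) = g ∧ ∀ σ ∈ H, σ n = n := by
  rw [fixO, IntermediateField.mem_restrictScalars, IntermediateField.mem_map]
  constructor
  · rintro ⟨n, hn, rfl⟩
    rw [IntermediateField.mem_fixedField_iff] at hn
    exact ⟨n, rfl, hn⟩
  · rintro ⟨n, rfl, hn⟩
    refine ⟨n, ?_, rfl⟩
    rw [IntermediateField.mem_fixedField_iff]
    exact hn

/-- The decomposition group. -/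
def decG (v : RVal Ω) (F : IntermediateField k Ω) (N : IntermediateField F Ω) :
    Subgroup (N ≃ₐ[F] N) where
  carrier := {σ | ∀ n : N, v (σ n : Ω) = v (n : Ω)}
  mul_mem' := by
    intro a b ha hb n
    rw [AlgEquiv.mul_apply, ha, hb]
  one_mem' := fun _ => rfl
  inv_mem' := by
    intro a ha n
    have h := ha (a⁻¹ n)
    rw [← AlgEquiv.mul_apply, mul_inv_cancel, AlgEquiv.one_apply] at h
    exact h.symm

end Pool.Agent.LU1
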