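import Pool.Agent.Lib.LU1_h15.NFrames

/-! # B3: regularity -/

set_option autoImplicit false

namespace Pool.Agent.LU1.RegAux


universe u

/-- All maximal ideals of a polynomial ring in `s` variables over a field have height `s`. -/
theorem height_mv (k : Type u) [Field k] (s : ℕ) (P : Ideal (MvPolynomial (Fin s) k))
    (hP : P.IsMaximal) : P.height = s := by
  induction s with
  | zero =>
    have e := MvPolynomial.isEmptyRingEquiv k (Fin 0)
    have hd : ringKrullDim (MvPolynomial (Fin 0) k) = 0 := by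
      rw [ringKrullDim_eq_of_ringEquiv e]
      exact ringKrullDim_eq_zero_of_field k
    have h1 : (P.height : WithBot ℕ∞) ≤ 0 := by
      rw [← hd]
      exact Ideal.height_le_ringKrullDim_of_ne_top hP.ne_top
    have h2 : P.height ≤ 0 := by exact_mod_cast h1
    simpa using h2
  | succ s ih =>
    let e : MvPolynomial (Fin (s + 1)) k ≃+* Polynomial (MvPolynomial (Fin s) k) :=
      (MvPolynomial.finSuccEquiv k s).toRingEquiv
    let P' : Ideal (Polynomial (MvPolynomial (Fin s) k)) := P.map e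
    have hP' : P'.IsMaximal := Ideal.map_isMaximal_of_equiv e
    have h1 : P'.height = P.height := e.height_map P
    have hc : (P'.comap (Polynomial.C : MvPolynomial (Fin s) k →+* _)).IsMaximal :=
      Polynomial.isMaximal_comap_C_of_isJacobsonRing P'
    have h2 := ih _ hc
    have h3 : P'.LiesOver (P'.comap (Polynomial.C : MvPolynomial (Fin s) k →+* _)) := ⟨rfl⟩
    have h4 := Polynomial.height_eq_height_add_one
      (P'.comap (Polynomial.C : MvPolynomial (Fin s) k →+* _)) P'
    rw [← h1, h4, h2]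
    push_cast
    rfl

/-- Maximal ideals of a finitely generated domain have height at least the transcendence
degree. -/
theorem le_height {k A Ω : Type u} [Field k] [CommRing A] [IsDomain A] [Algebra k A]
    [Algebra.FiniteType k A] [Field Ω] [Algebra k Ω] [Algebra A Ω] [IsScalarTower k A Ω]
    [FaithfulSMul A Ω] [Algebra.IsAlgebraic A Ω] (n : ℕ) (hn : Algebra.trdeg k Ω = n)
    (P : Ideal A) (hP : P.IsMaximal) : (n : ℕ∞) ≤ P.height := by
  obtain ⟨s, g, hinj, hint⟩ := exists_integral_inj_algHom_of_fg k A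
  let _ : Algebra (MvPolynomial (Fin s) k) A := g.toRingHom.toAlgebra
  have h1 : Algebra.IsIntegral (MvPolynomial (Fin s) k) A := ⟨hint⟩
  have h2 : FaithfulSMul (MvPolynomial (Fin s) k) A := by
    rw [faithfulSMul_iff_algebraMap_injective]
    exact hinj
  have h3 : IsNoetherianRing A := Algebra.FiniteType.isNoetherianRing k A
  have h4 : (P.under (MvPolynomial (Fin s) k)).IsMaximal :=
    Ideal.isMaximal_comap_of_isIntegral_of_isMaximal P
  have h5 := height_mv k s _ h4
  have h6 : P.height = _ := Ideal.height_eq_height_add_of_liesOver_of_hasGoingDown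
    (P.under (MvPolynomial (Fin s) k)) P
  -- the transcendence degree
  let _ : Algebra (MvPolynomial (Fin s) k) Ω :=
    ((algebraMap A Ω).comp (algebraMap (MvPolynomial (Fin s) k) A)).toAlgebra
  have h7 : IsScalarTower (MvPolynomial (Fin s) k) A Ω := IsScalarTower.of_algebraMap_eq fun _ => rfl
  have h8 : IsScalarTower k (MvPolynomial (Fin s) k) Ω := by
    refine IsScalarTower.of_algebraMap_eq fun c => ?_
    change algebraMap k Ω c = algebraMap A Ω (g (algebraMap k _ c))
    rw [g.commutes, ← IsScalarTower.algebraMap_apply k A Ω]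
  have h9 : FaithfulSMul (MvPolynomial (Fin s) k) Ω := by
    rw [faithfulSMul_iff_algebraMap_injective]
    exact (FaithfulSMul.algebraMap_injective A Ω).comp hinj
  have h10 : Algebra.IsAlgebraic (MvPolynomial (Fin s) k) Ω :=
    Algebra.IsAlgebraic.trans (MvPolynomial (Fin s) k) A Ω
  have h11 : Algebra.trdeg k (MvPolynomial (Fin s) k) +
      Algebra.trdeg (MvPolynomial (Fin s) k) Ω = Algebra.trdeg k Ω :=
    trdeg_add_eq k (MvPolynomial (Fin s) k)
  have h0 : Algebra.trdeg (MvPolynomial (Fin s) k) Ω = 0 := trdeg_eq_zero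
  rw [h0, MvPolynomial.trdeg_of_isDomain, hn] at h11
  have h12 : s = n := by
    simp only [Cardinal.mk_fin, Cardinal.lift_natCast, add_zero] at h11
    exact_mod_cast h11
  rw [← h12, h6, h5]
  exact self_le_add_right _ _

end Pool.Agent.LU1.RegAux

namespace Pool.Agent.LU1

open Pool.Agent.H15JM (RVal)

universe u

variable {k Ω : Type u} [Field k] [Field Ω] [Algebra k Ω] {v : RVal Ω} {r : ℕ}

theorem NF.dim_ge (h : Ctx k v r) (N : NF k v r) :
    ((r + 1 : ℕ) : WithBot ℕ∞) ≤ ringKrullDim N.R := by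
  obtain ⟨F, hF⟩ := N.fgen
  let A : Subalgebra k Ω := Algebra.adjoin k (F : Set Ω)
  have hle : A ≤ N.R := by
    rw [hF]
    exact le_locv A
  have hA0 : ∀ a ∈ A, v.Ge 0 a := fun a ha => N.nonneg a (hle ha)
  let _ : Algebra A N.R := (Subalgebra.inclusion hle).toRingHom.toAlgebra
  let p : Ideal A :=
    { carrier := {a | VPos v (a : Ω)}
      add_mem' := fun {a b} ha hb => by
        have := VPos.add ha hb
        exact this
      zero_mem' := VPos.zero
      smul_mem' := fun c a ha => by
        have := VPos.mul' (hA0 c c.2) ha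
        exact this }
  have hmem : ∀ a : A, a ∈ p ↔ VPos v (a : Ω) := fun a => Iff.rfl
  have h1p : (1 : A) ∉ p := by
    intro h1
    have h2 := ((hmem 1).1 h1) one_ne_zero
    have h3 : v ((1 : A) : Ω) = 0 := v.map_one
    rw [h3] at h2
    exact lt_irrefl _ h2
  have hp : p.IsMaximal := by
    rw [Ideal.isMaximal_iff]
    refine ⟨h1p, fun J x hJ hx hxJ => ?_⟩
    obtain ⟨c, hc⟩ := h.residue (hA0 x x.2)
    have hxc : x - algebraMap k A c ∈ p := hc
    have hc0 : c ≠ 0 := by
      rintro rfl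
      rw [_root_.map_zero, sub_zero] at hxc
      exact hx hxc
    have h2 : algebraMap k A c ∈ J := by
      have h3 := J.sub_mem hxJ (hJ hxc)
      rwa [sub_sub_cancel] at h3
    have h4 := J.mul_mem_left (algebraMap k A c⁻¹) h2
    rwa [← _root_.map_mul, inv_mul_cancel₀ hc0, _root_.map_one] at h4
  have hpr : p.IsPrime := hp.isPrime
  have hloc : IsLocalization.AtPrime N.R p := by
    rw [IsLocalization.AtPrime, isLocalization_iff]
    refine ⟨?_, ?_, ?_⟩
    · rintro ⟨y, hy⟩
      have hy0 : (y : Ω) ≠ 0 := by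
        intro h0
        apply hy
        rw [SetLike.mem_coe, hmem, h0]
        exact VPos.zero
      have hyv : v (y : Ω) = 0 := by
        by_contra h1
        apply hy
        rw [SetLike.mem_coe, hmem]
        intro _
        exact lt_of_le_of_ne (hA0 y y.2 hy0) (Ne.symm h1)
      have hinv : (y : Ω)⁻¹ ∈ N.R := by
        rw [hF]
        exact locv_inv (le_locv A y.2) hy0 hyv
      refine IsUnit.of_mul_eq_one ⟨(y : Ω)⁻¹, hinv⟩ ?_
      apply Subtype.ext
      exact mul_inv_cancel₀ hy0
    · rintro ⟨z, hzR⟩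
      have hz : z ∈ locv v A := by
        rw [← hF]
        exact hzR
      obtain ⟨a, ha, b, hb, hb0, hvb, hab⟩ := hz
      refine ⟨(⟨a, ha⟩, ⟨⟨b, hb⟩, ?_⟩), ?_⟩
      · intro h1
        have h2 := ((hmem _).1 h1) hb0
        change 0 < v b at h2
        rw [hvb] at h2
        exact lt_irrefl _ h2
      · apply Subtype.ext
        change z * b = a
        rw [hab, div_mul_cancel₀ _ hb0]
    · intro x y hxy
      refine ⟨1, ?_⟩
      have h1 : (x : Ω) = y := congrArg (fun t : N.R => (t : Ω)) hxy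
      rw [Subtype.ext h1]
  have hft : Algebra.FiniteType k A := (Subalgebra.fg_iff_finiteType _).1 ⟨F, rfl⟩
  have htow : IsScalarTower A N.R Ω := IsScalarTower.of_algebraMap_eq fun _ => rfl
  have halg1 : Algebra.IsAlgebraic A N.R := IsLocalization.isAlgebraic N.R p.primeCompl
  have halg2 : Algebra.IsAlgebraic N.R Ω := ⟨N.alg⟩
  have halg : Algebra.IsAlgebraic A Ω := Algebra.IsAlgebraic.trans A N.R Ω
  have h1 := RegAux.le_height (A := A) (r + 1) (by rw [h.trdeg]; push_cast; rfl) p hp
  rw [IsLocalization.AtPrime.ringKrullDim_eq_height p N.R]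
  exact_mod_cast h1

/-- The non-units of a noetherian frame are the elements of positive value. -/
theorem NF.mem_nonunits (N : NF k v r) (z : N.R) : ¬ IsUnit z ↔ VPos v (z : Ω) := by
  constructor
  · intro hz h0
    by_contra h1
    apply hz
    have hv : v (z : Ω) = 0 := le_antisymm (not_lt.1 h1) (N.nonneg z z.2 h0)
    refine IsUnit.of_mul_eq_one ⟨(z : Ω)⁻¹, N.inv_mem z.2 h0 hv⟩ ?_
    apply Subtype.ext
    exact mul_inv_cancel₀ h0
  · intro hz hu
    obtain ⟨w, hw⟩ := hu.exists_right_inv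
    have h1 : (z : Ω) * w = 1 := congrArg (fun t : N.R => (t : Ω)) hw
    have h2 : (z : Ω) * w ≠ 0 := by
      rw [h1]
      exact one_ne_zero
    have h3 := left_ne_zero_of_mul h2
    have h4 := right_ne_zero_of_mul h2
    have h5 : v ((z : Ω) * w) = 0 := by
      rw [h1]
      exact v.map_one
    rw [v.map_mul h3 h4] at h5
    have h6 := hz h3
    have h7 := N.nonneg w w.2 h4
    linarith

/-- The parameters. -/
def NF.par (N : NF k v r) (o : Option (Fin r)) : N.R :=
  o.elim ⟨N.y, N.y_mem⟩ fun i => ⟨N.x i, N.x_mem i⟩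

theorem NF.mem_span_par (N : NF k v r) {z : N.R} (hz : VPos v (z : Ω)) :
    z ∈ Ideal.span (Set.range N.par) := by
  obtain ⟨a, ha, b, hb, hab⟩ := N.gen z z.2 hz
  have h1 : z = ∑ i, N.par (some i) * ⟨a i, ha i⟩ + N.par none * ⟨b, hb⟩ := by
    apply Subtype.ext
    rw [hab]
    push_cast
    rfl
  rw [h1]
  refine Ideal.add_mem _ (Ideal.sum_mem _ fun i _ => ?_) ?_
  · exact Ideal.mul_mem_right _ _ (Ideal.subset_span ⟨some i, rfl⟩)
  · exact Ideal.mul_mem_right _ _ (Ideal.subset_span ⟨none, rfl⟩)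

theorem NF.vpos_par (N : NF k v r) (o : Option (Fin r)) : VPos v (N.par o : Ω) := by
  cases o with
  | none => exact fun _ => N.y_pos
  | some i => exact fun _ => N.x_pos i

theorem NF.maximalIdeal_eq (N : NF k v r) [IsLocalRing N.R] :
    IsLocalRing.maximalIdeal N.R = Ideal.span (Set.range N.par) := by
  apply le_antisymm
  · intro z hz
    rw [IsLocalRing.mem_maximalIdeal, mem_nonunits_iff, N.mem_nonunits] at hz
    exact N.mem_span_par hz
  · rw [Ideal.span_le]
    rintro _ ⟨o, rfl⟩
    rw [SetLike.mem_coe, IsLocalRing.mem_maximalIdeal, mem_nonunits_iff, N.mem_nonunits]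
    exact N.vpos_par o

theorem NF.spanFinrank_le (N : NF k v r) [IsLocalRing N.R] :
    (IsLocalRing.maximalIdeal N.R).spanFinrank ≤ r + 1 := by
  rw [N.maximalIdeal_eq]
  refine (Submodule.spanFinrank_span_le_ncard_of_finite (Set.finite_range _)).trans ?_
  rw [← Set.image_univ]
  refine (Set.ncard_image_le Set.finite_univ).trans ?_
  rw [Set.ncard_univ]
  simp

/-- A noetherian frame has dimension `r + 1`. -/
theorem NF.dim (h : Ctx k v r) (N : NF k v r) : ringKrullDim N.R = r + 1 := by
  have h1 := N.isNoetherian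
  have h2 := N.isLocalRing
  apply le_antisymm
  · refine (ringKrullDim_le_spanFinrank_maximalIdeal N.R).trans ?_
    exact_mod_cast N.spanFinrank_le
  · have h3 := N.dim_ge h
    exact_mod_cast h3

theorem NF.regular (h : Ctx k v r) (N : NF k v r) : IsRegularLocalRing N.R := by
  have h1 := N.isNoetherian
  have h2 := N.isLocalRing
  apply IsRegularLocalRing.of_spanFinrank_maximalIdeal_le
  rw [N.dim h]
  exact_mod_cast N.spanFinrank_le

/-- No power of `y` is in the ideal generated by the `x_i`. -/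
theorem NF.reg (h : Ctx k v r) (N : NF k v r) (D : ℕ) (a : Fin r → Ω) (ha : ∀ i, a i ∈ N.R) :
    N.y ^ D ≠ ∑ i, N.x i * a i := by
  classical
  intro hy
  have h1 := N.isNoetherian
  have h2 := N.isLocalRing
  let s : Finset N.R := Finset.univ.image fun i : Fin r => N.par (some i)
  have hyJ : N.par none ^ D ∈ Ideal.span (s : Set N.R) := by
    have h3 : N.par none ^ D = ∑ i, N.par (some i) * ⟨a i, ha i⟩ := by
      apply Subtype.ext
      push_cast
      exact hy
    rw [h3]
    refine Ideal.sum_mem _ fun i _ => Ideal.mul_mem_right _ _ (Ideal.subset_span ?_)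
    exact Finset.mem_coe.2 (Finset.mem_image_of_mem _ (Finset.mem_univ i))
  have hmin : IsLocalRing.maximalIdeal N.R ∈ (Ideal.span (s : Set N.R)).minimalPrimes := by
    refine ⟨⟨(IsLocalRing.maximalIdeal.isMaximal N.R).isPrime, ?_⟩, ?_⟩
    · rw [N.maximalIdeal_eq]
      apply Ideal.span_mono
      intro z hz
      obtain ⟨i, -, rfl⟩ := Finset.mem_image.1 (Finset.mem_coe.1 hz)
      exact ⟨some i, rfl⟩
    · rintro q ⟨hq, hJq⟩ _
      rw [N.maximalIdeal_eq, Ideal.span_le]
      rintro _ ⟨o, rfl⟩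
      cases o with
      | none => exact hq.mem_of_pow_mem D (hJq hyJ)
      | some i =>
        exact hJq (Ideal.subset_span (Finset.mem_coe.2
          (Finset.mem_image_of_mem _ (Finset.mem_univ i))))
  have h3 := Ideal.height_le_card_of_mem_minimalPrimes_span_finset hmin
  have h4 : s.card ≤ r := by
    refine Finset.card_image_le.trans ?_
    simp
  have h5 : ((IsLocalRing.maximalIdeal N.R).height : WithBot ℕ∞) = ringKrullDim N.R :=
    IsLocalRing.maximalIdeal_height_eq_ringKrullDim
  rw [N.dim h] at h5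
  have h6 : (IsLocalRing.maximalIdeal N.R).height = ((r + 1 : ℕ) : ℕ∞) := by
    have h7 : ((IsLocalRing.maximalIdeal N.R).height : WithBot ℕ∞) =
        (((r + 1 : ℕ) : ℕ∞) : WithBot ℕ∞) := by
      rw [h5]
      push_cast
      rfl
    exact_mod_cast h7
  rw [h6] at h3
  have h8 : r + 1 ≤ s.card := by exact_mod_cast h3
  omega

theorem BF.reg (h : Ctx k v r) (B : BF k v) (D : ℕ) {γ : ℝ} (hγ : γ ∈ B.Γ) (h0 : 0 < γ) {a : Ω}
    (ha : a ∈ B.R) : B.y ^ D ≠ B.χ γ * a := by
  classical
  intro hy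
  obtain ⟨S0, G, hS0, -, -, hG⟩ := B.exists_NF h {a} (by
    intro f hf
    rw [Finset.mem_singleton] at hf
    rw [hf]
    exact ha)
  obtain ⟨u, hu⟩ := B.exists_basis h (insert γ S0) (by
    intro δ hδ
    rcases Finset.mem_insert.1 hδ with rfl | hδ
    · exact ⟨hγ, h0⟩
    · exact hS0 δ hδ)
  have hu0 : GoodBasis B.Γ (S0 : Set ℝ) u :=
    ⟨hu.mem, hu.pos, hu.ind, hu.gen, fun δ hδ => hu.cone δ
      (Finset.mem_coe.2 (Finset.mem_insert_of_mem (Finset.mem_coe.1 hδ)))⟩
  obtain ⟨N, hx, hNy, -, hNR, haN⟩ := hG u hu0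
  have haN' : a ∈ N.R := haN a (Finset.mem_singleton_self a)
  obtain ⟨n, hn, hnγ⟩ := hu.cone γ (Finset.mem_coe.2 (Finset.mem_insert_self γ S0))
  -- `χ γ` is the product of the powers of the `x i`
  have hprod : ∀ s : Finset (Fin r), (∑ i ∈ s, (n i : ℝ) * u i) ∈ B.Γ ∧
      B.χ (∑ i ∈ s, (n i : ℝ) * u i) = ∏ i ∈ s, N.x i ^ n i := by
    intro s
    induction s using Finset.induction_on with
    | empty => exact ⟨by simp [B.Γ.zero_mem], by simp [B.χ_zero]⟩
    | insert i s hi ih =>
      have h1 : (n i : ℝ) * u i ∈ B.Γ := by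
        rw [← nsmul_eq_mul]
        exact B.Γ.nsmul_mem (hu.mem i) _
      rw [Finset.sum_insert hi, Finset.prod_insert hi]
      refine ⟨B.Γ.add_mem h1 ih.1, ?_⟩
      rw [B.χ_add _ h1 _ ih.1, ih.2, B.χ_nsmul (hu.mem i), hx i]
  have h1 := (hprod Finset.univ).2
  rw [← hnγ] at h1
  let i0 : Fin r := ⟨0, h.rpos⟩
  have h2 : ∏ i, N.x i ^ n i = N.x i0 * (N.x i0 ^ (n i0 - 1) *
      ∏ i ∈ Finset.univ.erase i0, N.x i ^ n i) := by
    rw [← Finset.mul_prod_erase Finset.univ _ (Finset.mem_univ i0), ← mul_assoc, ← pow_succ',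
      Nat.sub_add_cancel (hn i0)]
  have h3 : N.x i0 ^ (n i0 - 1) * ∏ i ∈ Finset.univ.erase i0, N.x i ^ n i ∈ N.R :=
    N.R.mul_mem (N.R.pow_mem (N.x_mem i0) _)
      (N.R.prod_mem fun i _ => N.R.pow_mem (N.x_mem i) _)
  apply N.reg h D (Pi.single i0 ((N.x i0 ^ (n i0 - 1) *
      ∏ i ∈ Finset.univ.erase i0, N.x i ^ n i) * a))
  · intro i
    by_cases hi : i = i0
    · subst hi
      rw [Pi.single_eq_same]
      exact N.R.mul_mem h3 haN'
    · rw [Pi.single_eq_of_ne hi]
      exact N.R.zero_mem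
  · rw [Finset.sum_eq_single i0]
    · rw [Pi.single_eq_same, hNy, hy, h1, h2]
      ring
    · intro i _ hi
      rw [Pi.single_eq_of_ne hi, mul_zero]
    · intro hi
      exact absurd (Finset.mem_univ i0) hi

end Pool.Agent.LU1
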