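import Pool.Agent.Lib.LU1_h15.Defs

/-! # The lexicographic minimum `IsLD` -/

set_option autoImplicit false

open Polynomial

namespace Pool.Agent.LU1

universe u

variable {k : Type u} [Field k]

/-! ### coefficients -/

namespace A3

theorem cf_mon_mul (a : Lau k) (b γ : ℝ) (c : k) :
    cf (a * mon b c) γ = cf a (γ - b) * c := by
  unfold cf mon
  rw [AddMonoidAlgebra.coeff_mul_single_eq_coeff_mul (γ - b)]
  intro m' _
  constructor
  · intro h; linarith
  · intro h; linarith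

theorem mon_mul_mon (a b : ℝ) (c d : k) : mon a c * mon b d = mon (a + b) (c * d) := by
  unfold mon
  exact AddMonoidAlgebra.single_mul_single _ _ _ _

theorem mon_pow (a : ℝ) (c : k) (n : ℕ) : mon a c ^ n = mon (n * a) (c ^ n) := by
  unfold mon
  rw [AddMonoidAlgebra.single_pow, nsmul_eq_mul]

theorem mon_zero_one : mon (0 : ℝ) (1 : k) = 1 := rfl

/-- The finite set of monomials of `P`. -/
theorem exists_finset_co (P : (Lau k)[X]) :
    ∃ S : Finset (ℝ × ℕ), ∀ γ l, (γ, l) ∈ S ↔ co P γ l ≠ 0 := by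
  classical
  refine ⟨P.support.biUnion fun l => (P.coeff l).coeff.support.image fun γ => (γ, l), ?_⟩
  intro γ l
  simp only [Finset.mem_biUnion, Finset.mem_image, Finsupp.mem_support_iff, Prod.mk.injEq,
    mem_support_iff]
  constructor
  · rintro ⟨l', -, γ', h, rfl, rfl⟩
    exact h
  · intro h
    refine ⟨l, ?_, γ, h, rfl, rfl⟩
    intro h0
    apply h
    unfold co cf
    rw [h0]
    rfl

end A3

open A3

/-- A lexicographic minimum exists as soon as something is visible. -/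
theorem exists_IsLD (V : ℝ → ℕ → Prop) (P : (Lau k)[X]) (b : ℝ)
    (h : ∃ γ l, co P γ l ≠ 0 ∧ V γ l) : ∃ κ D, IsLD V P b κ D := by
  classical
  obtain ⟨S, hS⟩ := exists_finset_co P
  obtain ⟨γ₀, l₀, h0, hV0⟩ := h
  obtain ⟨m, hm, hmin⟩ := Finset.exists_min_image (S.filter fun a => V a.1 a.2)
    (fun a => toLex (a.1 + a.2 * b, a.2))
    ⟨(γ₀, l₀), Finset.mem_filter.2 ⟨(hS _ _).2 h0, hV0⟩⟩
  obtain ⟨γ, D⟩ := m
  rw [Finset.mem_filter, hS] at hm
  have key : ∀ γ' l, co P γ' l ≠ 0 → V γ' l →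
      toLex (γ + D * b, D) ≤ toLex (γ' + l * b, l) := fun γ' l h1 h2 =>
    hmin (γ', l) (Finset.mem_filter.2 ⟨(hS _ _).2 h1, h2⟩)
  refine ⟨γ + D * b, D, ?_, ?_, ?_, ?_⟩
  · intro γ' l h1 h2
    rcases (Prod.Lex.toLex_le_toLex).1 (key γ' l h1 h2) with h | h
    · exact h.le
    · exact h.1.le
  · intro γ' l h1 h2 h3
    rcases (Prod.Lex.toLex_le_toLex).1 (key γ' l h1 h2) with h | h
    · exact h
    · exact absurd h.2 (by simpa using h3)
  · rw [add_sub_cancel_right]; exact hm.1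
  · rw [add_sub_cancel_right]; exact hm.2

theorem IsLD.unique {V : ℝ → ℕ → Prop} {P : (Lau k)[X]} {b κ κ' : ℝ} {D D' : ℕ}
    (h : IsLD V P b κ D) (h' : IsLD V P b κ' D') : κ = κ' ∧ D = D' := by
  have e1 := h'.1 _ _ h.2.2.1 h.2.2.2
  have e2 := h.1 _ _ h'.2.2.1 h'.2.2.2
  have hk : κ = κ' := le_antisymm (by linarith) (by linarith)
  refine ⟨hk, ?_⟩
  rcases lt_trichotomy D D' with h1 | h1 | h1
  · have := h'.2.1 _ _ h.2.2.1 h.2.2.2 h1
    linarith
  · exact h1
  · have := h.2.1 _ _ h'.2.2.1 h'.2.2.2 h1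
    linarith

/-- The coordinate change `η = x^b Y`: the coefficient of `x^γ Y^l` in `P (x^b Y)` is the
coefficient of `x^(γ - l b) η^l` in `P`. -/
theorem co_comp_mon (P : (Lau k)[X]) (b γ : ℝ) (l : ℕ) :
    co (P.comp (C (mon b 1) * X)) γ l = co P (γ - l * b) l := by
  unfold co
  rw [comp_C_mul_X_coeff, mon_pow, one_pow, cf_mon_mul, mul_one]

/-- A T-step with `q = 1`, `s γ l = l` in terms of composition. -/
theorem tpoly_one (β : ℝ) (c : k) (s : ℝ → ℤ → ℤ) (P : (Lau k)[X])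
    (hs : ∀ γ l, co P γ l ≠ 0 → s γ l = l) :
    tpoly β c s P = P.comp (C (mon β 1) * (C (mon 0 c) + X)) := by
  unfold tpoly
  rw [comp, eval₂_eq_sum, Polynomial.sum_def, Polynomial.sum_def]
  refine Finset.sum_congr rfl fun l _ => ?_
  have h1 : ∀ γ ∈ (P.coeff l).coeff.support, ∀ e : k,
      C (mon (γ + l * β) e) * (C (mon 0 c) + X) ^ (s γ l).toNat =
      C (mon γ e) * (C (mon β 1) * (C (mon 0 c) + X)) ^ l := by
    intro γ hγ e
    rw [hs γ l (Finsupp.mem_support_iff.1 hγ), Int.toNat_natCast, mul_pow, ← mul_assoc, ← C_pow, mon_pow,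
      one_pow, ← C_mul, mon_mul_mon, mul_one]
  rw [Finsupp.sum, Finset.sum_congr rfl fun γ hγ => h1 γ hγ _, ← Finset.sum_mul]
  congr 1
  rw [← map_sum]
  congr 1
  exact AddMonoidAlgebra.sum_coeff_single (P.coeff l)

/-- Two consecutive coordinates: `taylor` at `Y_s + c x^(b + β)` and `q = 1` steps. -/
theorem comp_taylor_step (Q : (Lau k)[X]) (Y : Lau k) (b β : ℝ) (c : k) :
    ((taylor Y Q).comp (C (mon b 1) * X)).comp (C (mon β 1) * (C (mon 0 c) + X)) =
      (taylor (Y + mon (b + β) c) Q).comp (C (mon (b + β) 1) * X) := by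
  rw [taylor_apply, taylor_apply, comp_assoc, comp_assoc, comp_assoc]
  congr 1
  simp only [add_comp, mul_comp, X_comp, C_comp]
  have h1 : mon (b + β) (1 : k) = mon b 1 * mon β 1 := by rw [mon_mul_mon, mul_one]
  have h2 : mon (b + β) c = mon b 1 * mon β 1 * mon 0 c := by
    rw [mon_mul_mon, mon_mul_mon, mul_one, one_mul, add_zero]
  rw [h1, h2]
  simp only [C_add, C_mul]
  ring

end Pool.Agent.LU1
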