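import Pool.Agent.Lib.LU1_h15.Lattice
import Pool.Agent.Lib.LU1_h15.Step

/-! # A5: the drop of the order `D` in one T-step -/

set_option autoImplicit false

open Polynomial

namespace Pool.Agent.LU1

universe u

variable {k : Type u} [Field k]

namespace DD

/-- The inclusion of the constants. -/
noncomputable def iota (k : Type u) [Field k] : k →+* Lau k := AddMonoidAlgebra.singleZeroRingHom

theorem iota_apply (c : k) : iota k c = mon 0 c := rfl

theorem pow_eq_map (c : k) (N : ℕ) :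
    (C (mon 0 c) + X : (Lau k)[X]) ^ N = ((C c + X : k[X]) ^ N).map (iota k) := by
  rw [Polynomial.map_pow, Polynomial.map_add, Polynomial.map_C, Polynomial.map_X, iota_apply]

theorem cf_sum {ι : Type*} (t : Finset ι) (f : ι → Lau k) (γ : ℝ) :
    cf (∑ i ∈ t, f i) γ = ∑ i ∈ t, cf (f i) γ := by
  unfold cf
  rw [AddMonoidAlgebra.coeff_sum, Finsupp.finsetSum_apply]

theorem cf_mon (γ δ : ℝ) (e : k) : cf (mon γ e) δ = if γ = δ then e else 0 := by
  unfold cf mon
  rw [AddMonoidAlgebra.coeff_single, Finsupp.single_apply]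

theorem mon_mul (γ δ : ℝ) (e f : k) : mon γ e * mon δ f = mon (γ + δ) (e * f) := by
  unfold mon
  rw [AddMonoidAlgebra.single_mul_single]

/-- The coefficients of the transform. -/
theorem co_tpoly (β : ℝ) (c : k) (s : ℝ → ℤ → ℤ) (P : (Lau k)[X]) (τ : ℝ) (m : ℕ) :
    co (tpoly β c s P) τ m = ∑ l ∈ P.support, co P (τ - l * β) l *
      ((C c + X : k[X]) ^ (s (τ - l * β) l).toNat).coeff m := by
  unfold tpoly co
  rw [Polynomial.sum, Polynomial.finsetSum_coeff, cf_sum]
  refine Finset.sum_congr rfl fun l _ => ?_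
  rw [Finsupp.sum, Polynomial.finsetSum_coeff, cf_sum]
  have h1 : ∀ γ ∈ (P.coeff l).coeff.support,
      cf ((C (mon (γ + l * β) ((P.coeff l).coeff γ)) * (C (mon 0 c) + X : (Lau k)[X]) ^
        (s γ l).toNat).coeff m) τ = if γ = τ - l * β then cf (P.coeff l) (τ - l * β) *
      ((C c + X : k[X]) ^ (s (τ - l * β) l).toNat).coeff m else 0 := by
    intro γ _
    rw [coeff_C_mul, pow_eq_map, coeff_map, iota_apply, mon_mul, add_zero, cf_mon]
    by_cases h : γ = τ - l * β
    · subst h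
      rw [if_pos (by ring), if_pos rfl]
      rfl
    · rw [if_neg (fun h' => h (by rw [← h']; ring)), if_neg h]
  rw [Finset.sum_congr rfl h1, Finset.sum_ite_eq']
  split_ifs with h2
  · rfl
  · rw [Finsupp.notMem_support_iff] at h2
    unfold cf
    rw [h2, zero_mul]

theorem exists_of_co_ne {β : ℝ} {c : k} {s : ℝ → ℤ → ℤ} {P : (Lau k)[X]} {τ : ℝ} {m : ℕ}
    (h : co (tpoly β c s P) τ m ≠ 0) : ∃ l : ℕ, co P (τ - l * β) l ≠ 0 ∧
      ((C c + X : k[X]) ^ (s (τ - l * β) l).toNat).coeff m ≠ 0 := by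
  rw [co_tpoly] at h
  obtain ⟨l, _, hl⟩ := Finset.exists_ne_zero_of_sum_ne_zero h
  exact ⟨l, left_ne_zero_of_mul hl, right_ne_zero_of_mul hl⟩

theorem mem_support_of_co {P : (Lau k)[X]} {γ : ℝ} {l : ℕ} (h : co P γ l ≠ 0) :
    l ∈ P.support := by
  rw [mem_support_iff]
  intro h0
  apply h
  unfold co
  rw [h0]
  rfl

/-- The order at `Y = 0` of a combination of powers of `c + Y`. -/
theorem ord_le {c : k} (hc : c ≠ 0) (I : Finset ℕ) (a : ℕ → k) (e : ℕ → ℕ)
    (hinj : ∀ i ∈ I, ∀ j ∈ I, e i = e j → i = j) (ha : ∀ i ∈ I, a i ≠ 0) (hI : I.Nonempty)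
    {lo hi : ℕ} (hlo : ∀ i ∈ I, lo ≤ e i) (hhi : ∀ i ∈ I, e i ≤ hi) :
    ∃ d, d + lo ≤ hi ∧ (∑ i ∈ I, C (a i) * (C c + X : k[X]) ^ e i).coeff d ≠ 0 ∧
      ∀ m < d, (∑ i ∈ I, C (a i) * (C c + X : k[X]) ^ e i).coeff m = 0 := by
  classical
  set R : k[X] := ∑ i ∈ I, C (a i) * X ^ (e i - lo) with hR
  have hQ : ∑ i ∈ I, C (a i) * (C c + X : k[X]) ^ e i = (X + C c) ^ lo * taylor c R := by
    rw [hR, map_sum, Finset.mul_sum]
    refine Finset.sum_congr rfl fun i hi' => ?_
    rw [taylor_mul, taylor_C, taylor_pow, taylor_X, add_comm (C c) X]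
    have h1 : e i = lo + (e i - lo) := by have := hlo i hi'; omega
    conv_lhs => rw [h1, pow_add]
    ring
  obtain ⟨i0, hi0⟩ := hI
  have hR0 : R ≠ 0 := by
    intro h0
    have h1 : R.coeff (e i0 - lo) = a i0 := by
      rw [hR, finsetSum_coeff, Finset.sum_eq_single i0]
      · rw [coeff_C_mul, coeff_X_pow, if_pos rfl, mul_one]
      · intro j hj hne
        rw [coeff_C_mul, coeff_X_pow, if_neg, mul_zero]
        intro h2
        apply hne
        apply hinj j hj i0 hi0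
        have := hlo j hj
        have := hlo i0 hi0
        omega
      · intro h; exact absurd hi0 h
    rw [h0, coeff_zero] at h1
    exact ha i0 hi0 h1.symm
  have hT0 : taylor c R ≠ 0 := by rwa [Ne, taylor_eq_zero]
  have hX0 : ((X + C c : k[X]) ^ lo) ≠ 0 := pow_ne_zero _ (X_add_C_ne_zero c)
  have hXt : ((X + C c : k[X]) ^ lo).natTrailingDegree = 0 := by
    have h1 : ((X + C c : k[X]) ^ lo).coeff 0 ≠ 0 := by
      rw [coeff_zero_eq_eval_zero, eval_pow, eval_add, eval_X, eval_C, zero_add]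
      exact pow_ne_zero _ hc
    by_contra h2
    exact h1 (coeff_eq_zero_of_lt_natTrailingDegree (Nat.pos_of_ne_zero h2))
  have hdeg : R.natDegree ≤ hi - lo := by
    rw [hR]
    refine natDegree_sum_le_of_forall_le _ _ fun i hi' => ?_
    refine (natDegree_C_mul_X_pow_le _ _).trans ?_
    have := hhi i hi'
    omega
  have hlohi : lo ≤ hi := (hlo i0 hi0).trans (hhi i0 hi0)
  refine ⟨(taylor c R).natTrailingDegree, ?_, ?_, ?_⟩
  · have h1 := natTrailingDegree_le_natDegree (taylor c R)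
    rw [natDegree_taylor] at h1
    omega
  · rw [hQ]
    have h1 := natTrailingDegree_mul hX0 hT0
    rw [hXt, zero_add] at h1
    rw [← h1]
    exact trailingCoeff_nonzero_iff_nonzero.2 (mul_ne_zero hX0 hT0)
  · intro m hm
    rw [hQ]
    have h1 := natTrailingDegree_mul hX0 hT0
    rw [hXt, zero_add] at h1
    apply coeff_eq_zero_of_lt_natTrailingDegree
    rw [h1]
    exact hm

/-- The order at `Y = 0` of the part of a class. -/
theorem class_ord {Γ : AddSubgroup ℝ} {β : ℝ} {q : ℕ} {s : ℝ → ℤ → ℤ} (hL : LatData Γ β q s)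
    {c : k} (hc : c ≠ 0) {P : (Lau k)[X]} (hP : SuppIn Γ P) {τ : ℝ} (I : Finset ℕ)
    (hI : I.Nonempty) (hco : ∀ l ∈ I, co P (τ - l * β) l ≠ 0) (a : ℕ → k)
    (ha : ∀ l ∈ I, a l ≠ 0) (e : ℕ → ℕ) (t : ℤ) (he : ∀ l ∈ I, (e l : ℤ) = s (τ - l * β) l - t) :
    ∃ d lo hi : ℕ, lo ∈ I ∧ hi ∈ I ∧ (∀ l ∈ I, l ≤ hi) ∧ q * d + lo ≤ hi ∧
      (∑ l ∈ I, C (a l) * (C c + X : k[X]) ^ e l).coeff d ≠ 0 ∧
      ∀ m < d, (∑ l ∈ I, C (a l) * (C c + X : k[X]) ^ e l).coeff m = 0 := by
  have hsame : ∀ l ∈ I, ∀ m ∈ I, (l : ℤ) - m = q * ((e l : ℤ) - e m) := by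
    intro l hl m hm
    have h1 := hL.same (hP _ _ (hco l hl)) (hP _ _ (hco m hm)) (l := l) (m := m)
      (by push_cast; ring)
    rw [h1, he l hl, he m hm]
    ring
  have hq : (0 : ℤ) < q := by exact_mod_cast hL.q_pos
  set lo := I.min' hI
  set hi := I.max' hI
  have hlo : lo ∈ I := I.min'_mem hI
  have hhi : hi ∈ I := I.max'_mem hI
  obtain ⟨d, h1, h2, h3⟩ := ord_le hc I a e (fun i hi' j hj h => by
      have := hsame i hi' j hj
      rw [h, sub_self, mul_zero] at this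
      omega) ha hI (lo := e lo) (hi := e hi)
    (fun i hi' => by
      have h1 := hsame i hi' lo hlo
      have h2 : lo ≤ i := I.min'_le i hi'
      have h3 : (0 : ℤ) ≤ q * ((e i : ℤ) - e lo) := by omega
      have h4 := nonneg_of_mul_nonneg_right h3 hq
      omega)
    (fun i hi' => by
      have h1 := hsame hi hhi i hi'
      have h2 : i ≤ hi := I.le_max' i hi'
      have h3 : (0 : ℤ) ≤ q * ((e hi : ℤ) - e i) := by omega
      have h4 := nonneg_of_mul_nonneg_right h3 hq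
      omega)
  refine ⟨d, lo, hi, hlo, hhi, fun l hl => I.le_max' l hl, ?_, h2, h3⟩
  have h4 := hsame hi hhi lo hlo
  have h5 : (q : ℤ) * d ≤ q * ((e hi : ℤ) - e lo) :=
    mul_le_mul_of_nonneg_left (by omega) hq.le
  have h6 : ((q * d + lo : ℕ) : ℤ) ≤ (hi : ℕ) := by push_cast; omega
  exact_mod_cast h6

/-- `(c + Y)^e` with `p ∣ e` has no monomials `Y^m`, `p` not dividing `m`. -/
theorem coeff_pow_of_dvd (p : ℕ) (hp : p.Prime) [CharP k p] (c : k) {e m : ℕ} (he : p ∣ e)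
    (hm : ¬ p ∣ m) : ((C c + X : k[X]) ^ e).coeff m = 0 := by
  rw [add_comm, coeff_X_add_C_pow]
  have h1 : p ∣ e.choose m := by
    rcases e with _ | n
    · rcases m with _ | m
      · exact absurd (dvd_zero p) hm
      · rw [Nat.choose_zero_succ]; exact dvd_zero p
    · rcases m with _ | m
      · exact absurd (dvd_zero p) hm
      · have h2 := Nat.add_one_mul_choose_eq n m
        have h3 : p ∣ (n + 1).choose (m + 1) * (m + 1) := by
          rw [← h2]; exact Dvd.dvd.mul_right he _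
        exact (hp.dvd_mul.1 h3).resolve_right hm
  rw [(CharP.cast_eq_zero_iff k p _).2 h1, mul_zero]

end DD

theorem SuppIn.tpoly {Γ : AddSubgroup ℝ} {β : ℝ} {c : k} {s : ℝ → ℤ → ℤ} {P : (Lau k)[X]}
    (hP : SuppIn Γ P) : SuppIn (Γ ⊔ AddSubgroup.zmultiples β) (tpoly β c s P) := by
  intro τ m h
  obtain ⟨l, hl, _⟩ := DD.exists_of_co_ne h
  have h1 := hP _ _ hl
  have h2 : (l : ℝ) * β ∈ AddSubgroup.zmultiples β :=
    AddSubgroup.mem_zmultiples_iff.2 ⟨l, by simp⟩
  have h3 : τ = (τ - l * β) + l * β := by ring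
  rw [h3]
  exact AddSubgroup.mem_sup.2 ⟨_, h1, _, h2, rfl⟩

/-- Lower bound of the levels after a T-step. -/
theorem tpoly_ge {β : ℝ} {c : k} {s : ℝ → ℤ → ℤ} {P : (Lau k)[X]} {τ : ℝ}
    (h : ∀ γ l, co P γ l ≠ 0 → τ ≤ γ + l * β) :
    ∀ γ l, co (tpoly β c s P) γ l ≠ 0 → τ ≤ γ := by
  intro γ m hm
  obtain ⟨l, hl, _⟩ := DD.exists_of_co_ne hm
  have := h _ _ hl
  linarith

/-- ML version. -/
theorem DD_ml {Γ : AddSubgroup ℝ} {β : ℝ} {q : ℕ} {s : ℝ → ℤ → ℤ} (hL : LatData Γ β q s)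
    {c : k} (hc : c ≠ 0) {P : (Lau k)[X]} (hP : SuppIn Γ P)
    (hs : ∀ γ l, co P γ l ≠ 0 → 0 ≤ s γ l) {κ : ℝ} {D : ℕ} (h : IsLD All P 0 κ D) :
    ∃ κ' D', IsLD All (tpoly β c s P) 0 κ' D' ∧ (∀ γ l, co P γ l ≠ 0 → κ' ≤ γ + l * β) ∧
      κ' ≤ κ + D * β ∧ D' ≤ D ∧ (2 ≤ q → 1 ≤ D → D' < D) ∧ (D' = D → κ' = κ + D * β) := by
  classical
  obtain ⟨h1, -, h3, -⟩ := h
  simp only [mul_zero, add_zero, sub_zero] at h1 h3
  obtain ⟨τ, L, t1, -, t3, -⟩ := exists_IsLD All P β ⟨κ, D, h3, trivial⟩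
  have t1' : ∀ γ l, co P γ l ≠ 0 → τ ≤ γ + l * β := fun γ l h => t1 γ l h trivial
  have hβ := hL.β_pos
  have hτ : τ ≤ κ + D * β := t1' κ D h3
  set I : Finset ℕ := P.support.filter fun l : ℕ => co P (τ - l * β) l ≠ 0 with hI
  have hmem : ∀ l : ℕ, l ∈ I ↔ co P (τ - l * β) l ≠ 0 := by
    intro l
    rw [hI, Finset.mem_filter]
    exact ⟨fun h => h.2, fun h => ⟨DD.mem_support_of_co h, h⟩⟩
  have hIne : I.Nonempty := ⟨L, (hmem L).2 t3⟩
  obtain ⟨d, lo, hi, hlo, hhi, hmax, hqd, hd1, hd2⟩ := DD.class_ord hL hc hP I hIne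
    (fun l hl => (hmem l).1 hl) (fun l => co P (τ - l * β) l) (fun l hl => (hmem l).1 hl)
    (fun l => (s (τ - l * β) l).toNat) 0 (fun l hl => by
      rw [Int.toNat_of_nonneg (hs _ _ ((hmem l).1 hl)), sub_zero])
  have hco : ∀ m, co (tpoly β c s P) τ m = (∑ l ∈ I, C (co P (τ - l * β) l) *
      (C c + X : k[X]) ^ (s (τ - l * β) l).toNat).coeff m := by
    intro m
    rw [DD.co_tpoly, finsetSum_coeff, hI, Finset.sum_filter]
    refine Finset.sum_congr rfl fun l _ => ?_
    by_cases h0 : co P (τ - l * β) l = 0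
    · rw [h0, zero_mul, if_neg (by simp)]
    · rw [if_pos h0, coeff_C_mul]
  have hge := tpoly_ge (c := c) (s := s) t1'
  have hhiD : hi ≤ D := by
    by_contra hcon
    have h4 := h1 _ _ ((hmem hi).1 hhi) trivial
    have h5 : (D : ℝ) + 1 ≤ hi := by exact_mod_cast (by omega : D + 1 ≤ hi)
    nlinarith
  have hfin : D ≤ hi → τ = κ + D * β := by
    intro h4
    have h5 : hi = D := le_antisymm hhiD h4
    have h6 := h1 _ _ ((hmem hi).1 hhi) trivial
    rw [h5] at h6
    linarith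
  have hq := hL.q_pos
  have hdD : d ≤ D := by nlinarith
  refine ⟨τ, d, ⟨?_, ?_, ?_, trivial⟩, t1', hτ, hdD, ?_, ?_⟩
  · intro γ l hγ _
    rw [mul_zero, add_zero]
    exact hge γ l hγ
  · intro γ l hγ _ hl
    rw [mul_zero, add_zero]
    refine lt_of_le_of_ne (hge γ l hγ) ?_
    rintro rfl
    apply hγ
    rw [hco]
    exact hd2 l hl
  · rw [mul_zero, sub_zero, hco]
    exact hd1
  · intro hq2 hD1
    by_contra hcon
    have h4 : D ≤ d := by omega
    have h5 : 2 * d ≤ q * d := Nat.mul_le_mul_right _ hq2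
    omega
  · intro hdD'
    apply hfin
    have h5 : 1 * d ≤ q * d := Nat.mul_le_mul_right _ hq
    omega

/-- Visible version. `s ≥ 0` is needed only on the visible monomials of the lowest class. -/
theorem DD_vis (p : ℕ) (hp : p.Prime) [CharP k p] {Γ : AddSubgroup ℝ} {β : ℝ} {q : ℕ}
    {s : ℝ → ℤ → ℤ} (hL : LatData Γ β q s) {c : k} (hc : c ≠ 0) {P : (Lau k)[X]}
    (hP : SuppIn Γ P)
    (hs : ∀ γ l, co P γ l ≠ 0 → Vis p Γ γ l →
      (∀ γ' l', co P γ' l' ≠ 0 → Vis p Γ γ' l' → γ + l * β ≤ γ' + l' * β) → 0 ≤ s γ l)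
    {κ : ℝ} {D : ℕ} (h : IsLD (Vis p Γ) P 0 κ D) :
    ∃ κ' D', IsLD (Vis p (Γ ⊔ AddSubgroup.zmultiples β)) (tpoly β c s P) 0 κ' D' ∧
      (∀ γ l, co P γ l ≠ 0 → Vis p Γ γ l → κ' ≤ γ + l * β) ∧
      κ' ≤ κ + D * β ∧ D' ≤ max D 1 ∧ (2 ≤ q → 2 ≤ D → D' < D) ∧
      (2 ≤ D' → κ + 2 * β ≤ κ') ∧ (2 ≤ D' → D' = D → κ' = κ + D * β) := by
  classical
  obtain ⟨h1, -, h3, h4⟩ := h
  simp only [mul_zero, add_zero, sub_zero] at h1 h3 h4
  obtain ⟨τ, L, t1, -, t3, t4⟩ := exists_IsLD (Vis p Γ) P β ⟨κ, D, h3, h4⟩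
  have hβ := hL.β_pos
  have hq := hL.q_pos
  have hτ : τ ≤ κ + D * β := t1 κ D h3 h4
  set Γ' := Γ ⊔ AddSubgroup.zmultiples β with hΓ'
  -- the visible members of the class
  set I : Finset ℕ := P.support.filter fun l : ℕ =>
    co P (τ - l * β) l ≠ 0 ∧ Vis p Γ (τ - l * β) l with hI
  have hmem : ∀ l : ℕ, l ∈ I ↔ (co P (τ - l * β) l ≠ 0 ∧ Vis p Γ (τ - l * β) l) := by
    intro l
    rw [hI, Finset.mem_filter]
    exact ⟨fun h => h.2, fun h => ⟨DD.mem_support_of_co h.1, h⟩⟩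
  have hIne : I.Nonempty := ⟨L, (hmem L).2 ⟨t3, t4⟩⟩
  have hs0 : ∀ l ∈ I, 0 ≤ s (τ - l * β) l := by
    intro l hl
    obtain ⟨k1, k2⟩ := (hmem l).1 hl
    refine hs _ _ k1 k2 fun γ' l' k3 k4 => ?_
    have := t1 γ' l' k3 k4
    linarith
  -- visibility
  have hvis : ∀ (γ : ℝ) (l : ℕ), γ ∈ Γ → (¬ Vis p Γ γ l ↔
      ((p : ℤ) ∣ s γ l ∧ ∃ δ ∈ Γ', γ + l * β = p * δ)) := by
    intro γ l hγ
    have := hL.vis p hp hγ (l : ℤ)
    rw [Int.natCast_dvd_natCast] at this
    unfold Vis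
    rw [not_not, this]
    push_cast
    rfl
  -- invisible monomials give only invisible monomials
  have hinv : ∀ (τ' : ℝ) (m l : ℕ), Vis p Γ' τ' m → co P (τ' - l * β) l ≠ 0 →
      ((C c + X : k[X]) ^ (s (τ' - l * β) l).toNat).coeff m ≠ 0 → Vis p Γ (τ' - l * β) l := by
    intro τ' m l hm hl hne
    by_contra hcon
    obtain ⟨k1, δ, k2, k3⟩ := (hvis _ l (hP _ _ hl)).1 hcon
    rw [sub_add_cancel] at k3
    have k4 : ¬ p ∣ m := fun hpm => hm ⟨hpm, δ, k2, k3⟩
    apply hne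
    refine DD.coeff_pow_of_dvd p hp c ?_ k4
    rcases le_total 0 (s (τ' - l * β) l) with h0 | h0
    · rw [← Int.natCast_dvd_natCast, Int.toNat_of_nonneg h0]
      exact k1
    · rw [Int.toNat_of_nonpos h0]
      exact dvd_zero p
  have hge : ∀ γ m, co (tpoly β c s P) γ m ≠ 0 → Vis p Γ' γ m → τ ≤ γ := by
    intro γ m hγ hm
    obtain ⟨l, k1, k2⟩ := DD.exists_of_co_ne hγ
    have := t1 _ _ k1 (hinv γ m l hm k1 k2)
    linarith
  have hco : ∀ m, Vis p Γ' τ m → co (tpoly β c s P) τ m = (∑ l ∈ I, C (co P (τ - l * β) l) *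
      (C c + X : k[X]) ^ (s (τ - l * β) l).toNat).coeff m := by
    intro m hm
    rw [DD.co_tpoly, finsetSum_coeff, hI, Finset.sum_filter]
    refine Finset.sum_congr rfl fun l _ => ?_
    by_cases h0 : co P (τ - l * β) l = 0
    · rw [h0, zero_mul, if_neg (by simp)]
    · by_cases h5 : Vis p Γ (τ - l * β) l
      · rw [if_pos ⟨h0, h5⟩, coeff_C_mul]
      · rw [if_neg (fun h => h5 h.2)]
        by_contra h6
        exact h5 (hinv τ m l hm h0 (right_ne_zero_of_mul h6))
  have hIsup : ∀ l ∈ I, l ≤ D := by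
    intro l hl
    by_contra hcon
    obtain ⟨k1, k2⟩ := (hmem l).1 hl
    have h5 := h1 _ _ k1 k2
    have h6 : (D : ℝ) + 1 ≤ l := by exact_mod_cast (by omega : D + 1 ≤ l)
    nlinarith
  have hIge : ∀ l ∈ I, κ + l * β ≤ τ := by
    intro l hl
    obtain ⟨k1, k2⟩ := (hmem l).1 hl
    have := h1 _ _ k1 k2
    linarith
  have hfin : ∀ hi ∈ I, D ≤ hi → τ = κ + D * β := by
    intro hi hhi h5
    have h6 : hi = D := le_antisymm (hIsup hi hhi) h5
    have h7 := hIge hi hhi
    rw [h6] at h7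
    linarith
  have hfin2 : ∀ hi ∈ I, 2 ≤ hi → κ + 2 * β ≤ τ := by
    intro hi hhi h5
    have h7 := hIge hi hhi
    have h6 : (2 : ℝ) ≤ hi := by exact_mod_cast h5
    nlinarith
  have hIco : ∀ l ∈ I, co P (τ - l * β) l ≠ 0 := fun l hl => ((hmem l).1 hl).1
  by_cases hτp : ∃ δ ∈ Γ', τ = p * δ
  · -- the class is divisible by `p`
    have hVτ : ∀ m, Vis p Γ' τ m ↔ ¬ p ∣ m := by
      intro m
      unfold Vis
      constructor
      · intro k1 k2; exact k1 ⟨k2, hτp⟩
      · intro k1 k2; exact k1 k2.1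
    have hsp : ∀ l ∈ I, ¬ (p : ℤ) ∣ s (τ - l * β) l := by
      intro l hl hpl
      obtain ⟨k1, k2⟩ := (hmem l).1 hl
      have k3 := (hvis _ l (hP _ _ k1)).2 ⟨hpl, by rw [sub_add_cancel]; exact hτp⟩
      exact k3 k2
    have hs1 : ∀ l ∈ I, 1 ≤ (s (τ - l * β) l).toNat := by
      intro l hl
      have k1 := hs0 l hl
      have k2 : s (τ - l * β) l ≠ 0 := by
        intro h0
        apply hsp l hl
        rw [h0]; exact dvd_zero _
      omega
    have hcast : ∀ l ∈ I, (((s (τ - l * β) l).toNat : ℕ) : k) ≠ 0 := by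
      intro l hl h0
      rw [CharP.cast_eq_zero_iff k p] at h0
      apply hsp l hl
      rw [← Int.toNat_of_nonneg (hs0 l hl)]
      exact_mod_cast h0
    obtain ⟨d, lo, hi, hlo, hhi, hmax, hqd, hd1, hd2⟩ := DD.class_ord hL hc hP I hIne hIco
      (fun l => co P (τ - l * β) l * ((s (τ - l * β) l).toNat : ℕ))
      (fun l hl => mul_ne_zero (hIco l hl) (hcast l hl))
      (fun l => (s (τ - l * β) l).toNat - 1) 1 (fun l hl => by
        have k1 := hs0 l hl
        have k2 := hs1 l hl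
        omega)
    have hder : derivative (∑ l ∈ I, C (co P (τ - l * β) l) *
        (C c + X : k[X]) ^ (s (τ - l * β) l).toNat) =
        ∑ l ∈ I, C (co P (τ - l * β) l * ((s (τ - l * β) l).toNat : ℕ)) *
          (C c + X : k[X]) ^ ((s (τ - l * β) l).toNat - 1) := by
      rw [derivative_sum]
      refine Finset.sum_congr rfl fun l _ => ?_
      rw [derivative_C_mul, derivative_pow, derivative_add, derivative_C, derivative_X, zero_add,
        mul_one, C_mul]
      ring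
    rw [← hder] at hd1 hd2
    simp only [coeff_derivative] at hd1 hd2
    have hpd : ¬ p ∣ d + 1 := by
      intro h5
      apply right_ne_zero_of_mul hd1
      have := (CharP.cast_eq_zero_iff k p (d + 1)).2 h5
      push_cast at this
      exact this
    have hhiD := hIsup hi hhi
    -- no member `0` if `q = 1`
    have hlo1 : q = 1 → 1 ≤ lo := by
      intro hq1
      by_contra hcon
      have h0 : lo = 0 := by omega
      rw [h0] at hlo
      obtain ⟨k1, k2⟩ := (hmem 0).1 hlo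
      apply k2
      refine ⟨dvd_zero p, ?_⟩
      have hβΓ : β ∈ Γ := by
        have := hL.q_mem
        rw [hq1] at this
        simpa using this
      have hΓΓ : Γ' ≤ Γ := by
        rw [hΓ']
        exact sup_le le_rfl (by rw [AddSubgroup.zmultiples_le]; exact hβΓ)
      obtain ⟨δ, k3, k4⟩ := hτp
      refine ⟨δ, hΓΓ k3, ?_⟩
      rw [← k4]
      push_cast
      ring
    have hq2D : 2 ≤ q → 2 ≤ D → d + 1 < D := by
      intro hq2 hD2
      have h5 : 2 * d ≤ q * d := Nat.mul_le_mul_right _ hq2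
      by_contra hcon
      -- the only critical case is `D = 2`
      have hD : D = 2 := by omega
      have hd : d = 1 := by omega
      have hlo0 : lo = 0 := by omega
      have hhi2 : hi = 2 := by omega
      have hqq : q = 2 := by
        rw [hd, hlo0, hhi2] at hqd
        omega
      rw [hlo0] at hlo
      rw [hhi2] at hhi
      have hm0 := (hmem 0).1 hlo
      have hm2 := (hmem 2).1 hhi
      have hss := hL.same (hP _ _ hm2.1) (hP _ _ hm0.1) (l := 2) (m := 0) (by push_cast; ring)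
      have n0 := hsp 0 hlo
      have n2 := hsp 2 hhi
      rw [hqq] at hss
      push_cast at hss n0 n2
      have hodd : p ≠ 2 := by
        rintro rfl
        push_cast at n0 n2
        omega
      obtain ⟨j, hj⟩ := hp.odd_of_ne_two hodd
      obtain ⟨δ, k3, k4⟩ := hτp
      have h2δ : 2 * δ ∈ Γ := by
        rw [hΓ'] at k3
        obtain ⟨γ, kγ, z, kz, rfl⟩ := AddSubgroup.mem_sup.1 k3
        obtain ⟨m, rfl⟩ := AddSubgroup.mem_zmultiples_iff.1 kz
        have k5 : 2 * (γ + m • β) = (γ + γ) + m • (((2 : ℕ) : ℝ) * β) := by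
          rw [zsmul_eq_mul, zsmul_eq_mul]; push_cast; ring
        rw [k5]
        have k6 := hL.q_mem
        rw [hqq] at k6
        exact Γ.add_mem (Γ.add_mem kγ kγ) (Γ.zsmul_mem k6 m)
      apply hm0.2
      refine ⟨dvd_zero p, δ, ?_, ?_⟩
      · have k5 : δ = (τ - ((0 : ℕ) : ℝ) * β) - j • (2 * δ) := by
          rw [nsmul_eq_mul, k4, hj]; push_cast; ring
        rw [k5]
        exact Γ.sub_mem (hP _ _ hm0.1) (Γ.nsmul_mem h2δ j)
      · rw [← k4]; push_cast; ring
    refine ⟨τ, d + 1, ⟨?_, ?_, ?_, ?_⟩, t1, hτ, ?_, hq2D, ?_, ?_⟩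
    · intro γ l hγ hl
      rw [mul_zero, add_zero]
      exact hge γ l hγ hl
    · intro γ l hγ hv hl
      rw [mul_zero, add_zero]
      refine lt_of_le_of_ne (hge γ l hγ hv) ?_
      rintro rfl
      apply hγ
      rw [hco l hv]
      have hpl := (hVτ l).1 hv
      rcases l with _ | l
      · exact absurd (dvd_zero p) hpl
      · have h5 := hd2 l (by omega)
        rcases mul_eq_zero.1 h5 with h6 | h6
        · exact h6
        · exfalso
          apply hpl
          rw [← CharP.cast_eq_zero_iff k p]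
          push_cast
          exact h6
    · rw [mul_zero, sub_zero, hco _ ((hVτ _).2 hpd)]
      exact left_ne_zero_of_mul hd1
    · rw [mul_zero, sub_zero]
      exact (hVτ _).2 hpd
    · rcases Nat.lt_or_ge q 2 with hq1 | hq2
      · have hq1' : q = 1 := by omega
        have h5 := hlo1 hq1'
        rw [hq1', one_mul] at hqd
        have : d + 1 ≤ D := by omega
        exact this.trans (le_max_left _ _)
      · have h5 : 2 * d ≤ q * d := Nat.mul_le_mul_right _ hq2
        rcases Nat.lt_or_ge D 2 with hD | hD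
        · have : d + 1 ≤ 1 := by omega
          exact this.trans (le_max_right _ _)
        · exact (hq2D hq2 hD).le.trans (le_max_left _ _)
    · intro h5
      apply hfin2 hi hhi
      rcases Nat.lt_or_ge q 2 with hq1 | hq2
      · have hq1' : q = 1 := by omega
        have h6 := hlo1 hq1'
        rw [hq1', one_mul] at hqd
        omega
      · have h6 : 2 * d ≤ q * d := Nat.mul_le_mul_right _ hq2
        omega
    · intro h5 h6
      apply hfin hi hhi
      rcases Nat.lt_or_ge q 2 with hq1 | hq2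
      · have hq1' : q = 1 := by omega
        have h7 := hlo1 hq1'
        rw [hq1', one_mul] at hqd
        omega
      · have := hq2D hq2 (by omega)
        omega
  · -- everything in the class is visible
    have hVτ : ∀ m, Vis p Γ' τ m := fun m k1 => hτp k1.2
    obtain ⟨d, lo, hi, hlo, hhi, hmax, hqd, hd1, hd2⟩ := DD.class_ord hL hc hP I hIne hIco
      (fun l => co P (τ - l * β) l) hIco
      (fun l => (s (τ - l * β) l).toNat) 0 (fun l hl => by
        rw [Int.toNat_of_nonneg (hs0 l hl), sub_zero])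
    have hhiD := hIsup hi hhi
    have h1d : 1 * d ≤ q * d := Nat.mul_le_mul_right _ hq
    refine ⟨τ, d, ⟨?_, ?_, ?_, ?_⟩, t1, hτ, ?_, ?_, ?_, ?_⟩
    · intro γ l hγ hl
      rw [mul_zero, add_zero]
      exact hge γ l hγ hl
    · intro γ l hγ hv hl
      rw [mul_zero, add_zero]
      refine lt_of_le_of_ne (hge γ l hγ hv) ?_
      rintro rfl
      apply hγ
      rw [hco l hv]
      exact hd2 l hl
    · rw [mul_zero, sub_zero, hco _ (hVτ _)]
      exact hd1
    · rw [mul_zero, sub_zero]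
      exact hVτ _
    · have : d ≤ D := by omega
      exact this.trans (le_max_left _ _)
    · intro hq2 hD2
      have h5 : 2 * d ≤ q * d := Nat.mul_le_mul_right _ hq2
      omega
    · intro h5
      apply hfin2 hi hhi
      omega
    · intro h5 h6
      apply hfin hi hhi
      omega

end Pool.Agent.LU1
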