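import Pool.Agent.Lib.LU1_h15.Step
import Pool.Agent.Lib.LU1_h90.Transfer

/-! # Chain lemma, strong Kaplansky theorem M, TAIL (helper90) -/

set_option autoImplicit false

open Polynomial

namespace Pool.Agent.LU1

universe u

variable {k : Type u} [Field k]

/-- Data of the infinite chain with `q = 1`: exponents `B_i ∈ Γ` strictly increasing and
bounded. -/
structure Chn (Γ : AddSubgroup ℝ) (B : ℕ → ℝ) (c : ℕ → k) : Prop where
  fg : Γ.FG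
  mem : ∀ i, B i ∈ Γ
  mono : StrictMono B
  bdd : BddAbove (Set.range B)
  c_ne : ∀ i, c i ≠ 0

/-- The sequence in `Γ`. -/
def Chn.seq {Γ : AddSubgroup ℝ} {B : ℕ → ℝ} {c : ℕ → k} (h : Chn Γ B c) (i : ℕ) : Γ :=
  ⟨B i, h.mem i⟩

theorem Chn.pcs {Γ : AddSubgroup ℝ} {B : ℕ → ℝ} {c : ℕ → k} (h : Chn Γ B c) :
    LU1T.Pcs h.seq c (⨆ i, B i) where
  mono := fun _ _ hij => h.mono hij
  lt := fun j => lt_of_lt_of_le (h.mono (Nat.lt_succ_self j)) (le_ciSup h.bdd (j + 1))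
  lim := fun ε hε => by
    obtain ⟨j, hj⟩ := exists_lt_of_lt_ciSup (show (⨆ i, B i) - ε < ⨆ i, B i by linarith)
    exact ⟨j, hj⟩
  ne := h.c_ne

theorem Chn.Ysum_eq {Γ : AddSubgroup ℝ} {B : ℕ → ℝ} {c : ℕ → k} (h : Chn Γ B c) (s : ℕ) :
    Ysum B c s = LU1T.incl k Γ (LU1T.Ys h.seq c s) :=
  LU1T.Ysum_eq h.seq c s

theorem exists_settled (p : ℕ) (hp : p.Prime) [CharP k p] (Γ : AddSubgroup ℝ) (B : ℕ → ℝ)
    (c : ℕ → k) (h : Chn Γ B c) (Q : (Lau k)[X]) (hQ : SuppIn Γ Q) (hQ0 : Q ≠ 0) :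
    ∃ Q' : (AddMonoidAlgebra k Γ)[X], Q'.map (LU1T.incl k Γ) = Q ∧ ∃ g μ,
      LU1T.Settled h.seq c Q' g μ ∧ ∀ l : ℕ, 1 ≤ l → ∀ g' μ',
        LU1T.Settled h.seq c (hasseDeriv l Q') g' μ' → (g : ℝ) < g' + l * ⨆ i, B i := by
  have := Fact.mk hp
  obtain ⟨Q', rfl⟩ := LU1T.exists_map hQ
  have hQ' : Q' ≠ 0 := by
    rintro rfl
    exact hQ0 (Polynomial.map_zero _)
  obtain ⟨g, μ, h1, h2⟩ := LU1T.kap (p := p) h.fg h.pcs hQ'
  exact ⟨Q', rfl, g, μ, h1, h2⟩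

/-- M: `Q(Y_s) = μ x^g + (exponents ≥ g + δ)` for `s ≥ s0`, and `g (Q) < g (Q^[l]) + l sup B`. -/
theorem exists_g (p : ℕ) (hp : p.Prime) [CharP k p] (Γ : AddSubgroup ℝ) (B : ℕ → ℝ) (c : ℕ → k)
    (h : Chn Γ B c) :
    ∃ g : (Lau k)[X] → ℝ, ∀ Q : (Lau k)[X], SuppIn Γ Q → Q ≠ 0 →
      (∃ s0 : ℕ, ∃ μ : k, μ ≠ 0 ∧ ∃ δ : ℝ, 0 < δ ∧ ∀ s, s0 ≤ s → ∀ θ,
        cf (Q.eval (Ysum B c s) - mon (g Q) μ) θ ≠ 0 → g Q + δ ≤ θ) ∧
      ∀ l, 1 ≤ l → hasseDeriv l Q ≠ 0 → g Q < g (hasseDeriv l Q) + l * ⨆ i, B i := by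
  classical
  have key : ∀ Q : (Lau k)[X], ∃ g : ℝ, SuppIn Γ Q → Q ≠ 0 →
      ∃ Q' : (AddMonoidAlgebra k Γ)[X], Q'.map (LU1T.incl k Γ) = Q ∧ ∃ (g' : Γ) (μ : k),
        (g' : ℝ) = g ∧ LU1T.Settled h.seq c Q' g' μ ∧ ∀ l : ℕ, 1 ≤ l → ∀ g'' μ',
        LU1T.Settled h.seq c (hasseDeriv l Q') g'' μ' → (g' : ℝ) < g'' + l * ⨆ i, B i := by
    intro Q
    by_cases hQ : SuppIn Γ Q ∧ Q ≠ 0
    · obtain ⟨Q', h1, g, μ, h2, h3⟩ := exists_settled p hp Γ B c h Q hQ.1 hQ.2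
      exact ⟨g, fun _ _ => ⟨Q', h1, g, μ, rfl, h2, h3⟩⟩
    · exact ⟨0, fun h1 h2 => absurd ⟨h1, h2⟩ hQ⟩
  choose g hg using key
  refine ⟨g, fun Q hQ hQ0 => ?_⟩
  obtain ⟨Q', h1, g', μ, hgg, h2, h3⟩ := hg Q hQ hQ0
  refine ⟨?_, fun l hl hl0 => ?_⟩
  · obtain ⟨hμ, δ, hδ, hev⟩ := h2
    obtain ⟨s0, hs0⟩ := Filter.eventually_atTop.1 hev
    refine ⟨s0, μ, hμ, δ, hδ, fun s hs θ hθ => ?_⟩
    have h4 : Q.eval (Ysum B c s) - mon (g Q) μ =
        LU1T.incl k Γ (Q'.eval (LU1T.Ys h.seq c s) - AddMonoidAlgebra.single g' μ) := by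
      rw [map_sub, LU1T.incl_single, h.Ysum_eq, ← h1, LU1T.eval_map_incl, hgg, h1]
    rw [h4] at hθ
    have h5 := LU1T.mem_of_cf_incl hθ
    have h6 : cf (LU1T.incl k Γ (Q'.eval (LU1T.Ys h.seq c s) - AddMonoidAlgebra.single g' μ))
        ((⟨θ, h5⟩ : Γ) : ℝ) ≠ 0 := hθ
    rw [LU1T.cf_incl] at h6
    have h7 := hs0 s hs ⟨θ, h5⟩ h6
    rw [← hgg]
    exact h7
  · have hS : SuppIn Γ (hasseDeriv l Q) := by
      rw [← h1, ← LU1T.map_hasseDeriv]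
      exact LU1T.suppIn_map _
    obtain ⟨Q'', h4, g'', μ'', hgg', h5, -⟩ := hg (hasseDeriv l Q) hS hl0
    have h6 : Q'' = hasseDeriv l Q' := by
      rw [← LU1T.map_inj, h4, LU1T.map_hasseDeriv, h1]
    subst h6
    have h7 := h3 l hl _ _ h5
    rw [← hgg, ← hgg']
    exact h7

theorem KAP (p : ℕ) (hp : p.Prime) [CharP k p] (Γ : AddSubgroup ℝ) (B : ℕ → ℝ) (c : ℕ → k)
    (h : Chn Γ B c) (Q : (Lau k)[X]) (hQΓ : SuppIn Γ Q) (hQ : Q ≠ 0) :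
    ∃ s0 κ, ∀ s, s0 ≤ s → IsLD All (taylor (Ysum B c (s + 1)) Q) (B s) κ 0 := by
  classical
  have := Fact.mk hp
  obtain ⟨Q', h1, g, μ, h2, h3⟩ := exists_settled p hp Γ B c h Q hQΓ hQ
  have hpcs := h.pcs
  -- rows `l ≥ 1`
  have hrows : ∀ᶠ s in Filter.atTop, ∀ l ∈ Finset.Icc 1 Q'.natDegree, ∀ θ : Γ,
      ((hasseDeriv l Q').eval (LU1T.Ys h.seq c (s + 1))).coeff θ ≠ 0 →
        (g : ℝ) < θ + l * B s := by
    refine (Filter.eventually_all_finset _).2 fun l hl => ?_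
    rw [Finset.mem_Icc] at hl
    by_cases h0 : hasseDeriv l Q' = 0
    · refine Filter.Eventually.of_forall fun s θ hθ => ?_
      rw [h0, eval_zero] at hθ
      exact absurd rfl hθ
    · obtain ⟨g', μ', hg', -⟩ := LU1T.kap (p := p) h.fg hpcs h0
      have h4 := h3 l hl.1 _ _ hg'
      obtain ⟨-, δ, hδ, hev⟩ := hg'
      have h5 := hpcs.eventually_mul (ε := (g' : ℝ) + l * (⨆ i, B i) - g) (by linarith) l
      filter_upwards [h5, (Filter.tendsto_add_atTop_nat 1).eventually hev] with s hs1 hs2 θ hθ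
      have h6 := hs2.ge hδ.le θ hθ
      have h7 : ((h.seq s : Γ) : ℝ) = B s := rfl
      rw [h7] at hs1
      linarith
  obtain ⟨hμ, δ, hδ, hev⟩ := h2
  obtain ⟨s0, hs0⟩ := Filter.eventually_atTop.1
    (hrows.and ((Filter.tendsto_add_atTop_nat 1).eventually hev))
  refine ⟨s0, g, fun s hs => ?_⟩
  obtain ⟨hs1, hs2⟩ := hs0 s hs
  have h4 : taylor (Ysum B c (s + 1)) Q =
      (taylor (LU1T.Ys h.seq c (s + 1)) Q').map (LU1T.incl k Γ) := by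
    rw [map_taylor, h1, h.Ysum_eq]
  rw [h4]
  refine ⟨fun γ l hco _ => ?_, fun γ l _ _ hl => absurd hl (Nat.not_lt_zero l), ?_, trivial⟩
  · have h5 := LU1T.suppIn_map _ γ l hco
    have h6 : co ((taylor (LU1T.Ys h.seq c (s + 1)) Q').map (LU1T.incl k Γ))
        ((⟨γ, h5⟩ : Γ) : ℝ) l ≠ 0 := hco
    rw [LU1T.co_map, taylor_coeff] at h6
    rcases Nat.eq_zero_or_pos l with rfl | hl
    · rw [hasseDeriv_zero'] at h6
      have h7 := hs2.ge hδ.le _ h6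
      rw [Nat.cast_zero, zero_mul, add_zero]
      exact h7
    · by_cases hld : l ≤ Q'.natDegree
      · exact (hs1 l (Finset.mem_Icc.2 ⟨hl, hld⟩) _ h6).le
      · rw [hasseDeriv_eq_zero_of_lt_natDegree Q' l (by omega), eval_zero] at h6
        exact absurd rfl h6
  · rw [Nat.cast_zero, zero_mul, sub_zero, LU1T.co_map, taylor_coeff_zero, hs2.coeff hδ]
    exact hμ

/-- TAIL: an Artin-Schreier class cannot be stuck at `D ≥ 2` on an infinite chain with `q = 1`. -/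
theorem TAIL (p : ℕ) (hp : p.Prime) [CharP k p] [IsAlgClosed k] (Γ : AddSubgroup ℝ) (B : ℕ → ℝ)
    (c : ℕ → k) (h : Chn Γ B c) (G : (Lau k)[X]) (hG : SuppIn Γ G) (D : ℕ) (hD : 2 ≤ D) (ρ : ℝ)
    (hρ : ρ ∈ Γ) (hvis : Vis p Γ ρ D) (hneg : ∀ s, ρ + D * B s < 0) (I s0 : ℕ)
    (Gs hs Es : ℕ → (Lau k)[X])
    (hGs : ∀ s, s0 ≤ s → SuppIn Γ (Gs s)) (hhs : ∀ s, s0 ≤ s → SuppIn Γ (hs s))
    (hEs : ∀ s, s0 ≤ s → SuppIn Γ (Es s))
    (heq : ∀ s, s0 ≤ s → taylor (Ysum B c s) G = Gs s + (hs s ^ p - hs s) + Es s)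
    (hdeg : ∀ s, s0 ≤ s → (hs s).natDegree < p ^ I)
    (h1 : ∀ s, s0 ≤ s → ∀ γ l, co (Gs s) γ l ≠ 0 → ρ + D * B s ≤ γ + l * B s)
    (h1' : ∀ s, s0 ≤ s → ∀ γ l, co (Gs s) γ l ≠ 0 → D < l → ρ + D * B s < γ + l * B s)
    (h2 : ∀ s, s0 ≤ s → co (Gs s) ρ D ≠ 0)
    (h3 : ∀ s, s0 ≤ s → ∀ γ l, co (Gs s) γ l ≠ 0 → γ + l * B s < 0 → Vis p Γ γ l)
    (h4 : ∀ s, s0 ≤ s → ∀ γ l, co (Es s) γ l ≠ 0 → 0 ≤ γ + l * B s) : False := by
  classical
  have := Fact.mk hp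
  obtain ⟨G', rfl⟩ := LU1T.exists_map hG
  set N := max G'.natDegree (p * p ^ I) with hN
  have hNG : G'.natDegree ≤ N := le_max_left _ _
  have hNI : p * p ^ I ≤ N := le_max_right _ _
  have hpI : p ^ I ≤ p * p ^ I := Nat.le_mul_of_pos_left _ hp.pos
  refine LU1T.Tail.false (p := p) (B := h.seq) (c := c) (b := ⨆ i, B i) (N := N) (D := D)
    (ρ := ⟨ρ, hρ⟩) (G := G') (s₀ := s0) h.fg ⟨h.pcs, hD, hneg, fun s hss => ?_⟩
  obtain ⟨R, hR⟩ := LU1T.exists_map (hGs s hss)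
  obtain ⟨h', hh'⟩ := LU1T.exists_map (hhs s hss)
  obtain ⟨E, hE⟩ := LU1T.exists_map (hEs s hss)
  have heq' : taylor (LU1T.Ys h.seq c s) G' = R + (h' ^ p - h') + E := by
    rw [← LU1T.map_inj, map_taylor, ← h.Ysum_eq, heq s hss, Polynomial.map_add,
      Polynomial.map_add, Polynomial.map_sub, Polynomial.map_pow, hR, hh', hE]
  have hdh : h'.natDegree < p ^ I := by
    have h5 := hdeg s hss
    rwa [← hh', natDegree_map_eq_of_injective LU1T.incl_injective] at h5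
  have hco : ∀ (F : (Lau k)[X]) (F' : (AddMonoidAlgebra k Γ)[X]),
      F'.map (LU1T.incl k Γ) = F → ∀ (γ : Γ) (l : ℕ), co F (γ : ℝ) l = (F'.coeff l).coeff γ := by
    rintro F F' rfl γ l
    exact LU1T.co_map F' γ l
  -- coefficients above `N`
  have hhigh : ∀ i, N < i → R.coeff i + E.coeff i = 0 := by
    intro i hi
    have h5 := congrArg (fun F => F.coeff i) heq'
    simp only [Polynomial.coeff_add, Polynomial.coeff_sub] at h5
    have h6 : (taylor (LU1T.Ys h.seq c s) G').coeff i = 0 :=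
      coeff_eq_zero_of_natDegree_lt (by rw [natDegree_taylor]; omega)
    have h7 : (h' ^ p).coeff i = 0 := by
      refine coeff_eq_zero_of_natDegree_lt (lt_of_le_of_lt natDegree_pow_le ?_)
      have := Nat.mul_le_mul_left p hdh.le
      omega
    have h8 : h'.coeff i = 0 := coeff_eq_zero_of_natDegree_lt (by omega)
    rw [h6, h7, h8, sub_zero, add_zero] at h5
    exact h5.symm
  have hRD : (R.coeff D).coeff ⟨ρ, hρ⟩ ≠ 0 := by
    rw [← hco _ _ hR]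
    exact h2 s hss
  have hDN : D ≤ N := by
    by_contra hcon
    push Not at hcon
    have h5 := congrArg (fun a => a.coeff (⟨ρ, hρ⟩ : Γ)) (hhigh D hcon)
    simp only [AddMonoidAlgebra.coeff_add, Finsupp.add_apply] at h5
    have h6 : (E.coeff D).coeff (⟨ρ, hρ⟩ : Γ) ≠ 0 := by
      intro h0
      rw [h0, add_zero] at h5
      exact hRD h5
    rw [← hco _ _ hE] at h6
    exact absurd (h4 s hss _ _ h6) (not_le.2 (hneg s))
  refine ⟨LU1T.trunc N R, h', LU1T.trunc N E, ?_, LU1T.trunc_natDegree N R,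
    hdh.le.trans (hpI.trans hNI), fun l θ hθ => ?_, ?_, fun l θ hpl hθ => ?_, fun l θ hθ => ?_⟩
  · ext1 i
    rw [Polynomial.coeff_add, Polynomial.coeff_add, Polynomial.coeff_sub, LU1T.trunc_coeff,
      LU1T.trunc_coeff]
    by_cases hi : i ≤ N
    · rw [if_pos hi, if_pos hi, heq', Polynomial.coeff_add, Polynomial.coeff_add,
        Polynomial.coeff_sub]
    · rw [if_neg hi, if_neg hi, zero_add, add_zero]
      have h5 := hhigh i (by omega)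
      rw [heq', Polynomial.coeff_add, Polynomial.coeff_add, Polynomial.coeff_sub,
        add_right_comm, h5, zero_add]
  · rw [LU1T.trunc_coeff] at hθ
    split_ifs at hθ with hl
    · rw [← hco _ _ hR] at hθ
      have h5 := h1 s hss _ _ hθ
      have h6 : ((h.seq s : Γ) : ℝ) = B s := rfl
      rw [h6]
      linarith
    · exact absurd rfl hθ
  · rw [LU1T.trunc_coeff, if_pos hDN]
    exact hRD
  · rw [LU1T.trunc_coeff] at hθ
    split_ifs at hθ with hl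
    · rw [← hco _ _ hR] at hθ
      by_contra hcon
      push Not at hcon
      have h6 : ((h.seq s : Γ) : ℝ) = B s := rfl
      rw [h6] at hcon
      have h7 : ((p • θ : Γ) : ℝ) = p * θ := by rw [AddSubgroup.coe_nsmul, nsmul_eq_mul]
      refine h3 s hss _ _ hθ (by rw [h7]; exact hcon) ⟨hpl, θ, θ.2, h7⟩
    · exact absurd rfl hθ
  · rw [LU1T.trunc_coeff] at hθ
    split_ifs at hθ with hl
    · rw [← hco _ _ hE] at hθ
      have h5 := h4 s hss _ _ hθ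
      have h6 : ((h.seq s : Γ) : ℝ) = B s := rfl
      rw [h6]
      linarith
    · exact absurd rfl hθ

end Pool.Agent.LU1
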