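import Pool.Agent.Lib.LU1_h15.TStepEx
import Pool.Agent.Lib.LU1_h15.DD
import Pool.Agent.Lib.LU1_h15.Tail

/-! # B6: monomialisation -/

set_option autoImplicit false

namespace Pool.Agent.LU1

open Pool.Agent.H15JM (RVal)
open Polynomial

universe u

variable {k Ω : Type u} [Field k] [Field Ω] [Algebra k Ω] {v : RVal Ω} {r : ℕ}

section
open Classical in
/-- the support of a polynomial, as a set of pairs `(γ, l)` -/
theorem exists_supp (P : (Lau k)[X]) : ∃ S : Finset (ℝ × ℕ), ∀ a : ℝ × ℕ,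
    a ∈ S ↔ co P a.1 a.2 ≠ 0 := by
  refine ⟨P.support.biUnion fun l => ((P.coeff l).coeff.support).image fun γ => (γ, l), ?_⟩
  rintro ⟨γ, l⟩
  simp only [Finset.mem_biUnion, Finset.mem_image, Finsupp.mem_support_iff, Prod.mk.injEq,
    Polynomial.mem_support_iff]
  constructor
  · rintro ⟨l', -, γ', h, rfl, rfl⟩
    exact h
  · intro h
    refine ⟨l, ?_, γ, h, rfl, rfl⟩
    intro h0
    apply h
    show (P.coeff l).coeff γ = 0
    rw [h0]
    rfl
end

/-- A state of the algorithm: a frame and a polynomial with nonnegative exponents representing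
`f`, with lexicographic minimum `(κ, D)`. -/
structure MState (B0 : BF k v) (f : Ω) (D : ℕ) where
  B : BF k v
  P : (Lau k)[X]
  κ : ℝ
  reach : Reach B0 B
  supp : SuppIn B.Γ P
  nn : ∀ γ l, co P γ l ≠ 0 → 0 ≤ γ
  ev : B.ev P = f
  ld : IsLD All P 0 κ D

/-- One step of the algorithm. -/
theorem MState.step (h : Ctx k v r) {B0 : BF k v} {f : Ω} {D : ℕ} (T : MState B0 f D) :
    ∃ (D' : ℕ) (T' : MState B0 f D') (q : ℕ) (c : k) (s : ℝ → ℤ → ℤ),
      IsTStep T.B T'.B q c s ∧ T'.P = tpoly (v T.B.y) c s T.P ∧ D' ≤ D ∧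
      (2 ≤ q → 1 ≤ D → D' < D) ∧ (q = 1 → ∀ γ ∈ T.B.Γ, ∀ l : ℤ, s γ l = l) := by
  obtain ⟨S, hS⟩ := exists_supp T.P
  obtain ⟨B', q, c, s, hst, hpos, hq1⟩ := T.B.exists_tstep h S
    (fun a ha => T.supp a.1 a.2 ((hS a).1 ha)) 1 (Or.inl rfl)
  have hβ := T.B.y_pos
  have h00 : s 0 0 = 0 := by
    have h1 := hst.s_add 0 T.B.Γ.zero_mem 0 T.B.Γ.zero_mem 0 0
    rw [add_zero, add_zero] at h1
    omega
  have hs : ∀ γ l, co T.P γ l ≠ 0 → 0 ≤ s γ (l : ℤ) := by
    intro γ l hc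
    have h0 := T.nn γ l hc
    have hl : (0 : ℝ) ≤ (l : ℝ) * v T.B.y := mul_nonneg (Nat.cast_nonneg l) hβ.le
    rcases lt_or_eq_of_le (add_nonneg h0 hl) with h1 | h1
    · exact hpos (γ, l) ((hS (γ, l)).2 hc) (by rw [one_mul]; exact h1)
    · have h2 : γ = 0 := by linarith
      have h3 : (l : ℝ) * v T.B.y = 0 := by linarith
      have h4 : l = 0 := by
        rcases mul_eq_zero.mp h3 with h5 | h5
        · exact_mod_cast h5
        · exact absurd h5 hβ.ne'
      rw [h2, h4, Nat.cast_zero, h00]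
  obtain ⟨κ', D', hLD, -, -, hle, hlt, -⟩ := DD_ml hst.latData hst.c_ne T.supp hs T.ld
  refine ⟨D', ⟨B', tpoly (v T.B.y) c s T.P, κ', T.reach.tail ⟨q, c, s, hst⟩, ?_, ?_, ?_, hLD⟩,
    q, c, s, hst, rfl, hle, hlt, hq1⟩
  · have h1 := SuppIn.tpoly (β := v T.B.y) (c := c) (s := s) T.supp
    rwa [← hst.Γ_eq] at h1
  · refine tpoly_ge (τ := 0) fun γ l hc => ?_
    exact add_nonneg (T.nn γ l hc) (mul_nonneg (Nat.cast_nonneg l) hβ.le)
  · rw [hst.ev_tpoly T.supp hs, T.ev]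

/-- `IsLD` and the coordinate change `Y ↦ x^b Y`. -/
theorem IsLD.comp_mon {Q : (Lau k)[X]} {b κ : ℝ} {D : ℕ}
    (h : IsLD All (Q.comp (C (mon b 1) * X)) 0 κ D) : IsLD All Q b κ D := by
  obtain ⟨h1, h2, h3, -⟩ := h
  have key : ∀ γ l, co Q γ l ≠ 0 → co (Q.comp (C (mon b 1) * X)) (γ + l * b) l ≠ 0 := by
    intro γ l hc
    rw [co_comp_mon, add_sub_cancel_right]
    exact hc
  refine ⟨fun γ l hc _ => ?_, fun γ l hc _ hl => ?_, ?_, trivial⟩
  · have h4 := h1 _ l (key γ l hc) trivial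
    rwa [mul_zero, add_zero] at h4
  · have h4 := h2 _ l (key γ l hc) trivial hl
    rwa [mul_zero, add_zero] at h4
  · rw [co_comp_mon, mul_zero, sub_zero] at h3
    exact h3

/-- There is no infinite sequence of states of the same order `D ≥ 1` connected by T-steps with
`q = 1`. -/
theorem no_chain (p : ℕ) (hp : p.Prime) [CharP k p] (h : Ctx k v r) {B0 : BF k v} {f : Ω}
    {D : ℕ} (hD : 1 ≤ D) (T : ℕ → MState B0 f D)
    (hT : ∀ n, ∃ (c : k) (s : ℝ → ℤ → ℤ), IsTStep (T n).B (T (n + 1)).B 1 c s ∧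
      (T (n + 1)).P = tpoly (v (T n).B.y) c s (T n).P ∧
      (∀ γ ∈ (T n).B.Γ, ∀ l : ℤ, s γ l = l)) : False := by
  choose c s hst hP hs using hT
  -- `β_n` and partial sums
  set β : ℕ → ℝ := fun n => v (T n).B.y with hβ
  set b : ℕ → ℝ := fun n => ∑ i ∈ Finset.range n, β i with hb
  have hb0 : b 0 = 0 := by simp [hb]
  have hbs : ∀ n, b (n + 1) = b n + β n := fun n => by simp [hb, Finset.sum_range_succ]
  have hβpos : ∀ n, 0 < β n := fun n => (T n).B.y_pos
  have hβmem : ∀ n, β n ∈ (T n).B.Γ := by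
    intro n
    have h1 := (hst n).q_mem
    rwa [Nat.cast_one, one_mul] at h1
  have hΓ : ∀ n, (T n).B.Γ = (T 0).B.Γ := by
    intro n
    induction n with
    | zero => rfl
    | succ n ih =>
      rw [(hst n).Γ_eq, ← ih, sup_eq_left, AddSubgroup.zmultiples_le]
      exact hβmem n
  have hbmem : ∀ n, b n ∈ (T 0).B.Γ := by
    intro n
    induction n with
    | zero => rw [hb0]; exact AddSubgroup.zero_mem _
    | succ n ih =>
      rw [hbs]
      exact AddSubgroup.add_mem _ ih (by rw [← hΓ n]; exact hβmem n)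
  have hbmono : StrictMono b := strictMono_nat_of_lt_succ fun n => by
    rw [hbs]
    linarith [hβpos n]
  -- the polynomials
  set Q := (T 0).P with hQ
  have hmon0 : (C (mon (0 : ℝ) (1 : k)) : (Lau k)[X]) * X = X := by
    have h1 : (mon (0 : ℝ) (1 : k) : Lau k) = 1 := rfl
    rw [h1, C_1, one_mul]
  have hpoly : ∀ n, (T n).P =
      (taylor (Ysum (fun i => b (i + 1)) c n) Q).comp (C (mon (b n) 1) * X) := by
    intro n
    induction n with
    | zero =>
      rw [hb0, hmon0, comp_X, Ysum, Finset.range_zero, Finset.sum_empty, taylor_zero]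
    | succ n ih =>
      rw [hP n, tpoly_one _ _ _ _ (fun γ l hc => hs n γ ((T n).supp γ l hc) l), ih,
        comp_taylor_step]
      have e1 : Ysum (fun i => b (i + 1)) c (n + 1) =
          Ysum (fun i => b (i + 1)) c n + mon (b n + v (T n).B.y) (c n) := by
        rw [Ysum, Ysum, Finset.sum_range_succ]
        simp only [hbs]
        rfl
      have e2 : b (n + 1) = b n + v (T n).B.y := hbs n
      rw [e1, e2]
  -- contents
  have hκlt : ∀ n, (T n).κ < v f := by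
    intro n
    have h1 := (T n).B.rep_ev h (T n).supp (T n).ld
    rw [(T n).ev] at h1
    exact h1.val_pos h hD
  have hκs : ∀ n, (T n).κ = (T 0).κ + D * b n := by
    intro n
    induction n with
    | zero => rw [hb0, mul_zero, add_zero]
    | succ n ih =>
      have hpos : ∀ γ l, co (T n).P γ l ≠ 0 → 0 ≤ s n γ (l : ℤ) := fun γ l hc => by
        rw [hs n γ ((T n).supp γ l hc) l]
        exact Int.natCast_nonneg l
      obtain ⟨κ', D', hLD, -, -, -, -, heq⟩ :=
        DD_ml (hst n).latData (hst n).c_ne (T n).supp hpos (T n).ld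
      rw [← hP n] at hLD
      obtain ⟨e1, e2⟩ := hLD.unique (T (n + 1)).ld
      rw [← e1, heq e2, ih, hbs]
      ring
  have hbdd : BddAbove (Set.range fun i => b (i + 1)) := by
    refine ⟨(v f - (T 0).κ), ?_⟩
    rintro _ ⟨n, rfl⟩
    have h1 := hκlt (n + 1)
    rw [hκs] at h1
    have h2 : b (n + 1) ≤ D * b (n + 1) := by
      have h3 : (1 : ℝ) ≤ D := by exact_mod_cast hD
      have h4 : 0 ≤ b (n + 1) := by
        rw [← hb0]
        exact (hbmono (Nat.succ_pos n)).le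
      nlinarith
    show b (n + 1) ≤ _
    linarith
  have hChn : Chn (T 0).B.Γ (fun i => b (i + 1)) c :=
    ⟨(T 0).B.fg, fun i => hbmem _, fun i j hij => hbmono (Nat.succ_lt_succ hij), hbdd,
      fun i => (hst i).c_ne⟩
  have hQ0 : Q ≠ 0 := by
    intro h0
    have h1 := (T 0).ld.2.2.1
    rw [← hQ, h0] at h1
    apply h1
    show cf ((0 : (Lau k)[X]).coeff D) _ = 0
    rw [coeff_zero]
    rfl
  obtain ⟨s0, κ, hK⟩ := KAP p hp (T 0).B.Γ (fun i => b (i + 1)) c hChn Q (T 0).supp hQ0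
  have h1 := hK s0 le_rfl
  have h2 := (T (s0 + 1)).ld
  rw [hpoly (s0 + 1)] at h2
  obtain ⟨-, e⟩ := h1.unique h2.comp_mon
  omega

/-- Polynomials become monomial after finitely many T-steps. -/
theorem ML_poly (p : ℕ) (hp : p.Prime) [CharP k p] (h : Ctx k v r) (B : BF k v)
    (P : (Lau k)[X]) (hP : SuppIn B.Γ P) (h0 : ∀ γ l, co P γ l ≠ 0 → 0 ≤ γ)
    (hne : B.ev P ≠ 0) : ∃ B' : BF k v, Reach B B' ∧ B'.Mono (B.ev P) := by
  classical
  -- initial state
  have hvis : ∃ γ l, co P γ l ≠ 0 ∧ All γ l := by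
    by_contra hcon
    push Not at hcon
    apply hne
    have hP0 : P = 0 := by
      ext l : 1
      have h1 : (P.coeff l) = 0 := by
        apply AddMonoidAlgebra.ext
        apply Finsupp.ext
        intro γ
        by_contra h2
        exact hcon γ l h2 trivial
      rw [h1, coeff_zero]
    rw [hP0]
    show (0 : (Lau k)[X]).sum (fun l a => evL B.χ a * B.y ^ l) = 0
    exact sum_zero_index _
  obtain ⟨κ0, D0, hLD0⟩ := exists_IsLD All P 0 hvis
  let T0 : MState B (B.ev P) D0 := ⟨B, P, κ0, Relation.ReflTransGen.refl, hP, h0, rfl, hLD0⟩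
  have hex : ∃ D, Nonempty (MState B (B.ev P) D) := ⟨D0, ⟨T0⟩⟩
  obtain ⟨T⟩ := Nat.find_spec hex
  set D := Nat.find hex with hDdef
  rcases Nat.eq_zero_or_pos D with hD | hD
  · refine ⟨T.B, T.reach, ?_⟩
    have h1 := T.B.rep_ev h T.supp T.ld
    rw [T.ev] at h1
    have h2 : ∀ D', D' = 0 → T.B.Rep (B.ev P) T.κ D' → T.B.Mono (B.ev P) := by
      rintro _ rfl h3
      exact h3.val_zero.2.2
    exact h2 D hD h1
  · exfalso
    -- every state of order `D` has a successor of order `D`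
    have hsucc : ∀ T : MState B (B.ev P) D, ∃ T' : MState B (B.ev P) D,
        ∃ (c : k) (s : ℝ → ℤ → ℤ), IsTStep T.B T'.B 1 c s ∧
          T'.P = tpoly (v T.B.y) c s T.P ∧ (∀ γ ∈ T.B.Γ, ∀ l : ℤ, s γ l = l) := by
      intro T
      obtain ⟨D', T', q, c, s, hst, hPP, hle, hlt, hq1⟩ := T.step h
      have hmin : D ≤ D' := Nat.find_min' hex ⟨T'⟩
      have hDD : D' = D := le_antisymm hle hmin
      have hq : q = 1 := by
        have hqpos := hst.q_pos
        by_contra hq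
        have := hlt (by omega) hD
        omega
      subst hq
      clear_value D
      subst hDD
      exact ⟨T', c, s, hst, hPP, hq1 rfl⟩
    choose nxt hnxt using hsucc
    let Tn : ℕ → MState B (B.ev P) D := fun n => Nat.rec T (fun _ x => nxt x) n
    exact no_chain p hp h hD Tn (fun n => hnxt (Tn n))

/-- An element of the ring of a frame becomes monomial. -/
theorem ML_mem (p : ℕ) (hp : p.Prime) [CharP k p] (h : Ctx k v r) (B : BF k v) {f : Ω}
    (hf : f ∈ B.R) (hf0 : f ≠ 0) : ∃ B' : BF k v, Reach B B' ∧ B'.Mono f := by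
  classical
  -- a noetherian frame containing `f`
  obtain ⟨S0, G, hS0, -, -, hG⟩ := B.exists_NF h {f} (by simpa using hf)
  obtain ⟨u, hu⟩ := B.exists_basis h S0 hS0
  obtain ⟨N, hNx, hNy, -, hNR, hNf⟩ := hG u hu
  have hfN : f ∈ N.R := hNf f (Finset.mem_singleton_self f)
  -- `ε`
  have hne : (Finset.univ : Finset (Fin r)).Nonempty := ⟨⟨0, h.rpos⟩, Finset.mem_univ _⟩
  obtain ⟨i0, -, hi0⟩ := Finset.exists_min_image Finset.univ u hne
  set ε : ℝ := min (u i0) (v B.y) with hε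
  have hεpos : 0 < ε := lt_min (hu.pos i0) B.y_pos
  have hεu : ∀ i, ε ≤ u i := fun i => (min_le_left _ _).trans (hi0 i (Finset.mem_univ i))
  have hεy : ε ≤ v B.y := min_le_right _ _
  obtain ⟨M, hM⟩ := exists_nat_gt (v f / ε)
  have hMε : v f < M * ε := by rwa [div_lt_iff₀ hεpos] at hM
  obtain ⟨P, -, hPs, hPn, hPe⟩ := NF.expand h B N u (fun i => ⟨hu.mem i, hu.pos i⟩) hNx hNy f
    hfN M
  -- after at least one T-step the error is small
  have herr : ∀ B1 B' : BF k v, TStep B B1 → Reach B1 B' →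
      ε ∈ B'.Γ ∧ ∃ a ∈ B'.R, f - B.ev P = B'.χ ε ^ M * a := by
    intro B1 B' h1 h2
    obtain ⟨q, c, s, h1⟩ := h1
    have hext := h2.ext
    have hext1 := h1.ext
    have hε1 : ε ∈ B1.Γ := by
      rcases min_choice (u i0) (v B.y) with h3 | h3
      · rw [hε, h3]
        exact hext1.Γ_le _ (hu.mem i0)
      · rw [hε, h3]
        exact h1.β_mem
    have hε' : ε ∈ B'.Γ := hext.Γ_le _ hε1
    refine ⟨hε', ?_⟩
    have hdvd : ∀ g : Ω, B'.Mono g → ε ≤ v g → ∃ a ∈ B'.R, g = B'.χ ε * a := by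
      intro g hg hle
      have h3 : B'.Mono (g / B'.χ ε) := hg.div (BF.Mono.χ hε')
      refine ⟨g / B'.χ ε, h3.mem ?_, by rw [mul_div_cancel₀ _ (B'.χ_ne _ hε')]⟩
      rw [v.map_div hg.1 (B'.χ_ne _ hε'), B'.χ_val _ hε']
      linarith
    refine N.inPow_dvd B'.R (hNR.trans (hext1.le.trans hext.le)) (B'.χ ε) (fun i => ?_) ?_ M _ hPe
    · apply hdvd
      · rw [hNx]
        exact hext.mono (hext1.mono (BF.Mono.χ (hu.mem i)))
      · rw [hNx, B.χ_val _ (hu.mem i)]
        exact hεu i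
    · apply hdvd
      · rw [hNy]
        exact hext.mono h1.mono_y
      · rw [hNy]
        exact hεy
  have hvχ : ∀ B' : BF k v, ε ∈ B'.Γ → ∀ a ∈ B'.R, v.Ge (M * ε) (B'.χ ε ^ M * a) := by
    intro B' hε' a ha h3
    have h4 := left_ne_zero_of_mul h3
    have h5 := right_ne_zero_of_mul h3
    rw [v.map_mul h4 h5, v.map_pow (B'.χ_ne _ hε'), B'.χ_val _ hε']
    have h6 := B'.nonneg a ha h5
    linarith
  -- `B.ev P` is not zero and has the same value as `f`
  obtain ⟨B1, q1, c1, s1, hB1, -, -⟩ := B.exists_tstep h ∅ (by simp) 1 (Or.inl rfl)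
  obtain ⟨hε1, a1, ha1, he1⟩ := herr B1 B1 ⟨q1, c1, s1, hB1⟩ Relation.ReflTransGen.refl
  have hge : v.Ge (M * ε) (f - B.ev P) := by
    rw [he1]
    exact hvχ B1 hε1 a1 ha1
  have hPne : B.ev P ≠ 0 := by
    intro h3
    rw [h3, sub_zero] at hge
    exact absurd (hge hf0) (not_le.2 hMε)
  have hvP : v (B.ev P) = v f := by
    by_cases h3 : f - B.ev P = 0
    · rw [sub_eq_zero.mp h3]
    · have h4 := v.add_of_lt hf0 (neg_ne_zero.2 h3) (by
        rw [v.map_neg _ h3]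
        exact lt_of_lt_of_le hMε (hge h3))
      have h5 : f + -(f - B.ev P) = B.ev P := by ring
      rw [h5] at h4
      exact h4.2
  obtain ⟨B2, hr2, hm2⟩ := ML_poly p hp h B P hPs hPn hPne
  obtain ⟨B3, q3, c3, s3, hB3, -, -⟩ := B2.exists_tstep h ∅ (by simp) 1 (Or.inl rfl)
  have hst3 : TStep B2 B3 := ⟨q3, c3, s3, hB3⟩
  have hr3 : Reach B B3 := hr2.tail hst3
  -- the first step of the chain from `B` to `B3`
  obtain ⟨B4, h4, h4'⟩ : ∃ B4, TStep B B4 ∧ Reach B4 B3 := by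
    have h5 : Relation.TransGen TStep B B3 := Relation.TransGen.tail' hr2 hst3
    exact Relation.TransGen.head'_iff.mp h5
  obtain ⟨hε3, a3, ha3, he3⟩ := herr B4 B3 h4 h4'
  refine ⟨B3, hr3, ?_⟩
  have hm3 : B3.Mono (B.ev P) := hB3.ext.mono hm2
  obtain ⟨-, hvf, hun⟩ := hm3
  rw [hvP] at hvf hun
  have hχf := B3.χ_ne _ hvf
  have hMεmem : (M : ℝ) * ε ∈ B3.Γ := by
    rw [← nsmul_eq_mul]
    exact B3.Γ.nsmul_mem hε3 M
  refine ⟨hf0, hvf, ?_⟩
  have hrest : f / B3.χ (v f) = B.ev P / B3.χ (v f) + B3.χ (M * ε - v f) * a3 := by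
    have h5 : f = B.ev P + B3.χ ε ^ M * a3 := by
      rw [← he3]
      ring
    have h6 : B3.χ (M * ε - v f) = B3.χ ε ^ M / B3.χ (v f) := by
      rw [B3.χ_sub hMεmem hvf, B3.χ_nsmul hε3]
    rw [h6]
    have h7 : f / B3.χ (v f) = (B.ev P + B3.χ ε ^ M * a3) / B3.χ (v f) :=
      congrArg (fun g => g / B3.χ (v f)) h5
    rw [h7, add_div]
    congr 1
    ring
  rw [hrest]
  have hmem := B3.Γ.sub_mem hMεmem hvf
  have hpos : 0 < M * ε - v f := by linarith
  refine hun.add_vpos (B3.R.mul_mem (B3.χ_mem _ hmem hpos.le) ha3) ?_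
  exact (B3.vpos_χ hmem hpos).mul (B3.nonneg a3 ha3)

theorem ML (p : ℕ) (hp : p.Prime) [CharP k p] (h : Ctx k v r) (B : BF k v)
    (E : IntermediateField k Ω) (hE : FracIs B.R E) (T : Finset Ω)
    (hT : ∀ f ∈ T, f ∈ E ∧ f ≠ 0) : ∃ B' : BF k v, Reach B B' ∧ ∀ f ∈ T, B'.Mono f := by
  classical
  induction T using Finset.induction_on with
  | empty => exact ⟨B, Relation.ReflTransGen.refl, by simp⟩
  | insert f T _ ih =>
    obtain ⟨B1, hr1, hm1⟩ := ih fun g hg => hT g (Finset.mem_insert_of_mem hg)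
    obtain ⟨hfE, hf0⟩ := hT f (Finset.mem_insert_self f T)
    obtain ⟨a, ha, b, hb, hb0, rfl⟩ := (hr1.ext.fracIs hE).2 f hfE
    have ha0 : a ≠ 0 := by
      rintro rfl
      exact hf0 (zero_div b)
    obtain ⟨B2, hr2, hm2⟩ := ML_mem p hp h B1 ha ha0
    obtain ⟨B3, hr3, hm3⟩ := ML_mem p hp h B2 (hr2.ext.le hb) hb0
    refine ⟨B3, hr1.trans (hr2.trans hr3), fun g hg => ?_⟩
    rcases Finset.mem_insert.mp hg with rfl | hg
    · exact (hr3.ext.mono hm2).div hm3
    · exact hr3.ext.mono (hr2.ext.mono (hm1 g hg))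

/-- One more T-step is always possible. -/
theorem ML' (p : ℕ) (hp : p.Prime) [CharP k p] (h : Ctx k v r) (B : BF k v)
    (E : IntermediateField k Ω) (hE : FracIs B.R E) (T : Finset Ω)
    (hT : ∀ f ∈ T, f ∈ E ∧ f ≠ 0) :
    ∃ B1 B' : BF k v, Reach B B1 ∧ TStep B1 B' ∧ ∀ f ∈ T, B'.Mono f := by
  obtain ⟨B1, h1, h2⟩ := ML p hp h B E hE T hT
  obtain ⟨B', q, c, s, h3, -, -⟩ := B1.exists_tstep h ∅ (by simp) 1 (Or.inl rfl)
  exact ⟨B1, B', h1, ⟨q, c, s, h3⟩, fun f hf => h3.ext.mono (h2 f hf)⟩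

end Pool.Agent.LU1
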