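import Pool.Agent.Lib.LU1_h15.Basic

/-! # G0s: separable coordinates with independent values -/

set_option autoImplicit false

namespace Pool.Agent.LU1

open Pool.Agent.H15JM (RVal)

universe u

section sep

variable {k L : Type u} [Field k] [Field L] [Algebra k L]

/-- The elements killed by a derivation, as an intermediate field. -/
def derKer {N : Type*} [AddCommGroup N] [Module k N] [Module L N] [IsScalarTower k L N]
    (d : Derivation k L N) : IntermediateField k L where
  carrier := {f | d f = 0}
  mul_mem' := by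
    intro a b ha hb
    have ha' : d a = 0 := ha
    have hb' : d b = 0 := hb
    change d (a * b) = 0
    rw [d.leibniz, ha', hb', smul_zero, smul_zero, add_zero]
  add_mem' := by
    intro a b ha hb
    have ha' : d a = 0 := ha
    have hb' : d b = 0 := hb
    change d (a + b) = 0
    rw [map_add, ha', hb', add_zero]
  algebraMap_mem' := fun c => d.map_algebraMap c
  inv_mem' := by
    intro a ha
    have ha' : d a = 0 := ha
    change d a⁻¹ = 0
    by_cases h0 : a = 0
    · rw [h0, inv_zero, map_zero]
    · have h1 : d (a * a⁻¹) = 0 := by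
        rw [mul_inv_cancel₀ h0]
        exact d.map_one_eq_zero
      rw [d.leibniz, ha', smul_zero, add_zero] at h1
      exact (smul_eq_zero.1 h1).resolve_left h0

theorem der_zero (Z : Set L)
    (hZ : Algebra.FormallyUnramified (IntermediateField.adjoin k Z) L) {N : Type*}
    [AddCommGroup N] [Module k N] [Module L N] [IsScalarTower k L N] (d : Derivation k L N)
    (hd : ∀ z ∈ Z, d z = 0) (x : L) : d x = 0 := by
  have hle : IntermediateField.adjoin k Z ≤ derKer d := by
    rw [IntermediateField.adjoin_le_iff]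
    exact hd
  let d' : Derivation (IntermediateField.adjoin k Z) L N :=
    { toFun := d
      map_add' := fun a b => map_add d a b
      map_smul' := fun a b => by
        have h1 : d (a : L) = 0 := hle a.2
        have h2 : a • b = (a : L) * b := rfl
        rw [h2, d.leibniz, h1, smul_zero, add_zero]
        rfl
      map_one_eq_zero' := d.map_one_eq_zero
      leibniz' := fun a b => d.leibniz a b }
  have h3 : d' x = 0 := by
    rw [← d'.liftKaehlerDifferential_comp_D x,
      Subsingleton.elim (KaehlerDifferential.D (IntermediateField.adjoin k Z) L x) 0, map_zero]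
  exact h3

/-- If `L / k(Z)` is unramified, the differentials of `Z` span. -/
theorem span_of_unram (Z : Set L)
    (hZ : Algebra.FormallyUnramified (IntermediateField.adjoin k Z) L) :
    Submodule.span L (KaehlerDifferential.D k L '' Z) = ⊤ := by
  set W := Submodule.span L (KaehlerDifferential.D k L '' Z) with hW
  rw [eq_top_iff, ← KaehlerDifferential.span_range_derivation k L, Submodule.span_le]
  rintro _ ⟨x, rfl⟩
  have h1 := der_zero Z hZ (W.mkQ.compDer (KaehlerDifferential.D k L)) (by
    intro z hz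
    change W.mkQ (KaehlerDifferential.D k L z) = 0
    rw [Submodule.mkQ_apply, Submodule.Quotient.mk_eq_zero]
    exact Submodule.subset_span ⟨z, hz, rfl⟩) x
  change W.mkQ (KaehlerDifferential.D k L x) = 0 at h1
  rwa [Submodule.mkQ_apply, Submodule.Quotient.mk_eq_zero] at h1

/-- If the differentials of `Z` span, `L / k(Z)` is separable algebraic. -/
theorem sep_of_span [Algebra.EssFiniteType k L] (Z : Set L)
    (h : Submodule.span L (KaehlerDifferential.D k L '' Z) = ⊤) :
    Algebra.IsSeparable (IntermediateField.adjoin k Z) L := by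
  have hess : Algebra.EssFiniteType (IntermediateField.adjoin k Z) L :=
    Algebra.EssFiniteType.of_comp k (IntermediateField.adjoin k Z) L
  rw [← Algebra.FormallyUnramified.iff_isSeparable]
  constructor
  have h1 : KaehlerDifferential.map k (IntermediateField.adjoin k Z) L L = 0 := by
    rw [← LinearMap.ker_eq_top, eq_top_iff, ← h, Submodule.span_le]
    rintro _ ⟨z, hz, rfl⟩
    rw [SetLike.mem_coe, LinearMap.mem_ker, KaehlerDifferential.map_D]
    have h2 : algebraMap L L z = algebraMap (IntermediateField.adjoin k Z) L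
        ⟨z, IntermediateField.subset_adjoin k Z hz⟩ := rfl
    rw [h2]
    exact Derivation.map_algebraMap _ _
  have h3 := KaehlerDifferential.map_surjective k (IntermediateField.adjoin k Z) L
  refine subsingleton_of_forall_eq 0 fun y => ?_
  obtain ⟨w, rfl⟩ := h3 y
  rw [h1]
  rfl


/-- An essentially finite unramified generation bounds the transcendence degree. -/
theorem trdeg_le_of_isAlgebraic (Z : Set L)
    (h : Algebra.IsAlgebraic (IntermediateField.adjoin k Z) L) :
    Algebra.trdeg k L ≤ Cardinal.mk Z := by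
  have h1 : Algebra.IsAlgebraic (Algebra.adjoin k Z) L := by
    constructor
    intro x
    rw [← IntermediateField.isAlgebraic_adjoin_iff]
    exact h.isAlgebraic x
  exact Algebra.IsAlgebraic.trdeg_le_cardinalMk k Z

/-- The dimension of the space of differentials is at most the transcendence degree. -/
theorem finrank_le_trdeg [PerfectField k] [Algebra.EssFiniteType k L] (n : ℕ)
    (hn : Algebra.trdeg k L = n) :
    Module.Finite L (KaehlerDifferential k L) ∧ Module.finrank L (KaehlerDifferential k L) ≤ n := by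
  obtain ⟨s, hs, hsep⟩ := exists_isTranscendenceBasis_and_isSeparable_of_perfectField k L
  have h1 : Algebra.FormallyUnramified (IntermediateField.adjoin k (s : Set L)) L :=
    Algebra.FormallyUnramified.of_isSeparable _ _
  have h2 := span_of_unram (s : Set L) h1
  have h3 : s.card = n := by
    have h4 := hs.cardinalMk_eq_trdeg
    rw [hn] at h4
    simpa using h4
  have h5 : ((s : Set L).image (KaehlerDifferential.D k L)).Finite := s.finite_toSet.image _
  have h6 : Module.Finite L (KaehlerDifferential k L) := by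
    constructor
    rw [← h2]
    exact Submodule.fg_span h5
  refine ⟨h6, ?_⟩
  classical
  have h7 := finrank_span_finset_le_card (R := L) (s.image (KaehlerDifferential.D k L))
  rw [Finset.coe_image] at h7
  rw [Set.finrank, h2, finrank_top] at h7
  exact h7.trans (Finset.card_image_le.trans h3.le)

/-- Fewer elements than the transcendence degree have differentials that do not span. -/
theorem span_ne_top [Algebra.EssFiniteType k L] (n m : ℕ) (hn : Algebra.trdeg k L = n)
    (hm : m < n) (x : Fin m → L) :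
    Submodule.span L (Set.range fun i => KaehlerDifferential.D k L (x i)) ≠ ⊤ := by
  intro h
  have h0 : Set.range (fun i => KaehlerDifferential.D k L (x i)) =
      KaehlerDifferential.D k L '' Set.range x := by
    rw [← Set.range_comp]
    rfl
  rw [h0] at h
  have h1 := sep_of_span (Set.range x) h
  have h2 := trdeg_le_of_isAlgebraic (k := k) (Set.range x) inferInstance
  rw [hn] at h2
  have h3 : Cardinal.mk (Set.range x) ≤ (m : Cardinal) := by
    have h5 := Cardinal.mk_range_le_lift (f := x)
    rw [Cardinal.mk_fin, Cardinal.lift_natCast] at h5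
    rwa [Cardinal.lift_id'.{0, u}] at h5
  have h4 := h2.trans h3
  rw [Nat.cast_le] at h4
  omega

end sep

section val

variable {k Ω : Type u} [Field k] [Field Ω] [Algebra k Ω] {v : RVal Ω} {r : ℕ}

/-- A sum of nonzero terms with pairwise different values. -/
theorem sum_distinct {ι : Type*} (s : Finset ι) (hs : s.Nonempty) (f : ι → Ω)
    (hf : ∀ i ∈ s, f i ≠ 0) (hinj : ∀ i ∈ s, ∀ j ∈ s, v (f i) = v (f j) → i = j) :
    ∑ i ∈ s, f i ≠ 0 ∧ ∃ i ∈ s, v (∑ i ∈ s, f i) = v (f i) := by
  classical
  induction hs using Finset.Nonempty.cons_induction with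
  | singleton a =>
    rw [Finset.sum_singleton]
    exact ⟨hf a (Finset.mem_singleton_self a), a, Finset.mem_singleton_self a, rfl⟩
  | cons a s ha hs ih =>
    obtain ⟨h1, i, hi, h2⟩ := ih (fun i hi => hf i (Finset.mem_cons_of_mem hi))
      (fun i hi j hj => hinj i (Finset.mem_cons_of_mem hi) j (Finset.mem_cons_of_mem hj))
    rw [Finset.sum_cons]
    have ha' : a ∈ Finset.cons a s ha := Finset.mem_cons_self a s
    have hne : v (f a) ≠ v (f i) := by
      intro h3
      have h4 := hinj a ha' i (Finset.mem_cons_of_mem hi) h3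
      rw [h4] at ha
      exact ha hi
    rcases lt_or_gt_of_ne hne with h3 | h3
    · have h4 := v.add_of_lt (hf a ha') h1 (by rw [h2]; exact h3)
      exact ⟨h4.1, a, ha', h4.2⟩
    · have h4 := v.add_of_lt h1 (hf a ha') (by rw [h2]; exact h3)
      rw [add_comm] at h4
      exact ⟨h4.1, i, Finset.mem_cons_of_mem hi, h4.2.trans h2⟩

/-- Values of elements algebraic over `K` are commensurable with values of `K`. -/
theorem comm_value (K : IntermediateField k Ω) (g : Ω) (hg : g ≠ 0) (halg : IsAlgebraic K g) :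
    ∃ f : K, (f : Ω) ≠ 0 ∧ ∃ m : ℕ, 0 < m ∧ v (f : Ω) = m * v g := by
  obtain ⟨P, hP, hPg⟩ := halg
  have hc : ∀ i ∈ P.support, ((P.coeff i : K) : Ω) ≠ 0 := by
    intro i hi h0
    have h1 : P.coeff i = 0 := by
      ext
      exact h0
    exact (Polynomial.mem_support_iff.1 hi) h1
  have hsum : ∑ i ∈ P.support, ((P.coeff i : K) : Ω) * g ^ i = 0 := by
    rw [Polynomial.aeval_def, Polynomial.eval₂_eq_sum, Polynomial.sum_def] at hPg
    exact hPg
  have hex : ∃ i ∈ P.support, ∃ j ∈ P.support, i < j ∧
      v (((P.coeff i : K) : Ω) * g ^ i) = v (((P.coeff j : K) : Ω) * g ^ j) := by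
    by_contra hcon
    push Not at hcon
    refine (sum_distinct (v := v) P.support ?_
      (fun i => ((P.coeff i : K) : Ω) * g ^ i) ?_ ?_).1 hsum
    · rw [Finset.nonempty_iff_ne_empty]
      intro h0
      exact hP (Polynomial.support_eq_empty.1 h0)
    · intro i hi
      exact mul_ne_zero (hc i hi) (pow_ne_zero _ hg)
    · intro i hi j hj hij
      rcases lt_trichotomy i j with h1 | h1 | h1
      · exact absurd hij (hcon i hi j hj h1)
      · exact h1
      · exact absurd hij.symm (hcon j hj i hi h1)
  obtain ⟨i, hi, j, hj, hij, heq⟩ := hex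
  rw [v.map_mul (hc i hi) (pow_ne_zero _ hg), v.map_mul (hc j hj) (pow_ne_zero _ hg),
    v.map_pow hg, v.map_pow hg] at heq
  refine ⟨P.coeff i / P.coeff j, ?_, j - i, by omega, ?_⟩
  · have h1 : ((P.coeff i / P.coeff j : K) : Ω) = (P.coeff i : Ω) / (P.coeff j : Ω) := rfl
    rw [h1]
    exact div_ne_zero (hc i hi) (hc j hj)
  · have h1 : ((P.coeff i / P.coeff j : K) : Ω) = (P.coeff i : Ω) / (P.coeff j : Ω) := rfl
    rw [h1, v.map_div (hc i hi) (hc j hj), Nat.cast_sub hij.le]
    linarith

theorem exists_step (h : Ctx k v r) (K : IntermediateField k Ω)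
    (W : Submodule K (KaehlerDifferential k K)) (hW : W ≠ ⊤) :
    ∃ t : K, (t : Ω) ≠ 0 ∧ 0 < v (t : Ω) ∧ KaehlerDifferential.D k K t ∉ W := by
  have h1 : ∃ t : K, KaehlerDifferential.D k K t ∉ W := by
    by_contra hcon
    push Not at hcon
    refine hW ?_
    rw [eq_top_iff, ← KaehlerDifferential.span_range_derivation k K, Submodule.span_le]
    rintro _ ⟨x, rfl⟩
    exact hcon x
  obtain ⟨t, ht⟩ := h1
  have ht0 : ∀ s : K, KaehlerDifferential.D k K s ∉ W → (s : Ω) ≠ 0 := by
    intro s hs h0
    have h2 : s = 0 := by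
      ext
      exact h0
    rw [h2, map_zero] at hs
    exact hs W.zero_mem
  rcases lt_trichotomy 0 (v (t : Ω)) with h2 | h2 | h2
  · exact ⟨t, ht0 t ht, h2, ht⟩
  · obtain ⟨c, -, hc⟩ := h.res (t : Ω) (ht0 t ht) h2.symm
    have h3 : KaehlerDifferential.D k K (t - algebraMap k K c) =
        KaehlerDifferential.D k K t := by
      rw [map_sub, Derivation.map_algebraMap, sub_zero]
    have h4 : KaehlerDifferential.D k K (t - algebraMap k K c) ∉ W := by rwa [h3]
    exact ⟨t - algebraMap k K c, ht0 _ h4, hc (ht0 _ h4), h4⟩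
  · refine ⟨t⁻¹, ?_, ?_, ?_⟩
    · exact inv_ne_zero (ht0 t ht)
    · have h3 : ((t⁻¹ : K) : Ω) = (t : Ω)⁻¹ := rfl
      rw [h3, v.map_inv (ht0 t ht)]
      linarith
    · intro h3
      refine ht ?_
      have ht1 : t ≠ 0 := by
        rintro rfl
        exact ht0 0 ht rfl
      have h4 : KaehlerDifferential.D k K (t * t⁻¹) = 0 := by
        rw [mul_inv_cancel₀ ht1]
        exact Derivation.map_one_eq_zero _
      rw [Derivation.leibniz] at h4
      have h5 : t⁻¹ • KaehlerDifferential.D k K t ∈ W := by
        rw [eq_neg_of_add_eq_zero_right h4]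
        exact W.neg_mem (W.smul_mem _ h3)
      have h6 := W.smul_mem t h5
      rwa [smul_smul, mul_inv_cancel₀ ht1, one_smul] at h6

theorem exists_adj (h : Ctx k v r) (K : IntermediateField k Ω)
    (W : Submodule K (KaehlerDifferential k K)) (hW : W ≠ ⊤) (x' : K) (hx' : (x' : Ω) ≠ 0) :
    ∃ x : K, (x : Ω) ≠ 0 ∧ v (x : Ω) = v (x' : Ω) ∧ KaehlerDifferential.D k K x ∉ W := by
  by_cases h0 : KaehlerDifferential.D k K x' ∉ W
  · exact ⟨x', hx', rfl, h0⟩
  · have h0' : KaehlerDifferential.D k K x' ∈ W := not_not.1 h0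
    obtain ⟨t, ht1, ht2, ht3⟩ := exists_step h K W hW
    have h1 := val_add_vpos (v := v) (one_ne_zero (α := Ω)) v.map_one
      (fun _ => ht2 : VPos v (t : Ω))
    have h2 : ((x' * (1 + t) : K) : Ω) = (x' : Ω) * (1 + (t : Ω)) := rfl
    refine ⟨x' * (1 + t), ?_, ?_, ?_⟩
    · rw [h2]
      exact mul_ne_zero hx' h1.1
    · rw [h2, v.map_mul hx' h1.1, h1.2, add_zero]
    · intro h3
      rw [Derivation.leibniz, map_add, Derivation.map_one_eq_zero, zero_add] at h3
      have h4 : x' • KaehlerDifferential.D k K t ∈ W := by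
        have h5 := W.sub_mem h3 (W.smul_mem (1 + t) h0')
        rwa [add_sub_cancel_right] at h5
      have hx1 : x' ≠ 0 := by
        rintro rfl
        exact hx' rfl
      have h6 := W.smul_mem x'⁻¹ h4
      rw [smul_smul, inv_mul_cancel₀ hx1, one_smul] at h6
      exact ht3 h6

theorem exists_li (h : Ctx k v r) (K : IntermediateField k Ω) [Algebra.EssFiniteType k K] (n : ℕ)
    (hn : Algebra.trdeg k K = n) (m : ℕ) (hm : m ≤ n) (x' : Fin m → K)
    (hx' : ∀ i, (x' i : Ω) ≠ 0) :
    ∃ x : Fin m → K, (∀ i, (x i : Ω) ≠ 0 ∧ v (x i : Ω) = v (x' i : Ω)) ∧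
      LinearIndependent K fun i => KaehlerDifferential.D k K (x i) := by
  induction m with
  | zero => exact ⟨x', fun i => i.elim0, linearIndependent_empty_type⟩
  | succ m ih =>
    obtain ⟨x, hx, hli⟩ := ih (by omega) (fun i => x' i.castSucc) (fun i => hx' _)
    obtain ⟨y, hy1, hy2, hy3⟩ := exists_adj h K _ (span_ne_top n m hn (by omega) x)
      (x' (Fin.last m)) (hx' _)
    refine ⟨Fin.snoc x y, ?_, ?_⟩
    · intro i
      refine Fin.lastCases ?_ (fun i => ?_) i
      · rw [Fin.snoc_last]
        exact ⟨hy1, hy2⟩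
      · rw [Fin.snoc_castSucc]
        exact hx i
    · have h1 : (fun i : Fin (m + 1) => KaehlerDifferential.D k K
          ((Fin.snoc x y : Fin (m + 1) → K) i)) =
          Fin.snoc (fun i => KaehlerDifferential.D k K (x i)) (KaehlerDifferential.D k K y) := by
        funext i
        refine Fin.lastCases ?_ (fun i => ?_) i
        · rw [Fin.snoc_last, Fin.snoc_last]
        · rw [Fin.snoc_castSucc, Fin.snoc_castSucc]
      rw [h1, linearIndependent_finSnoc]
      exact ⟨hli, hy3⟩

theorem sep_transfer (K : IntermediateField k Ω) (Z : Set K)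
    (h : Algebra.IsSeparable (IntermediateField.adjoin k Z) K) (g : Ω) (hg : g ∈ K) :
    IsSeparable (IntermediateField.adjoin k ((fun z : K => (z : Ω)) '' Z)) g := by
  have hmap : (IntermediateField.adjoin k Z).map K.val =
      IntermediateField.adjoin k ((fun z : K => (z : Ω)) '' Z) :=
    IntermediateField.adjoin_map _ _ _
  have hmem : ∀ a : IntermediateField.adjoin k Z, ((a : K) : Ω) ∈
      IntermediateField.adjoin k ((fun z : K => (z : Ω)) '' Z) := by
    intro a
    rw [← hmap]
    exact ⟨a, a.2, rfl⟩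
  let φ : IntermediateField.adjoin k Z →+*
      IntermediateField.adjoin k ((fun z : K => (z : Ω)) '' Z) :=
    { toFun := fun a => ⟨((a : K) : Ω), hmem a⟩
      map_one' := rfl
      map_mul' := fun _ _ => rfl
      map_zero' := rfl
      map_add' := fun _ _ => rfl }
  have h1 := Algebra.IsSeparable.isSeparable (IntermediateField.adjoin k Z) (⟨g, hg⟩ : K)
  have h2 : ((minpoly (IntermediateField.adjoin k Z) (⟨g, hg⟩ : K)).map φ).Separable :=
    Polynomial.Separable.map h1
  refine Polynomial.Separable.of_dvd h2 (minpoly.dvd _ _ ?_)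
  have h3 := minpoly.aeval (IntermediateField.adjoin k Z) (⟨g, hg⟩ : K)
  have h4 := congrArg (fun z : K => (z : Ω)) h3
  have h5 : ((Polynomial.aeval (⟨g, hg⟩ : K)
      (minpoly (IntermediateField.adjoin k Z) (⟨g, hg⟩ : K)) : K) : Ω) =
      Polynomial.eval₂ ((algebraMap K Ω).comp
        (algebraMap (IntermediateField.adjoin k Z) K)) g
        (minpoly (IntermediateField.adjoin k Z) (⟨g, hg⟩ : K)) := by
    rw [Polynomial.aeval_def]
    exact Polynomial.hom_eval₂ _ _ (algebraMap K Ω) _
  rw [Polynomial.aeval_def, Polynomial.eval₂_map]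
  have h6 : (algebraMap (IntermediateField.adjoin k ((fun z : K => (z : Ω)) '' Z)) Ω).comp φ =
      (algebraMap K Ω).comp (algebraMap (IntermediateField.adjoin k Z) K) := rfl
  rw [h6, ← h5]
  exact h4

end val

variable {k Ω : Type u} [Field k] [Field Ω] [Algebra k Ω] {v : RVal Ω} {r : ℕ}

/-- Separable coordinates with independent values. -/
theorem exists_sep_coord (h : Ctx k v r) [IsAlgClosed k] (K : IntermediateField k Ω)
    (hfg : ∃ S : Finset Ω, K = IntermediateField.adjoin k (S : Set Ω))
    (halg : ∀ g : Ω, IsAlgebraic K g) :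
    ∃ (x : Fin r → Ω) (y : Ω), (∀ i, x i ∈ K) ∧ y ∈ K ∧ (∀ i, x i ≠ 0) ∧
      (∀ i, 0 < v (x i)) ∧ LinearIndependent ℚ (fun i => v (x i)) ∧ y ≠ 0 ∧ 0 < v y ∧
      ∀ g ∈ K, IsSeparable (IntermediateField.adjoin k (Set.range x ∪ {y})) g := by
  have hess : Algebra.EssFiniteType k K := by
    rw [IntermediateField.essFiniteType_iff]
    obtain ⟨S, hS⟩ := hfg
    exact ⟨S, hS.symm⟩
  have halg' : Algebra.IsAlgebraic K Ω := ⟨halg⟩
  have htr : Algebra.trdeg k K = ((r + 1 : ℕ) : Cardinal) := by
    have h1 := trdeg_add_eq k K (A := Ω)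
    rw [trdeg_eq_zero (R := K) (A := Ω), add_zero, h.trdeg] at h1
    rw [h1]
    push_cast
    rfl
  -- elements of `K` with independent positive values
  obtain ⟨X, hX0, hXli, -⟩ := h.rank
  have h1 : ∀ i : Fin r, ∃ f : K, (f : Ω) ≠ 0 ∧ 0 < v (f : Ω) ∧ ∃ c : ℚ, c ≠ 0 ∧
      v (f : Ω) = c • v (X i) := by
    intro i
    obtain ⟨f, hf0, m, hm, hfm⟩ := comm_value (v := v) K (X i) (hX0 i) (halg _)
    have hne : v (f : Ω) ≠ 0 := by
      rw [hfm]
      exact mul_ne_zero (by positivity) (hXli.ne_zero i)
    rcases lt_or_gt_of_ne hne with h2 | h2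
    · have h3 : ((f⁻¹ : K) : Ω) = (f : Ω)⁻¹ := rfl
      refine ⟨f⁻¹, by rw [h3]; exact inv_ne_zero hf0, by rw [h3, v.map_inv hf0]; linarith,
        -(m : ℚ), by simpa using hm.ne', ?_⟩
      rw [h3, v.map_inv hf0, hfm, Rat.smul_def]
      push_cast
      ring
    · refine ⟨f, hf0, h2, (m : ℚ), by simpa using hm.ne', ?_⟩
      rw [hfm, Rat.smul_def]
      push_cast
      rfl
  choose x' hx0 hxpos c hc hxc using h1
  have hli' : LinearIndependent ℚ fun i => v (x' i : Ω) := by
    have h2 := hXli.units_smul fun i => Units.mk0 (c i) (hc i)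
    convert h2 using 1
    funext i
    exact hxc i
  obtain ⟨x, hx, hdx⟩ := exists_li h K (r + 1) htr r (by omega) x' hx0
  have hW := span_ne_top (r + 1) r htr (by omega) x
  obtain ⟨y, hy1, hy2, hy3⟩ := exists_step h K _ hW
  have hli2 : LinearIndependent K (Fin.snoc (fun i => KaehlerDifferential.D k K (x i))
      (KaehlerDifferential.D k K y) : Fin (r + 1) → KaehlerDifferential k K) := by
    rw [linearIndependent_finSnoc]
    exact ⟨hdx, hy3⟩
  obtain ⟨hfin, hle⟩ := finrank_le_trdeg (k := k) (L := K) (r + 1) htr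
  have hcard : Fintype.card (Fin (r + 1)) = Module.finrank K (KaehlerDifferential k K) := by
    refine le_antisymm hli2.fintype_card_le_finrank ?_
    rwa [Fintype.card_fin]
  have hspan := hli2.span_eq_top_of_card_eq_finrank' hcard
  have hspan2 : Submodule.span K (KaehlerDifferential.D k K '' (Set.range x ∪ {y})) = ⊤ := by
    rw [← hspan]
    congr 1
    ext w
    constructor
    · rintro ⟨z, hz | hz, rfl⟩
      · obtain ⟨i, rfl⟩ := hz
        exact ⟨i.castSucc, by rw [Fin.snoc_castSucc]⟩
      · rw [Set.mem_singleton_iff.1 hz]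
        exact ⟨Fin.last r, by rw [Fin.snoc_last]⟩
    · rintro ⟨i, rfl⟩
      refine Fin.lastCases ?_ (fun i => ?_) i
      · rw [Fin.snoc_last]
        exact ⟨y, Or.inr rfl, rfl⟩
      · rw [Fin.snoc_castSucc]
        exact ⟨x i, Or.inl ⟨i, rfl⟩, rfl⟩
  have hsep := sep_of_span _ hspan2
  refine ⟨fun i => (x i : Ω), (y : Ω), fun i => (x i).2, y.2, fun i => (hx i).1, ?_, ?_, hy1,
    hy2, ?_⟩
  · intro i
    rw [(hx i).2]
    exact hxpos i
  · have h2 : (fun i => v (x i : Ω)) = fun i => v (x' i : Ω) := funext fun i => (hx i).2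
    rw [h2]
    exact hli'
  · intro g hg
    have h2 := sep_transfer K _ hsep g hg
    have h3 : (fun z : K => (z : Ω)) '' (Set.range x ∪ {y}) =
        Set.range (fun i => (x i : Ω)) ∪ {(y : Ω)} := by
      rw [Set.image_union, Set.image_singleton, ← Set.range_comp]
      rfl
    rwa [h3] at h2

end Pool.Agent.LU1
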