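import Pool.Agent.Lib.LU1_h15.Galois

/-! # Separable extensions -/

set_option autoImplicit false

open Polynomial

namespace Pool.Agent.LU1

open Pool.Agent.H15JM (RVal)

universe u

variable {k Ω : Type u} [Field k] [Field Ω] [Algebra k Ω] {v : RVal Ω} {r : ℕ}

theorem fixO_top (F : IntermediateField k Ω) (N : IntermediateField F Ω)
    [FiniteDimensional F N] [IsGalois F N] : fixO F N ⊤ = F := by
  have h1 : IntermediateField.fixedField (⊤ : Subgroup (N ≃ₐ[F] N)) = ⊥ := by
    have := IsGalois.fixedField_fixingSubgroup (⊥ : IntermediateField F N)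
    rwa [IntermediateField.fixingSubgroup_bot] at this
  unfold fixO
  rw [h1, IntermediateField.map_bot]
  ext g
  rw [IntermediateField.mem_restrictScalars, IntermediateField.mem_bot]
  constructor
  · rintro ⟨a, rfl⟩
    exact a.2
  · intro hg
    exact ⟨⟨g, hg⟩, rfl⟩

theorem exists_fixO_eq (F : IntermediateField k Ω) (N : IntermediateField F Ω)
    [FiniteDimensional F N] [IsGalois F N] (K : IntermediateField k Ω) (hFK : F ≤ K)
    (hKN : ∀ g ∈ K, g ∈ N) : ∃ H : Subgroup (N ≃ₐ[F] N), fixO F N H = K := by
  let K1 : IntermediateField F Ω := IntermediateField.extendScalars hFK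
  have hK1 : K1 ≤ N := fun g hg => hKN g hg
  let K2 : IntermediateField F N := IntermediateField.restrict hK1
  refine ⟨K2.fixingSubgroup, ?_⟩
  unfold fixO
  rw [IsGalois.fixedField_fixingSubgroup]
  ext g
  rw [IntermediateField.mem_restrictScalars]
  constructor
  · rintro ⟨n, hn, rfl⟩
    exact (IntermediateField.mem_restrict hK1 n).1 hn
  · intro hg
    exact ⟨⟨g, hKN g hg⟩, (IntermediateField.mem_restrict hK1 _).2 hg, rfl⟩

theorem exists_galois_closure [IsAlgClosed Ω] (F : IntermediateField k Ω)
    (halg : ∀ g : Ω, IsAlgebraic F g) (S : Finset Ω) (hsep : ∀ g ∈ S, IsSeparable F g) :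
    ∃ N : IntermediateField F Ω, FiniteDimensional F N ∧ IsGalois F N ∧ ∀ g ∈ S, g ∈ N := by
  classical
  have hint : ∀ g ∈ S, IsIntegral F g := fun g hg => (hsep g hg).isIntegral
  have : Algebra.IsAlgebraic F Ω := ⟨halg⟩
  have : IsAlgClosure F Ω := ⟨inferInstance, inferInstance⟩
  have : Normal F Ω := IsAlgClosure.normal F Ω
  let L : IntermediateField F Ω := IntermediateField.adjoin F (S : Set Ω)
  have hfin : FiniteDimensional F L :=
    IntermediateField.finiteDimensional_adjoin (fun g hg => hint g hg)
  have hs : Algebra.IsSeparable F L := by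
    rw [IntermediateField.isSeparable_adjoin_iff_isSeparable]
    exact fun g hg => hsep g hg
  let N : IntermediateField F Ω := IntermediateField.normalClosure F L Ω
  have hN : FiniteDimensional F N := normalClosure.is_finiteDimensional F L Ω
  have hn : Normal F N := normalClosure.normal F L Ω
  have hsN : Algebra.IsSeparable F N := by
    rw [← le_separableClosure_iff]
    refine normalClosure_le_iff.2 fun i => ?_
    have : Algebra.IsSeparable F i.fieldRange :=
      AlgEquiv.Algebra.isSeparable (AlgEquiv.ofInjectiveField i)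
    exact le_separableClosure F Ω _
  refine ⟨N, hN, ⟨⟩, fun g hg => ?_⟩
  exact IntermediateField.le_normalClosure L (IntermediateField.subset_adjoin _ _ hg)

/-- Every finite separable extension of a good field is good. -/
theorem good_of_separable (p : ℕ) (hp : p.Prime) [CharP k p] [IsAlgClosed k] [IsAlgClosed Ω]
    (h : Ctx k v r) (F K : IntermediateField k Ω) (hFK : F ≤ K)
    (halg : ∀ g : Ω, IsAlgebraic F g) (hfg : ∃ S : Finset Ω, K = IntermediateField.adjoin k (S : Set Ω))
    (hsep : ∀ g ∈ K, IsSeparable F g) (hF : Good v F) : Good v K := by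
  obtain ⟨S, hS⟩ := hfg
  have hSK : ∀ g ∈ S, g ∈ K := by
    intro g hg
    rw [hS]
    exact IntermediateField.subset_adjoin _ _ hg
  obtain ⟨N, h1, h2, h3⟩ := exists_galois_closure F halg S (fun g hg => hsep g (hSK g hg))
  have hKN : ∀ g ∈ K, g ∈ N := by
    have : K ≤ N.restrictScalars k := by
      rw [hS, IntermediateField.adjoin_le_iff]
      exact fun g hg => h3 g hg
    exact fun g hg => this hg
  obtain ⟨H, hH⟩ := exists_fixO_eq F N K hFK hKN
  rw [← hH]
  apply good_galois p hp h F N halg H
  rw [fixO_top]
  exact hF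

end Pool.Agent.LU1
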