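import Pool.Agent.Lib.LU1_h15.Basic

/-! # ED, part B: linear descent along the free extension `R[θ]` -/

set_option autoImplicit false

namespace Pool.Agent.LU1

open Pool.Agent.H15JM (RVal)
open Polynomial

universe u

variable {k Ω : Type u} [Field k] [Field Ω] [Algebra k Ω] {v : RVal Ω} {r : ℕ}

/-- Elements of `R[θ]` are values of polynomials over `R`. -/
theorem exists_aeval_of_mem_adjoin (R : Subalgebra k Ω) (θ : Ω) :
    ∀ f ∈ Algebra.adjoin k ((R : Set Ω) ∪ {θ}), ∃ P : R[X], aeval θ P = f := by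
  intro f hf
  induction hf using Algebra.adjoin_induction with
  | mem x hx =>
    rcases hx with hx | hx
    · exact ⟨C ⟨x, hx⟩, by rw [aeval_C]; rfl⟩
    · exact ⟨X, by rw [aeval_X]; exact (Set.mem_singleton_iff.1 hx).symm⟩
  | algebraMap c =>
    exact ⟨C ⟨algebraMap k Ω c, R.algebraMap_mem c⟩, by rw [aeval_C]; rfl⟩
  | add x y _ _ hx hy =>
    obtain ⟨P, hP⟩ := hx
    obtain ⟨Q, hQ⟩ := hy
    exact ⟨P + Q, by rw [_root_.map_add, hP, hQ]⟩
  | mul x y _ _ hx hy =>
    obtain ⟨P, hP⟩ := hx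
    obtain ⟨Q, hQ⟩ := hy
    exact ⟨P * Q, by rw [_root_.map_mul, hP, hQ]⟩

/-- A value of a polynomial with coefficients of positive value has positive value. -/
theorem vpos_aeval (R : Subalgebra k Ω) (θ : Ω) (hθ : v.Ge 0 θ) (P : R[X])
    (h : ∀ i, VPos v (P.coeff i : Ω)) : VPos v (aeval θ P) := by
  rw [aeval_eq_sum_range]
  refine Finset.sum_induction _ (VPos v) (fun a b ha hb => ha.add hb) VPos.zero ?_
  intro i _
  have hp : v.Ge 0 (θ ^ i) := by
    intro h0
    by_cases hi : i = 0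
    · subst hi; rw [pow_zero, v.map_one]
    · have h1 : θ ≠ 0 := by
        rintro rfl
        rw [zero_pow hi] at h0
        exact h0 rfl
      rw [v.map_pow h1]
      exact mul_nonneg (Nat.cast_nonneg _) (hθ h1)
  exact (h i).mul hp

/-- `R[θ]` is free over `R` with basis the powers of `θ`, because the minimal polynomial of `θ` over
`E` has coefficients in `R`; so a relation `z = ∑ w_j α_j` descends from the localisation of `R[θ]`
to `R`: write `z u = ∑ w_j α'_j`, `u, α'_j ∈ R[θ]`, `v u = 0`; one of the coordinates of `u` is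
a unit of `R`. -/
theorem descend_rel (E : IntermediateField k Ω) (θ : Ω) (hint : IsIntegral E θ)
    (hθ : v.Ge 0 θ) (R : Subalgebra k Ω) (hRE : ∀ f ∈ R, f ∈ E) (hnn : ∀ f ∈ R, v.Ge 0 f)
    (hloc : ∀ f ∈ R, f ≠ 0 → v f = 0 → f⁻¹ ∈ R)
    (hc : ∀ i, ((minpoly E θ).coeff i : Ω) ∈ R) {n : ℕ} (w α : Fin n → Ω) (hw : ∀ j, w j ∈ R)
    (hα : ∀ j, α j ∈ locv v (Algebra.adjoin k ((R : Set Ω) ∪ {θ}))) (z : Ω) (hz : z ∈ R)
    (hzw : z = ∑ j, w j * α j) : ∃ β : Fin n → Ω, (∀ j, β j ∈ R) ∧ z = ∑ j, w j * β j := by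
  classical
  set ι : R →+* E := (Subalgebra.inclusion (S := R) (T := E.toSubalgebra) hRE).toRingHom with hι
  have hιinj : Function.Injective ι := Subalgebra.inclusion_injective hRE
  have hιv : ∀ x : R, ((ι x : E) : Ω) = (x : Ω) := fun x => rfl
  have hmap : ∀ Q : R[X], aeval θ (Q.map ι) = aeval θ Q := by
    intro Q
    rw [aeval_def, aeval_def, eval₂_map]
    rfl
  -- the minimal polynomial over `R`
  have hlift : minpoly E θ ∈ lifts ι := by
    rw [lifts_iff_coeff_lifts]
    intro i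
    exact ⟨⟨_, hc i⟩, Subtype.ext rfl⟩
  obtain ⟨h, hh, hdeg, hmon⟩ := lifts_and_degree_eq_and_monic hlift (minpoly.monic hint)
  have hh0 : aeval θ h = 0 := by rw [← hmap, hh, minpoly.aeval]
  -- reduction
  have hred : ∀ f ∈ Algebra.adjoin k ((R : Set Ω) ∪ {θ}),
      ∃ P : R[X], P.degree < h.degree ∧ aeval θ P = f := by
    intro f hf
    obtain ⟨P, hP⟩ := exists_aeval_of_mem_adjoin R θ f hf
    refine ⟨P %ₘ h, degree_modByMonic_lt P hmon, ?_⟩
    rw [← hP]
    conv_rhs => rw [← modByMonic_add_div P h]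
    rw [_root_.map_add, _root_.map_mul, hh0, zero_mul, add_zero]
  have huniq : ∀ Q : R[X], Q.degree < h.degree → aeval θ Q = 0 → Q = 0 := by
    intro Q hQ h0
    by_contra hne
    have h1 : Q.map ι ≠ 0 := fun h2 => hne ((Polynomial.map_eq_zero_iff hιinj).1 h2)
    have h2 := minpoly.degree_le_of_ne_zero E θ h1 (by rw [hmap, h0])
    rw [← hdeg, degree_map_eq_of_injective hιinj] at h2
    exact absurd hQ (not_lt.2 h2)
  -- common denominator
  choose a ha b hb hb0 hvb hab using hα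
  set u : Ω := ∏ j, b j with hu
  have huS : u ∈ Algebra.adjoin k ((R : Set Ω) ∪ {θ}) := Subalgebra.prod_mem _ fun j _ => hb j
  have hu0 : u ≠ 0 := Finset.prod_ne_zero_iff.2 fun j _ => hb0 j
  have hvu : v u = 0 := by
    have : ∀ s : Finset (Fin n), v (∏ j ∈ s, b j) = 0 := by
      intro s
      induction s using Finset.induction_on with
      | empty => rw [Finset.prod_empty, v.map_one]
      | insert j s hj ih =>
        rw [Finset.prod_insert hj, v.map_mul (hb0 j)
          (Finset.prod_ne_zero_iff.2 fun i _ => hb0 i), hvb, ih, add_zero]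
    exact this _
  have huα : ∀ j, u * α j ∈ Algebra.adjoin k ((R : Set Ω) ∪ {θ}) := by
    intro j
    have h1 : u * α j = (∏ i ∈ Finset.univ.erase j, b i) * a j := by
      rw [hab j, hu, ← Finset.mul_prod_erase Finset.univ b (Finset.mem_univ j)]
      field_simp [hb0 j]
    rw [h1]
    exact Subalgebra.mul_mem _ (Subalgebra.prod_mem _ fun i _ => hb i) (ha j)
  obtain ⟨U, hUd, hU⟩ := hred u huS
  choose A hAd hA using fun j => hred _ (huα j)
  have hrel : C (⟨z, hz⟩ : R) * U - ∑ j, C (⟨w j, hw j⟩ : R) * A j = 0 := by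
    have hCd : ∀ (c : R) (P : R[X]), P.degree < h.degree → (C c * P).degree < h.degree :=
      fun c P hP => lt_of_le_of_lt (by
        rw [← smul_eq_C_mul]
        exact degree_smul_le c P) hP
    refine huniq _ ?_ ?_
    · refine lt_of_le_of_lt (degree_sub_le _ _) (max_lt (hCd _ _ hUd) ?_)
      refine lt_of_le_of_lt (degree_sum_le _ _) ?_
      rw [Finset.sup_lt_iff (lt_of_le_of_lt bot_le hUd)]
      exact fun j _ => hCd _ _ (hAd j)
    · rw [_root_.map_sub, _root_.map_mul, aeval_C, hU, _root_.map_sum]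
      have h1 : ∀ j, aeval θ (C (⟨w j, hw j⟩ : R) * A j) = w j * (u * α j) := by
        intro j
        rw [_root_.map_mul, aeval_C, hA]
        rfl
      rw [Finset.sum_congr rfl fun j _ => h1 j]
      change z * u - _ = 0
      rw [hzw, Finset.sum_mul, sub_eq_zero]
      exact Finset.sum_congr rfl fun j _ => by ring
  -- a coordinate of `u` which is a unit
  obtain ⟨i, hi0, hiv⟩ : ∃ i, (U.coeff i : Ω) ≠ 0 ∧ v (U.coeff i : Ω) = 0 := by
    by_contra hno
    push Not at hno
    have h1 : VPos v (aeval θ U) := vpos_aeval R θ hθ U fun i h0 =>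
      lt_of_le_of_ne (hnn _ (U.coeff i).2 h0) (Ne.symm (hno i h0))
    rw [hU] at h1
    have := h1 hu0
    rw [hvu] at this
    exact lt_irrefl _ this
  refine ⟨fun j => (A j).coeff i * (U.coeff i : Ω)⁻¹, fun j => R.mul_mem (SetLike.coe_mem _)
    (hloc _ (SetLike.coe_mem _) hi0 hiv), ?_⟩
  have h1 := congrArg (fun Q : R[X] => (Q.coeff i : Ω)) hrel
  simp only [coeff_sub, coeff_C_mul, finsetSum_coeff, coeff_zero] at h1
  push_cast at h1
  have h2 : z * (U.coeff i : Ω) = ∑ j, w j * ((A j).coeff i : Ω) := by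
    rw [← sub_eq_zero]
    exact h1
  have h3 : z = z * (U.coeff i : Ω) * (U.coeff i : Ω)⁻¹ := by
    rw [mul_assoc, mul_inv_cancel₀ hi0, mul_one]
  rw [h3, h2, Finset.sum_mul]
  exact Finset.sum_congr rfl fun j _ => by ring

end Pool.Agent.LU1
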