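import Pool.Agent.Lib.LU1_h15.Basic

/-! # ED, part C: the ideal generated by the `f - c` in `locv k[F, θ]` -/

set_option autoImplicit false

namespace Pool.Agent.LU1

open Pool.Agent.H15JM (RVal)
open Polynomial
open scoped Pointwise

universe u

variable {k Ω : Type u} [Field k] [Field Ω] [Algebra k Ω] {v : RVal Ω} {r : ℕ}

/-! ### ideals of a subalgebra, as predicates on `Ω` -/

/-- `x` is in the ideal `I`. -/
def II {S : Subalgebra k Ω} (I : Ideal S) (x : Ω) : Prop := ∃ z : S, z ∈ I ∧ (z : Ω) = x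

section II

variable {S : Subalgebra k Ω} {I : Ideal S} {x y : Ω}

theorem II.mem (h : II I x) : x ∈ S := by
  obtain ⟨z, -, rfl⟩ := h
  exact z.2

theorem II.zero : II I (0 : Ω) := ⟨0, I.zero_mem, rfl⟩

theorem II.add (h : II I x) (h' : II I y) : II I (x + y) := by
  obtain ⟨z, hz, rfl⟩ := h
  obtain ⟨w, hw, rfl⟩ := h'
  exact ⟨z + w, I.add_mem hz hw, rfl⟩

theorem II.sub (h : II I x) (h' : II I y) : II I (x - y) := by
  obtain ⟨z, hz, rfl⟩ := h
  obtain ⟨w, hw, rfl⟩ := h'
  exact ⟨z - w, I.sub_mem hz hw, rfl⟩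

theorem II.neg (h : II I x) : II I (-x) := by
  obtain ⟨z, hz, rfl⟩ := h
  exact ⟨-z, I.neg_mem hz, rfl⟩

theorem II.mul_left (a : Ω) (ha : a ∈ S) (h : II I x) : II I (a * x) := by
  obtain ⟨z, hz, rfl⟩ := h
  exact ⟨⟨a, ha⟩ * z, I.mul_mem_left _ hz, rfl⟩

theorem II.mul_right (a : Ω) (ha : a ∈ S) (h : II I x) : II I (x * a) := by
  rw [mul_comm]
  exact h.mul_left a ha

theorem II.span {s : Set Ω} (hx : x ∈ s) (hS : x ∈ S) :
    II (Ideal.span {z : S | (z : Ω) ∈ s}) x :=
  ⟨⟨x, hS⟩, Ideal.subset_span hx, rfl⟩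

end II

section Const

variable {S : Subalgebra k Ω} {I : Ideal S}

/-- Elements of `k[G]` are constants modulo `I`. -/
theorem const_adjoin {G : Set Ω} (hG : ∀ x ∈ G, ∃ c : k, II I (x - algebraMap k Ω c)) :
    ∀ x ∈ Algebra.adjoin k G, ∃ c : k, II I (x - algebraMap k Ω c) := by
  intro x hx
  induction hx using Algebra.adjoin_induction with
  | mem x hx => exact hG x hx
  | algebraMap c => exact ⟨c, by rw [sub_self]; exact II.zero⟩
  | add x y _ _ hx hy =>
    obtain ⟨c, hc⟩ := hx
    obtain ⟨d, hd⟩ := hy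
    refine ⟨c + d, ?_⟩
    have := hc.add hd
    rwa [sub_add_sub_comm, ← _root_.map_add] at this
  | mul x y _ _ hx hy =>
    obtain ⟨c, hc⟩ := hx
    obtain ⟨d, hd⟩ := hy
    refine ⟨c * d, ?_⟩
    have hxS : x ∈ S := by
      have := S.add_mem hc.mem (S.algebraMap_mem c)
      rwa [sub_add_cancel] at this
    have h1 := (hd.mul_left x hxS).add (hc.mul_left (algebraMap k Ω d) (S.algebraMap_mem d))
    have h2 : x * y - algebraMap k Ω (c * d) =
        x * (y - algebraMap k Ω d) + algebraMap k Ω d * (x - algebraMap k Ω c) := by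
      rw [_root_.map_mul]
      ring
    rw [h2]
    exact h1

/-- Elements of `locv k[G]` are constants modulo `I`. -/
theorem const_locv {G : Set Ω}
    (hG : ∀ x ∈ G, ∃ c : k, II I (x - algebraMap k Ω c)) (hI : ∀ x, II I x → VPos v x)
    (hS : ∀ f ∈ S, f ≠ 0 → v f = 0 → f⁻¹ ∈ S) :
    ∀ x ∈ locv v (Algebra.adjoin k G), ∃ c : k, II I (x - algebraMap k Ω c) := by
  rintro x ⟨a, ha, b, hb, hb0, hvb, rfl⟩
  obtain ⟨c, hc⟩ := const_adjoin hG a ha
  obtain ⟨d, hd⟩ := const_adjoin hG b hb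
  have hd0 : d ≠ 0 := by
    rintro rfl
    rw [_root_.map_zero, sub_zero] at hd
    have := hI b hd hb0
    rw [hvb] at this
    exact lt_irrefl _ this
  have hd0' : algebraMap k Ω d ≠ 0 := by simpa using hd0
  have hbS : b ∈ S := by
    have := S.add_mem hd.mem (S.algebraMap_mem d)
    rwa [sub_add_cancel] at this
  refine ⟨c / d, ?_⟩
  have h1 : a / b - algebraMap k Ω (c / d) = (algebraMap k Ω d * (a - algebraMap k Ω c) -
      algebraMap k Ω c * (b - algebraMap k Ω d)) * (b⁻¹ * algebraMap k Ω d⁻¹) := by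
    rw [map_div₀, map_inv₀]
    field_simp
    ring
  rw [h1]
  exact ((hc.mul_left _ (S.algebraMap_mem d)).sub (hd.mul_left _ (S.algebraMap_mem c))).mul_right _
    (S.mul_mem (hS b hbS hb0 hvb) (S.algebraMap_mem _))

end Const

section Approx

variable {S : Subalgebra k Ω} {s : Set Ω}

/-- If everything in `S` is constant modulo the ideal generated by `s`, then everything in `S` is
congruent to an element of `S0` modulo each power of it. -/
theorem approx
    (hc : ∀ x ∈ S, ∃ c : k, II (Ideal.span {z : S | (z : Ω) ∈ s}) (x - algebraMap k Ω c))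
    (S0 : Subalgebra k Ω) (hs0 : ∀ t ∈ s, t ∈ S0) (n : ℕ) :
    ∀ x ∈ S, ∃ y ∈ S0, II ((Ideal.span {z : S | (z : Ω) ∈ s}) ^ n) (x - y) := by
  set I : Ideal S := Ideal.span {z : S | (z : Ω) ∈ s} with hI
  -- elements of `I ^ n`
  have key : ∀ n : ℕ, ∀ x : S, x ∈ I ^ n → ∃ y ∈ S0, II (I ^ (n + 1)) ((x : Ω) - y) := by
    intro n
    induction n with
    | zero =>
      intro x _
      obtain ⟨c, hc⟩ := hc x x.2
      exact ⟨algebraMap k Ω c, S0.algebraMap_mem c, by rw [zero_add, pow_one]; exact hc⟩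
    | succ n ih =>
      intro x hx
      rw [pow_succ'] at hx
      refine Submodule.mul_induction_on hx ?_ ?_
      · intro a ha b hb
        have ha' : a ∈ Submodule.span S {z : S | (z : Ω) ∈ s} := ha
        induction ha' using Submodule.span_induction generalizing b with
        | mem t ht =>
          obtain ⟨y, hy, hy'⟩ := ih b hb
          refine ⟨(t : Ω) * y, S0.mul_mem (hs0 _ ht) hy, ?_⟩
          obtain ⟨z, hz, hz'⟩ := hy'
          refine ⟨t * z, ?_, ?_⟩
          · rw [pow_succ']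
            exact Ideal.mul_mem_mul (Ideal.subset_span ht) hz
          · push_cast
            rw [hz']
            ring
        | zero =>
          refine ⟨0, S0.zero_mem, ?_⟩
          rw [zero_mul]
          push_cast
          rw [sub_zero]
          exact II.zero
        | add a1 a2 _ _ h1 h2 =>
          obtain ⟨y1, hy1, h3⟩ := h1 (by assumption) b hb
          obtain ⟨y2, hy2, h4⟩ := h2 (by assumption) b hb
          refine ⟨y1 + y2, S0.add_mem hy1 hy2, ?_⟩
          have := h3.add h4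
          convert this using 1
          push_cast
          ring
        | smul c a _ h1 =>
          obtain ⟨y1, hy1, h3⟩ := h1 (by assumption) (c * b) (Ideal.mul_mem_left _ c hb)
          refine ⟨y1, hy1, ?_⟩
          convert h3 using 1
          rw [smul_eq_mul]
          push_cast
          ring
      · rintro a b ⟨y1, hy1, h1⟩ ⟨y2, hy2, h2⟩
        refine ⟨y1 + y2, S0.add_mem hy1 hy2, ?_⟩
        have := h1.add h2
        convert this using 1
        push_cast
        ring
  induction n with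
  | zero => exact fun x hx => ⟨0, S0.zero_mem, ⟨x, hx⟩, by
      rw [pow_zero, Ideal.one_eq_top]; trivial, by simp⟩
  | succ n ih =>
    intro x hx
    obtain ⟨y, hy, z, hz, hz'⟩ := ih x hx
    obtain ⟨y', hy', h1⟩ := key n z hz
    refine ⟨y + y', S0.add_mem hy hy', ?_⟩
    rw [hz'] at h1
    rwa [sub_sub] at h1

/-- If `X` divides all generators then `X ^ n` divides the elements of the `n`-th power. -/
theorem dvd_pow_of (T : Subalgebra k Ω) (hST : S ≤ T) (X : Ω) (hX : ∀ t ∈ s, ∃ a ∈ T, t = X * a)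
    (n : ℕ) : ∀ x, II ((Ideal.span {z : S | (z : Ω) ∈ s}) ^ n) x → ∃ a ∈ T, x = X ^ n * a := by
  set I : Ideal S := Ideal.span {z : S | (z : Ω) ∈ s} with hI
  have h1 : ∀ z : S, z ∈ I → ∃ a ∈ T, (z : Ω) = X * a := by
    intro z hz
    have hz' : z ∈ Submodule.span S {z : S | (z : Ω) ∈ s} := hz
    induction hz' using Submodule.span_induction with
    | mem t ht => exact hX t ht
    | zero => exact ⟨0, T.zero_mem, by simp⟩
    | add a b _ _ ha hb =>
      obtain ⟨x, hx, h1⟩ := ha (by assumption)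
      obtain ⟨y, hy, h2⟩ := hb (by assumption)
      exact ⟨x + y, T.add_mem hx hy, by push_cast; rw [h1, h2]; ring⟩
    | smul c a _ ha =>
      obtain ⟨x, hx, h1⟩ := ha (by assumption)
      exact ⟨c * x, T.mul_mem (hST c.2) hx, by rw [smul_eq_mul]; push_cast; rw [h1]; ring⟩
  have h2 : ∀ z : S, z ∈ I ^ n → ∃ a ∈ T, (z : Ω) = X ^ n * a := by
    induction n with
    | zero => exact fun z _ => ⟨z, hST z.2, by rw [pow_zero, one_mul]⟩
    | succ n ih =>
      intro z hz
      rw [pow_succ'] at hz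
      refine Submodule.mul_induction_on hz ?_ ?_
      · intro a ha b hb
        obtain ⟨x, hx, h3⟩ := h1 a ha
        obtain ⟨y, hy, h4⟩ := ih b hb
        exact ⟨x * y, T.mul_mem hx hy, by push_cast; rw [h3, h4]; ring⟩
      · rintro a b ⟨x, hx, h3⟩ ⟨y, hy, h4⟩
        exact ⟨x + y, T.add_mem hx hy, by push_cast; rw [h3, h4]; ring⟩
  rintro x ⟨z, hz, rfl⟩
  exact h2 z hz

/-- The elements of the `n`-th power divided by `b`. -/
theorem div_mem_of (T : Subalgebra k Ω) (hST : S ≤ T) (b : Ω) (n : ℕ)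
    (hb : ∀ φ : Fin n → s, (∏ i, (φ i : Ω)) / b ∈ T) :
    ∀ x, II ((Ideal.span {z : S | (z : Ω) ∈ s}) ^ n) x → x / b ∈ T := by
  rintro x ⟨z, hz, rfl⟩
  have h1 : (Ideal.span {z : S | (z : Ω) ∈ s}) ^ n =
      Submodule.span S ({z : S | (z : Ω) ∈ s} ^ n) := Submodule.span_pow _ n
  rw [h1] at hz
  induction hz using Submodule.span_induction with
  | mem t ht =>
    obtain ⟨f, hf⟩ := Set.mem_pow.1 ht
    have h2 := hb fun i => ⟨((f i : S) : Ω), (f i).2⟩
    have h3 : (t : Ω) = ∏ i, (((f i : S) : Ω)) := by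
      rw [← hf, List.prod_ofFn]
      push_cast
      rfl
    rw [h3]
    exact h2
  | zero => simp
  | add a b _ _ ha hb =>
    push_cast
    rw [add_div]
    exact T.add_mem ha hb
  | smul c a _ ha =>
    rw [smul_eq_mul]
    push_cast
    rw [mul_div_assoc]
    exact T.mul_mem (hST c.2) ha

end Approx

/-! ### values of integral elements -/

/-- The root of a monic polynomial with coefficients of value at least `0`. -/
theorem ge_of_monic {P : Polynomial Ω} (hP : P.Monic) (hc : ∀ i, v.Ge 0 (P.coeff i)) {θ : Ω}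
    (h0 : P.eval θ = 0) : v.Ge 0 θ := by
  intro hθ
  by_contra hcon
  push Not at hcon
  have hd : 0 < P.natDegree := by
    rcases Nat.eq_zero_or_pos P.natDegree with h1 | h1
    · rw [hP.natDegree_eq_zero.1 h1] at h0
      simp at h0
    · exact h1
  rw [eval_eq_sum_range, Finset.sum_range_succ, hP.coeff_natDegree, one_mul] at h0
  have h1 : v.Ge (((P.natDegree - 1 : ℕ) : ℝ) * v θ)
      (∑ i ∈ Finset.range P.natDegree, P.coeff i * θ ^ i) := by
    refine RVal.Ge.sum _ _ fun i hi => ?_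
    have h2 := (hc i).mul (RVal.ge_self (v := v) (θ ^ i))
    rw [v.map_pow hθ, zero_add] at h2
    refine h2.mono ?_
    have h3 : (i : ℝ) ≤ ((P.natDegree - 1 : ℕ) : ℝ) := by
      have := Finset.mem_range.1 hi
      exact_mod_cast Nat.le_sub_one_of_lt this
    nlinarith
  have h2 : (∑ i ∈ Finset.range P.natDegree, P.coeff i * θ ^ i) = -θ ^ P.natDegree :=
    eq_neg_of_add_eq_zero_left h0
  have h3 := h1 (by rw [h2]; exact neg_ne_zero.2 (pow_ne_zero _ hθ))
  rw [h2, v.map_neg _ (pow_ne_zero _ hθ), v.map_pow hθ] at h3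
  have h4 : (P.natDegree : ℝ) = ((P.natDegree - 1 : ℕ) : ℝ) + 1 := by
    have : P.natDegree = (P.natDegree - 1) + 1 := by omega
    exact_mod_cast this
  rw [h4] at h3
  nlinarith

/-- Values of polynomials. -/
theorem ge_aeval {D : Subalgebra k Ω} (hD : ∀ f ∈ D, v.Ge 0 f) (q : D[X]) {θ : Ω}
    (hθ : v.Ge 0 θ) : v.Ge 0 (aeval θ q) := by
  rw [aeval_eq_sum_range]
  refine RVal.Ge.sum _ _ fun i _ => ?_
  have h1 : v.Ge 0 (θ ^ i) := by
    intro h0
    by_cases hi : i = 0
    · rw [hi, pow_zero, v.map_one]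
    · have hθ0 : θ ≠ 0 := by
        rintro rfl
        exact h0 (zero_pow hi)
      rw [v.map_pow hθ0]
      exact mul_nonneg (Nat.cast_nonneg _) (hθ hθ0)
  have h2 := (hD _ (q.coeff i).2).mul h1
  rw [add_zero] at h2
  exact h2

theorem aeval_mem_adjoin {G : Set Ω} {θ : Ω} {D : Subalgebra k Ω}
    (hD : D = Algebra.adjoin k G) (q : D[X]) : aeval θ q ∈ Algebra.adjoin k (G ∪ {θ}) := by
  subst hD
  rw [aeval_eq_sum_range]
  refine sum_mem fun i _ => ?_
  change ((q.coeff i : Ω)) * θ ^ i ∈ _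
  have h1 : (q.coeff i : Ω) ∈ Algebra.adjoin k (G ∪ {θ}) :=
    Algebra.adjoin_mono Set.subset_union_left (q.coeff i).2
  have h2 : θ ∈ Algebra.adjoin k (G ∪ {θ}) := Algebra.subset_adjoin (Or.inr rfl)
  exact mul_mem h1 (pow_mem h2 i)

/-- `θ - c` is in the ideal generated by the `f - c_f`. -/
theorem theta_mem (h : Ctx k v r) (G : Set Ω) (θ : Ω) (S : Subalgebra k Ω)
    (hS : S = locv v (Algebra.adjoin k (G ∪ {θ}))) (I : Ideal S)
    (hG : ∀ x ∈ G, ∃ c : k, II I (x - algebraMap k Ω c)) (hI : ∀ x, II I x → VPos v x)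
    (hG0 : ∀ x ∈ G, v.Ge 0 x) (hθ : v.Ge 0 θ) (D : Subalgebra k Ω)
    (hD : D = Algebra.adjoin k G) (P : D[X])
    (h0 : aeval θ P = 0) (h1 : aeval θ (derivative P) ≠ 0)
    (h2 : v (aeval θ (derivative P)) = 0) {c : k} (hc : VPos v (θ - algebraMap k Ω c)) :
    II I (θ - algebraMap k Ω c) := by
  have hD0 : ∀ f ∈ D, v.Ge 0 f := by
    rw [hD]
    exact adjoin_nonneg h hG0
  set c' : D := algebraMap k D c with hc'
  obtain ⟨q, hq⟩ := X_sub_C_dvd_sub_C_eval (a := c') (p := P)
  set t : Ω := θ - algebraMap k Ω c with ht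
  have hct : aeval θ (X - C c' : D[X]) = t := by
    rw [map_sub, aeval_X, aeval_C]
    rfl
  have hP : P = C (P.eval c') + (X - C c') * q := by
    rw [← hq]
    ring
  -- the value of the quotient
  have h3 : ((P.eval c' : D) : Ω) = -(t * aeval θ q) := by
    have := congrArg (aeval θ) hP
    rw [h0, map_add, map_mul, hct, aeval_C] at this
    have h4 : (algebraMap D Ω) (P.eval c') = ((P.eval c' : D) : Ω) := rfl
    rw [h4] at this
    exact eq_neg_of_add_eq_zero_left this.symm
  have h4 : aeval θ q = aeval θ (derivative P) - t * aeval θ (derivative q) := by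
    have h5 : derivative P = q + (X - C c') * derivative q := by
      conv_lhs => rw [hP]
      rw [derivative_add, derivative_C, zero_add, derivative_mul, derivative_sub, derivative_X,
        derivative_C, sub_zero, one_mul]
    rw [h5, map_add, map_mul, hct]
    ring
  have hqv : aeval θ q ≠ 0 ∧ v (aeval θ q) = 0 := by
    rw [h4, sub_eq_add_neg]
    exact val_add_vpos h1 h2 ((hc.mul (ge_aeval hD0 _ hθ)).neg)
  have hqS : aeval θ q ∈ S := by
    rw [hS]
    exact le_locv _ (aeval_mem_adjoin hD q)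
  have hqS' : (aeval θ q)⁻¹ ∈ S := by
    rw [hS] at hqS ⊢
    exact locv_inv hqS hqv.1 hqv.2
  have hev : VPos v ((P.eval c' : D) : Ω) := by
    rw [h3]
    exact (hc.mul (ge_aeval hD0 q hθ)).neg
  obtain ⟨d, hd⟩ := const_adjoin hG ((P.eval c' : D) : Ω) (by rw [← hD]; exact (P.eval c').2)
  have hd0 : d = 0 := by
    refine h.const_eq_zero ?_
    have := hev.sub (hI _ hd)
    rwa [sub_sub_cancel] at this
  rw [hd0, _root_.map_zero, sub_zero] at hd
  have h6 : t = -((P.eval c' : D) : Ω) * (aeval θ q)⁻¹ := by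
    rw [h3, neg_neg, mul_inv_cancel_right₀ hqv.1]
  rw [h6]
  exact hd.neg.mul_right _ hqS'

end Pool.Agent.LU1
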