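import Pool.Agent.Lib.LU1_h15.QProp
import Pool.Agent.Lib.LU1_h15.EtDescA
import Pool.Agent.Lib.LU1_h15.EtDescB
import Pool.Agent.Lib.LU1_h15.EtDescC

/-! # ED: étale descent -/

set_option autoImplicit false

namespace Pool.Agent.LU1

open Pool.Agent.H15JM (RVal)
open Polynomial

universe u

variable {k Ω : Type u} [Field k] [Field Ω] [Algebra k Ω] {v : RVal Ω} {r : ℕ}

/-- An element of the field whose ring of fractions is `E` is algebraic over the ring. -/
theorem isAlgebraic_of_frac {R : Subalgebra k Ω} {E : IntermediateField k Ω}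
    (hR : FracIs R E) {g : Ω} (hg : IsAlgebraic E g) : IsAlgebraic R g := by
  let iA : Algebra R E := (Subalgebra.inclusion (S := R) (T := E.toSubalgebra) hR.1).toRingHom.toAlgebra
  have iT : IsScalarTower R E Ω := IsScalarTower.of_algebraMap_eq' rfl
  have iF : FaithfulSMul R E := by
    rw [faithfulSMul_iff_algebraMap_injective]
    exact Subalgebra.inclusion_injective (S := R) (T := E.toSubalgebra) hR.1
  have iR : IsFractionRing R E := IsFractionRing.of_field R E fun z => by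
    obtain ⟨a, ha, b, hb, -, h⟩ := hR.2 z z.2
    refine ⟨⟨a, ha⟩, ⟨b, hb⟩, Subtype.ext ?_⟩
    rw [h]
    rfl
  exact (IsFractionRing.isAlgebraic_iff R E Ω).2 hg

/-- The product of the `x_i` divides things. -/
theorem NF.prod_dvd (N : NF k v r) (i : Fin r) : ∃ a ∈ N.R, (∏ j, N.x j) = N.x i * a :=
  ⟨∏ j ∈ Finset.univ.erase i, N.x j, N.R.prod_mem fun j _ => N.x_mem j,
    (Finset.mul_prod_erase _ _ (Finset.mem_univ i)).symm⟩

theorem NF.prod_ne (N : NF k v r) : (∏ j, N.x j) ≠ 0 :=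
  Finset.prod_ne_zero_iff.2 fun j _ => N.x_ne j

theorem NF.prod_vpos (h : Ctx k v r) (N : NF k v r) : VPos v (∏ j, N.x j) := by
  intro _
  rw [v.map_prod _ _ fun j _ => N.x_ne j]
  have : Nonempty (Fin r) := ⟨⟨0, h.rpos⟩⟩
  exact Finset.sum_pos (fun j _ => N.x_pos j) Finset.univ_nonempty

theorem NF.loc (N : NF k v r) {f : Ω} (hf : f ∈ N.R) (h0 : f ≠ 0) (h1 : v f = 0) :
    f⁻¹ ∈ N.R := by
  obtain ⟨F, hF⟩ := N.fgen
  rw [hF] at hf ⊢
  exact locv_inv hf h0 h1

/-- A monomial with positive exponents is divisible by the product of the `x_i`. -/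
theorem NF.MonoPos.dvd {N : NF k v r} {f : Ω} (hf : N.MonoPos f) (h0 : 0 < v f) :
    ∃ a ∈ N.R, f = (∏ j, N.x j) * a := by
  obtain ⟨n, u, hu, hu1, -, hfe, hp, -, -⟩ := hf
  refine ⟨(∏ j, N.x j ^ (n j - 1).toNat) * u, N.R.mul_mem (N.R.prod_mem fun j _ =>
    N.R.pow_mem (N.x_mem j) _) hu1, ?_⟩
  rw [hfe, ← mul_assoc, ← Finset.prod_mul_distrib]
  congr 1
  refine Finset.prod_congr rfl fun j _ => ?_
  have h1 := hp h0 j
  rw [← pow_succ', ← zpow_natCast]
  congr 1
  omega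

/-- A monomial with nonnegative exponents divides a power of the product of the `x_i`. -/
theorem NF.MonoPos.dvd_pow {N : NF k v r} {f : Ω} (hf : N.MonoPos f) (h0 : 0 ≤ v f) :
    ∃ E : ℕ, ∃ a ∈ N.R, (∏ j, N.x j) ^ E = f * a := by
  obtain ⟨n, u, hu, -, hu2, hfe, hp, -, hz⟩ := hf
  have hn : ∀ j, 0 ≤ n j := by
    intro j
    rcases h0.lt_or_eq with h1 | h1
    · exact (hp h1 j).le
    · exact (hz h1.symm j).ge
  obtain ⟨E, hE⟩ : ∃ E : ℕ, ∀ j, n j ≤ E :=
    ⟨∑ j, (n j).toNat, fun j => by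
      have h1 : (n j).toNat ≤ ∑ j, (n j).toNat :=
        Finset.single_le_sum (f := fun j => (n j).toNat) (fun _ _ => Nat.zero_le _)
          (Finset.mem_univ j)
      have h2 := hn j
      omega⟩
  refine ⟨E, (∏ j, N.x j ^ (E - n j).toNat) * u⁻¹, N.R.mul_mem (N.R.prod_mem fun j _ =>
    N.R.pow_mem (N.x_mem j) _) hu2, ?_⟩
  have h1 : (∏ j, N.x j) ^ E = (∏ j, N.x j ^ n j) * ∏ j, N.x j ^ (E - n j).toNat := by
    rw [← Finset.prod_pow, ← Finset.prod_mul_distrib]
    refine Finset.prod_congr rfl fun j _ => ?_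
    have h2 := hE j
    have h3 := hn j
    rw [← zpow_natCast, ← zpow_natCast, ← zpow_add₀ (N.x_ne j)]
    congr 1
    omega
  rw [h1, hfe]
  field_simp

theorem Good.etale_desc (p : ℕ) (hp : p.Prime) [CharP k p] [IsAlgClosed k] (h : Ctx k v r)
    (E : IntermediateField k Ω) (halg : ∀ g : Ω, IsAlgebraic E g) (θ : Ω)
    (hc : ∀ i, v.Ge 0 ((minpoly E θ).coeff i : Ω))
    (h1 : aeval θ (derivative (minpoly E θ)) ≠ 0)
    (h2 : v (aeval θ (derivative (minpoly E θ))) = 0) (hL : Good v (adj E θ)) :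
    Good v E := by
  classical
  have hint : IsIntegral E θ := (halg θ).isIntegral
  obtain ⟨F, hFE, hEF, hcF⟩ := exists_gens E θ hint hc hL.fg
  -- the minimal polynomial over `k[F]`
  set D : Subalgebra k Ω := Algebra.adjoin k (F : Set Ω) with hD
  have hDE : ∀ f ∈ D, f ∈ E := by
    have : D ≤ E.toSubalgebra := by
      rw [hD, Algebra.adjoin_le_iff]
      exact fun f hf => (hFE f hf).1
    exact fun f hf => this hf
  set ι : D →+* E := (Subalgebra.inclusion (S := D) (T := E.toSubalgebra) hDE).toRingHom with hι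
  have hιinj : Function.Injective ι :=
    Subalgebra.inclusion_injective (S := D) (T := E.toSubalgebra) hDE
  obtain ⟨P, hP⟩ : ∃ P : D[X], P.map ι = minpoly E θ := by
    have h3 : minpoly E θ ∈ Polynomial.lifts ι := by
      rw [Polynomial.lifts_iff_coeff_lifts]
      intro i
      exact ⟨⟨_, hcF i⟩, Subtype.ext rfl⟩
    obtain ⟨P, hP⟩ := (Polynomial.mem_lifts _).1 h3
    exact ⟨P, hP⟩
  have hmap : ∀ Q : D[X], aeval θ (Q.map ι) = aeval θ Q := by
    intro Q
    rw [aeval_def, eval₂_map, aeval_def]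
    rfl
  have hP0 : aeval θ P = 0 := by
    rw [← hmap, hP, minpoly.aeval]
  have hP1 : aeval θ (derivative P) = aeval θ (derivative (minpoly E θ)) := by
    rw [← hmap, ← derivative_map, hP]
  have hθ : v.Ge 0 θ := by
    refine ge_of_monic (P := (minpoly E θ).map (algebraMap E Ω))
      ((minpoly.monic hint).map _) (fun i => ?_) ?_
    · rw [coeff_map]
      exact hc i
    · rw [eval_map_algebraMap, minpoly.aeval]
  -- the frame
  set A : Finset Ω := F ∪ {θ} with hA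
  have hadj : adj E θ = IntermediateField.adjoin k (A : Set Ω) := by
    rw [adj, hEF, ← IntermediateField.adjoin_union, hA]
    push_cast
    rfl
  have hAL : ∀ a ∈ A, a ∈ adj E θ ∧ v.Ge 0 a := by
    intro a ha
    refine ⟨?_, ?_⟩
    · rw [hadj]
      exact IntermediateField.subset_adjoin _ _ ha
    · rcases Finset.mem_union.1 ha with ha | ha
      · exact (hFE a ha).2
      · rw [Finset.mem_singleton.1 ha]
        exact hθ
  have hAgen : ∀ g ∈ adj E θ, ∃ a ∈ Algebra.adjoin k (A : Set Ω),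
      ∃ b ∈ Algebra.adjoin k (A : Set Ω), b ≠ 0 ∧ g = a / b := by
    intro g hg
    rw [hadj] at hg
    obtain ⟨a, ha, b, hb, hab⟩ := IntermediateField.mem_adjoin_iff_div.1 hg
    by_cases hb0 : b = 0
    · exact ⟨0, zero_mem _, 1, one_mem _, one_ne_zero, by rw [hab, hb0, div_zero, zero_div]⟩
    · exact ⟨a, ha, b, hb, hb0, hab⟩
  -- residues
  have hres : ∀ f : Ω, ∃ c : k, v.Ge 0 f → VPos v (f - algebraMap k Ω c) := by
    intro f
    by_cases hf : v.Ge 0 f
    · obtain ⟨c, hc⟩ := h.residue hf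
      exact ⟨c, fun _ => hc⟩
    · exact ⟨0, fun h => absurd h hf⟩
  choose cr hcr using hres
  set T : Finset Ω := (F.image fun f => f - algebraMap k Ω (cr f)).filter fun t => t ≠ 0 with hT
  have hTpos : ∀ t ∈ T, t ≠ 0 ∧ 0 < v t ∧ t ∈ D := by
    intro t ht
    obtain ⟨h3, h4⟩ := Finset.mem_filter.1 ht
    obtain ⟨f, hf, rfl⟩ := Finset.mem_image.1 h3
    exact ⟨h4, hcr f (hFE f hf).2 h4, sub_mem (Algebra.subset_adjoin hf)
      (Subalgebra.algebraMap_mem _ _)⟩
  have hEL : E ≤ adj E θ := le_sup_left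
  obtain ⟨N, hNL, g, hgA, hg0, hgM, G, hG, hNR, hNT⟩ := exists_QN p hp h (adj E θ) hL A hAL hAgen T
    fun t ht => ⟨hEL (hDE t (hTpos t ht).2.2), (hTpos t ht).1⟩
  set X : Ω := ∏ j, N.x j with hX
  have hX0 : X ≠ 0 := N.prod_ne
  have hXv : VPos v X := N.prod_vpos h
  have hXR : X ∈ N.R := N.R.prod_mem fun j _ => N.x_mem j
  have hAR : ∀ a ∈ Algebra.adjoin k (A : Set Ω), a ∈ N.R := by
    intro a ha
    rw [hNR]
    exact le_locv _ (Algebra.adjoin_mono Set.subset_union_left ha)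
  -- the rings `S0`, `S`
  set S0 : Subalgebra k Ω := locv v D with hS0
  set S : Subalgebra k Ω := locv v (Algebra.adjoin k ((F : Set Ω) ∪ {θ})) with hS
  have hAset : (A : Set Ω) = (F : Set Ω) ∪ {θ} := by
    rw [hA]
    push_cast
    rfl
  have hSN : S ≤ N.R := by
    refine locv_le ?_ fun f hf h0 h1 => N.loc hf h0 h1
    intro a ha
    rw [← hAset] at ha
    exact hAR a ha
  have hS0S : S0 ≤ S := locv_mono (Algebra.adjoin_mono Set.subset_union_left)
  have hDS0 : D ≤ S0 := le_locv _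
  have hS0E : ∀ f ∈ S0, f ∈ E := by
    rintro f ⟨a, ha, b, hb, -, -, rfl⟩
    exact E.div_mem (hDE a ha) (hDE b hb)
  set I : Ideal S := Ideal.span {z : S | (z : Ω) ∈ (T : Set Ω)} with hI
  have hTX : ∀ t ∈ (T : Set Ω), ∃ a ∈ N.R, t = X * a := fun t ht =>
    (hNT t ht).dvd (hTpos t ht).2.1
  have hIv : ∀ x, II I x → VPos v x := by
    intro x hx
    obtain ⟨a, ha, rfl⟩ := dvd_pow_of N.R hSN X hTX 1 x (by rw [pow_one]; exact hx)
    rw [pow_one]
    exact hXv.mul (N.nonneg a ha)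
  have hFI : ∀ x ∈ (F : Set Ω), ∃ c : k, II I (x - algebraMap k Ω c) := by
    intro f hf
    refine ⟨cr f, ?_⟩
    by_cases h0 : f - algebraMap k Ω (cr f) = 0
    · rw [h0]
      exact II.zero
    · have h3 : f - algebraMap k Ω (cr f) ∈ T :=
        Finset.mem_filter.2 ⟨Finset.mem_image_of_mem _ hf, h0⟩
      exact II.span h3 (hS0S (hDS0 (hTpos _ h3).2.2))
  have hθI : II I (θ - algebraMap k Ω (cr θ)) :=
    theta_mem h (F : Set Ω) θ S hS I hFI hIv (fun f hf => (hFE f hf).2) hθ D hD P hP0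
      (by rw [hP1]; exact h1) (by rw [hP1]; exact h2) (hcr θ hθ)
  have hconst : ∀ x ∈ S, ∃ c : k, II I (x - algebraMap k Ω c) := by
    refine const_locv (G := (F : Set Ω) ∪ {θ}) ?_ hIv fun f hf h0 h1 => locv_inv hf h0 h1
    rintro x (hx | hx)
    · exact hFI x hx
    · rw [Set.mem_singleton_iff.1 hx]
      exact ⟨_, hθI⟩
  -- the exponent
  have hgv : 0 ≤ v g := N.nonneg g (hAR g hgA) hg0
  obtain ⟨e, a₀, ha₀, hXe⟩ := hgM.dvd_pow hgv
  set n : ℕ := e + 2 with hn
  have hIn : ∀ x, II (I ^ n) x → ∃ a ∈ N.R, x = g * (X ^ 2 * a) := by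
    intro x hx
    obtain ⟨a, ha, h3⟩ := dvd_pow_of N.R hSN X hTX n x hx
    refine ⟨a₀ * a, N.R.mul_mem ha₀ ha, ?_⟩
    rw [h3, hn, pow_add, hXe]
    ring
  have happ : ∀ x ∈ S, ∃ y ∈ S0, II (I ^ n) (x - y) :=
    approx hconst S0 (fun t ht => hDS0 (hTpos t ht).2.2) n
  have hAS : ∀ a ∈ Algebra.adjoin k (A : Set Ω), a ∈ S := by
    intro a ha
    rw [hAset] at ha
    exact le_locv _ ha
  obtain ⟨b, hb, hgb⟩ := happ g (hAS g hgA)
  obtain ⟨a₁, ha₁, hgb'⟩ := hIn _ hgb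
  -- `b` is `g` times a unit
  set U : Ω := 1 - X ^ 2 * a₁ with hU
  have hX2 : ∀ a ∈ N.R, VPos v (X ^ 2 * a) := by
    intro a ha
    rw [pow_two, mul_assoc]
    exact hXv.mul (N.nonneg _ (N.R.mul_mem hXR ha))
  have hUv : U ≠ 0 ∧ v U = 0 := by
    rw [hU, sub_eq_add_neg]
    exact val_add_vpos one_ne_zero v.map_one (hX2 a₁ ha₁).neg
  have hUR : U ∈ N.R := N.R.sub_mem N.R.one_mem (N.R.mul_mem (N.R.pow_mem hXR 2) ha₁)
  have hUR' : U⁻¹ ∈ N.R := N.loc hUR hUv.1 hUv.2
  have hbU : b = g * U := by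
    have h3 : b = g - g * (X ^ 2 * a₁) := by
      rw [← hgb']
      ring
    rw [h3, hU]
    ring
  have hb0 : b ≠ 0 := by
    rw [hbU]
    exact mul_ne_zero hg0 hUv.1
  have hbex : ∀ w, w ∈ G → ∃ y ∈ S0, II (I ^ n) (w - y) := fun w hw => happ w (hAS w (hG w hw).1)
  choose! bb hbb hbb' using hbex
  -- the ring `R`
  set P3 : Finset Ω := (Finset.univ : Finset (Fin n → T)).image fun φ =>
    (∏ i, ((φ i : T) : Ω)) / b with hP3
  set FR : Finset Ω := F ∪ ((G.image fun w => bb w / b) ∪ P3) with hFR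
  set R : Subalgebra k Ω := locv v (Algebra.adjoin k (FR : Set Ω)) with hR
  have hDR : D ≤ R := by
    refine (Algebra.adjoin_mono ?_).trans (le_locv _)
    intro f hf
    exact Finset.mem_coe.2 (Finset.mem_union_left _ hf)
  have hS0R : S0 ≤ R := locv_le hDR fun f hf h0 h1 => locv_inv hf h0 h1
  have hRloc : ∀ f ∈ R, f ≠ 0 → v f = 0 → f⁻¹ ∈ R := fun f hf h0 h1 => locv_inv hf h0 h1
  have hbbR : ∀ w ∈ G, bb w / b ∈ R := fun w hw => le_locv _ (Algebra.subset_adjoin
    (Finset.mem_coe.2 (Finset.mem_union_right _ (Finset.mem_union_left _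
      (Finset.mem_image_of_mem _ hw)))))
  have hP3R : ∀ φ : Fin n → T, (∏ i, ((φ i : T) : Ω)) / b ∈ R := fun φ =>
    le_locv _ (Algebra.subset_adjoin (Finset.mem_coe.2 (Finset.mem_union_right _
      (Finset.mem_union_right _ (Finset.mem_image_of_mem _ (Finset.mem_univ φ))))))
  have hdivb : ∀ x, II (I ^ n) x → ∃ a ∈ N.R, x / b = X ^ 2 * a := by
    intro x hx
    obtain ⟨a, ha, h3⟩ := hIn x hx
    refine ⟨a * U⁻¹, N.R.mul_mem ha hUR', ?_⟩
    rw [h3, hbU]
    have := hUv.1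
    field_simp
  have hRN : R ≤ N.R := by
    refine locv_le ?_ fun f hf h0 h1 => N.loc hf h0 h1
    rw [Algebra.adjoin_le_iff]
    intro f hf
    rcases Finset.mem_union.1 hf with hf | hf
    · exact hAR f (Algebra.subset_adjoin (Finset.mem_coe.2 (Finset.mem_union_left _ hf)))
    · rcases Finset.mem_union.1 hf with hf | hf
      · obtain ⟨w, hw, rfl⟩ := Finset.mem_image.1 hf
        have h3 : w / g ∈ N.R := by
          rw [hNR]
          exact le_locv _ (Algebra.subset_adjoin (Or.inr ⟨w, hw, rfl⟩))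
        obtain ⟨a, ha, h4⟩ := hdivb _ (hbb' w hw)
        have h5 : bb w / b = w / g * U⁻¹ - X ^ 2 * a := by
          rw [← h4, hbU]
          have := hUv.1
          field_simp
          ring
        rw [h5]
        exact N.R.sub_mem (N.R.mul_mem h3 hUR') (N.R.mul_mem (N.R.pow_mem hXR 2) ha)
      · obtain ⟨φ, -, rfl⟩ := Finset.mem_image.1 hf
        have h3 : II (I ^ n) (∏ i, ((φ i : T) : Ω)) := by
          have h4 : ∀ i, ((φ i : T) : Ω) ∈ S := fun i => hS0S (hDS0 (hTpos _ (φ i).2).2.2)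
          refine ⟨∏ i, ⟨_, h4 i⟩, ?_, ?_⟩
          · have h5 : (∏ i : Fin n, (⟨_, h4 i⟩ : S)) ∈ ∏ _i : Fin n, I :=
              Ideal.prod_mem_prod fun i _ => Ideal.subset_span (φ i).2
            rwa [Finset.prod_const, Finset.card_univ, Fintype.card_fin] at h5
          · push_cast
            rfl
        obtain ⟨a, ha, h4⟩ := hdivb _ h3
        rw [h4]
        exact N.R.mul_mem (N.R.pow_mem hXR 2) ha
  -- `N.R` is the localisation of `R[θ]`
  set R1 : Subalgebra k Ω := locv v (Algebra.adjoin k ((R : Set Ω) ∪ {θ})) with hR1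
  have hRR1 : R ≤ R1 := fun f hf => le_locv _ (Algebra.subset_adjoin (Or.inl hf))
  have hθR1 : θ ∈ R1 := le_locv _ (Algebra.subset_adjoin (Or.inr rfl))
  have hSR1 : S ≤ R1 := by
    refine locv_le ?_ fun f hf h0 h1 => locv_inv hf h0 h1
    rw [Algebra.adjoin_le_iff]
    rintro f (hf | hf)
    · exact hRR1 (hDR (Algebra.subset_adjoin hf))
    · rw [Set.mem_singleton_iff.1 hf]
      exact hθR1
  have hdivR1 : ∀ x, II (I ^ n) x → x / b ∈ R1 :=
    div_mem_of R1 hSR1 b n fun φ => hRR1 (hP3R φ)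
  have hgbR1 : g / b ∈ R1 := by
    have h3 : g / b = 1 + (g - b) / b := by
      field_simp
      ring
    rw [h3]
    exact R1.add_mem R1.one_mem (hdivR1 _ hgb)
  have hgbv : g / b ≠ 0 ∧ v (g / b) = 0 := by
    refine ⟨div_ne_zero hg0 hb0, ?_⟩
    rw [v.map_div hg0 hb0, hbU, v.map_mul hg0 hUv.1, hUv.2]
    ring
  have hNR1 : N.R ≤ R1 := by
    rw [hNR]
    refine locv_le ?_ fun f hf h0 h1 => locv_inv hf h0 h1
    rw [Algebra.adjoin_le_iff]
    rintro f (hf | ⟨w, hw, rfl⟩)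
    · exact hSR1 (hAS f (Algebra.subset_adjoin hf))
    · have h3 : w / g = (bb w / b + (w - bb w) / b) * (g / b)⁻¹ := by
        field_simp
        ring
      change w / g ∈ R1
      rw [h3]
      exact R1.mul_mem (R1.add_mem (hRR1 (hbbR w hw)) (hdivR1 _ (hbb' w hw)))
        (locv_inv hgbR1 hgbv.1 hgbv.2)
  -- everything in `N.R` is in `R + X ^ 2 N.R`
  have hdec0 : ∀ x ∈ Algebra.adjoin k ((R : Set Ω) ∪ {θ}), ∃ ρ ∈ R, ∃ a ∈ N.R,
      x = ρ + X ^ 2 * a := by
    intro x hx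
    induction hx using Algebra.adjoin_induction with
    | mem x hx =>
      rcases hx with hx | hx
      · exact ⟨x, hx, 0, N.R.zero_mem, by ring⟩
      · rw [Set.mem_singleton_iff.1 hx]
        obtain ⟨y, hy, hy'⟩ := happ θ (hAS θ (Algebra.subset_adjoin (by
          rw [hAset]
          exact Or.inr rfl)))
        obtain ⟨a, ha, h3⟩ := hIn _ hy'
        refine ⟨y, hS0R hy, g * a, N.R.mul_mem (hAR g hgA) ha, ?_⟩
        have h4 : θ = y + (θ - y) := by ring
        rw [h4, h3]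
        ring
    | algebraMap c => exact ⟨_, R.algebraMap_mem c, 0, N.R.zero_mem, by ring⟩
    | add x y _ _ hx hy =>
      obtain ⟨ρ, hρ, a, ha, rfl⟩ := hx
      obtain ⟨ρ', hρ', a', ha', rfl⟩ := hy
      exact ⟨ρ + ρ', R.add_mem hρ hρ', a + a', N.R.add_mem ha ha', by ring⟩
    | mul x y _ _ hx hy =>
      obtain ⟨ρ, hρ, a, ha, rfl⟩ := hx
      obtain ⟨ρ', hρ', a', ha', rfl⟩ := hy
      exact ⟨ρ * ρ', R.mul_mem hρ hρ', ρ * a' + a * ρ' + X ^ 2 * (a * a'),
        N.R.add_mem (N.R.add_mem (N.R.mul_mem (hRN hρ) ha') (N.R.mul_mem ha (hRN hρ')))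
          (N.R.mul_mem (N.R.pow_mem hXR 2) (N.R.mul_mem ha ha')), by ring⟩
  have hdec : ∀ x ∈ N.R, ∃ ρ ∈ R, ∃ a ∈ N.R, x = ρ + X ^ 2 * a := by
    intro x hx
    obtain ⟨y, hy, z, hz, hz0, hvz, rfl⟩ := hNR1 hx
    have hadN : ∀ w ∈ Algebra.adjoin k ((R : Set Ω) ∪ {θ}), w ∈ N.R := by
      have : Algebra.adjoin k ((R : Set Ω) ∪ {θ}) ≤ N.R := by
        rw [Algebra.adjoin_le_iff]
        rintro f (hf | hf)
        · exact hRN hf
        · rw [Set.mem_singleton_iff.1 hf]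
          exact hAR θ (Algebra.subset_adjoin (by rw [hAset]; exact Or.inr rfl))
      exact fun w hw => this hw
    have hzN := hadN z hz
    obtain ⟨ρ, hρ, a, ha, hya⟩ := hdec0 y hy
    obtain ⟨σ, hσ, c, hc', hzc⟩ := hdec0 z hz
    have hσv : σ ≠ 0 ∧ v σ = 0 := by
      have h3 : σ = z + -(X ^ 2 * c) := by
        rw [hzc]
        ring
      rw [h3]
      exact val_add_vpos hz0 hvz (hX2 c hc').neg
    refine ⟨ρ / σ, by rw [div_eq_mul_inv]; exact R.mul_mem hρ (hRloc σ hσ hσv.1 hσv.2),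
      (a * σ - ρ * c) * (z⁻¹ * σ⁻¹), N.R.mul_mem (N.R.sub_mem (N.R.mul_mem ha (hRN hσ))
        (N.R.mul_mem (hRN hρ) hc')) (N.R.mul_mem (N.loc hzN hz0 hvz)
          (hRN (hRloc σ hσ hσv.1 hσv.2))), ?_⟩
    have h4 : σ ≠ 0 := hσv.1
    have h5 : y / z - ρ / σ = (y * σ - ρ * z) * (z⁻¹ * σ⁻¹) := by
      field_simp
    have h6 : y * σ - ρ * z = X ^ 2 * (a * σ - ρ * c) := by
      rw [hya, hzc]
      ring
    rw [h6] at h5
    rw [← mul_assoc, ← h5]
    ring
  -- the new parameters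
  choose! ρ hρ aρ haρ hρe using hdec
  have hYex : ∀ i, ∃ a ∈ N.R, X = N.x i * a := N.prod_dvd
  choose Y hY hXY using hYex
  set Ui : Fin r → Ω := fun i => 1 - X * (Y i * aρ (N.x i)) with hUi
  have hUiR : ∀ i, Ui i ∈ N.R := fun i => N.R.sub_mem N.R.one_mem
    (N.R.mul_mem hXR (N.R.mul_mem (hY i) (haρ _ (N.x_mem i))))
  have hUiv : ∀ i, Ui i ≠ 0 ∧ v (Ui i) = 0 := by
    intro i
    change 1 - X * (Y i * aρ (N.x i)) ≠ 0 ∧ v (1 - X * (Y i * aρ (N.x i))) = 0
    rw [sub_eq_add_neg]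
    exact val_add_vpos one_ne_zero v.map_one
      (hXv.mul (N.nonneg _ (N.R.mul_mem (hY i) (haρ _ (N.x_mem i))))).neg
  have hρx : ∀ i, ρ (N.x i) = N.x i * Ui i := by
    intro i
    have h3 := hρe _ (N.x_mem i)
    have h4 : ρ (N.x i) = N.x i - X ^ 2 * aρ (N.x i) := eq_sub_of_add_eq h3.symm
    rw [h4]
    change _ = N.x i * (1 - X * (Y i * aρ (N.x i)))
    rw [pow_two]
    nth_rewrite 1 [hXY i]
    ring
  have hρx0 : ∀ i, ρ (N.x i) ≠ 0 := fun i => by
    rw [hρx]
    exact mul_ne_zero (N.x_ne i) (hUiv i).1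
  have hρxv : ∀ i, v (ρ (N.x i)) = v (N.x i) := fun i => by
    rw [hρx, v.map_mul (N.x_ne i) (hUiv i).1, (hUiv i).2, add_zero]
  set i₀ : Fin r := ⟨0, h.rpos⟩ with hi₀
  have hρy : ρ N.y = N.y - X ^ 2 * aρ N.y := eq_sub_of_add_eq (hρe _ N.y_mem).symm
  have hρy0 : ρ N.y ≠ 0 := by
    intro h0
    rw [h0] at hρy
    have h3 : N.y = X ^ 2 * aρ N.y := (sub_eq_zero.1 hρy.symm)
    refine N.reg h 1 (fun i => if i = i₀ then Y i₀ * X * aρ N.y else 0) (fun i => ?_) ?_
    · by_cases hi : i = i₀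
      · rw [if_pos hi]
        exact N.R.mul_mem (N.R.mul_mem (hY i₀) hXR) (haρ _ N.y_mem)
      · rw [if_neg hi]
        exact N.R.zero_mem
    · rw [pow_one, Finset.sum_eq_single i₀]
      · rw [if_pos rfl]
        have h4 : N.x i₀ * (Y i₀ * X * aρ N.y) = X ^ 2 * aρ N.y := by
          rw [pow_two]
          nth_rewrite 2 [hXY i₀]
          ring
        rw [h4]
        exact h3
      · intro i _ hi
        rw [if_neg hi, mul_zero]
      · intro hi
        exact absurd (Finset.mem_univ _) hi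
  have hρyv : 0 < v (ρ N.y) := by
    have h3 : VPos v (ρ N.y) := by
      rw [hρy]
      exact VPos.sub (fun _ => N.y_pos) (hX2 _ (haρ _ N.y_mem))
    exact h3 hρy0
  have hRnn : ∀ f ∈ R, v.Ge 0 f := fun f hf => N.nonneg f (hRN hf)
  have hRE : ∀ f ∈ R, f ∈ E := by
    rintro f ⟨a, ha, c, hc', -, -, rfl⟩
    have h3 : Algebra.adjoin k (FR : Set Ω) ≤ E.toSubalgebra := by
      rw [Algebra.adjoin_le_iff]
      intro f hf
      rcases Finset.mem_union.1 hf with hf | hf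
      · exact (hFE f hf).1
      · rcases Finset.mem_union.1 hf with hf | hf
        · obtain ⟨w, hw, rfl⟩ := Finset.mem_image.1 hf
          exact E.div_mem (hS0E _ (hbb w hw)) (hS0E b hb)
        · obtain ⟨φ, -, rfl⟩ := Finset.mem_image.1 hf
          exact E.div_mem (E.prod_mem fun i _ => hDE _ (hTpos _ (φ i).2).2.2) (hS0E b hb)
    exact E.div_mem (h3 ha) (h3 hc')
  have hfrac : FracIs R E := by
    refine ⟨hRE, fun f hf => ?_⟩
    rw [hEF] at hf
    obtain ⟨a, ha, c, hc', hac⟩ := IntermediateField.mem_adjoin_iff_div.1 hf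
    by_cases hc0 : c = 0
    · exact ⟨0, R.zero_mem, 1, R.one_mem, one_ne_zero, by rw [hac, hc0, div_zero, zero_div]⟩
    · exact ⟨a, hDR ha, c, hDR hc', hc0, hac⟩
  -- generation of the maximal ideal
  have hgen : ∀ f ∈ R, VPos v f → ∃ a : Fin r → Ω, (∀ i, a i ∈ R) ∧ ∃ c ∈ R,
      f = ∑ i, ρ (N.x i) * a i + ρ N.y * c := by
    intro f hf hfv
    obtain ⟨a, ha, c, hc', hfe⟩ := N.gen f (hRN hf) hfv
    -- in terms of the new parameters
    set α : Fin r → Ω := fun i => (Ui i)⁻¹ * a i +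
      if i = i₀ then (Ui i₀)⁻¹ * (Y i₀ * X * aρ N.y * c) else 0 with hα
    have hαR : ∀ i, α i ∈ N.R := by
      intro i
      refine N.R.add_mem (N.R.mul_mem (N.loc (hUiR i) (hUiv i).1 (hUiv i).2) (ha i)) ?_
      by_cases hi : i = i₀
      · rw [if_pos hi]
        exact N.R.mul_mem (N.loc (hUiR i₀) (hUiv i₀).1 (hUiv i₀).2)
          (N.R.mul_mem (N.R.mul_mem (N.R.mul_mem (hY i₀) hXR) (haρ _ N.y_mem)) hc')
      · rw [if_neg hi]
        exact N.R.zero_mem
    have h3 : f = ρ N.y * c + ∑ i, ρ (N.x i) * α i := by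
      have h4 : ∀ i, ρ (N.x i) * α i = N.x i * a i +
          if i = i₀ then X ^ 2 * aρ N.y * c else 0 := by
        intro i
        have h5 := (hUiv i).1
        change ρ (N.x i) * ((Ui i)⁻¹ * a i +
          if i = i₀ then (Ui i₀)⁻¹ * (Y i₀ * X * aρ N.y * c) else 0) = _
        rw [hρx]
        by_cases hi : i = i₀
        · subst hi
          rw [if_pos rfl, if_pos rfl, pow_two]
          nth_rewrite 2 [hXY i₀]
          field_simp
        · rw [if_neg hi, if_neg hi]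
          field_simp
          ring
      rw [Finset.sum_congr rfl fun i _ => h4 i, Finset.sum_add_distrib,
        Finset.sum_ite_eq' Finset.univ i₀, if_pos (Finset.mem_univ _), hρy, hfe]
      ring
    obtain ⟨β, hβ, h4⟩ := descend_rel E θ hint hθ R hRE hRnn hRloc
      (fun i => hDR (hcF i)) (Fin.cons (ρ N.y) fun i => ρ (N.x i)) (Fin.cons c α)
      (by
        intro j
        refine Fin.cases ?_ (fun i => ?_) j
        · exact hρ _ N.y_mem
        · exact hρ _ (N.x_mem i))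
      (by
        intro j
        refine Fin.cases ?_ (fun i => ?_) j
        · exact hNR1 hc'
        · exact hNR1 (hαR i))
      f hf (by
        rw [Fin.sum_univ_succ]
        simp only [Fin.cons_zero, Fin.cons_succ]
        exact h3)
    rw [Fin.sum_univ_succ] at h4
    simp only [Fin.cons_zero, Fin.cons_succ] at h4
    exact ⟨fun i => β i.succ, fun i => hβ _, β 0, hβ 0, by rw [h4]; ring⟩
  let N' : NF k v r :=
    { x := fun i => ρ (N.x i)
      x_ne := hρx0
      x_pos := fun i => by rw [hρxv]; exact N.x_pos i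
      x_ind := by
        simp only [hρxv]
        exact N.x_ind
      y := ρ N.y
      y_ne := hρy0
      y_pos := hρyv
      R := R
      nonneg := hRnn
      x_mem := fun i => hρ _ (N.x_mem i)
      y_mem := hρ _ N.y_mem
      fgen := ⟨FR, rfl⟩
      gen := hgen
      alg := fun g => isAlgebraic_of_frac hfrac (halg g) }
  obtain ⟨B, -, hB1, hB2, -, -⟩ := N'.exists_BF h
  refine ⟨B, fun f hf => ?_, fun f hf => ?_⟩
  · obtain ⟨a, ha, c, hc', -, rfl⟩ := hB2 f hf
    exact E.div_mem (hRE a ha) (hRE c hc')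
  · obtain ⟨a, ha, c, hc', hc0, rfl⟩ := hfrac.2 f hf
    exact ⟨a, hB1 ha, c, hB1 hc', hc0, rfl⟩

end Pool.Agent.LU1
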