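import Pool.Agent.Lib.LU1_h15.Defs

/-! # A1: Lemma P (Perron's algorithm, via unimodular cones) -/

set_option autoImplicit false

namespace Pool.Agent.LU1

/-- `u` is a basis of `Γ` consisting of positive numbers and every element of `S` has all its
coordinates positive. -/
structure GoodBasis {r : ℕ} (Γ : AddSubgroup ℝ) (S : Set ℝ) (u : Fin r → ℝ) : Prop where
  mem : ∀ i, u i ∈ Γ
  pos : ∀ i, 0 < u i
  ind : LinearIndependent ℚ u
  gen : ∀ γ ∈ Γ, ∃ n : Fin r → ℤ, γ = ∑ i, (n i : ℝ) * u i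
  cone : ∀ γ ∈ S, ∃ n : Fin r → ℕ, (∀ i, 0 < n i) ∧ γ = ∑ i, (n i : ℝ) * u i

namespace Perron

open Matrix

/-- The state of the algorithm. -/
structure St {r : ℕ} (e : Fin r → ℝ) (N : Finset (Fin r → ℤ)) (T : Matrix (Fin r) (Fin r) ℤ)
    (u : Fin r → ℝ) : Prop where
  pos : ∀ j, 0 < u j
  eq : ∀ i, e i = ∑ j, (T i j : ℝ) * u j
  cone : ∀ n ∈ N, ∀ j, 0 < ∑ i, n i * T i j

variable {r : ℕ} {e : Fin r → ℝ} {N : Finset (Fin r → ℤ)}

theorem indep_iff (hind : LinearIndependent ℚ e) (a : Fin r → ℚ)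
    (h : ∑ i, (a i : ℝ) * e i = 0) : ∀ i, a i = 0 := by
  rw [Fintype.linearIndependent_iff] at hind
  refine hind a ?_
  rw [← h]
  refine Finset.sum_congr rfl fun i _ => ?_
  rw [Rat.smul_def]

theorem det_ne (hind : LinearIndependent ℚ e) {T : Matrix (Fin r) (Fin r) ℤ} {u : Fin r → ℝ}
    (h : ∀ i, e i = ∑ j, (T i j : ℝ) * u j) : T.det ≠ 0 := by
  intro h0
  obtain ⟨a, ha0, ha⟩ := Matrix.exists_vecMul_eq_zero_iff.mpr h0
  apply ha0
  have h1 : ∑ i, (((a i : ℤ) : ℚ) : ℝ) * e i = 0 := by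
    calc ∑ i, (((a i : ℤ) : ℚ) : ℝ) * e i
        = ∑ i, ∑ j, ((a i : ℝ) * (T i j : ℝ)) * u j := by
          refine Finset.sum_congr rfl fun i _ => ?_
          rw [h i, Finset.mul_sum]
          refine Finset.sum_congr rfl fun j _ => ?_
          push_cast
          ring
      _ = ∑ j, ∑ i, ((a i : ℝ) * (T i j : ℝ)) * u j := Finset.sum_comm
      _ = ∑ j, ((∑ i, a i * T i j : ℤ) : ℝ) * u j := by
          refine Finset.sum_congr rfl fun j _ => ?_
          rw [← Finset.sum_mul]
          push_cast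
          rfl
      _ = 0 := by
          refine Finset.sum_eq_zero fun j _ => ?_
          have : (∑ i, a i * T i j : ℤ) = 0 := by
            have := congrFun ha j
            simpa [Matrix.vecMul, dotProduct] using this
          rw [this]
          simp
  have h2 := indep_iff hind (fun i => ((a i : ℤ) : ℚ)) h1
  funext i
  have h3 := h2 i
  simpa using h3

theorem u_ne_zero (hind : LinearIndependent ℚ e) {T : Matrix (Fin r) (Fin r) ℤ} {u : Fin r → ℝ}
    (h : ∀ i, e i = ∑ j, (T i j : ℝ) * u j) (j : Fin r) : u j ≠ 0 := by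
  intro h0
  have h1 : ∀ i, e i = ∑ j', ((T.updateCol j 0) i j' : ℝ) * u j' := by
    intro i
    rw [h i]
    refine Finset.sum_congr rfl fun j' _ => ?_
    by_cases hj : j' = j
    · subst hj
      rw [h0]
      simp
    · rw [Matrix.updateCol_ne hj]
  refine det_ne hind h1 ?_
  exact Matrix.det_eq_zero_of_column_eq_zero j (fun i => by simp)

/-- If the determinant is not `± 1` there is a nonzero lattice point in the half-open cube. -/
theorem exists_alpha (T : Matrix (Fin r) (Fin r) ℤ) (h0 : T.det ≠ 0) (h1 : T.det.natAbs ≠ 1) :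
    ∃ (α : Fin r → ℚ) (t : Fin r → ℤ), (∀ j, 0 ≤ α j ∧ α j < 1) ∧ (∃ j, α j ≠ 0) ∧
      ∀ i, ∑ j, (T i j : ℚ) * α j = t i := by
  by_contra hc
  push Not at hc
  set A : Matrix (Fin r) (Fin r) ℚ := T.map (Int.castRingHom ℚ) with hA
  have hAd : A.det = ((T.det : ℤ) : ℚ) := by
    rw [hA, ← RingHom.mapMatrix_apply, ← RingHom.map_det]
    simp
  have hAu : IsUnit A.det := by
    rw [hAd]
    exact isUnit_iff_ne_zero.mpr (by exact_mod_cast h0)
  -- every column of the inverse is integral
  have h2 : ∀ k j, ∃ m : ℤ, A⁻¹ j k = m := by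
    intro k
    by_contra hk
    push Not at hk
    obtain ⟨j0, hj0⟩ := hk
    have hcol : ∀ i, ∑ j, (T i j : ℚ) * A⁻¹ j k = (1 : Matrix (Fin r) (Fin r) ℚ) i k := by
      intro i
      rw [← Matrix.mul_nonsing_inv A hAu, Matrix.mul_apply]
      rfl
    obtain ⟨i, hi⟩ := hc (fun j => Int.fract (A⁻¹ j k))
      (fun i => (if i = k then 1 else 0) - ∑ j, T i j * ⌊A⁻¹ j k⌋)
      (fun j => ⟨Int.fract_nonneg _, Int.fract_lt_one _⟩)
      ⟨j0, by
        intro h
        exact hj0 ⌊A⁻¹ j0 k⌋ (by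
          have := Int.floor_add_fract (A⁻¹ j0 k)
          rw [h, add_zero] at this
          exact this.symm)⟩
    apply hi
    have : ∀ j, (T i j : ℚ) * Int.fract (A⁻¹ j k)
        = (T i j : ℚ) * A⁻¹ j k - (T i j : ℚ) * ⌊A⁻¹ j k⌋ := by
      intro j
      rw [Int.fract]
      ring
    simp only [this, Finset.sum_sub_distrib, hcol, Matrix.one_apply]
    push_cast
    by_cases hik : i = k <;> simp [hik]
  choose m hm using h2
  have h3 : T * Matrix.of (fun j k => m k j) = 1 := by
    ext i k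
    have := congrFun (congrFun (Matrix.mul_nonsing_inv A hAu) i) k
    rw [Matrix.mul_apply] at this ⊢
    simp only [hm] at this
    have h4 : ((∑ j, T i j * (Matrix.of fun j k => m k j) j k : ℤ) : ℚ)
        = (((1 : Matrix (Fin r) (Fin r) ℤ) i k : ℤ) : ℚ) := by
      push_cast
      rw [Matrix.one_apply] at this ⊢
      simp only [Matrix.of_apply]
      have h5 : (((if i = k then 1 else 0 : ℤ)) : ℚ) = if i = k then 1 else 0 := by
        split_ifs <;> simp
      rw [h5, ← this]
      rfl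
    exact_mod_cast h4
  have h4 : IsUnit T.det := by
    have := congrArg Matrix.det h3
    rw [Matrix.det_mul, Matrix.det_one] at this
    exact IsUnit.of_mul_eq_one _ this
  exact h1 (Int.isUnit_iff_natAbs_eq.mp h4)

theorem step (hind : LinearIndependent ℚ e) {T : Matrix (Fin r) (Fin r) ℤ} {u : Fin r → ℝ}
    (h : St e N T u) (h1 : T.det.natAbs ≠ 1) :
    ∃ T' u', St e N T' u' ∧ T'.det.natAbs < T.det.natAbs := by
  have hd : T.det ≠ 0 := det_ne hind h.eq
  obtain ⟨α, t, hα, ⟨j1, hj1⟩, ht⟩ := exists_alpha T hd h1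
  -- the index minimising `u j / α j`
  obtain ⟨j0, hj0, hmin⟩ := Finset.exists_min_image (Finset.univ.filter fun j => α j ≠ 0)
    (fun j => u j / (α j : ℝ)) ⟨j1, by simp [hj1]⟩
  have hα0 : α j0 ≠ 0 := by simpa using hj0
  have hα0p : 0 < α j0 := lt_of_le_of_ne (hα j0).1 (Ne.symm hα0)
  have hα0r : (0 : ℝ) < (α j0 : ℝ) := by exact_mod_cast hα0p
  set T' := T.updateCol j0 t with hT'
  set u' : Fin r → ℝ := fun i => if i = j0 then u j0 / α j0 else u i - α i * (u j0 / α j0)
    with hu'
  have heq : ∀ i, e i = ∑ j, (T' i j : ℝ) * u' j := by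
    intro i
    have h2 : ∀ j, (T' i j : ℝ) * u' j = (T i j : ℝ) * u j
        + (if j = j0 then (t i : ℝ) * (u j0 / α j0) - (T i j0 : ℝ) * u j0
            + (T i j0 : ℝ) * α j0 * (u j0 / α j0) else 0)
        - (T i j : ℝ) * α j * (u j0 / α j0) := by
      intro j
      by_cases hj : j = j0
      · subst hj
        simp only [hT', hu', Matrix.updateCol_self, if_true]
        ring
      · simp only [hT', hu', Matrix.updateCol_ne hj, if_neg hj]
        ring
    have h3 : ∑ j, (T i j : ℝ) * α j = t i := by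
      have := ht i
      exact_mod_cast this
    simp only [h2, Finset.sum_sub_distrib, Finset.sum_add_distrib, ← Finset.sum_mul, h3,
      Finset.sum_ite_eq', Finset.mem_univ, if_true, h.eq i]
    field_simp
    ring
  have hne := u_ne_zero hind heq
  refine ⟨T', u', ⟨?_, heq, ?_⟩, ?_⟩
  · intro j
    refine lt_of_le_of_ne ?_ (Ne.symm (hne j))
    by_cases hj : j = j0
    · subst hj
      simp only [hu', if_true]
      exact (div_pos (h.pos j) hα0r).le
    · simp only [hu', if_neg hj]
      by_cases hαj : α j = 0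
      · rw [hαj]
        simpa using (h.pos j).le
      · have h4 := hmin j (by simp [hαj])
        have hαp : (0 : ℝ) < (α j : ℝ) := by
          exact_mod_cast lt_of_le_of_ne (hα j).1 (Ne.symm hαj)
        have h5 : (α j : ℝ) * (u j0 / α j0) ≤ α j * (u j / α j) :=
          mul_le_mul_of_nonneg_left h4 hαp.le
        have h6 : (α j : ℝ) * (u j / α j) = u j := by
          field_simp
        linarith
  · intro n hn j
    by_cases hj : j = j0
    · subst hj
      simp only [hT', Matrix.updateCol_self]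
      have h2 : ((∑ i, n i * t i : ℤ) : ℚ) = ∑ j', α j' * ((∑ i, n i * T i j' : ℤ) : ℚ) := by
        push_cast
        simp only [← ht, Finset.mul_sum]
        rw [Finset.sum_comm]
        refine Finset.sum_congr rfl fun j' _ => Finset.sum_congr rfl fun i _ => ?_
        ring
      have h3 : (0 : ℚ) < ((∑ i, n i * t i : ℤ) : ℚ) := by
        rw [h2]
        refine Finset.sum_pos' (fun j' _ => ?_) ⟨j, Finset.mem_univ _, ?_⟩
        · exact mul_nonneg (hα j').1 (by exact_mod_cast (h.cone n hn j').le)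
        · exact mul_pos hα0p (by exact_mod_cast h.cone n hn j)
      exact_mod_cast h3
    · simp only [hT', Matrix.updateCol_ne hj]
      exact h.cone n hn j
  · have h2 : ((T'.det : ℤ) : ℚ) = α j0 * ((T.det : ℤ) : ℚ) := by
      set A : Matrix (Fin r) (Fin r) ℚ := T.map (Int.castRingHom ℚ) with hA
      have hAd : A.det = ((T.det : ℤ) : ℚ) := by
        rw [hA, ← RingHom.mapMatrix_apply, ← RingHom.map_det]
        simp
      have hAd' : ((T'.det : ℤ) : ℚ) = (A.updateCol j0 (A.mulVec α)).det := by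
        have h3 : A.updateCol j0 (A.mulVec α) = T'.map (Int.castRingHom ℚ) := by
          ext i j
          by_cases hj : j = j0
          · subst hj
            simp only [hT', Matrix.updateCol_self, Matrix.map_apply]
            rw [Matrix.mulVec, dotProduct]
            simpa [hA] using ht i
          · simp only [hT', Matrix.updateCol_ne hj, Matrix.map_apply, hA]
        rw [h3, ← RingHom.mapMatrix_apply, ← RingHom.map_det]
        simp
      rw [hAd', ← Matrix.cramer_apply, Matrix.cramer_eq_adjugate_mulVec, Matrix.mulVec_mulVec,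
        Matrix.adjugate_mul, hAd, Matrix.smul_mulVec, Matrix.one_mulVec]
      simp [mul_comm]
    have h3 : |((T'.det : ℤ) : ℚ)| < |((T.det : ℤ) : ℚ)| := by
      rw [h2, abs_mul, abs_of_pos hα0p]
      have h4 : (0 : ℚ) < |((T.det : ℤ) : ℚ)| := abs_pos.mpr (by exact_mod_cast hd)
      nlinarith [(hα j0).2]
    have h4 : |T'.det| < |T.det| := by exact_mod_cast h3
    zify
    exact h4

theorem descend (hind : LinearIndependent ℚ e) : ∀ (m : ℕ) (T : Matrix (Fin r) (Fin r) ℤ)
    (u : Fin r → ℝ), T.det.natAbs ≤ m → St e N T u →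
    ∃ T' u', St e N T' u' ∧ T'.det.natAbs = 1 := by
  intro m
  induction m with
  | zero =>
    intro T u hm h
    have := det_ne hind h.eq
    omega
  | succ m ih =>
    intro T u hm h
    by_cases h1 : T.det.natAbs = 1
    · exact ⟨T, u, h, h1⟩
    · obtain ⟨T', u', h', hlt⟩ := step hind h h1
      exact ih T' u' (by omega) h'

/-- The initial state. -/
theorem start (hr : 0 < r) (hpos : ∀ i, 0 < e i) (hN : ∀ n ∈ N, 0 < ∑ i, (n i : ℝ) * e i) :
    ∃ T u, St e N T u := by
  -- choose the scale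
  obtain ⟨K, hK0, hK⟩ : ∃ K : ℝ, 0 < K ∧ ∀ n ∈ N, ∀ j : Fin r,
      (∑ i, |(n i : ℝ)|) + (r + 1) * |(n j : ℝ)| < K * ∑ i, (n i : ℝ) * e i := by
    classical
    set g : (Fin r → ℤ) → ℝ := fun n =>
      ((∑ i, |(n i : ℝ)|) + (r + 1) * (∑ i, |(n i : ℝ)|) + 1) / ∑ i, (n i : ℝ) * e i with hg
    refine ⟨1 + ∑ n ∈ N, |g n|, by positivity, fun n hn j => ?_⟩
    have h1 := hN n hn
    have h2 : g n ≤ 1 + ∑ n ∈ N, |g n| := by
      have h3 : |g n| ≤ ∑ n ∈ N, |g n| :=
        Finset.single_le_sum (f := fun n => |g n|) (fun _ _ => abs_nonneg _) hn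
      have := le_abs_self (g n)
      linarith
    have h3 : g n * ∑ i, (n i : ℝ) * e i
        = (∑ i, |(n i : ℝ)|) + (r + 1) * (∑ i, |(n i : ℝ)|) + 1 := by
      rw [hg]
      field_simp
    have h4 : g n * ∑ i, (n i : ℝ) * e i ≤ (1 + ∑ n ∈ N, |g n|) * ∑ i, (n i : ℝ) * e i :=
      mul_le_mul_of_nonneg_right h2 h1.le
    have h5 : |(n j : ℝ)| ≤ ∑ i, |(n i : ℝ)| :=
      Finset.single_le_sum (f := fun i => |(n i : ℝ)|) (fun _ _ => abs_nonneg _)
        (Finset.mem_univ j)
    have h6 : ((r : ℝ) + 1) * |(n j : ℝ)| ≤ (r + 1) * (∑ i, |(n i : ℝ)|) :=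
      mul_le_mul_of_nonneg_left h5 (by positivity)
    linarith
  set m : Fin r → ℤ := fun i => ⌊K * e i⌋ with hm
  have hm1 : ∀ i, (m i : ℝ) ≤ K * e i := fun i => Int.floor_le _
  have hm2 : ∀ i, K * e i < m i + 1 := fun i => Int.lt_floor_add_one _
  have hm0 : ∀ i, (0 : ℝ) ≤ m i := fun i => by
    have : (0 : ℤ) ≤ m i := Int.floor_nonneg.mpr (mul_pos hK0 (hpos i)).le
    exact_mod_cast this
  set E : ℝ := ∑ i, e i with hE
  set M : ℝ := ∑ i, (m i : ℝ) with hM
  have hM0 : 0 ≤ M := Finset.sum_nonneg fun i _ => hm0 i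
  have : Nonempty (Fin r) := ⟨⟨0, hr⟩⟩
  have hE0 : 0 < E := Finset.sum_pos (fun i _ => hpos i) Finset.univ_nonempty
  set U : ℝ := E / (r + 1 + M) with hU
  have hden : (0 : ℝ) < r + 1 + M := by positivity
  have hUeq : U * (r + 1 + M) = E := by
    rw [hU]
    field_simp
  have hKE : K * E < M + r := by
    have : K * E = ∑ i, K * e i := by rw [hE, Finset.mul_sum]
    rw [this]
    have h1 : ∑ i : Fin r, ((m i : ℝ) + 1) = M + r := by
      rw [Finset.sum_add_distrib, ← hM]
      simp
    rw [← h1]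
    exact Finset.sum_lt_sum_of_nonempty Finset.univ_nonempty fun i _ => hm2 i
  set u : Fin r → ℝ := fun i => (e i - m i * U) / (r + 1) with hu
  have hr1 : (0 : ℝ) < (r : ℝ) + 1 := by positivity
  have hsumu : ∑ j, u j = U := by
    have h1 : ∑ j, u j = (E - M * U) / (r + 1) := by
      rw [hu, ← Finset.sum_div, Finset.sum_sub_distrib, ← Finset.sum_mul]
    rw [h1]
    rw [div_eq_iff hr1.ne']
    linarith [hUeq]
  refine ⟨Matrix.of fun i j => m i + (if i = j then ((r : ℤ) + 1) else 0), u, ⟨?_, ?_, ?_⟩⟩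
  · intro j
    refine div_pos ?_ hr1
    have h1 : 0 < (e j - m j * U) * (r + 1 + M) := by
      have h2 : (e j - m j * U) * (r + 1 + M) = e j * (r + 1 + M) - m j * E := by
        rw [← hUeq]
        ring
      rw [h2]
      have h3 : (m j : ℝ) * E ≤ K * e j * E := mul_le_mul_of_nonneg_right (hm1 j) hE0.le
      have h4 : K * e j * E = e j * (K * E) := by ring
      have h5 : e j * (K * E) ≤ e j * (M + r) := mul_le_mul_of_nonneg_left hKE.le (hpos j).le
      have h6 := hpos j
      nlinarith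
    exact (mul_pos_iff_of_pos_right hden).mp h1
  · intro i
    simp only [Matrix.of_apply]
    push_cast
    simp only [add_mul, Finset.sum_add_distrib, ← Finset.mul_sum, hsumu, ite_mul, zero_mul,
      Finset.sum_ite_eq, Finset.mem_univ, if_true]
    rw [hu]
    field_simp
    ring
  · intro n hn j
    simp only [Matrix.of_apply]
    have h1 : (∑ i, n i * (m i + if i = j then ((r : ℤ) + 1) else 0))
        = ∑ i, n i * m i + n j * (r + 1) := by
      simp [mul_add, Finset.sum_add_distrib]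
    rw [h1]
    have h2 := hK n hn j
    have h3 : K * ∑ i, (n i : ℝ) * e i - ∑ i, |(n i : ℝ)| ≤ ∑ i, (n i : ℝ) * m i := by
      rw [Finset.mul_sum, ← Finset.sum_sub_distrib]
      refine Finset.sum_le_sum fun i _ => ?_
      have h4 : |(n i : ℝ) * (K * e i - m i)| ≤ |(n i : ℝ)| := by
        rw [abs_mul]
        have h5 : |K * e i - m i| ≤ 1 := by
          rw [abs_le]
          constructor <;> linarith [hm1 i, hm2 i]
        nlinarith [abs_nonneg (n i : ℝ)]
      have h5 := le_abs_self ((n i : ℝ) * (K * e i - m i))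
      nlinarith
    have h4 : -(((r : ℝ) + 1) * |(n j : ℝ)|) ≤ (n j : ℝ) * (r + 1) := by
      have := neg_abs_le (n j : ℝ)
      nlinarith
    have h5 : (0 : ℝ) < ((∑ i, n i * m i + n j * (r + 1) : ℤ) : ℝ) := by
      push_cast
      linarith
    exact_mod_cast h5

theorem core (hr : 0 < r) (hpos : ∀ i, 0 < e i) (hind : LinearIndependent ℚ e)
    (hN : ∀ n ∈ N, 0 < ∑ i, (n i : ℝ) * e i) :
    ∃ (T T' : Matrix (Fin r) (Fin r) ℤ) (u : Fin r → ℝ), St e N T u ∧ T' * T = 1 := by
  obtain ⟨T0, u0, h0⟩ := start hr hpos hN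
  obtain ⟨T, u, h, hd⟩ := descend hind _ T0 u0 le_rfl h0
  have hu : IsUnit T.det := Int.isUnit_iff_natAbs_eq.mpr hd
  exact ⟨T, T⁻¹, u, h, Matrix.nonsing_inv_mul T hu⟩

end Perron

theorem perron {r : ℕ} (hr : 0 < r) (Γ : AddSubgroup ℝ) (hΓ : Γ.FG)
    (hrk : ∃ X : Fin r → ℝ, LinearIndependent ℚ X ∧ (∀ i, X i ∈ Γ) ∧
      ∀ γ ∈ Γ, γ ∈ Submodule.span ℚ (Set.range X))
    (S : Finset ℝ) (hS : ∀ γ ∈ S, γ ∈ Γ ∧ 0 < γ) :
    ∃ u : Fin r → ℝ, GoodBasis Γ (S : Set ℝ) u := by
  obtain ⟨X, hX, hXΓ, hspan⟩ := hrk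
  have : Module.Finite ℤ Γ := Module.Finite.iff_addGroup_fg.mpr
    ((AddGroup.fg_iff_addSubgroup_fg Γ).mpr hΓ)
  have : Module.Free ℤ Γ := Module.free_of_finite_type_torsion_free'
  set b := Module.finBasis ℤ Γ with hb
  set f : Fin (Module.finrank ℤ Γ) → ℝ := fun i => (b i : ℝ) with hf
  have hfZ : LinearIndependent ℤ f := by
    have h1 := b.linearIndependent.map' (AddSubgroup.subtype Γ).toIntLinearMap (by
      rw [LinearMap.ker_eq_bot]
      exact Subtype.val_injective)
    exact h1
  have hfQ : LinearIndependent ℚ f := (LinearIndependent.iff_fractionRing ℤ ℚ).mp hfZ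
  have hXZ : LinearIndependent ℤ (fun i => (⟨X i, hXΓ i⟩ : Γ)) := by
    refine LinearIndependent.of_comp (AddSubgroup.subtype Γ).toIntLinearMap ?_
    exact (LinearIndependent.iff_fractionRing ℤ ℚ).mpr hX
  have hle : r ≤ Module.finrank ℤ Γ := by
    have := hXZ.fintype_card_le_finrank
    simpa using this
  have hge : Module.finrank ℤ Γ ≤ r := by
    have h1 : Set.range f ⊆ Submodule.span ℚ (Set.range X) := by
      rintro _ ⟨i, rfl⟩
      exact hspan _ (b i).2
    have h2 : Submodule.span ℚ (Set.range f) ≤ Submodule.span ℚ (Set.range X) :=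
      Submodule.span_le.mpr h1
    have : FiniteDimensional ℚ (Submodule.span ℚ (Set.range X)) :=
      FiniteDimensional.span_of_finite ℚ (Set.finite_range X)
    have h3 := Submodule.finrank_mono h2
    rw [finrank_span_eq_card hfQ, finrank_span_eq_card hX] at h3
    simpa using h3
  have hr' : Module.finrank ℤ Γ = r := le_antisymm hge hle
  -- reindex and make positive
  set c : Fin r ≃ Fin (Module.finrank ℤ Γ) := finCongr hr'.symm with hc
  have hg0 : ∀ i : Fin r, f (c i) ≠ 0 := fun i => hfQ.ne_zero _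
  set e : Fin r → ℝ := fun i => |f (c i)| with he
  have hpos : ∀ i, 0 < e i := fun i => abs_pos.mpr (hg0 i)
  obtain ⟨s, hs1, hs⟩ : ∃ s : Fin r → ℤ, (∀ i, s i = 1 ∨ s i = -1) ∧
      ∀ i, f (c i) = s i * e i := by
    refine ⟨fun i => if 0 < f (c i) then 1 else -1, fun i => ?_, fun i => ?_⟩
    · dsimp only
      split_ifs
      · exact Or.inl rfl
      · exact Or.inr rfl
    · dsimp only [he]
      split_ifs with h
      · have h1 : e i = f (c i) := abs_of_pos h
        rw [h1]
        simp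
      · have h1 : e i = - f (c i) := abs_of_nonpos (not_lt.mp h)
        rw [h1]
        simp
  have hss : ∀ i, s i * s i = 1 := fun i => by
    rcases hs1 i with h | h <;> rw [h] <;> norm_num
  have hes : ∀ i, e i = s i * f (c i) := fun i => by
    rw [hs i, ← mul_assoc]
    have : ((s i : ℝ)) * s i = 1 := by exact_mod_cast hss i
    rw [this, one_mul]
  have heΓ : ∀ i, e i ∈ Γ := fun i => by
    rw [hes i]
    have := Γ.zsmul_mem (b (c i)).2 (s i)
    rwa [zsmul_eq_mul] at this
  have hind : LinearIndependent ℚ e := by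
    rw [Fintype.linearIndependent_iff]
    intro a ha
    have h1 := hfQ.comp c c.injective
    rw [Fintype.linearIndependent_iff] at h1
    intro i
    have h2 := h1 (fun i => a i * s i) (by
      rw [← ha]
      refine Finset.sum_congr rfl fun i _ => ?_
      simp only [Function.comp]
      rw [Rat.smul_def, Rat.smul_def, hes i]
      push_cast
      ring) i
    rcases hs1 i with h | h <;> rw [h] at h2 <;> simpa using h2
  have hgen : ∀ γ ∈ Γ, ∃ n : Fin r → ℤ, γ = ∑ i, (n i : ℝ) * e i := by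
    intro γ hγ
    refine ⟨fun i => b.repr ⟨γ, hγ⟩ (c i) * s i, ?_⟩
    have h1 := b.sum_repr ⟨γ, hγ⟩
    have h2 := congrArg (fun x : Γ => (x : ℝ)) h1
    simp only [AddSubgroup.val_finsetSum] at h2
    refine h2.symm.trans ?_
    rw [← c.sum_comp]
    refine Finset.sum_congr rfl fun i _ => ?_
    rw [hes i]
    have h3 : ((s i : ℝ)) * s i = 1 := by exact_mod_cast hss i
    have h4 : ((b.repr ⟨γ, hγ⟩ (c i) • b (c i) : Γ) : ℝ)
        = (b.repr ⟨γ, hγ⟩ (c i) : ℝ) * f (c i) := by
      simp [hf]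
    rw [h4]
    push_cast
    calc (b.repr ⟨γ, hγ⟩ (c i) : ℝ) * f (c i)
        = (b.repr ⟨γ, hγ⟩ (c i) : ℝ) * ((s i : ℝ) * s i) * f (c i) := by rw [h3, mul_one]
      _ = _ := by ring
  choose! cd hcd using hgen
  classical
  set N : Finset (Fin r → ℤ) := S.image cd with hN
  have hNpos : ∀ n ∈ N, 0 < ∑ i, (n i : ℝ) * e i := by
    intro n hn
    obtain ⟨γ, hγ, rfl⟩ := Finset.mem_image.mp hn
    rw [← hcd γ (hS γ hγ).1]
    exact (hS γ hγ).2
  obtain ⟨T, T', u, hst, hTT⟩ := Perron.core hr hpos hind hNpos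
  have hue : ∀ j, u j = ∑ i, (T' j i : ℝ) * e i := by
    intro j
    have h1 : ∀ j', (((T' * T) j j' : ℤ) : ℝ) = if j = j' then 1 else 0 := by
      intro j'
      rw [hTT, Matrix.one_apply]
      split_ifs <;> simp
    calc u j = ∑ j', (((T' * T) j j' : ℤ) : ℝ) * u j' := by
          simp only [h1, ite_mul, one_mul, zero_mul, Finset.sum_ite_eq, Finset.mem_univ, if_true]
      _ = ∑ j', ∑ i, (T' j i : ℝ) * (T i j') * u j' := by
          refine Finset.sum_congr rfl fun j' _ => ?_
          rw [Matrix.mul_apply]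
          push_cast
          rw [Finset.sum_mul]
      _ = ∑ i, ∑ j', (T' j i : ℝ) * (T i j') * u j' := Finset.sum_comm
      _ = ∑ i, (T' j i : ℝ) * e i := by
          refine Finset.sum_congr rfl fun i _ => ?_
          rw [hst.eq i, Finset.mul_sum]
          refine Finset.sum_congr rfl fun j' _ => ?_
          ring
  have hcoord : ∀ γ ∈ Γ, γ = ∑ j, ((∑ i, cd γ i * T i j : ℤ) : ℝ) * u j := by
    intro γ hγ
    calc γ = ∑ i, (cd γ i : ℝ) * e i := hcd γ hγ
      _ = ∑ i, ∑ j, (cd γ i : ℝ) * (T i j) * u j := by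
          refine Finset.sum_congr rfl fun i _ => ?_
          rw [hst.eq i, Finset.mul_sum]
          refine Finset.sum_congr rfl fun j' _ => ?_
          ring
      _ = ∑ j, ∑ i, (cd γ i : ℝ) * (T i j) * u j := Finset.sum_comm
      _ = _ := by
          refine Finset.sum_congr rfl fun j' _ => ?_
          push_cast
          rw [Finset.sum_mul]
  refine ⟨u, ⟨?_, hst.pos, ?_, fun γ hγ => ⟨_, hcoord γ hγ⟩, ?_⟩⟩
  · intro j
    rw [hue j]
    refine sum_mem fun i _ => ?_
    have := Γ.zsmul_mem (heΓ i) (T' j i)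
    rwa [zsmul_eq_mul] at this
  · rw [Fintype.linearIndependent_iff]
    intro a ha
    have h1 : ∑ i, (((∑ j, a j * T' j i : ℚ)) : ℝ) * e i = 0 := by
      calc ∑ i, (((∑ j, a j * T' j i : ℚ)) : ℝ) * e i
          = ∑ i, ∑ j, (a j : ℝ) * (T' j i) * e i := by
            refine Finset.sum_congr rfl fun i _ => ?_
            push_cast
            rw [Finset.sum_mul]
        _ = ∑ j, ∑ i, (a j : ℝ) * (T' j i) * e i := Finset.sum_comm
        _ = ∑ j, a j • u j := by
            refine Finset.sum_congr rfl fun j _ => ?_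
            rw [Rat.smul_def, hue j, Finset.mul_sum]
            refine Finset.sum_congr rfl fun i _ => ?_
            ring
        _ = 0 := ha
    have h2 := Perron.indep_iff hind (fun i => ∑ j, a j * T' j i) h1
    intro j
    have h3 : ∀ j' j, (((T' * T) j' j : ℤ) : ℚ) = if j' = j then 1 else 0 := by
      intro j' j
      rw [hTT, Matrix.one_apply]
      split_ifs <;> simp
    calc a j = ∑ j', a j' * (((T' * T) j' j : ℤ) : ℚ) := by
          simp only [h3, mul_ite, mul_one, mul_zero, Finset.sum_ite_eq', Finset.mem_univ, if_true]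
      _ = ∑ j', ∑ i, a j' * (T' j' i) * (T i j) := by
          refine Finset.sum_congr rfl fun j' _ => ?_
          rw [Matrix.mul_apply]
          push_cast
          rw [Finset.mul_sum]
          refine Finset.sum_congr rfl fun i _ => ?_
          ring
      _ = ∑ i, ∑ j', a j' * (T' j' i) * (T i j) := Finset.sum_comm
      _ = ∑ i, (∑ j', a j' * (T' j' i)) * (T i j) := by
          refine Finset.sum_congr rfl fun i _ => ?_
          rw [Finset.sum_mul]
      _ = 0 := by
          refine Finset.sum_eq_zero fun i _ => ?_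
          have h5 : ∑ j', a j' * (T' j' i : ℚ) = 0 := h2 i
          rw [h5, zero_mul]
  · intro γ hγ
    have hγN : cd γ ∈ N := Finset.mem_image_of_mem _ hγ
    refine ⟨fun j => (∑ i, cd γ i * T i j).toNat, fun j => ?_, ?_⟩
    · have h1 := hst.cone _ hγN j
      exact Int.pos_iff_toNat_pos.mp h1
    · refine (hcoord γ (hS γ hγ).1).trans (Finset.sum_congr rfl fun j _ => ?_)
      have h1 := hst.cone _ hγN j
      have h2 : (((∑ i, cd γ i * T i j).toNat : ℤ)) = ∑ i, cd γ i * T i j :=
        Int.toNat_of_nonneg h1.le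
      have h3 : (((∑ i, cd γ i * T i j).toNat : ℕ) : ℝ) = ((∑ i, cd γ i * T i j : ℤ) : ℝ) := by
        exact_mod_cast congrArg (fun z : ℤ => (z : ℝ)) h2
      rw [h3]

end Pool.Agent.LU1
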