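import Pool.Agent.Lib.LU1_h15.Basic
import Pool.Agent.Lib.LU1_h15.Perron

/-! # B1a: noetherian frames inside big frames -/

set_option autoImplicit false

open Polynomial

namespace Pool.Agent.LU1

open Pool.Agent.H15JM (RVal)

universe u

variable {k Ω : Type u} [Field k] [Field Ω] [Algebra k Ω] {v : RVal Ω} {r : ℕ}

namespace NFA

/-! ### Quotients -/

/-- The quotients of elements of `S` form the field generated by `S`. -/
theorem mem_frac {S : Subalgebra k Ω} {f : Ω} :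
    f ∈ IntermediateField.adjoin k (S : Set Ω) ↔ ∃ a ∈ S, ∃ b ∈ S, b ≠ 0 ∧ f = a / b := by
  rw [IntermediateField.mem_adjoin_iff_div, Algebra.adjoin_eq]
  constructor
  · rintro ⟨a, ha, b, hb, rfl⟩
    by_cases h0 : b = 0
    · exact ⟨0, S.zero_mem, 1, S.one_mem, one_ne_zero, by simp [h0]⟩
    · exact ⟨a, ha, b, hb, h0, rfl⟩
  · rintro ⟨a, ha, b, hb, -, rfl⟩
    exact ⟨a, ha, b, hb, rfl⟩

theorem isAlgebraic_of_frac {S R : Subalgebra k Ω}
    (hS : ∀ f ∈ R, ∃ a ∈ S, ∃ b ∈ S, b ≠ 0 ∧ f = a / b) {g : Ω} (hg : IsAlgebraic R g) :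
    IsAlgebraic S g := by
  obtain ⟨P, hP, hPg⟩ := hg
  have hden : ∀ F : Finset ℕ, ∃ d ∈ S, d ≠ 0 ∧ ∀ i ∈ F, d * (P.coeff i : Ω) ∈ S := by
    classical
    intro F
    induction F using Finset.induction_on with
    | empty => exact ⟨1, S.one_mem, one_ne_zero, by simp⟩
    | insert i F hi ih =>
      obtain ⟨d, hd, hd0, h⟩ := ih
      obtain ⟨a, ha, b, hb, hb0, hab⟩ := hS _ (P.coeff i).2
      refine ⟨b * d, S.mul_mem hb hd, mul_ne_zero hb0 hd0, fun j hj => ?_⟩
      rcases Finset.mem_insert.1 hj with rfl | hj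
      · have : b * d * (P.coeff j : Ω) = a * d := by
          rw [hab]; field_simp
        rw [this]; exact S.mul_mem ha hd
      · rw [mul_assoc]; exact S.mul_mem hb (h j hj)
  obtain ⟨d, hd, hd0, h⟩ := hden P.support
  have hlift : C d * P.map (algebraMap R Ω) ∈ Polynomial.lifts (algebraMap S Ω) := by
    rw [Polynomial.lifts_iff_coeff_lifts]
    intro i
    rw [coeff_C_mul, coeff_map]
    by_cases hi : i ∈ P.support
    · exact ⟨⟨_, h i hi⟩, rfl⟩
    · rw [notMem_support_iff.1 hi]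
      exact ⟨0, by simp⟩
  obtain ⟨Q, hQ⟩ := hlift
  rw [coe_mapRingHom] at hQ
  have hP' : P.map (algebraMap R Ω) ≠ 0 := by
    rw [Ne, Polynomial.map_eq_zero_iff (FaithfulSMul.algebraMap_injective R Ω)]
    exact hP
  refine ⟨Q, ?_, ?_⟩
  · rintro rfl
    rw [Polynomial.map_zero] at hQ
    exact mul_ne_zero (C_ne_zero.2 hd0) hP' hQ.symm
  · rw [aeval_def, ← eval_map, hQ, eval_mul, eval_map, ← aeval_def, hPg, mul_zero]

/-! ### Monomials -/

theorem χ_sum (B : BF k v) {ι : Type*} (s : Finset ι) (u : ι → ℝ) (hu : ∀ i, u i ∈ B.Γ)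
    (n : ι → ℤ) : (∑ i ∈ s, (n i : ℝ) * u i) ∈ B.Γ ∧
      B.χ (∑ i ∈ s, (n i : ℝ) * u i) = ∏ i ∈ s, B.χ (u i) ^ n i := by
  classical
  induction s using Finset.induction_on with
  | empty => exact ⟨by simp, by simp [B.χ_zero]⟩
  | insert i s hi ih =>
    have h1 : (n i : ℝ) * u i ∈ B.Γ := by
      rw [← zsmul_eq_mul]; exact B.Γ.zsmul_mem (hu i) _
    rw [Finset.sum_insert hi, Finset.prod_insert hi]
    exact ⟨B.Γ.add_mem h1 ih.1, by rw [B.χ_add _ h1 _ ih.1, B.χ_zsmul (hu i), ih.2]⟩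

/-- Only finitely many monomials are used. -/
theorem adjoin_finite (B : BF k v) (F : Set Ω) {f : Ω}
    (hf : f ∈ Algebra.adjoin k (F ∪ B.χ '' {γ | γ ∈ B.Γ ∧ 0 ≤ γ})) :
    ∃ S : Finset ℝ, (∀ γ ∈ S, γ ∈ B.Γ ∧ 0 < γ) ∧
      f ∈ Algebra.adjoin k (F ∪ B.χ '' (S : Set ℝ)) := by
  classical
  have mono : ∀ {S T : Finset ℝ}, S ⊆ T → Algebra.adjoin k (F ∪ B.χ '' (S : Set ℝ)) ≤
      Algebra.adjoin k (F ∪ B.χ '' (T : Set ℝ)) := fun h =>
    Algebra.adjoin_mono (Set.union_subset_union_right _ (Set.image_mono (by exact_mod_cast h)))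
  have hun : ∀ {S T : Finset ℝ}, (∀ γ ∈ S, γ ∈ B.Γ ∧ 0 < γ) → (∀ γ ∈ T, γ ∈ B.Γ ∧ 0 < γ) →
      ∀ γ ∈ S ∪ T, γ ∈ B.Γ ∧ 0 < γ := by
    intro S T h1 h2 γ hγ
    rcases Finset.mem_union.1 hγ with h | h
    · exact h1 γ h
    · exact h2 γ h
  induction hf using Algebra.adjoin_induction with
  | mem x hx =>
    rcases hx with hx | ⟨γ, ⟨hγ, h0⟩, rfl⟩
    · exact ⟨∅, by simp, Algebra.subset_adjoin (Or.inl hx)⟩
    · rcases h0.lt_or_eq with h1 | rfl
      · exact ⟨{γ}, by simp [hγ, h1], Algebra.subset_adjoin (Or.inr ⟨γ, by simp, rfl⟩)⟩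
      · exact ⟨∅, by simp, by rw [B.χ_zero]; exact Subalgebra.one_mem _⟩
  | algebraMap c => exact ⟨∅, by simp, Subalgebra.algebraMap_mem _ c⟩
  | add x y _ _ hx hy =>
    obtain ⟨S, hS, h1⟩ := hx
    obtain ⟨T, hT, h2⟩ := hy
    exact ⟨S ∪ T, hun hS hT, Subalgebra.add_mem _ (mono Finset.subset_union_left h1)
      (mono Finset.subset_union_right h2)⟩
  | mul x y _ _ hx hy =>
    obtain ⟨S, hS, h1⟩ := hx
    obtain ⟨T, hT, h2⟩ := hy
    exact ⟨S ∪ T, hun hS hT, Subalgebra.mul_mem _ (mono Finset.subset_union_left h1)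
      (mono Finset.subset_union_right h2)⟩

theorem locv_finite (B : BF k v) (F : Set Ω) {f : Ω}
    (hf : f ∈ locv v (Algebra.adjoin k (F ∪ B.χ '' {γ | γ ∈ B.Γ ∧ 0 ≤ γ}))) :
    ∃ S : Finset ℝ, (∀ γ ∈ S, γ ∈ B.Γ ∧ 0 < γ) ∧
      f ∈ locv v (Algebra.adjoin k (F ∪ B.χ '' (S : Set ℝ))) := by
  classical
  obtain ⟨a, ha, b, hb, h0, h1, rfl⟩ := hf
  obtain ⟨S, hS, h2⟩ := adjoin_finite B F ha
  obtain ⟨T, hT, h3⟩ := adjoin_finite B F hb
  refine ⟨S ∪ T, fun γ hγ => ?_, a, ?_, b, ?_, h0, h1, rfl⟩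
  · rcases Finset.mem_union.1 hγ with h | h
    · exact hS γ h
    · exact hT γ h
  · exact Algebra.adjoin_mono (Set.union_subset_union_right _ (Set.image_mono
      (by exact_mod_cast Finset.subset_union_left))) h2
  · exact Algebra.adjoin_mono (Set.union_subset_union_right _ (Set.image_mono
      (by exact_mod_cast Finset.subset_union_right))) h3

end NFA

open Pool.Agent.LU1.NFA

/-- `Γ` has rank `r`. -/
theorem BF.rank (h : Ctx k v r) (B : BF k v) :
    ∃ X : Fin r → ℝ, LinearIndependent ℚ X ∧ (∀ i, X i ∈ B.Γ) ∧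
      ∀ γ ∈ B.Γ, γ ∈ Submodule.span ℚ (Set.range X) := by
  obtain ⟨X, hX, hind, hspan⟩ := h.rank
  choose m hm hmΓ using fun i => B.full (X i) (hX i)
  let w : Fin r → ℚˣ := fun i => Units.mk0 (m i : ℚ) (by exact_mod_cast (hm i).ne')
  have hw : (fun i => (m i : ℝ) * v (X i)) = w • (fun i => v (X i)) := by
    funext i
    rw [Pi.smul_apply', Units.smul_def]
    simp only [w, Units.val_mk0]
    rw [Rat.smul_def]
    norm_num
  refine ⟨fun i => (m i : ℝ) * v (X i), ?_, hmΓ, fun γ hγ => ?_⟩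
  · rw [hw]
    exact hind.units_smul w
  · have h1 := hspan (B.χ γ) (B.χ_ne γ hγ)
    rw [B.χ_val γ hγ] at h1
    refine (Submodule.span_le.2 ?_) h1
    rintro _ ⟨i, rfl⟩
    have h2 : v (X i) = (1 / (m i : ℚ)) • ((m i : ℝ) * v (X i)) := by
      have h3 : (m i : ℝ) ≠ 0 := by exact_mod_cast (hm i).ne'
      rw [Rat.smul_def]
      push_cast
      field_simp
    simp only
    rw [h2]
    exact Submodule.smul_mem _ _ (Submodule.subset_span ⟨i, rfl⟩)

theorem BF.exists_basis (h : Ctx k v r) (B : BF k v) (S : Finset ℝ)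
    (hS : ∀ γ ∈ S, γ ∈ B.Γ ∧ 0 < γ) : ∃ u : Fin r → ℝ, GoodBasis B.Γ (S : Set ℝ) u :=
  perron h.rpos B.Γ B.fg (B.rank h) S hS

/-- Lemma N: for every sufficiently fine basis `u` there is a noetherian frame
`locv k[G, x, y]` with `x = χ ∘ u` inside `B.R`, containing the given finite set `T`. -/
theorem BF.exists_NF (h : Ctx k v r) (B : BF k v) (T : Finset Ω) (hT : ∀ f ∈ T, f ∈ B.R) :
    ∃ (S0 : Finset ℝ) (G : Finset Ω), (∀ γ ∈ S0, γ ∈ B.Γ ∧ 0 < γ) ∧ (∀ f ∈ G, f ∈ B.R) ∧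
      T ⊆ G ∧ ∀ u : Fin r → ℝ, GoodBasis B.Γ (S0 : Set ℝ) u →
        ∃ N : NF k v r, (∀ i, N.x i = B.χ (u i)) ∧ N.y = B.y ∧
          N.R = locv v (Algebra.adjoin k ((G : Set Ω) ∪ Set.range N.x ∪ {B.y})) ∧
          N.R ≤ B.R ∧ ∀ f ∈ T, f ∈ N.R := by
  classical
  obtain ⟨F, hF⟩ := B.fgen
  have hFR : ∀ f ∈ F, f ∈ B.R := fun f hf => by
    rw [hF]; exact le_locv _ (Algebra.subset_adjoin (Or.inl hf))
  have hGR : ∀ f ∈ F ∪ T, f ∈ B.R := fun f hf => by
    rcases Finset.mem_union.1 hf with h1 | h1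
    · exact hFR f h1
    · exact hT f h1
  have key : ∀ g : {g // g ∈ F ∪ T}, ∃ (c : k) (γ : ℝ) (a b : Ω) (S : Finset ℝ),
      γ ∈ B.Γ ∧ 0 < γ ∧ (∀ δ ∈ S, δ ∈ B.Γ ∧ 0 < δ) ∧
      a ∈ locv v (Algebra.adjoin k ((F : Set Ω) ∪ B.χ '' (S : Set ℝ))) ∧
      b ∈ locv v (Algebra.adjoin k ((F : Set Ω) ∪ B.χ '' (S : Set ℝ))) ∧
      (g : Ω) - algebraMap k Ω c = B.χ γ * a + B.y * b := by
    rintro ⟨g, hg⟩
    obtain ⟨c, hc, hcR⟩ := B.exists_const h (hGR g hg)
    obtain ⟨γ, hγ, hγ0, a, ha, b, hb, e⟩ := B.gen _ hcR hc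
    rw [hF] at ha hb
    obtain ⟨S, hS, h1⟩ := locv_finite B _ ha
    obtain ⟨S', hS', h2⟩ := locv_finite B _ hb
    refine ⟨c, γ, a, b, S ∪ S', hγ, hγ0, fun δ hδ => ?_, ?_, ?_, e⟩
    · rcases Finset.mem_union.1 hδ with h3 | h3
      · exact hS δ h3
      · exact hS' δ h3
    · exact locv_mono (Algebra.adjoin_mono (Set.union_subset_union_right _ (Set.image_mono
        (by exact_mod_cast Finset.subset_union_left)))) h1
    · exact locv_mono (Algebra.adjoin_mono (Set.union_subset_union_right _ (Set.image_mono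
        (by exact_mod_cast Finset.subset_union_right)))) h2
  choose c γ a b S hγ hγ0 hS ha hb hab using key
  refine ⟨(F ∪ T).attach.biUnion fun g => insert (γ g) (S g), F ∪ T, ?_, hGR,
    Finset.subset_union_right, fun u hu => ?_⟩
  · intro δ hδ
    obtain ⟨g, -, hg⟩ := Finset.mem_biUnion.1 hδ
    rcases Finset.mem_insert.1 hg with rfl | hg
    · exact ⟨hγ g, hγ0 g⟩
    · exact hS g δ hg
  -- the frame
  set x : Fin r → Ω := fun i => B.χ (u i) with hx
  set A : Subalgebra k Ω := Algebra.adjoin k (((F ∪ T : Finset Ω) : Set Ω) ∪ Set.range x ∪ {B.y})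
    with hA
  have hxA : ∀ i, x i ∈ A := fun i => Algebra.subset_adjoin (Or.inl (Or.inr ⟨i, rfl⟩))
  have hyA : B.y ∈ A := Algebra.subset_adjoin (Or.inr rfl)
  have hGA : ∀ f ∈ F ∪ T, f ∈ A := fun f hf => Algebra.subset_adjoin (Or.inl (Or.inl hf))
  have hAR : A ≤ B.R := by
    refine Algebra.adjoin_le ?_
    rintro f ((hf | ⟨i, rfl⟩) | rfl)
    · exact hGR f hf
    · exact B.χ_mem _ (hu.mem i) (hu.pos i).le
    · exact B.y_mem
  have hRR : locv v A ≤ B.R := locv_le hAR B.loc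
  have hnon : ∀ f ∈ locv v A, v.Ge 0 f := fun f hf => B.nonneg f (hRR hf)
  -- monomials with natural exponents
  have hmon : ∀ n : Fin r → ℕ, B.χ (∑ i, (n i : ℝ) * u i) ∈ A := by
    intro n
    have h1 := (χ_sum B Finset.univ u hu.mem fun i => (n i : ℤ)).2
    simp only [Int.cast_natCast] at h1
    rw [h1]
    exact Subalgebra.prod_mem _ fun i _ => by
      rw [zpow_natCast]; exact Subalgebra.pow_mem _ (hxA i) _
  have i0 : Fin r := ⟨0, h.rpos⟩
  have hcone : ∀ δ : ℝ, (∃ n : Fin r → ℕ, (∀ i, 0 < n i) ∧ δ = ∑ i, (n i : ℝ) * u i) →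
      ∃ e ∈ A, B.χ δ = x i0 * e := by
    rintro δ ⟨n, hn, rfl⟩
    refine ⟨B.χ (∑ i, ((Function.update n i0 (n i0 - 1)) i : ℝ) * u i), hmon _, ?_⟩
    have h2 : ∑ i, (n i : ℝ) * u i =
        u i0 + ∑ i, ((Function.update n i0 (n i0 - 1)) i : ℝ) * u i := by
      rw [← Finset.add_sum_erase _ _ (Finset.mem_univ i0),
        ← Finset.add_sum_erase _ (fun i => ((Function.update n i0 (n i0 - 1)) i : ℝ) * u i)
        (Finset.mem_univ i0)]
      have h3 : ∑ i ∈ Finset.univ.erase i0, ((Function.update n i0 (n i0 - 1)) i : ℝ) * u i =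
          ∑ i ∈ Finset.univ.erase i0, (n i : ℝ) * u i := by
        refine Finset.sum_congr rfl fun i hi => ?_
        rw [Function.update_of_ne (Finset.ne_of_mem_erase hi)]
      rw [h3, Function.update_self, Nat.cast_sub (hn i0)]
      push_cast
      ring
    have h4 : ∑ i, ((Function.update n i0 (n i0 - 1)) i : ℝ) * u i ∈ B.Γ := by
      have h5 := (χ_sum B Finset.univ u hu.mem fun i =>
        ((Function.update n i0 (n i0 - 1)) i : ℤ)).1
      simpa using h5
    rw [h2, B.χ_add _ (hu.mem i0) _ h4]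
  have hS0 : ∀ (g : {g // g ∈ F ∪ T}), ∀ δ ∈ insert (γ g) (S g), ∃ e ∈ A, B.χ δ = x i0 * e := by
    intro g δ hδ
    refine hcone δ (hu.cone δ ?_)
    rw [Finset.mem_coe, Finset.mem_biUnion]
    exact ⟨g, Finset.mem_attach _ _, hδ⟩
  have hFS : ∀ g : {g // g ∈ F ∪ T},
      Algebra.adjoin k ((F : Set Ω) ∪ B.χ '' (S g : Set ℝ)) ≤ A := by
    intro g
    refine Algebra.adjoin_le ?_
    rintro f (hf | ⟨δ, hδ, rfl⟩)
    · exact hGA f (Finset.mem_union_left _ hf)
    · obtain ⟨e, he, h1⟩ := hS0 g δ (Finset.mem_insert_of_mem hδ)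
      rw [SetLike.mem_coe, h1]
      exact A.mul_mem (hxA i0) he
  -- the ideal
  let I : Ω → Prop := fun f => ∃ a : Fin r → Ω, (∀ i, a i ∈ locv v A) ∧ ∃ b ∈ locv v A,
    f = ∑ i, x i * a i + B.y * b
  have hIadd : ∀ f g, I f → I g → I (f + g) := by
    rintro f g ⟨a, ha, b, hb, rfl⟩ ⟨a', ha', b', hb', rfl⟩
    refine ⟨fun i => a i + a' i, fun i => Subalgebra.add_mem _ (ha i) (ha' i), b + b',
      Subalgebra.add_mem _ hb hb', ?_⟩
    simp only [mul_add, Finset.sum_add_distrib]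
    ring
  have hImul : ∀ f g, I f → g ∈ locv v A → I (f * g) := by
    rintro f g ⟨a, ha, b, hb, rfl⟩ hg
    refine ⟨fun i => a i * g, fun i => Subalgebra.mul_mem _ (ha i) hg, b * g,
      Subalgebra.mul_mem _ hb hg, ?_⟩
    rw [add_mul, Finset.sum_mul]
    simp only [mul_assoc]
  have hIx : ∀ i, I (x i) := fun i => ⟨Pi.single i 1, fun j => by
      by_cases hj : j = i
      · subst hj; rw [Pi.single_eq_same]; exact Subalgebra.one_mem _
      · rw [Pi.single_eq_of_ne hj]; exact Subalgebra.zero_mem _, 0, Subalgebra.zero_mem _, by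
      simp [Pi.single_apply]⟩
  have hIy : I B.y := ⟨0, fun _ => Subalgebra.zero_mem _, 1, Subalgebra.one_mem _, by simp⟩
  have hI0 : I 0 := ⟨0, fun _ => Subalgebra.zero_mem _, 0, Subalgebra.zero_mem _, by simp⟩
  have hIpos : ∀ f, I f → VPos v f := by
    rintro f ⟨a, ha, b, hb, rfl⟩
    refine VPos.add ?_ (VPos.mul B.vpos_y (hnon b hb))
    have h1 : ∀ s : Finset (Fin r), VPos v (∑ i ∈ s, x i * a i) := by
      intro s
      induction s using Finset.induction_on with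
      | empty => simpa using VPos.zero
      | insert i s hi ih =>
        rw [Finset.sum_insert hi]
        exact VPos.add (VPos.mul (B.vpos_χ (hu.mem i) (hu.pos i)) (hnon _ (ha i))) ih
    exact h1 _
  -- every element of `A` is a constant plus an element of the ideal
  have hAI : ∀ f ∈ A, ∃ c : k, I (f - algebraMap k Ω c) := by
    intro f hf
    induction hf using Algebra.adjoin_induction with
    | mem f hf =>
      rcases hf with (hf | ⟨i, rfl⟩) | rfl
      · have hg : f ∈ F ∪ T := hf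
        refine ⟨c ⟨f, hg⟩, ?_⟩
        have h1 := hab ⟨f, hg⟩
        simp only at h1
        rw [h1]
        obtain ⟨e, he, h2⟩ := hS0 ⟨f, hg⟩ _ (Finset.mem_insert_self _ _)
        rw [h2, mul_assoc]
        refine hIadd _ _ (hImul _ _ (hIx i0) ?_) (hImul _ _ hIy ?_)
        · exact Subalgebra.mul_mem _ (le_locv _ he) (locv_mono (hFS _) (ha _))
        · exact locv_mono (hFS _) (hb _)
      · exact ⟨0, by rw [_root_.map_zero, sub_zero]; exact hIx i⟩
      · exact ⟨0, by rw [_root_.map_zero, sub_zero]; exact hIy⟩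
    | algebraMap c => exact ⟨c, by rw [sub_self]; exact hI0⟩
    | add f g _ _ hf hg =>
      obtain ⟨c, hc⟩ := hf
      obtain ⟨d, hd⟩ := hg
      refine ⟨c + d, ?_⟩
      have := hIadd _ _ hc hd
      rw [_root_.map_add]
      convert this using 1
      ring
    | mul f g hfA hgA hf hg =>
      obtain ⟨c, hc⟩ := hf
      obtain ⟨d, hd⟩ := hg
      refine ⟨c * d, ?_⟩
      have h1 := hImul _ g hc (le_locv _ hgA)
      have h2 := hImul _ (algebraMap k Ω c) hd (Subalgebra.algebraMap_mem _ c)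
      have := hIadd _ _ h1 h2
      rw [_root_.map_mul]
      convert this using 1
      ring
  have hgen : ∀ f ∈ locv v A, VPos v f → I f := by
    rintro f hf hfp
    obtain ⟨P, hP, Q, hQ, hQ0, hvQ, rfl⟩ := hf
    obtain ⟨c, hc⟩ := hAI P hP
    have hPp : VPos v P := by
      intro hP0
      have h1 := hfp (div_ne_zero hP0 hQ0)
      rwa [v.map_div hP0 hQ0, hvQ, sub_zero] at h1
    have hcp : VPos v (algebraMap k Ω c) := by
      have h1 := hPp.sub (hIpos _ hc)
      rwa [sub_sub_cancel] at h1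
    have hc0 := h.const_eq_zero hcp
    rw [hc0, _root_.map_zero, sub_zero] at hc
    rw [div_eq_mul_inv]
    exact hImul _ _ hc (locv_inv (le_locv _ hQ) hQ0 hvQ)
  have halg : ∀ g : Ω, IsAlgebraic (locv v A) g := by
    intro g
    refine isAlgebraic_of_frac (fun f hf => ?_) (B.alg g)
    rw [← mem_frac]
    have hfield : Algebra.adjoin k ((F : Set Ω) ∪ B.χ '' {γ | γ ∈ B.Γ ∧ 0 ≤ γ}) ≤
        (IntermediateField.adjoin k ((locv v A : Subalgebra k Ω) : Set Ω)).toSubalgebra := by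
      refine Algebra.adjoin_le ?_
      rintro f (hf | ⟨δ, ⟨hδ, -⟩, rfl⟩)
      · exact IntermediateField.subset_adjoin _ _ (le_locv _ (hGA f (Finset.mem_union_left _ hf)))
      · obtain ⟨n, hn⟩ := hu.gen δ hδ
        have h1 := (χ_sum B Finset.univ u hu.mem n).2
        rw [← hn] at h1
        rw [SetLike.mem_coe, h1]
        exact prod_mem fun i _ => zpow_mem
          (IntermediateField.subset_adjoin _ _ (le_locv _ (hxA i))) _
    rw [hF] at hf
    obtain ⟨a, ha, b, hb, -, -, rfl⟩ := hf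
    exact div_mem (hfield ha) (hfield hb)
  refine ⟨{ x := x, x_ne := fun i => B.χ_ne _ (hu.mem i),
            x_pos := fun i => by rw [B.χ_val _ (hu.mem i)]; exact hu.pos i,
            x_ind := ?_, y := B.y, y_ne := B.y_ne, y_pos := B.y_pos, R := locv v A,
            nonneg := hnon, x_mem := fun i => le_locv _ (hxA i), y_mem := le_locv _ hyA,
            fgen := ?_, gen := hgen, alg := halg }, fun i => rfl, rfl, rfl, hRR,
          fun f hf => le_locv _ (hGA f (Finset.mem_union_right _ hf))⟩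
  · have h1 : (fun i => v (x i)) = u := by
      funext i; exact B.χ_val _ (hu.mem i)
    rw [h1]; exact hu.ind
  · refine ⟨(F ∪ T) ∪ Finset.univ.image x ∪ {B.y}, ?_⟩
    rw [hA]
    congr 2
    ext z
    simp only [Finset.coe_union, Set.mem_union, Finset.coe_image, Finset.coe_univ, Set.image_univ,
      Finset.coe_singleton]

namespace NFA

/-- Coordinates with respect to a family of real numbers. -/
noncomputable def crd (X : Fin r → ℝ) (γ : ℝ) : Fin r → ℤ := by
  classical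
  exact if h : ∃ n : Fin r → ℤ, γ = ∑ i, (n i : ℝ) * X i then h.choose else 0

theorem crd_spec (X : Fin r → ℝ) {γ : ℝ} (h : ∃ n : Fin r → ℤ, γ = ∑ i, (n i : ℝ) * X i) :
    γ = ∑ i, (crd X γ i : ℝ) * X i := by
  unfold crd
  rw [dif_pos h]
  exact h.choose_spec

theorem coord_unique {X : Fin r → ℝ} (hX : LinearIndependent ℚ X) {n m : Fin r → ℤ}
    (h : ∑ i, (n i : ℝ) * X i = ∑ i, (m i : ℝ) * X i) : n = m := by
  rw [Fintype.linearIndependent_iff] at hX
  have h1 := hX (fun i => ((n i - m i : ℤ) : ℚ)) (by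
    rw [← sub_eq_zero, ← Finset.sum_sub_distrib] at h
    rw [← h]
    refine Finset.sum_congr rfl fun i _ => ?_
    rw [Rat.smul_def]
    push_cast
    ring)
  funext i
  have h2 := h1 i
  have h3 : n i - m i = 0 := by exact_mod_cast h2
  omega

theorem crd_sum {X : Fin r → ℝ} (hX : LinearIndependent ℚ X) (n : Fin r → ℤ) :
    crd X (∑ i, (n i : ℝ) * X i) = n :=
  coord_unique hX (crd_spec X ⟨n, rfl⟩).symm

/-- The group generated by the values of the parameters. -/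
noncomputable def grp (X : Fin r → ℝ) : AddSubgroup ℝ := (Submodule.span ℤ (Set.range X)).toAddSubgroup

theorem mem_grp {X : Fin r → ℝ} {γ : ℝ} :
    γ ∈ grp X ↔ ∃ n : Fin r → ℤ, γ = ∑ i, (n i : ℝ) * X i := by
  unfold grp
  rw [Submodule.mem_toAddSubgroup, Submodule.mem_span_range_iff_exists_fun]
  simp only [zsmul_eq_mul, eq_comm]

theorem grp_fg (X : Fin r → ℝ) : (grp X).FG := by
  unfold grp
  rw [← Submodule.fg_iff_addSubgroup_fg]
  exact Submodule.fg_span (Set.finite_range X)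

/-- The rational span of the values of the parameters contains all values. -/
theorem full_grp (h : Ctx k v r) {X : Fin r → ℝ} (hX : LinearIndependent ℚ X)
    (hv : ∀ i, ∃ g : Ω, g ≠ 0 ∧ v g = X i) (g : Ω) (hg : g ≠ 0) :
    ∃ m : ℕ, 0 < m ∧ (m : ℝ) * v g ∈ grp X := by
  obtain ⟨X', -, hind, hspan⟩ := h.rank
  have hle : Submodule.span ℚ (Set.range X) ≤ Submodule.span ℚ (Set.range fun i => v (X' i)) := by
    refine Submodule.span_le.2 ?_
    rintro _ ⟨i, rfl⟩
    obtain ⟨f, hf, hfi⟩ := hv i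
    rw [← hfi]
    exact hspan f hf
  have heq : Submodule.span ℚ (Set.range X) = Submodule.span ℚ (Set.range fun i => v (X' i)) := by
    have hfd : FiniteDimensional ℚ (Submodule.span ℚ (Set.range fun i => v (X' i))) :=
      FiniteDimensional.span_of_finite ℚ (Set.finite_range _)
    refine Submodule.eq_of_le_of_finrank_eq hle ?_
    rw [finrank_span_eq_card hX, finrank_span_eq_card hind]
  have h1 := hspan g hg
  rw [← heq, Submodule.mem_span_range_iff_exists_fun] at h1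
  obtain ⟨c, hc⟩ := h1
  refine ⟨∏ i, (c i).den, Finset.prod_pos fun i _ => (c i).pos, mem_grp.2
    ⟨fun i => (∏ j ∈ Finset.univ.erase i, ((c j).den : ℤ)) * (c i).num, ?_⟩⟩
  rw [← hc, Finset.mul_sum]
  refine Finset.sum_congr rfl fun i _ => ?_
  rw [Rat.smul_def, ← Finset.mul_prod_erase Finset.univ _ (Finset.mem_univ i)]
  have h2 : ((c i : ℚ) : ℝ) = ((c i).num : ℝ) / ((c i).den : ℝ) := by
    rw [Rat.cast_def]
  have h3 : ((c i).den : ℝ) ≠ 0 := by exact_mod_cast (c i).pos.ne'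
  rw [h2]
  push_cast
  field_simp

end NFA

/-- The big frame of a noetherian frame. -/
theorem NF.exists_BF (h : Ctx k v r) (N : NF k v r) :
    ∃ B : BF k v, B.y = N.y ∧ N.R ≤ B.R ∧
      (∀ f ∈ B.R, ∃ a ∈ N.R, ∃ b ∈ N.R, b ≠ 0 ∧ f = a / b) ∧ (∀ i, v (N.x i) ∈ B.Γ) ∧
      (∀ i, B.χ (v (N.x i)) = N.x i) := by
  classical
  set X : Fin r → ℝ := fun i => v (N.x i) with hX
  have hind : LinearIndependent ℚ X := N.x_ind
  let χ : ℝ → Ω := fun γ => ∏ i, N.x i ^ crd X γ i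
  have hχ : ∀ n : Fin r → ℤ, χ (∑ i, (n i : ℝ) * X i) = ∏ i, N.x i ^ n i := by
    intro n
    simp only [χ]
    rw [crd_sum hind]
  have hχne : ∀ γ, χ γ ≠ 0 := fun γ =>
    Finset.prod_ne_zero_iff.2 fun i _ => zpow_ne_zero _ (N.x_ne i)
  have hχadd : ∀ γ ∈ grp X, ∀ δ ∈ grp X, χ (γ + δ) = χ γ * χ δ := by
    intro γ hγ δ hδ
    obtain ⟨n, rfl⟩ := mem_grp.1 hγ
    obtain ⟨m, rfl⟩ := mem_grp.1 hδ
    have e : ∑ i, (n i : ℝ) * X i + ∑ i, (m i : ℝ) * X i =
        ∑ i, (((fun i => n i + m i) i : ℤ) : ℝ) * X i := by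
      rw [← Finset.sum_add_distrib]
      refine Finset.sum_congr rfl fun i _ => ?_
      push_cast
      ring
    rw [e, hχ, hχ, hχ, ← Finset.prod_mul_distrib]
    exact Finset.prod_congr rfl fun i _ => zpow_add₀ (N.x_ne i) _ _
  have hχv : ∀ γ ∈ grp X, v (χ γ) = γ := by
    intro γ hγ
    obtain ⟨n, rfl⟩ := mem_grp.1 hγ
    rw [hχ]
    have key : ∀ s : Finset (Fin r), (∏ i ∈ s, N.x i ^ n i) ≠ 0 ∧
        v (∏ i ∈ s, N.x i ^ n i) = ∑ i ∈ s, (n i : ℝ) * X i := by
      intro s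
      induction s using Finset.induction_on with
      | empty => exact ⟨by simp, by simp [v.map_one]⟩
      | insert i s hi ih =>
        have h0 : N.x i ^ n i ≠ 0 := zpow_ne_zero _ (N.x_ne i)
        have h1 : v (N.x i ^ n i) = (n i : ℝ) * X i := by
          cases hn : n i with
          | ofNat m => rw [Int.ofNat_eq_natCast, zpow_natCast, v.map_pow (N.x_ne i)]; simp [hX]
          | negSucc m =>
            rw [zpow_negSucc, v.map_inv (pow_ne_zero _ (N.x_ne i)), v.map_pow (N.x_ne i)]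
            simp only [hX, Int.cast_negSucc]
            ring
        rw [Finset.prod_insert hi, Finset.sum_insert hi]
        exact ⟨mul_ne_zero h0 ih.1, by rw [v.map_mul h0 ih.1, h1, ih.2]⟩
    exact (key Finset.univ).2
  have hχx : ∀ i, χ (X i) = N.x i := by
    intro i
    have e : X i = ∑ j, ((Pi.single i (1 : ℤ) : Fin r → ℤ) j : ℝ) * X j := by
      rw [Finset.sum_eq_single i]
      · simp
      · intro j _ hj
        simp [Pi.single_eq_of_ne hj]
      · simp
    rw [e, hχ, Finset.prod_eq_single i]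
    · simp
    · intro j _ hj
      simp [Pi.single_eq_of_ne hj]
    · simp
  have hXmem : ∀ i, X i ∈ grp X := fun i => by
    refine mem_grp.2 ⟨Pi.single i 1, ?_⟩
    rw [Finset.sum_eq_single i]
    · simp
    · intro j _ hj
      simp [Pi.single_eq_of_ne hj]
    · simp
  set P : Set Ω := χ '' {γ | γ ∈ grp X ∧ 0 ≤ γ} with hP
  set A : Subalgebra k Ω := Algebra.adjoin k ((N.R : Set Ω) ∪ P) with hA
  have hNA : N.R ≤ A := fun f hf => Algebra.subset_adjoin (Or.inl hf)
  have hPA : ∀ γ ∈ grp X, 0 ≤ γ → χ γ ∈ A := fun γ h1 h2 =>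
    Algebra.subset_adjoin (Or.inr ⟨γ, ⟨h1, h2⟩, rfl⟩)
  have hnon : ∀ f ∈ locv v A, v.Ge 0 f := by
    refine locv_nonneg (adjoin_nonneg h ?_)
    rintro f (hf | ⟨γ, ⟨hγ, h0⟩, rfl⟩)
    · exact N.nonneg f hf
    · intro _
      rw [hχv γ hγ]; exact h0
  have i0 : Fin r := ⟨0, h.rpos⟩
  -- the ideal
  let I : Ω → Prop := fun f => ∃ γ ∈ grp X, 0 < γ ∧ ∃ a ∈ locv v A, ∃ b ∈ locv v A,
    f = χ γ * a + N.y * b
  have hdvd : ∀ γ ∈ grp X, ∀ δ ∈ grp X, δ ≤ γ → ∃ e ∈ locv v A, χ γ = χ δ * e := by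
    intro γ hγ δ hδ hle
    refine ⟨χ (γ - δ), le_locv _ (hPA _ ((grp X).sub_mem hγ hδ) (sub_nonneg.2 hle)), ?_⟩
    rw [← hχadd δ hδ _ ((grp X).sub_mem hγ hδ)]
    congr 1
    ring
  have hIadd : ∀ f g, I f → I g → I (f + g) := by
    rintro f g ⟨γ, hγ, hγ0, a, ha, b, hb, rfl⟩ ⟨δ, hδ, hδ0, a', ha', b', hb', rfl⟩
    have hmin : min γ δ ∈ grp X := by
      rcases le_total γ δ with h1 | h1
      · rw [min_eq_left h1]; exact hγ
      · rw [min_eq_right h1]; exact hδ
    obtain ⟨e, he, h1⟩ := hdvd γ hγ _ hmin (min_le_left _ _)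
    obtain ⟨e', he', h2⟩ := hdvd δ hδ _ hmin (min_le_right _ _)
    refine ⟨min γ δ, hmin, lt_min hγ0 hδ0, e * a + e' * a',
      Subalgebra.add_mem _ (Subalgebra.mul_mem _ he ha) (Subalgebra.mul_mem _ he' ha'), b + b',
      Subalgebra.add_mem _ hb hb', ?_⟩
    rw [h1, h2]
    ring
  have hImul : ∀ f g, I f → g ∈ locv v A → I (f * g) := by
    rintro f g ⟨γ, hγ, hγ0, a, ha, b, hb, rfl⟩ hg
    exact ⟨γ, hγ, hγ0, a * g, Subalgebra.mul_mem _ ha hg, b * g, Subalgebra.mul_mem _ hb hg, by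
      ring⟩
  have hIχ : ∀ γ ∈ grp X, 0 < γ → I (χ γ) := fun γ hγ h0 =>
    ⟨γ, hγ, h0, 1, Subalgebra.one_mem _, 0, Subalgebra.zero_mem _, by ring⟩
  have hIy : I N.y := ⟨X i0, hXmem i0, N.x_pos i0, 0, Subalgebra.zero_mem _, 1,
    Subalgebra.one_mem _, by ring⟩
  have hI0 : I 0 := ⟨X i0, hXmem i0, N.x_pos i0, 0, Subalgebra.zero_mem _, 0,
    Subalgebra.zero_mem _, by ring⟩
  have hIsum : ∀ (s : Finset (Fin r)) (a : Fin r → Ω), (∀ i, a i ∈ N.R) →
      I (∑ i ∈ s, N.x i * a i) := by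
    intro s a ha
    induction s using Finset.induction_on with
    | empty => simpa using hI0
    | insert i s hi ih =>
      rw [Finset.sum_insert hi]
      refine hIadd _ _ (hImul _ _ ?_ (le_locv _ (hNA (ha i)))) ih
      rw [← hχx i]
      exact hIχ _ (hXmem i) (N.x_pos i)
  have hIpos : ∀ f, I f → VPos v f := by
    rintro f ⟨γ, hγ, hγ0, a, ha, b, hb, rfl⟩
    refine VPos.add (VPos.mul (fun _ => ?_) (hnon a ha)) (VPos.mul (fun _ => N.y_pos) (hnon b hb))
    rw [hχv γ hγ]; exact hγ0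
  have hAI : ∀ f ∈ A, ∃ c : k, I (f - algebraMap k Ω c) := by
    intro f hf
    induction hf using Algebra.adjoin_induction with
    | mem f hf =>
      rcases hf with hf | ⟨γ, ⟨hγ, h0⟩, rfl⟩
      · obtain ⟨c, hc⟩ := h.residue (N.nonneg f hf)
        obtain ⟨a, ha, b, hb, e⟩ := N.gen _ (N.R.sub_mem hf (N.R.algebraMap_mem c)) hc
        refine ⟨c, ?_⟩
        rw [e]
        exact hIadd _ _ (hIsum _ a ha) (hImul _ _ hIy (le_locv _ (hNA hb)))
      · rcases h0.lt_or_eq with h1 | rfl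
        · exact ⟨0, by rw [_root_.map_zero, sub_zero]; exact hIχ γ hγ h1⟩
        · refine ⟨1, ?_⟩
          have h2 : χ 0 = 1 := by
            have h3 := hχadd 0 (grp X).zero_mem 0 (grp X).zero_mem
            rw [add_zero] at h3
            exact (mul_right_cancel₀ (hχne 0) (by rw [one_mul]; exact h3)).symm
          rw [h2, _root_.map_one, sub_self]
          exact hI0
    | algebraMap c => exact ⟨c, by rw [sub_self]; exact hI0⟩
    | add f g _ _ hf hg =>
      obtain ⟨c, hc⟩ := hf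
      obtain ⟨d, hd⟩ := hg
      refine ⟨c + d, ?_⟩
      have := hIadd _ _ hc hd
      rw [_root_.map_add]
      convert this using 1
      ring
    | mul f g hfA hgA hf hg =>
      obtain ⟨c, hc⟩ := hf
      obtain ⟨d, hd⟩ := hg
      refine ⟨c * d, ?_⟩
      have h1 := hImul _ g hc (le_locv _ hgA)
      have h2 := hImul _ (algebraMap k Ω c) hd (Subalgebra.algebraMap_mem _ c)
      have := hIadd _ _ h1 h2
      rw [_root_.map_mul]
      convert this using 1
      ring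
  have hgen : ∀ f ∈ locv v A, VPos v f → I f := by
    rintro f hf hfp
    obtain ⟨P, hP, Q, hQ, hQ0, hvQ, rfl⟩ := hf
    obtain ⟨c, hc⟩ := hAI P hP
    have hPp : VPos v P := by
      intro hP0
      have h1 := hfp (div_ne_zero hP0 hQ0)
      rwa [v.map_div hP0 hQ0, hvQ, sub_zero] at h1
    have hcp : VPos v (algebraMap k Ω c) := by
      have h1 := hPp.sub (hIpos _ hc)
      rwa [sub_sub_cancel] at h1
    have hc0 := h.const_eq_zero hcp
    rw [hc0, _root_.map_zero, sub_zero] at hc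
    rw [div_eq_mul_inv]
    exact hImul _ _ hc (locv_inv (le_locv _ hQ) hQ0 hvQ)
  have hfield : A ≤ (IntermediateField.adjoin k (N.R : Set Ω)).toSubalgebra := by
    refine Algebra.adjoin_le ?_
    rintro f (hf | ⟨γ, -, rfl⟩)
    · exact IntermediateField.subset_adjoin _ _ hf
    · exact prod_mem fun i _ => zpow_mem
        (IntermediateField.subset_adjoin _ _ (N.x_mem i)) _
  have hfrac : ∀ f ∈ locv v A, ∃ a ∈ N.R, ∃ b ∈ N.R, b ≠ 0 ∧ f = a / b := by
    rintro f ⟨a, ha, b, hb, -, -, rfl⟩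
    rw [← mem_frac]
    exact div_mem (hfield ha) (hfield hb)
  obtain ⟨F, hF⟩ := N.fgen
  refine ⟨{ Γ := grp X, fg := grp_fg X, full := full_grp h hind fun i => ⟨_, N.x_ne i, rfl⟩,
            χ := χ, χ_ne := fun γ _ => hχne γ, χ_add := hχadd, χ_val := hχv,
            y := N.y, y_ne := N.y_ne, y_pos := N.y_pos, R := locv v A, nonneg := hnon,
            loc := fun f hf h0 h1 => locv_inv hf h0 h1,
            χ_mem := fun γ h1 h2 => le_locv _ (hPA γ h1 h2),
            y_mem := le_locv _ (hNA N.y_mem), fgen := ⟨F, ?_⟩, gen := hgen,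
            alg := fun g => isAlgebraic_of_frac (fun f hf => ⟨f, le_locv _ (hNA hf), 1,
              Subalgebra.one_mem _, one_ne_zero, by rw [div_one]⟩) (N.alg g) },
          rfl, fun f hf => le_locv _ (hNA hf), hfrac, hXmem, hχx⟩
  apply le_antisymm
  · refine locv_le ?_ fun f hf h0 h1 => locv_inv hf h0 h1
    refine Algebra.adjoin_le ?_
    rintro f (hf | hf)
    · rw [SetLike.mem_coe, hF] at hf
      exact locv_mono (Algebra.adjoin_mono Set.subset_union_left) hf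
    · exact le_locv _ (Algebra.subset_adjoin (Or.inr hf))
  · refine locv_mono (Algebra.adjoin_mono (Set.union_subset_union_left _ ?_))
    rw [hF]
    exact fun f hf => le_locv _ (Algebra.subset_adjoin hf)

end Pool.Agent.LU1
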