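import Pool.Agent.Lib.LU1_h15.Defs

/-! # A2: the homomorphism `s` of a T-step -/

set_option autoImplicit false

namespace Pool.Agent.LU1

/-- Lattice data of a T-step: `q` is minimal with `q β ∈ Γ`, `s : Γ × ℤ → ℤ` is additive and
`s (-q β, q) = 1`. -/
structure LatData (Γ : AddSubgroup ℝ) (β : ℝ) (q : ℕ) (s : ℝ → ℤ → ℤ) : Prop where
  β_pos : 0 < β
  q_pos : 0 < q
  q_mem : (q : ℝ) * β ∈ Γ
  q_min : ∀ m : ℕ, 0 < m → (m : ℝ) * β ∈ Γ → q ≤ m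
  s_add : ∀ γ ∈ Γ, ∀ δ ∈ Γ, ∀ l m : ℤ, s (γ + δ) (l + m) = s γ l + s δ m
  s_one : s (-((q : ℝ) * β)) q = 1

/-- `q` divides every `n` with `n β ∈ Γ`. -/
theorem lat_dvd {Γ : AddSubgroup ℝ} {β : ℝ} {q : ℕ} (hq : 0 < q) (hqβ : (q : ℝ) * β ∈ Γ)
    (hmin : ∀ m : ℕ, 0 < m → (m : ℝ) * β ∈ Γ → q ≤ m) (n : ℤ) (hn : (n : ℝ) * β ∈ Γ) :
    (q : ℤ) ∣ n := by
  have hqz : (0 : ℤ) < (q : ℤ) := by exact_mod_cast hq
  have hr0 : 0 ≤ n % (q : ℤ) := Int.emod_nonneg _ hqz.ne'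
  have hrq : n % (q : ℤ) < q := Int.emod_lt_of_pos _ hqz
  obtain ⟨r, hr⟩ := Int.eq_ofNat_of_zero_le hr0
  rcases Nat.eq_zero_or_pos r with h0 | h0
  · apply Int.dvd_of_emod_eq_zero
    rw [hr, h0]; rfl
  · exfalso
    have hdiv : (r : ℤ) = n - (n / (q : ℤ)) * q := by
      have := Int.emod_add_mul_ediv n (q : ℤ)
      rw [hr] at this
      linarith
    have hmem : (r : ℝ) * β ∈ Γ := by
      have h1 : (r : ℝ) = (n : ℝ) - ((n / (q : ℤ) : ℤ) : ℝ) * (q : ℝ) := by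
        have := congrArg (fun z : ℤ => (z : ℝ)) hdiv
        push_cast at this
        exact_mod_cast this
      have h2 : (r : ℝ) * β = (n : ℝ) * β - (n / (q : ℤ)) • ((q : ℝ) * β) := by
        rw [h1, zsmul_eq_mul]; ring
      rw [h2]
      exact Γ.sub_mem hn (Γ.zsmul_mem hqβ _)
    have h3 := hmin r h0 hmem
    rw [hr] at hrq
    have : r < q := by exact_mod_cast hrq
    omega

/-- A primitive vector of a finitely generated free `ℤ`-module admits a functional with value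
one on it. -/
theorem exists_functional {M : Type*} [AddCommGroup M] [Module.Free ℤ M] [Module.Finite ℤ M]
    (v : M) (hv : ∀ (d : ℤ) (w : M), v = d • w → IsUnit d) :
    ∃ f : M →+ ℤ, f v = 1 := by
  classical
  let b := Module.Free.chooseBasis ℤ M
  let I : Ideal ℤ := Ideal.span (Set.range fun i => b.repr v i)
  obtain ⟨d, hd⟩ := (IsPrincipalIdealRing.principal I).principal
  have hdvd : ∀ i, d ∣ b.repr v i := by
    intro i
    have : b.repr v i ∈ I := Ideal.subset_span ⟨i, rfl⟩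
    rw [hd] at this
    exact Ideal.mem_span_singleton.1 this
  choose c hc using hdvd
  have hw : v = d • (∑ i, c i • b i) := by
    conv_lhs => rw [← b.sum_repr v]
    rw [Finset.smul_sum]
    refine Finset.sum_congr rfl fun i _ => ?_
    rw [hc i, mul_smul]
  have hu := hv d _ hw
  have h1 : (1 : ℤ) ∈ I := by
    rw [hd]
    exact Ideal.mem_span_singleton.2 hu.dvd
  obtain ⟨a, ha⟩ := (Ideal.mem_span_range_iff_exists_fun).1 h1
  refine ⟨(∑ i, a i • (b.coord i)).toAddMonoidHom, ?_⟩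
  simp only [LinearMap.toAddMonoidHom_coe, LinearMap.coe_sum, Finset.sum_apply,
    LinearMap.smul_apply, Module.Basis.coord_apply, smul_eq_mul]
  exact ha

/-- Real approximation: a basis of a finitely generated `Γ' ≤ ℝ` gives additive integer valued
functions close to `N x`. -/
theorem exists_approx (Γ' : AddSubgroup ℝ) (hΓ : Γ'.FG) :
    ∃ C : Γ' → ℝ, ∀ N : ℕ, ∃ t : Γ' →+ ℤ, ∀ x : Γ', |((t x : ℤ) : ℝ) - N * (x : ℝ)| ≤ C x := by
  classical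
  have : Module.Finite ℤ Γ' := by
    have : AddGroup.FG Γ' := (AddGroup.fg_iff_addSubgroup_fg Γ').2 hΓ
    exact Module.Finite.iff_addGroup_fg.2 inferInstance
  have : Module.Free ℤ Γ' := inferInstance
  let b := Module.Free.chooseBasis ℤ Γ'
  refine ⟨fun x => ∑ i, |((b.repr x i : ℤ) : ℝ)|, fun N => ?_⟩
  refine ⟨(∑ i, (⌊(N : ℝ) * ((b i : Γ') : ℝ)⌋ : ℤ) • (b.coord i)).toAddMonoidHom, fun x => ?_⟩
  simp only [LinearMap.toAddMonoidHom_coe, LinearMap.coe_sum, Finset.sum_apply,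
    LinearMap.smul_apply, Module.Basis.coord_apply, smul_eq_mul]
  have hx : (x : ℝ) = ∑ i, ((b.repr x i : ℤ) : ℝ) * ((b i : Γ') : ℝ) := by
    have h1 := congrArg (fun y : Γ' => (y : ℝ)) (b.sum_repr x)
    simp only [AddSubgroup.val_finsetSum, AddSubgroup.coe_zsmul, zsmul_eq_mul] at h1
    exact h1.symm
  rw [hx]
  push_cast
  rw [Finset.mul_sum, ← Finset.sum_sub_distrib]
  refine (Finset.abs_sum_le_sum_abs _ _).trans (Finset.sum_le_sum fun i _ => ?_)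
  have h2 : ((⌊(N : ℝ) * ((b i : Γ') : ℝ)⌋ : ℤ) : ℝ) * ((b.repr x i : ℤ) : ℝ)
      - (N : ℝ) * (((b.repr x i : ℤ) : ℝ) * ((b i : Γ') : ℝ))
      = ((b.repr x i : ℤ) : ℝ) *
        (((⌊(N : ℝ) * ((b i : Γ') : ℝ)⌋ : ℤ) : ℝ) - (N : ℝ) * ((b i : Γ') : ℝ)) := by ring
  rw [h2, abs_mul]
  have h3 : |((⌊(N : ℝ) * ((b i : Γ') : ℝ)⌋ : ℤ) : ℝ) - (N : ℝ) * ((b i : Γ') : ℝ)| ≤ 1 := by
    rw [abs_le]
    constructor
    · linarith [Int.lt_floor_add_one ((N : ℝ) * ((b i : Γ') : ℝ))]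
    · linarith [Int.floor_le ((N : ℝ) * ((b i : Γ') : ℝ))]
  calc _ ≤ |((b.repr x i : ℤ) : ℝ)| * 1 := mul_le_mul_of_nonneg_left h3 (abs_nonneg _)
    _ = _ := mul_one _

/-- `γ + l β = 0` and `s γ l = 0` only for `(0, 0)`; `Γ'` is finitely generated. -/
theorem fg_sup (Γ : AddSubgroup ℝ) (hΓ : Γ.FG) (β : ℝ) :
    (Γ ⊔ AddSubgroup.zmultiples β).FG := by
  obtain ⟨S, hS⟩ := hΓ
  classical
  refine ⟨S ∪ {β}, ?_⟩
  rw [Finset.coe_union, AddSubgroup.closure_union, hS, Finset.coe_singleton,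
    ← AddSubgroup.zmultiples_eq_closure]

theorem mem_sup_lat {Γ : AddSubgroup ℝ} {β γ : ℝ} (hγ : γ ∈ Γ) (l : ℤ) :
    γ + l * β ∈ Γ ⊔ AddSubgroup.zmultiples β := by
  refine AddSubgroup.add_mem _ (AddSubgroup.mem_sup_left hγ) (AddSubgroup.mem_sup_right ?_)
  exact AddSubgroup.mem_zmultiples_iff.2 ⟨l, zsmul_eq_mul _ _⟩

theorem exists_s (Γ : AddSubgroup ℝ) (hΓ : Γ.FG) (β : ℝ) (hβ : 0 < β) (q : ℕ) (hq : 0 < q)
    (hqβ : (q : ℝ) * β ∈ Γ) (hmin : ∀ m : ℕ, 0 < m → (m : ℝ) * β ∈ Γ → q ≤ m)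
    (S : Finset (ℝ × ℕ)) (hS : ∀ a ∈ S, a.1 ∈ Γ) (ε : ℝ) (hε : ε = 1 ∨ ε = -1) :
    ∃ s : ℝ → ℤ → ℤ, LatData Γ β q s ∧
      (∀ a ∈ S, 0 < ε * (a.1 + a.2 * β) → 0 ≤ s a.1 a.2) ∧
      (q = 1 → ∀ γ ∈ Γ, ∀ l : ℤ, s γ l = l) := by
  classical
  rcases eq_or_ne q 1 with hq1 | hq1
  · subst hq1
    refine ⟨fun _ l => l, ⟨hβ, hq, hqβ, hmin, fun _ _ _ _ _ _ => rfl, by simp⟩, ?_, ?_⟩
    · intro a _ _
      exact Int.natCast_nonneg _
    · intro _ _ _ _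
      rfl
  · haveI : Module.Finite ℤ Γ := by
      have : AddGroup.FG Γ := (AddGroup.fg_iff_addSubgroup_fg Γ).2 hΓ
      exact Module.Finite.iff_addGroup_fg.2 inferInstance
    have : Module.Free ℤ Γ := inferInstance
    have hnq : -((q : ℝ) * β) ∈ Γ := Γ.neg_mem hqβ
    obtain ⟨f, hf⟩ := exists_functional (M := Γ × ℤ) (⟨-((q : ℝ) * β), hnq⟩, (q : ℤ)) (by
      rintro d ⟨w1, w2⟩ hw
      have h1 : -((q : ℝ) * β) = (d : ℝ) * (w1 : ℝ) := by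
        have := congrArg (fun y : Γ × ℤ => ((y.1 : Γ) : ℝ)) hw
        simpa [zsmul_eq_mul] using this
      have h2 : (q : ℤ) = d * w2 := by
        have := congrArg (fun y : Γ × ℤ => y.2) hw
        simpa using this
      have hd0 : d ≠ 0 := by
        rintro rfl
        rw [zero_mul] at h2
        have : (0 : ℤ) < q := by exact_mod_cast hq
        omega
      have h3 : (w2 : ℝ) * β = -(w1 : ℝ) := by
        have hdR : (d : ℝ) ≠ 0 := by exact_mod_cast hd0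
        have h4 : (q : ℝ) = (d : ℝ) * (w2 : ℝ) := by exact_mod_cast h2
        rw [h4] at h1
        apply mul_left_cancel₀ hdR
        linarith
      have h4 : (w2 : ℝ) * β ∈ Γ := by
        rw [h3]; exact Γ.neg_mem w1.2
      obtain ⟨k, hk⟩ := lat_dvd hq hqβ hmin w2 h4
      have hqz : (q : ℤ) ≠ 0 := by exact_mod_cast hq.ne'
      have h5 : (q : ℤ) * 1 = q * (d * k) := by
        rw [mul_one]
        nth_rewrite 1 [h2]
        rw [hk]; ring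
      have h6 := mul_left_cancel₀ hqz h5
      exact IsUnit.of_mul_eq_one k h6.symm)
    obtain ⟨C, hC⟩ := exists_approx _ (fg_sup Γ hΓ β)
    have hεz : ∃ e : ℤ, (e : ℝ) = ε ∧ |(e : ℝ)| = 1 := by
      rcases hε with rfl | rfl
      · exact ⟨1, by simp, by simp⟩
      · exact ⟨-1, by simp, by simp⟩
    obtain ⟨e, he, he1⟩ := hεz
    choose t ht using hC
    -- the candidate for a given `N`
    let P : ℕ → ℝ → ℤ → ℤ := fun N γ l =>
      if h : γ ∈ Γ then f (⟨γ, h⟩, l) + e * t N ⟨γ + l * β, mem_sup_lat h l⟩ else 0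
    have hP : ∀ N γ l (h : γ ∈ Γ), P N γ l =
        f (⟨γ, h⟩, l) + e * t N ⟨γ + l * β, mem_sup_lat h l⟩ := by
      intro N γ l h
      simp only [P, dif_pos h]
    have hev : ∀ a ∈ S, ∀ᶠ N : ℕ in Filter.atTop,
        0 < ε * (a.1 + a.2 * β) → 0 ≤ P N a.1 a.2 := by
      intro a ha
      by_cases hpos : 0 < ε * (a.1 + a.2 * β)
      · have hmem := hS a ha
        obtain ⟨N0, hN0⟩ := exists_nat_gt
          ((|((f (⟨a.1, hmem⟩, (a.2 : ℤ)) : ℤ) : ℝ)| +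
            C ⟨a.1 + ((a.2 : ℤ) : ℝ) * β, mem_sup_lat hmem a.2⟩) / (ε * (a.1 + a.2 * β)))
        filter_upwards [Filter.eventually_ge_atTop N0] with N hN _
        rw [hP N a.1 a.2 hmem]
        have h1 := ht N ⟨a.1 + ((a.2 : ℤ) : ℝ) * β, mem_sup_lat hmem a.2⟩
        have h2 : (|((f (⟨a.1, hmem⟩, (a.2 : ℤ)) : ℤ) : ℝ)| +
            C ⟨a.1 + ((a.2 : ℤ) : ℝ) * β, mem_sup_lat hmem a.2⟩) <
            N * (ε * (a.1 + a.2 * β)) := by
          rw [div_lt_iff₀ hpos] at hN0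
          refine hN0.trans_le (mul_le_mul_of_nonneg_right ?_ hpos.le)
          exact_mod_cast hN
        generalize (t N ⟨a.1 + ((a.2 : ℤ) : ℝ) * β, mem_sup_lat hmem a.2⟩) = T at h1 ⊢
        generalize C ⟨a.1 + ((a.2 : ℤ) : ℝ) * β, mem_sup_lat hmem a.2⟩ = K at h1 h2
        generalize f (⟨a.1, hmem⟩, (a.2 : ℤ)) = F at h2 ⊢
        have h3 : |(e : ℝ) * ((T : ℝ) - N * (a.1 + ((a.2 : ℤ) : ℝ) * β))| ≤ K := by
          rw [abs_mul, he1, one_mul]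
          exact h1
        have h4 := (abs_le.1 h3).1
        have h5 := neg_abs_le (F : ℝ)
        have h6 : (0 : ℝ) ≤ ((F + e * T : ℤ) : ℝ) := by
          push_cast
          rw [← he] at h2
          push_cast at h4
          nlinarith
        exact_mod_cast h6
      · exact Filter.Eventually.of_forall fun N h => absurd h hpos
    obtain ⟨N, hN⟩ := ((Filter.eventually_all_finset S).2 hev).exists
    refine ⟨P N, ⟨hβ, hq, hqβ, hmin, ?_, ?_⟩, hN, fun h => absurd h hq1⟩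
    · intro γ hγ δ hδ l m
      rw [hP N _ _ (Γ.add_mem hγ hδ), hP N _ _ hγ, hP N _ _ hδ]
      have h1 : ((⟨γ + δ, Γ.add_mem hγ hδ⟩, l + m) : Γ × ℤ) =
          (⟨γ, hγ⟩, l) + (⟨δ, hδ⟩, m) := rfl
      have h2 : (⟨γ + δ + ((l + m : ℤ) : ℝ) * β, mem_sup_lat (Γ.add_mem hγ hδ) (l + m)⟩ :
          (Γ ⊔ AddSubgroup.zmultiples β : AddSubgroup ℝ)) =
          ⟨γ + l * β, mem_sup_lat hγ l⟩ + ⟨δ + m * β, mem_sup_lat hδ m⟩ := by
        apply Subtype.ext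
        simp only [AddSubgroup.coe_add]
        push_cast
        ring
      rw [h1, h2, map_add, map_add]
      ring
    · rw [hP N _ _ hnq, hf]
      have h2 : (⟨-((q : ℝ) * β) + ((q : ℤ) : ℝ) * β, mem_sup_lat hnq q⟩ :
          (Γ ⊔ AddSubgroup.zmultiples β : AddSubgroup ℝ)) = 0 := by
        apply Subtype.ext
        simp
      rw [h2, map_zero]
      ring

variable {Γ : AddSubgroup ℝ} {β : ℝ} {q : ℕ} {s : ℝ → ℤ → ℤ}

/-- `s` as a homomorphism. -/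
noncomputable def LatData.hom (h : LatData Γ β q s) : Γ × ℤ →+ ℤ :=
  AddMonoidHom.mk' (fun x => s x.1 x.2) (fun x y => h.s_add _ x.1.2 _ y.1.2 _ _)

theorem LatData.hom_apply (h : LatData Γ β q s) (x : Γ) (l : ℤ) :
    h.hom (x, l) = s x l := rfl

theorem LatData.s_sub (h : LatData Γ β q s) {γ δ : ℝ} (hγ : γ ∈ Γ) (hδ : δ ∈ Γ) (l m : ℤ) :
    s (γ - δ) (l - m) = s γ l - s δ m :=
  map_sub h.hom ((⟨γ, hγ⟩, l) : Γ × ℤ) (⟨δ, hδ⟩, m)

theorem LatData.s_zsmul (h : LatData Γ β q s) (k : ℤ) {γ : ℝ} (hγ : γ ∈ Γ) (l : ℤ) :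
    s (k * γ) (k * l) = k * s γ l := by
  have h1 := map_zsmul h.hom k ((⟨γ, hγ⟩, l) : Γ × ℤ)
  have h2 : k • ((⟨γ, hγ⟩, l) : Γ × ℤ) = (k • (⟨γ, hγ⟩ : Γ), k * l) := rfl
  rw [h2, h.hom_apply, h.hom_apply, smul_eq_mul, AddSubgroup.coe_zsmul, zsmul_eq_mul] at h1
  exact h1

theorem LatData.s_ker (h : LatData Γ β q s) (k : ℤ) :
    s (-((k * q : ℤ) : ℝ) * β) (k * q) = k := by
  have h1 := h.s_zsmul k (Γ.neg_mem h.q_mem) q
  rw [h.s_one, mul_one] at h1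
  have h2 : -((k * q : ℤ) : ℝ) * β = (k : ℝ) * -((q : ℝ) * β) := by
    push_cast
    ring
  rw [h2]
  exact h1

/-- Elements of the same class `γ + l β = δ + m β`: `l - m` is `q` times `s γ l - s δ m`. -/
theorem LatData.same (h : LatData Γ β q s) {γ δ : ℝ} (hγ : γ ∈ Γ) (hδ : δ ∈ Γ) {l m : ℤ}
    (h1 : γ + l * β = δ + m * β) : l - m = q * (s γ l - s δ m) := by
  have h2 : γ - δ = -((l - m : ℤ) : ℝ) * β := by
    push_cast; linarith
  have h3 : ((l - m : ℤ) : ℝ) * β ∈ Γ := by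
    have : ((l - m : ℤ) : ℝ) * β = -(γ - δ) := by rw [h2]; ring
    rw [this]
    exact Γ.neg_mem (Γ.sub_mem hγ hδ)
  obtain ⟨k, hk⟩ := lat_dvd h.q_pos h.q_mem h.q_min _ h3
  have h4 := h.s_sub hγ hδ l m
  rw [h2, hk, mul_comm (q : ℤ) k, h.s_ker k] at h4
  rw [← h4, hk]

/-- `(γ, l) ↦ (γ + l β, s γ l)` is injective on `Γ × ℤ`. -/
theorem LatData.inj (h : LatData Γ β q s) {γ δ : ℝ} (hγ : γ ∈ Γ) (hδ : δ ∈ Γ) {l m : ℤ}
    (h1 : γ + l * β = δ + m * β) (h2 : s γ l = s δ m) : γ = δ ∧ l = m := by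
  have h3 := h.same hγ hδ h1
  rw [h2, sub_self, mul_zero, sub_eq_zero] at h3
  subst h3
  exact ⟨by linarith, rfl⟩

/-- `(γ, l) ↦ (γ + l β, s γ l)` is surjective onto `Γ' × ℤ`. -/
theorem LatData.surj (h : LatData Γ β q s) {γ' : ℝ}
    (hγ' : γ' ∈ Γ ⊔ AddSubgroup.zmultiples β) (j : ℤ) :
    ∃ γ ∈ Γ, ∃ l : ℤ, γ + l * β = γ' ∧ s γ l = j := by
  obtain ⟨γ0, hγ0, z, hz, hsum⟩ := AddSubgroup.mem_sup.1 hγ'
  obtain ⟨l0, hl0⟩ := AddSubgroup.mem_zmultiples_iff.1 hz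
  rw [zsmul_eq_mul] at hl0
  set k := j - s γ0 l0 with hk
  have hker : -((k * q : ℤ) : ℝ) * β ∈ Γ := by
    have : -((k * q : ℤ) : ℝ) * β = k • (-((q : ℝ) * β)) := by
      rw [zsmul_eq_mul]; push_cast; ring
    rw [this]
    exact Γ.zsmul_mem (Γ.neg_mem h.q_mem) _
  refine ⟨γ0 + -((k * q : ℤ) : ℝ) * β, Γ.add_mem hγ0 hker, l0 + k * q, ?_, ?_⟩
  · rw [← hsum, ← hl0]
    push_cast
    ring
  · rw [h.s_add _ hγ0 _ hker, h.s_ker]
    omega

/-- Visibility (divisibility by `p`) is compatible with the isomorphism. -/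
theorem LatData.vis (h : LatData Γ β q s) (p : ℕ) (hp : p.Prime) {γ : ℝ} (hγ : γ ∈ Γ) (l : ℤ) :
    ((p : ℤ) ∣ l ∧ ∃ δ ∈ Γ, γ = p * δ) ↔
      ((p : ℤ) ∣ s γ l ∧ ∃ δ ∈ Γ ⊔ AddSubgroup.zmultiples β, γ + l * β = p * δ) := by
  constructor
  · rintro ⟨⟨l', rfl⟩, δ, hδ, rfl⟩
    refine ⟨⟨s δ l', ?_⟩, δ + l' * β, mem_sup_lat hδ l', ?_⟩
    · have := h.s_zsmul (p : ℤ) hδ l'
      simpa using this
    · push_cast
      ring
  · rintro ⟨⟨j, hj⟩, δ', hδ', heq⟩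
    obtain ⟨δ, hδ, l', h1, h2⟩ := h.surj hδ' j
    have hpδ : ((p : ℤ) : ℝ) * δ ∈ Γ := by
      rw [← zsmul_eq_mul]
      exact Γ.zsmul_mem hδ _
    have h3 := h.s_zsmul (p : ℤ) hδ l'
    rw [h2, ← hj] at h3
    obtain ⟨e1, e2⟩ := h.inj hpδ hγ (l := p * l') (m := l) (by
      rw [heq, ← h1]; push_cast; ring) h3
    refine ⟨⟨l', e2.symm⟩, δ, hδ, ?_⟩
    rw [← e1]
    push_cast
    ring

end Pool.Agent.LU1
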