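import Pool.Agent.Lib.LU1_h15.Basic
import Pool.Agent.Lib.LU1_h15.Lattice

/-! # Construction of big frames from generators -/

set_option autoImplicit false

namespace Pool.Agent.LU1

open Pool.Agent.H15JM (RVal)
open Polynomial

universe u

variable {k Ω : Type u} [Field k] [Field Ω] [Algebra k Ω] {v : RVal Ω} {r : ℕ}

/-! ### algebraicity, fields of fractions -/

theorem isAlgebraic_of_le {R R' : Subalgebra k Ω} (hle : R ≤ R') {g : Ω}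
    (hg : IsAlgebraic R g) : IsAlgebraic R' g := by
  obtain ⟨P, hP, h0⟩ := hg
  have hinj : Function.Injective (Subalgebra.inclusion hle).toRingHom :=
    Subalgebra.inclusion_injective hle
  refine ⟨P.map (Subalgebra.inclusion hle).toRingHom, ?_, ?_⟩
  · rwa [Ne, Polynomial.map_eq_zero_iff hinj]
  · rw [Polynomial.aeval_def, Polynomial.eval₂_map]
    rw [Polynomial.aeval_def] at h0
    exact h0

/-- The field of quotients of a subalgebra. -/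
def quo (R : Subalgebra k Ω) : IntermediateField k Ω where
  carrier := {g | ∃ a ∈ R, ∃ b ∈ R, b ≠ 0 ∧ g = a / b}
  mul_mem' := by
    rintro f g ⟨a, ha, b, hb, hb0, rfl⟩ ⟨c, hc, d, hd, hd0, rfl⟩
    exact ⟨a * c, R.mul_mem ha hc, b * d, R.mul_mem hb hd, mul_ne_zero hb0 hd0, by
      rw [div_mul_div_comm]⟩
  add_mem' := by
    rintro f g ⟨a, ha, b, hb, hb0, rfl⟩ ⟨c, hc, d, hd, hd0, rfl⟩
    exact ⟨a * d + b * c, R.add_mem (R.mul_mem ha hd) (R.mul_mem hb hc), b * d,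
      R.mul_mem hb hd, mul_ne_zero hb0 hd0, by rw [div_add_div _ _ hb0 hd0]⟩
  algebraMap_mem' := by
    intro c
    exact ⟨algebraMap k Ω c, R.algebraMap_mem c, 1, R.one_mem, one_ne_zero, by rw [div_one]⟩
  inv_mem' := by
    rintro f ⟨a, ha, b, hb, hb0, rfl⟩
    by_cases ha0 : a = 0
    · exact ⟨0, R.zero_mem, 1, R.one_mem, one_ne_zero, by simp [ha0]⟩
    · exact ⟨b, hb, a, ha, ha0, by rw [inv_div]⟩

theorem mem_quo {R : Subalgebra k Ω} {g : Ω} :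
    g ∈ quo R ↔ ∃ a ∈ R, ∃ b ∈ R, b ≠ 0 ∧ g = a / b := Iff.rfl

theorem le_quo {R : Subalgebra k Ω} {f : Ω} (hf : f ∈ R) : f ∈ quo R :=
  ⟨f, hf, 1, R.one_mem, one_ne_zero, by rw [div_one]⟩

theorem quo_mono {R R' : Subalgebra k Ω} (h : R ≤ R') : quo R ≤ quo R' := by
  rintro g ⟨a, ha, b, hb, h0, rfl⟩
  exact ⟨a, h ha, b, h hb, h0, rfl⟩

theorem fracIs_iff {R : Subalgebra k Ω} {E : IntermediateField k Ω} :
    FracIs R E ↔ (∀ f ∈ R, f ∈ E) ∧ E ≤ quo R := Iff.rfl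

theorem locv_field {S : Subalgebra k Ω} {E : IntermediateField k Ω} (h : ∀ f ∈ S, f ∈ E) :
    ∀ f ∈ locv v S, f ∈ E := by
  rintro f ⟨a, ha, b, hb, -, -, rfl⟩
  exact E.div_mem (h a ha) (h b hb)

theorem adjoin_field {S : Set Ω} {E : IntermediateField k Ω} (h : ∀ f ∈ S, f ∈ E) :
    ∀ f ∈ Algebra.adjoin k S, f ∈ E := by
  intro f hf
  have : Algebra.adjoin k S ≤ E.toSubalgebra := Algebra.adjoin_le h
  exact this hf

theorem FracIs.eq_quo {R : Subalgebra k Ω} {E : IntermediateField k Ω} (h : FracIs R E) :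
    E = quo R := by
  refine le_antisymm h.2 ?_
  rintro g ⟨a, ha, b, hb, -, rfl⟩
  exact E.div_mem (h.1 a ha) (h.1 b hb)

theorem adj_le {E F : IntermediateField k Ω} {z : Ω} (h : E ≤ F) (hz : z ∈ F) :
    adj E z ≤ F := by
  rw [adj]
  refine sup_le h ?_
  rw [IntermediateField.adjoin_le_iff]
  rintro x rfl
  exact hz

theorem le_adj (E : IntermediateField k Ω) (z : Ω) : E ≤ adj E z := le_sup_left

theorem mem_adj (E : IntermediateField k Ω) (z : Ω) : z ∈ adj E z :=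
  (le_sup_right : IntermediateField.adjoin k {z} ≤ adj E z)
    (IntermediateField.subset_adjoin k {z} (Set.mem_singleton z))

theorem adj_congr {E : IntermediateField k Ω} {z z' : Ω} (h : z ∈ adj E z')
    (h' : z' ∈ adj E z) : adj E z = adj E z' :=
  le_antisymm (adj_le (le_adj _ _) h) (adj_le (le_adj _ _) h')

/-! ### `locv` of generators -/

theorem locv_locv (S : Subalgebra k Ω) : locv v (locv v S) = locv v S :=
  le_antisymm (locv_le le_rfl fun _ hf h0 h1 => locv_inv hf h0 h1) (le_locv _)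

/-- If the generators `S` are in `locv k[T]`, then `locv k[S] ≤ locv k[T]`. -/
theorem locv_adjoin_le {S T : Set Ω} (h : ∀ f ∈ S, f ∈ locv v (Algebra.adjoin k T)) :
    locv v (Algebra.adjoin k S) ≤ locv v (Algebra.adjoin k T) := by
  have h1 : Algebra.adjoin k S ≤ locv v (Algebra.adjoin k T) := Algebra.adjoin_le h
  have h2 := locv_mono (v := v) h1
  rwa [locv_locv] at h2

/-! ### the elements of positive value -/

/-- The elements `χ(γ) a + y b`, `γ > 0`, `a, b ∈ R`. -/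
def MM (Γ : AddSubgroup ℝ) (χ : ℝ → Ω) (y : Ω) (R : Subalgebra k Ω) (f : Ω) : Prop :=
  ∃ γ ∈ Γ, 0 < γ ∧ ∃ a ∈ R, ∃ b ∈ R, f = χ γ * a + y * b

/-- The data of a frame except for the last conditions. -/
structure Pre (v : RVal Ω) (Γ : AddSubgroup ℝ) (χ : ℝ → Ω) (y : Ω) (R : Subalgebra k Ω) :
    Prop where
  full : ∀ g : Ω, g ≠ 0 → ∃ m : ℕ, 0 < m ∧ (m : ℝ) * v g ∈ Γ
  χ_ne : ∀ γ ∈ Γ, χ γ ≠ 0
  χ_add : ∀ γ ∈ Γ, ∀ δ ∈ Γ, χ (γ + δ) = χ γ * χ δ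
  χ_val : ∀ γ ∈ Γ, v (χ γ) = γ
  y_ne : y ≠ 0
  y_pos : 0 < v y
  nonneg : ∀ f ∈ R, v.Ge 0 f
  loc : ∀ f ∈ R, f ≠ 0 → v f = 0 → f⁻¹ ∈ R
  χ_mem : ∀ γ ∈ Γ, 0 ≤ γ → χ γ ∈ R
  y_mem : y ∈ R

namespace Pre

variable {Γ : AddSubgroup ℝ} {χ : ℝ → Ω} {y : Ω} {R : Subalgebra k Ω}

theorem exists_pos (H : Pre v Γ χ y R) : ∃ γ ∈ Γ, 0 < γ := by
  obtain ⟨m, hm, h1⟩ := H.full y H.y_ne
  exact ⟨_, h1, mul_pos (by exact_mod_cast hm) H.y_pos⟩

theorem χ_zero (H : Pre v Γ χ y R) : χ 0 = 1 := by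
  have h := H.χ_add 0 Γ.zero_mem 0 Γ.zero_mem
  rw [add_zero] at h
  exact (mul_right_cancel₀ (H.χ_ne 0 Γ.zero_mem) (by rw [one_mul]; exact h)).symm

theorem χ_dvd (H : Pre v Γ χ y R) {γ δ : ℝ} (h : γ ∈ Γ) (h' : δ ∈ Γ) (hle : δ ≤ γ) :
    ∃ a ∈ R, χ γ = χ δ * a :=
  ⟨χ (γ - δ), H.χ_mem _ (Γ.sub_mem h h') (sub_nonneg.2 hle), by
    rw [← H.χ_add δ h' _ (Γ.sub_mem h h')]; congr 1; ring⟩

theorem mm_zero (H : Pre v Γ χ y R) : MM Γ χ y R 0 := by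
  obtain ⟨γ, hγ, h0⟩ := H.exists_pos
  exact ⟨γ, hγ, h0, 0, R.zero_mem, 0, R.zero_mem, by simp⟩

theorem mm_χ (H : Pre v Γ χ y R) {γ : ℝ} (hγ : γ ∈ Γ) (h0 : 0 < γ) {a : Ω} (ha : a ∈ R) :
    MM Γ χ y R (χ γ * a) :=
  ⟨γ, hγ, h0, a, ha, 0, R.zero_mem, by simp⟩

theorem mm_y (H : Pre v Γ χ y R) {a : Ω} (ha : a ∈ R) : MM Γ χ y R (y * a) := by
  obtain ⟨γ, hγ, h0⟩ := H.exists_pos
  exact ⟨γ, hγ, h0, 0, R.zero_mem, a, ha, by simp⟩

theorem mm_add (H : Pre v Γ χ y R) {f g : Ω} (hf : MM Γ χ y R f) (hg : MM Γ χ y R g) :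
    MM Γ χ y R (f + g) := by
  obtain ⟨γ, hγ, h0, a, ha, b, hb, rfl⟩ := hf
  obtain ⟨δ, hδ, h1, c, hc, d, hd, rfl⟩ := hg
  rcases le_total γ δ with hle | hle
  · obtain ⟨e, he, h2⟩ := H.χ_dvd hδ hγ hle
    refine ⟨γ, hγ, h0, a + e * c, R.add_mem ha (R.mul_mem he hc), b + d, R.add_mem hb hd, ?_⟩
    rw [h2]; ring
  · obtain ⟨e, he, h2⟩ := H.χ_dvd hγ hδ hle
    refine ⟨δ, hδ, h1, e * a + c, R.add_mem (R.mul_mem he ha) hc, b + d, R.add_mem hb hd, ?_⟩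
    rw [h2]; ring

theorem mm_mul (_H : Pre v Γ χ y R) {f g : Ω} (hf : MM Γ χ y R f) (hg : g ∈ R) :
    MM Γ χ y R (f * g) := by
  obtain ⟨γ, hγ, h0, a, ha, b, hb, rfl⟩ := hf
  exact ⟨γ, hγ, h0, a * g, R.mul_mem ha hg, b * g, R.mul_mem hb hg, by ring⟩

theorem mm_mem (H : Pre v Γ χ y R) {f : Ω} (hf : MM Γ χ y R f) : f ∈ R := by
  obtain ⟨γ, hγ, h0, a, ha, b, hb, rfl⟩ := hf
  exact R.add_mem (R.mul_mem (H.χ_mem γ hγ h0.le) ha) (R.mul_mem H.y_mem hb)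

theorem mm_vpos (H : Pre v Γ χ y R) {f : Ω} (hf : MM Γ χ y R f) : VPos v f := by
  obtain ⟨γ, hγ, h0, a, ha, b, hb, rfl⟩ := hf
  refine VPos.add (VPos.mul ?_ (H.nonneg a ha)) (VPos.mul ?_ (H.nonneg b hb))
  · intro _; rw [H.χ_val γ hγ]; exact h0
  · intro _; exact H.y_pos

/-- `f` is a constant plus an element of `MM`. -/
def Res (Γ : AddSubgroup ℝ) (χ : ℝ → Ω) (y : Ω) (R : Subalgebra k Ω) (f : Ω) : Prop :=
  ∃ c : k, MM Γ χ y R (f - algebraMap k Ω c)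

theorem res_mem (H : Pre v Γ χ y R) {f : Ω} (hf : Res Γ χ y R f) : f ∈ R := by
  obtain ⟨c, hc⟩ := hf
  have := R.add_mem (H.mm_mem hc) (R.algebraMap_mem c)
  rwa [sub_add_cancel] at this

theorem res_const (H : Pre v Γ χ y R) (c : k) : Res Γ χ y R (algebraMap k Ω c) :=
  ⟨c, by rw [sub_self]; exact H.mm_zero⟩

theorem res_of_mm (_H : Pre v Γ χ y R) {f : Ω} (hf : MM Γ χ y R f) : Res Γ χ y R f :=
  ⟨0, by rwa [_root_.map_zero, sub_zero]⟩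

theorem res_add (H : Pre v Γ χ y R) {f g : Ω} (hf : Res Γ χ y R f) (hg : Res Γ χ y R g) :
    Res Γ χ y R (f + g) := by
  obtain ⟨c, hc⟩ := hf
  obtain ⟨d, hd⟩ := hg
  refine ⟨c + d, ?_⟩
  have := H.mm_add hc hd
  rw [_root_.map_add]
  convert this using 1
  ring

theorem res_mul (H : Pre v Γ χ y R) {f g : Ω} (hf : Res Γ χ y R f) (hg : Res Γ χ y R g) :
    Res Γ χ y R (f * g) := by
  have hgR := H.res_mem hg
  obtain ⟨c, hc⟩ := hf
  obtain ⟨d, hd⟩ := hg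
  refine ⟨c * d, ?_⟩
  have := H.mm_add (H.mm_mul hc hgR) (H.mm_mul hd (R.algebraMap_mem c))
  rw [_root_.map_mul]
  convert this using 1
  ring

theorem res_inv (H : Pre v Γ χ y R) {f : Ω} (hf : Res Γ χ y R f) (h0 : f ≠ 0)
    (h1 : v f = 0) : Res Γ χ y R f⁻¹ := by
  have hfR := H.res_mem hf
  have hi := H.loc f hfR h0 h1
  obtain ⟨c, hc⟩ := hf
  have hc0 : algebraMap k Ω c ≠ 0 := by
    intro h2
    have h3 := H.mm_vpos hc
    rw [h2, sub_zero] at h3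
    have := h3 h0
    rw [h1] at this
    exact lt_irrefl _ this
  refine ⟨c⁻¹, ?_⟩
  have h2 : -(f⁻¹ * (algebraMap k Ω c⁻¹)) ∈ R :=
    R.neg_mem (R.mul_mem hi (R.algebraMap_mem _))
  have := H.mm_mul hc h2
  rw [map_inv₀] at this ⊢
  convert this using 1
  field_simp
  ring

/-- If the generators are constants plus elements of `MM`, so is every element of the ring. -/
theorem res_all (H : Pre v Γ χ y R) {S : Set Ω} (hR : R = locv v (Algebra.adjoin k S))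
    (hS : ∀ f ∈ S, Res Γ χ y R f) : ∀ f ∈ R, Res Γ χ y R f := by
  have key : ∀ f ∈ Algebra.adjoin k S, Res Γ χ y R f := by
    intro f hf
    induction hf using Algebra.adjoin_induction with
    | mem x hx => exact hS x hx
    | algebraMap c => exact H.res_const c
    | add x z _ _ hx hz => exact H.res_add hx hz
    | mul x z _ _ hx hz => exact H.res_mul hx hz
  intro f hf
  have hf' := hf
  rw [hR] at hf'
  obtain ⟨a, ha, b, hb, hb0, hvb, rfl⟩ := hf'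
  rw [div_eq_mul_inv]
  exact H.res_mul (key a ha) (H.res_inv (key b hb) hb0 hvb)

theorem gen (H : Pre v Γ χ y R) {S : Set Ω} (hR : R = locv v (Algebra.adjoin k S))
    (hS : ∀ f ∈ S, Res Γ χ y R f) (hk : ∀ c : k, c ≠ 0 → v (algebraMap k Ω c) = 0) :
    ∀ f ∈ R, VPos v f → MM Γ χ y R f := by
  intro f hf hv
  obtain ⟨c, hc⟩ := H.res_all hR hS f hf
  have h1 : VPos v (algebraMap k Ω c) := by
    have := hv.sub (H.mm_vpos hc)
    rwa [sub_sub_cancel] at this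
  have h2 : c = 0 := by
    by_contra h0
    have := h1 (by simpa using h0)
    rw [hk c h0] at this
    exact lt_irrefl _ this
  rwa [h2, _root_.map_zero, sub_zero] at hc

end Pre

/-- Construction of a frame from generators. -/
noncomputable def mkBF {Γ : AddSubgroup ℝ} {χ : ℝ → Ω} {y : Ω} {R : Subalgebra k Ω}
    (H : Pre v Γ χ y R) (fg : Γ.FG) {S : Set Ω} (hR : R = locv v (Algebra.adjoin k S))
    (hS : ∀ f ∈ S, Pre.Res Γ χ y R f) (hk : ∀ c : k, c ≠ 0 → v (algebraMap k Ω c) = 0)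
    (fgen : ∃ F : Finset Ω,
      R = locv v (Algebra.adjoin k ((F : Set Ω) ∪ χ '' {γ | γ ∈ Γ ∧ 0 ≤ γ})))
    (alg : ∀ g : Ω, IsAlgebraic R g) : BF k v where
  Γ := Γ
  fg := fg
  full := H.full
  χ := χ
  χ_ne := H.χ_ne
  χ_add := H.χ_add
  χ_val := H.χ_val
  y := y
  y_ne := H.y_ne
  y_pos := H.y_pos
  R := R
  nonneg := H.nonneg
  loc := H.loc
  χ_mem := H.χ_mem
  y_mem := H.y_mem
  fgen := fgen
  gen := fun f hf hv => H.gen hR hS hk f hf hv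
  alg := alg

/-! ### the monomials after adjoining an element `Y` with `Y^q = χ(q v(Y)) w` -/

open Classical in
/-- The monomials `χ'(γ + l v(Y)) = χ(γ) Y^l w^(-s γ l)`. -/
noncomputable def BF.chi' (B : BF k v) (Y w : Ω) (s : ℝ → ℤ → ℤ) (γ' : ℝ) : Ω :=
  if h : ∃ p : ℝ × ℤ, p.1 ∈ B.Γ ∧ γ' = p.1 + p.2 * v Y then
    B.χ h.choose.1 * Y ^ h.choose.2 * w ^ (-(s h.choose.1 h.choose.2))
  else 1

section chi

variable {B : BF k v} {Y w : Ω} {q : ℕ} {s : ℝ → ℤ → ℤ}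

theorem BF.chi'_eq (hY : Y ≠ 0) (hL : LatData B.Γ (v Y) q s)
    (hw : Y ^ q = B.χ (q * v Y) * w) {γ : ℝ} (hγ : γ ∈ B.Γ) (l : ℤ) :
    B.chi' Y w s (γ + l * v Y) = B.χ γ * Y ^ l * w ^ (-(s γ l)) := by
  have hw0 : w ≠ 0 := by
    rintro rfl
    rw [mul_zero] at hw
    exact pow_ne_zero _ hY hw
  have hex : ∃ p : ℝ × ℤ, p.1 ∈ B.Γ ∧ γ + l * v Y = p.1 + p.2 * v Y := ⟨(γ, l), hγ, rfl⟩
  rw [BF.chi', dif_pos hex]
  obtain ⟨h1, h2⟩ := hex.choose_spec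
  set δ := hex.choose.1 with hδ
  set m := hex.choose.2 with hm
  have h3 := hL.same hγ h1 h2
  set t := s γ l - s δ m with ht
  have h4 : δ = γ + t * (q * v Y) := by
    have h5 : (l : ℝ) - m = q * t := by exact_mod_cast h3
    have h6 : δ = γ + ((l : ℝ) - m) * v Y := by linarith
    rw [h6, h5]; ring
  have h7 : B.χ δ = B.χ γ * B.χ (q * v Y) ^ t := by
    rw [h4, B.χ_add γ hγ _ ?_, B.χ_zsmul hL.q_mem]
    have := B.Γ.zsmul_mem hL.q_mem t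
    rwa [zsmul_eq_mul] at this
  have h8 : s δ m = s γ l - t := by rw [ht]; ring
  have h9 : l = m + q * t := by linarith
  have hχ0 := B.χ_ne _ hL.q_mem
  rw [h7, h8, h9, zpow_add₀ hY, zpow_mul, zpow_natCast, hw, mul_zpow, neg_sub, zpow_sub₀ hw0,
    zpow_neg]
  field_simp

theorem BF.mem_sup {Γ : AddSubgroup ℝ} {β γ' : ℝ}
    (hγ' : γ' ∈ Γ ⊔ AddSubgroup.zmultiples β) : ∃ γ ∈ Γ, ∃ l : ℤ, γ' = γ + l * β := by
  obtain ⟨γ, hγ, z, hz, rfl⟩ := AddSubgroup.mem_sup.1 hγ'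
  obtain ⟨l, rfl⟩ := AddSubgroup.mem_zmultiples_iff.1 hz
  exact ⟨γ, hγ, l, by rw [zsmul_eq_mul]⟩

variable (hY : Y ≠ 0) (hL : LatData B.Γ (v Y) q s) (hw : Y ^ q = B.χ (q * v Y) * w)

include hY hw in
theorem BF.w_ne_zero : w ≠ 0 := by
  rintro rfl
  rw [mul_zero] at hw
  exact pow_ne_zero _ hY hw

include hY hL hw

theorem BF.v_w_zero : v w = 0 := by
  have hw0 := BF.w_ne_zero hY hw
  have h1 := congrArg v hw
  rw [v.map_pow hY, v.map_mul (B.χ_ne _ hL.q_mem) hw0, B.χ_val _ hL.q_mem] at h1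
  linarith

theorem BF.chi'_ne {γ' : ℝ} (hγ' : γ' ∈ B.Γ ⊔ AddSubgroup.zmultiples (v Y)) :
    B.chi' Y w s γ' ≠ 0 := by
  obtain ⟨γ, hγ, l, rfl⟩ := BF.mem_sup hγ'
  rw [BF.chi'_eq hY hL hw hγ]
  exact mul_ne_zero (mul_ne_zero (B.χ_ne γ hγ) (zpow_ne_zero _ hY))
    (zpow_ne_zero _ (BF.w_ne_zero hY hw))

theorem BF.chi'_add {γ' δ' : ℝ} (hγ' : γ' ∈ B.Γ ⊔ AddSubgroup.zmultiples (v Y))
    (hδ' : δ' ∈ B.Γ ⊔ AddSubgroup.zmultiples (v Y)) :
    B.chi' Y w s (γ' + δ') = B.chi' Y w s γ' * B.chi' Y w s δ' := by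
  obtain ⟨γ, hγ, l, rfl⟩ := BF.mem_sup hγ'
  obtain ⟨δ, hδ, m, rfl⟩ := BF.mem_sup hδ'
  have h1 : γ + l * v Y + (δ + m * v Y) = (γ + δ) + ((l + m : ℤ) : ℝ) * v Y := by
    push_cast; ring
  rw [h1, BF.chi'_eq hY hL hw (B.Γ.add_mem hγ hδ), BF.chi'_eq hY hL hw hγ,
    BF.chi'_eq hY hL hw hδ, B.χ_add γ hγ δ hδ, hL.s_add γ hγ δ hδ, neg_add, zpow_add₀ hY,
    zpow_add₀ (BF.w_ne_zero hY hw)]
  ring

theorem BF.chi'_val {γ' : ℝ} (hγ' : γ' ∈ B.Γ ⊔ AddSubgroup.zmultiples (v Y)) :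
    v (B.chi' Y w s γ') = γ' := by
  obtain ⟨γ, hγ, l, rfl⟩ := BF.mem_sup hγ'
  have hw0 := BF.w_ne_zero hY hw
  rw [BF.chi'_eq hY hL hw hγ,
    v.map_mul (mul_ne_zero (B.χ_ne γ hγ) (zpow_ne_zero _ hY)) (zpow_ne_zero _ hw0),
    v.map_mul (B.χ_ne γ hγ) (zpow_ne_zero _ hY), B.χ_val γ hγ, v.map_zpow hY, v.map_zpow hw0,
    BF.v_w_zero hY hL hw, mul_zero, add_zero]

/-- `χ(γ) = χ'(γ) w^(s γ 0)`. -/
theorem BF.chi_eq {γ : ℝ} (hγ : γ ∈ B.Γ) : B.χ γ = B.chi' Y w s γ * w ^ (s γ 0) := by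
  have h1 := BF.chi'_eq hY hL hw hγ 0
  rw [Int.cast_zero, zero_mul, add_zero, zpow_zero, mul_one] at h1
  rw [h1, mul_assoc, ← zpow_add₀ (BF.w_ne_zero hY hw), neg_add_cancel, zpow_zero, mul_one]

/-- `Y = χ'(v Y) w^(s 0 1)`. -/
theorem BF.Y_eq : Y = B.chi' Y w s (v Y) * w ^ (s 0 1) := by
  have h1 := BF.chi'_eq hY hL hw B.Γ.zero_mem 1
  rw [Int.cast_one, one_mul, zero_add, zpow_one, B.χ_zero, one_mul] at h1
  rw [h1, mul_assoc, ← zpow_add₀ (BF.w_ne_zero hY hw), neg_add_cancel, zpow_zero, mul_one]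

/-- The ring obtained by adjoining `Y`. -/
noncomputable def BF.radj (B : BF k v) (Y w : Ω) (s : ℝ → ℤ → ℤ) : Subalgebra k Ω :=
  locv v (Algebra.adjoin k ((B.R : Set Ω) ∪
    B.chi' Y w s '' {γ | γ ∈ B.Γ ⊔ AddSubgroup.zmultiples (v Y) ∧ 0 ≤ γ} ∪ {w}))

omit hY hL hw in
theorem BF.mem_radj {f : Ω} (hf : f ∈ B.R) : f ∈ B.radj Y w s :=
  le_locv _ (Algebra.subset_adjoin (Or.inl (Or.inl hf)))

omit hY hL hw in
theorem BF.w_mem_radj : w ∈ B.radj Y w s := le_locv _ (Algebra.subset_adjoin (Or.inr rfl))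

omit hY hL hw in
theorem BF.chi'_mem_radj {γ : ℝ} (hγ : γ ∈ B.Γ ⊔ AddSubgroup.zmultiples (v Y)) (h0 : 0 ≤ γ) :
    B.chi' Y w s γ ∈ B.radj Y w s :=
  le_locv _ (Algebra.subset_adjoin (Or.inl (Or.inr ⟨γ, ⟨hγ, h0⟩, rfl⟩)))

omit hL in
theorem BF.wz_mem_radj (hvw : v w = 0) (n : ℤ) : w ^ n ∈ B.radj Y w s := by
  cases n with
  | ofNat n => simpa using (B.radj Y w s).pow_mem BF.w_mem_radj n
  | negSucc n =>
    rw [zpow_negSucc, ← inv_pow]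
    exact (B.radj Y w s).pow_mem (locv_inv BF.w_mem_radj (BF.w_ne_zero hY hw) hvw) _

/-- `Y` is a monomial times a unit of the new ring. -/
theorem BF.Y_mem_radj (hβ : 0 < v Y) : Y ∈ B.radj Y w s := by
  have h1 : B.chi' Y w s (v Y) * w ^ (s 0 1) ∈ B.radj Y w s :=
    (B.radj Y w s).mul_mem (BF.chi'_mem_radj
      (AddSubgroup.mem_sup_right (AddSubgroup.mem_zmultiples _)) hβ.le)
      (BF.wz_mem_radj hY hw (BF.v_w_zero hY hL hw) _)
  rwa [← BF.Y_eq hY hL hw] at h1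

theorem BF.pre_adjoin (h : Ctx k v r) (y' : Ω) (hy0 : y' ≠ 0) (hyv : 0 < v y')
    (hy : y' ∈ B.radj Y w s) :
    Pre v (B.Γ ⊔ AddSubgroup.zmultiples (v Y)) (B.chi' Y w s) y' (B.radj Y w s) :=
  { full := fun g hg => by
      obtain ⟨m, hm, h1⟩ := B.full g hg
      exact ⟨m, hm, AddSubgroup.mem_sup_left h1⟩
    χ_ne := fun γ hγ => BF.chi'_ne hY hL hw hγ
    χ_add := fun γ hγ δ hδ => BF.chi'_add hY hL hw hγ hδ
    χ_val := fun γ hγ => BF.chi'_val hY hL hw hγ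
    y_ne := hy0
    y_pos := hyv
    nonneg := by
      refine locv_nonneg (adjoin_nonneg h ?_)
      rintro f ((hf | ⟨γ, ⟨hγ, h0⟩, rfl⟩) | rfl)
      · exact B.nonneg f hf
      · intro _; rw [BF.chi'_val hY hL hw hγ]; exact h0
      · intro _; exact (BF.v_w_zero hY hL hw).ge
    loc := fun f hf h0 h1 => locv_inv hf h0 h1
    χ_mem := fun γ hγ h0 => BF.chi'_mem_radj hγ h0
    y_mem := hy }

/-- The elements of the old ring are constants plus elements of `MM`. -/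
theorem BF.res_adjoin (h : Ctx k v r) {y' : Ω}
    (H : Pre v (B.Γ ⊔ AddSubgroup.zmultiples (v Y)) (B.chi' Y w s) y' (B.radj Y w s))
    (hyr : ∀ b ∈ B.R, MM (B.Γ ⊔ AddSubgroup.zmultiples (v Y)) (B.chi' Y w s) y'
      (B.radj Y w s) (B.y * b)) {f : Ω} (hf : f ∈ B.R) :
    Pre.Res (B.Γ ⊔ AddSubgroup.zmultiples (v Y)) (B.chi' Y w s) y' (B.radj Y w s) f := by
  obtain ⟨c, hc, hcR⟩ := B.exists_const h hf
  obtain ⟨γ, hγ, h0, a, ha, b, hb, h1⟩ := B.gen _ hcR hc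
  refine ⟨c, ?_⟩
  rw [h1]
  refine H.mm_add ?_ (hyr b hb)
  rw [BF.chi_eq hY hL hw hγ, mul_assoc]
  exact H.mm_χ (AddSubgroup.mem_sup_left hγ) h0 ((B.radj Y w s).mul_mem
    (BF.wz_mem_radj hY hw (BF.v_w_zero hY hL hw) _) (BF.mem_radj ha))

/-- The frame obtained by adjoining `Y`: the monomials `χ'`, the unit `w` and a new last
parameter `y'`. -/
theorem BF.exists_adjoin (h : Ctx k v r) (y' : Ω) (hy0 : y' ≠ 0) (hyv : 0 < v y')
    (hy : y' ∈ B.radj Y w s)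
    (hwr : Pre.Res (B.Γ ⊔ AddSubgroup.zmultiples (v Y)) (B.chi' Y w s) y' (B.radj Y w s) w)
    (hyr : ∀ b ∈ B.R, MM (B.Γ ⊔ AddSubgroup.zmultiples (v Y)) (B.chi' Y w s) y'
      (B.radj Y w s) (B.y * b)) :
    ∃ B' : BF k v, B'.Γ = B.Γ ⊔ AddSubgroup.zmultiples (v Y) ∧ B'.χ = B.chi' Y w s ∧
      B'.y = y' ∧ B'.R = B.radj Y w s := by
  have hw0 : w ≠ 0 := BF.w_ne_zero hY hw
  have hvw : v w = 0 := BF.v_w_zero hY hL hw
  have hΓle : ∀ γ ∈ B.Γ, γ ∈ B.Γ ⊔ AddSubgroup.zmultiples (v Y) :=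
    fun γ hγ => AddSubgroup.mem_sup_left hγ
  have H := BF.pre_adjoin hY hL hw h y' hy0 hyv hy
  have hSres : ∀ f ∈ (B.R : Set Ω) ∪
      B.chi' Y w s '' {γ | γ ∈ B.Γ ⊔ AddSubgroup.zmultiples (v Y) ∧ 0 ≤ γ} ∪ {w},
      Pre.Res (B.Γ ⊔ AddSubgroup.zmultiples (v Y)) (B.chi' Y w s) y' (B.radj Y w s) f := by
    rintro f ((hf | ⟨γ, ⟨hγ, h0⟩, rfl⟩) | rfl)
    · exact BF.res_adjoin hY hL hw h H hyr hf
    · rcases h0.lt_or_eq with h1 | h1
      · have := H.res_of_mm (H.mm_χ hγ h1 (B.radj Y w s).one_mem)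
        rwa [mul_one] at this
      · rw [← h1, H.χ_zero]
        simpa using H.res_const 1
    · exact hwr
  refine ⟨mkBF H (fg_sup _ B.fg _) rfl hSres h.triv ?_ ?_, rfl, rfl, rfl, rfl⟩
  · obtain ⟨F0, hF0⟩ := B.fgen
    classical
    refine ⟨insert w F0, le_antisymm ?_ ?_⟩
    · set T : Set Ω := ((insert w F0 : Finset Ω) : Set Ω) ∪
        B.chi' Y w s '' {γ | γ ∈ B.Γ ⊔ AddSubgroup.zmultiples (v Y) ∧ 0 ≤ γ} with hT
      have hwT : w ∈ locv v (Algebra.adjoin k T) :=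
        le_locv _ (Algebra.subset_adjoin (Or.inl (by simp)))
      have hwzT : ∀ n : ℤ, w ^ n ∈ locv v (Algebra.adjoin k T) := by
        intro n
        cases n with
        | ofNat n => simpa using (locv v (Algebra.adjoin k T)).pow_mem hwT n
        | negSucc n =>
          rw [zpow_negSucc, ← inv_pow]
          exact (locv v (Algebra.adjoin k T)).pow_mem (locv_inv hwT hw0 hvw) _
      have hχT : ∀ γ ∈ B.Γ ⊔ AddSubgroup.zmultiples (v Y), 0 ≤ γ →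
          B.chi' Y w s γ ∈ locv v (Algebra.adjoin k T) := fun γ hγ h0 =>
        le_locv _ (Algebra.subset_adjoin (Or.inr ⟨γ, ⟨hγ, h0⟩, rfl⟩))
      refine locv_adjoin_le ?_
      rintro f ((hf | ⟨γ, ⟨hγ, h0⟩, rfl⟩) | rfl)
      · have h1 : locv v (Algebra.adjoin k ((F0 : Set Ω) ∪ B.χ '' {γ | γ ∈ B.Γ ∧ 0 ≤ γ})) ≤
            locv v (Algebra.adjoin k T) := by
          refine locv_adjoin_le ?_
          rintro f (hf | ⟨γ, ⟨hγ, h0⟩, rfl⟩)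
          · exact le_locv _ (Algebra.subset_adjoin (Or.inl (by
              rw [Finset.coe_insert]; exact Or.inr hf)))
          · rw [BF.chi_eq hY hL hw hγ]
            exact (locv v (Algebra.adjoin k T)).mul_mem (hχT γ (hΓle γ hγ) h0) (hwzT _)
        exact h1 (hF0 ▸ hf)
      · exact hχT γ hγ h0
      · exact hwT
    · refine locv_adjoin_le ?_
      rintro f (hf | ⟨γ, ⟨hγ, h0⟩, rfl⟩)
      · rw [Finset.coe_insert] at hf
        rcases hf with rfl | hf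
        · exact BF.w_mem_radj
        · refine BF.mem_radj ?_
          rw [hF0]
          exact le_locv _ (Algebra.subset_adjoin (Or.inl hf))
      · exact BF.chi'_mem_radj hγ h0
  · intro g
    exact isAlgebraic_of_le (fun f hf => BF.mem_radj hf) (B.alg g)

/-- The field of fractions of the new ring is `E(Y)`. -/
theorem BF.fracIs_radj (hβ : 0 < v Y) {E : IntermediateField k Ω} (hE : FracIs B.R E) :
    FracIs (B.radj Y w s) (adj E Y) := by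
  have hχE : ∀ γ ∈ B.Γ, B.χ γ ∈ E := by
    intro γ hγ
    rcases le_total 0 γ with h0 | h0
    · exact hE.1 _ (B.χ_mem γ hγ h0)
    · have h1 := E.inv_mem (hE.1 _ (B.χ_mem (-γ) (B.Γ.neg_mem hγ) (neg_nonneg.2 h0)))
      rwa [B.χ_neg hγ, inv_inv] at h1
  have hYa : Y ∈ adj E Y := mem_adj E Y
  have hwa : w ∈ adj E Y := by
    have h1 : w = Y ^ q / B.χ (q * v Y) := by
      rw [hw, mul_div_cancel_left₀ _ (B.χ_ne _ hL.q_mem)]
    rw [h1]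
    exact (adj E Y).div_mem (pow_mem hYa q) (le_adj E Y (hχE _ hL.q_mem))
  rw [fracIs_iff]
  refine ⟨locv_field (adjoin_field ?_), adj_le ?_ ?_⟩
  · rintro f ((hf | ⟨γ', ⟨hγ', -⟩, rfl⟩) | rfl)
    · exact le_adj E Y (hE.1 f hf)
    · obtain ⟨γ, hγ, l, rfl⟩ := BF.mem_sup hγ'
      rw [BF.chi'_eq hY hL hw hγ]
      exact (adj E Y).mul_mem ((adj E Y).mul_mem (le_adj E Y (hχE γ hγ))
        (zpow_mem hYa l)) (zpow_mem hwa _)
    · exact hwa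
  · exact (fracIs_iff.1 hE).2.trans (quo_mono fun f hf => BF.mem_radj hf)
  · exact le_quo (BF.Y_mem_radj hY hL hw hβ)

end chi

end Pool.Agent.LU1
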