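import Pool.Agent.Lib.LU1_h15.Basic

/-! # G0: the base field `k(x, y)` is good -/

set_option autoImplicit false

namespace Pool.Agent.LU1

open Pool.Agent.H15JM (RVal)

universe u

variable {k Ω : Type u} [Field k] [Field Ω] [Algebra k Ω] {v : RVal Ω} {r : ℕ}

namespace BaseG0

/-- The value of a monomial. -/
noncomputable def ph (v : RVal Ω) (x : Fin r → Ω) : (Fin r → ℤ) →+ ℝ where
  toFun n := ∑ i, (n i : ℝ) * v (x i)
  map_zero' := by simp
  map_add' n m := by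
    rw [← Finset.sum_add_distrib]
    refine Finset.sum_congr rfl fun i _ => ?_
    rw [Pi.add_apply, Int.cast_add, add_mul]

theorem ph_apply (x : Fin r → Ω) (n : Fin r → ℤ) : ph v x n = ∑ i, (n i : ℝ) * v (x i) := rfl

/-- The monomial. -/
noncomputable def mo (x : Fin r → Ω) (n : Fin r → ℤ) : Ω := ∏ i, x i ^ n i

theorem mo_ne {x : Fin r → Ω} (hx : ∀ i, x i ≠ 0) (n : Fin r → ℤ) : mo x n ≠ 0 :=
  Finset.prod_ne_zero_iff.2 fun i _ => zpow_ne_zero _ (hx i)

theorem mo_add {x : Fin r → Ω} (hx : ∀ i, x i ≠ 0) (n m : Fin r → ℤ) :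
    mo x (n + m) = mo x n * mo x m := by
  rw [mo, mo, mo, ← Finset.prod_mul_distrib]
  exact Finset.prod_congr rfl fun i _ => zpow_add₀ (hx i) _ _

theorem v_mo {x : Fin r → Ω} (hx : ∀ i, x i ≠ 0) (n : Fin r → ℤ) : v (mo x n) = ph v x n := by
  rw [mo, v.map_prod _ _ fun i _ => zpow_ne_zero _ (hx i), ph_apply]
  exact Finset.sum_congr rfl fun i _ => v.map_zpow (hx i) _

theorem ph_inj {x : Fin r → Ω} (hind : LinearIndependent ℚ fun i => v (x i)) :
    Function.Injective (ph v x) := by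
  rw [injective_iff_map_eq_zero]
  intro n hn
  rw [Fintype.linearIndependent_iff] at hind
  have h1 := hind (fun i => (n i : ℚ)) (by
    rw [ph_apply] at hn
    rw [← hn]
    refine Finset.sum_congr rfl fun i _ => ?_
    rw [Rat.smul_def]
    push_cast
    rfl)
  funext i
  have h2 := h1 i
  simpa using h2

theorem ph_single (x : Fin r → Ω) (i : Fin r) : ph v x (Pi.single i 1) = v (x i) := by
  rw [ph_apply, Finset.sum_eq_single i]
  · rw [Pi.single_eq_same, Int.cast_one, one_mul]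
  · intro j _ hj
    rw [Pi.single_eq_of_ne hj, Int.cast_zero, zero_mul]
  · intro h
    exact absurd (Finset.mem_univ i) h

theorem mo_single (x : Fin r → Ω) (i : Fin r) : mo x (Pi.single i 1) = x i := by
  rw [mo, Finset.prod_eq_single i]
  · rw [Pi.single_eq_same, zpow_one]
  · intro j _ hj
    rw [Pi.single_eq_of_ne hj, zpow_zero]
  · intro h
    exact absurd (Finset.mem_univ i) h

/-- The function `χ`. -/
noncomputable def ch (v : RVal Ω) (x : Fin r → Ω) (γ : ℝ) : Ω :=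
  mo x (Function.invFun (ph v x) γ)

theorem ch_ph {x : Fin r → Ω} (hind : LinearIndependent ℚ fun i => v (x i)) (n : Fin r → ℤ) :
    ch v x (ph v x n) = mo x n := by
  rw [ch, Function.leftInverse_invFun (ph_inj hind)]

/-- Values are rational combinations of the values of the `x i`. -/
theorem full (h : Ctx k v r) {x : Fin r → Ω} (hx : ∀ i, x i ≠ 0)
    (hind : LinearIndependent ℚ fun i => v (x i)) (g : Ω) (hg : g ≠ 0) :
    ∃ m : ℕ, 0 < m ∧ (m : ℝ) * v g ∈ (ph v x).range := by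
  classical
  obtain ⟨X, hX0, hXi, hX⟩ := h.rank
  have hle : Submodule.span ℚ (Set.range fun i => v (x i)) ≤
      Submodule.span ℚ (Set.range fun i => v (X i)) := by
    rw [Submodule.span_le]
    rintro _ ⟨i, rfl⟩
    exact hX (x i) (hx i)
  have hfin : FiniteDimensional ℚ (Submodule.span ℚ (Set.range fun i => v (X i))) :=
    FiniteDimensional.span_of_finite ℚ (Set.finite_range _)
  have heq := Submodule.eq_of_le_of_finrank_eq hle (by
    rw [finrank_span_eq_card hind, finrank_span_eq_card hXi])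
  have hmem : v g ∈ Submodule.span ℚ (Set.range fun i => v (x i)) := by
    rw [heq]
    exact hX g hg
  obtain ⟨c, hc⟩ := (Submodule.mem_span_range_iff_exists_fun ℚ).1 hmem
  refine ⟨∏ i, (c i).den, Finset.prod_pos fun i _ => (c i).pos, ?_⟩
  refine ⟨fun i => (c i).num * ∏ j ∈ Finset.univ.erase i, ((c j).den : ℤ), ?_⟩
  rw [ph_apply, ← hc, Finset.mul_sum]
  refine Finset.sum_congr rfl fun i _ => ?_
  rw [Rat.smul_def, ← Finset.mul_prod_erase _ _ (Finset.mem_univ i), ← mul_assoc]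
  congr 1
  have h1 : ((c i).num : ℝ) = (c i : ℝ) * (c i).den := by
    exact_mod_cast (Rat.mul_den_eq_num (c i)).symm
  push_cast
  rw [h1]
  ring

/-- The polynomial ring. -/
noncomputable def SS (k : Type u) {Ω : Type u} [Field k] [Field Ω] [Algebra k Ω] {r : ℕ}
    (v : RVal Ω) (x : Fin r → Ω) (y : Ω) : Subalgebra k Ω :=
  Algebra.adjoin k ({y} ∪ ch v x '' {γ | γ ∈ (ph v x).range ∧ 0 ≤ γ})

variable {x : Fin r → Ω} {y : Ω}

theorem ch_mem {γ : ℝ} (h1 : γ ∈ (ph v x).range) (h2 : 0 ≤ γ) : ch v x γ ∈ SS k v x y :=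
  Algebra.subset_adjoin (Or.inr ⟨γ, ⟨h1, h2⟩, rfl⟩)

theorem y_mem : y ∈ SS k v x y := Algebra.subset_adjoin (Or.inl rfl)

theorem ch_ne (hx : ∀ i, x i ≠ 0) {γ : ℝ} : ch v x γ ≠ 0 := mo_ne hx _

theorem ch_val (hx : ∀ i, x i ≠ 0) (hind : LinearIndependent ℚ fun i => v (x i)) {γ : ℝ}
    (h : γ ∈ (ph v x).range) : v (ch v x γ) = γ := by
  obtain ⟨n, rfl⟩ := h
  rw [ch_ph hind, v_mo hx]

theorem ch_add (hx : ∀ i, x i ≠ 0) (hind : LinearIndependent ℚ fun i => v (x i)) {γ δ : ℝ}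
    (h : γ ∈ (ph v x).range) (h' : δ ∈ (ph v x).range) :
    ch v x (γ + δ) = ch v x γ * ch v x δ := by
  obtain ⟨n, rfl⟩ := h
  obtain ⟨m, rfl⟩ := h'
  rw [← _root_.map_add (ph v x), ch_ph hind, ch_ph hind, ch_ph hind, mo_add hx]

theorem SS_nonneg (h : Ctx k v r) (hx : ∀ i, x i ≠ 0)
    (hind : LinearIndependent ℚ fun i => v (x i)) (hypos : 0 < v y) :
    ∀ f ∈ SS k v x y, v.Ge 0 f := by
  refine adjoin_nonneg h ?_
  rintro f (rfl | ⟨γ, ⟨h1, h2⟩, rfl⟩) _
  · exact hypos.le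
  · rw [ch_val hx hind h1]
    exact h2

/-- The form of the elements of `SS`. -/
theorem SS_form (h : Ctx k v r) (hx : ∀ i, x i ≠ 0) (hpos : ∀ i, 0 < v (x i))
    (hind : LinearIndependent ℚ fun i => v (x i)) (f : Ω) (hf : f ∈ SS k v x y) :
    ∃ c : k, ∃ γ ∈ (ph v x).range, 0 < γ ∧ ∃ a ∈ SS k v x y, ∃ b ∈ SS k v x y,
      f = algebraMap k Ω c + (ch v x γ * a + y * b) := by
  have h00 : (0 : ℝ) ∈ (ph v x).range := ⟨0, _root_.map_zero _⟩
  have hγ0 : v (x ⟨0, h.rpos⟩) ∈ (ph v x).range := ⟨_, ph_single x _⟩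
  have hdvd : ∀ γ ∈ (ph v x).range, ∀ δ ∈ (ph v x).range, δ ≤ γ →
      ∃ a ∈ SS k v x y, ch v x γ = ch v x δ * a := by
    intro γ hγ δ hδ hle
    refine ⟨ch v x (γ - δ), ch_mem (sub_mem hγ hδ) (sub_nonneg.2 hle), ?_⟩
    rw [← ch_add hx hind hδ (sub_mem hγ hδ)]
    congr 1
    ring
  have hsum : ∀ γ ∈ (ph v x).range, ∀ δ ∈ (ph v x).range, 0 < γ → 0 < δ →
      ∀ a ∈ SS k v x y, ∀ b ∈ SS k v x y, ∃ ε ∈ (ph v x).range, 0 < ε ∧ ∃ c ∈ SS k v x y,
      ch v x γ * a + ch v x δ * b = ch v x ε * c := by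
    intro γ hγ δ hδ hγp hδp a ha b hb
    rcases le_total γ δ with hle | hle
    · obtain ⟨e, he, h1⟩ := hdvd δ hδ γ hγ hle
      refine ⟨γ, hγ, hγp, a + e * b, add_mem ha (mul_mem he hb), ?_⟩
      rw [h1]
      ring
    · obtain ⟨e, he, h1⟩ := hdvd γ hγ δ hδ hle
      refine ⟨δ, hδ, hδp, e * a + b, add_mem (mul_mem he ha) hb, ?_⟩
      rw [h1]
      ring
  refine Algebra.adjoin_induction (p := fun f _ => ∃ c : k, ∃ γ ∈ (ph v x).range, 0 < γ ∧
    ∃ a ∈ SS k v x y, ∃ b ∈ SS k v x y,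
      f = algebraMap k Ω c + (ch v x γ * a + y * b)) ?_ ?_ ?_ ?_ hf
  · rintro g (rfl | ⟨γ, ⟨h1, h2⟩, rfl⟩)
    · refine ⟨0, _, hγ0, hpos _, 0, zero_mem _, 1, one_mem _, ?_⟩
      rw [_root_.map_zero, mul_zero, mul_one, zero_add, zero_add]
    · rcases h2.lt_or_eq with h3 | h3
      · refine ⟨0, γ, h1, h3, 1, one_mem _, 0, zero_mem _, ?_⟩
        rw [_root_.map_zero, mul_zero, mul_one, zero_add, add_zero]
      · refine ⟨1, _, hγ0, hpos _, 0, zero_mem _, 0, zero_mem _, ?_⟩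
        rw [← h3, _root_.map_one, mul_zero, mul_zero, add_zero, add_zero]
        have h4 := ch_add (v := v) hx hind h00 h00
        rw [add_zero] at h4
        exact (mul_right_cancel₀ (ch_ne (v := v) hx) (by rw [one_mul]; exact h4)).symm
  · intro c
    refine ⟨c, _, hγ0, hpos _, 0, zero_mem _, 0, zero_mem _, ?_⟩
    rw [mul_zero, mul_zero, add_zero, add_zero]
  · rintro f g _ _ ⟨c, γ, hγ, hγp, a, ha, b, hb, rfl⟩ ⟨c', δ, hδ, hδp, a', ha', b', hb', rfl⟩
    obtain ⟨ε, hε, hεp, e, he, h1⟩ := hsum γ hγ δ hδ hγp hδp a ha a' ha'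
    refine ⟨c + c', ε, hε, hεp, e, he, b + b', add_mem hb hb', ?_⟩
    rw [← h1, _root_.map_add]
    ring
  · rintro f g _ hg ⟨c, γ, hγ, hγp, a, ha, b, hb, rfl⟩ ⟨c', δ, hδ, hδp, a', ha', b', hb', hgeq⟩
    obtain ⟨ε, hε, hεp, e, he, h1⟩ := hsum γ hγ δ hδ hγp hδp (a * g) (mul_mem ha hg)
      (algebraMap k Ω c * a') (mul_mem (algebraMap_mem _ c) ha')
    refine ⟨c * c', ε, hε, hεp, e, he, b * g + algebraMap k Ω c * b',
      add_mem (mul_mem hb hg) (mul_mem (algebraMap_mem _ c) hb'), ?_⟩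
    rw [← h1, _root_.map_mul]
    have h2 : (algebraMap k Ω c + (ch v x γ * a + y * b)) * g =
        algebraMap k Ω c * g + (ch v x γ * a + y * b) * g := by ring
    rw [h2]
    nth_rewrite 1 [hgeq]
    ring

theorem SS_vpos (h : Ctx k v r) (hx : ∀ i, x i ≠ 0)
    (hind : LinearIndependent ℚ fun i => v (x i)) (hypos : 0 < v y)
    {γ : ℝ} (hγ : γ ∈ (ph v x).range) (hγp : 0 < γ) {a b : Ω} (ha : a ∈ SS k v x y)
    (hb : b ∈ SS k v x y) : VPos v (ch v x γ * a + y * b) := by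
  refine VPos.add (VPos.mul ?_ (SS_nonneg h hx hind hypos a ha))
    (VPos.mul (fun _ => hypos) (SS_nonneg h hx hind hypos b hb))
  intro _
  rw [ch_val hx hind hγ]
  exact hγp

theorem x_mem (hpos : ∀ i, 0 < v (x i)) (hind : LinearIndependent ℚ fun i => v (x i))
    (i : Fin r) : x i ∈ SS k v x y := by
  have h1 : ch v x (v (x i)) = x i := by
    rw [← ph_single (v := v) x i, ch_ph hind, mo_single]
  rw [← h1]
  exact ch_mem ⟨_, ph_single x _⟩ (hpos i).le

theorem adjoin_le (hpos : ∀ i, 0 < v (x i)) (hind : LinearIndependent ℚ fun i => v (x i)) :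
    Algebra.adjoin k (Set.range x ∪ {y}) ≤ SS k v x y := by
  refine Algebra.adjoin_le ?_
  rintro f (⟨i, rfl⟩ | rfl)
  · exact x_mem hpos hind i
  · exact y_mem

theorem le_adjoin (E : IntermediateField k Ω) (hxE : ∀ i, x i ∈ E) (hyE : y ∈ E) :
    ∀ f ∈ SS k v x y, f ∈ E := by
  intro f hf
  have h1 : SS k v x y ≤ E.toSubalgebra := by
    refine Algebra.adjoin_le ?_
    rintro f (rfl | ⟨γ, -, rfl⟩)
    · exact hyE
    · change mo x _ ∈ E
      exact prod_mem fun i _ => zpow_mem (hxE i) _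
  exact h1 hf

end BaseG0

open BaseG0

open scoped IntermediateField.algebraAdjoinAdjoin in
theorem BaseG0.alg_down (S : Set Ω) (g : Ω) (h : IsAlgebraic (IntermediateField.adjoin k S) g) :
    IsAlgebraic (Algebra.adjoin k S) g :=
  (IsFractionRing.isAlgebraic_iff (Algebra.adjoin k S) (IntermediateField.adjoin k S) Ω).2 h

/-- `k(x, y)` is good. -/
theorem good_base (h : Ctx k v r) (x : Fin r → Ω) (y : Ω) (hx : ∀ i, x i ≠ 0)
    (hpos : ∀ i, 0 < v (x i)) (hind : LinearIndependent ℚ fun i => v (x i)) (hy : y ≠ 0)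
    (hypos : 0 < v y)
    (halg : ∀ g : Ω, IsAlgebraic (IntermediateField.adjoin k (Set.range x ∪ {y})) g) :
    Good v (IntermediateField.adjoin k (Set.range x ∪ {y})) := by
  have hSn := SS_nonneg h hx hind (y := y) hypos
  refine ⟨{ Γ := (ph v x).range, fg := ?_, full := full h hx hind, χ := ch v x,
            χ_ne := fun γ _ => ch_ne hx, χ_add := fun γ hγ δ hδ => ch_add hx hind hγ hδ,
            χ_val := fun γ hγ => ch_val hx hind hγ, y := y, y_ne := hy, y_pos := hypos,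
            R := locv v (SS k v x y), nonneg := locv_nonneg hSn,
            loc := fun f hf h0 h1 => locv_inv hf h0 h1,
            χ_mem := fun γ hγ h0 => le_locv _ (ch_mem hγ h0), y_mem := le_locv _ y_mem,
            fgen := ⟨{y}, by rw [Finset.coe_singleton]; rfl⟩, gen := ?_, alg := ?_ }, ?_, ?_⟩
  · rw [← AddGroup.fg_iff_addSubgroup_fg]
    infer_instance
  · rintro f ⟨a, ha, b, hb, hb0, hvb, rfl⟩ hfv
    obtain ⟨c, γ, hγ, hγp, a1, ha1, b1, hb1, hfe⟩ := SS_form h hx hpos hind a ha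
    have h1 : VPos v a := by
      intro ha0
      have := hfv (div_ne_zero ha0 hb0)
      rwa [v.map_div ha0 hb0, hvb, sub_zero] at this
    have h2 : c = 0 := by
      refine h.const_eq_zero ?_
      have h3 := h1.sub (SS_vpos h hx hind hypos hγ hγp ha1 hb1)
      rw [hfe, add_sub_cancel_right] at h3
      exact h3
    rw [h2, _root_.map_zero, zero_add] at hfe
    refine ⟨γ, hγ, hγp, a1 / b, ⟨a1, ha1, b, hb, hb0, hvb, rfl⟩, b1 / b,
      ⟨b1, hb1, b, hb, hb0, hvb, rfl⟩, ?_⟩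
    rw [hfe, add_div, mul_div_assoc, mul_div_assoc]
  · intro g
    exact IsAlgebraic.tower_top_of_subalgebra_le
      ((adjoin_le hpos hind).trans (le_locv _)) (BaseG0.alg_down _ g (halg g))
  · rintro f ⟨a, ha, b, hb, hb0, hvb, rfl⟩
    have h1 := le_adjoin (v := v) (IntermediateField.adjoin k (Set.range x ∪ {y}))
      (fun i => IntermediateField.subset_adjoin _ _ (Or.inl ⟨i, rfl⟩))
      (IntermediateField.subset_adjoin _ _ (Or.inr rfl))
    exact div_mem (h1 a ha) (h1 b hb)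
  · intro g hg
    obtain ⟨a, ha, b, hb, rfl⟩ := IntermediateField.mem_adjoin_iff_div.1 hg
    have h2 := (adjoin_le (k := k) (y := y) hpos hind).trans (le_locv (v := v) _)
    by_cases hb0 : b = 0
    · refine ⟨0, zero_mem _, 1, one_mem _, one_ne_zero, ?_⟩
      rw [hb0, div_zero, zero_div]
    · exact ⟨a, h2 ha, b, h2 hb, hb0, rfl⟩

end Pool.Agent.LU1
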