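import Pool.Agent.Lib.LU1_h15.Basic

/-! # B1b: the maximal ideal of a noetherian frame -/

set_option autoImplicit false

open Polynomial

namespace Pool.Agent.LU1

open Pool.Agent.H15JM (RVal)

universe u

variable {k Ω : Type u} [Field k] [Field Ω] [Algebra k Ω] {v : RVal Ω} {r : ℕ}

/-- The maximal ideal of a noetherian frame. -/
noncomputable def NF.m (N : NF k v r) : Ideal N.R :=
  Ideal.span ({z | ∃ i, (z : Ω) = N.x i} ∪ {z | (z : Ω) = N.y})

/-- `e ∈ m^M`. -/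
def NF.InPow (N : NF k v r) (M : ℕ) (e : Ω) : Prop := ∃ z : N.R, z ∈ N.m ^ M ∧ (z : Ω) = e

/-- The elements of `N.R` divisible by `d` in `S`. -/
noncomputable def NF.dvdIdeal (N : NF k v r) (S : Subalgebra k Ω) (hS : N.R ≤ S) (d : Ω) :
    Ideal N.R where
  carrier := {z | ∃ a ∈ S, (z : Ω) = d * a}
  add_mem' := by
    rintro z w ⟨a, ha, hz⟩ ⟨b, hb, hw⟩
    exact ⟨a + b, S.add_mem ha hb, by rw [Subalgebra.coe_add, hz, hw]; ring⟩
  zero_mem' := ⟨0, S.zero_mem, by simp⟩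
  smul_mem' := by
    rintro c z ⟨a, ha, hz⟩
    exact ⟨c * a, S.mul_mem (hS c.2) ha, by rw [smul_eq_mul, Subalgebra.coe_mul, hz]; ring⟩

/-- If a subalgebra contains `N.R` and `ε` divides the parameters in it, then `ε^M` divides the
elements of `m^M`. -/
theorem NF.inPow_dvd (N : NF k v r) (S : Subalgebra k Ω) (hS : N.R ≤ S) (ε : Ω)
    (hx : ∀ i, ∃ a ∈ S, N.x i = ε * a) (hy : ∃ a ∈ S, N.y = ε * a) (M : ℕ) (e : Ω)
    (he : N.InPow M e) : ∃ a ∈ S, e = ε ^ M * a := by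
  have h1 : N.m ≤ N.dvdIdeal S hS ε := by
    refine Ideal.span_le.2 ?_
    rintro z (⟨i, hz⟩ | hz)
    · obtain ⟨a, ha, h⟩ := hx i
      exact ⟨a, ha, hz.trans h⟩
    · obtain ⟨a, ha, h⟩ := hy
      exact ⟨a, ha, hz.trans h⟩
  have h2 : ∀ M, N.m ^ M ≤ N.dvdIdeal S hS (ε ^ M) := by
    intro M
    induction M with
    | zero =>
      intro z _
      exact ⟨z, hS z.2, by simp⟩
    | succ M ih =>
      rw [pow_succ]
      refine Ideal.mul_le.2 fun z hz w hw => ?_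
      obtain ⟨a, ha, hz'⟩ := ih hz
      obtain ⟨b, hb, hw'⟩ := h1 hw
      exact ⟨a * b, S.mul_mem ha hb, by rw [Subalgebra.coe_mul, hz', hw']; ring⟩
  obtain ⟨z, hz, rfl⟩ := he
  exact h2 M hz

/-- `locv v S` is noetherian for a finitely generated algebra `S`. -/
theorem locv_isNoetherian (S : Subalgebra k Ω) (hS : S.FG) : IsNoetherianRing (locv v S) := by
  have : Algebra.FiniteType k S := (Subalgebra.fg_iff_finiteType S).1 hS
  have hN : IsNoetherianRing S := Algebra.FiniteType.isNoetherianRing k S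
  let M : Submonoid S :=
    { carrier := {s | (s : Ω) ≠ 0 ∧ v (s : Ω) = 0}
      mul_mem' := by
        rintro a b ⟨ha, ha'⟩ ⟨hb, hb'⟩
        exact ⟨by rw [Subalgebra.coe_mul]; exact mul_ne_zero ha hb, by
          rw [Subalgebra.coe_mul, v.map_mul ha hb, ha', hb', add_zero]⟩
      one_mem' := ⟨by simp, by simpa using v.map_one⟩ }
  let _ : Algebra S (locv v S) := (Subalgebra.inclusion (le_locv S)).toRingHom.toAlgebra
  have hmap : ∀ s : S, ((algebraMap S (locv v S) s : locv v S) : Ω) = s := fun _ => rfl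
  have hloc : IsLocalization M (locv v S) := by
    refine ⟨?_, ?_, ?_⟩
    · rintro ⟨s, hs, hs'⟩
      refine IsUnit.of_mul_eq_one ⟨(s : Ω)⁻¹, locv_inv (le_locv S s.2) hs hs'⟩ ?_
      apply Subtype.ext
      rw [Subalgebra.coe_mul, hmap]
      exact mul_inv_cancel₀ hs
    · rintro ⟨f, a, ha, b, hb, hb0, hvb, rfl⟩
      refine ⟨(⟨a, ha⟩, ⟨⟨b, hb⟩, hb0, hvb⟩), ?_⟩
      apply Subtype.ext
      rw [Subalgebra.coe_mul, hmap, hmap]
      exact div_mul_cancel₀ a hb0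
    · intro a b hab
      have : a = b := Subtype.ext (congrArg (fun z : locv v S => (z : Ω)) hab)
      exact ⟨1, by rw [this]⟩
  exact IsLocalization.isNoetherianRing M (locv v S) hN

theorem NF.isNoetherian (N : NF k v r) : IsNoetherianRing N.R := by
  obtain ⟨F, hF⟩ := N.fgen
  rw [hF]
  exact locv_isNoetherian _ ⟨F, rfl⟩

theorem NF.inv_mem (N : NF k v r) {f : Ω} (hf : f ∈ N.R) (h0 : f ≠ 0) (h1 : v f = 0) :
    f⁻¹ ∈ N.R := by
  obtain ⟨F, hF⟩ := N.fgen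
  rw [hF] at hf ⊢
  exact locv_inv hf h0 h1

theorem NF.isUnit_of (N : NF k v r) (z : N.R) (h0 : (z : Ω) ≠ 0) (h1 : v (z : Ω) = 0) :
    IsUnit z :=
  IsUnit.of_mul_eq_one ⟨(z : Ω)⁻¹, N.inv_mem z.2 h0 h1⟩ (Subtype.ext (mul_inv_cancel₀ h0))

theorem NF.vpos_of_not_isUnit (N : NF k v r) (z : N.R) (hz : ¬ IsUnit z) : VPos v (z : Ω) := by
  intro h0
  rcases (N.nonneg z z.2 h0).lt_or_eq with h1 | h1
  · exact h1
  · exact absurd (N.isUnit_of z h0 h1.symm) hz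

theorem NF.not_isUnit_of_vpos (N : NF k v r) (z : N.R) (hz : VPos v (z : Ω)) : ¬ IsUnit z := by
  rintro ⟨u, rfl⟩
  have h1 : ((u : N.R) : Ω) * ((u⁻¹ : N.Rˣ) : N.R) = 1 := by
    rw [← Subalgebra.coe_mul, Units.mul_inv, Subalgebra.coe_one]
  have h2 : ((u : N.R) : Ω) ≠ 0 := left_ne_zero_of_mul (h1 ▸ one_ne_zero)
  have h3 : (((u⁻¹ : N.Rˣ) : N.R) : Ω) ≠ 0 := right_ne_zero_of_mul (h1 ▸ one_ne_zero)
  have h4 := v.map_mul h2 h3
  rw [h1, v.map_one] at h4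
  have h5 := hz h2
  have h6 := N.nonneg _ ((u⁻¹ : N.Rˣ) : N.R).2 h3
  linarith

theorem NF.isLocalRing (N : NF k v r) : IsLocalRing N.R := by
  refine IsLocalRing.of_nonunits_add fun a b ha hb => ?_
  apply N.not_isUnit_of_vpos
  rw [Subalgebra.coe_add]
  exact (N.vpos_of_not_isUnit a ha).add (N.vpos_of_not_isUnit b hb)

theorem NF.vpos_of_mem_m (N : NF k v r) (z : N.R) (hz : z ∈ N.m) : VPos v (z : Ω) := by
  unfold NF.m at hz
  induction hz using Submodule.span_induction with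
  | mem x hx =>
    rcases hx with ⟨i, hx⟩ | hx
    · rw [hx]; exact fun _ => N.x_pos i
    · rw [show (x : Ω) = N.y from hx]; exact fun _ => N.y_pos
  | zero => exact VPos.zero
  | add x y _ _ hx hy => rw [Subalgebra.coe_add]; exact hx.add hy
  | smul a x _ hx =>
    rw [smul_eq_mul, Subalgebra.coe_mul]
    exact VPos.mul' (N.nonneg a a.2) hx

theorem NF.mem_m_of_vpos (N : NF k v r) (z : N.R) (hz : VPos v (z : Ω)) : z ∈ N.m := by
  obtain ⟨a, ha, b, hb, h⟩ := N.gen z z.2 hz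
  have h1 : z = ∑ i, (⟨N.x i, N.x_mem i⟩ : N.R) * ⟨a i, ha i⟩ + ⟨N.y, N.y_mem⟩ * ⟨b, hb⟩ := by
    apply Subtype.ext
    rw [Subalgebra.coe_add, Subalgebra.coe_mul, AddSubmonoidClass.coe_finsetSum, h]
    simp
  rw [h1]
  refine Ideal.add_mem _ (Ideal.sum_mem _ fun i _ => Ideal.mul_mem_right _ _ ?_)
    (Ideal.mul_mem_right _ _ ?_)
  · exact Ideal.subset_span (Or.inl ⟨i, rfl⟩)
  · exact Ideal.subset_span (Or.inr rfl)

theorem NF.mem_m_iff (N : NF k v r) (z : N.R) : z ∈ N.m ↔ VPos v (z : Ω) :=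
  ⟨N.vpos_of_mem_m z, N.mem_m_of_vpos z⟩

theorem NF.m_ne_top (N : NF k v r) : N.m ≠ ⊤ := by
  intro h
  have h1 : (1 : N.R) ∈ N.m := by rw [h]; trivial
  have h2 := N.vpos_of_mem_m 1 h1 (by simp)
  rw [Subalgebra.coe_one, v.map_one] at h2
  exact lt_irrefl _ h2

theorem NF.m_eq (N : NF k v r) [IsLocalRing N.R] : N.m = IsLocalRing.maximalIdeal N.R := by
  ext z
  rw [N.mem_m_iff, IsLocalRing.mem_maximalIdeal, mem_nonunits_iff]
  exact ⟨N.not_isUnit_of_vpos z, N.vpos_of_not_isUnit z⟩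

/-- Krull intersection modulo a principal ideal. -/
theorem krull_aux {R : Type*} [CommRing R] [IsNoetherianRing R] [IsLocalRing R] (m : Ideal R)
    (hm : m ≠ ⊤) (a b : R) (hab : ∀ M : ℕ, ∃ z, a - b * z ∈ m ^ M) : ∃ z, a = b * z := by
  have hK := Ideal.iInf_pow_smul_eq_bot_of_isLocalRing (M := R ⧸ Ideal.span {b}) m hm
  have h1 : (Ideal.Quotient.mk (Ideal.span {b}) a) ∈
      (⨅ i : ℕ, m ^ i • (⊤ : Submodule R (R ⧸ Ideal.span {b}))) := by
    rw [Submodule.mem_iInf]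
    intro M
    obtain ⟨z, hz⟩ := hab M
    have h2 : (Ideal.Quotient.mk (Ideal.span {b}) a) =
        (a - b * z) • (1 : R ⧸ Ideal.span {b}) := by
      rw [Algebra.smul_def, mul_one, Ideal.Quotient.algebraMap_eq, Ideal.Quotient.eq]
      exact Ideal.mem_span_singleton'.2 ⟨z, by ring⟩
    rw [h2]
    exact Submodule.smul_mem_smul hz trivial
  rw [hK, Submodule.mem_bot, Ideal.Quotient.eq_zero_iff_mem] at h1
  obtain ⟨z, hz⟩ := Ideal.mem_span_singleton'.1 h1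
  exact ⟨z, by rw [← hz, mul_comm]⟩

/-- Krull: an element of `b R + m^M` for all `M` is in `b R`. -/
theorem NF.krull (N : NF k v r) (a b : Ω) (ha : a ∈ N.R) (hb : b ∈ N.R)
    (hab : ∀ M, ∃ z ∈ N.R, N.InPow M (a - b * z)) : ∃ z ∈ N.R, a = b * z := by
  have := N.isNoetherian
  have := N.isLocalRing
  obtain ⟨z, hz⟩ := krull_aux N.m N.m_ne_top ⟨a, ha⟩ ⟨b, hb⟩ (by
    intro M
    obtain ⟨z, hz, w, hw, hw'⟩ := hab M
    refine ⟨⟨z, hz⟩, ?_⟩
    have h2 : (⟨a, ha⟩ - ⟨b, hb⟩ * ⟨z, hz⟩ : N.R) = w := by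
      apply Subtype.ext
      rw [Subalgebra.coe_sub, Subalgebra.coe_mul, hw']
    rw [h2]
    exact hw)
  exact ⟨z, z.2, congrArg (fun z : N.R => (z : Ω)) hz⟩

end Pool.Agent.LU1
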