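import Pool.Agent.Lib.LU1_h15.Defs

/-! # B0: basic facts about frames -/

set_option autoImplicit false

open Polynomial

namespace Pool.Agent.LU1

open Pool.Agent.H15JM (RVal)

universe u

variable {k Ω : Type u} [Field k] [Field Ω] [Algebra k Ω] {v : RVal Ω} {r : ℕ}

/-! ### valuations -/

theorem VPos.zero : VPos v (0 : Ω) := fun h => absurd rfl h

theorem VPos.ge {f : Ω} (h : VPos v f) : v.Ge 0 f := fun h0 => (h h0).le

theorem VPos.add {f g : Ω} (hf : VPos v f) (hg : VPos v g) : VPos v (f + g) := by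
  intro h
  by_cases h1 : f = 0
  · subst h1; rw [zero_add] at h ⊢; exact hg h
  by_cases h2 : g = 0
  · subst h2; rw [add_zero] at h ⊢; exact hf h
  exact lt_of_lt_of_le (lt_min (hf h1) (hg h2)) (v.map_add h1 h2 h)

theorem VPos.neg {f : Ω} (hf : VPos v f) : VPos v (-f) := by
  intro h
  have h' : f ≠ 0 := by simpa using h
  rw [v.map_neg f h']; exact hf h'

theorem VPos.sub {f g : Ω} (hf : VPos v f) (hg : VPos v g) : VPos v (f - g) := by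
  rw [sub_eq_add_neg]; exact hf.add hg.neg

theorem VPos.mul {f g : Ω} (hf : VPos v f) (hg : v.Ge 0 g) : VPos v (f * g) := by
  intro h
  have h1 := left_ne_zero_of_mul h
  have h2 := right_ne_zero_of_mul h
  rw [v.map_mul h1 h2]
  exact add_pos_of_pos_of_nonneg (hf h1) (hg h2)

theorem VPos.mul' {f g : Ω} (hf : v.Ge 0 f) (hg : VPos v g) : VPos v (f * g) := by
  rw [mul_comm]; exact hg.mul hf

/-- A unit of value `0` plus something of positive value has value `0`. -/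
theorem val_add_vpos {f g : Ω} (hf : f ≠ 0) (hv : v f = 0) (hg : VPos v g) :
    f + g ≠ 0 ∧ v (f + g) = 0 := by
  by_cases h2 : g = 0
  · subst h2; rw [add_zero]; exact ⟨hf, hv⟩
  have := v.add_of_lt hf h2 (by rw [hv]; exact hg h2)
  exact ⟨this.1, this.2.trans hv⟩

theorem Ctx.ge (h : Ctx k v r) (c : k) : v.Ge 0 (algebraMap k Ω c) := by
  intro h0
  have : c ≠ 0 := by rintro rfl; simp at h0
  rw [h.triv c this]

/-- An element of the valuation ring has a residue in `k`. -/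
theorem Ctx.residue (h : Ctx k v r) {f : Ω} (hf : v.Ge 0 f) :
    ∃ c : k, VPos v (f - algebraMap k Ω c) := by
  by_cases h0 : f = 0
  · exact ⟨0, by simp [h0, VPos.zero]⟩
  rcases (hf h0).lt_or_eq with h1 | h1
  · exact ⟨0, by rw [_root_.map_zero, sub_zero]; exact fun _ => h1⟩
  · obtain ⟨c, -, hc⟩ := h.res f h0 h1.symm
    exact ⟨c, hc⟩

theorem Ctx.const_eq_zero (h : Ctx k v r) {c : k} (hc : VPos v (algebraMap k Ω c)) : c = 0 := by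
  by_contra h0
  have := hc (by simpa using h0)
  rw [h.triv c h0] at this
  exact lt_irrefl _ this

/-! ### `locv` -/

theorem mem_locv {S : Subalgebra k Ω} {f : Ω} :
    f ∈ locv v S ↔ ∃ a ∈ S, ∃ b ∈ S, b ≠ 0 ∧ v b = 0 ∧ f = a / b := Iff.rfl

theorem le_locv (S : Subalgebra k Ω) : S ≤ locv v S := by
  intro f hf
  exact ⟨f, hf, 1, S.one_mem, one_ne_zero, v.map_one, by rw [div_one]⟩

theorem locv_mono {S T : Subalgebra k Ω} (h : S ≤ T) : locv v S ≤ locv v T := by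
  rintro f ⟨a, ha, b, hb, h1, h2, rfl⟩
  exact ⟨a, h ha, b, h hb, h1, h2, rfl⟩

theorem locv_le {S R : Subalgebra k Ω} (h : S ≤ R) (hR : ∀ f ∈ R, f ≠ 0 → v f = 0 → f⁻¹ ∈ R) :
    locv v S ≤ R := by
  rintro f ⟨a, ha, b, hb, h1, h2, rfl⟩
  rw [div_eq_mul_inv]
  exact R.mul_mem (h ha) (hR b (h hb) h1 h2)

theorem locv_inv {S : Subalgebra k Ω} {f : Ω} (hf : f ∈ locv v S) (h0 : f ≠ 0) (h1 : v f = 0) :
    f⁻¹ ∈ locv v S := by
  obtain ⟨a, ha, b, hb, hb0, hvb, rfl⟩ := hf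
  have ha0 : a ≠ 0 := by rintro rfl; simp at h0
  refine ⟨b, hb, a, ha, ha0, ?_, by rw [inv_div]⟩
  rw [v.map_div ha0 hb0, hvb, sub_zero] at h1
  exact h1

theorem locv_nonneg {S : Subalgebra k Ω} (hS : ∀ f ∈ S, v.Ge 0 f) :
    ∀ f ∈ locv v S, v.Ge 0 f := by
  rintro f ⟨a, ha, b, hb, h1, h2, rfl⟩ h0
  have ha0 : a ≠ 0 := by rintro rfl; simp at h0
  rw [v.map_div ha0 h1, h2, sub_zero]
  exact hS a ha ha0

theorem adjoin_nonneg (h : Ctx k v r) {S : Set Ω} (hS : ∀ f ∈ S, v.Ge 0 f) :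
    ∀ f ∈ Algebra.adjoin k S, v.Ge 0 f := by
  intro f hf
  induction hf using Algebra.adjoin_induction with
  | mem x hx => exact hS x hx
  | algebraMap c => exact h.ge c
  | add x y _ _ hx hy => exact hx.add hy
  | mul x y _ _ hx hy => simpa using hx.mul hy

/-! ### units and monomials of a big frame -/

namespace BF

variable (B : BF k v)

theorem locv_R : locv v B.R = B.R := le_antisymm (locv_le le_rfl B.loc) (le_locv _)

theorem χ_zero : B.χ 0 = 1 := by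
  have h := B.χ_add 0 B.Γ.zero_mem 0 B.Γ.zero_mem
  rw [add_zero] at h
  exact (mul_right_cancel₀ (B.χ_ne 0 B.Γ.zero_mem) (by rw [one_mul]; exact h)).symm

theorem χ_neg {γ : ℝ} (h : γ ∈ B.Γ) : B.χ (-γ) = (B.χ γ)⁻¹ := by
  have h1 := B.χ_add γ h (-γ) (B.Γ.neg_mem h)
  rw [add_neg_cancel, B.χ_zero] at h1
  exact (inv_eq_of_mul_eq_one_right h1.symm).symm

theorem χ_sub {γ δ : ℝ} (h : γ ∈ B.Γ) (h' : δ ∈ B.Γ) : B.χ (γ - δ) = B.χ γ / B.χ δ := by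
  rw [sub_eq_add_neg, B.χ_add γ h _ (B.Γ.neg_mem h'), B.χ_neg h', div_eq_mul_inv]

theorem χ_nsmul {γ : ℝ} (h : γ ∈ B.Γ) (n : ℕ) : B.χ (n * γ) = B.χ γ ^ n := by
  induction n with
  | zero => simp [B.χ_zero]
  | succ n ih =>
    have h1 : ((n + 1 : ℕ) : ℝ) * γ = n * γ + γ := by push_cast; ring
    have h2 : (n : ℝ) * γ ∈ B.Γ := by
      rw [← nsmul_eq_mul]; exact B.Γ.nsmul_mem h n
    rw [h1, B.χ_add _ h2 _ h, ih, pow_succ]

theorem χ_zsmul {γ : ℝ} (h : γ ∈ B.Γ) (n : ℤ) : B.χ (n * γ) = B.χ γ ^ n := by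
  cases n with
  | ofNat n => simpa using B.χ_nsmul h n
  | negSucc n =>
    have h2 : ((n + 1 : ℕ) : ℝ) * γ ∈ B.Γ := by
      rw [← nsmul_eq_mul]; exact B.Γ.nsmul_mem h _
    have h1 : ((Int.negSucc n : ℤ) : ℝ) * γ = -(((n + 1 : ℕ) : ℝ) * γ) := by
      push_cast; ring
    rw [h1, B.χ_neg h2, B.χ_nsmul h, zpow_negSucc]

theorem un_of {f : Ω} (h : f ∈ B.R) (h0 : f ≠ 0) (h1 : v f = 0) : B.Un f := ⟨h, h0, h1⟩

variable {B}

theorem Un.inv {f : Ω} (h : B.Un f) : B.Un f⁻¹ :=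
  ⟨B.loc f h.1 h.2.1 h.2.2, inv_ne_zero h.2.1, by rw [v.map_inv h.2.1, h.2.2, neg_zero]⟩

theorem Un.mul {f g : Ω} (h : B.Un f) (h' : B.Un g) : B.Un (f * g) :=
  ⟨B.R.mul_mem h.1 h'.1, mul_ne_zero h.2.1 h'.2.1, by
    rw [v.map_mul h.2.1 h'.2.1, h.2.2, h'.2.2, add_zero]⟩

theorem Un.div {f g : Ω} (h : B.Un f) (h' : B.Un g) : B.Un (f / g) := by
  rw [div_eq_mul_inv]; exact h.mul h'.inv

theorem Un.one : B.Un 1 := ⟨B.R.one_mem, one_ne_zero, v.map_one⟩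

theorem Un.pow {f : Ω} (h : B.Un f) (n : ℕ) : B.Un (f ^ n) := by
  induction n with
  | zero => simpa using Un.one
  | succ n ih => rw [pow_succ]; exact ih.mul h

theorem Un.zpow {f : Ω} (h : B.Un f) (n : ℤ) : B.Un (f ^ n) := by
  cases n with
  | ofNat n => simpa using h.pow n
  | negSucc n => rw [zpow_negSucc]; exact (h.pow _).inv

theorem Un.const (h : Ctx k v r) {c : k} (hc : c ≠ 0) : B.Un (algebraMap k Ω c) :=
  ⟨B.R.algebraMap_mem c, by simpa using hc, h.triv c hc⟩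

/-- A unit plus an element of the ring of positive value is a unit. -/
theorem Un.add_vpos {f g : Ω} (h : B.Un f) (hg : g ∈ B.R) (hv : VPos v g) : B.Un (f + g) := by
  have := val_add_vpos h.2.1 h.2.2 hv
  exact ⟨B.R.add_mem h.1 hg, this.1, this.2⟩

variable (B)

/-- `f ∈ R` is a constant plus an element of positive value. -/
theorem exists_const (h : Ctx k v r) {f : Ω} (hf : f ∈ B.R) :
    ∃ c : k, VPos v (f - algebraMap k Ω c) ∧ f - algebraMap k Ω c ∈ B.R := by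
  obtain ⟨c, hc⟩ := h.residue (B.nonneg f hf)
  exact ⟨c, hc, B.R.sub_mem hf (B.R.algebraMap_mem c)⟩

theorem vpos_y : VPos v B.y := fun _ => B.y_pos

theorem vpos_χ {γ : ℝ} (h : γ ∈ B.Γ) (h0 : 0 < γ) : VPos v (B.χ γ) := by
  intro _; rw [B.χ_val γ h]; exact h0

/-- The monomials `χ(γ)`, `γ ≥ δ`, are divisible by `χ(δ)`. -/
theorem χ_dvd {γ δ : ℝ} (h : γ ∈ B.Γ) (h' : δ ∈ B.Γ) (hle : δ ≤ γ) :
    ∃ a ∈ B.R, B.χ γ = B.χ δ * a :=
  ⟨B.χ (γ - δ), B.χ_mem _ (B.Γ.sub_mem h h') (sub_nonneg.2 hle), by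
    rw [← B.χ_add δ h' _ (B.Γ.sub_mem h h')]; congr 1; ring⟩

/-- Sums of elements `χ(γ) a` are again of this form. -/
theorem ideal_add {γ δ : ℝ} (h : γ ∈ B.Γ) (h' : δ ∈ B.Γ) {a b : Ω} (ha : a ∈ B.R)
    (hb : b ∈ B.R) : ∃ c ∈ B.R, B.χ γ * a + B.χ δ * b = B.χ (min γ δ) * c := by
  rcases le_total γ δ with hle | hle
  · obtain ⟨e, he, h1⟩ := B.χ_dvd h' h hle
    refine ⟨a + e * b, B.R.add_mem ha (B.R.mul_mem he hb), ?_⟩
    rw [min_eq_left hle, h1]; ring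
  · obtain ⟨e, he, h1⟩ := B.χ_dvd h h' hle
    refine ⟨e * a + b, B.R.add_mem (B.R.mul_mem he ha) hb, ?_⟩
    rw [min_eq_right hle, h1]; ring

variable {B}

theorem Mono.ne {f : Ω} (h : B.Mono f) : f ≠ 0 := h.1

theorem mono_iff {f : Ω} : B.Mono f ↔ ∃ γ ∈ B.Γ, ∃ u, B.Un u ∧ f = B.χ γ * u := by
  constructor
  · rintro ⟨h0, h1, h2⟩
    exact ⟨v f, h1, _, h2, by rw [mul_div_cancel₀ _ (B.χ_ne _ h1)]⟩
  · rintro ⟨γ, hγ, u, hu, rfl⟩
    have hv : v (B.χ γ * u) = γ := by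
      rw [v.map_mul (B.χ_ne γ hγ) hu.2.1, B.χ_val γ hγ, hu.2.2, add_zero]
    refine ⟨mul_ne_zero (B.χ_ne γ hγ) hu.2.1, by rw [hv]; exact hγ, ?_⟩
    rw [hv, mul_div_cancel_left₀ _ (B.χ_ne γ hγ)]
    exact hu

theorem Mono.mul {f g : Ω} (h : B.Mono f) (h' : B.Mono g) : B.Mono (f * g) := by
  rw [mono_iff] at *
  obtain ⟨γ, hγ, u, hu, rfl⟩ := h
  obtain ⟨δ, hδ, w, hw, rfl⟩ := h'
  exact ⟨γ + δ, B.Γ.add_mem hγ hδ, u * w, hu.mul hw, by rw [B.χ_add γ hγ δ hδ]; ring⟩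

theorem Mono.inv {f : Ω} (h : B.Mono f) : B.Mono f⁻¹ := by
  rw [mono_iff] at *
  obtain ⟨γ, hγ, u, hu, rfl⟩ := h
  exact ⟨-γ, B.Γ.neg_mem hγ, u⁻¹, hu.inv, by rw [B.χ_neg hγ, mul_inv]⟩

theorem Mono.div {f g : Ω} (h : B.Mono f) (h' : B.Mono g) : B.Mono (f / g) := by
  rw [div_eq_mul_inv]; exact h.mul h'.inv

theorem Mono.un {u : Ω} (h : B.Un u) : B.Mono u :=
  mono_iff.2 ⟨0, B.Γ.zero_mem, u, h, by rw [B.χ_zero, one_mul]⟩

theorem Mono.χ {γ : ℝ} (h : γ ∈ B.Γ) : B.Mono (B.χ γ) :=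
  mono_iff.2 ⟨γ, h, 1, Un.one, by rw [mul_one]⟩

theorem Mono.pow {f : Ω} (h : B.Mono f) (n : ℕ) : B.Mono (f ^ n) := by
  induction n with
  | zero => simpa using Mono.un Un.one
  | succ n ih => rw [pow_succ]; exact ih.mul h

theorem Mono.zpow {f : Ω} (h : B.Mono f) (n : ℤ) : B.Mono (f ^ n) := by
  cases n with
  | ofNat n => simpa using h.pow n
  | negSucc n => rw [zpow_negSucc]; exact (h.pow _).inv

theorem Mono.mem {f : Ω} (h : B.Mono f) (h0 : 0 ≤ v f) : f ∈ B.R := by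
  obtain ⟨h1, h2, h3⟩ := h
  have h4 : f = B.χ (v f) * (f / B.χ (v f)) := by rw [mul_div_cancel₀ _ (B.χ_ne _ h2)]
  rw [h4]
  exact B.R.mul_mem (B.χ_mem _ h2 h0) h3.1

end BF

/-! ### extension of frames -/

/-- `B'` contains `B`, with the same field of fractions, and the monomials are compatible. -/
structure Ext (B B' : BF k v) : Prop where
  le : B.R ≤ B'.R
  Γ_le : ∀ γ ∈ B.Γ, γ ∈ B'.Γ
  χ_un : ∀ γ ∈ B.Γ, B'.Un (B.χ γ / B'.χ γ)
  frac : ∀ f ∈ B'.R, ∃ a ∈ B.R, ∃ b ∈ B.R, b ≠ 0 ∧ f = a / b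

theorem Ext.refl (B : BF k v) : Ext B B :=
  ⟨le_rfl, fun _ h => h, fun γ h => by rw [div_self (B.χ_ne γ h)]; exact BF.Un.one,
    fun f hf => ⟨f, hf, 1, B.R.one_mem, one_ne_zero, by rw [div_one]⟩⟩

theorem BF.Un.ext {B B' : BF k v} (h : Ext B B') {f : Ω} (hf : B.Un f) : B'.Un f :=
  ⟨h.le hf.1, hf.2.1, hf.2.2⟩

theorem Ext.trans {B B' B'' : BF k v} (h : Ext B B') (h' : Ext B' B'') : Ext B B'' := by
  refine ⟨h.le.trans h'.le, fun γ hγ => h'.Γ_le γ (h.Γ_le γ hγ), fun γ hγ => ?_, fun f hf => ?_⟩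
  · have h1 := BF.Un.ext h' (h.χ_un γ hγ)
    have h2 := h'.χ_un γ (h.Γ_le γ hγ)
    have h3 := h1.mul h2
    rwa [div_mul_div_cancel₀ (B'.χ_ne γ (h.Γ_le γ hγ))] at h3
  · obtain ⟨a, ha, b, hb, hb0, rfl⟩ := h'.frac f hf
    obtain ⟨a1, ha1, b1, hb1, hb10, rfl⟩ := h.frac a ha
    obtain ⟨a2, ha2, b2, hb2, hb20, rfl⟩ := h.frac b hb
    have ha20 : a2 ≠ 0 := by rintro rfl; simp at hb0
    exact ⟨a1 * b2, B.R.mul_mem ha1 hb2, b1 * a2, B.R.mul_mem hb1 ha2, mul_ne_zero hb10 ha20, by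
      rw [div_div_div_eq]⟩

theorem Ext.mono {B B' : BF k v} (h : Ext B B') {f : Ω} (hf : B.Mono f) : B'.Mono f := by
  rw [BF.mono_iff] at hf
  obtain ⟨γ, hγ, u, hu, rfl⟩ := hf
  refine BF.mono_iff.2 ⟨γ, h.Γ_le γ hγ, (B.χ γ / B'.χ γ) * u, (h.χ_un γ hγ).mul (hu.ext h), ?_⟩
  rw [← mul_assoc, mul_div_cancel₀ _ (B'.χ_ne γ (h.Γ_le γ hγ))]

theorem Ext.fracIs {B B' : BF k v} (h : Ext B B') {E : IntermediateField k Ω}
    (hE : FracIs B.R E) : FracIs B'.R E := by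
  refine ⟨fun f hf => ?_, fun g hg => ?_⟩
  · obtain ⟨a, ha, b, hb, -, rfl⟩ := h.frac f hf
    exact E.div_mem (hE.1 a ha) (hE.1 b hb)
  · obtain ⟨a, ha, b, hb, h0, rfl⟩ := hE.2 g hg
    exact ⟨a, h.le ha, b, h.le hb, h0, rfl⟩

/-! ### T-steps -/

namespace IsTStep

variable {B B' : BF k v} {q : ℕ} {c : k} {s : ℝ → ℤ → ℤ}

theorem w_ne (h : IsTStep B B' q c s) : B.w q ≠ 0 :=
  div_ne_zero (pow_ne_zero _ B.y_ne) (B.χ_ne _ h.q_mem)

theorem v_w (h : IsTStep B B' q c s) : v (B.w q) = 0 := by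
  rw [BF.w, v.map_div (pow_ne_zero _ B.y_ne) (B.χ_ne _ h.q_mem), v.map_pow B.y_ne,
    B.χ_val _ h.q_mem, sub_self]

theorem un_w (h : IsTStep B B' q c s) : B'.Un (B.w q) := by
  refine ⟨?_, h.w_ne, h.v_w⟩
  rw [h.R_eq]
  exact le_locv _ (Algebra.subset_adjoin (Or.inr rfl))

theorem Γ_le (h : IsTStep B B' q c s) {γ : ℝ} (hγ : γ ∈ B.Γ) : γ ∈ B'.Γ := by
  rw [h.Γ_eq]; exact AddSubgroup.mem_sup_left hγ

theorem β_mem (h : IsTStep B B' q c s) : v B.y ∈ B'.Γ := by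
  rw [h.Γ_eq]
  exact AddSubgroup.mem_sup_right (AddSubgroup.mem_zmultiples _)

theorem R_le (h : IsTStep B B' q c s) : B.R ≤ B'.R := by
  intro f hf
  rw [h.R_eq]
  exact le_locv _ (Algebra.subset_adjoin (Or.inl (Or.inl hf)))

/-- `χ(γ) y^l = χ'(γ + l β) w^(s γ l)`. -/
theorem χ_mul (h : IsTStep B B' q c s) {γ : ℝ} (hγ : γ ∈ B.Γ) (l : ℤ) :
    B.χ γ * B.y ^ l = B'.χ (γ + l * v B.y) * (B.w q) ^ (s γ l) := by
  rw [h.χ_eq γ hγ l, mul_assoc, ← zpow_add₀ h.w_ne, neg_add_cancel, zpow_zero, mul_one]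

/-- Every element of `Γ'` is `γ + l β`. -/
theorem mem_Γ' (h : IsTStep B B' q c s) {γ' : ℝ} (hγ' : γ' ∈ B'.Γ) :
    ∃ γ ∈ B.Γ, ∃ l : ℤ, γ' = γ + l * v B.y := by
  rw [h.Γ_eq] at hγ'
  obtain ⟨γ, hγ, z, hz, rfl⟩ := AddSubgroup.mem_sup.1 hγ'
  obtain ⟨l, rfl⟩ := AddSubgroup.mem_zmultiples_iff.1 hz
  exact ⟨γ, hγ, l, by rw [zsmul_eq_mul]⟩

theorem ext (h : IsTStep B B' q c s) : Ext B B' := by
  refine ⟨h.R_le, fun γ hγ => h.Γ_le hγ, fun γ hγ => ?_, fun f hf => ?_⟩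
  · have h1 := h.χ_mul hγ 0
    rw [zpow_zero, mul_one, Int.cast_zero, zero_mul, add_zero] at h1
    rw [h1, mul_div_cancel_left₀ _ (B'.χ_ne γ (h.Γ_le hγ))]
    exact h.un_w.zpow _
  · -- the quotients of elements of `R` form a subfield
    have key : ∀ g ∈ Algebra.adjoin k
        ((B.R : Set Ω) ∪ B'.χ '' {γ | γ ∈ B'.Γ ∧ 0 ≤ γ} ∪ {B.w q}),
        ∃ a ∈ B.R, ∃ b ∈ B.R, b ≠ 0 ∧ g = a / b := by
      -- quotients are closed under multiplication, addition and inverse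
      have hmul : ∀ f g : Ω, (∃ a ∈ B.R, ∃ b ∈ B.R, b ≠ 0 ∧ f = a / b) →
          (∃ a ∈ B.R, ∃ b ∈ B.R, b ≠ 0 ∧ g = a / b) →
          ∃ a ∈ B.R, ∃ b ∈ B.R, b ≠ 0 ∧ f * g = a / b := by
        rintro f g ⟨a, ha, b, hb, hb0, rfl⟩ ⟨c, hc, d, hd, hd0, rfl⟩
        exact ⟨a * c, B.R.mul_mem ha hc, b * d, B.R.mul_mem hb hd, mul_ne_zero hb0 hd0, by
          rw [div_mul_div_comm]⟩
      have hadd : ∀ f g : Ω, (∃ a ∈ B.R, ∃ b ∈ B.R, b ≠ 0 ∧ f = a / b) →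
          (∃ a ∈ B.R, ∃ b ∈ B.R, b ≠ 0 ∧ g = a / b) →
          ∃ a ∈ B.R, ∃ b ∈ B.R, b ≠ 0 ∧ f + g = a / b := by
        rintro f g ⟨a, ha, b, hb, hb0, rfl⟩ ⟨c, hc, d, hd, hd0, rfl⟩
        exact ⟨a * d + b * c, B.R.add_mem (B.R.mul_mem ha hd) (B.R.mul_mem hb hc), b * d,
          B.R.mul_mem hb hd, mul_ne_zero hb0 hd0, by rw [div_add_div _ _ hb0 hd0]⟩
      have hinv : ∀ f : Ω, (∃ a ∈ B.R, ∃ b ∈ B.R, b ≠ 0 ∧ f = a / b) →
          ∃ a ∈ B.R, ∃ b ∈ B.R, b ≠ 0 ∧ f⁻¹ = a / b := by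
        rintro f ⟨a, ha, b, hb, hb0, rfl⟩
        by_cases ha0 : a = 0
        · exact ⟨0, B.R.zero_mem, 1, B.R.one_mem, one_ne_zero, by simp [ha0]⟩
        · exact ⟨b, hb, a, ha, ha0, by rw [inv_div]⟩
      have hR : ∀ f ∈ B.R, ∃ a ∈ B.R, ∃ b ∈ B.R, b ≠ 0 ∧ f = a / b := fun f hf =>
        ⟨f, hf, 1, B.R.one_mem, one_ne_zero, by rw [div_one]⟩
      have hpow : ∀ f : Ω, (∃ a ∈ B.R, ∃ b ∈ B.R, b ≠ 0 ∧ f = a / b) → ∀ n : ℕ,
          ∃ a ∈ B.R, ∃ b ∈ B.R, b ≠ 0 ∧ f ^ n = a / b := by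
        intro f hf n
        induction n with
        | zero => simpa using hR 1 B.R.one_mem
        | succ n ih => rw [pow_succ]; exact hmul _ _ ih hf
      have hzpow : ∀ f : Ω, (∃ a ∈ B.R, ∃ b ∈ B.R, b ≠ 0 ∧ f = a / b) → ∀ n : ℤ,
          ∃ a ∈ B.R, ∃ b ∈ B.R, b ≠ 0 ∧ f ^ n = a / b := by
        intro f hf n
        cases n with
        | ofNat n => simpa using hpow f hf n
        | negSucc n => rw [zpow_negSucc]; exact hinv _ (hpow f hf _)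
      have hχ : ∀ γ ∈ B.Γ, ∃ a ∈ B.R, ∃ b ∈ B.R, b ≠ 0 ∧ B.χ γ = a / b := by
        intro γ hγ
        rcases le_total 0 γ with h0 | h0
        · exact hR _ (B.χ_mem γ hγ h0)
        · have h1 := hinv _ (hR _ (B.χ_mem (-γ) (B.Γ.neg_mem hγ) (neg_nonneg.2 h0)))
          rwa [B.χ_neg hγ, inv_inv] at h1
      have hw : ∃ a ∈ B.R, ∃ b ∈ B.R, b ≠ 0 ∧ B.w q = a / b := by
        rw [BF.w, div_eq_mul_inv]
        exact hmul _ _ (hpow _ (hR _ B.y_mem) q) (hinv _ (hχ _ h.q_mem))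
      intro g hg
      induction hg using Algebra.adjoin_induction with
      | mem x hx =>
        rcases hx with (hx | ⟨γ', ⟨hγ', -⟩, rfl⟩) | rfl
        · exact hR x hx
        · obtain ⟨γ, hγ, l, rfl⟩ := h.mem_Γ' hγ'
          rw [h.χ_eq γ hγ l]
          exact hmul _ _ (hmul _ _ (hχ γ hγ) (hzpow _ (hR _ B.y_mem) l)) (hzpow _ hw _)
        · exact hw
      | algebraMap c => exact hR _ (B.R.algebraMap_mem c)
      | add x y _ _ hx hy => exact hadd _ _ hx hy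
      | mul x y _ _ hx hy => exact hmul _ _ hx hy
    rw [h.R_eq] at hf
    obtain ⟨a, ha, b, hb, hb0, -, rfl⟩ := hf
    obtain ⟨a1, ha1, b1, hb1, hb10, rfl⟩ := key a ha
    obtain ⟨a2, ha2, b2, hb2, hb20, rfl⟩ := key b hb
    have ha20 : a2 ≠ 0 := by rintro rfl; simp at hb0
    exact ⟨a1 * b2, B.R.mul_mem ha1 hb2, b1 * a2, B.R.mul_mem hb1 ha2, mul_ne_zero hb10 ha20, by
      rw [div_div_div_eq]⟩

/-- After a T-step `y` is a monomial. -/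
theorem mono_y (h : IsTStep B B' q c s) : B'.Mono B.y := by
  have h1 := h.χ_mul B.Γ.zero_mem 1
  rw [B.χ_zero, one_mul, zpow_one, Int.cast_one, one_mul, zero_add] at h1
  rw [h1]
  exact (BF.Mono.χ h.β_mem).mul (BF.Mono.un (h.un_w.zpow _))

end IsTStep

theorem TStep.ext {B B' : BF k v} (h : TStep B B') : Ext B B' := by
  obtain ⟨q, c, s, h⟩ := h
  exact h.ext

theorem Reach.ext {B B' : BF k v} (h : Reach B B') : Ext B B' := by
  induction h with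
  | refl => exact Ext.refl B
  | tail _ h2 ih => exact ih.trans h2.ext

end Pool.Agent.LU1
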