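import Pool.Agent.Lib.JM_H15.Basic

/-!
# LU1: definitions (frames of a real valuation of rational rank `n - 1`)

See `lu1_blueprint.md`.  Everything happens in one big field `Ω` with a real valuation `v`.
-/

set_option autoImplicit false

open Polynomial

namespace Pool.Agent.LU1

open Pool.Agent.H15JM (RVal)

universe u

/-! ## The setting -/

section Setting

variable {k Ω : Type u} [Field k] [Field Ω] [Algebra k Ω]

/-- `f` is zero or has positive value. -/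
def VPos (v : RVal Ω) (f : Ω) : Prop := f ≠ 0 → 0 < v f

/-- The standing assumptions on the real valuation `v` of the big field `Ω`: it is trivial on `k`,
has residue field `k`, rational rank `r`, and `Ω` has transcendence degree `r + 1` over `k`. -/
structure Ctx (k : Type u) {Ω : Type u} [Field k] [Field Ω] [Algebra k Ω] (v : RVal Ω)
    (r : ℕ) : Prop where
  triv : ∀ c : k, c ≠ 0 → v (algebraMap k Ω c) = 0
  res : ∀ g : Ω, g ≠ 0 → v g = 0 → ∃ c : k, c ≠ 0 ∧ VPos v (g - algebraMap k Ω c)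
  rpos : 0 < r
  trdeg : Algebra.trdeg k Ω = r + 1
  rank : ∃ X : Fin r → Ω, (∀ i, X i ≠ 0) ∧ LinearIndependent ℚ (fun i => v (X i)) ∧
    ∀ g : Ω, g ≠ 0 → v g ∈ Submodule.span ℚ (Set.range fun i => v (X i))

/-- The quotients `a / b` with `a, b ∈ S`, `v b = 0`. -/
def locv (v : RVal Ω) (S : Subalgebra k Ω) : Subalgebra k Ω where
  carrier := {f | ∃ a ∈ S, ∃ b ∈ S, b ≠ 0 ∧ v b = 0 ∧ f = a / b}
  mul_mem' := by
    rintro f g ⟨a, ha, b, hb, hb0, hvb, rfl⟩ ⟨c, hc, d, hd, hd0, hvd, rfl⟩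
    refine ⟨a * c, S.mul_mem ha hc, b * d, S.mul_mem hb hd, mul_ne_zero hb0 hd0, ?_, ?_⟩
    · rw [v.map_mul hb0 hd0, hvb, hvd, add_zero]
    · rw [div_mul_div_comm]
  add_mem' := by
    rintro f g ⟨a, ha, b, hb, hb0, hvb, rfl⟩ ⟨c, hc, d, hd, hd0, hvd, rfl⟩
    refine ⟨a * d + b * c, S.add_mem (S.mul_mem ha hd) (S.mul_mem hb hc), b * d,
      S.mul_mem hb hd, mul_ne_zero hb0 hd0, ?_, ?_⟩
    · rw [v.map_mul hb0 hd0, hvb, hvd, add_zero]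
    · rw [div_add_div _ _ hb0 hd0]
  algebraMap_mem' := by
    intro c
    exact ⟨algebraMap k Ω c, S.algebraMap_mem c, 1, S.one_mem, one_ne_zero, v.map_one, by
      rw [div_one]⟩

/-- A big frame. `χ` matters only on `Γ`. -/
structure BF (k : Type u) {Ω : Type u} [Field k] [Field Ω] [Algebra k Ω] (v : RVal Ω) where
  /-- the group of exponents -/
  Γ : AddSubgroup ℝ
  fg : Γ.FG
  full : ∀ g : Ω, g ≠ 0 → ∃ m : ℕ, 0 < m ∧ (m : ℝ) * v g ∈ Γ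
  /-- the monomials -/
  χ : ℝ → Ω
  χ_ne : ∀ γ ∈ Γ, χ γ ≠ 0
  χ_add : ∀ γ ∈ Γ, ∀ δ ∈ Γ, χ (γ + δ) = χ γ * χ δ
  χ_val : ∀ γ ∈ Γ, v (χ γ) = γ
  /-- the last parameter -/
  y : Ω
  y_ne : y ≠ 0
  y_pos : 0 < v y
  /-- the ring -/
  R : Subalgebra k Ω
  nonneg : ∀ f ∈ R, v.Ge 0 f
  loc : ∀ f ∈ R, f ≠ 0 → v f = 0 → f⁻¹ ∈ R
  χ_mem : ∀ γ ∈ Γ, 0 ≤ γ → χ γ ∈ R
  y_mem : y ∈ R
  fgen : ∃ F : Finset Ω, R = locv v (Algebra.adjoin k ((F : Set Ω) ∪ χ '' {γ | γ ∈ Γ ∧ 0 ≤ γ}))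
  gen : ∀ f ∈ R, VPos v f → ∃ γ ∈ Γ, 0 < γ ∧ ∃ a ∈ R, ∃ b ∈ R, f = χ γ * a + y * b
  alg : ∀ g : Ω, IsAlgebraic R g

/-- A noetherian frame. -/
structure NF (k : Type u) {Ω : Type u} [Field k] [Field Ω] [Algebra k Ω] (v : RVal Ω)
    (r : ℕ) where
  x : Fin r → Ω
  x_ne : ∀ i, x i ≠ 0
  x_pos : ∀ i, 0 < v (x i)
  x_ind : LinearIndependent ℚ fun i => v (x i)
  y : Ω
  y_ne : y ≠ 0
  y_pos : 0 < v y
  R : Subalgebra k Ω
  nonneg : ∀ f ∈ R, v.Ge 0 f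
  x_mem : ∀ i, x i ∈ R
  y_mem : y ∈ R
  fgen : ∃ F : Finset Ω, R = locv v (Algebra.adjoin k (F : Set Ω))
  gen : ∀ f ∈ R, VPos v f →
    ∃ a : Fin r → Ω, (∀ i, a i ∈ R) ∧ ∃ b ∈ R, f = ∑ i, x i * a i + y * b
  alg : ∀ g : Ω, IsAlgebraic R g

/-- `E` is the field of fractions of `R`. -/
def FracIs (R : Subalgebra k Ω) (E : IntermediateField k Ω) : Prop :=
  (∀ f ∈ R, f ∈ E) ∧ ∀ g ∈ E, ∃ a ∈ R, ∃ b ∈ R, b ≠ 0 ∧ g = a / b

/-- The field `E` has a frame. -/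
def Good (v : RVal Ω) (E : IntermediateField k Ω) : Prop := ∃ B : BF k v, FracIs B.R E

/-- `E(z)`. -/
noncomputable def adj (E : IntermediateField k Ω) (z : Ω) : IntermediateField k Ω :=
  E ⊔ IntermediateField.adjoin k {z}

variable {v : RVal Ω}

/-- `f` is a unit of `B.R`. -/
def BF.Un (B : BF k v) (f : Ω) : Prop := f ∈ B.R ∧ f ≠ 0 ∧ v f = 0

/-- `f = χ(κ) (u y^D + χ(δ) a)`, `u` a unit, `δ > 0`: the content of `f` is `κ`, its order `D`. -/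
def BF.Rep (B : BF k v) (f : Ω) (κ : ℝ) (D : ℕ) : Prop :=
  κ ∈ B.Γ ∧ ∃ u, B.Un u ∧ ∃ δ ∈ B.Γ, 0 < δ ∧ ∃ a ∈ B.R,
    f = B.χ κ * (u * B.y ^ D + B.χ δ * a)

/-- `f` is a monomial times a unit. -/
def BF.Mono (B : BF k v) (f : Ω) : Prop := f ≠ 0 ∧ v f ∈ B.Γ ∧ B.Un (f / B.χ (v f))

/-- The unit `w = y^q / χ(q v(y))` of a T-step. -/
noncomputable def BF.w (B : BF k v) (q : ℕ) : Ω := B.y ^ q / B.χ (q * v B.y)

/-- `B → B'` is a T-step with data `q, c, s`. -/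
structure IsTStep (B B' : BF k v) (q : ℕ) (c : k) (s : ℝ → ℤ → ℤ) : Prop where
  q_pos : 0 < q
  q_mem : (q : ℝ) * v B.y ∈ B.Γ
  q_min : ∀ m : ℕ, 0 < m → (m : ℝ) * v B.y ∈ B.Γ → q ≤ m
  Γ_eq : B'.Γ = B.Γ ⊔ AddSubgroup.zmultiples (v B.y)
  s_add : ∀ γ ∈ B.Γ, ∀ δ ∈ B.Γ, ∀ l m : ℤ, s (γ + δ) (l + m) = s γ l + s δ m
  s_one : s (-((q : ℝ) * v B.y)) q = 1
  c_ne : c ≠ 0
  y_eq : B'.y = B.w q - algebraMap k Ω c
  χ_eq : ∀ γ ∈ B.Γ, ∀ l : ℤ,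
    B'.χ (γ + l * v B.y) = B.χ γ * B.y ^ l * (B.w q) ^ (-(s γ l))
  R_eq : B'.R = locv v (Algebra.adjoin k
    ((B.R : Set Ω) ∪ B'.χ '' {γ | γ ∈ B'.Γ ∧ 0 ≤ γ} ∪ {B.w q}))

/-- One T-step. -/
def TStep (B B' : BF k v) : Prop := ∃ q c s, IsTStep B B' q c s

/-- Finitely many T-steps. -/
def Reach : BF k v → BF k v → Prop := Relation.ReflTransGen TStep

/-- The T0-step by `b`. -/
structure IsT0Step (B B' : BF k v) (b : ℝ) : Prop where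
  b_mem : b ∈ B.Γ
  b_pos : 0 < b
  b_lt : b < v B.y
  Γ_eq : B'.Γ = B.Γ
  χ_eq : B'.χ = B.χ
  y_eq : B'.y = B.y / B.χ b
  R_eq : B'.R = locv v (Algebra.adjoin k ((B.R : Set Ω) ∪ {B.y / B.χ b}))

end Setting

/-! ## Laurent polynomials with real exponents -/

section Laurent

variable {k : Type u} [Field k]

/-- Laurent polynomials with real exponents. -/
abbrev Lau (k : Type u) [Field k] : Type u := AddMonoidAlgebra k ℝ

/-- The monomial `c x^γ`. -/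
noncomputable def mon (γ : ℝ) (c : k) : Lau k := AddMonoidAlgebra.single γ c

/-- The coefficient of `x^γ`. -/
noncomputable def cf (a : Lau k) (γ : ℝ) : k := a.coeff γ

/-- The coefficient of `x^γ Y^l`. -/
noncomputable def co (P : (Lau k)[X]) (γ : ℝ) (l : ℕ) : k := cf (P.coeff l) γ

/-- All exponents of `P` are in `Γ`. -/
def SuppIn (Γ : AddSubgroup ℝ) (P : (Lau k)[X]) : Prop := ∀ γ l, co P γ l ≠ 0 → γ ∈ Γ

/-- `(γ, l)` is not divisible by `p` in `Γ × ℤ`. -/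
def Vis (p : ℕ) (Γ : AddSubgroup ℝ) (γ : ℝ) (l : ℕ) : Prop :=
  ¬ (p ∣ l ∧ ∃ δ ∈ Γ, γ = p * δ)

/-- Everything is visible. -/
def All (_ : ℝ) (_ : ℕ) : Prop := True

/-- `(κ, D)` is the lexicographic minimum of `(γ + l b, l)` over the visible monomials
`x^γ Y^l` of `P`. -/
def IsLD (V : ℝ → ℕ → Prop) (P : (Lau k)[X]) (b κ : ℝ) (D : ℕ) : Prop :=
  (∀ γ l, co P γ l ≠ 0 → V γ l → κ ≤ γ + l * b) ∧
  (∀ γ l, co P γ l ≠ 0 → V γ l → l < D → κ < γ + l * b) ∧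
  co P (κ - D * b) D ≠ 0 ∧ V (κ - D * b) D

/-- The transform of a polynomial under a T-step:
`x^γ Y^l ↦ x^(γ + l β) (c + Y)^(s γ l)`. -/
noncomputable def tpoly (β : ℝ) (c : k) (s : ℝ → ℤ → ℤ) (P : (Lau k)[X]) : (Lau k)[X] :=
  P.sum fun l a => a.coeff.sum fun γ e =>
    C (mon (γ + l * β) e) * (C (mon 0 c) + X) ^ (s γ l).toNat

/-- Multiply the coefficient of `x^γ Y^l` by `a γ`. -/
noncomputable def dG (a : ℝ → k) (P : (Lau k)[X]) : (Lau k)[X] :=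
  P.sum fun l b => C (b.coeff.sum fun γ e => mon γ (a γ * e)) * X ^ l

/-- `∑_{i < s} c_i x^(B_i)`. -/
noncomputable def Ysum (B : ℕ → ℝ) (c : ℕ → k) (s : ℕ) : Lau k :=
  ∑ i ∈ Finset.range s, mon (B i) (c i)

/-- `∑_{s ≤ i < t} c_i x^(β_i)`. -/
noncomputable def xi (β : ℕ → ℝ) (c : ℕ → k) (s t : ℕ) : Lau k :=
  ∑ i ∈ Finset.Ico s t, mon (β i) (c i)

variable {Ω : Type u} [Field Ω] [Algebra k Ω]

/-- Evaluation of a Laurent polynomial. -/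
noncomputable def evL (χ : ℝ → Ω) (a : Lau k) : Ω :=
  a.coeff.sum fun γ c => algebraMap k Ω c * χ γ

/-- Evaluation of a polynomial over the Laurent polynomials. -/
noncomputable def ev (χ : ℝ → Ω) (y : Ω) (P : (Lau k)[X]) : Ω :=
  P.sum fun l a => evL χ a * y ^ l

/-- Evaluation in a frame. -/
noncomputable def BF.ev {v : RVal Ω} (B : BF k v) (P : (Lau k)[X]) : Ω := LU1.ev B.χ B.y P

end Laurent

end Pool.Agent.LU1
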