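import Mathlib

/-! # GT: the chain of subgroups (pure group theory) -/

set_option autoImplicit false

namespace Pool.Agent.LU1

namespace GT

/-- adjoin to `A` an element of the normalizer whose `ℓ`-th power lies in `A` -/
lemma exists_step {G : Type*} [Group G] (A : Subgroup G) (c : G) (ℓ : ℕ) (hℓ : ℓ.Prime)
    (hcA : c ∉ A) (hcl : c ^ ℓ ∈ A) (hc : c ∈ Subgroup.normalizer (A : Set G)) :
    ∃ C : Subgroup G, A ≤ C ∧ c ∈ C ∧ (∀ B : Subgroup G, A ≤ B → c ∈ B → C ≤ B) ∧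
      A.relIndex C = ℓ ∧ (∀ b ∈ C, ∀ x ∈ A, b * x * b⁻¹ ∈ A) ∧ (∀ b ∈ C, b ^ ℓ ∈ A) := by
  have hfact : Fact ℓ.Prime := ⟨hℓ⟩
  have hAN : A ≤ Subgroup.normalizer (A : Set G) := Subgroup.le_normalizer
  let N : Subgroup G := Subgroup.normalizer (A : Set G)
  let A' : Subgroup N := A.subgroupOf N
  have hn : A'.Normal := Subgroup.normal_in_normalizer
  let π : N →* N ⧸ A' := QuotientGroup.mk' A'
  let c' : N := ⟨c, hc⟩
  have hker : ∀ n : N, π n = 1 ↔ (n : G) ∈ A := by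
    intro n
    rw [QuotientGroup.mk'_apply, QuotientGroup.eq_one_iff, Subgroup.mem_subgroupOf]
  have hpow : (π c') ^ ℓ = 1 := by
    rw [← map_pow, hker]
    exact hcl
  have hne : π c' ≠ 1 := by
    rw [Ne, hker]
    exact hcA
  have hord : orderOf (π c') = ℓ := orderOf_eq_prime hpow hne
  let Z : Subgroup (N ⧸ A') := Subgroup.zpowers (π c')
  have hcardZ : Nat.card Z = ℓ := by
    rw [Nat.card_zpowers, hord]
  let C : Subgroup G := (Z.comap π).map N.subtype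
  have hmem : ∀ b, b ∈ C → ∃ n : N, (n : G) = b ∧ ∃ j : ℤ, π n = (π c') ^ j := by
    rintro b ⟨n, hn, rfl⟩
    obtain ⟨j, hj⟩ := Subgroup.mem_zpowers_iff.mp (Subgroup.mem_comap.mp hn)
    exact ⟨n, rfl, j, hj.symm⟩
  refine ⟨C, ?_, ?_, ?_, ?_, ?_, ?_⟩
  · intro x hx
    refine ⟨⟨x, hAN hx⟩, ?_, rfl⟩
    have h1 : π ⟨x, hAN hx⟩ = 1 := (hker _).mpr hx
    exact Subgroup.mem_comap.mpr (h1 ▸ Z.one_mem)
  · exact ⟨c', Subgroup.mem_comap.mpr (Subgroup.mem_zpowers _), rfl⟩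
  · intro B hAB hcB b hb
    obtain ⟨n, rfl, j, hj⟩ := hmem b hb
    have h1 : π (c' ^ (-j) * n) = 1 := by
      rw [map_mul, map_zpow, hj, ← zpow_add, neg_add_cancel, zpow_zero]
    rw [hker] at h1
    have h2 : (n : G) = c ^ j * ((c' ^ (-j) * n : N) : G) := by
      simp only [Subgroup.coe_mul, Subgroup.coe_zpow]
      rw [← mul_assoc, ← zpow_add, add_neg_cancel, zpow_zero, one_mul]
    rw [h2]
    exact B.mul_mem (B.zpow_mem hcB j) (hAB h1)
  · have hA : A = A'.map N.subtype := by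
      rw [Subgroup.subgroupOf_map_subtype]
      exact (inf_eq_left.mpr hAN).symm
    have hA' : A' = (⊥ : Subgroup (N ⧸ A')).comap π := by
      rw [MonoidHom.comap_bot, QuotientGroup.ker_mk']
    calc A.relIndex C = (A'.map N.subtype).relIndex ((Z.comap π).map N.subtype) := by rw [← hA]
      _ = A'.relIndex (Z.comap π) :=
          Subgroup.relIndex_map_map_of_injective _ _ (Subgroup.subtype_injective N)
      _ = ((⊥ : Subgroup (N ⧸ A')).comap π).relIndex (Z.comap π) := by rw [← hA']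
      _ = (⊥ : Subgroup (N ⧸ A')).relIndex ((Z.comap π).map π) := Subgroup.relIndex_comap _ _ _
      _ = (⊥ : Subgroup (N ⧸ A')).relIndex Z := by
          rw [Subgroup.map_comap_eq_self_of_surjective (QuotientGroup.mk'_surjective A')]
      _ = Nat.card Z := Subgroup.relIndex_bot_left _
      _ = ℓ := hcardZ
  · intro b hb x hx
    obtain ⟨n, rfl, -⟩ := hmem b hb
    exact (Subgroup.mem_normalizer_iff.mp n.2 x).mp hx
  · intro b hb
    obtain ⟨n, rfl, j, hj⟩ := hmem b hb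
    have h1 : π (n ^ ℓ) = 1 := by
      rw [map_pow, hj, ← zpow_natCast, ← zpow_mul, mul_comm, zpow_mul, zpow_natCast, hpow,
        one_zpow]
    rw [hker] at h1
    exact h1

/-- one step of the chain -/
def Step {G : Type*} [Group G] (D : Subgroup G) (q : ℕ → Prop) (X Y : Subgroup G) : Prop :=
  X ≤ Y ∧ Y ≤ D ∧ (∀ b ∈ Y, ∀ x ∈ X, b * x * b⁻¹ ∈ X) ∧
    ∃ ℓ : ℕ, ℓ.Prime ∧ q ℓ ∧ X.relIndex Y = ℓ

/-- abelian quotients of order prime to `p` -/
lemma chain_ab {G : Type*} [Group G] [Finite G] (p : ℕ) (hp : p.Prime) (D B : Subgroup G)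
    (hBD : B ≤ D) : ∀ A : Subgroup G, A ≤ B →
      (∀ a ∈ B, ∀ b ∈ B, a * b * a⁻¹ * b⁻¹ ∈ A) → (∀ a ∈ B, a ^ p ∈ A → a ∈ A) →
      Relation.ReflTransGen (Step D (fun ℓ => ℓ ≠ p)) A B := by
  intro A
  induction A using WellFoundedGT.induction with
  | _ A IH =>
  intro hAB hab hpp
  by_cases hEq : A = B
  · rw [hEq]
  have hlt : A < B := lt_of_le_of_ne hAB hEq
  obtain ⟨b, hbB, hbA⟩ := SetLike.exists_of_lt hlt
  -- the order of `b` modulo `A`
  have hex : ∃ m : ℕ, 0 < m ∧ b ^ m ∈ A := ⟨orderOf b, orderOf_pos b, by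
    rw [pow_orderOf_eq_one]; exact A.one_mem⟩
  classical
  let m := Nat.find hex
  have hm : 0 < m ∧ b ^ m ∈ A := Nat.find_spec hex
  have hmin : ∀ j, 0 < j → j < m → b ^ j ∉ A := fun j hj hjm hmem =>
    Nat.find_min hex hjm ⟨hj, hmem⟩
  have hm1 : m ≠ 1 := by
    intro h1
    apply hbA
    have := hm.2
    rwa [h1, pow_one] at this
  have hl : (Nat.minFac m).Prime := Nat.minFac_prime hm1
  obtain ⟨e, he⟩ := Nat.minFac_dvd m
  set ℓ := Nat.minFac m with hℓ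
  have he0 : 0 < e := by
    rcases Nat.eq_zero_or_pos e with h0 | h0
    · rw [h0, mul_zero] at he
      omega
    · exact h0
  have hem : e < m := by
    rw [he]
    have := hl.two_le
    nlinarith
  have hcA : b ^ e ∉ A := hmin e he0 hem
  have hcB : b ^ e ∈ B := B.pow_mem hbB e
  have hcl : (b ^ e) ^ ℓ ∈ A := by
    rw [← pow_mul, mul_comm, ← he]
    exact hm.2
  have hlp : ℓ ≠ p := by
    intro h
    rw [h] at hcl
    exact hcA (hpp _ hcB hcl)
  have hnormal : ∀ g ∈ B, ∀ x ∈ A, g * x * g⁻¹ ∈ A := by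
    intro g hg x hx
    have h1 := A.mul_mem (hab g hg x (hAB hx)) hx
    rwa [inv_mul_cancel_right] at h1
  have hcN : b ^ e ∈ Subgroup.normalizer (A : Set G) := by
    rw [Subgroup.mem_normalizer_iff]
    intro x
    constructor
    · intro hx
      exact hnormal _ hcB x hx
    · intro hx
      have h1 := hnormal _ (B.inv_mem hcB) _ hx
      have h2 : (b ^ e)⁻¹ * (b ^ e * x * (b ^ e)⁻¹) * (b ^ e)⁻¹⁻¹ = x := by group
      rwa [h2] at h1
  obtain ⟨C, hAC, hcC, hCmin, hidx, hnorm, hCl⟩ := exists_step A (b ^ e) ℓ hl hcA hcl hcN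
  have hCB : C ≤ B := hCmin B hAB hcB
  have hACne : A < C := lt_of_le_of_ne hAC (by
    rintro rfl
    exact hcA hcC)
  refine Relation.ReflTransGen.head ⟨hAC, hCB.trans hBD, hnorm, ℓ, hl, hlp, hidx⟩ ?_
  apply IH C hACne hCB
  · intro a ha b' hb'
    exact hAC (hab a ha b' hb')
  · intro a ha hap
    have h1 : (a ^ ℓ) ^ p ∈ A := by
      rw [← pow_mul, mul_comm, pow_mul]
      exact hCl _ hap
    have h2 : a ^ ℓ ∈ A := hpp _ (B.pow_mem ha ℓ) h1
    have hcop : Nat.Coprime p ℓ := (Nat.coprime_primes hp hl).mpr (Ne.symm hlp)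
    have hbez := Nat.gcd_eq_gcd_ab p ℓ
    rw [hcop] at hbez
    have h3 : a = (a ^ p) ^ (Nat.gcdA p ℓ) * (a ^ ℓ) ^ (Nat.gcdB p ℓ) := by
      rw [← zpow_natCast a p, ← zpow_natCast a ℓ, ← zpow_mul, ← zpow_mul, ← zpow_add, ← hbez]
      simp
    rw [h3]
    exact C.mul_mem (C.zpow_mem hap _) (C.zpow_mem (hAC h2) _)

/-- `p`-groups -/
lemma chain_p {G : Type*} [Group G] [Finite G] (p : ℕ) (hp : p.Prime) (D V : Subgroup G)
    (hVD : V ≤ D) (hVp : ∀ x ∈ V, ∃ n : ℕ, x ^ p ^ n = 1) : ∀ A : Subgroup G, A ≤ V →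
      Relation.ReflTransGen (Step D (fun ℓ => ℓ = p)) A V := by
  have hfact : Fact p.Prime := ⟨hp⟩
  have hpg : IsPGroup p V := by
    rintro ⟨x, hx⟩
    obtain ⟨n, hn⟩ := hVp x hx
    exact ⟨n, Subtype.ext hn⟩
  have hnil : Group.IsNilpotent V := hpg.isNilpotent
  have hnc : NormalizerCondition V := Group.normalizerCondition_of_isNilpotent
  intro A
  induction A using WellFoundedGT.induction with
  | _ A IH =>
  intro hAV
  by_cases hEq : A = V
  · rw [hEq]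
  have hlt : A.subgroupOf V < ⊤ := by
    rw [lt_top_iff_ne_top]
    intro h
    exact hEq (le_antisymm hAV (Subgroup.subgroupOf_eq_top.mp h))
  obtain ⟨x, hxN, hxA⟩ := SetLike.exists_of_lt (hnc _ hlt)
  rw [Subgroup.mem_subgroupOf] at hxA
  rw [Subgroup.mem_normalizer_iff] at hxN
  have hxN' : (x : G) ∈ Subgroup.normalizer (A : Set G) := by
    rw [Subgroup.mem_normalizer_iff]
    intro y
    constructor
    · intro hy
      have h1 := (hxN ⟨y, hAV hy⟩).mp hy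
      exact h1
    · intro hy
      have h2 : y ∈ V := by
        have h3 := V.mul_mem (V.mul_mem (V.inv_mem x.2) (hAV hy)) x.2
        have h4 : (x : G)⁻¹ * ((x : G) * y * (x : G)⁻¹) * (x : G) = y := by group
        rwa [h4] at h3
      exact (hxN ⟨y, h2⟩).mpr hy
  have hex : ∃ n : ℕ, (x : G) ^ p ^ n ∈ A := by
    obtain ⟨n, hn⟩ := hVp x x.2
    exact ⟨n, hn ▸ A.one_mem⟩
  classical
  let n := Nat.find hex
  have hn : (x : G) ^ p ^ n ∈ A := Nat.find_spec hex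
  have hn0 : n ≠ 0 := by
    intro h0
    apply hxA
    rwa [h0, pow_zero, pow_one] at hn
  have hn1 : (x : G) ^ p ^ (n - 1) ∉ A := Nat.find_min hex (Nat.sub_lt (Nat.pos_of_ne_zero hn0)
    one_pos)
  have hcl : ((x : G) ^ p ^ (n - 1)) ^ p ∈ A := by
    rw [← pow_mul, ← pow_succ, Nat.sub_add_cancel (Nat.one_le_iff_ne_zero.mpr hn0)]
    exact hn
  have hcN := Subgroup.pow_mem _ hxN' (p ^ (n - 1))
  obtain ⟨C, hAC, hcC, hCmin, hidx, hnorm, -⟩ := exists_step A _ p hp hn1 hcl hcN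
  have hCV : C ≤ V := hCmin V hAV (V.pow_mem x.2 _)
  have hACne : A < C := lt_of_le_of_ne hAC (by
    rintro rfl
    exact hn1 hcC)
  exact Relation.ReflTransGen.head ⟨hAC, hCV.trans hVD, hnorm, p, hp, rfl, hidx⟩
    (IH C hACne hCV)

/-- going down along a chain -/
lemma down {G : Type*} [Group G] {D : Subgroup G} {q : ℕ → Prop} {P : Subgroup G → Prop}
    (h : ∀ X Y, Step D q X Y → P Y → P X) {A B : Subgroup G}
    (hc : Relation.ReflTransGen (Step D q) A B) : P B → P A := by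
  intro hB
  induction hc with
  | refl => exact hB
  | tail _ hs ih => exact ih (h _ _ hs hB)

/-- going up along a chain -/
lemma up {G : Type*} [Group G] {D : Subgroup G} {q : ℕ → Prop} {P : Subgroup G → Prop}
    (h : ∀ X Y, Step D q X Y → P X → P Y) {A B : Subgroup G}
    (hc : Relation.ReflTransGen (Step D q) A B) : P A → P B := by
  intro hA
  induction hc with
  | refl => exact hA
  | tail _ hs ih => exact h _ _ hs ih

end GT

theorem group_chain {G : Type*} [Group G] [Finite G] (p : ℕ) (hp : p.Prime)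
    (D V H : Subgroup G) (hVD : V ≤ D) (hVn : ∀ d ∈ D, ∀ x ∈ V, d * x * d⁻¹ ∈ V)
    (hVp : ∀ x ∈ V, ∃ n : ℕ, x ^ p ^ n = 1)
    (hab : ∀ a ∈ D, ∀ b ∈ D, a * b * a⁻¹ * b⁻¹ ∈ V)
    (hpp : ∀ a ∈ D, a ^ p ∈ V → a ∈ V) (P : Subgroup G → Prop)
    (hea : P ⊤ → P D)
    (hkum : ∀ (A B : Subgroup G) (ℓ : ℕ), ℓ.Prime → ℓ ≠ p → A ≤ B → B ≤ D →
      (∀ b ∈ B, ∀ x ∈ A, b * x * b⁻¹ ∈ A) → A.relIndex B = ℓ → P B → P A)
    (has : ∀ A B : Subgroup G, A ≤ B → B ≤ D →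
      (∀ b ∈ B, ∀ x ∈ A, b * x * b⁻¹ ∈ A) → A.relIndex B = p → P B → P A)
    (htd : ∀ (A B : Subgroup G) (ℓ : ℕ), ℓ.Prime → ℓ ≠ p → A ≤ B → B ≤ D →
      (∀ b ∈ B, ∀ x ∈ A, b * x * b⁻¹ ∈ A) → A.relIndex B = ℓ → P A → P B)
    (hed : P (D ⊓ H) → P H) : P ⊤ → P H := by
  intro htop
  have h1 : P D := hea htop
  have h2 : P V := by
    refine GT.down (D := D) (q := fun ℓ => ℓ ≠ p) ?_ (GT.chain_ab p hp D D le_rfl V hVD hab hpp) h1
    rintro X Y ⟨hXY, hYD, hn, ℓ, hl, hlp, hi⟩ hY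
    exact hkum X Y ℓ hl hlp hXY hYD hn hi hY
  have h3 : P (V ⊓ H) := by
    refine GT.down (D := D) (q := fun ℓ => ℓ = p) ?_
      (GT.chain_p p hp D V hVD hVp (V ⊓ H) inf_le_left) h2
    rintro X Y ⟨hXY, hYD, hn, ℓ, hl, hlp, hi⟩ hY
    subst hlp
    exact has X Y hXY hYD hn hi hY
  have h4 : P (D ⊓ H) := by
    refine GT.up (D := D) (q := fun ℓ => ℓ ≠ p) ?_
      (GT.chain_ab p hp D (D ⊓ H) inf_le_left (V ⊓ H) (inf_le_inf_right H hVD) ?_ ?_) h3
    · rintro X Y ⟨hXY, hYD, hn, ℓ, hl, hlp, hi⟩ hX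
      exact htd X Y ℓ hl hlp hXY hYD hn hi hX
    · rintro a ⟨haD, haH⟩ b ⟨hbD, hbH⟩
      exact ⟨hab a haD b hbD, H.mul_mem (H.mul_mem (H.mul_mem haH hbH) (H.inv_mem haH))
        (H.inv_mem hbH)⟩
    · rintro a ⟨haD, haH⟩ ⟨hapV, -⟩
      exact ⟨hpp a haD hapV, haH⟩
  exact hed h4

end Pool.Agent.LU1
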