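import Pool.Agent.Lib.LU1_h15.GalDefs

/-! # G1: decomposition field, generator -/

set_option autoImplicit false

open Polynomial

namespace Pool.Agent.LU1

open Pool.Agent.H15JM (RVal)

universe u

variable {k Ω : Type u} [Field k] [Field Ω] [Algebra k Ω] {v : RVal Ω} {r : ℕ}

namespace GalThetaAux

open Classical in
/-- The absolute value `exp (- v (σ n))` of `N`. -/
noncomputable def abv (v : RVal Ω) (F : IntermediateField k Ω) (N : IntermediateField F Ω)
    (σ : N ≃ₐ[F] N) : AbsoluteValue N ℝ :=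
  { toFun := fun n => if n = 0 then 0 else Real.exp (-(v (σ n : Ω)))
    map_mul' := by
      intro a b
      by_cases ha : a = 0
      · simp [ha]
      by_cases hb : b = 0
      · simp [hb]
      have ha' : (σ a : Ω) ≠ 0 := by simpa using ha
      have hb' : (σ b : Ω) ≠ 0 := by simpa using hb
      rw [if_neg (mul_ne_zero ha hb), if_neg ha, if_neg hb, ← Real.exp_add]
      congr 1
      rw [_root_.map_mul, MulMemClass.coe_mul, v.map_mul ha' hb']
      ring
    nonneg' := by
      intro a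
      split_ifs
      · exact le_rfl
      · exact (Real.exp_pos _).le
    eq_zero' := by
      intro a
      split_ifs with h
      · simp [h]
      · simp [h, Real.exp_ne_zero]
    add_le' := by
      intro a b
      by_cases ha : a = 0
      · simp [ha]
      by_cases hb : b = 0
      · simp [hb]
      by_cases hab : a + b = 0
      · rw [if_pos hab, if_neg ha, if_neg hb]
        positivity
      have ha' : (σ a : Ω) ≠ 0 := by simpa using ha
      have hb' : (σ b : Ω) ≠ 0 := by simpa using hb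
      have hab' : (σ a : Ω) + (σ b : Ω) ≠ 0 := by
        intro h
        apply hab
        have h1 : σ (a + b) = 0 := by
          apply Subtype.ext
          rw [_root_.map_add]
          exact h
        exact (map_eq_zero_iff σ σ.injective).1 h1
      rw [if_neg hab, if_neg ha, if_neg hb]
      have h1 := v.map_add ha' hb' hab'
      rw [_root_.map_add, AddMemClass.coe_add]
      rcases min_le_iff.1 h1 with h2 | h2
      · have h3 : Real.exp (-(v ((σ a : Ω) + (σ b : Ω)))) ≤ Real.exp (-(v (σ a : Ω))) :=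
          Real.exp_le_exp.2 (neg_le_neg h2)
        exact h3.trans (le_add_of_nonneg_right (Real.exp_pos _).le)
      · have h3 : Real.exp (-(v ((σ a : Ω) + (σ b : Ω)))) ≤ Real.exp (-(v (σ b : Ω))) :=
          Real.exp_le_exp.2 (neg_le_neg h2)
        exact h3.trans (le_add_of_nonneg_left (Real.exp_pos _).le) }

theorem abv_of_ne (F : IntermediateField k Ω) (N : IntermediateField F Ω)
    (σ : N ≃ₐ[F] N) {n : N} (hn : n ≠ 0) : abv v F N σ n = Real.exp (-(v (σ n : Ω))) :=
  if_neg hn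

/-- Equivalent conjugates of `v` are equal. -/
theorem eq_of_isEquiv (F : IntermediateField k Ω) (N : IntermediateField F Ω)
    [FiniteDimensional F N] (n0 : N) (hn0 : n0 ≠ 0) (hv : v (n0 : Ω) ≠ 0) (σ τ : N ≃ₐ[F] N)
    (h : (abv v F N τ).IsEquiv (abv v F N σ)) : ∀ n : N, n ≠ 0 → v (σ n : Ω) = v (τ n : Ω) := by
  obtain ⟨c, hc, h1⟩ := AbsoluteValue.isEquiv_iff_exists_rpow_eq.1 h
  have h2 : ∀ n : N, n ≠ 0 → v (σ n : Ω) = c * v (τ n : Ω) := by
    intro n hn
    have h3 := congrFun h1 n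
    simp only [abv_of_ne F N _ hn] at h3
    rw [← Real.exp_mul] at h3
    have h4 := Real.exp_injective h3
    linarith
  -- iterate
  have h5 : ∀ m : ℕ, ∀ n : N, n ≠ 0 → v (((σ * τ⁻¹) ^ m) n : Ω) = c ^ m * v (n : Ω) := by
    intro m
    induction m with
    | zero => intro n _; simp
    | succ m ih =>
      intro n hn
      have hne : (τ⁻¹ : N ≃ₐ[F] N) n ≠ 0 := by
        intro h0
        apply hn
        have : τ (τ⁻¹ n) = τ 0 := by rw [h0]
        rwa [← AlgEquiv.mul_apply, mul_inv_cancel, AlgEquiv.one_apply, _root_.map_zero] at this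
      have hne2 : (σ * τ⁻¹ : N ≃ₐ[F] N) n ≠ 0 := by
        rw [AlgEquiv.mul_apply]
        simpa using hne
      rw [pow_succ, AlgEquiv.mul_apply, ih _ hne2, AlgEquiv.mul_apply, h2 _ hne,
        ← AlgEquiv.mul_apply, mul_inv_cancel, AlgEquiv.one_apply]
      ring
  have hfin : Finite (N ≃ₐ[F] N) := inferInstance
  have h6 := h5 (orderOf (σ * τ⁻¹)) n0 hn0
  rw [pow_orderOf_eq_one, AlgEquiv.one_apply] at h6
  have h7 : c ^ orderOf (σ * τ⁻¹) = 1 := by
    have h8 : (1 - c ^ orderOf (σ * τ⁻¹)) * v (n0 : Ω) = 0 := by linarith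
    rcases mul_eq_zero.1 h8 with h9 | h9
    · linarith
    · exact absurd h9 hv
  have h8 : c = 1 := by
    have h9 : 0 < orderOf (σ * τ⁻¹) := orderOf_pos _
    exact (pow_eq_one_iff_of_nonneg hc.le h9.ne').1 h7
  intro n hn
  rw [h2 n hn, h8, one_mul]

/-- An element of negative value with all other conjugates of positive value. -/
theorem exists_sep (F : IntermediateField k Ω) (N : IntermediateField F Ω)
    [FiniteDimensional F N] (n0 : N) (hn0 : n0 ≠ 0) (hv : v (n0 : Ω) ≠ 0) :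
    ∃ a : N, a ≠ 0 ∧ v (a : Ω) < 0 ∧ ∀ σ : N ≃ₐ[F] N, σ ∉ decG v F N → 0 < v (σ a : Ω) := by
  have hfin : Finite (N ≃ₐ[F] N) := inferInstance
  let ι := Set.range (abv v F N)
  have hι : Finite ι := Set.finite_range _
  have hnt : ∀ i : ι, (i : AbsoluteValue N ℝ).IsNontrivial := by
    rintro ⟨_, σ, rfl⟩
    refine ⟨σ⁻¹ n0, ?_, ?_⟩
    · intro h0
      apply hn0
      have : σ (σ⁻¹ n0) = σ 0 := by rw [h0]
      rwa [← AlgEquiv.mul_apply, mul_inv_cancel, AlgEquiv.one_apply, _root_.map_zero] at this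
    · show abv v F N σ (σ⁻¹ n0) ≠ 1
      have hne : (σ⁻¹ : N ≃ₐ[F] N) n0 ≠ 0 := by
        intro h0
        apply hn0
        have : σ (σ⁻¹ n0) = σ 0 := by rw [h0]
        rwa [← AlgEquiv.mul_apply, mul_inv_cancel, AlgEquiv.one_apply, _root_.map_zero] at this
      rw [abv_of_ne F N σ hne, ← AlgEquiv.mul_apply, mul_inv_cancel, AlgEquiv.one_apply]
      intro h1
      rw [Real.exp_eq_one_iff] at h1
      exact hv (by linarith)
  have hpw : Pairwise fun i j : ι =>
      ¬ (i : AbsoluteValue N ℝ).IsEquiv (j : AbsoluteValue N ℝ) := by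
    rintro ⟨_, σ, rfl⟩ ⟨_, τ, rfl⟩ hne heq
    apply hne
    apply Subtype.ext
    show abv v F N σ = abv v F N τ
    ext n
    by_cases hn : n = 0
    · rw [hn, AbsoluteValue.map_zero, AbsoluteValue.map_zero]
    · rw [abv_of_ne F N σ hn, abv_of_ne F N τ hn,
        eq_of_isEquiv F N n0 hn0 hv τ σ heq n hn]
  obtain ⟨a, ha1, ha2⟩ := AbsoluteValue.exists_one_lt_lt_one_pi_of_not_isEquiv
    (v := fun i : ι => (i : AbsoluteValue N ℝ)) hnt hpw ⟨_, 1, rfl⟩
  have ha1' : 1 < abv v F N 1 a := ha1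
  have ha0 : a ≠ 0 := by
    rintro rfl
    rw [AbsoluteValue.map_zero] at ha1'
    linarith
  rw [abv_of_ne F N 1 ha0, AlgEquiv.one_apply] at ha1'
  refine ⟨a, ha0, ?_, ?_⟩
  · have := Real.one_lt_exp_iff.1 ha1'
    linarith
  · intro σ hσ
    have h1 : (⟨abv v F N σ, σ, rfl⟩ : ι) ≠ ⟨abv v F N 1, 1, rfl⟩ := by
      intro h
      have h2 : abv v F N σ = abv v F N 1 := congrArg Subtype.val h
      apply hσ
      intro n
      by_cases hn : n = 0
      · rw [hn, _root_.map_zero]
      · have h3 : abv v F N σ n = abv v F N 1 n := by rw [h2]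
        rw [abv_of_ne F N σ hn, abv_of_ne F N 1 hn, AlgEquiv.one_apply] at h3
        have := Real.exp_injective h3
        linarith
    have h2 : abv v F N σ a < 1 := ha2 _ h1
    rw [abv_of_ne F N σ ha0, Real.exp_lt_one_iff] at h2
    linarith

end GalThetaAux

open GalThetaAux

/-- G1: the generator of the decomposition field over the fixed field of `H`. -/
theorem exists_theta (h : Ctx k v r) (F : IntermediateField k Ω) (N : IntermediateField F Ω)
    [FiniteDimensional F N] [IsGalois F N] (H : Subgroup (N ≃ₐ[F] N)) :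
    ∃ θ : N, (∀ σ ∈ decG v F N ⊓ H, σ θ = θ) ∧ VPos v ((θ : Ω) - 1) ∧
      ∀ σ ∈ H, σ ∉ decG v F N → VPos v ((σ θ : N) : Ω) := by
  classical
  by_cases htr : ∀ n : N, n ≠ 0 → v (n : Ω) = 0
  · refine ⟨1, fun σ _ => _root_.map_one σ, ?_, ?_⟩
    · rw [OneMemClass.coe_one, sub_self]; exact VPos.zero
    · intro σ _ hσ
      exfalso
      apply hσ
      intro n
      by_cases hn : n = 0
      · rw [hn, _root_.map_zero]
      · rw [htr n hn, htr (σ n) (by simpa using hn)]
  push Not at htr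
  obtain ⟨n0, hn0, hv0⟩ := htr
  obtain ⟨a, ha0, hva, hσa⟩ := exists_sep F N n0 hn0 hv0
  have ha0' : (a : Ω) ≠ 0 := by simpa using ha0
  -- `α = a / (1 + a)`
  have h1a : (a : Ω) + 1 ≠ 0 ∧ v ((a : Ω) + 1) = v (a : Ω) :=
    v.add_of_lt ha0' one_ne_zero (by rw [v.map_one]; exact hva)
  let α : N := a / (a + 1)
  have hα : (α : Ω) = (a : Ω) / ((a : Ω) + 1) := rfl
  have hα1 : VPos v ((α : Ω) - 1) := by
    have h2 : (α : Ω) - 1 = -((a : Ω) + 1)⁻¹ := by
      rw [hα]; field_simp [h1a.1]; ring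
    rw [h2]
    apply VPos.neg
    intro _
    rw [v.map_inv h1a.1, h1a.2]
    linarith
  have hσα : ∀ σ : N ≃ₐ[F] N, σ ∉ decG v F N → VPos v (σ α : Ω) := by
    intro σ hσ
    have h3 : (σ α : Ω) = (σ a : Ω) * ((σ a : Ω) + 1)⁻¹ := by
      show ((σ (a / (a + 1)) : N) : Ω) = _
      rw [map_div₀, _root_.map_add, _root_.map_one, div_eq_mul_inv]
      rfl
    have h4 : VPos v (σ a : Ω) := fun _ => hσa σ hσ
    have h5 := val_add_vpos (one_ne_zero (α := Ω)) v.map_one h4
    rw [add_comm] at h5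
    rw [h3]
    apply h4.mul
    intro _
    rw [v.map_inv h5.1, h5.2, neg_zero]
  have hDα : ∀ σ : N ≃ₐ[F] N, σ ∈ decG v F N → VPos v ((σ α : Ω) - 1) := by
    intro σ hσ h6
    have h7 : ((σ α : Ω) - 1) = (σ (α - 1) : Ω) := by
      rw [_root_.map_sub, _root_.map_one]; rfl
    rw [h7] at h6 ⊢
    rw [hσ (α - 1)]
    have h8 : ((α - 1 : N) : Ω) = (α : Ω) - 1 := rfl
    rw [h8]
    apply hα1
    rw [← h8]
    intro h9
    have h10 : (α - 1 : N) = 0 := Subtype.ext h9
    rw [h10, _root_.map_zero] at h6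
    exact h6 rfl
  have hfin : Finite (N ≃ₐ[F] N) := inferInstance
  have hft : Fintype (decG v F N) := Fintype.ofFinite _
  have hprod : ∀ s : Finset (decG v F N),
      VPos v (((∏ τ ∈ s, (τ : N ≃ₐ[F] N) α : N) : Ω) - 1) := by
    intro s
    induction s using Finset.induction_on with
    | empty =>
      rw [Finset.prod_empty, OneMemClass.coe_one, sub_self]; exact VPos.zero
    | insert τ s hτ ih =>
      rw [Finset.prod_insert hτ]
      have h11 : (((τ : N ≃ₐ[F] N) α * ∏ τ ∈ s, (τ : N ≃ₐ[F] N) α : N) : Ω) - 1 =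
          ((((τ : N ≃ₐ[F] N) α : N) : Ω) - 1) *
            ((∏ τ ∈ s, (τ : N ≃ₐ[F] N) α : N) : Ω) +
          (((∏ τ ∈ s, (τ : N ≃ₐ[F] N) α : N) : Ω) - 1) := by
        rw [MulMemClass.coe_mul]; ring
      rw [h11]
      refine ((hDα τ τ.2).mul ?_).add ih
      have h12 : ((∏ τ ∈ s, (τ : N ≃ₐ[F] N) α : N) : Ω) =
          (((∏ τ ∈ s, (τ : N ≃ₐ[F] N) α : N) : Ω) - 1) + 1 := by ring
      rw [h12]
      exact ih.ge.add fun _ => by rw [v.map_one]
  refine ⟨∏ τ : decG v F N, (τ : N ≃ₐ[F] N) α, ?_, hprod _, ?_⟩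
  · intro σ hσ
    have hσD : σ ∈ decG v F N := (Subgroup.mem_inf.1 hσ).1
    rw [_root_.map_prod]
    refine Fintype.prod_equiv (Equiv.mulLeft (⟨σ, hσD⟩ : decG v F N)) _ _ ?_
    intro τ
    rfl
  · intro σ _ hσ
    rw [_root_.map_prod]
    have h13 : ∀ τ : decG v F N, σ * (τ : N ≃ₐ[F] N) ∉ decG v F N := by
      intro τ h14
      apply hσ
      have h15 := (decG v F N).mul_mem h14 ((decG v F N).inv_mem τ.2)
      rwa [mul_inv_cancel_right] at h15
    have h16 : ∀ s : Finset (decG v F N), s.Nonempty →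
        VPos v ((∏ τ ∈ s, σ ((τ : N ≃ₐ[F] N) α) : N) : Ω) := by
      intro s hs
      induction hs using Finset.Nonempty.cons_induction with
      | singleton τ =>
        rw [Finset.prod_singleton]
        exact hσα _ (h13 τ)
      | cons τ s hτ hs ih =>
        rw [Finset.prod_cons, MulMemClass.coe_mul]
        exact (hσα _ (h13 τ)).mul ih.ge
    exact h16 _ Finset.univ_nonempty

end Pool.Agent.LU1
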