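import Pool.Agent.Lib.LU1_h15.ASChain

/-! # R4: cleaning of a polynomial Artin-Schreier class -/

set_option autoImplicit false

open Polynomial

namespace Pool.Agent.LU1

open Pool.Agent.H15JM (RVal)

universe u

variable {k Ω : Type u} [Field k] [Field Ω] [Algebra k Ω] {v : RVal Ω} {r : ℕ}

/-- The invariant of phase 1. -/
structure Inv (p : ℕ) (B0 : BF k v) (E : IntermediateField k Ω) (f : Ω) (B : BF k v)
    (P : (Lau k)[X]) : Prop where
  reach : Reach B0 B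
  supp : SuppIn B.Γ P
  red : ∀ γ l, co P γ l ≠ 0 → γ < 0 ∧ Vis p B.Γ γ l
  cls : ∃ g ∈ E, f - (g ^ p - g) - B.ev P ∈ B.R

theorem omega_add_pow (p : ℕ) (hp : p.Prime) [CharP k p] (a b : Ω) :
    (a + b) ^ p = a ^ p + b ^ p := by
  have : Fact p.Prime := ⟨hp⟩
  have : CharP Ω p := charP_of_injective_algebraMap (algebraMap k Ω).injective p
  exact add_pow_char (p := p) a b

/-- Reduction of the polynomial of a class. -/
theorem inv_reduce (p : ℕ) (hp : p.Prime) [CharP k p] [IsAlgClosed k] {B0 B : BF k v}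
    {E : IntermediateField k Ω} (hE : FracIs B.R E) {f : Ω} (hr : Reach B0 B)
    {P : (Lau k)[X]} (hcls : ∃ g ∈ E, f - (g ^ p - g) - B.ev P ∈ B.R)
    {G H R : (Lau k)[X]} (hG : SuppIn B.Γ G) (hH : SuppIn B.Γ H) (hR : SuppIn B.Γ R)
    (heq : P = G + (H ^ p - H) + R) (hred : ∀ γ l, co G γ l ≠ 0 → γ < 0 ∧ Vis p B.Γ γ l)
    (hR0 : ∀ γ l, co R γ l ≠ 0 → 0 ≤ γ) : Inv p B0 E f B G := by
  obtain ⟨g, hg, hfg⟩ := hcls
  refine ⟨hr, hG, hred, g + B.ev H, E.add_mem hg (B.ev_mem_E hE hH), ?_⟩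
  obtain ⟨a, ha, hae⟩ := B.ev_mem hR B.Γ.zero_mem hR0
  rw [B.χ_zero, one_mul] at hae
  have h1 : B.ev P = B.ev G + (B.ev H ^ p - B.ev H) + a := by
    rw [heq, B.ev_add, B.ev_add, B.ev_sub, B.ev_pow hH, hae]
  have h2 : f - ((g + B.ev H) ^ p - (g + B.ev H)) - B.ev G =
      (f - (g ^ p - g) - B.ev P) + a := by
    rw [omega_add_pow (k := k) p hp, h1]; ring
  rw [h2]
  exact B.R.add_mem hfg ha

theorem IsLD.to_all {p : ℕ} {Γ : AddSubgroup ℝ} {P : (Lau k)[X]}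
    (hred : ∀ γ l, co P γ l ≠ 0 → γ < 0 ∧ Vis p Γ γ l) {b κ : ℝ} {D : ℕ}
    (h : IsLD (Vis p Γ) P b κ D) : IsLD All P b κ D :=
  ⟨fun γ l h0 _ => h.1 γ l h0 (hred γ l h0).2, fun γ l h0 _ hl => h.2.1 γ l h0 (hred γ l h0).2 hl,
    h.2.2.1, trivial⟩

/-- Order at most one: the class is clean. -/
theorem Inv.clean (h : Ctx k v r) {p : ℕ} {B0 B : BF k v} {E : IntermediateField k Ω} {f : Ω}
    {P : (Lau k)[X]} (hI : Inv p B0 E f B P)
    (hD : P = 0 ∨ ∃ κ D, IsLD (Vis p B.Γ) P 0 κ D ∧ D ≤ 1) : CleanAS p B E f := by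
  obtain ⟨g, hg, hfg⟩ := hI.cls
  refine ⟨g, hg, ?_⟩
  rcases hD with rfl | ⟨κ, D, hLD, hD⟩
  · left
    rwa [B.ev_zero, sub_zero] at hfg
  · right
    have hco : co P κ D ≠ 0 := by
      have := hLD.2.2.1
      rwa [mul_zero, sub_zero] at this
    have hvis : Vis p B.Γ κ D := by
      have := hLD.2.2.2
      rwa [mul_zero, sub_zero] at this
    have hκ0 : κ < 0 := (hI.red _ _ hco).1
    have hκΓ : κ ∈ B.Γ := hI.supp _ _ hco
    have hrep := B.rep_ev h hI.supp (hLD.to_all hI.red)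
    have hrep2 := hrep.add_mem B.Γ.zero_mem hκ0 hfg
    rw [B.χ_zero, one_mul, add_sub_cancel] at hrep2
    obtain ⟨-, u, hu, δ, hδ, hδ0, a, ha, hfe⟩ := hrep2
    rcases Nat.le_one_iff_eq_zero_or_eq_one.1 hD with rfl | rfl
    · left
      refine ⟨κ, hκΓ, hκ0, fun hex => hvis ⟨dvd_zero _, hex⟩, u + B.χ δ * a,
        hu.add_vpos (B.R.mul_mem (B.χ_mem _ hδ hδ0.le) ha)
          ((B.vpos_χ hδ hδ0).mul (B.nonneg a ha)), ?_⟩
      rw [hfe, pow_zero, mul_one]
    · right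
      have hyt : B.Rep (u * B.y ^ 1 + B.χ δ * a) 0 1 :=
        ⟨B.Γ.zero_mem, u, hu, δ, hδ, hδ0, a, ha, by rw [B.χ_zero, one_mul]⟩
      by_cases hb : ∃ b ∈ B.Γ, κ = p * b
      · left
        obtain ⟨b, hb, rfl⟩ := hb
        refine ⟨b, hb, ?_, _, hyt, hfe⟩
        by_contra hcon
        push Not at hcon
        exact absurd (mul_nonneg (Nat.cast_nonneg p) hcon) (not_le.2 hκ0)
      · right
        exact ⟨κ, hκΓ, hκ0, hb, _, hyt, hfe⟩

/-- The data of a step which does not decrease the order. -/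
structure Keep (p : ℕ) (B B' : BF k v) (P P' : (Lau k)[X]) (c : k) (κ κ' : ℝ) (D : ℕ) :
    Prop where
  y_mem : v B.y ∈ B.Γ
  Γ_eq : B'.Γ = B.Γ
  c_ne : c ≠ 0
  κ_eq : κ' = κ + D * v B.y
  ge : ∀ γ l, co P γ l ≠ 0 → κ' ≤ γ + l * v B.y
  deg : P'.natDegree ≤ P.natDegree
  rel : ∃ H R : (Lau k)[X], SuppIn B.Γ H ∧ SuppIn B.Γ R ∧ H.natDegree ≤ P.natDegree ∧
    (∀ γ l, co R γ l ≠ 0 → 0 ≤ γ) ∧
    P.comp (C (mon (v B.y) 1) * (C (mon 0 c) + X)) = P' + (H ^ p - H) + R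

/-- One step of phase 1. -/
theorem Inv.step (p : ℕ) (hp : p.Prime) [CharP k p] [IsAlgClosed k] (h : Ctx k v r)
    {B0 B : BF k v} {E : IntermediateField k Ω} (hE : FracIs B.R E) {f : Ω}
    {P : (Lau k)[X]} (hI : Inv p B0 E f B P) {κ : ℝ} {D : ℕ} (hLD : IsLD (Vis p B.Γ) P 0 κ D)
    (hD : 2 ≤ D) :
    ∃ (B' : BF k v) (P' : (Lau k)[X]), Ext B B' ∧ Inv p B0 E f B' P' ∧
      (P' = 0 ∨ ∃ κ' D', IsLD (Vis p B'.Γ) P' 0 κ' D' ∧ D' ≤ D ∧
        (D' = D → ∃ c, Keep p B B' P P' c κ κ' D)) := by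
  obtain ⟨B', q, c, s, hT, hq, hA, hA2, hA3⟩ := B.exists_step h hI.supp
  set V : ℝ → ℕ → Prop := fun γ l => γ + l * v B.y < 0 with hV
  set A := pf V P with hAdef
  have hAsupp : SuppIn B.Γ A := hI.supp.pf V
  have hβ := B.y_pos
  obtain ⟨G, H, R, hG, hH, hR, heq, hred, hR0, hHd, hGd, hκ⟩ :=
    as_reduce p hp B'.Γ B'.fg (tpoly (v B.y) c s A) hA2
  have hE' : FracIs B'.R E := hT.ext.fracIs hE
  have hcls : ∃ g ∈ E, f - (g ^ p - g) - B'.ev (tpoly (v B.y) c s A) ∈ B'.R := by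
    obtain ⟨g, hg, hfg⟩ := hI.cls
    refine ⟨g, hg, ?_⟩
    have : f - (g ^ p - g) - B'.ev (tpoly (v B.y) c s A) =
        (f - (g ^ p - g) - B.ev P) + (B.ev P - B'.ev (tpoly (v B.y) c s A)) := by ring
    rw [this]
    exact B'.R.add_mem (hT.ext.le hfg) hA3
  have hInv : Inv p B0 E f B' G :=
    inv_reduce p hp hE' (hI.reach.tail ⟨q, c, s, hT⟩) hcls hG hH hR heq hred hR0
  refine ⟨B', G, hT.ext, hInv, ?_⟩
  by_cases hA0 : A = 0
  · left
    by_contra hG0
    obtain ⟨γ, l, hγ⟩ := exists_co_ne hG0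
    have hγ0 := (hred γ l hγ).1
    have hzero : tpoly (v B.y) c s A = 0 := by
      rw [hA0]
      simp [tpoly]
    have h1 := (hκ (γ / 2) (by linarith) (fun γ' l' h0 => by
      rw [hzero, co_zero] at h0
      exact absurd rfl h0)).1 γ l hγ
    linarith
  · right
    have hAred : ∀ γ l, co A γ l ≠ 0 → γ + l * v B.y < 0 ∧ co P γ l ≠ 0 := fun γ l h0 =>
      co_pf_ne h0
    have hAvis : ∀ γ l, co A γ l ≠ 0 → Vis p B.Γ γ l := fun γ l h0 =>
      (hI.red γ l (hAred γ l h0).2).2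
    obtain ⟨κ1, D1, hLD1⟩ := exists_IsLD (Vis p B.Γ) A 0 (by
      obtain ⟨γ, l, h0⟩ := exists_co_ne hA0
      exact ⟨γ, l, h0, hAvis γ l h0⟩)
    have hco1 : co A κ1 D1 ≠ 0 := by
      have := hLD1.2.2.1
      rwa [mul_zero, sub_zero] at this
    have hneg1 : κ1 + D1 * v B.y < 0 := (hAred _ _ hco1).1
    have hκ1 : κ ≤ κ1 := by
      have h1 := (hAred _ _ hco1).2
      have := hLD.1 _ _ h1 (hI.red _ _ h1).2
      rwa [mul_zero, add_zero] at this
    have hcase : (κ1 = κ ∧ D1 = D) ∨ D1 < D := by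
      rcases lt_or_ge (κ + D * v B.y) 0 with h1 | h1
      · left
        have h2 : IsLD (Vis p B.Γ) A 0 κ D := by
          refine ⟨fun γ l h0 hv => hLD.1 γ l (hAred γ l h0).2 hv,
            fun γ l h0 hv hl => hLD.2.1 γ l (hAred γ l h0).2 hv hl, ?_, hLD.2.2.2⟩
          have h3 := hLD.2.2.1
          rw [mul_zero, sub_zero] at h3 ⊢
          rw [hAdef, co_pf_of (show V κ D from h1)]
          exact h3
        exact hLD1.unique h2
      · right
        by_contra hcon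
        push Not at hcon
        have h2 : (D : ℝ) * v B.y ≤ D1 * v B.y :=
          mul_le_mul_of_nonneg_right (by exact_mod_cast hcon) hβ.le
        linarith
    have hD1 : D1 ≤ D := by
      rcases hcase with ⟨-, h1⟩ | h1
      · exact h1.le
      · exact h1.le
    obtain ⟨κ', D', hLD', hmin, hκ'1, hD'1, hq2, -, hκ'2⟩ := DD_vis p hp hT.latData hT.c_ne
      hAsupp (fun γ l h0 _ _ => hA γ l h0) hLD1
    have hκ'neg : κ' < 0 := lt_of_le_of_lt hκ'1 hneg1
    have hmin' : ∀ γ l, co A γ l ≠ 0 → κ' ≤ γ + l * v B.y := fun γ l h0 =>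
      hmin γ l h0 (hAvis γ l h0)
    obtain ⟨-, hLDG⟩ := hκ κ' hκ'neg (tpoly_ge hmin')
    have hLDG' : IsLD (Vis p B'.Γ) G 0 κ' D' := by
      apply hLDG
      rw [hT.Γ_eq]
      exact hLD'
    have hD'D : D' ≤ D := hD'1.trans (max_le hD1 (by omega))
    refine ⟨κ', D', hLDG', hD'D, fun hDD => ?_⟩
    -- the order is the same
    have hD1D : D1 = D := by
      have : D' ≤ D1 ∨ D' ≤ 1 := le_max_iff.1 hD'1
      omega
    have hκ1κ : κ1 = κ := by
      rcases hcase with h1 | h1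
      · exact h1.1
      · omega
    have hq1 : q = 1 := by
      have h1 := hT.q_pos
      by_contra hcon
      have := hq2 (by omega) (by omega)
      omega
    have hyΓ : v B.y ∈ B.Γ := by
      have := hT.q_mem
      rw [hq1, Nat.cast_one, one_mul] at this
      exact this
    have hΓ : B'.Γ = B.Γ := by rw [hT.Γ_eq, sup_zmultiples_eq hyΓ]
    have hsl : ∀ γ l, co A γ l ≠ 0 → s γ l = l := fun γ l h0 => hq hq1 γ (hAsupp γ l h0) l
    have htp : tpoly (v B.y) c s A = A.comp (C (mon (v B.y) 1) * (C (mon 0 c) + X)) :=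
      tpoly_one (v B.y) c s A hsl
    have hdeg : (tpoly (v B.y) c s A).natDegree ≤ P.natDegree := by
      rw [htp]
      exact (natDegree_comp_step_le A _ c).trans (natDegree_pf_le V P)
    refine ⟨c, hyΓ, hΓ, hT.c_ne, ?_, ?_, hGd.trans hdeg, ?_⟩
    · rw [hκ'2 (by omega) (by omega), hκ1κ, hD1D]
    · intro γ l h0
      rcases lt_or_ge (γ + l * v B.y) 0 with h1 | h1
      · refine hmin' γ l ?_
        rw [hAdef, co_pf_of (show V γ l from h1)]
        exact h0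
      · exact hκ'neg.le.trans h1
    · set N := pf (fun γ l => ¬ V γ l) P with hN
      have hNsupp : SuppIn B.Γ N := hI.supp.pf _
      refine ⟨H, R + N.comp (C (mon (v B.y) 1) * (C (mon 0 c) + X)), ?_, ?_, ?_, ?_, ?_⟩
      · rwa [hΓ] at hH
      · rw [hΓ] at hR
        exact hR.add (hNsupp.comp_step hyΓ c)
      · refine le_trans ?_ (hHd.trans hdeg)
        exact Nat.le_mul_of_pos_left _ hp.pos
      · intro γ l h0
        rw [co_add] at h0
        by_cases h1 : co R γ l = 0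
        · rw [h1, zero_add] at h0
          refine comp_step_ge c (fun γ' l' h2 => ?_) γ l h0
          exact not_lt.1 (co_pf_ne h2).1
        · exact hR0 γ l h1
      · have h1 : P = A + N := (pf_add_pf V P).symm
        have h2 : P.comp (C (mon (v B.y) 1) * (C (mon 0 c) + X)) =
            A.comp (C (mon (v B.y) 1) * (C (mon 0 c) + X)) +
              N.comp (C (mon (v B.y) 1) * (C (mon 0 c) + X)) := by
          rw [← add_comp, ← h1]
        rw [h2, ← htp, heq]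
        ring

/-- The states of phase 1 of order at least two. -/
structure St (p : ℕ) (B0 : BF k v) (E : IntermediateField k Ω) (f : Ω) where
  B : BF k v
  P : (Lau k)[X]
  κ : ℝ
  D : ℕ
  inv : Inv p B0 E f B P
  ld : IsLD (Vis p B.Γ) P 0 κ D
  two : 2 ≤ D

/-- Cleaning of a polynomial class (phase 1 and TAIL). -/
theorem as_clean_poly (p : ℕ) (hp : p.Prime) [CharP k p] [IsAlgClosed k] (h : Ctx k v r)
    (B : BF k v) (E : IntermediateField k Ω) (hE : FracIs B.R E) (P : (Lau k)[X])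
    (hP : SuppIn B.Γ P) (f : Ω) (hf : f - B.ev P ∈ B.R) :
    ∃ B' : BF k v, Reach B B' ∧ CleanAS p B' E f := by
  by_contra hcon
  push Not at hcon
  -- the initial state
  obtain ⟨G, H, R, hG, hH, hR, heq, hred, hR0, -, -, -⟩ := as_reduce p hp B.Γ B.fg P hP
  have hInv : Inv p B E f B G :=
    inv_reduce p hp hE Relation.ReflTransGen.refl
      ⟨0, E.zero_mem, by rw [zero_pow hp.ne_zero, sub_zero, sub_zero]; exact hf⟩ hG hH hR heq hred
      hR0
  have hmk : ∀ (B1 : BF k v) (P1 : (Lau k)[X]), Inv p B E f B1 P1 →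
      ∀ κ D, IsLD (Vis p B1.Γ) P1 0 κ D → 2 ≤ D := by
    intro B1 P1 hI κ D hLD
    by_contra hD
    exact hcon B1 hI.reach (hI.clean h (Or.inr ⟨κ, D, hLD, by omega⟩))
  have hne : ∀ (B1 : BF k v) (P1 : (Lau k)[X]), Inv p B E f B1 P1 → P1 ≠ 0 := by
    intro B1 P1 hI h0
    exact hcon B1 hI.reach (hI.clean h (Or.inl h0))
  obtain ⟨κ0, D0, hLD0⟩ := exists_IsLD (Vis p B.Γ) G 0 (by
    obtain ⟨γ, l, h0⟩ := exists_co_ne (hne B G hInv)
    exact ⟨γ, l, h0, (hred γ l h0).2⟩)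
  let S0 : St p B E f := ⟨B, G, κ0, D0, hInv, hLD0, hmk B G hInv κ0 D0 hLD0⟩
  -- the next state
  have hnext : ∀ S : St p B E f, ∃ S' : St p B E f, S'.D ≤ S.D ∧
      (S'.D = S.D → ∃ c, Keep p S.B S'.B S.P S'.P c S.κ S'.κ S.D) := by
    intro S
    obtain ⟨B', P', -, hI', hor⟩ := S.inv.step p hp h (S.inv.reach.ext.fracIs hE) S.ld S.two
    rcases hor with h0 | ⟨κ', D', hLD', hD', hkeep⟩
    · exact absurd h0 (hne B' P' hI')
    · exact ⟨⟨B', P', κ', D', hI', hLD', hmk B' P' hI' κ' D' hLD'⟩, hD', hkeep⟩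
  choose next hnext1 hnext2 using hnext
  let sq : ℕ → St p B E f := fun n => Nat.rec S0 (fun _ S => next S) n
  have hsq : ∀ n, sq (n + 1) = next (sq n) := fun _ => rfl
  -- the order becomes constant
  obtain ⟨n0, hn0⟩ : ∃ n0, ∀ n, (sq n0).D ≤ (sq n).D := by
    classical
    have hex : ∃ d, ∃ n, (sq n).D = d := ⟨_, 0, rfl⟩
    obtain ⟨n0, hn0⟩ := Nat.find_spec hex
    exact ⟨n0, fun n => by rw [hn0]; exact Nat.find_min' hex ⟨n, rfl⟩⟩
  have hconst : ∀ n, (sq (n0 + n)).D = (sq n0).D := by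
    intro n
    induction n with
    | zero => rfl
    | succ n ih =>
      refine le_antisymm ?_ (hn0 (n0 + (n + 1)))
      rw [← ih]
      exact hnext1 (sq (n0 + n))
  have hkeep : ∀ n, ∃ c, Keep p (sq (n0 + n)).B (sq (n0 + (n + 1))).B (sq (n0 + n)).P
      (sq (n0 + (n + 1))).P c (sq (n0 + n)).κ (sq (n0 + (n + 1))).κ (sq n0).D := by
    intro n
    have h1 := hnext2 (sq (n0 + n)) (by
      have h2 := hconst (n + 1)
      have h3 := hconst n
      rw [← add_assoc, hsq] at h2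
      rw [h2, h3])
    rw [hconst n] at h1
    exact h1
  choose c hc using hkeep
  have hΓ : ∀ n, (sq (n0 + n)).B.Γ = (sq n0).B.Γ := by
    intro n
    induction n with
    | zero => rfl
    | succ n ih => rw [(hc n).Γ_eq, ih]
  have hdeg : ∀ n, (sq (n0 + n)).P.natDegree ≤ (sq n0).P.natDegree := by
    intro n
    induction n with
    | zero => exact le_rfl
    | succ n ih => exact (hc n).deg.trans ih
  refine chain_false p hp (sq n0).B.Γ (sq n0).B.fg (fun n => v (sq (n0 + n)).B.y) c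
    (fun n => (sq (n0 + n)).P) (fun n => (sq (n0 + n)).κ) (sq n0).D (sq n0).P.natDegree
    (sq n0).two (fun n => (sq (n0 + n)).B.y_pos) (fun n => ?_) (fun n => (hc n).c_ne)
    (fun n => ?_) (fun n γ l h0 => ?_) (fun n => ?_) (fun n => (hc n).κ_eq)
    (fun n γ l h0 => (hc n).ge γ l h0) (fun n => ?_)
  · have := (hc n).y_mem
    rwa [hΓ n] at this
  · have := (sq (n0 + n)).inv.supp
    rwa [hΓ n] at this
  · have := (sq (n0 + n)).inv.red γ l h0
    rwa [hΓ n] at this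
  · have := (sq (n0 + n)).ld
    rwa [hΓ n, hconst n] at this
  · obtain ⟨H, R, h1, h2, h3, h4, h5⟩ := (hc n).rel
    rw [hΓ n] at h1 h2
    exact ⟨H, R, h1, h2, h3.trans (hdeg n), h4, h5⟩

end Pool.Agent.LU1
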