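import Pool.Agent.Lib.LU1_h15.ASClean_R3
import Pool.Agent.Lib.LU1_h15.ASClean_R4

/-! # Artin-Schreier ascent: cleaning -/

set_option autoImplicit false

namespace Pool.Agent.LU1

open Pool.Agent.H15JM (RVal)
open Polynomial

universe u

variable {k Ω : Type u} [Field k] [Field Ω] [Algebra k Ω] {v : RVal Ω} {r : ℕ}

theorem Good.artinSchreier (p : ℕ) (hp : p.Prime) [CharP k p] [IsAlgClosed k] (h : Ctx k v r)
    (E : IntermediateField k Ω) (hE : Good v E) (z : Ω) (hz : z ^ p - z ∈ E) :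
    Good v (adj E z) := by
  obtain ⟨B, hB⟩ := hE
  obtain ⟨B1, h1, P, hP, h2⟩ := as_to_poly p hp h B E hB _ hz
  have hB1 := h1.ext.fracIs hB
  obtain ⟨B2, h3, h4⟩ := as_clean_poly p hp h B1 E hB1 P hP _ h2
  exact good_of_cleanAS p hp h B2 E (h3.ext.fracIs hB1) _ z rfl h4

end Pool.Agent.LU1
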