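import Pool.Agent.Lib.LU1_h15.ML

/-! # RAD: adjoining a root of a monomial; type 2 ascent -/

set_option autoImplicit false

namespace Pool.Agent.LU1

open Pool.Agent.H15JM (RVal)
open Polynomial

universe u

variable {k Ω : Type u} [Field k] [Field Ω] [Algebra k Ω] {v : RVal Ω} {r : ℕ}

/-- The lattice data for `β = κ / ℓ`, `κ ∉ ℓ Γ`. -/
theorem exists_latData_prime (B : BF k v) (ℓ : ℕ) (hℓ : ℓ.Prime) {β : ℝ} (hβ : 0 < β)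
    (hmem : (ℓ : ℝ) * β ∈ B.Γ) (hβ' : β ∉ B.Γ) :
    ∃ s : ℝ → ℤ → ℤ, LatData B.Γ β ℓ s := by
  obtain ⟨s, hs, -, -⟩ := exists_s B.Γ B.fg β hβ ℓ hℓ.pos hmem (by
    intro m hm hmΓ
    by_contra hlt
    have hcop : Nat.Coprime m ℓ := by
      rw [Nat.coprime_comm, Nat.Prime.coprime_iff_not_dvd hℓ]
      intro hd
      exact hlt (Nat.le_of_dvd hm hd)
    have hbez := Nat.gcd_eq_gcd_ab m ℓ
    rw [hcop.gcd_eq_one] at hbez
    apply hβ'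
    have h1 : β = ((m.gcdA ℓ : ℤ) : ℝ) * ((m : ℝ) * β) + ((m.gcdB ℓ : ℤ) : ℝ) * ((ℓ : ℝ) * β) := by
      have h2 : (1 : ℝ) = (m : ℝ) * (m.gcdA ℓ : ℤ) + (ℓ : ℝ) * (m.gcdB ℓ : ℤ) := by
        exact_mod_cast hbez
      calc β = 1 * β := (one_mul β).symm
        _ = _ := by rw [h2]; ring
    rw [h1, ← zsmul_eq_mul, ← zsmul_eq_mul]
    exact B.Γ.add_mem (B.Γ.zsmul_mem hmΓ _) (B.Γ.zsmul_mem hmem _)) ∅ (by simp) 1 (Or.inl rfl)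
  exact ⟨s, hs⟩

/-- Adjoining `Y` with `Y^ℓ = χ(ℓ v(Y)) w`, `v(Y) > 0`, where `w` is a constant plus an element
of positive value of the new ring. -/
theorem good_adj_of (h : Ctx k v r) (B : BF k v) (E : IntermediateField k Ω)
    (hE : FracIs B.R E) {q : ℕ} {s : ℝ → ℤ → ℤ} {Y w : Ω} (hY : Y ≠ 0)
    (hL : LatData B.Γ (v Y) q s) (hw : Y ^ q = B.χ (q * v Y) * w)
    (hwr : Pre v (B.Γ ⊔ AddSubgroup.zmultiples (v Y)) (B.chi' Y w s) B.y (B.radj Y w s) →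
      Pre.Res (B.Γ ⊔ AddSubgroup.zmultiples (v Y)) (B.chi' Y w s) B.y (B.radj Y w s) w) :
    Good v (adj E Y) := by
  have H := BF.pre_adjoin hY hL hw h B.y B.y_ne B.y_pos (BF.mem_radj B.y_mem)
  obtain ⟨B', -, -, -, h4⟩ := BF.exists_adjoin hY hL hw h B.y B.y_ne B.y_pos
    (BF.mem_radj B.y_mem) (hwr H) (fun b hb => H.mm_y (BF.mem_radj hb))
  refine ⟨B', ?_⟩
  rw [h4]
  exact BF.fracIs_radj hY hL hw hL.β_pos hE

theorem not_mem_of_ne {B : BF k v} {ℓ : ℕ} {κ β : ℝ} (h1 : κ = ℓ * β)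
    (hκ' : ¬ ∃ δ ∈ B.Γ, κ = ℓ * δ) : β ∉ B.Γ := fun h2 => hκ' ⟨β, h2, h1⟩

theorem rad_frame_pos (h : Ctx k v r) (B : BF k v) (E : IntermediateField k Ω)
    (hE : FracIs B.R E) (ℓ : ℕ) (hℓ : ℓ.Prime) {κ : ℝ} (hκ : κ ∈ B.Γ) (hpos : 0 < κ)
    (hκ' : ¬ ∃ δ ∈ B.Γ, κ = ℓ * δ) (Z u : Ω) (hu : B.Un u) (hZ : Z ^ ℓ = B.χ κ * u) :
    Good v (adj E Z) := by
  have hℓ0 : (0 : ℝ) < ℓ := by exact_mod_cast hℓ.pos
  have hZ0 : Z ≠ 0 := by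
    rintro rfl
    rw [zero_pow hℓ.ne_zero] at hZ
    exact mul_ne_zero (B.χ_ne κ hκ) hu.2.1 hZ.symm
  have hv : (ℓ : ℝ) * v Z = κ := by
    have := congrArg v hZ
    rwa [v.map_pow hZ0, v.map_mul (B.χ_ne κ hκ) hu.2.1, B.χ_val κ hκ, hu.2.2, add_zero] at this
  have hβ : 0 < v Z := by
    rw [← hv] at hpos
    exact (mul_pos_iff_of_pos_left hℓ0).1 hpos
  obtain ⟨s, hL⟩ := exists_latData_prime B ℓ hℓ hβ (by rw [hv]; exact hκ)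
    (not_mem_of_ne hv.symm hκ')
  refine good_adj_of h B E hE hZ0 hL (w := u) (by rw [hv]; exact hZ) (fun H => ?_)
  exact BF.res_adjoin hZ0 hL (by rw [hv]; exact hZ) h H
    (fun b hb => H.mm_y (BF.mem_radj hb)) hu.1

/-- `Z^ℓ = χ(κ) u`, `κ ∉ ℓ Γ`. -/
theorem rad_frame (h : Ctx k v r) (B : BF k v) (E : IntermediateField k Ω)
    (hE : FracIs B.R E) (ℓ : ℕ) (hℓ : ℓ.Prime) {κ : ℝ} (hκ : κ ∈ B.Γ)
    (hκ' : ¬ ∃ δ ∈ B.Γ, κ = ℓ * δ) (Z u : Ω) (hu : B.Un u) (hZ : Z ^ ℓ = B.χ κ * u) :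
    Good v (adj E Z) := by
  have hκ0 : κ ≠ 0 := by
    rintro rfl
    exact hκ' ⟨0, B.Γ.zero_mem, by ring⟩
  rcases lt_or_gt_of_ne hκ0 with hneg | hpos
  · have h1 : adj E Z = adj E Z⁻¹ := by
      refine adj_congr ?_ ((adj E Z).inv_mem (mem_adj E Z))
      have := (adj E Z⁻¹).inv_mem (mem_adj E Z⁻¹)
      rwa [inv_inv] at this
    rw [h1]
    refine rad_frame_pos h B E hE ℓ hℓ (B.Γ.neg_mem hκ) (neg_pos.2 hneg) ?_ Z⁻¹ u⁻¹ hu.inv ?_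
    · rintro ⟨δ, hδ, h2⟩
      exact hκ' ⟨-δ, B.Γ.neg_mem hδ, by linarith⟩
    · rw [inv_pow, hZ, mul_inv, B.χ_neg hκ]
  · exact rad_frame_pos h B E hE ℓ hℓ hκ hpos hκ' Z u hu hZ

/-- `Z^p - Z = χ(κ) u`, `κ < 0`, `κ ∉ p Γ`. -/
theorem as_type1 (h : Ctx k v r) (B : BF k v) (E : IntermediateField k Ω)
    (hE : FracIs B.R E) (p : ℕ) (hp : p.Prime) [CharP k p] {κ : ℝ} (hκ : κ ∈ B.Γ)
    (hneg : κ < 0) (hκ' : ¬ ∃ δ ∈ B.Γ, κ = p * δ) (Z u : Ω) (hu : B.Un u)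
    (hZ : Z ^ p - Z = B.χ κ * u) : Good v (adj E Z) := by
  have hp0 : (0 : ℝ) < p := by exact_mod_cast hp.pos
  have hp1 : (1 : ℝ) < p := by exact_mod_cast hp.one_lt
  have hne : Z ^ p - Z ≠ 0 := by
    rw [hZ]; exact mul_ne_zero (B.χ_ne κ hκ) hu.2.1
  have hZ0 : Z ≠ 0 := by
    rintro rfl
    rw [zero_pow hp.ne_zero, sub_zero] at hne
    exact hne rfl
  have hvZ : v (Z ^ p - Z) = κ := by
    rw [hZ, v.map_mul (B.χ_ne κ hκ) hu.2.1, B.χ_val κ hκ, hu.2.2, add_zero]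
  have hZneg : v Z < 0 := by
    by_contra h0
    push Not at h0
    have h1 := v.map_add (pow_ne_zero p hZ0) (neg_ne_zero.2 hZ0) (by
      rw [← sub_eq_add_neg]; exact hne)
    rw [← sub_eq_add_neg, hvZ, v.map_pow hZ0, v.map_neg Z hZ0] at h1
    have h2 : 0 ≤ min ((p : ℝ) * v Z) (v Z) := le_min (mul_nonneg hp0.le h0) h0
    linarith
  have hv : (p : ℝ) * v Z = κ := by
    have h1 : v (Z ^ p) < v (-Z) := by
      rw [v.map_pow hZ0, v.map_neg Z hZ0]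
      nlinarith
    have h2 := (v.add_of_lt (pow_ne_zero p hZ0) (neg_ne_zero.2 hZ0) h1).2
    rw [← sub_eq_add_neg, hvZ, v.map_pow hZ0] at h2
    exact h2.symm
  -- `Y = Z⁻¹`
  have hadj : adj E Z = adj E Z⁻¹ := by
    refine adj_congr ?_ ((adj E Z).inv_mem (mem_adj E Z))
    have := (adj E Z⁻¹).inv_mem (mem_adj E Z⁻¹)
    rwa [inv_inv] at this
  rw [hadj]
  have hY0 : Z⁻¹ ≠ 0 := inv_ne_zero hZ0
  have hvY : v Z⁻¹ = - v Z := v.map_inv hZ0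
  have hβ : 0 < v Z⁻¹ := by rw [hvY]; linarith
  have hpβ : (p : ℝ) * v Z⁻¹ = -κ := by rw [hvY]; linarith
  obtain ⟨s, hL⟩ := exists_latData_prime B p hp hβ (by rw [hpβ]; exact B.Γ.neg_mem hκ) (by
    intro h1
    rw [hvY] at h1
    refine hκ' ⟨v Z, ?_, hv.symm⟩
    have := B.Γ.neg_mem h1
    rwa [neg_neg] at this)
  obtain ⟨n, hn⟩ : ∃ n, p = n + 2 := ⟨p - 2, by have := hp.two_le; omega⟩
  have hw : (Z⁻¹) ^ p = B.χ (p * v Z⁻¹) * (u⁻¹ - u⁻¹ * (Z⁻¹ * (Z⁻¹) ^ n)) := by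
    rw [hpβ, B.χ_neg hκ]
    have hχ0 := B.χ_ne κ hκ
    have hu0 := hu.2.1
    have h1 : (Z⁻¹) ^ p * Z ^ p = 1 := by
      rw [← mul_pow, inv_mul_cancel₀ hZ0, one_pow]
    have h2 : (Z⁻¹) ^ p * Z = Z⁻¹ * (Z⁻¹) ^ n := by
      rw [hn, pow_succ, mul_assoc, inv_mul_cancel₀ hZ0, mul_one, pow_succ']
    have h3 : (Z⁻¹) ^ p * (B.χ κ * u) = 1 - Z⁻¹ * (Z⁻¹) ^ n := by
      rw [← hZ, mul_sub, h1, h2]
    have h4 : (B.χ κ)⁻¹ * (u⁻¹ - u⁻¹ * (Z⁻¹ * (Z⁻¹) ^ n)) =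
        (1 - Z⁻¹ * (Z⁻¹) ^ n) * (B.χ κ * u)⁻¹ := by
      rw [mul_inv]; ring
    rw [h4, ← h3, mul_assoc, mul_inv_cancel₀ (mul_ne_zero hχ0 hu0), mul_one]
  refine good_adj_of h B E hE hY0 hL hw (fun H => ?_)
  have hYR := BF.Y_mem_radj hY0 hL hw hβ
  have hwz := BF.wz_mem_radj (s := s) hY0 hw (BF.v_w_zero hY0 hL hw)
  have hmmY : MM (B.Γ ⊔ AddSubgroup.zmultiples (v Z⁻¹))
      (B.chi' Z⁻¹ (u⁻¹ - u⁻¹ * (Z⁻¹ * (Z⁻¹) ^ n)) s) B.y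
      (B.radj Z⁻¹ (u⁻¹ - u⁻¹ * (Z⁻¹ * (Z⁻¹) ^ n)) s) Z⁻¹ := by
    have h1 := H.mm_χ (AddSubgroup.mem_sup_right (AddSubgroup.mem_zmultiples (v Z⁻¹))) hβ
      (hwz (s 0 1))
    rwa [← BF.Y_eq hY0 hL hw] at h1
  have hures := BF.res_adjoin hY0 hL hw h H (fun b hb => H.mm_y (BF.mem_radj hb)) hu.inv.1
  have h2 : MM (B.Γ ⊔ AddSubgroup.zmultiples (v Z⁻¹))
      (B.chi' Z⁻¹ (u⁻¹ - u⁻¹ * (Z⁻¹ * (Z⁻¹) ^ n)) s) B.y
      (B.radj Z⁻¹ (u⁻¹ - u⁻¹ * (Z⁻¹ * (Z⁻¹) ^ n)) s)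
      (Z⁻¹ * (-(u⁻¹ * (Z⁻¹) ^ n))) :=
    H.mm_mul hmmY ((B.radj _ _ s).neg_mem ((B.radj _ _ s).mul_mem (BF.mem_radj hu.inv.1)
      ((B.radj _ _ s).pow_mem hYR n)))
  have h3 := H.res_add hures (H.res_of_mm h2)
  have h4 : u⁻¹ - u⁻¹ * (Z⁻¹ * (Z⁻¹) ^ n) = u⁻¹ + Z⁻¹ * (-(u⁻¹ * (Z⁻¹) ^ n)) := by ring
  rw [← h4] at h3
  exact h3

/-- `Z^p - a Z = ỹ`, `ν(ỹ) = (0, 1)`, `a ∈ I`. -/
theorem type2 (h : Ctx k v r) (B : BF k v) (E : IntermediateField k Ω)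
    (hE : FracIs B.R E) (p : ℕ) (hp : p.Prime) (Z yt a : Ω)
    (hy : B.Rep yt 0 1) (ha : ∃ δ ∈ B.Γ, 0 < δ ∧ ∃ a' ∈ B.R, a = B.χ δ * a')
    (hZ : Z ^ p - a * Z = yt) : Good v (adj E Z) := by
  obtain ⟨B1, hΓ, hχ, hy1, hR⟩ := B.change_y h hy
  have hp1 : (1 : ℝ) < p := by exact_mod_cast hp.one_lt
  have hyt0 : yt ≠ 0 := hy.ne_zero h
  have hytv : 0 < v yt := hy.val_pos h le_rfl
  have hZ0 : Z ≠ 0 := by
    rintro rfl
    rw [zero_pow hp.ne_zero, mul_zero, sub_zero] at hZ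
    exact hyt0 hZ.symm
  obtain ⟨δ, hδ, hδ0, a', ha', rfl⟩ := ha
  have hva : VPos v (B.χ δ * a') := (B.vpos_χ hδ hδ0).mul (B.nonneg a' ha')
  have haR : B.χ δ * a' ∈ B.R := B.R.mul_mem (B.χ_mem δ hδ hδ0.le) ha'
  have hZv : 0 < v Z := by
    by_contra h0
    push Not at h0
    by_cases ha0 : B.χ δ * a' = 0
    · rw [ha0, zero_mul, sub_zero] at hZ
      rw [← hZ, v.map_pow hZ0] at hytv
      nlinarith
    · have h1 : v (Z ^ p) < v (-(B.χ δ * a' * Z)) := by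
        rw [v.map_pow hZ0, v.map_neg _ (mul_ne_zero ha0 hZ0), v.map_mul ha0 hZ0]
        have := hva ha0
        nlinarith
      have h2 := (v.add_of_lt (pow_ne_zero p hZ0) (neg_ne_zero.2 (mul_ne_zero ha0 hZ0)) h1).2
      rw [← sub_eq_add_neg, hZ, v.map_pow hZ0] at h2
      nlinarith
  set S : Set Ω := (B1.R : Set Ω) ∪ {Z} with hS
  set R' := locv v (Algebra.adjoin k S) with hR'
  have hRR : ∀ f ∈ B1.R, f ∈ R' := fun f hf =>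
    le_locv _ (Algebra.subset_adjoin (Or.inl hf))
  have hZR : Z ∈ R' := le_locv _ (Algebra.subset_adjoin (Or.inr rfl))
  have hE1 : FracIs B1.R E := by rw [hR]; exact hE
  have H : Pre v B1.Γ B1.χ Z R' :=
    { full := B1.full
      χ_ne := B1.χ_ne
      χ_add := B1.χ_add
      χ_val := B1.χ_val
      y_ne := hZ0
      y_pos := hZv
      nonneg := by
        refine locv_nonneg (adjoin_nonneg h ?_)
        rintro f (hf | rfl)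
        · exact B1.nonneg f hf
        · intro _; exact hZv.le
      loc := fun f hf h0 h1 => locv_inv hf h0 h1
      χ_mem := fun γ hγ h0 => hRR _ (B1.χ_mem γ hγ h0)
      y_mem := hZR }
  obtain ⟨n, hn⟩ : ∃ n, p = n + 1 := ⟨p - 1, by have := hp.pos; omega⟩
  refine ⟨mkBF H B1.fg hR' ?_ h.triv ?_ ?_, fracIs_iff.2 ⟨?_, ?_⟩⟩
  · rintro f (hf | rfl)
    · obtain ⟨c, hc, hcR⟩ := B1.exists_const h hf
      obtain ⟨γ, hγ, h0, a, ha, e, he, h1⟩ := B1.gen _ hcR hc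
      refine ⟨c, γ, hγ, h0, a, hRR a ha, (Z ^ n - B.χ δ * a') * e,
        R'.mul_mem (R'.sub_mem (R'.pow_mem hZR n) (hRR _ (by rw [hR]; exact haR)))
          (hRR e he), ?_⟩
      rw [h1, hy1, ← hZ, hn]
      ring
    · have := H.res_of_mm (H.mm_y R'.one_mem)
      rwa [mul_one] at this
  · obtain ⟨F0, hF0⟩ := B1.fgen
    classical
    refine ⟨insert Z F0, le_antisymm ?_ ?_⟩
    · refine locv_adjoin_le ?_
      rintro f (hf | rfl)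
      · have h1 : locv v (Algebra.adjoin k ((F0 : Set Ω) ∪ B1.χ '' {γ | γ ∈ B1.Γ ∧ 0 ≤ γ})) ≤
            locv v (Algebra.adjoin k (((insert Z F0 : Finset Ω) : Set Ω) ∪
              B1.χ '' {γ | γ ∈ B1.Γ ∧ 0 ≤ γ})) := by
          refine locv_adjoin_le ?_
          rintro f (hf | hf)
          · exact le_locv _ (Algebra.subset_adjoin (Or.inl (by
              rw [Finset.coe_insert]; exact Or.inr hf)))
          · exact le_locv _ (Algebra.subset_adjoin (Or.inr hf))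
        exact h1 (hF0 ▸ hf)
      · exact le_locv _ (Algebra.subset_adjoin (Or.inl (by simp)))
    · refine locv_adjoin_le ?_
      rintro f (hf | ⟨γ, ⟨hγ, h0⟩, rfl⟩)
      · rw [Finset.coe_insert] at hf
        rcases hf with rfl | hf
        · exact hZR
        · refine hRR f ?_
          rw [hF0]
          exact le_locv _ (Algebra.subset_adjoin (Or.inl hf))
      · exact hRR _ (B1.χ_mem γ hγ h0)
  · intro g
    exact isAlgebraic_of_le (fun f hf => hRR f hf) (B1.alg g)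
  · refine locv_field (adjoin_field ?_)
    rintro f (hf | rfl)
    · exact le_adj E Z (hE1.1 f hf)
    · exact mem_adj E _
  · exact adj_le ((fracIs_iff.1 hE1).2.trans (quo_mono fun f hf => hRR f hf)) (le_quo hZR)

end Pool.Agent.LU1
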