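import Pool.Agent.Lib.LU1_h15.GalDefs
import Pool.Agent.Lib.LU1_h15.Kummer
import Pool.Agent.Lib.LU1_h15.ASClean

/-! # G3, G4: Kummer and Artin-Schreier steps -/

set_option autoImplicit false

open Polynomial

namespace Pool.Agent.LU1

open Pool.Agent.H15JM (RVal)

universe u

variable {k Ω : Type u} [Field k] [Field Ω] [Algebra k Ω] {v : RVal Ω} {r : ℕ}

/-- A subgroup between `A` and `B`, `A` of prime index in `B`, missing an element of `B`. -/
theorem eq_of_relIndex_prime {G : Type*} [Group G] (A S B : Subgroup G) (ℓ : ℕ)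
    (hℓ : ℓ.Prime) (hAS : A ≤ S) (hSB : S ≤ B) (hi : A.relIndex B = ℓ) (b : G) (hb : b ∈ B)
    (hbS : b ∉ S) : S ≤ A := by
  have h1 := Subgroup.relIndex_mul_relIndex A S B hAS hSB
  rw [hi] at h1
  rcases (Nat.prime_mul_iff.1 (h1 ▸ hℓ)) with ⟨-, h3⟩ | ⟨-, h3⟩
  · exact absurd (Subgroup.relIndex_eq_one.1 h3 hb) hbS
  · exact Subgroup.relIndex_eq_one.1 h3

/-- A normal subgroup of prime index is completed by one element. -/
theorem exists_gen_of_relIndex_prime' {G : Type*} [Group G] (A B : Subgroup G) (ℓ : ℕ)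
    (hℓ : ℓ.Prime) (hn : ∀ b ∈ B, ∀ x ∈ A, b * x * b⁻¹ ∈ A)
    (hi : A.relIndex B = ℓ) :
    ∃ b ∈ B, b ^ ℓ ∈ A ∧ ∀ x ∈ B, ∃ i : ℕ, x * b ^ i ∈ A := by
  have : (A.subgroupOf B).Normal := by
    refine ⟨fun x hx g => ?_⟩
    rw [Subgroup.mem_subgroupOf] at hx ⊢
    exact hn g g.2 x hx
  have hcard : Nat.card (B ⧸ A.subgroupOf B) = ℓ := hi
  have : Fact ℓ.Prime := ⟨hℓ⟩
  have : IsCyclic (B ⧸ A.subgroupOf B) := isCyclic_of_prime_card hcard
  have : Finite (B ⧸ A.subgroupOf B) := Nat.finite_of_card_ne_zero (hcard ▸ hℓ.ne_zero)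
  obtain ⟨q, hq⟩ := IsCyclic.exists_monoid_generator (α := B ⧸ A.subgroupOf B)
  obtain ⟨b, rfl⟩ := QuotientGroup.mk_surjective q
  refine ⟨b, b.2, ?_, fun x hx => ?_⟩
  · have h1 : ((b ^ ℓ : B) : B ⧸ A.subgroupOf B) = 1 := by
      rw [QuotientGroup.mk_pow, ← hcard]
      exact pow_card_eq_one'
    rw [QuotientGroup.eq_one_iff, Subgroup.mem_subgroupOf] at h1
    simpa using h1
  · have h1 := hq (((⟨x, hx⟩ : B) : B ⧸ A.subgroupOf B)⁻¹)
    rw [Submonoid.mem_powers_iff] at h1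
    obtain ⟨i, hi⟩ := h1
    refine ⟨i, ?_⟩
    have h2 : (((⟨x, hx⟩ : B) * b ^ i : B) : B ⧸ A.subgroupOf B) = 1 := by
      rw [QuotientGroup.mk_mul, QuotientGroup.mk_pow, hi, mul_inv_cancel]
    rw [QuotientGroup.eq_one_iff, Subgroup.mem_subgroupOf] at h2
    simpa using h2

/-- `N^A = N^B(z)` for every `z ∈ N^A` not in `N^B`. -/
theorem fixO_eq_adj (F : IntermediateField k Ω) (N : IntermediateField F Ω)
    [FiniteDimensional F N] [IsGalois F N] (A B : Subgroup (N ≃ₐ[F] N)) (ℓ : ℕ) (hℓ : ℓ.Prime)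
    (hAB : A ≤ B) (hi : A.relIndex B = ℓ) (z : N) (hz : ∀ a ∈ A, a z = z)
    (b : N ≃ₐ[F] N) (hb : b ∈ B) (hbz : b z ≠ z) :
    fixO F N A = adj (fixO F N B) (z : Ω) := by
  have hFE : F ≤ adj (fixO F N B) (z : Ω) := by
    intro x hx
    refine (le_sup_left : fixO F N B ≤ _) ?_
    exact (mem_fixO F N B x).2 ⟨algebraMap F N ⟨x, hx⟩, rfl, fun σ _ => σ.commutes _⟩
  let T : IntermediateField F N := (IntermediateField.extendScalars hFE).comap N.val
  have hT : ∀ n : N, n ∈ T ↔ (n : Ω) ∈ adj (fixO F N B) (z : Ω) := fun n => Iff.rfl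
  have h1 : IntermediateField.fixedField B ≤ T := by
    intro n hn
    rw [hT]
    refine (le_sup_left : fixO F N B ≤ _) ?_
    exact (mem_fixO F N B n).2 ⟨n, rfl, fun σ hσ => hn ⟨σ, hσ⟩⟩
  have h2 : z ∈ T := by
    rw [hT]
    refine (le_sup_right : IntermediateField.adjoin k {(z : Ω)} ≤ _) ?_
    exact IntermediateField.mem_adjoin_simple_self k (z : Ω)
  have hSA : IntermediateField.fixingSubgroup T ≤ A := by
    refine eq_of_relIndex_prime A (IntermediateField.fixingSubgroup T ⊔ A) B ℓ hℓ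
      le_sup_right ?_ hi b hb ?_ |> le_trans le_sup_left
    · refine sup_le ?_ hAB
      rw [← IntermediateField.fixingSubgroup_fixedField B]
      exact IntermediateField.fixingSubgroup_antitone h1
    · have hle : IntermediateField.fixingSubgroup T ⊔ A ≤
          MulAction.stabilizer (N ≃ₐ[F] N) z := by
        refine sup_le ?_ ?_
        · intro σ hσ
          rw [MulAction.mem_stabilizer_iff]
          exact hσ ⟨z, h2⟩
        · intro σ hσ
          rw [MulAction.mem_stabilizer_iff]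
          exact hz σ hσ
      intro hb'
      have := hle hb'
      rw [MulAction.mem_stabilizer_iff] at this
      exact hbz this
  have hAT : IntermediateField.fixedField A ≤ T := by
    rw [← IsGalois.fixedField_fixingSubgroup T]
    exact IntermediateField.fixedField_antitone hSA
  apply le_antisymm
  · intro g hg
    obtain ⟨n, rfl, hn⟩ := (mem_fixO F N A g).1 hg
    exact (hT n).1 (hAT fun σ => hn σ σ.2)
  · refine sup_le ?_ ?_
    · intro g hg
      obtain ⟨n, rfl, hn⟩ := (mem_fixO F N B g).1 hg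
      exact (mem_fixO F N A _).2 ⟨n, rfl, fun σ hσ => hn σ (hAB hσ)⟩
    · rw [IntermediateField.adjoin_simple_le_iff]
      exact (mem_fixO F N A _).2 ⟨z, rfl, hz⟩

/-- An element of `B` of order prime modulo `A`, moving an element of `N^A`. -/
theorem exists_moved (F : IntermediateField k Ω) (N : IntermediateField F Ω)
    [FiniteDimensional F N] [IsGalois F N] (A B : Subgroup (N ≃ₐ[F] N)) (ℓ : ℕ) (hℓ : ℓ.Prime)
    (hn : ∀ b ∈ B, ∀ x ∈ A, b * x * b⁻¹ ∈ A) (hi : A.relIndex B = ℓ) :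
    ∃ b ∈ B, b ^ ℓ ∈ A ∧ (∀ a ∈ A, b⁻¹ * a * b ∈ A) ∧ (∀ x ∈ B, ∃ i : ℕ, x * b ^ i ∈ A) ∧
      ∃ θ : N, (∀ a ∈ A, a θ = θ) ∧ b θ ≠ θ := by
  obtain ⟨b, hb, hbA, hgen⟩ := exists_gen_of_relIndex_prime' A B ℓ hℓ hn hi
  refine ⟨b, hb, hbA, fun a ha => ?_, hgen, ?_⟩
  · have := hn b⁻¹ (B.inv_mem hb) a ha
    rwa [inv_inv] at this
  · by_contra hcon
    push Not at hcon
    have h1 : b ∈ IntermediateField.fixingSubgroup (IntermediateField.fixedField A) := by
      intro x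
      exact hcon x fun a ha => x.2 ⟨a, ha⟩
    rw [IntermediateField.fixingSubgroup_fixedField] at h1
    have h2 : B ≤ A := by
      intro x hx
      obtain ⟨i, hi⟩ := hgen x hx
      have := A.mul_mem hi (A.inv_mem (A.pow_mem h1 i))
      rwa [mul_inv_cancel_right] at this
    rw [Subgroup.relIndex_eq_one.2 h2] at hi
    exact hℓ.one_lt.ne hi

/-- `b` preserves `N^A`. -/
theorem fix_b {F : IntermediateField k Ω} {N : IntermediateField F Ω}
    {A : Subgroup (N ≃ₐ[F] N)} {b : N ≃ₐ[F] N} (hb : ∀ a ∈ A, b⁻¹ * a * b ∈ A) {x : N}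
    (hx : ∀ a ∈ A, a x = x) : ∀ a ∈ A, a (b x) = b x := by
  intro a ha
  have h1 := hx _ (hb a ha)
  have h2 : a (b x) = b ((b⁻¹ * a * b) x) := by
    rw [← AlgEquiv.mul_apply, ← AlgEquiv.mul_apply]
    congr 1
    group
  rw [h2, h1]

/-- An element of `N^A` fixed by `b` is in `N^B`. -/
theorem mem_fixO_of {F : IntermediateField k Ω} {N : IntermediateField F Ω}
    {A B : Subgroup (N ≃ₐ[F] N)} {b : N ≃ₐ[F] N} (hgen : ∀ x ∈ B, ∃ i : ℕ, x * b ^ i ∈ A) {x : N}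
    (hx : ∀ a ∈ A, a x = x) (hbx : b x = x) : (x : Ω) ∈ fixO F N B := by
  refine (mem_fixO F N B _).2 ⟨x, rfl, fun σ hσ => ?_⟩
  have hbi : ∀ i : ℕ, (b ^ i) x = x := by
    intro i
    induction i with
    | zero => rfl
    | succ i ih => rw [pow_succ, AlgEquiv.mul_apply, hbx, ih]
  obtain ⟨i, hi⟩ := hgen σ hσ
  have h1 := hx _ hi
  rwa [AlgEquiv.mul_apply, hbi i] at h1

/-- The Lagrange resolvent. -/
theorem exists_eigen {M : Type*} [Field M] (b : M →+* M) (ℓ : ℕ) (hℓ : ℓ.Prime)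
    (hℓ0 : (ℓ : M) ≠ 0) (ζ : M) (hζ : IsPrimitiveRoot ζ ℓ) (hbζ : b ζ = ζ) (θ : M)
    (hθ : (b^[ℓ]) θ = θ) (hne : b θ ≠ θ) :
    ∃ j : ℕ, b (∑ i ∈ Finset.range ℓ, ζ⁻¹ ^ (i * j) * (b^[i]) θ) =
      ζ ^ j * (∑ i ∈ Finset.range ℓ, ζ⁻¹ ^ (i * j) * (b^[i]) θ) ∧
      b (∑ i ∈ Finset.range ℓ, ζ⁻¹ ^ (i * j) * (b^[i]) θ) ≠
        ∑ i ∈ Finset.range ℓ, ζ⁻¹ ^ (i * j) * (b^[i]) θ := by
  have hζ0 : ζ ≠ 0 := hζ.ne_zero hℓ.ne_zero
  have hζi : IsPrimitiveRoot ζ⁻¹ ℓ := hζ.inv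
  have heig : ∀ j : ℕ, b (∑ i ∈ Finset.range ℓ, ζ⁻¹ ^ (i * j) * (b^[i]) θ) =
      ζ ^ j * (∑ i ∈ Finset.range ℓ, ζ⁻¹ ^ (i * j) * (b^[i]) θ) := by
    intro j
    have e1 : ∀ i : ℕ, b (ζ⁻¹ ^ (i * j) * (b^[i]) θ) =
        ζ ^ j * (ζ⁻¹ ^ ((i + 1) * j) * (b^[i + 1]) θ) := by
      intro i
      rw [map_mul, map_pow, map_inv₀, hbζ, Function.iterate_succ_apply', add_mul, one_mul,
        pow_add, ← mul_assoc, mul_left_comm, ← mul_pow, mul_inv_cancel₀ hζ0, one_pow, mul_one]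
    rw [map_sum, Finset.sum_congr rfl fun i _ => e1 i, ← Finset.mul_sum]
    congr 1
    have e2 := Finset.sum_range_succ' (fun i => ζ⁻¹ ^ (i * j) * (b^[i]) θ) ℓ
    have e3 := Finset.sum_range_succ (fun i => ζ⁻¹ ^ (i * j) * (b^[i]) θ) ℓ
    have e4 : ζ⁻¹ ^ (ℓ * j) * (b^[ℓ]) θ = ζ⁻¹ ^ (0 * j) * (b^[0]) θ := by
      rw [pow_mul, hζi.pow_eq_one, one_pow, hθ, zero_mul, pow_zero]
      rfl
    have e5 := e2.symm.trans e3
    rw [e4] at e5
    exact add_right_cancel e5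
  by_contra hcon
  push Not at hcon
  have h1 : ∀ j : ℕ, b (∑ i ∈ Finset.range ℓ, ζ⁻¹ ^ (i * j) * (b^[i]) θ) =
      ∑ i ∈ Finset.range ℓ, ζ⁻¹ ^ (i * j) * (b^[i]) θ := fun j => hcon j (heig j)
  apply hne
  have h2 : ∑ j ∈ Finset.range ℓ, ∑ i ∈ Finset.range ℓ, ζ⁻¹ ^ (i * j) * (b^[i]) θ = ℓ * θ := by
    rw [Finset.sum_comm, Finset.sum_eq_single 0]
    · simp
    · intro i hi hi0
      rw [← Finset.sum_mul]
      have h3 : ∑ j ∈ Finset.range ℓ, ζ⁻¹ ^ (i * j) = 0 := by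
        have h4 : IsPrimitiveRoot (ζ⁻¹ ^ i) ℓ := by
          refine hζi.pow_of_coprime i ?_
          exact (Nat.coprime_of_lt_prime hi0 (Finset.mem_range.1 hi) hℓ).symm
        have h5 := h4.geom_sum_eq_zero hℓ.one_lt
        simpa [pow_mul] using h5
      rw [h3, zero_mul]
    · intro h
      exact absurd (Finset.mem_range.2 hℓ.pos) h
  have h3 : b (ℓ * θ) = ℓ * θ := by
    rw [← h2, map_sum]
    exact Finset.sum_congr rfl fun j _ => h1 j
  rw [map_mul, map_natCast] at h3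
  exact mul_left_cancel₀ hℓ0 h3

theorem good_kummer_step (p : ℕ) (hp : p.Prime) [CharP k p] [IsAlgClosed k] (h : Ctx k v r)
    (F : IntermediateField k Ω) (N : IntermediateField F Ω) [FiniteDimensional F N]
    [IsGalois F N] (A B : Subgroup (N ≃ₐ[F] N)) (ℓ : ℕ) (hℓ : ℓ.Prime) (hℓp : ℓ ≠ p)
    (hAB : A ≤ B) (hn : ∀ b ∈ B, ∀ x ∈ A, b * x * b⁻¹ ∈ A) (hi : A.relIndex B = ℓ)
    (hB : Good v (fixO F N B)) : Good v (fixO F N A) := by
  obtain ⟨b, hb, hbA, hconj, hgen, θ, hθ, hbθ⟩ := exists_moved F N A B ℓ hℓ hn hi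
  have hℓk : (ℓ : k) ≠ 0 := by
    intro h0
    have := (CharP.cast_eq_zero_iff k p ℓ).1 h0
    exact hℓp ((Nat.prime_dvd_prime_iff_eq hp hℓ).1 this).symm
  have : NeZero (ℓ : k) := ⟨hℓk⟩
  obtain ⟨ζ, hζ⟩ := HasEnoughRootsOfUnity.exists_primitiveRoot k ℓ
  let ι : k →+* N := (algebraMap F N).comp (algebraMap k F)
  have hι : Function.Injective ι := ι.injective
  have hζN : IsPrimitiveRoot (ι ζ) ℓ := hζ.map_of_injective hι
  have hbι : ∀ c : k, b (ι c) = ι c := fun c => b.commutes _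
  have hιA : ∀ a ∈ A, ∀ c : k, a (ι c) = ι c := fun a _ c => a.commutes _
  have hiter : ∀ (i : ℕ) (x : N), ((b : N →+* N)^[i]) x = (b ^ i) x := by
    intro i
    induction i with
    | zero => intro x; rfl
    | succ i ih =>
      intro x
      rw [Function.iterate_succ_apply', ih, pow_succ', AlgEquiv.mul_apply]
      rfl
  obtain ⟨j, hj1, hj2⟩ := exists_eigen (b : N →+* N) ℓ hℓ
    (by rw [← map_natCast ι]; exact (map_ne_zero ι).2 hℓk) (ι ζ) hζN (hbι ζ) θ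
    (by rw [hiter]; exact hθ _ hbA) hbθ
  set g : N := ∑ i ∈ Finset.range ℓ, (ι ζ)⁻¹ ^ (i * j) * ((b : N →+* N)^[i]) θ with hg
  have hgA : ∀ a ∈ A, a g = g := by
    intro a ha
    rw [hg, map_sum]
    refine Finset.sum_congr rfl fun i _ => ?_
    rw [map_mul, map_pow, map_inv₀, hιA a ha ζ]
    congr 1
    have : ∀ i : ℕ, ∀ a ∈ A, a (((b : N →+* N)^[i]) θ) = ((b : N →+* N)^[i]) θ := by
      intro i
      induction i with
      | zero => exact hθ
      | succ i ih =>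
        rw [Function.iterate_succ_apply']
        exact fix_b hconj ih
    exact this i a ha
  have hbg : b g ≠ g := hj2
  rw [fixO_eq_adj F N A B ℓ hℓ hAB hi g hgA b hb hbg]
  refine Good.kummer p hp h _ hB ℓ hℓ hℓp _ ?_
  have h1 : ((g ^ ℓ : N) : Ω) ∈ fixO F N B := by
    refine mem_fixO_of hgen (fun a ha => by rw [map_pow, hgA a ha]) ?_
    have : b g = ι ζ ^ j * g := hj1
    rw [map_pow, this, mul_pow, ← pow_mul, mul_comm j, pow_mul, hζN.pow_eq_one, one_pow, one_mul]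
  simpa using h1

theorem good_as_step (p : ℕ) (hp : p.Prime) [CharP k p] [IsAlgClosed k] (h : Ctx k v r)
    (F : IntermediateField k Ω) (N : IntermediateField F Ω) [FiniteDimensional F N]
    [IsGalois F N] (A B : Subgroup (N ≃ₐ[F] N))
    (hAB : A ≤ B) (hn : ∀ b ∈ B, ∀ x ∈ A, b * x * b⁻¹ ∈ A) (hi : A.relIndex B = p)
    (hB : Good v (fixO F N B)) : Good v (fixO F N A) := by
  obtain ⟨b, hb, hbA, hconj, hgen, θ, hθ, hbθ⟩ := exists_moved F N A B p hp hn hi
  have : Fact p.Prime := ⟨hp⟩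
  have hkF : CharP F p := charP_of_injective_algebraMap (algebraMap k F).injective p
  have hkN : CharP N p := charP_of_injective_algebraMap (algebraMap F N).injective p
  let D : Module.End F N := (b : N →ₗ[F] N) - 1
  have hDp : D ^ p = (b : N →ₗ[F] N) ^ p - 1 := by
    have hc : CharP (Module.End F N) p :=
      charP_of_injective_algebraMap (algebraMap F (Module.End F N)).injective p
    have := sub_pow_char_of_commute (p := p) (Commute.one_right (b : N →ₗ[F] N))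
    rw [one_pow] at this
    exact this
  have hpow : ∀ (i : ℕ) (x : N), ((b : N →ₗ[F] N) ^ i) x = (b ^ i) x := by
    intro i
    induction i with
    | zero => intro x; rfl
    | succ i ih =>
      intro x
      rw [pow_succ', pow_succ', Module.End.mul_apply, ih, AlgEquiv.mul_apply]
      rfl
  have hDA : ∀ i : ℕ, ∀ a ∈ A, a ((D ^ i) θ) = (D ^ i) θ := by
    intro i
    induction i with
    | zero => exact hθ
    | succ i ih =>
      intro a ha
      rw [pow_succ', Module.End.mul_apply]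
      show a (b ((D ^ i) θ) - (D ^ i) θ) = b ((D ^ i) θ) - (D ^ i) θ
      rw [map_sub, fix_b hconj ih a ha, ih a ha]
  have hDp0 : (D ^ p) θ = 0 := by
    rw [hDp, LinearMap.sub_apply, hpow, hθ _ hbA, Module.End.one_apply, sub_self]
  have hex : ∃ M, (D ^ M) θ = 0 := ⟨p, hDp0⟩
  classical
  have hM0 : Nat.find hex ≠ 0 := by
    intro h0
    have h1 := Nat.find_spec hex
    rw [h0, pow_zero, Module.End.one_apply] at h1
    rw [h1, map_zero] at hbθ
    exact hbθ rfl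
  have hM1 : Nat.find hex ≠ 1 := by
    intro h0
    have h1 := Nat.find_spec hex
    rw [h0, pow_one] at h1
    exact hbθ (sub_eq_zero.1 h1)
  obtain ⟨m, hm⟩ : ∃ m, Nat.find hex = m + 2 := ⟨Nat.find hex - 2, by omega⟩
  have h1 : (D ^ (m + 2)) θ = 0 := hm ▸ Nat.find_spec hex
  have h2 : (D ^ (m + 1)) θ ≠ 0 := Nat.find_min hex (by omega)
  set a := (D ^ (m + 1)) θ with ha
  set c := (D ^ m) θ with hc
  have hbc : b c = c + a := by
    rw [ha, pow_succ', Module.End.mul_apply, ← hc]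
    show b c = c + (b c - c)
    ring
  have hba : b a = a := by
    rw [pow_succ', Module.End.mul_apply, ← ha] at h1
    exact sub_eq_zero.1 h1
  have hbz : b (c / a) = c / a + 1 := by
    rw [map_div₀, hbc, hba, add_div, div_self h2]
  have hzA : ∀ σ ∈ A, σ (c / a) = c / a := by
    intro σ hσ
    rw [map_div₀, hDA _ σ hσ, hDA _ σ hσ]
  rw [fixO_eq_adj F N A B p hp hAB hi (c / a) hzA b hb (by rw [hbz]; simp)]
  refine Good.artinSchreier p hp h _ hB _ ?_
  have h3 : (((c / a) ^ p - c / a : N) : Ω) ∈ fixO F N B := by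
    refine mem_fixO_of hgen (fun σ hσ => by rw [map_sub, map_pow, hzA σ hσ]) ?_
    rw [map_sub, map_pow, hbz, add_pow_char, one_pow]
    ring
  simpa using h3

end Pool.Agent.LU1
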