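import Pool.Agent.Lib.LU1_h15.Step

/-! # Reduction of a polynomial modulo `h^p - h` and non-polar monomials -/

set_option autoImplicit false

namespace Pool.Agent.LU1

open Polynomial

universe u

variable {k : Type u} [Field k]

namespace R1

open A3

theorem co_zero (γ : ℝ) (l : ℕ) : co (0 : (Lau k)[X]) γ l = 0 := by
  unfold co cf; simp

theorem co_add (P Q : (Lau k)[X]) (γ : ℝ) (l : ℕ) : co (P + Q) γ l = co P γ l + co Q γ l := by
  unfold co cf; simp

theorem co_sum {ι : Type*} (T : Finset ι) (F : ι → (Lau k)[X]) (γ : ℝ) (l : ℕ) :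
    co (∑ i ∈ T, F i) γ l = ∑ i ∈ T, co (F i) γ l := by
  classical
  induction T using Finset.induction_on with
  | empty => simp [co_zero]
  | insert a s ha ih => rw [Finset.sum_insert ha, Finset.sum_insert ha, co_add, ih]

theorem co_ext {P Q : (Lau k)[X]} (h : ∀ γ l, co P γ l = co Q γ l) : P = Q := by
  ext1 l
  apply AddMonoidAlgebra.coeff_injective
  ext γ
  exact h γ l

open Classical in
theorem co_monomial (l l' : ℕ) (γ γ' : ℝ) (c : k) :
    co (monomial l (mon γ c)) γ' l' = if (γ, l) = (γ', l') then c else 0 := by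
  unfold co cf mon
  rw [coeff_monomial]
  by_cases h : l = l'
  · subst h
    rw [if_pos rfl, AddMonoidAlgebra.coeff_single, Finsupp.single_apply]
    simp
  · rw [if_neg h, if_neg]
    · rfl
    · intro h1
      exact h (Prod.ext_iff.1 h1).2

/-- The part of `P` with monomials in `T`. -/
noncomputable def part (P : (Lau k)[X]) (T : Finset (ℝ × ℕ)) : (Lau k)[X] :=
  ∑ a ∈ T, monomial a.2 (mon a.1 (co P a.1 a.2))

open Classical in
theorem co_part (P : (Lau k)[X]) (T : Finset (ℝ × ℕ)) (γ : ℝ) (l : ℕ) :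
    co (part P T) γ l = if (γ, l) ∈ T then co P γ l else 0 := by
  unfold part
  rw [co_sum]
  simp only [co_monomial]
  rw [Finset.sum_ite_eq' T (γ, l) fun a => co P a.1 a.2]

theorem natDegree_le_of_co {P : (Lau k)[X]} {n : ℕ} (h : ∀ γ l, co P γ l ≠ 0 → l ≤ n) :
    P.natDegree ≤ n := by
  rw [natDegree_le_iff_coeff_eq_zero]
  intro l hl
  apply AddMonoidAlgebra.coeff_injective
  ext γ
  by_contra h0
  exact absurd (h γ l h0) (not_le.2 hl)

theorem le_natDegree_of_co {P : (Lau k)[X]} {γ : ℝ} {l : ℕ} (h : co P γ l ≠ 0) :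
    l ≤ P.natDegree := by
  apply le_natDegree_of_ne_zero
  intro h0
  apply h
  unfold co cf
  rw [h0]
  rfl

/-- A nonzero element of a finitely generated group of reals is not infinitely divisible. -/
theorem exists_not_dvd (p : ℕ) (hp : p.Prime) (Γ : AddSubgroup ℝ) (hΓ : Γ.FG) (γ : ℝ)
    (hγ : γ ≠ 0) : ∃ n : ℕ, ∀ m, n ≤ m → ¬ ∃ δ ∈ Γ, γ = (p : ℝ) ^ m * δ := by
  by_cases hmem : γ ∈ Γ
  swap
  · refine ⟨0, fun m _ => ?_⟩
    rintro ⟨δ, hδ, rfl⟩
    apply hmem
    have : (p : ℝ) ^ m * δ = (p ^ m) • δ := by rw [nsmul_eq_mul]; push_cast; rfl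
    rw [this]
    exact Γ.nsmul_mem hδ _
  haveI : Module.Finite ℤ Γ := by
    rw [Module.Finite.iff_addGroup_fg]
    exact (AddGroup.fg_iff_addSubgroup_fg Γ).2 hΓ
  let b := Module.finBasis ℤ Γ
  let g : Γ := ⟨γ, hmem⟩
  have hg : g ≠ 0 := by
    intro h
    exact hγ (congrArg Subtype.val h)
  obtain ⟨i, hi⟩ : ∃ i, b.repr g i ≠ 0 := by
    by_contra hcon
    push Not at hcon
    apply hg
    apply b.repr.injective
    ext i
    rw [hcon i]
    simp
  refine ⟨(b.repr g i).natAbs, fun m hm => ?_⟩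
  rintro ⟨δ, hδ, h⟩
  have h1 : g = (p ^ m : ℕ) • (⟨δ, hδ⟩ : Γ) := by
    apply Subtype.ext
    change γ = _
    rw [h]
    push_cast
    rw [nsmul_eq_mul]
    push_cast
    rfl
  have h2 : b.repr g i = (p ^ m : ℕ) * b.repr ⟨δ, hδ⟩ i := by
    rw [h1, map_nsmul]
    simp
  have h3 : (p ^ m) ∣ (b.repr g i).natAbs := by
    rw [h2, Int.natAbs_mul, Int.natAbs_natCast]
    exact Dvd.intro _ rfl
  have h4 := Nat.le_of_dvd (Int.natAbs_pos.2 hi) h3
  have h5 := Nat.lt_pow_self (n := m) hp.one_lt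
  omega

end R1

open A3 R1

theorem as_reduce_aux (p : ℕ) (hp : p.Prime) [CharP k p] [IsAlgClosed k] (Γ : AddSubgroup ℝ) :
    ∀ n : ℕ, ∀ P : (Lau k)[X], SuppIn Γ P →
    (∀ γ l, co P γ l ≠ 0 → γ < 0 → ¬ ∃ δ ∈ Γ, γ = (p : ℝ) ^ n * δ) →
    ∃ G H E : (Lau k)[X], SuppIn Γ G ∧ SuppIn Γ H ∧ SuppIn Γ E ∧ P = G + (H ^ p - H) + E ∧
      (∀ γ l, co G γ l ≠ 0 → γ < 0 ∧ Vis p Γ γ l) ∧ (∀ γ l, co E γ l ≠ 0 → 0 ≤ γ) ∧
      p * H.natDegree ≤ P.natDegree ∧ G.natDegree ≤ P.natDegree ∧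
      ∀ κ, κ < 0 → (∀ γ l, co P γ l ≠ 0 → κ ≤ γ) →
        (∀ γ l, co G γ l ≠ 0 → κ ≤ γ) ∧ ∀ l, Vis p Γ κ l → co G κ l = co P κ l := by
  classical
  haveI : Fact p.Prime := ⟨hp⟩
  haveI : CharP (Lau k) p := by
    haveI : Nontrivial (Lau k) := inferInstance
    exact charP_of_injective_algebraMap (algebraMap k (Lau k)).injective p
  have hp0 : (0 : ℝ) < p := by exact_mod_cast hp.pos
  have hp1 : (1 : ℝ) < p := by exact_mod_cast hp.one_lt
  intro n
  induction n with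
  | zero =>
    intro P hP h
    have h0 : ∀ γ l, co P γ l ≠ 0 → 0 ≤ γ := by
      intro γ l h1
      by_contra h2
      exact h γ l h1 (not_le.1 h2) ⟨γ, hP γ l h1, by simp⟩
    refine ⟨0, 0, P, ?_, ?_, hP, ?_, ?_, h0, by simp, by simp, ?_⟩
    · intro γ l h1; exact absurd (co_zero γ l) h1
    · intro γ l h1; exact absurd (co_zero γ l) h1
    · rw [zero_pow hp.ne_zero]; ring
    · intro γ l h1; exact absurd (co_zero γ l) h1
    · intro κ hκ _
      refine ⟨fun γ l h1 => absurd (co_zero γ l) h1, fun l _ => ?_⟩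
      rw [co_zero]
      by_contra h1
      exact absurd (h0 κ l (Ne.symm h1)) (not_le.2 hκ)
  | succ n ih =>
    intro P hP h
    obtain ⟨S, hS⟩ := exists_finset_co P
    set S1 := S.filter fun a => a.1 < 0 ∧ Vis p Γ a.1 a.2 with hS1
    set S2 := S.filter fun a => a.1 < 0 ∧ ¬ Vis p Γ a.1 a.2 with hS2
    set S3 := S.filter fun a => ¬ a.1 < 0 with hS3
    choose rt hrt using fun c : k => IsAlgClosed.exists_pow_nat_eq c hp.pos
    have hdec : P = part P S1 + part P S2 + part P S3 := by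
      apply co_ext
      intro γ l
      rw [co_add, co_add, co_part, co_part, co_part]
      simp only [hS1, hS2, hS3, Finset.mem_filter, hS]
      by_cases h1 : co P γ l = 0
      · simp [h1]
      · by_cases h2 : γ < 0
        · by_cases h3 : Vis p Γ γ l
          · simp [h1, h2, h3]
          · simp [h1, h2, h3]
        · simp [h1, h2]
    have hS2' : ∀ a ∈ S2, co P a.1 a.2 ≠ 0 ∧ a.1 < 0 ∧ p ∣ a.2 ∧ a.1 / p ∈ Γ := by
      intro a ha
      rw [hS2, Finset.mem_filter, show a = (a.1, a.2) from rfl, hS] at ha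
      obtain ⟨h1, h2, h3⟩ := ha
      unfold Vis at h3
      push Not at h3
      obtain ⟨h4, δ, h5, h6⟩ := h3
      refine ⟨h1, h2, h4, ?_⟩
      have : a.1 / p = δ := by
        rw [div_eq_iff hp0.ne', mul_comm]
        exact h6
      rw [this]
      exact h5
    set R : (Lau k)[X] := ∑ a ∈ S2, monomial (a.2 / p) (mon (a.1 / p) (rt (co P a.1 a.2)))
      with hR
    have hRp : R ^ p = part P S2 := by
      rw [hR, sum_pow_char]
      unfold part
      refine Finset.sum_congr rfl fun a ha => ?_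
      obtain ⟨h1, h2, h3, h4⟩ := hS2' a ha
      rw [monomial_pow, mon_pow, hrt, Nat.div_mul_cancel h3, mul_div_cancel₀ _ hp0.ne']
    have hRsupp : ∀ γ l, co R γ l ≠ 0 → ∃ a ∈ S2, γ = a.1 / p ∧ l = a.2 / p := by
      intro γ l h1
      rw [hR, co_sum] at h1
      obtain ⟨a, ha, h2⟩ := Finset.exists_ne_zero_of_sum_ne_zero h1
      rw [co_monomial] at h2
      refine ⟨a, ha, ?_⟩
      by_contra h3
      apply h2
      rw [if_neg]
      intro h4
      exact h3 ⟨(Prod.ext_iff.1 h4).1.symm, (Prod.ext_iff.1 h4).2.symm⟩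
    have hRΓ : SuppIn Γ R := by
      intro γ l h1
      obtain ⟨a, ha, rfl, rfl⟩ := hRsupp γ l h1
      exact (hS2' a ha).2.2.2
    have hRn : ∀ γ l, co R γ l ≠ 0 → γ < 0 → ¬ ∃ δ ∈ Γ, γ = (p : ℝ) ^ n * δ := by
      rintro γ l h1 - ⟨δ, hδ, h2⟩
      obtain ⟨a, ha, h3, -⟩ := hRsupp γ l h1
      obtain ⟨h4, h5, -, -⟩ := hS2' a ha
      apply h a.1 a.2 h4 h5
      refine ⟨δ, hδ, ?_⟩
      rw [pow_succ, mul_right_comm, ← h2, h3, div_mul_cancel₀ _ hp0.ne']
    have hRdeg : p * R.natDegree ≤ P.natDegree := by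
      have : R.natDegree ≤ P.natDegree / p := by
        apply natDegree_le_of_co
        intro γ l h1
        obtain ⟨a, ha, -, rfl⟩ := hRsupp γ l h1
        exact Nat.div_le_div_right (le_natDegree_of_co (hS2' a ha).1)
      calc p * R.natDegree ≤ p * (P.natDegree / p) := Nat.mul_le_mul_left _ this
        _ ≤ P.natDegree := Nat.mul_div_le _ _
    have hRdeg' : R.natDegree ≤ P.natDegree := le_trans (Nat.le_mul_of_pos_left _ hp.pos) hRdeg
    obtain ⟨G, H, E, hG, hH, hE, heq, hG1, hE1, hHd, hGd, hκ⟩ := ih R hRΓ hRn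
    have hpart : ∀ T : Finset (ℝ × ℕ), ∀ γ l, co (part P T) γ l ≠ 0 →
        (γ, l) ∈ T ∧ co P γ l ≠ 0 := by
      intro T γ l h1
      rw [co_part] at h1
      by_cases h2 : (γ, l) ∈ T
      · rw [if_pos h2] at h1; exact ⟨h2, h1⟩
      · rw [if_neg h2] at h1; exact absurd rfl h1
    have hadd : ∀ A B : (Lau k)[X], ∀ γ l, co (A + B) γ l ≠ 0 → co A γ l ≠ 0 ∨ co B γ l ≠ 0 := by
      intro A B γ l h1
      by_contra h2
      push Not at h2
      apply h1
      rw [co_add, h2.1, h2.2, add_zero]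
    refine ⟨part P S1 + G, R + H, part P S3 + E, ?_, ?_, ?_, ?_, ?_, ?_, ?_, ?_, ?_⟩
    · intro γ l h1
      rcases hadd _ _ γ l h1 with h2 | h2
      · exact hP γ l (hpart _ _ _ h2).2
      · exact hG γ l h2
    · intro γ l h1
      rcases hadd _ _ γ l h1 with h2 | h2
      · exact hRΓ γ l h2
      · exact hH γ l h2
    · intro γ l h1
      rcases hadd _ _ γ l h1 with h2 | h2
      · exact hP γ l (hpart _ _ _ h2).2
      · exact hE γ l h2
    · rw [add_pow_char, hRp]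
      calc P = part P S1 + part P S2 + part P S3 := hdec
        _ = part P S1 + part P S2 + part P S3 + ((G + (H ^ p - H) + E) - R) := by
          rw [← heq]; ring
        _ = _ := by ring
    · intro γ l h1
      rcases hadd _ _ γ l h1 with h2 | h2
      · have h3 := (hpart _ _ _ h2).1
        rw [hS1, Finset.mem_filter] at h3
        exact h3.2
      · exact hG1 γ l h2
    · intro γ l h1
      rcases hadd _ _ γ l h1 with h2 | h2
      · have h3 := (hpart _ _ _ h2).1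
        rw [hS3, Finset.mem_filter] at h3
        exact not_lt.1 h3.2
      · exact hE1 γ l h2
    · have h1 : (R + H).natDegree ≤ max R.natDegree H.natDegree := natDegree_add_le _ _
      have h2 : p * H.natDegree ≤ P.natDegree := hHd.trans hRdeg'
      rcases le_max_iff.1 h1 with h3 | h3
      · exact (Nat.mul_le_mul_left _ h3).trans hRdeg
      · exact (Nat.mul_le_mul_left _ h3).trans h2
    · refine (natDegree_add_le _ _).trans (max_le ?_ (hGd.trans hRdeg'))
      apply natDegree_le_of_co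
      intro γ l h1
      exact le_natDegree_of_co (hpart _ _ _ h1).2
    · intro κ hκ0 hκP
      have hκR : ∀ γ l, co R γ l ≠ 0 → κ / p ≤ γ := by
        intro γ l h1
        obtain ⟨a, ha, rfl, -⟩ := hRsupp γ l h1
        exact div_le_div_of_nonneg_right (hκP _ _ (hS2' a ha).1) hp0.le
      have hlt : κ < κ / p := by
        rw [lt_div_iff₀ hp0]
        nlinarith
      obtain ⟨h1, -⟩ := hκ (κ / p) (div_neg_of_neg_of_pos hκ0 hp0) hκR
      refine ⟨?_, ?_⟩
      · intro γ l h2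
        rcases hadd _ _ γ l h2 with h3 | h3
        · exact hκP γ l (hpart _ _ _ h3).2
        · exact hlt.le.trans (h1 γ l h3)
      · intro l hl
        have h4 : co G κ l = 0 := by
          by_contra h5
          exact absurd (h1 κ l h5) (not_le.2 hlt)
        rw [co_add, h4, add_zero, co_part]
        simp only [hS1, Finset.mem_filter, hS]
        by_cases h5 : co P κ l = 0
        · simp [h5]
        · simp [h5, hκ0, hl]

theorem as_reduce (p : ℕ) (hp : p.Prime) [CharP k p] [IsAlgClosed k] (Γ : AddSubgroup ℝ)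
    (hΓ : Γ.FG) (P : (Lau k)[X]) (hP : SuppIn Γ P) :
    ∃ G H E : (Lau k)[X], SuppIn Γ G ∧ SuppIn Γ H ∧ SuppIn Γ E ∧ P = G + (H ^ p - H) + E ∧
      (∀ γ l, co G γ l ≠ 0 → γ < 0 ∧ Vis p Γ γ l) ∧ (∀ γ l, co E γ l ≠ 0 → 0 ≤ γ) ∧
      p * H.natDegree ≤ P.natDegree ∧ G.natDegree ≤ P.natDegree ∧
      ∀ κ, κ < 0 → (∀ γ l, co P γ l ≠ 0 → κ ≤ γ) →
        (∀ γ l, co G γ l ≠ 0 → κ ≤ γ) ∧
        ∀ D, IsLD (Vis p Γ) P 0 κ D → IsLD (Vis p Γ) G 0 κ D := by
  classical
  obtain ⟨S, hS⟩ := exists_finset_co P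
  choose N hN using fun γ : {γ : ℝ // γ ≠ 0} => exists_not_dvd p hp Γ hΓ γ.1 γ.2
  let N' : ℝ → ℕ := fun γ => if h : γ = 0 then 0 else N ⟨γ, h⟩
  obtain ⟨G, H, E, hG, hH, hE, heq, hG1, hE1, hHd, hGd, hκ⟩ :=
    as_reduce_aux p hp Γ (S.sup fun a => N' a.1) P hP (by
      intro γ l h1 h2
      have h3 : N' γ ≤ S.sup fun a => N' a.1 :=
        Finset.le_sup (f := fun a : ℝ × ℕ => N' a.1) ((hS γ l).2 h1)
      have h4 : N' γ = N ⟨γ, h2.ne⟩ := dif_neg h2.ne
      exact hN ⟨γ, h2.ne⟩ _ (h4 ▸ h3))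
  refine ⟨G, H, E, hG, hH, hE, heq, hG1, hE1, hHd, hGd, ?_⟩
  intro κ hκ0 hκP
  obtain ⟨h1, h2⟩ := hκ κ hκ0 hκP
  refine ⟨h1, ?_⟩
  rintro D ⟨h3, h4, h5, h6⟩
  simp only [mul_zero, sub_zero, add_zero] at h3 h4 h5 h6
  refine ⟨?_, ?_, ?_, ?_⟩
  · intro γ l h7 _
    rw [mul_zero, add_zero]
    exact h1 γ l h7
  · intro γ l h7 h8 h9
    rw [mul_zero, add_zero]
    refine lt_of_le_of_ne (h1 γ l h7) ?_
    rintro rfl
    rw [h2 l h8] at h7
    exact lt_irrefl _ (h4 _ l h7 h8 h9)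
  · rw [mul_zero, sub_zero, h2 D h6]
    exact h5
  · rw [mul_zero, sub_zero]
    exact h6

end Pool.Agent.LU1
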