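import Pool.Agent.Lib.LU1_h15.AS

/-! # Auxiliary facts for the cleaning of Artin-Schreier classes (helper85) -/

set_option autoImplicit false

open Polynomial

namespace Pool.Agent.LU1

open Pool.Agent.H15JM (RVal)

universe u

section Poly

variable {k : Type u} [Field k]

open Classical in
/-- The part of `P` made of the monomials in `V`. -/
noncomputable def pf (V : ℝ → ℕ → Prop) (P : (Lau k)[X]) : (Lau k)[X] :=
  ∑ l ∈ P.support,
    C (AddMonoidAlgebra.ofCoeff ((P.coeff l).coeff.filter fun γ => V γ l)) * X ^ l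

open Classical in
theorem co_pf (V : ℝ → ℕ → Prop) (P : (Lau k)[X]) (γ : ℝ) (l : ℕ) :
    co (pf V P) γ l = if V γ l then co P γ l else 0 := by
  have h1 : (pf V P).coeff l =
      AddMonoidAlgebra.ofCoeff ((P.coeff l).coeff.filter fun γ => V γ l) := by
    rw [pf, finsetSum_coeff]
    by_cases hl : l ∈ P.support
    · rw [Finset.sum_eq_single l]
      · rw [coeff_C_mul_X_pow, if_pos rfl]
      · intro m _ hm
        rw [coeff_C_mul_X_pow, if_neg hm.symm]
      · exact fun h => absurd hl h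
    · rw [Finset.sum_eq_zero]
      · rw [notMem_support_iff.1 hl]
        ext a
        rw [AddMonoidAlgebra.coeff_zero, AddMonoidAlgebra.coeff_ofCoeff, Finsupp.filter_zero]
      · intro m hm
        rw [coeff_C_mul_X_pow, if_neg]
        rintro rfl
        exact hl hm
  rw [co, cf, h1, AddMonoidAlgebra.coeff_ofCoeff, Finsupp.filter_apply]
  rfl

theorem co_add (P Q : (Lau k)[X]) (γ : ℝ) (l : ℕ) : co (P + Q) γ l = co P γ l + co Q γ l := by
  simp [co, cf]

theorem co_sub (P Q : (Lau k)[X]) (γ : ℝ) (l : ℕ) : co (P - Q) γ l = co P γ l - co Q γ l := by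
  simp [co, cf]

theorem co_zero (γ : ℝ) (l : ℕ) : co (0 : (Lau k)[X]) γ l = 0 := by
  simp [co, cf]

theorem co_ext {P Q : (Lau k)[X]} (h : ∀ γ l, co P γ l = co Q γ l) : P = Q := by
  refine Polynomial.ext fun l => AddMonoidAlgebra.coeff_injective ?_
  ext γ
  exact h γ l

open Classical in
theorem pf_add_pf (V : ℝ → ℕ → Prop) (P : (Lau k)[X]) :
    pf V P + pf (fun γ l => ¬ V γ l) P = P := by
  refine co_ext fun γ l => ?_
  rw [co_add, co_pf, co_pf]
  by_cases h : V γ l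
  · rw [if_pos h, if_neg (not_not.2 h), add_zero]
  · rw [if_neg h, if_pos h, zero_add]

theorem co_pf_ne {V : ℝ → ℕ → Prop} {P : (Lau k)[X]} {γ : ℝ} {l : ℕ}
    (h : co (pf V P) γ l ≠ 0) : V γ l ∧ co P γ l ≠ 0 := by
  classical
  rw [co_pf] at h
  by_cases h1 : V γ l
  · rw [if_pos h1] at h
    exact ⟨h1, h⟩
  · rw [if_neg h1] at h
    exact absurd rfl h

theorem co_pf_of {V : ℝ → ℕ → Prop} {P : (Lau k)[X]} {γ : ℝ} {l : ℕ} (h : V γ l) :
    co (pf V P) γ l = co P γ l := by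
  classical
  rw [co_pf, if_pos h]

theorem SuppIn.pf {Γ : AddSubgroup ℝ} {P : (Lau k)[X]} (hP : SuppIn Γ P)
    (V : ℝ → ℕ → Prop) : SuppIn Γ (pf V P) := fun γ l h => hP γ l (co_pf_ne h).2

theorem natDegree_pf_le (V : ℝ → ℕ → Prop) (P : (Lau k)[X]) :
    (LU1.pf V P).natDegree ≤ P.natDegree := by
  classical
  rw [LU1.pf]
  refine natDegree_sum_le_of_forall_le _ _ fun l hl => ?_
  exact (natDegree_C_mul_X_pow_le _ _).trans (le_natDegree_of_mem_supp l hl)

/-- The finite support of a polynomial. -/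
theorem exists_suppAS (P : (Lau k)[X]) :
    ∃ S : Finset (ℝ × ℕ), ∀ a : ℝ × ℕ, a ∈ S ↔ co P a.1 a.2 ≠ 0 := by
  classical
  refine ⟨P.support.biUnion fun l => (P.coeff l).coeff.support.image fun γ => (γ, l), ?_⟩
  rintro ⟨γ, l⟩
  simp only [Finset.mem_biUnion, Finset.mem_image, Prod.mk.injEq]
  constructor
  · rintro ⟨l', hl', γ', hγ', rfl, rfl⟩
    exact Finsupp.mem_support_iff.1 hγ'
  · intro h
    refine ⟨l, ?_, γ, Finsupp.mem_support_iff.2 h, rfl, rfl⟩
    rw [mem_support_iff]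
    intro h0
    apply h
    rw [co, h0]
    rfl

theorem exists_co_ne {P : (Lau k)[X]} (h : P ≠ 0) : ∃ γ l, co P γ l ≠ 0 := by
  by_contra hcon
  push Not at hcon
  exact h (co_ext fun γ l => by rw [hcon, co_zero])

theorem mon_mul (γ δ : ℝ) (a b : k) : mon γ a * mon δ b = mon (γ + δ) (a * b) := by
  rw [mon, mon, AddMonoidAlgebra.single_mul_single]
  rfl

theorem mon_zero_one : mon (k := k) 0 1 = 1 := rfl

theorem SuppIn.zero (Γ : AddSubgroup ℝ) : SuppIn Γ (0 : (Lau k)[X]) := fun γ l h =>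
  absurd (co_zero γ l) h

theorem SuppIn.neg {Γ : AddSubgroup ℝ} {P : (Lau k)[X]} (hP : SuppIn Γ P) : SuppIn Γ (-P) := by
  intro γ l h
  apply hP γ l
  intro h0
  apply h
  have := co_sub 0 P γ l
  rw [zero_sub] at this
  rw [this, co_zero, h0, sub_zero]

theorem SuppIn.sub {Γ : AddSubgroup ℝ} {P Q : (Lau k)[X]} (hP : SuppIn Γ P)
    (hQ : SuppIn Γ Q) : SuppIn Γ (P - Q) := by
  rw [sub_eq_add_neg]
  exact hP.add hQ.neg

theorem SuppIn.cmon {Γ : AddSubgroup ℝ} {γ : ℝ} (h : γ ∈ Γ) (c : k) :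
    SuppIn Γ (C (mon γ c)) := by
  intro δ l hδ
  by_cases hl : l = 0
  · subst hl
    rw [co, coeff_C_zero, cf, mon, AddMonoidAlgebra.coeff_single, Finsupp.single_apply] at hδ
    by_cases h1 : γ = δ
    · rw [← h1]; exact h
    · rw [if_neg h1] at hδ
      exact absurd rfl hδ
  · rw [co, coeff_C_of_ne_zero hl] at hδ
    exact absurd rfl hδ

theorem SuppIn.one (Γ : AddSubgroup ℝ) : SuppIn Γ (1 : (Lau k)[X]) := by
  rw [← C_1, ← mon_zero_one]
  exact SuppIn.cmon Γ.zero_mem 1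

theorem SuppIn.pow {Γ : AddSubgroup ℝ} {P : (Lau k)[X]} (hP : SuppIn Γ P) (n : ℕ) :
    SuppIn Γ (P ^ n) := by
  induction n with
  | zero => rw [pow_zero]; exact SuppIn.one Γ
  | succ n ih => rw [pow_succ]; exact ih.mul hP

end Poly

section Frame

variable {k Ω : Type u} [Field k] [Field Ω] [Algebra k Ω] {v : RVal Ω} {r : ℕ}

theorem BF.ev_zero (B : BF k v) : B.ev 0 = 0 := by
  have h := B.ev_add 0 0
  rw [add_zero] at h
  exact (left_eq_add.1 h)

theorem BF.ev_one (B : BF k v) : B.ev 1 = 1 := by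
  have h := B.ev_monomial 0 (1 : k) 0
  rw [mon_zero_one, C_1, one_mul, pow_zero, B.χ_zero, _root_.map_one, mul_one, pow_zero,
    mul_one] at h
  exact h

theorem BF.ev_pow (B : BF k v) {P : (Lau k)[X]} (hP : SuppIn B.Γ P) (n : ℕ) :
    B.ev (P ^ n) = B.ev P ^ n := by
  induction n with
  | zero => rw [pow_zero, pow_zero, B.ev_one]
  | succ n ih => rw [pow_succ, pow_succ, B.ev_mul (hP.pow n) hP, ih]

theorem BF.χ_mem_E (B : BF k v) {E : IntermediateField k Ω} (hE : FracIs B.R E) {γ : ℝ}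
    (h : γ ∈ B.Γ) : B.χ γ ∈ E := by
  rcases le_total 0 γ with h0 | h0
  · exact hE.1 _ (B.χ_mem γ h h0)
  · have h1 := hE.1 _ (B.χ_mem (-γ) (B.Γ.neg_mem h) (neg_nonneg.2 h0))
    rw [B.χ_neg h] at h1
    have := E.inv_mem h1
    rwa [inv_inv] at this

theorem BF.ev_mem_E (B : BF k v) {E : IntermediateField k Ω} (hE : FracIs B.R E)
    {P : (Lau k)[X]} (hP : SuppIn B.Γ P) : B.ev P ∈ E := by
  rw [B.ev_eq]
  refine E.sum_mem fun l _ => E.sum_mem fun γ hγ => ?_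
  exact E.mul_mem (E.mul_mem (E.algebraMap_mem _)
    (B.χ_mem_E hE (hP γ l (Finsupp.mem_support_iff.1 hγ)))) (_root_.pow_mem (hE.1 _ B.y_mem) l)

/-- The non-polar part of a polynomial becomes regular after a T-step. -/
theorem IsTStep.ev_mem_of_nonneg {B B' : BF k v} {q : ℕ} {c : k} {s : ℝ → ℤ → ℤ}
    (h : IsTStep B B' q c s) {P : (Lau k)[X]} (hP : SuppIn B.Γ P)
    (h0 : ∀ γ l, co P γ l ≠ 0 → 0 ≤ γ + l * v B.y) : B.ev P ∈ B'.R := by
  rw [B.ev_eq]
  refine B'.R.sum_mem fun l _ => B'.R.sum_mem fun γ hγ => ?_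
  have h1 := Finsupp.mem_support_iff.1 hγ
  have hγΓ := hP γ l h1
  have h2 := h.χ_mul hγΓ (l : ℤ)
  rw [zpow_natCast] at h2
  rw [mul_assoc, h2]
  refine B'.R.mul_mem (B'.R.algebraMap_mem _) (B'.R.mul_mem (B'.χ_mem _ ?_ ?_)
    (h.un_w.zpow _).1)
  · exact B'.Γ.add_mem (h.Γ_le hγΓ) (by
      rw [← zsmul_eq_mul]; exact B'.Γ.zsmul_mem h.β_mem _)
  · have := h0 γ l h1
    exact_mod_cast this

/-- One T-step of a polynomial: the polar part is transformed, the rest becomes regular. -/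
theorem BF.exists_step (h : Ctx k v r) (B : BF k v) {P : (Lau k)[X]} (hP : SuppIn B.Γ P) :
    ∃ (B' : BF k v) (q : ℕ) (c : k) (s : ℝ → ℤ → ℤ), IsTStep B B' q c s ∧
      (q = 1 → ∀ γ ∈ B.Γ, ∀ l : ℤ, s γ l = l) ∧
      (∀ γ l, co (pf (fun γ l => γ + l * v B.y < 0) P) γ l ≠ 0 → 0 ≤ s γ l) ∧
      SuppIn B'.Γ (tpoly (v B.y) c s (pf (fun γ l => γ + l * v B.y < 0) P)) ∧
      B.ev P - B'.ev (tpoly (v B.y) c s (pf (fun γ l => γ + l * v B.y < 0) P)) ∈ B'.R := by
  obtain ⟨S, hS⟩ := exists_suppAS P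
  obtain ⟨B', q, c, s, hT, hs, hq⟩ := B.exists_tstep h S
    (fun a ha => hP _ _ ((hS a).1 ha)) (-1) (Or.inr rfl)
  set V : ℝ → ℕ → Prop := fun γ l => γ + l * v B.y < 0 with hV
  have hA : ∀ γ l, co (pf V P) γ l ≠ 0 → 0 ≤ s γ l := by
    intro γ l h1
    obtain ⟨h2, h3⟩ := co_pf_ne h1
    refine hs (γ, l) ((hS _).2 h3) ?_
    have h4 : γ + l * v B.y < 0 := h2
    show 0 < -1 * (γ + l * v B.y)
    linarith
  refine ⟨B', q, c, s, hT, hq, hA, ?_, ?_⟩
  · rw [hT.Γ_eq]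
    exact (hP.pf V).tpoly
  · rw [hT.ev_tpoly (hP.pf V) hA]
    have h1 : B.ev P = B.ev (pf V P) + B.ev (pf (fun γ l => ¬ V γ l) P) := by
      rw [← B.ev_add, pf_add_pf]
    rw [h1, add_sub_cancel_left]
    refine hT.ev_mem_of_nonneg (hP.pf _) fun γ l h2 => ?_
    have := (co_pf_ne h2).1
    exact not_lt.1 this

end Frame

end Pool.Agent.LU1
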