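import Pool.Agent.Lib.LU1_h15.Basic

/-! # H2: the standing assumptions pass to an algebraic extension -/

set_option autoImplicit false

open Polynomial

namespace Pool.Agent.LU1

open Pool.Agent.H15JM (RVal)

universe u

namespace ExtVal_H2

/-- In a vanishing sum two different terms have the same (minimal) value. -/
theorem two_min {Ω : Type*} [Field Ω] (w : RVal Ω) {ι : Type*} (s : Finset ι) (f : ι → Ω)
    (h0 : ∑ i ∈ s, f i = 0) (hne : ∃ i ∈ s, f i ≠ 0) :
    ∃ i ∈ s, ∃ j ∈ s, i ≠ j ∧ f i ≠ 0 ∧ f j ≠ 0 ∧ w (f i) = w (f j) := by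
  classical
  set s' := s.filter fun i => f i ≠ 0 with hs'
  have hsum : ∑ i ∈ s', f i = 0 := by
    rw [hs', Finset.sum_filter_ne_zero]; exact h0
  have hne' : s'.Nonempty := by
    obtain ⟨i, hi, hi0⟩ := hne
    exact ⟨i, by rw [hs', Finset.mem_filter]; exact ⟨hi, hi0⟩⟩
  obtain ⟨i, hi, hmin⟩ := Finset.exists_min_image s' (fun i => w (f i)) hne'
  have hi' := hi
  rw [hs', Finset.mem_filter] at hi'
  rw [← Finset.add_sum_erase s' f hi] at hsum
  have hg : ∑ j ∈ s'.erase i, f j = -f i := (neg_eq_of_add_eq_zero_right hsum).symm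
  have hg0 : ∑ j ∈ s'.erase i, f j ≠ 0 := by rw [hg]; exact neg_ne_zero.mpr hi'.2
  have hne2 : (s'.erase i).Nonempty := by
    by_contra hcon
    rw [Finset.not_nonempty_iff_eq_empty] at hcon
    rw [hcon] at hg0
    exact hg0 Finset.sum_empty
  obtain ⟨j, hj, hminj⟩ := Finset.exists_min_image (s'.erase i) (fun i => w (f i)) hne2
  have hge : w.Ge (w (f j)) (∑ j ∈ s'.erase i, f j) :=
    RVal.Ge.sum _ _ fun l hl => RVal.Ge.of_le (hminj l hl)
  have h1 := hge hg0
  rw [hg, w.map_neg _ hi'.2] at h1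
  have hj1 := Finset.mem_of_mem_erase hj
  have hj2 := hj1
  rw [hs', Finset.mem_filter] at hj2
  exact ⟨i, hi'.1, j, hj2.1, (Finset.ne_of_mem_erase hj).symm, hi'.2, hj2.2,
    le_antisymm (hmin j hj1) h1⟩

/-- The values of an algebraic extension are commensurable with those of the base. -/
theorem val_mem_span {K Ω : Type u} [Field K] [Field Ω] [Algebra K Ω]
    [Algebra.IsAlgebraic K Ω] (v : RVal K) (w : RVal Ω)
    (hw : ∀ g : K, g ≠ 0 → w (algebraMap K Ω g) = v g) (V : Submodule ℚ ℝ)
    (hV : ∀ g : K, g ≠ 0 → v g ∈ V) (g : Ω) (hg : g ≠ 0) : w g ∈ V := by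
  obtain ⟨P, hP, hPg⟩ := Algebra.IsAlgebraic.isAlgebraic (R := K) g
  rw [aeval_def, eval₂_eq_sum, sum_def] at hPg
  have hne : ∃ i ∈ P.support, algebraMap K Ω (P.coeff i) * g ^ i ≠ 0 := by
    obtain ⟨i, hi⟩ := (Polynomial.nonempty_support_iff).mpr hP
    refine ⟨i, hi, mul_ne_zero ?_ (pow_ne_zero _ hg)⟩
    rw [_root_.map_ne_zero]
    exact mem_support_iff.mp hi
  obtain ⟨i, hi, j, hj, hij, hfi, hfj, heq⟩ := two_min w _ _ hPg hne
  have hai : P.coeff i ≠ 0 := mem_support_iff.mp hi
  have haj : P.coeff j ≠ 0 := mem_support_iff.mp hj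
  rw [w.map_mul (left_ne_zero_of_mul hfi) (pow_ne_zero _ hg), w.map_pow hg, hw _ hai,
    w.map_mul (left_ne_zero_of_mul hfj) (pow_ne_zero _ hg), w.map_pow hg, hw _ haj] at heq
  have hij' : ((i : ℝ) - j) ≠ 0 := by
    intro h
    exact hij (by exact_mod_cast sub_eq_zero.mp h)
  have h1 : w g = ((i : ℚ) - (j : ℚ))⁻¹ • (v (P.coeff j) - v (P.coeff i)) := by
    rw [Rat.smul_def]
    push_cast
    rw [eq_inv_mul_iff_mul_eq₀ hij']
    linarith
  rw [h1]
  exact V.smul_mem _ (V.sub_mem (hV _ haj) (hV _ hai))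

/-- The residue field does not grow. -/
theorem residue_ext {k K Ω : Type u} [Field k] [Field K] [Field Ω] [Algebra k K] [Algebra K Ω]
    [Algebra k Ω] [IsScalarTower k K Ω] [Algebra.IsAlgebraic K Ω] [IsAlgClosed k] (v : RVal K)
    (r : ℕ) (h : Ctx k v r) (w : RVal Ω)
    (hw : ∀ g : K, g ≠ 0 → w (algebraMap K Ω g) = v g) (g : Ω) (hg : g ≠ 0) (hg0 : w g = 0) :
    ∃ c : k, c ≠ 0 ∧ VPos w (g - algebraMap k Ω c) := by
  classical
  have htriv : ∀ c : k, c ≠ 0 → w (algebraMap k Ω c) = 0 := by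
    intro c hc
    rw [IsScalarTower.algebraMap_apply k K Ω, hw _ (by rwa [_root_.map_ne_zero]), h.triv c hc]
  have hge1 : ∀ n : ℕ, w.Ge 0 (g ^ n) := by
    intro n _
    rw [w.map_pow hg, hg0, mul_zero]
  obtain ⟨P, hP, hPg⟩ := Algebra.IsAlgebraic.isAlgebraic (R := K) g
  have hsne := (Polynomial.nonempty_support_iff).mpr hP
  obtain ⟨i₀, hi₀, hmin⟩ := Finset.exists_min_image P.support (fun i => v (P.coeff i)) hsne
  have ha₀ : P.coeff i₀ ≠ 0 := mem_support_iff.mp hi₀
  -- the normalised coefficients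
  have hres : ∀ i, ∃ c : k, VPos v ((P.coeff i₀)⁻¹ * P.coeff i - algebraMap k K c) ∧
      (i = i₀ → c = 1) ∧ (P.coeff i = 0 → c = 0) := by
    intro i
    by_cases hi : i = i₀
    · subst hi
      refine ⟨1, ?_, fun _ => rfl, fun h => absurd h ha₀⟩
      rw [inv_mul_cancel₀ ha₀, _root_.map_one, sub_self]
      exact VPos.zero
    by_cases hi0 : P.coeff i = 0
    · refine ⟨0, ?_, fun h => absurd h hi, fun _ => rfl⟩
      rw [hi0, mul_zero, _root_.map_zero, sub_zero]
      exact VPos.zero
    · have : v.Ge 0 ((P.coeff i₀)⁻¹ * P.coeff i) := by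
        intro _
        rw [v.map_mul (inv_ne_zero ha₀) hi0, v.map_inv ha₀]
        have := hmin i (mem_support_iff.mpr hi0)
        linarith
      obtain ⟨c, hc⟩ := h.residue this
      exact ⟨c, hc, fun h => absurd h hi, fun h => absurd h hi0⟩
  choose c hc hc1 hc0 using hres
  set p : k[X] := ∑ i ∈ P.support, C (c i) * X ^ i with hp
  have hpcoeff : p.coeff i₀ = 1 := by
    rw [hp, finsetSum_coeff]
    rw [Finset.sum_eq_single i₀]
    · rw [coeff_C_mul_X_pow, if_pos rfl, hc1 i₀ rfl]
    · intro j _ hj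
      rw [coeff_C_mul_X_pow, if_neg (Ne.symm hj)]
    · intro h
      exact absurd hi₀ h
  have hp0 : p ≠ 0 := by
    intro h
    rw [h, coeff_zero] at hpcoeff
    exact zero_ne_one hpcoeff
  -- the value of `p` at `g` is positive
  have hpg : VPos w (aeval g p) := by
    have h1 : aeval g p = ∑ i ∈ P.support, algebraMap k Ω (c i) * g ^ i := by
      rw [hp, map_sum]
      refine Finset.sum_congr rfl fun i _ => ?_
      rw [_root_.map_mul, aeval_C, _root_.map_pow, aeval_X]
    have h2 : ∑ i ∈ P.support, algebraMap K Ω ((P.coeff i₀)⁻¹ * P.coeff i) * g ^ i = 0 := by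
      rw [aeval_def, eval₂_eq_sum, sum_def] at hPg
      have : ∀ i ∈ P.support, algebraMap K Ω ((P.coeff i₀)⁻¹ * P.coeff i) * g ^ i =
          algebraMap K Ω ((P.coeff i₀)⁻¹) * (algebraMap K Ω (P.coeff i) * g ^ i) := by
        intro i _
        rw [_root_.map_mul]; ring
      rw [Finset.sum_congr rfl this, ← Finset.mul_sum, hPg, mul_zero]
    have h3 : aeval g p = -∑ i ∈ P.support,
        algebraMap K Ω ((P.coeff i₀)⁻¹ * P.coeff i - algebraMap k K (c i)) * g ^ i := by
      rw [h1, ← sub_zero (∑ i ∈ P.support, algebraMap k Ω (c i) * g ^ i), ← h2,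
        ← Finset.sum_sub_distrib, ← Finset.sum_neg_distrib]
      refine Finset.sum_congr rfl fun i _ => ?_
      rw [_root_.map_sub, ← IsScalarTower.algebraMap_apply k K Ω]
      ring
    rw [h3]
    refine VPos.neg ?_
    have : ∀ s : Finset ℕ, VPos w (∑ i ∈ s,
        algebraMap K Ω ((P.coeff i₀)⁻¹ * P.coeff i - algebraMap k K (c i)) * g ^ i) := by
      intro s
      induction s using Finset.induction_on with
      | empty => rw [Finset.sum_empty]; exact VPos.zero
      | insert a s ha ih =>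
        rw [Finset.sum_insert ha]
        refine VPos.add (VPos.mul ?_ (hge1 a)) ih
        intro hne
        have hne' : (P.coeff i₀)⁻¹ * P.coeff a - algebraMap k K (c a) ≠ 0 := by
          intro h
          rw [h, _root_.map_zero] at hne
          exact hne rfl
        rw [hw _ hne']
        exact hc a hne'
    exact this _
  -- `p` splits
  have hsplit : p.Splits := IsAlgClosed.splits p
  have hroots : aeval g p = algebraMap k Ω p.leadingCoeff *
      (p.roots.map fun a => g - algebraMap k Ω a).prod := by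
    conv_lhs => rw [hsplit.eq_prod_roots]
    rw [_root_.map_mul, aeval_C, _root_.map_multiset_prod, Multiset.map_map]
    congr 2
    refine Multiset.map_congr rfl fun a _ => ?_
    simp
  have hlc : w.Ge 0 (algebraMap k Ω p.leadingCoeff) := by
    intro _
    rw [htriv _ (leadingCoeff_ne_zero.mpr hp0)]
  -- one factor has positive value
  have hkey : ∃ a ∈ p.roots, VPos w (g - algebraMap k Ω a) := by
    by_contra hcon
    push Not at hcon
    have hfac : ∀ a ∈ p.roots, g - algebraMap k Ω a ≠ 0 ∧ w (g - algebraMap k Ω a) = 0 := by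
      intro a ha
      have h1 := hcon a ha
      unfold VPos at h1
      push Not at h1
      refine ⟨h1.1, le_antisymm h1.2 ?_⟩
      have h2 : w.Ge 0 (g - algebraMap k Ω a) := by
        refine RVal.Ge.sub (fun _ => hg0.ge) fun h0 => ?_
        have : a ≠ 0 := by rintro rfl; simp at h0
        rw [htriv a this]
      exact h2 h1.1
    have hprod : ∀ s : Multiset k, (∀ a ∈ s, g - algebraMap k Ω a ≠ 0 ∧
        w (g - algebraMap k Ω a) = 0) →
        (s.map fun a => g - algebraMap k Ω a).prod ≠ 0 ∧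
        w (s.map fun a => g - algebraMap k Ω a).prod = 0 := by
      intro s
      induction s using Multiset.induction_on with
      | empty => intro _; simp [w.map_one]
      | cons a s ih =>
        intro hs
        have h1 := hs a (Multiset.mem_cons_self a s)
        have h2 := ih fun b hb => hs b (Multiset.mem_cons_of_mem hb)
        rw [Multiset.map_cons, Multiset.prod_cons]
        refine ⟨mul_ne_zero h1.1 h2.1, ?_⟩
        rw [w.map_mul h1.1 h2.1, h1.2, h2.2, add_zero]
    have h1 := hprod p.roots hfac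
    have hlc0 : algebraMap k Ω p.leadingCoeff ≠ 0 := by
      rw [_root_.map_ne_zero]; exact leadingCoeff_ne_zero.mpr hp0
    have h2 : aeval g p ≠ 0 := by rw [hroots]; exact mul_ne_zero hlc0 h1.1
    have h3 := hpg h2
    rw [hroots, w.map_mul hlc0 h1.1, h1.2, htriv _ (leadingCoeff_ne_zero.mpr hp0)] at h3
    simp at h3
  obtain ⟨a, -, ha⟩ := hkey
  refine ⟨a, ?_, ha⟩
  rintro rfl
  rw [_root_.map_zero, sub_zero] at ha
  have := ha hg
  rw [hg0] at this
  exact lt_irrefl _ this

end ExtVal_H2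

open ExtVal_H2 in
/-- The standing assumptions pass to an algebraic extension. -/
theorem Ctx.of_ext (k K Ω : Type u) [Field k] [Field K] [Field Ω] [Algebra k K] [Algebra K Ω]
    [Algebra k Ω] [IsScalarTower k K Ω] [Algebra.IsAlgebraic K Ω] [IsAlgClosed k] (v : RVal K)
    (r : ℕ) (h : Ctx k v r) (w : RVal Ω)
    (hw : ∀ g : K, g ≠ 0 → w (algebraMap K Ω g) = v g) : Ctx k w r where
  triv := by
    intro c hc
    rw [IsScalarTower.algebraMap_apply k K Ω, hw _ (by rwa [_root_.map_ne_zero]), h.triv c hc]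
  res := residue_ext v r h w hw
  rpos := h.rpos
  trdeg := by
    have h1 := trdeg_add_eq k K (A := Ω)
    rw [trdeg_eq_zero (R := K) (A := Ω), add_zero] at h1
    rw [← h1]
    exact h.trdeg
  rank := by
    obtain ⟨X, hX, hind, hspan⟩ := h.rank
    have hXw : (fun i => w (algebraMap K Ω (X i))) = fun i => v (X i) := by
      funext i
      exact hw _ (hX i)
    refine ⟨fun i => algebraMap K Ω (X i), fun i => by simpa using hX i, ?_, ?_⟩
    · rw [hXw]; exact hind
    · rw [hXw]
      exact val_mem_span v w hw _ hspan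

end Pool.Agent.LU1
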