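import Pool.Agent.Lib.LU1_h15.QPropA

/-! # E2: frames of the form `A[g_i / g]` -/

set_option autoImplicit false

namespace Pool.Agent.LU1

open Pool.Agent.H15JM (RVal)

universe u

variable {k Ω : Type u} [Field k] [Field Ω] [Algebra k Ω] {v : RVal Ω} {r : ℕ}

/-- `f` is a Laurent monomial in the `x_i` times a unit, with all exponents positive if
`v f > 0`, negative if `v f < 0`, and zero if `v f = 0`. -/
def NF.MonoPos (N : NF k v r) (f : Ω) : Prop :=
  ∃ n : Fin r → ℤ, ∃ u : Ω, u ≠ 0 ∧ u ∈ N.R ∧ u⁻¹ ∈ N.R ∧ f = (∏ i, N.x i ^ n i) * u ∧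
    (0 < v f → ∀ i, 0 < n i) ∧ (v f < 0 → ∀ i, n i < 0) ∧ (v f = 0 → ∀ i, n i = 0)

/-- The Q-property (big frame version): everything is generated by elements of `A` which are
monomial in the frame. -/
theorem BF.exists_Q (p : ℕ) (hp : p.Prime) [CharP k p] (h : Ctx k v r) (B : BF k v)
    (L : IntermediateField k Ω) (hL : FracIs B.R L) (A : Finset Ω)
    (hA : ∀ a ∈ A, a ∈ L ∧ v.Ge 0 a)
    (hgen : ∀ g ∈ L, ∃ a ∈ Algebra.adjoin k (A : Set Ω), ∃ b ∈ Algebra.adjoin k (A : Set Ω),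
      b ≠ 0 ∧ g = a / b)
    (T : Finset Ω) (hT : ∀ t ∈ T, t ∈ L ∧ t ≠ 0) :
    ∃ B' : BF k v, Reach B B' ∧ (∀ a ∈ A, a ∈ B'.R) ∧ (∀ t ∈ T, B'.Mono t) ∧
      ∃ M : Finset Ω, (∀ m ∈ M, m ∈ Algebra.adjoin k (A : Set Ω) ∧ B'.Mono m) ∧
        (∀ γ ∈ B'.Γ, ∃ a ∈ Submonoid.closure (M : Set Ω), ∃ b ∈ Submonoid.closure (M : Set Ω),
          B'.χ γ = a / b) ∧
        ∃ F : Finset Ω, (∀ f ∈ F, f = 0 ∨ ∃ a ∈ Submonoid.closure (M : Set Ω),
            ∃ b ∈ Submonoid.closure (M : Set Ω), f = a / b) ∧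
          B'.y ∈ Algebra.adjoin k (F : Set Ω) ∧
          B'.R = locv v (Algebra.adjoin k ((F : Set Ω) ∪ B'.χ '' {γ | γ ∈ B'.Γ ∧ 0 ≤ γ})) := by
  classical
  obtain ⟨M₀, F₀, h₀, hA₀⟩ := QA.exists_init B L hL A hgen
  obtain ⟨B1, B', h1, h2, h3⟩ := ML' p hp h B L hL (M₀ ∪ T) (by
    intro f hf
    rcases Finset.mem_union.1 hf with hf | hf
    · refine ⟨?_, h₀.ne f hf⟩
      have h4 : Algebra.adjoin k (A : Set Ω) ≤ L.toSubalgebra := by
        rw [Algebra.adjoin_le_iff]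
        intro a ha
        exact (hA a ha).1
      exact h4 (h₀.mem f hf)
    · exact hT f hf)
  obtain ⟨M1, F1, hM1⟩ := h₀.reach h1
  obtain ⟨q, c, s, hs⟩ := h2
  obtain ⟨M, F, hM, hy⟩ := hM1.step hs
  have hM₀ : ∀ m ∈ M₀, B'.Mono m := fun m hm => h3 m (Finset.mem_union_left _ hm)
  refine ⟨B', h1.tail ⟨q, c, s, hs⟩, ?_, fun t ht => h3 t (Finset.mem_union_right _ ht), M,
    fun m hm => ⟨hM.mem m hm, hM.mono B' (Ext.refl B') hM₀ m hm⟩, ?_, F, ?_, hy, hM.R⟩
  · intro a ha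
    by_cases h0 : a = 0
    · rw [h0]
      exact B'.R.zero_mem
    · exact (hM₀ a (hA₀ a ha h0)).mem ((hA a ha).2 h0)
  · intro γ hγ
    exact hM.chi γ hγ
  · intro f hf
    exact hM.gen f hf

namespace QB

theorem goodBasis_mono {Γ : AddSubgroup ℝ} {S S' : Set ℝ} {u : Fin r → ℝ} (hS : S ⊆ S')
    (h : GoodBasis Γ S' u) : GoodBasis Γ S u :=
  ⟨h.mem, h.pos, h.ind, h.gen, fun γ hγ => h.cone γ (hS hγ)⟩

/-- `χ` of an integral combination. -/
theorem chi_sum (B : BF k v) (u : Fin r → ℝ) (hu : ∀ i, u i ∈ B.Γ) (n : Fin r → ℤ)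
    (s : Finset (Fin r)) :
    (∑ i ∈ s, (n i : ℝ) * u i) ∈ B.Γ ∧
      B.χ (∑ i ∈ s, (n i : ℝ) * u i) = ∏ i ∈ s, B.χ (u i) ^ n i := by
  classical
  induction s using Finset.induction_on with
  | empty =>
    rw [Finset.sum_empty, Finset.prod_empty]
    exact ⟨B.Γ.zero_mem, B.χ_zero⟩
  | insert i s hi ih =>
    have h1 : (n i : ℝ) * u i ∈ B.Γ := by
      rw [← zsmul_eq_mul]
      exact B.Γ.zsmul_mem (hu i) _
    rw [Finset.sum_insert hi, Finset.prod_insert hi]
    exact ⟨B.Γ.add_mem h1 ih.1, by rw [B.χ_add _ h1 _ ih.1, ih.2, B.χ_zsmul (hu i)]⟩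

/-- Only finitely many monomials are needed. -/
theorem exists_finite (B : BF k v) (F : Set Ω) {a : Ω}
    (ha : a ∈ Algebra.adjoin k (F ∪ B.χ '' {γ | γ ∈ B.Γ ∧ 0 ≤ γ})) :
    ∃ W : Finset ℝ, (∀ γ ∈ W, γ ∈ B.Γ ∧ 0 ≤ γ) ∧
      a ∈ Algebra.adjoin k (F ∪ B.χ '' (W : Set ℝ)) := by
  classical
  have hmono : ∀ W W' : Finset ℝ, W ⊆ W' → Algebra.adjoin k (F ∪ B.χ '' (W : Set ℝ)) ≤
      Algebra.adjoin k (F ∪ B.χ '' (W' : Set ℝ)) := fun W W' hW =>
    Algebra.adjoin_mono (Set.union_subset_union_right _ (Set.image_mono (by exact_mod_cast hW)))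
  induction ha using Algebra.adjoin_induction with
  | mem x hx =>
    rcases hx with hx | ⟨γ, hγ, rfl⟩
    · exact ⟨∅, by simp, Algebra.subset_adjoin (Or.inl hx)⟩
    · exact ⟨{γ}, by simpa using hγ, Algebra.subset_adjoin (Or.inr ⟨γ, by simp, rfl⟩)⟩
  | algebraMap c => exact ⟨∅, by simp, Subalgebra.algebraMap_mem _ c⟩
  | add x y _ _ hx hy =>
    obtain ⟨W1, h1, h1'⟩ := hx
    obtain ⟨W2, h2, h2'⟩ := hy
    refine ⟨W1 ∪ W2, fun γ hγ => ?_, ?_⟩
    · rcases Finset.mem_union.1 hγ with h | h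
      · exact h1 γ h
      · exact h2 γ h
    · exact add_mem (hmono _ _ Finset.subset_union_left h1')
        (hmono _ _ Finset.subset_union_right h2')
  | mul x y _ _ hx hy =>
    obtain ⟨W1, h1, h1'⟩ := hx
    obtain ⟨W2, h2, h2'⟩ := hy
    refine ⟨W1 ∪ W2, fun γ hγ => ?_, ?_⟩
    · rcases Finset.mem_union.1 hγ with h | h
      · exact h1 γ h
      · exact h2 γ h
    · exact mul_mem (hmono _ _ Finset.subset_union_left h1')
        (hmono _ _ Finset.subset_union_right h2')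

theorem exists_finite' (B : BF k v) (F : Set Ω) {a : Ω}
    (ha : a ∈ locv v (Algebra.adjoin k (F ∪ B.χ '' {γ | γ ∈ B.Γ ∧ 0 ≤ γ}))) :
    ∃ W : Finset ℝ, (∀ γ ∈ W, γ ∈ B.Γ ∧ 0 ≤ γ) ∧
      a ∈ locv v (Algebra.adjoin k (F ∪ B.χ '' (W : Set ℝ))) := by
  classical
  obtain ⟨x, hx, y, hy, hy0, hvy, rfl⟩ := ha
  obtain ⟨W1, h1, h1'⟩ := exists_finite B F hx
  obtain ⟨W2, h2, h2'⟩ := exists_finite B F hy
  have hmono : ∀ W W' : Finset ℝ, W ⊆ W' → Algebra.adjoin k (F ∪ B.χ '' (W : Set ℝ)) ≤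
      Algebra.adjoin k (F ∪ B.χ '' (W' : Set ℝ)) := fun W W' hW =>
    Algebra.adjoin_mono (Set.union_subset_union_right _ (Set.image_mono (by exact_mod_cast hW)))
  refine ⟨W1 ∪ W2, fun γ hγ => ?_, x, hmono _ _ Finset.subset_union_left h1', y,
    hmono _ _ Finset.subset_union_right h2', hy0, hvy, rfl⟩
  rcases Finset.mem_union.1 hγ with h | h
  · exact h1 γ h
  · exact h2 γ h

/-- Monomials of the big frame are monomials of the noetherian frame. -/
theorem monoPos_of (B : BF k v) (N : NF k v r) (u : Fin r → ℝ) {S : Set ℝ}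
    (hu : GoodBasis B.Γ S u) (hx : ∀ i, N.x i = B.χ (u i)) {f : Ω} (hf : B.Mono f)
    (hS : v f ≠ 0 → |v f| ∈ S) (h1 : f / B.χ (v f) ∈ N.R) (h2 : (f / B.χ (v f))⁻¹ ∈ N.R) :
    N.MonoPos f := by
  obtain ⟨h0, hΓ, hU⟩ := hf
  have hfe : f = B.χ (v f) * (f / B.χ (v f)) := by rw [mul_div_cancel₀ _ (B.χ_ne _ hΓ)]
  rcases lt_trichotomy (v f) 0 with hv | hv | hv
  · obtain ⟨n, hn, hn'⟩ := hu.cone _ (hS hv.ne)
    rw [abs_of_neg hv] at hn'
    have h3 : v f = ∑ i, ((-(n i : ℤ) : ℤ) : ℝ) * u i := by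
      have h4 : v f = -∑ i, (n i : ℝ) * u i := by rw [← hn']; ring
      rw [h4, ← Finset.sum_neg_distrib]
      refine Finset.sum_congr rfl fun i _ => ?_
      push_cast
      ring
    refine ⟨fun i => -(n i : ℤ), f / B.χ (v f), hU.2.1, h1, h2, ?_, fun h => absurd h hv.not_gt,
      fun _ i => ?_, fun h => absurd h hv.ne⟩
    · conv_lhs => rw [hfe]
      congr 1
      have h4 := (chi_sum B u hu.mem (fun i => -(n i : ℤ)) Finset.univ).2
      rw [← h3] at h4
      rw [h4]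
      exact Finset.prod_congr rfl fun i _ => by rw [hx]
    · have := hn i
      change -(n i : ℤ) < 0
      omega
  · refine ⟨fun _ => 0, f / B.χ (v f), hU.2.1, h1, h2, ?_, fun h => absurd h (by rw [hv]; simp),
      fun h => absurd h (by rw [hv]; simp), fun _ _ => rfl⟩
    rw [hv, B.χ_zero, div_one]
    simp
  · obtain ⟨n, hn, hn'⟩ := hu.cone _ (hS hv.ne')
    rw [abs_of_pos hv] at hn'
    have h3 : v f = ∑ i, (((n i : ℤ) : ℤ) : ℝ) * u i := by
      rw [hn']
      exact Finset.sum_congr rfl fun i _ => by push_cast; rfl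
    refine ⟨fun i => (n i : ℤ), f / B.χ (v f), hU.2.1, h1, h2, ?_, fun _ i => ?_,
      fun h => absurd h hv.not_gt, fun h => absurd h hv.ne'⟩
    · conv_lhs => rw [hfe]
      congr 1
      have h4 := (chi_sum B u hu.mem (fun i => (n i : ℤ)) Finset.univ).2
      rw [← h3] at h4
      rw [h4]
      exact Finset.prod_congr rfl fun i _ => by rw [hx]
    · have := hn i
      change 0 < (n i : ℤ)
      omega

theorem monoPos_one (N : NF k v r) : N.MonoPos 1 :=
  ⟨fun _ => 0, 1, one_ne_zero, N.R.one_mem, by rw [inv_one]; exact N.R.one_mem, by simp,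
    fun h => absurd h (by rw [v.map_one]; simp), fun h => absurd h (by rw [v.map_one]; simp),
    fun _ _ => rfl⟩

theorem monoPos_ne (N : NF k v r) {f : Ω} (hf : N.MonoPos f) : f ≠ 0 := by
  obtain ⟨n, u, hu, -, -, rfl, -⟩ := hf
  exact mul_ne_zero (Finset.prod_ne_zero_iff.2 fun i _ => zpow_ne_zero _ (N.x_ne i)) hu

theorem monoPos_mul (N : NF k v r) {f g : Ω} (hf : N.MonoPos f) (hf0 : 0 ≤ v f)
    (hg : N.MonoPos g) (hg0 : 0 ≤ v g) : N.MonoPos (f * g) ∧ 0 ≤ v (f * g) := by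
  have hfne := monoPos_ne N hf
  have hgne := monoPos_ne N hg
  have hv : v (f * g) = v f + v g := v.map_mul hfne hgne
  obtain ⟨n, u, hu, hu1, hu2, hfe, hfp, -, hfz⟩ := hf
  obtain ⟨m, w, hw, hw1, hw2, hge, hgp, -, hgz⟩ := hg
  refine ⟨⟨fun i => n i + m i, u * w, mul_ne_zero hu hw, N.R.mul_mem hu1 hw1, ?_, ?_, ?_, ?_, ?_⟩,
    by rw [hv]; exact add_nonneg hf0 hg0⟩
  · rw [mul_inv]
    exact N.R.mul_mem hu2 hw2
  · have h1 : (∏ i, N.x i ^ (n i + m i)) = (∏ i, N.x i ^ n i) * ∏ i, N.x i ^ m i := by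
      rw [← Finset.prod_mul_distrib]
      exact Finset.prod_congr rfl fun i _ => zpow_add₀ (N.x_ne i) _ _
    rw [h1]
    conv_lhs => rw [hfe, hge]
    ring
  · intro h i
    rw [hv] at h
    change 0 < n i + m i
    rcases hf0.lt_or_eq with h1 | h1
    · rcases hg0.lt_or_eq with h2 | h2
      · have := hfp h1 i
        have := hgp h2 i
        omega
      · have := hfp h1 i
        have := hgz h2.symm i
        omega
    · rcases hg0.lt_or_eq with h2 | h2
      · have := hfz h1.symm i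
        have := hgp h2 i
        omega
      · rw [← h1, ← h2] at h
        simp at h
  · intro h
    rw [hv] at h
    exact absurd h (add_nonneg hf0 hg0).not_gt
  · intro h i
    rw [hv] at h
    have h1 : v f = 0 := by linarith
    have h2 : v g = 0 := by linarith
    change n i + m i = 0
    rw [hfz h1 i, hgz h2 i, add_zero]

end QB

/-- The main form of local uniformization, from one frame. -/
theorem exists_QN (p : ℕ) (hp : p.Prime) [CharP k p] (h : Ctx k v r)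
    (L : IntermediateField k Ω) (hL : Good v L) (A : Finset Ω)
    (hA : ∀ a ∈ A, a ∈ L ∧ v.Ge 0 a)
    (hgen : ∀ g ∈ L, ∃ a ∈ Algebra.adjoin k (A : Set Ω), ∃ b ∈ Algebra.adjoin k (A : Set Ω),
      b ≠ 0 ∧ g = a / b)
    (T : Finset Ω) (hT : ∀ t ∈ T, t ∈ L ∧ t ≠ 0) :
    ∃ N : NF k v r, FracIs N.R L ∧ ∃ g ∈ Algebra.adjoin k (A : Set Ω), g ≠ 0 ∧ N.MonoPos g ∧
      ∃ G : Finset Ω, (∀ x ∈ G, x ∈ Algebra.adjoin k (A : Set Ω) ∧ v.Ge (v g) x) ∧
        N.R = locv v (Algebra.adjoin k ((A : Set Ω) ∪ (fun x => x / g) '' (G : Set Ω))) ∧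
        ∀ t ∈ T, N.MonoPos t := by
  classical
  obtain ⟨B, hB⟩ := hL
  obtain ⟨B', hreach, hAR, hTm, M, hM, hχ, F, hF, hyF, hR⟩ :=
    BF.exists_Q p hp h B L hB A hA hgen T hT
  have hB' : FracIs B'.R L := hreach.ext.fracIs hB
  have hAv : ∀ f ∈ Algebra.adjoin k (A : Set Ω), v.Ge 0 f :=
    adjoin_nonneg h fun a ha => (hA a ha).2
  have hFR : ∀ f ∈ F, f ∈ B'.R := by
    intro f hf
    rw [hR]
    exact le_locv _ (Algebra.subset_adjoin (Or.inl hf))
  -- the units
  set uu : Ω → Ω := fun f => f / B'.χ (v f) with huu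
  set T1 : Finset Ω := A ∪ F ∪ ((M ∪ T).image uu ∪ (M ∪ T).image fun f => (uu f)⁻¹) with hT1
  have hMT : ∀ f ∈ M ∪ T, B'.Mono f := by
    intro f hf
    rcases Finset.mem_union.1 hf with hf | hf
    · exact (hM f hf).2
    · exact hTm f hf
  have hT1R : ∀ f ∈ T1, f ∈ B'.R := by
    intro f hf
    rcases Finset.mem_union.1 hf with hf | hf
    · rcases Finset.mem_union.1 hf with hf | hf
      · exact hAR f hf
      · exact hFR f hf
    · rcases Finset.mem_union.1 hf with hf | hf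
      · obtain ⟨w, hw, rfl⟩ := Finset.mem_image.1 hf
        exact (hMT w hw).2.2.1
      · obtain ⟨w, hw, rfl⟩ := Finset.mem_image.1 hf
        exact ((hMT w hw).2.2.inv).1
  obtain ⟨S0, G, hS0, hGR, hTG, hN⟩ := B'.exists_NF h T1 hT1R
  -- the exponents
  have hWex : ∀ f : Ω, ∃ W : Finset ℝ, f ∈ B'.R → ((∀ γ ∈ W, γ ∈ B'.Γ ∧ 0 ≤ γ) ∧
      f ∈ locv v (Algebra.adjoin k ((F : Set Ω) ∪ B'.χ '' (W : Set ℝ)))) := by
    intro f
    by_cases hf : f ∈ B'.R
    · have hf' := hf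
      rw [hR] at hf'
      obtain ⟨W, h1, h2⟩ := QB.exists_finite' B' (F : Set Ω) hf'
      exact ⟨W, fun _ => ⟨h1, h2⟩⟩
    · exact ⟨∅, fun h => absurd h hf⟩
  choose W hW using hWex
  set S1 : Finset ℝ := (G.biUnion W).filter fun γ => 0 < γ with hS1
  set S2 : Finset ℝ := ((M ∪ T).image fun f => |v f|).filter fun γ => 0 < γ with hS2
  obtain ⟨u, hu⟩ := B'.exists_basis h (S0 ∪ S1 ∪ S2) (by
    intro γ hγ
    rcases Finset.mem_union.1 hγ with hγ | hγ
    · rcases Finset.mem_union.1 hγ with hγ | hγ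
      · exact hS0 γ hγ
      · obtain ⟨h1, h2⟩ := Finset.mem_filter.1 hγ
        obtain ⟨f, hf, h3⟩ := Finset.mem_biUnion.1 h1
        exact ⟨((hW f (hGR f hf)).1 γ h3).1, h2⟩
    · obtain ⟨h1, h2⟩ := Finset.mem_filter.1 hγ
      obtain ⟨f, hf, rfl⟩ := Finset.mem_image.1 h1
      refine ⟨?_, h2⟩
      rcases abs_choice (v f) with h3 | h3
      · rw [h3]
        exact (hMT f hf).2.1
      · rw [h3]
        exact B'.Γ.neg_mem (hMT f hf).2.1)
  obtain ⟨N, hNx, hNy, hNR, hNle, hNT⟩ := hN u (QB.goodBasis_mono (by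
    intro γ hγ
    exact Finset.mem_coe.2 (Finset.mem_union_left _ (Finset.mem_union_left _ hγ))) hu)
  have hNloc : ∀ f ∈ N.R, f ≠ 0 → v f = 0 → f⁻¹ ∈ N.R := by
    intro f hf h0 h1
    rw [hNR] at hf ⊢
    exact locv_inv hf h0 h1
  have hNF : ∀ f ∈ F, f ∈ N.R := fun f hf => hNT f
    (Finset.mem_union_left _ (Finset.mem_union_right _ hf))
  have hNA : ∀ f ∈ A, f ∈ N.R := fun f hf => hNT f
    (Finset.mem_union_left _ (Finset.mem_union_left _ hf))
  set X : Finset Ω := Finset.univ.image N.x with hX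
  have hXR : ∀ f ∈ X, f ∈ N.R := by
    intro f hf
    obtain ⟨i, -, rfl⟩ := Finset.mem_image.1 hf
    exact N.x_mem i
  -- the ring of the frame
  have hRing : N.R = locv v (Algebra.adjoin k ((F : Set Ω) ∪ (X : Set Ω))) := by
    set S' : Subalgebra k Ω := Algebra.adjoin k ((F : Set Ω) ∪ (X : Set Ω)) with hS'
    apply le_antisymm
    · rw [hNR]
      refine locv_le ?_ (fun f hf h0 h1 => locv_inv hf h0 h1)
      rw [Algebra.adjoin_le_iff]
      rintro f ((hf | ⟨i, rfl⟩) | hf)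
      · obtain ⟨h1, h2⟩ := hW f (hGR f hf)
        have h3 : locv v (Algebra.adjoin k ((F : Set Ω) ∪ B'.χ '' (W f : Set ℝ))) ≤
            locv v S' := by
          refine locv_mono ?_
          rw [Algebra.adjoin_le_iff]
          rintro w (hw | ⟨γ, hγ, rfl⟩)
          · exact Algebra.subset_adjoin (Or.inl hw)
          · obtain ⟨hγΓ, hγ0⟩ := h1 γ hγ
            rcases hγ0.lt_or_eq with h4 | h4
            · obtain ⟨n, hn, hn'⟩ := hu.cone γ (Finset.mem_coe.2 (Finset.mem_union_left _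
                (Finset.mem_union_right _ (Finset.mem_filter.2
                  ⟨Finset.mem_biUnion.2 ⟨f, hf, hγ⟩, h4⟩))))
              have h5 := (QB.chi_sum B' u hu.mem (fun i => (n i : ℤ)) Finset.univ).2
              have h6 : (∑ i, ((n i : ℤ) : ℝ) * u i) = γ := by
                rw [hn']
                exact Finset.sum_congr rfl fun i _ => by push_cast; rfl
              rw [h6] at h5
              rw [SetLike.mem_coe, h5]
              refine Subalgebra.prod_mem S' fun i _ => ?_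
              rw [zpow_natCast, ← hNx]
              have h7 : N.x i ∈ S' := Algebra.subset_adjoin (Or.inr
                (Finset.mem_coe.2 (Finset.mem_image_of_mem _ (Finset.mem_univ i))))
              exact S'.pow_mem h7 _
            · rw [SetLike.mem_coe, ← h4, B'.χ_zero]
              exact Subalgebra.one_mem _
        exact h3 h2
      · exact le_locv _ (Algebra.subset_adjoin (Or.inr
          (Finset.mem_coe.2 (Finset.mem_image_of_mem _ (Finset.mem_univ i)))))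
      · rw [Set.mem_singleton_iff.1 hf]
        exact le_locv _ (Algebra.adjoin_mono Set.subset_union_left hyF)
    · refine locv_le ?_ hNloc
      rw [hS', Algebra.adjoin_le_iff]
      rintro f (hf | hf)
      · exact hNF f hf
      · exact hXR f hf
  -- numerators and denominators
  have hfrac : ∀ w : Ω, ∃ nu de : Ω, w ∈ F ∪ X → (de ∈ Submonoid.closure (M : Set Ω) ∧
      (nu = 0 ∨ nu ∈ Submonoid.closure (M : Set Ω)) ∧ w = nu / de) := by
    intro w
    by_cases hw : w ∈ F ∪ X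
    · rcases Finset.mem_union.1 hw with h1 | h1
      · rcases hF w h1 with h2 | ⟨a, ha, b, hb, h2⟩
        · exact ⟨0, 1, fun _ => ⟨one_mem _, Or.inl rfl, by rw [h2, zero_div]⟩⟩
        · exact ⟨a, b, fun _ => ⟨hb, Or.inr ha, h2⟩⟩
      · obtain ⟨i, -, h2⟩ := Finset.mem_image.1 h1
        obtain ⟨a, ha, b, hb, h3⟩ := hχ (u i) (hu.mem i)
        exact ⟨a, b, fun _ => ⟨hb, Or.inr ha, by rw [← h2, hNx, h3]⟩⟩
    · exact ⟨0, 0, fun h => absurd h hw⟩
  choose nu de hnd using hfrac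
  have hMne : ∀ m ∈ M, m ≠ 0 := fun m hm => (hM m hm).2.ne
  have hcl : ∀ a ∈ Submonoid.closure (M : Set Ω), a ∈ Algebra.adjoin k (A : Set Ω) :=
    fun a ha => QA.mem_of_closure (fun m hm => (hM m hm).1) ha
  set g : Ω := ∏ w ∈ F ∪ X, de w with hg
  have hgcl : g ∈ Submonoid.closure (M : Set Ω) :=
    Submonoid.prod_mem _ fun w hw => (hnd w hw).1
  have hg0 : g ≠ 0 := QA.ne_of_closure hMne hgcl
  have hMTpos : ∀ f ∈ M ∪ T, N.MonoPos f := by
    intro f hf
    refine QB.monoPos_of B' N u hu hNx (hMT f hf) (fun h0 => ?_) ?_ ?_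
    · refine Finset.mem_coe.2 (Finset.mem_union_right _ (Finset.mem_filter.2
        ⟨Finset.mem_image_of_mem _ hf, abs_pos.2 h0⟩))
    · exact hNT _ (Finset.mem_union_right _ (Finset.mem_union_left _
        (Finset.mem_image_of_mem uu hf)))
    · exact hNT _ (Finset.mem_union_right _ (Finset.mem_union_right _
        (Finset.mem_image_of_mem (fun f => (uu f)⁻¹) hf)))
  have hclpos : ∀ a ∈ Submonoid.closure (M : Set Ω), N.MonoPos a ∧ 0 ≤ v a := by
    intro a ha
    induction ha using Submonoid.closure_induction with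
    | mem m hm =>
      exact ⟨hMTpos m (Finset.mem_union_left _ hm), hAv m (hM m hm).1 (hMne m hm)⟩
    | one => exact ⟨QB.monoPos_one N, v.map_one.ge⟩
    | mul x y _ _ hx hy => exact QB.monoPos_mul N hx.1 hx.2 hy.1 hy.2
  have hWnn : ∀ w ∈ F ∪ X, v.Ge 0 w := by
    intro w hw
    rcases Finset.mem_union.1 hw with h1 | h1
    · exact N.nonneg w (hNF w h1)
    · exact N.nonneg w (hXR w h1)
  refine ⟨N, ⟨fun f hf => hB'.1 f (hNle hf), fun f hf => ?_⟩, g, hcl g hgcl, hg0,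
    (hclpos g hgcl).1, (F ∪ X).image fun w => g * w, ?_, ?_, fun t ht =>
      hMTpos t (Finset.mem_union_right _ ht)⟩
  · obtain ⟨a, ha, b, hb, hb0, h1⟩ := hgen f hf
    have h2 : Algebra.adjoin k (A : Set Ω) ≤ N.R := by
      rw [Algebra.adjoin_le_iff]
      exact hNA
    exact ⟨a, h2 ha, b, h2 hb, hb0, h1⟩
  · intro x hx
    obtain ⟨w, hw, rfl⟩ := Finset.mem_image.1 hx
    refine ⟨?_, fun h0 => ?_⟩
    · have h1 : g * w = nu w * ∏ w' ∈ (F ∪ X).erase w, de w' := by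
        have h2 : de w ≠ 0 := QA.ne_of_closure hMne (hnd w hw).1
        have h3 : nu w = w * de w := (div_eq_iff h2).1 (hnd w hw).2.2.symm
        rw [hg, ← Finset.mul_prod_erase _ _ hw, h3]
        ring
      rw [h1]
      refine mul_mem ?_ (Subalgebra.prod_mem (Algebra.adjoin k (A : Set Ω)) fun w' hw' =>
        hcl _ (hnd w' (Finset.mem_of_mem_erase hw')).1)
      rcases (hnd w hw).2.1 with h2 | h2
      · rw [h2]
        exact Subalgebra.zero_mem _
      · exact hcl _ h2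
    · have h1 : w ≠ 0 := right_ne_zero_of_mul h0
      rw [v.map_mul hg0 h1]
      have := hWnn w hw h1
      linarith
  · have h1 : (fun x => x / g) '' (((F ∪ X).image fun w => g * w : Finset Ω) : Set Ω) =
        (F : Set Ω) ∪ (X : Set Ω) := by
      ext z
      simp only [Set.mem_image, Finset.mem_coe, Finset.mem_image, Finset.mem_union, Set.mem_union]
      constructor
      · rintro ⟨_, ⟨w, hw, rfl⟩, rfl⟩
        rw [mul_div_cancel_left₀ _ hg0]
        exact hw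
      · intro hz
        exact ⟨g * z, ⟨z, hz, rfl⟩, mul_div_cancel_left₀ _ hg0⟩
    rw [h1]
    apply le_antisymm
    · conv_lhs => rw [hRing]
      exact locv_mono (Algebra.adjoin_mono Set.subset_union_right)
    · refine locv_le ?_ hNloc
      rw [Algebra.adjoin_le_iff]
      rintro f (hf | hf | hf)
      · exact hNA f hf
      · exact hNF f hf
      · exact hXR f hf

end Pool.Agent.LU1
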