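import Pool.Agent.Lib.LU1_h15.GalSep
import Pool.Agent.Lib.LU1_h15.Base
import Pool.Agent.Lib.LU1_h15.ExtVal
import Pool.Agent.Lib.LU1_h15.QProp

/-! # The theorem for a function field `K` -/

set_option autoImplicit false

namespace Pool.Agent.LU1

open Pool.Agent.H15JM (RVal)

universe u

/-- Every function field is good (inside the big field). -/
theorem good_all {k Ω : Type u} [Field k] [Field Ω] [Algebra k Ω] {v : RVal Ω} {r : ℕ}
    (p : ℕ) (hp : p.Prime) [CharP k p] [IsAlgClosed k] [IsAlgClosed Ω] (h : Ctx k v r)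
    (K : IntermediateField k Ω)
    (hfg : ∃ S : Finset Ω, K = IntermediateField.adjoin k (S : Set Ω))
    (halg : ∀ g : Ω, IsAlgebraic K g) : Good v K := by
  obtain ⟨x, y, hx, hy, hx0, hxp, hind, hy0, hyp, hsep⟩ := exists_sep_coord h K hfg halg
  have hle : IntermediateField.adjoin k (Set.range x ∪ {y}) ≤ K := by
    rw [IntermediateField.adjoin_le_iff]
    rintro z (⟨i, rfl⟩ | rfl)
    · exact hx i
    · exact hy
  have halg' : ∀ g : Ω, IsAlgebraic (IntermediateField.adjoin k (Set.range x ∪ {y})) g := by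
    intro g
    let F : IntermediateField k Ω := IntermediateField.adjoin k (Set.range x ∪ {y})
    let K1 : IntermediateField F Ω := IntermediateField.extendScalars hle
    have h1 : Algebra.IsAlgebraic F K1 := by
      constructor
      intro z
      have h2 : IsSeparable F (z : Ω) := hsep z z.2
      have h3 : IsAlgebraic F (z : Ω) := h2.isIntegral.isAlgebraic
      exact IntermediateField.isAlgebraic_iff.2 h3
    have h2 : Algebra.IsAlgebraic K1 Ω := ⟨fun z => halg z⟩
    have h3 : Algebra.IsAlgebraic F Ω := Algebra.IsAlgebraic.trans F K1 Ω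
    exact h3.isAlgebraic g
  exact good_of_separable p hp h _ K hle halg' hfg hsep
    (good_base h x y hx0 hxp hind hy0 hyp halg')

section Pull

variable {k K Ω : Type u} [Field k] [Field K] [Field Ω] [Algebra k K] [Algebra k Ω]
  {v : RVal K} {w : RVal Ω} {r : ℕ}

theorem comap_locv (ι : K →ₐ[k] Ω) (hw : ∀ g : K, g ≠ 0 → w (ι g) = v g)
    (S : Subalgebra k K) : (locv w (S.map ι)).comap ι = locv v S := by
  have hι : Function.Injective ι := ι.toRingHom.injective
  ext f
  rw [Subalgebra.mem_comap, mem_locv, mem_locv]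
  constructor
  · rintro ⟨a, ha, b, hb, hb0, hwb, hf⟩
    obtain ⟨a, ha, rfl⟩ := ha
    obtain ⟨b, hb, rfl⟩ := hb
    have hb1 : b ≠ 0 := by
      rintro rfl
      exact hb0 (map_zero ι)
    refine ⟨a, ha, b, hb, hb1, ?_, ?_⟩
    · rw [← hw b hb1]
      exact hwb
    · apply hι
      rw [map_div₀]
      exact hf
  · rintro ⟨a, ha, b, hb, hb0, hvb, rfl⟩
    refine ⟨ι a, ⟨a, ha, rfl⟩, ι b, ⟨b, hb, rfl⟩, ?_, ?_, map_div₀ ι a b⟩
    · intro h0
      exact hb0 (hι (by rw [h0, map_zero]))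
    · rw [hw b hb0, hvb]

theorem exists_pull (ι : K →ₐ[k] Ω) (hw : ∀ g : K, g ≠ 0 → w (ι g) = v g) (N' : NF k w r)
    (hF : FracIs N'.R ι.fieldRange) :
    ∃ N : NF k v r, N.R = N'.R.comap ι ∧ (∀ i, ι (N.x i) = N'.x i) ∧ ι N.y = N'.y := by
  classical
  have hι : Function.Injective ι := ι.toRingHom.injective
  have hR : ∀ f ∈ N'.R, ∃ g : K, ι g = f := fun f hf => hF.1 f hf
  choose x hx using fun i => hR _ (N'.x_mem i)
  obtain ⟨y, hy⟩ := hR _ N'.y_mem
  have hx0 : ∀ i, x i ≠ 0 := by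
    intro i h0
    apply N'.x_ne i
    rw [← hx i, h0, map_zero]
  have hy0 : y ≠ 0 := by
    intro h0
    apply N'.y_ne
    rw [← hy, h0, map_zero]
  have hvx : ∀ i, v (x i) = w (N'.x i) := fun i => by rw [← hx i, hw _ (hx0 i)]
  have hvy : v y = w N'.y := by rw [← hy, hw _ hy0]
  refine ⟨{ x := x, x_ne := hx0, x_pos := ?_, x_ind := ?_, y := y, y_ne := hy0, y_pos := ?_,
            R := N'.R.comap ι, nonneg := ?_, x_mem := ?_, y_mem := ?_, fgen := ?_, gen := ?_,
            alg := ?_ }, rfl, hx, hy⟩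
  · intro i
    rw [hvx]
    exact N'.x_pos i
  · have : (fun i => v (x i)) = fun i => w (N'.x i) := funext hvx
    rw [this]
    exact N'.x_ind
  · rw [hvy]
    exact N'.y_pos
  · intro f hf h0
    rw [← hw f h0]
    exact N'.nonneg _ hf (fun h1 => h0 (hι (by rw [h1, map_zero])))
  · intro i
    rw [Subalgebra.mem_comap, hx]
    exact N'.x_mem i
  · rw [Subalgebra.mem_comap, hy]
    exact N'.y_mem
  · obtain ⟨F', hF'⟩ := N'.fgen
    have hF'R : ∀ f ∈ F', f ∈ N'.R := by
      intro f hf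
      rw [hF']
      exact le_locv _ (Algebra.subset_adjoin hf)
    refine ⟨F'.preimage ι hι.injOn, ?_⟩
    have h1 : (F' : Set Ω) = ι '' ((F'.preimage ι hι.injOn : Finset K) : Set K) := by
      ext z
      constructor
      · intro hz
        obtain ⟨g, rfl⟩ := hR z (hF'R z hz)
        exact ⟨g, Finset.mem_coe.2 (Finset.mem_preimage.2 hz), rfl⟩
      · rintro ⟨g, hg, rfl⟩
        exact Finset.mem_preimage.1 (Finset.mem_coe.1 hg)
    rw [← comap_locv ι hw, AlgHom.map_adjoin, ← h1, hF']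
  · intro f hf hv
    have hv' : VPos w (ι f) := by
      intro h0
      have h1 : f ≠ 0 := by
        rintro rfl
        exact h0 (map_zero ι)
      rw [hw f h1]
      exact hv h1
    obtain ⟨a, ha, b, hb, hfe⟩ := N'.gen _ hf hv'
    choose a' ha' using fun i => hR _ (ha i)
    obtain ⟨b', hb'⟩ := hR _ hb
    refine ⟨a', ?_, b', ?_, ?_⟩
    · intro i
      rw [Subalgebra.mem_comap, ha']
      exact ha i
    · rw [Subalgebra.mem_comap, hb']
      exact hb
    · apply hι
      show ι f = ι (∑ i, x i * a' i + y * b')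
      rw [map_add, map_sum, map_mul, hy, hb']
      simp only [map_mul, hx, ha']
      exact hfe
  · intro g
    obtain ⟨a, ha, b, hb, hb0, hg⟩ := hF.2 (ι g) ⟨g, rfl⟩
    obtain ⟨a', rfl⟩ := hR _ ha
    obtain ⟨b', rfl⟩ := hR _ hb
    have hb1 : b' ≠ 0 := by
      rintro rfl
      exact hb0 (map_zero ι)
    have hg' : g = a' / b' := by
      apply hι
      rw [hg, map_div₀]
    refine ⟨Polynomial.C ⟨b', hb⟩ * Polynomial.X - Polynomial.C ⟨a', ha⟩, ?_, ?_⟩
    · intro h0
      have h1 := congrArg (fun P => Polynomial.coeff P 1) h0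
      simp at h1
      exact hb1 (congrArg Subtype.val h1)
    · simp only [map_sub, map_mul, Polynomial.aeval_C, Polynomial.aeval_X]
      show b' * g - a' = 0
      rw [hg', mul_div_cancel₀ _ hb1, sub_self]

theorem monoPos_pull (ι : K →ₐ[k] Ω) (hw : ∀ g : K, g ≠ 0 → w (ι g) = v g) (N' : NF k w r)
    (hF : FracIs N'.R ι.fieldRange) (N : NF k v r) (hR : N.R = N'.R.comap ι)
    (hx : ∀ i, ι (N.x i) = N'.x i) {t : K} (ht : t ≠ 0) (hm : N'.MonoPos (ι t)) :
    N.MonoPos t := by
  have hι : Function.Injective ι := ι.toRingHom.injective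
  obtain ⟨n, u', hu0, hu1, hu2, hf, h1, h2, h3⟩ := hm
  obtain ⟨u, rfl⟩ : ∃ u, ι u = u' := hF.1 u' hu1
  have hu : u ≠ 0 := by
    rintro rfl
    exact hu0 (map_zero ι)
  rw [hw t ht] at h1 h2 h3
  refine ⟨n, u, hu, ?_, ?_, ?_, h1, h2, h3⟩
  · rw [hR]
    exact hu1
  · rw [hR, Subalgebra.mem_comap, map_inv₀]
    exact hu2
  · apply hι
    rw [hf, map_mul, map_prod]
    congr 1
    apply Finset.prod_congr rfl
    intro i _
    rw [map_zpow₀, hx]

end Pull

/-- Local uniformization for a function field `K/k` and a real valuation of rational rank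
`trdeg K - 1` and residue field `k`. -/
theorem local_unif (k K : Type u) [Field k] [Field K] [Algebra k K] (p : ℕ) (hp : p.Prime)
    [CharP k p] [IsAlgClosed k] (v : RVal K) (r : ℕ) (h : Ctx k v r) (A : Finset K)
    (hA : ∀ a ∈ A, v.Ge 0 a)
    (hgen : ∀ g : K, ∃ a ∈ Algebra.adjoin k (A : Set K), ∃ b ∈ Algebra.adjoin k (A : Set K),
      b ≠ 0 ∧ g = a / b)
    (T : Finset K) (hT : ∀ t ∈ T, t ≠ 0) :
    ∃ N : NF k v r, ∃ g ∈ Algebra.adjoin k (A : Set K), g ≠ 0 ∧ N.MonoPos g ∧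
      ∃ G : Finset K, (∀ x ∈ G, x ∈ Algebra.adjoin k (A : Set K) ∧ v.Ge (v g) x) ∧
        N.R = locv v (Algebra.adjoin k ((A : Set K) ∪ (fun x => x / g) '' (G : Set K))) ∧
        (∀ t ∈ T, N.MonoPos t) ∧ IsRegularLocalRing N.R ∧ ringKrullDim N.R = r + 1 := by
  classical
  let Ω : Type u := AlgebraicClosure K
  let ι : K →ₐ[k] Ω := IsScalarTower.toAlgHom k K Ω
  have hι : Function.Injective ι := ι.toRingHom.injective
  obtain ⟨w, hw⟩ := exists_extVal K Ω v
  have hw' : ∀ g : K, g ≠ 0 → w (ι g) = v g := hw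
  have hc : Ctx k w r := Ctx.of_ext k K Ω v r h w hw
  let K' : IntermediateField k Ω := ι.fieldRange
  have hAmap : Algebra.adjoin k ((A.image ι : Finset Ω) : Set Ω) =
      (Algebra.adjoin k (A : Set K)).map ι := by
    rw [Finset.coe_image, AlgHom.map_adjoin]
  have hfg : ∃ S : Finset Ω, K' = IntermediateField.adjoin k (S : Set Ω) := by
    refine ⟨A.image ι, le_antisymm ?_ ?_⟩
    · rintro _ ⟨g, rfl⟩
      obtain ⟨a, ha, b, hb, hb0, rfl⟩ := hgen g
      have hle : ∀ c ∈ Algebra.adjoin k (A : Set K),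
          ι c ∈ IntermediateField.adjoin k ((A.image ι : Finset Ω) : Set Ω) := by
        intro c hc
        apply IntermediateField.algebra_adjoin_le_adjoin
        rw [hAmap]
        exact ⟨c, hc, rfl⟩
      show ι (a / b) ∈ _
      rw [map_div₀]
      exact div_mem (hle a ha) (hle b hb)
    · rw [IntermediateField.adjoin_le_iff]
      intro z hz
      obtain ⟨a, _, rfl⟩ := Finset.mem_image.1 (Finset.mem_coe.1 hz)
      exact ⟨a, rfl⟩
  have halg : ∀ g : Ω, IsAlgebraic K' g := by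
    intro g
    obtain ⟨P, hP0, hP⟩ := (Algebra.IsAlgebraic.isAlgebraic g : IsAlgebraic K g)
    let j : K →+* K' := (ι.rangeRestrict : K →ₐ[k] ι.range).toRingHom
    refine ⟨P.map j, ?_, ?_⟩
    · exact (Polynomial.map_ne_zero_iff j.injective).2 hP0
    · rw [Polynomial.aeval_def, Polynomial.eval₂_map]
      exact hP
  have hgood : Good w K' := good_all p hp hc K' hfg halg
  obtain ⟨N', hF, g', hg', hg0, hgm, G', hG', hR', hT'⟩ :=
    exists_QN p hp hc K' hgood (A.image ι) (by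
      intro a ha
      obtain ⟨b, hb, rfl⟩ := Finset.mem_image.1 ha
      refine ⟨⟨b, rfl⟩, ?_⟩
      intro h0
      have h1 : b ≠ 0 := by
        rintro rfl
        exact h0 (map_zero ι)
      rw [hw' b h1]
      exact hA b hb h1) (by
      rintro _ ⟨g, rfl⟩
      obtain ⟨a, ha, b, hb, hb0, rfl⟩ := hgen g
      refine ⟨ι a, ?_, ι b, ?_, ?_, ?_⟩
      · rw [hAmap]
        exact ⟨a, ha, rfl⟩
      · rw [hAmap]
        exact ⟨b, hb, rfl⟩
      · intro h0
        exact hb0 (hι (by rw [h0, map_zero]))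
      · exact map_div₀ ι a b) (T.image ι) (by
      intro t ht
      obtain ⟨b, hb, rfl⟩ := Finset.mem_image.1 ht
      refine ⟨⟨b, rfl⟩, ?_⟩
      intro h0
      exact hT b hb (hι (by rw [h0, map_zero])))
  obtain ⟨N, hNR, hNx, hNy⟩ := exists_pull ι hw' N' hF
  rw [hAmap] at hg'
  obtain ⟨g, hg, rfl⟩ := hg'
  have hg1 : g ≠ 0 := by
    rintro rfl
    exact hg0 (map_zero ι)
  refine ⟨N, g, hg, hg1, monoPos_pull ι hw' N' hF N hNR hNx hg1 hgm,
    G'.preimage ι hι.injOn, ?_, ?_, ?_, N.regular h, N.dim h⟩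
  · intro x hx
    obtain ⟨h1, h2⟩ := hG' _ (Finset.mem_preimage.1 hx)
    rw [hAmap] at h1
    obtain ⟨x', hx', hxe⟩ := h1
    have hxx : x' = x := hι hxe
    rw [hxx] at hx'
    refine ⟨hx', ?_⟩
    intro h0
    have h3 := h2 (fun h1 => h0 (hι (by rw [h1, map_zero])))
    have h4 : w (ι g) ≤ w (ι x) := h3
    rw [hw' g hg1, hw' x h0] at h4
    exact h4
  · have h1 : ((A.image ι : Finset Ω) : Set Ω) ∪ (fun x => x / ι g) '' (G' : Set Ω) =
        ι '' ((A : Set K) ∪ (fun x => x / g) '' ((G'.preimage ι hι.injOn : Finset K) : Set K)) := by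
      rw [Set.image_union, Finset.coe_image]
      congr 1
      ext z
      constructor
      · rintro ⟨x, hx, rfl⟩
        obtain ⟨h1, -⟩ := hG' _ (Finset.mem_coe.1 hx)
        rw [hAmap] at h1
        obtain ⟨x', hx', rfl⟩ := h1
        exact ⟨x' / g, ⟨x', Finset.mem_coe.2 (Finset.mem_preimage.2 hx), rfl⟩, map_div₀ ι x' g⟩
      · rintro ⟨_, ⟨x, hx, rfl⟩, rfl⟩
        exact ⟨ι x, Finset.mem_preimage.1 (Finset.mem_coe.1 hx), (map_div₀ ι x g).symm⟩
    have h2 : N'.R = locv w (Algebra.adjoin k (ι '' ((A : Set K) ∪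
        (fun x => x / g) '' ((G'.preimage ι hι.injOn : Finset K) : Set K)))) := by
      rw [← h1]
      exact hR'
    rw [hNR, h2, ← AlgHom.map_adjoin, comap_locv ι hw']
  · intro t ht
    exact monoPos_pull ι hw' N' hF N hNR hNx (hT t ht) (hT' _ (Finset.mem_image_of_mem ι ht))

end Pool.Agent.LU1
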