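import Mathlib

/-! # Z3: regular parameters give a smooth chart -/

set_option autoImplicit false

namespace Pool.Agent.LU1

open Polynomial

theorem exists_poly_of_standardEtale {R : Type*} [CommRing R] (P : StandardEtalePair R)
    (e : P.Ring) : ∃ (p : R[X]) (n : ℕ), e * (aeval P.X P.g) ^ n = aeval P.X p := by
  let pres : StandardEtalePresentation R P.Ring := ⟨P, P.X, P.hasMap_X, by
    simpa [StandardEtalePair.lift_X_left] using Function.bijective_id⟩
  exact pres.exists_mul_aeval_x_g_pow_eq_aeval_x e

/-- A domain which is a quotient of a standard étale algebra over a normal domain `R` and contains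
`R` is étale over `R`. -/
theorem isStandardEtale_of_domain {R T : Type*} [CommRing R] [IsDomain R] [IsIntegrallyClosed R]
    [CommRing T] [IsDomain T] [Algebra R T] [Module.IsTorsionFree R T] (P₀ : StandardEtalePair R)
    (φ : P₀.Ring →ₐ[R] T) (hφ : Function.Surjective φ) : Algebra.IsStandardEtale R T := by
  have hx₀ : P₀.HasMap (φ P₀.X) := P₀.hasMap_X.map φ
  obtain ⟨x, hx⟩ : ∃ x, x = φ P₀.X := ⟨_, rfl⟩
  rw [← hx] at hx₀
  have hint : IsIntegral R x := ⟨P₀.f, P₀.monic_f, hx₀.1⟩
  obtain ⟨q₂, hq₂⟩ := minpoly.isIntegrallyClosed_dvd hint hx₀.1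
  obtain ⟨p₁, p₂, n, hn⟩ := P₀.cond
  let P : StandardEtalePair R := ⟨minpoly R x, minpoly.monic hint, P₀.g,
    ⟨q₂ * p₁, derivative q₂ * p₁ + q₂ * p₂, n, by
      rw [← hn, hq₂, derivative_mul]
      ring⟩⟩
  have hP : P.HasMap x := ⟨minpoly.aeval R x, hx₀.2⟩
  have hlx : P.lift x hP P.X = x := P.lift_X x hP
  have hlp : ∀ p : R[X], P.lift x hP (aeval P.X p) = aeval x p := by
    intro p
    rw [← Polynomial.aeval_algHom_apply, hlx]
  refine ⟨⟨⟨P, x, hP, ?_, ?_⟩⟩⟩
  · -- injective
    rw [injective_iff_map_eq_zero]
    intro e he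
    obtain ⟨p, m, h⟩ := exists_poly_of_standardEtale P e
    have h1 : aeval x p = 0 := by
      rw [← hlp, ← h, map_mul, he, zero_mul]
    obtain ⟨s, hs⟩ := minpoly.isIntegrallyClosed_dvd hint h1
    have h2 : aeval P.X p = 0 := by
      have h3 : aeval P.X (minpoly R x) = 0 := P.hasMap_X.1
      rw [hs, map_mul, h3, zero_mul]
    rw [h2] at h
    exact (P.hasMap_X.2.pow m).mul_left_eq_zero.mp h
  · -- surjective
    intro t
    obtain ⟨e, rfl⟩ := hφ t
    obtain ⟨p, m, h⟩ := exists_poly_of_standardEtale P₀ e
    have h1 : φ e * aeval x P₀.g ^ m = aeval x p := by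
      have := congrArg φ h
      rwa [map_mul, map_pow, ← Polynomial.aeval_algHom_apply, ← Polynomial.aeval_algHom_apply,
        ← hx] at this
    obtain ⟨u, hu⟩ := P.hasMap_X.2
    have h2 : P.lift x hP (u : P.Ring) = aeval x P₀.g := by
      rw [hu]
      exact hlp P.g
    refine ⟨aeval P.X p * ((u⁻¹ : P.Ringˣ) : P.Ring) ^ m, ?_⟩
    have h3 : P.lift x hP ((u⁻¹ : P.Ringˣ) : P.Ring) * aeval x P₀.g = 1 := by
      rw [← h2, ← map_mul, Units.inv_mul, map_one]
    rw [map_mul, map_pow, hlp, ← h1, mul_assoc, ← mul_pow, mul_comm (aeval x P₀.g), h3, one_pow,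
      mul_one]

theorem isAlgebraic_of_formallyUnramified (R₀ A : Type*) [CommRing R₀] [IsDomain R₀] [CommRing A]
    [IsDomain A] [Algebra R₀ A] [FaithfulSMul R₀ A] [Algebra.FormallyUnramified R₀ A]
    [Algebra.EssFiniteType R₀ A] : Algebra.IsAlgebraic R₀ A := by
  have h1 : Algebra.FormallyUnramified A (FractionRing A) :=
    Algebra.FormallyUnramified.of_isLocalization (nonZeroDivisors A)
  have h2 : Algebra.FormallyUnramified R₀ (FractionRing A) :=
    Algebra.FormallyUnramified.comp R₀ A (FractionRing A)
  have h3 : Algebra.EssFiniteType A (FractionRing A) :=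
    .of_isLocalization _ (nonZeroDivisors A)
  have h4 : Algebra.EssFiniteType R₀ (FractionRing A) := .comp _ A _
  have hinj : Function.Injective (algebraMap R₀ (FractionRing A)) := by
    rw [IsScalarTower.algebraMap_eq R₀ A (FractionRing A), RingHom.coe_comp]
    exact (IsFractionRing.injective A (FractionRing A)).comp (FaithfulSMul.algebraMap_injective R₀ A)
  have hff : FaithfulSMul R₀ (FractionRing A) :=
    (faithfulSMul_iff_algebraMap_injective R₀ _).mpr hinj
  let _ : Algebra (FractionRing R₀) (FractionRing A) := FractionRing.liftAlgebra R₀ (FractionRing A)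
  have h5 : Algebra.FormallyUnramified (FractionRing R₀) (FractionRing A) :=
    Algebra.FormallyUnramified.of_restrictScalars R₀ _ _
  have h6 : Algebra.EssFiniteType (FractionRing R₀) (FractionRing A) := .of_comp R₀ _ _
  have h7 : Algebra.IsSeparable (FractionRing R₀) (FractionRing A) :=
    Algebra.FormallyUnramified.isSeparable _ _
  have h8 : Algebra.IsAlgebraic (FractionRing R₀) (FractionRing A) := inferInstance
  have h9 : Algebra.IsAlgebraic R₀ (FractionRing A) :=
    (IsFractionRing.comap_isAlgebraic_iff (K := FractionRing R₀)).mpr h8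
  exact Algebra.IsAlgebraic.tower_bot_of_injective (IsFractionRing.injective A (FractionRing A))

section
variable {k S : Type*} [Field k] [CommRing S] [IsDomain S] [Algebra k S]
  [Algebra.FiniteType k S] (q : Ideal S) [q.IsPrime]
  (hres : ∀ s : S, ∃ c : k, s - algebraMap k S c ∈ q) {n : ℕ} (z : Fin n → S)
  (hzq : ∀ i, z i ∈ q)
  (hgen : ∀ s ∈ q, ∃ t, t ∉ q ∧ t * s ∈ Ideal.span (Set.range z))
include hres hzq hgen

omit hzq hgen [IsDomain S] [Algebra.FiniteType k S] in
theorem exists_const (x : Localization.AtPrime q) :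
    ∃ c : k, x - algebraMap k (Localization.AtPrime q) c ∈
      IsLocalRing.maximalIdeal (Localization.AtPrime q) := by
  obtain ⟨s, t, rfl⟩ := IsLocalization.exists_mk'_eq q.primeCompl x
  obtain ⟨c₁, h1⟩ := hres s
  obtain ⟨c₂, h2⟩ := hres t
  have hc : c₂ ≠ 0 := by
    rintro rfl
    rw [map_zero, sub_zero] at h2
    exact t.2 h2
  refine ⟨c₁ / c₂, ?_⟩
  have ht : IsUnit (algebraMap S (Localization.AtPrime q) t) :=
    IsLocalization.map_units (Localization.AtPrime q) t
  have hu : IsUnit (algebraMap k (Localization.AtPrime q) c₂) :=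
    (isUnit_iff_ne_zero.mpr hc).map _
  have key : (algebraMap k (Localization.AtPrime q) c₂ * algebraMap S (Localization.AtPrime q) t) *
      (IsLocalization.mk' (Localization.AtPrime q) s t -
        algebraMap k (Localization.AtPrime q) (c₁ / c₂)) =
      algebraMap S (Localization.AtPrime q)
        (algebraMap k S c₂ * (s - algebraMap k S c₁) -
          algebraMap k S c₁ * ((t : S) - algebraMap k S c₂)) := by
    have e1 : algebraMap S (Localization.AtPrime q) t *
        IsLocalization.mk' (Localization.AtPrime q) s t =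
        algebraMap S (Localization.AtPrime q) s := IsLocalization.mk'_spec'_mk _ _ _ _
    have e2 : algebraMap k (Localization.AtPrime q) c₂ *
        algebraMap k (Localization.AtPrime q) (c₁ / c₂) =
        algebraMap k (Localization.AtPrime q) c₁ := by
      rw [← map_mul, mul_div_cancel₀ _ hc]
    rw [map_sub, map_mul, map_mul, map_sub, map_sub,
      ← IsScalarTower.algebraMap_apply k S (Localization.AtPrime q),
      ← IsScalarTower.algebraMap_apply k S (Localization.AtPrime q)]
    linear_combination (algebraMap k (Localization.AtPrime q) c₂) * e1 -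
      (algebraMap S (Localization.AtPrime q) t) * e2
  have hmem : algebraMap S (Localization.AtPrime q)
        (algebraMap k S c₂ * (s - algebraMap k S c₁) -
          algebraMap k S c₁ * ((t : S) - algebraMap k S c₂)) ∈
      IsLocalRing.maximalIdeal (Localization.AtPrime q) := by
    rw [IsLocalization.AtPrime.to_map_mem_maximal_iff (Localization.AtPrime q) q]
    exact q.sub_mem (q.mul_mem_left _ h1) (q.mul_mem_left _ h2)
  rw [← key] at hmem
  exact (Ideal.unit_mul_mem_iff_mem _ (hu.mul ht)).mp hmem

omit hres hzq [IsDomain S] in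
theorem mem_span_of_mem_maximal {y : Localization.AtPrime q}
    (hy : y ∈ IsLocalRing.maximalIdeal (Localization.AtPrime q)) :
    y ∈ Ideal.span (Set.range fun i => algebraMap S (Localization.AtPrime q) (z i)) := by
  obtain ⟨s, t, rfl⟩ := IsLocalization.exists_mk'_eq q.primeCompl y
  have hs : s ∈ q := (IsLocalization.AtPrime.mk'_mem_maximal_iff (Localization.AtPrime q) q s t).mp hy
  obtain ⟨t', ht', hst⟩ := hgen s hs
  have h1 : algebraMap S (Localization.AtPrime q) (t' * s) ∈
      Ideal.span (Set.range fun i => algebraMap S (Localization.AtPrime q) (z i)) := by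
    have := Ideal.mem_map_of_mem (algebraMap S (Localization.AtPrime q)) hst
    rw [Ideal.map_span, ← Set.range_comp] at this
    exact this
  have hu : IsUnit (algebraMap S (Localization.AtPrime q) t') :=
    IsLocalization.map_units (Localization.AtPrime q) (⟨t', ht'⟩ : q.primeCompl)
  rw [map_mul] at h1
  have h2 := (Ideal.unit_mul_mem_iff_mem _ hu).mp h1
  have h3 : IsLocalization.mk' (Localization.AtPrime q) s t =
      IsLocalization.mk' (Localization.AtPrime q) 1 t *
        algebraMap S (Localization.AtPrime q) s := by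
    rw [mul_comm, IsLocalization.mul_mk'_eq_mk'_of_mul, mul_one]
  rw [h3]
  exact Ideal.mul_mem_left _ _ h2

omit [IsDomain S] in
/-- unramified over every ring containing the parameters -/
theorem unramifiedAt (R₀ : Type*) [CommRing R₀] [Algebra k R₀] [Algebra R₀ S]
    [IsScalarTower k R₀ S] (hX : ∀ i, ∃ w, algebraMap R₀ S w = z i) :
    Algebra.FormallyUnramified R₀ (Localization.AtPrime q) := by
  have hft : Algebra.FiniteType R₀ S := .of_restrictScalars_finiteType k _ S
  have hess : Algebra.EssFiniteType R₀ (Localization.AtPrime q) := .comp _ S _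
  have hzm : ∀ i, algebraMap S (Localization.AtPrime q) (z i) ∈
      IsLocalRing.maximalIdeal (Localization.AtPrime q) := fun i =>
    (IsLocalization.AtPrime.to_map_mem_maximal_iff (Localization.AtPrime q) q (z i)).mpr (hzq i)
  obtain ⟨N, hN⟩ : ∃ N : Submodule (Localization.AtPrime q) (Ω[Localization.AtPrime q⁄R₀]),
      N = IsLocalRing.maximalIdeal (Localization.AtPrime q) • ⊤ := ⟨_, rfl⟩
  have hI : ∀ y ∈ Ideal.span (Set.range fun i => algebraMap S (Localization.AtPrime q) (z i)),
      KaehlerDifferential.D R₀ (Localization.AtPrime q) y ∈ N := by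
    intro y hy
    induction hy using Submodule.span_induction with
    | mem y h =>
      obtain ⟨i, rfl⟩ := h
      obtain ⟨w, hw⟩ := hX i
      have : algebraMap S (Localization.AtPrime q) (z i) =
          algebraMap R₀ (Localization.AtPrime q) w := by
        rw [IsScalarTower.algebraMap_apply R₀ S, hw]
      simp only [this, Derivation.map_algebraMap]
      exact N.zero_mem
    | zero => rw [map_zero]; exact N.zero_mem
    | add y y' _ _ h1 h2 => rw [map_add]; exact N.add_mem h1 h2
    | smul a y hy h1 =>
      rw [smul_eq_mul, Derivation.leibniz]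
      refine N.add_mem (N.smul_mem a h1) ?_
      rw [hN]
      refine Submodule.smul_mem_smul ?_ Submodule.mem_top
      refine (Ideal.span_le.mpr ?_) hy
      rintro _ ⟨i, rfl⟩
      exact hzm i
  have hD : ∀ x : Localization.AtPrime q,
      KaehlerDifferential.D R₀ (Localization.AtPrime q) x ∈ N := by
    intro x
    obtain ⟨c, hc⟩ := exists_const q hres x
    have h1 := hI _ (mem_span_of_mem_maximal q z hgen hc)
    have h2 : algebraMap k (Localization.AtPrime q) c =
        algebraMap R₀ (Localization.AtPrime q) (algebraMap k R₀ c) := by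
      rw [IsScalarTower.algebraMap_apply k S (Localization.AtPrime q),
        IsScalarTower.algebraMap_apply k R₀ S,
        ← IsScalarTower.algebraMap_apply R₀ S (Localization.AtPrime q)]
    rwa [map_sub, h2, Derivation.map_algebraMap, sub_zero] at h1
  have htop : (⊤ : Submodule (Localization.AtPrime q) (Ω[Localization.AtPrime q⁄R₀])) ≤ N := by
    rw [← KaehlerDifferential.span_range_derivation, Submodule.span_le]
    rintro _ ⟨x, rfl⟩
    exact hD x
  have hbot : (⊤ : Submodule (Localization.AtPrime q) (Ω[Localization.AtPrime q⁄R₀])) = ⊥ := by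
    refine Submodule.eq_bot_of_le_smul_of_le_jacobson_bot
      (IsLocalRing.maximalIdeal (Localization.AtPrime q)) ⊤ Module.Finite.fg_top ?_ ?_
    · rw [← hN]
      exact htop
    · rw [IsLocalRing.jacobson_eq_maximalIdeal ⊥ bot_ne_top]
  rw [Algebra.formallyUnramified_iff]
  refine ⟨fun a b => ?_⟩
  have ha : a ∈ (⊤ : Submodule (Localization.AtPrime q) (Ω[Localization.AtPrime q⁄R₀])) :=
    Submodule.mem_top
  have hb : b ∈ (⊤ : Submodule (Localization.AtPrime q) (Ω[Localization.AtPrime q⁄R₀])) :=
    Submodule.mem_top
  rw [hbot, Submodule.mem_bot] at ha hb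
  rw [ha, hb]

theorem isAlgebraic_of_params (R₀ : Type*) [CommRing R₀] [IsDomain R₀] [Algebra k R₀]
    [Algebra R₀ S] [IsScalarTower k R₀ S] (hinj : Function.Injective (algebraMap R₀ S))
    (hX : ∀ i, ∃ w, algebraMap R₀ S w = z i) : Algebra.IsAlgebraic R₀ S := by
  have hunr : Algebra.FormallyUnramified R₀ (Localization.AtPrime q) :=
    unramifiedAt q hres z hzq hgen R₀ hX
  have hqd : IsDomain (Localization.AtPrime q) :=
    IsLocalization.isDomain_localization q.primeCompl_le_nonZeroDivisors
  have hft : Algebra.FiniteType R₀ S := .of_restrictScalars_finiteType k _ S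
  have hess : Algebra.EssFiniteType R₀ (Localization.AtPrime q) := .comp _ S _
  have hinjq : Function.Injective (algebraMap S (Localization.AtPrime q)) :=
    IsLocalization.injective (Localization.AtPrime q) q.primeCompl_le_nonZeroDivisors
  have hff : FaithfulSMul R₀ (Localization.AtPrime q) := by
    rw [faithfulSMul_iff_algebraMap_injective,
      IsScalarTower.algebraMap_eq R₀ S (Localization.AtPrime q), RingHom.coe_comp]
    exact hinjq.comp hinj
  have h1 := isAlgebraic_of_formallyUnramified R₀ (Localization.AtPrime q)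
  exact Algebra.IsAlgebraic.tower_bot_of_injective hinjq

/-- As many parameters as the transcendence degree are algebraically independent. -/
theorem algebraicIndependent_of_trdeg (htr : (n : Cardinal) ≤ Algebra.trdeg k S) :
    AlgebraicIndependent k z := by
  have halg : Algebra.IsAlgebraic (Algebra.adjoin k (Set.range z)) S :=
    isAlgebraic_of_params q hres z hzq hgen (Algebra.adjoin k (Set.range z))
      Subtype.val_injective fun i => ⟨⟨z i, Algebra.subset_adjoin ⟨i, rfl⟩⟩, rfl⟩
  refine (Algebra.IsAlgebraic.isTranscendenceBasis_of_lift_le_trdeg_of_finite k z ?_).1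
  simpa using htr

/-- Regular parameters at a rational point give a smooth neighbourhood. -/
theorem exists_smooth_away (hz : AlgebraicIndependent k z) :
    ∃ h, h ∉ q ∧ Algebra.Smooth k (Localization.Away (h : S)) := by
  let _ : Algebra (MvPolynomial (Fin n) k) S := (MvPolynomial.aeval z).toAlgebra
  have hsc : IsScalarTower k (MvPolynomial (Fin n) k) S :=
    IsScalarTower.of_algebraMap_eq fun c => ((MvPolynomial.aeval z).commutes c).symm
  have hX : ∀ i, algebraMap (MvPolynomial (Fin n) k) S (MvPolynomial.X i) = z i :=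
    fun i => MvPolynomial.aeval_X z i
  have hunr : Algebra.IsUnramifiedAt (MvPolynomial (Fin n) k) q :=
    unramifiedAt q hres z hzq hgen (MvPolynomial (Fin n) k) fun i => ⟨_, hX i⟩
  have hft : Algebra.FiniteType (MvPolynomial (Fin n) k) S :=
    .of_restrictScalars_finiteType k _ S
  obtain ⟨f, hfq, P, φ, hφ⟩ :=
    Algebra.IsUnramifiedAt.exists_hasStandardEtaleSurjectionOn (R := MvPolynomial (Fin n) k) q
  have hf0 : f ≠ 0 := by
    rintro rfl
    exact hfq q.zero_mem
  have hle : Submonoid.powers f ≤ nonZeroDivisors S :=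
    powers_le_nonZeroDivisors_of_noZeroDivisors hf0
  have hdom : IsDomain (Localization.Away f) := IsLocalization.isDomain_localization hle
  have hinj : Function.Injective
      (algebraMap (MvPolynomial (Fin n) k) (Localization.Away f)) := by
    rw [IsScalarTower.algebraMap_eq (MvPolynomial (Fin n) k) S (Localization.Away f),
      RingHom.coe_comp]
    exact (IsLocalization.injective (Localization.Away f) hle).comp hz
  have htf : Module.IsTorsionFree (MvPolynomial (Fin n) k) (Localization.Away f) :=
    Module.isTorsionFree_iff_algebraMap_injective.mpr hinj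
  have hse := isStandardEtale_of_domain P φ hφ
  have hsm : Algebra.Smooth (MvPolynomial (Fin n) k) (Localization.Away f) := inferInstance
  have hsk : Algebra.Smooth k (MvPolynomial (Fin n) k) := ⟨inferInstance, inferInstance⟩
  exact ⟨f, hfq, Algebra.Smooth.comp k (MvPolynomial (Fin n) k) (Localization.Away f)⟩

end

end Pool.Agent.LU1
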