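import Pool.Agent.Lib.LU1_h15.Etale
import Pool.Agent.Lib.LU1_h15.Rad
import Pool.Agent.Lib.LU1_h15.ASRed

/-! # Artin-Schreier ascent -/

set_option autoImplicit false

namespace Pool.Agent.LU1

open Pool.Agent.H15JM (RVal)
open Polynomial

universe u

variable {k Ω : Type u} [Field k] [Field Ω] [Algebra k Ω] {v : RVal Ω} {r : ℕ}

/-- The clean forms of an Artin-Schreier class in a frame. -/
def CleanAS (p : ℕ) (B : BF k v) (E : IntermediateField k Ω) (f : Ω) : Prop :=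
  ∃ g ∈ E, (f - (g ^ p - g) ∈ B.R) ∨
    (∃ κ ∈ B.Γ, κ < 0 ∧ (¬ ∃ δ ∈ B.Γ, κ = p * δ) ∧ ∃ u, B.Un u ∧
      f - (g ^ p - g) = B.χ κ * u) ∨
    (∃ b ∈ B.Γ, b < 0 ∧ ∃ yt, B.Rep yt 0 1 ∧ f - (g ^ p - g) = B.χ (p * b) * yt) ∨
    (∃ κ ∈ B.Γ, κ < 0 ∧ (¬ ∃ δ ∈ B.Γ, κ = p * δ) ∧ ∃ yt, B.Rep yt 0 1 ∧
      f - (g ^ p - g) = B.χ κ * yt)

theorem charP_of_algebra (k : Type u) {Ω : Type u} [Field k] [Field Ω] [Algebra k Ω] (p : ℕ)
    [CharP k p] : CharP Ω p :=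
  (Algebra.charP_iff k Ω p).1 inferInstance

/-- `(x - y)^p = x^p - y^p`. -/
theorem sub_pow_p (k : Type u) {Ω : Type u} [Field k] [Field Ω] [Algebra k Ω] (p : ℕ)
    (hp : p.Prime) [CharP k p] (x y : Ω) : (x - y) ^ p = x ^ p - y ^ p := by
  have := charP_of_algebra k (Ω := Ω) p
  have : Fact p.Prime := ⟨hp⟩
  exact sub_pow_char x y

/-- The monomials of a frame are in the field of fractions. -/
theorem BF.χ_mem_frac (B : BF k v) {E : IntermediateField k Ω} (hE : FracIs B.R E) {γ : ℝ}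
    (hγ : γ ∈ B.Γ) : B.χ γ ∈ E := by
  rcases le_total 0 γ with h0 | h0
  · exact hE.1 _ (B.χ_mem γ hγ h0)
  · have h1 := hE.1 _ (B.χ_mem (-γ) (B.Γ.neg_mem hγ) (neg_nonneg.2 h0))
    rw [B.χ_neg hγ] at h1
    simpa using E.inv_mem h1

/-- `(c + t)^n = c^n + t (n c^(n-1) + t e)`. -/
theorem pow_expand {R : Subalgebra k Ω} {c t : Ω} (hc : c ∈ R) (ht : t ∈ R) (n : ℕ) :
    ∃ e ∈ R, (c + t) ^ n = c ^ n + t * (n * c ^ (n - 1) + t * e) := by
  obtain ⟨e, he, h1⟩ := taylor_mem (R := R) (f := X ^ n) (fun i => by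
    rw [coeff_X_pow]
    split_ifs
    · exact R.one_mem
    · exact R.zero_mem) hc ht
  refine ⟨e, he, ?_⟩
  simp only [eval_pow, eval_X, derivative_X_pow, eval_mul, map_natCast] at h1
  rw [h1]
  simp
  ring

/-- Type 3: one T-step after the change of `y` gives one of the other types. -/
theorem as_type3 (p : ℕ) (hp : p.Prime) [CharP k p] [IsAlgClosed k] (h : Ctx k v r)
    (B : BF k v) (E : IntermediateField k Ω) (hE : FracIs B.R E) {κ : ℝ} (hκ : κ ∈ B.Γ)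
    (yt : Ω) (hy : B.Rep yt 0 1) :
    ∃ B' : BF k v, FracIs B'.R E ∧ ∃ g ∈ E, (B.χ κ * yt - (g ^ p - g) ∈ B'.R) ∨
      (∃ κ' ∈ B'.Γ, κ' < 0 ∧ (¬ ∃ δ ∈ B'.Γ, κ' = p * δ) ∧ ∃ u, B'.Un u ∧
        B.χ κ * yt - (g ^ p - g) = B'.χ κ' * u) ∨
      (∃ b ∈ B'.Γ, b < 0 ∧ ∃ yt', B'.Rep yt' 0 1 ∧
        B.χ κ * yt - (g ^ p - g) = B'.χ (p * b) * yt') := by
  obtain ⟨B1, g1, g2, g3, g4⟩ := B.change_y h hy
  have hE1 : FracIs B1.R E := by rw [g4]; exact hE
  have hκ1 : κ ∈ B1.Γ := by rw [g1]; exact hκ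
  have hp0 : p ≠ 0 := hp.ne_zero
  have hzero : (0 : Ω) ^ p - 0 = 0 := by rw [zero_pow hp0, sub_zero]
  obtain ⟨B', q, c, s, hT, hs, -⟩ := B1.exists_tstep h {(κ, 1)} (by
    intro a ha
    rw [Finset.mem_singleton] at ha
    rw [ha]; exact hκ1) (-1) (Or.inr rfl)
  have hE' : FracIs B'.R E := hT.ext.fracIs hE1
  refine ⟨B', hE', ?_⟩
  have h1 := hT.χ_mul hκ1 1
  rw [zpow_one, g3, Int.cast_one, one_mul, g2] at h1
  have hτ : κ + v yt ∈ B'.Γ := by
    have := hT.β_mem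
    rw [g3] at this
    exact B'.Γ.add_mem (hT.Γ_le hκ1) this
  rcases le_or_gt 0 (κ + v yt) with hpos | hneg'
  · refine ⟨0, E.zero_mem, Or.inl ?_⟩
    rw [hzero, sub_zero, h1]
    exact B'.R.mul_mem (B'.χ_mem _ hτ hpos) (hT.un_w.zpow _).1
  · by_cases hdiv : ∃ δ ∈ B'.Γ, κ + v yt = p * δ
    swap
    · refine ⟨0, E.zero_mem, Or.inr (Or.inl ⟨κ + v yt, hτ, hneg', hdiv, _, hT.un_w.zpow (s κ 1),
        ?_⟩)⟩
      rw [hzero, sub_zero, h1]
    obtain ⟨δ, hδ, hδ2⟩ := hdiv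
    have hsn : 0 ≤ s κ 1 := by
      have := hs (κ, 1) (Finset.mem_singleton_self _)
      simp only [Nat.cast_one, one_mul] at this
      refine this ?_
      rw [g3]; linarith
    have hps : ¬ (p : ℤ) ∣ s κ 1 := by
      intro hdvd
      have hv := (hT.latData.vis p hp hκ1 1).2 ⟨hdvd, δ, by rw [← hT.Γ_eq]; exact hδ, by
        rw [g3, Int.cast_one, one_mul]; exact hδ2⟩
      have h2 := hv.1
      have h3 : (p : ℤ) ≤ 1 := Int.le_of_dvd one_pos h2
      have h4 := hp.two_le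
      omega
    obtain ⟨n, hn⟩ := Int.eq_ofNat_of_zero_le hsn
    rw [hn] at hps h1
    have hpn : ¬ p ∣ n := fun hd => hps (by exact_mod_cast hd)
    rw [zpow_natCast] at h1
    -- the constant
    obtain ⟨c1, hc1⟩ := IsAlgClosed.exists_pow_nat_eq (c ^ n) hp.pos
    have hcR : algebraMap k Ω c ∈ B'.R := B'.R.algebraMap_mem c
    obtain ⟨e, he, h2⟩ := pow_expand hcR B'.y_mem n
    have hw : B1.w q = algebraMap k Ω c + B'.y := by rw [hT.y_eq]; ring
    rw [hw, h2] at h1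
    have hnk : (n : k) ≠ 0 := by
      rw [Ne, CharP.cast_eq_zero_iff k p n]
      exact hpn
    have hun : B'.Un ((n : Ω) * algebraMap k Ω c ^ (n - 1) + B'.y * e) := by
      refine BF.Un.add_vpos ?_ (B'.R.mul_mem B'.y_mem he) (B'.vpos_y.mul (B'.nonneg e he))
      have := BF.Un.const (B := B') h (mul_ne_zero hnk (pow_ne_zero (n - 1) hT.c_ne))
      rw [map_mul, map_natCast, map_pow] at this
      exact this
    have hδneg : δ < 0 := by
      have h3 : (0 : ℝ) < p := by exact_mod_cast hp.pos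
      have h4 : (p : ℝ) * δ < 0 := by rw [← hδ2]; exact hneg'
      by_contra hcon
      push Not at hcon
      exact absurd (mul_nonneg h3.le hcon) (not_le.2 h4)
    have hδ3 : -((p - 1 : ℕ) * δ) ∈ B'.Γ := by
      rw [← nsmul_eq_mul]
      exact B'.Γ.neg_mem (B'.Γ.nsmul_mem hδ _)
    have hp1 : 0 < p - 1 := Nat.sub_pos_of_lt hp.one_lt
    have hδ4 : 0 < -((p - 1 : ℕ) * δ) := by
      have h3 : (0 : ℝ) < (p - 1 : ℕ) := by exact_mod_cast hp1
      have := mul_neg_of_pos_of_neg h3 hδneg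
      linarith
    have hχp : B'.χ (p * δ) * B'.χ (-((p - 1 : ℕ) * δ)) = B'.χ δ := by
      have hpδ : (p : ℝ) * δ ∈ B'.Γ := by rw [← nsmul_eq_mul]; exact B'.Γ.nsmul_mem hδ _
      rw [← B'.χ_add _ hpδ _ hδ3]
      congr 1
      have : ((p - 1 : ℕ) : ℝ) = p - 1 := by rw [Nat.cast_sub hp.one_le, Nat.cast_one]
      rw [this]; ring
    refine ⟨algebraMap k Ω c1 * B'.χ δ,
      E.mul_mem (E.algebraMap_mem c1) (B'.χ_mem_frac hE' hδ), Or.inr (Or.inr ⟨δ, hδ, hδneg,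
        B'.y * ((n : Ω) * algebraMap k Ω c ^ (n - 1) + B'.y * e) +
          B'.χ (-((p - 1 : ℕ) * δ)) * algebraMap k Ω c1, ?_, ?_⟩)⟩
    · refine ⟨B'.Γ.zero_mem, _, hun, _, hδ3, hδ4, _, B'.R.algebraMap_mem c1, ?_⟩
      rw [B'.χ_zero, one_mul, pow_one, mul_comm B'.y]
    · have h5 : (algebraMap k Ω c1 * B'.χ δ) ^ p = algebraMap k Ω c ^ n * B'.χ (p * δ) := by
        rw [mul_pow, ← map_pow, hc1, map_pow, B'.χ_nsmul hδ]
      rw [h5, h1, hδ2]
      linear_combination (-algebraMap k Ω c1) * hχp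

theorem adj_sub {E : IntermediateField k Ω} {z g : Ω} (hg : g ∈ E) : adj E (z - g) = adj E z := by
  refine adj_eq_of ?_ ?_
  · exact (adj E z).sub_mem (mem_adj_self E z) (mem_adj_left hg)
  · have := (adj E (z - g)).add_mem (mem_adj_self E (z - g)) (mem_adj_left hg)
    rwa [sub_add_cancel] at this

theorem adj_div {E : IntermediateField k Ω} {z g : Ω} (hg : g ∈ E) (h0 : g ≠ 0) :
    adj E (z / g) = adj E z := by
  refine adj_eq_of ?_ ?_
  · exact (adj E z).div_mem (mem_adj_self E z) (mem_adj_left hg)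
  · have := (adj E (z / g)).mul_mem (mem_adj_self E (z / g)) (mem_adj_left hg)
    rwa [div_mul_cancel₀ _ h0] at this

/-- Regular Artin-Schreier extensions. -/
theorem as_type0 (p : ℕ) (hp : p.Prime) [CharP k p] [IsAlgClosed k] (h : Ctx k v r)
    (B : BF k v) (E : IntermediateField k Ω) (hE : FracIs B.R E) (Z a : Ω) (ha : a ∈ B.R)
    (hZ : Z ^ p - Z = a) : Good v (adj E Z) := by
  have := charP_of_algebra k (Ω := Ω) p
  have hXd : (X + C a : Polynomial Ω).degree < p := by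
    rw [degree_X_add_C]
    exact_mod_cast hp.one_lt
  have hder : (X ^ p - (X + C a) : Polynomial Ω).derivative = -1 := by
    simp [derivative_X_pow]
  refine Good.etale p hp h E ⟨B, hE⟩ Z (X ^ p - (X + C a)) (monic_X_pow_sub hXd) ?_ ?_ ?_ ?_
  · intro i
    have h1 : (X ^ p - (X + C a) : Polynomial Ω).coeff i ∈ B.R := by
      rw [coeff_sub, coeff_add, coeff_X_pow, coeff_X, coeff_C]
      refine B.R.sub_mem ?_ (B.R.add_mem ?_ ?_) <;> split_ifs <;>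
        first | exact B.R.one_mem | exact B.R.zero_mem | exact ha
    exact ⟨hE.1 _ h1, B.nonneg _ h1⟩
  · simp only [eval_sub, eval_pow, eval_X, eval_add, eval_C]
    linear_combination hZ
  · rw [hder]; simp
  · rw [hder, eval_neg, eval_one, v.map_neg_one]

/-- The three basic types. -/
theorem good_of_types (p : ℕ) (hp : p.Prime) [CharP k p] [IsAlgClosed k] (h : Ctx k v r)
    (B : BF k v) (E : IntermediateField k Ω) (hE : FracIs B.R E) (f z : Ω)
    (hz : z ^ p - z = f) (hc : ∃ g ∈ E, (f - (g ^ p - g) ∈ B.R) ∨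
      (∃ κ ∈ B.Γ, κ < 0 ∧ (¬ ∃ δ ∈ B.Γ, κ = p * δ) ∧ ∃ u, B.Un u ∧
        f - (g ^ p - g) = B.χ κ * u) ∨
      (∃ b ∈ B.Γ, b < 0 ∧ ∃ yt', B.Rep yt' 0 1 ∧
        f - (g ^ p - g) = B.χ (p * b) * yt')) : Good v (adj E z) := by
  obtain ⟨g, hg, hc⟩ := hc
  have hzg : (z - g) ^ p - (z - g) = f - (g ^ p - g) := by
    rw [sub_pow_p k p hp, ← hz]; ring
  rw [← adj_sub hg]
  rcases hc with hc | ⟨κ, hκ, hκ0, hκ1, u, hu, hc⟩ | ⟨b, hb, hb0, yt, hyt, hc⟩
  · exact as_type0 p hp h B E hE (z - g) _ hc hzg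
  · exact as_type1 h B E hE p hp hκ hκ0 hκ1 (z - g) u hu (hzg.trans hc)
  · have hp1 : 0 < p - 1 := Nat.sub_pos_of_lt hp.one_lt
    have hb3 : -((p - 1 : ℕ) * b) ∈ B.Γ := by
      rw [← nsmul_eq_mul]
      exact B.Γ.neg_mem (B.Γ.nsmul_mem hb _)
    have hb4 : 0 < -((p - 1 : ℕ) * b) := by
      have h3 : (0 : ℝ) < (p - 1 : ℕ) := by exact_mod_cast hp1
      have := mul_neg_of_pos_of_neg h3 hb0
      linarith
    have hpb : (p : ℝ) * b ∈ B.Γ := by rw [← nsmul_eq_mul]; exact B.Γ.nsmul_mem hb _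
    have hχb := B.χ_ne b hb
    have hχp : B.χ (p * b) * B.χ (-((p - 1 : ℕ) * b)) = B.χ b := by
      rw [← B.χ_add _ hpb _ hb3]
      congr 1
      have : ((p - 1 : ℕ) : ℝ) = p - 1 := by rw [Nat.cast_sub hp.one_le, Nat.cast_one]
      rw [this]; ring
    rw [← adj_div (B.χ_mem_frac hE hb) hχb]
    refine type2 h B E hE p hp ((z - g) / B.χ b) yt (B.χ (-((p - 1 : ℕ) * b))) hyt
      ⟨_, hb3, hb4, 1, B.R.one_mem, by rw [mul_one]⟩ ?_
    have h5 : (z - g) ^ p = (z - g) + B.χ b ^ p * yt := by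
      rw [← B.χ_nsmul hb]; linear_combination hzg + hc
    have h6 : B.χ b ^ p * B.χ (-((p - 1 : ℕ) * b)) = B.χ b := by
      rw [← B.χ_nsmul hb]; exact hχp
    have h7 : B.χ (-((p - 1 : ℕ) * b)) = B.χ b / B.χ b ^ p := by
      rw [eq_div_iff (pow_ne_zero _ hχb), mul_comm]; exact h6
    rw [div_pow, h5, h7]
    field_simp
    ring

theorem good_of_cleanAS (p : ℕ) (hp : p.Prime) [CharP k p] [IsAlgClosed k] (h : Ctx k v r)
    (B : BF k v) (E : IntermediateField k Ω) (hE : FracIs B.R E) (f z : Ω)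
    (hz : z ^ p - z = f) (hc : CleanAS p B E f) : Good v (adj E z) := by
  obtain ⟨g, hg, hc⟩ := hc
  rcases hc with hc | hc | hc | ⟨κ, hκ, -, -, yt, hyt, hc⟩
  · exact good_of_types p hp h B E hE f z hz ⟨g, hg, Or.inl hc⟩
  · exact good_of_types p hp h B E hE f z hz ⟨g, hg, Or.inr (Or.inl hc)⟩
  · exact good_of_types p hp h B E hE f z hz ⟨g, hg, Or.inr (Or.inr hc)⟩
  · obtain ⟨B', hE', g', hg', hc'⟩ := as_type3 p hp h B E hE hκ yt hyt
    rw [← hc] at hc'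
    have h1 : f - (g ^ p - g) - (g' ^ p - g') = f - ((g + g') ^ p - (g + g')) := by
      have h2 : (g + g') ^ p = g ^ p + g' ^ p := by
        have := sub_pow_p k p hp (g + g') g'
        rw [add_sub_cancel_right] at this
        linear_combination -this
      rw [h2]; ring
    rw [h1] at hc'
    exact good_of_types p hp h B' E hE' f z hz ⟨g + g', E.add_mem hg hg', hc'⟩

end Pool.Agent.LU1
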