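import Pool.Agent.Lib.LU1_h15.ASAux

/-! # R4, polynomial part: an infinite chain with `q = 1` and constant order is impossible -/

set_option autoImplicit false

open Polynomial

namespace Pool.Agent.LU1

open Pool.Agent.H15JM (RVal)

universe u

variable {k : Type u} [Field k]

theorem natDegree_stepPoly_le (β : ℝ) (c : k) :
    (C (mon β 1) * (C (mon 0 c) + X) : (Lau k)[X]).natDegree ≤ 1 := by
  refine (natDegree_C_mul_le _ _).trans ?_
  rw [add_comm]
  exact (natDegree_X_add_C _).le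

theorem natDegree_comp_step_le (P : (Lau k)[X]) (β : ℝ) (c : k) :
    (P.comp (C (mon β 1) * (C (mon 0 c) + X))).natDegree ≤ P.natDegree := by
  refine natDegree_comp_le.trans ?_
  calc _ ≤ P.natDegree * 1 := Nat.mul_le_mul_left _ (natDegree_stepPoly_le β c)
    _ = P.natDegree := mul_one _

theorem comp_step_eq (P : (Lau k)[X]) (β : ℝ) (c : k) :
    P.comp (C (mon β 1) * (C (mon 0 c) + X)) = tpoly β c (fun _ l => l) P :=
  (tpoly_one β c (fun _ l => l) P fun _ _ _ => rfl).symm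

theorem sup_zmultiples_eq {Γ : AddSubgroup ℝ} {β : ℝ} (h : β ∈ Γ) :
    Γ ⊔ AddSubgroup.zmultiples β = Γ :=
  sup_eq_left.2 (AddSubgroup.zmultiples_le_of_mem h)

theorem SuppIn.comp_step {Γ : AddSubgroup ℝ} {P : (Lau k)[X]} (hP : SuppIn Γ P) {β : ℝ}
    (hβ : β ∈ Γ) (c : k) : SuppIn Γ (P.comp (C (mon β 1) * (C (mon 0 c) + X))) := by
  rw [comp_step_eq]
  have := hP.tpoly (β := β) (c := c) (s := fun _ l => l)
  rwa [sup_zmultiples_eq hβ] at this

theorem comp_step_ge {P : (Lau k)[X]} {β τ : ℝ} (c : k)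
    (h : ∀ γ l, co P γ l ≠ 0 → τ ≤ γ + l * β) :
    ∀ γ l, co (P.comp (C (mon β 1) * (C (mon 0 c) + X))) γ l ≠ 0 → τ ≤ γ := by
  rw [comp_step_eq]
  exact tpoly_ge h

theorem lau_add_pow (p : ℕ) (hp : p.Prime) [CharP k p] (a b : (Lau k)[X]) :
    (a + b) ^ p = a ^ p + b ^ p := by
  have : Fact p.Prime := ⟨hp⟩
  have : CharP (Lau k) p := charP_of_injective_algebraMap (algebraMap k (Lau k)).injective p
  exact add_pow_char (p := p) a b

/-- Composition with `x^b Y` and with `x^(-b) Y`. -/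
theorem comp_mon_comp_mon (P : (Lau k)[X]) (b : ℝ) :
    (P.comp (C (mon b 1) * X)).comp (C (mon (-b) 1) * X) = P := by
  rw [comp_assoc]
  have h : (C (mon (k := k) b 1) * X).comp (C (mon (-b) 1) * X) = (X : (Lau k)[X]) := by
    rw [mul_comp, C_comp, X_comp, ← mul_assoc, ← C_mul, mon_mul, add_neg_cancel, one_mul,
      mon_zero_one, C_1, one_mul]
  rw [h, comp_X]

theorem natDegree_comp_mon_le (P : (Lau k)[X]) (b : ℝ) :
    (P.comp (C (mon b 1) * X)).natDegree ≤ P.natDegree := by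
  refine natDegree_comp_le.trans ?_
  calc _ ≤ P.natDegree * 1 := Nat.mul_le_mul_left _ (by
        refine (natDegree_C_mul_le _ _).trans natDegree_X_le)
    _ = P.natDegree := mul_one _

theorem SuppIn.comp_mon {Γ : AddSubgroup ℝ} {P : (Lau k)[X]} (hP : SuppIn Γ P) {b : ℝ}
    (hb : b ∈ Γ) : SuppIn Γ (P.comp (C (mon b 1) * X)) := by
  intro γ l h
  rw [co_comp_mon] at h
  have h1 := hP _ _ h
  have h2 := Γ.add_mem h1 (Γ.nsmul_mem hb l)
  rwa [nsmul_eq_mul, sub_add_cancel] at h2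

/-- The accumulated relation along the chain. -/
theorem chain_acc (p : ℕ) (hp : p.Prime) [CharP k p] (Γ : AddSubgroup ℝ)
    (β : ℕ → ℝ) (c : ℕ → k) (P : ℕ → (Lau k)[X]) (d : ℕ)
    (hβ : ∀ n, 0 < β n) (hβΓ : ∀ n, β n ∈ Γ)
    (heq : ∀ n, ∃ H E : (Lau k)[X], SuppIn Γ H ∧ SuppIn Γ E ∧ H.natDegree ≤ d ∧
      (∀ γ l, co E γ l ≠ 0 → 0 ≤ γ) ∧
      (P n).comp (C (mon (β n) 1) * (C (mon 0 (c n)) + X)) = P (n + 1) + (H ^ p - H) + E)
    (n : ℕ) :
    ∃ h e : (Lau k)[X], SuppIn Γ h ∧ SuppIn Γ e ∧ h.natDegree ≤ d ∧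
      (∀ γ l, co e γ l ≠ 0 → 0 ≤ γ) ∧
      (taylor (Ysum (fun i => ∑ j ∈ Finset.range (i + 1), β j) c n) (P 0)).comp
        (C (mon (∑ j ∈ Finset.range n, β j) 1) * X) = P n + (h ^ p - h) + e := by
  induction n with
  | zero =>
    refine ⟨0, 0, SuppIn.zero Γ, SuppIn.zero Γ, by simp, fun γ l h0 => absurd (co_zero γ l) h0,
      ?_⟩
    rw [Ysum, Finset.range_zero, Finset.sum_empty, Finset.sum_empty, taylor_zero', mon_zero_one,
      C_1, one_mul, comp_X, zero_pow hp.ne_zero]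
    simp
  | succ n ih =>
    obtain ⟨h, e, hh, he, hhd, he0, hacc⟩ := ih
    obtain ⟨H, E, hH, hE, hHd, hE0, hst⟩ := heq n
    set τ : (Lau k)[X] := C (mon (β n) 1) * (C (mon 0 (c n)) + X) with hτ
    refine ⟨h.comp τ + H, E + e.comp τ, (hh.comp_step (hβΓ n) (c n)).add hH,
      hE.add (he.comp_step (hβΓ n) (c n)), ?_, ?_, ?_⟩
    · exact (natDegree_add_le _ _).trans
        (max_le ((natDegree_comp_step_le h (β n) (c n)).trans hhd) hHd)
    · intro γ l h0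
      rw [co_add] at h0
      by_cases h1 : co E γ l = 0
      · rw [h1, zero_add] at h0
        refine comp_step_ge (c n) (fun γ' l' h2 => ?_) γ l h0
        exact add_nonneg (he0 γ' l' h2) (mul_nonneg (Nat.cast_nonneg _) (hβ n).le)
      · exact hE0 γ l h1
    · have h1 := comp_taylor_step (P 0)
        (Ysum (fun i => ∑ j ∈ Finset.range (i + 1), β j) c n)
        (∑ j ∈ Finset.range n, β j) (β n) (c n)
      rw [← hτ, hacc] at h1
      have h2 : Ysum (fun i => ∑ j ∈ Finset.range (i + 1), β j) c (n + 1) =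
          Ysum (fun i => ∑ j ∈ Finset.range (i + 1), β j) c n +
            mon (∑ j ∈ Finset.range n, β j + β n) (c n) := by
        rw [Ysum, Finset.sum_range_succ, ← Ysum, Finset.sum_range_succ]
      rw [h2, Finset.sum_range_succ, ← h1, add_comp, add_comp, sub_comp, pow_comp, hst,
        lau_add_pow p hp]
      ring

/-- An infinite chain with `q = 1` and constant order `D ≥ 2` is impossible. -/
theorem chain_false (p : ℕ) (hp : p.Prime) [CharP k p] [IsAlgClosed k] (Γ : AddSubgroup ℝ)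
    (hΓ : Γ.FG) (β : ℕ → ℝ) (c : ℕ → k) (P : ℕ → (Lau k)[X]) (κ : ℕ → ℝ) (D d : ℕ)
    (hD : 2 ≤ D) (hβ : ∀ n, 0 < β n) (hβΓ : ∀ n, β n ∈ Γ) (hc : ∀ n, c n ≠ 0)
    (hP : ∀ n, SuppIn Γ (P n))
    (hred : ∀ n γ l, co (P n) γ l ≠ 0 → γ < 0 ∧ Vis p Γ γ l)
    (hLD : ∀ n, IsLD (Vis p Γ) (P n) 0 (κ n) D)
    (hκ : ∀ n, κ (n + 1) = κ n + D * β n)
    (hge : ∀ n γ l, co (P n) γ l ≠ 0 → κ (n + 1) ≤ γ + l * β n)
    (heq : ∀ n, ∃ H E : (Lau k)[X], SuppIn Γ H ∧ SuppIn Γ E ∧ H.natDegree ≤ d ∧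
      (∀ γ l, co E γ l ≠ 0 → 0 ≤ γ) ∧
      (P n).comp (C (mon (β n) 1) * (C (mon 0 (c n)) + X)) = P (n + 1) + (H ^ p - H) + E) :
    False := by
  set Bp : ℕ → ℝ := fun n => ∑ j ∈ Finset.range n, β j with hBp
  have hBps : ∀ n, Bp (n + 1) = Bp n + β n := fun n => Finset.sum_range_succ _ _
  have hBpΓ : ∀ n, Bp n ∈ Γ := fun n => Γ.sum_mem fun i _ => hβΓ i
  have hκ' : ∀ n, κ n = κ 0 + D * Bp n := by
    intro n
    induction n with
    | zero => simp [hBp]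
    | succ n ih => rw [hκ n, ih, hBps]; ring
  have hco : ∀ n, co (P n) (κ n) D ≠ 0 := by
    intro n
    have := (hLD n).2.2.1
    rwa [mul_zero, sub_zero] at this
  have hneg : ∀ n, κ n < 0 := fun n => (hred n _ _ (hco n)).1
  have hmin : ∀ n γ l, co (P n) γ l ≠ 0 → κ n ≤ γ := by
    intro n γ l h0
    have := (hLD n).1 γ l h0 (hred n γ l h0).2
    rwa [mul_zero, add_zero] at this
  have hD0 : (0 : ℝ) < D := by exact_mod_cast (by omega : 0 < D)
  choose hs es hh he hhd he0 hacc using chain_acc p hp Γ β c P d hβ hβΓ heq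
  have hcomp : ∀ (Q : (Lau k)[X]) (n : ℕ) (γ : ℝ) (l : ℕ),
      co (Q.comp (C (mon (-Bp n) 1) * X)) γ l = co Q (γ + l * Bp n) l := by
    intro Q n γ l
    rw [co_comp_mon]
    congr 1
    ring
  refine TAIL p hp Γ (fun i => Bp (i + 1)) c ⟨hΓ, fun i => hBpΓ _, ?_, ?_, hc⟩ (P 0) (hP 0) D hD
    (κ 0) (hP 0 _ _ (hco 0)) ?_ ?_ d 0 (fun n => (P n).comp (C (mon (-Bp n) 1) * X))
    (fun n => (hs n).comp (C (mon (-Bp n) 1) * X)) (fun n => (es n).comp (C (mon (-Bp n) 1) * X))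
    (fun n _ => (hP n).comp_mon (Γ.neg_mem (hBpΓ n)))
    (fun n _ => (hh n).comp_mon (Γ.neg_mem (hBpΓ n)))
    (fun n _ => (he n).comp_mon (Γ.neg_mem (hBpΓ n))) ?_ ?_ ?_ ?_ ?_ ?_ ?_
  · refine strictMono_nat_of_lt_succ fun n => ?_
    show Bp (n + 1) < Bp (n + 1 + 1)
    rw [hBps (n + 1)]
    exact lt_add_of_pos_right _ (hβ _)
  · refine ⟨-κ 0 / D, ?_⟩
    rintro _ ⟨n, rfl⟩
    show Bp (n + 1) ≤ _
    rw [le_div_iff₀ hD0]
    have := hneg (n + 1)
    rw [hκ'] at this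
    linarith
  · exact (hred 0 _ _ (hco 0)).2
  · intro n
    show κ 0 + D * Bp (n + 1) < 0
    rw [← hκ']
    exact hneg _
  · intro n _
    have h1 := congrArg (fun Q => Q.comp (C (mon (-Bp n) 1) * X)) (hacc n)
    have h2 : (fun i => ∑ j ∈ Finset.range (i + 1), β j) = fun i => Bp (i + 1) := rfl
    beta_reduce at h1
    rw [h2, show (∑ j ∈ Finset.range n, β j) = Bp n from rfl, comp_mon_comp_mon, add_comp,
      add_comp, sub_comp, pow_comp] at h1
    exact h1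
  · intro n _
    refine lt_of_le_of_lt ((natDegree_comp_mon_le _ _).trans (hhd n)) ?_
    exact Nat.lt_pow_self hp.one_lt
  · intro n _ γ l h0
    rw [hcomp] at h0
    have h1 := hge n _ _ h0
    rw [hκ' (n + 1)] at h1
    show κ 0 + D * Bp (n + 1) ≤ γ + l * Bp (n + 1)
    rw [hBps n] at h1 ⊢
    linarith
  · intro n _ γ l h0 hl
    rw [hcomp] at h0
    have h1 := hmin n _ _ h0
    rw [hκ' n] at h1
    show κ 0 + D * Bp (n + 1) < γ + l * Bp (n + 1)
    have h2 : (D : ℝ) * β n < l * β n := by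
      refine mul_lt_mul_of_pos_right ?_ (hβ n)
      exact_mod_cast hl
    rw [hBps n]
    nlinarith
  · intro n _
    show co ((P n).comp (C (mon (-Bp n) 1) * X)) (κ 0) D ≠ 0
    rw [hcomp, ← hκ' n]
    exact hco n
  · intro n _ γ l h0 _
    rw [hcomp] at h0
    have h1 := (hred n _ _ h0).2
    rintro ⟨h2, δ, hδ, rfl⟩
    refine h1 ⟨h2, ?_⟩
    obtain ⟨m, rfl⟩ := h2
    refine ⟨δ + m * Bp n, Γ.add_mem hδ (by rw [← nsmul_eq_mul]; exact Γ.nsmul_mem (hBpΓ n) m), ?_⟩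
    push_cast
    ring
  · intro n _ γ l h0
    rw [hcomp] at h0
    have h1 := he0 n _ _ h0
    show 0 ≤ γ + l * Bp (n + 1)
    rw [hBps n]
    have h2 : 0 ≤ (l : ℝ) * β n := mul_nonneg (Nat.cast_nonneg _) (hβ n).le
    nlinarith

end Pool.Agent.LU1
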