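import Pool.Agent.Lib.LU1_h15.ASAux

/-! # R3: reduction of an Artin-Schreier class to a polynomial -/

set_option autoImplicit false

open Polynomial

namespace Pool.Agent.LU1

open Pool.Agent.H15JM (RVal)

universe u

variable {k Ω : Type u} [Field k] [Field Ω] [Algebra k Ω] {v : RVal Ω} {r : ℕ}

/-- Reduction to a polynomial class. -/
theorem as_to_poly (p : ℕ) (hp : p.Prime) [CharP k p] [IsAlgClosed k] (h : Ctx k v r)
    (B : BF k v) (E : IntermediateField k Ω) (hE : FracIs B.R E) (f : Ω) (hf : f ∈ E) :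
    ∃ B' : BF k v, Reach B B' ∧ ∃ P : (Lau k)[X], SuppIn B'.Γ P ∧ f - B'.ev P ∈ B'.R := by
  obtain ⟨a, ha, b, hb, hb0, rfl⟩ := hE.2 f hf
  obtain ⟨B1, hB1, hmon⟩ := ML p hp h B E hE {b} (by
    intro x hx
    rw [Finset.mem_singleton] at hx
    subst hx
    exact ⟨hE.1 _ hb, hb0⟩)
  have hbm : B1.Mono b := hmon b (Finset.mem_singleton_self b)
  obtain ⟨κ, hκ, w, hw, hbw⟩ := BF.mono_iff.1 hbm
  have hext := hB1.ext
  -- the regular part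
  have hg : a * w⁻¹ ∈ B1.R := B1.R.mul_mem (hext.le ha) hw.inv.1
  have hfg : a / b = B1.χ (-κ) * (a * w⁻¹) := by
    rw [hbw, B1.χ_neg hκ, div_eq_mul_inv, mul_inv]
    ring
  obtain ⟨S0, G, hS0, hG, hTG, hN⟩ := BF.exists_NF h B1 {a * w⁻¹} (by
    intro x hx
    rw [Finset.mem_singleton] at hx
    rw [hx]; exact hg)
  obtain ⟨u, hu⟩ := B1.exists_basis h S0 hS0
  obtain ⟨N, hNx, hNy, -, hNR, hNT⟩ := hN u hu
  have hgN : a * w⁻¹ ∈ N.R := hNT _ (Finset.mem_singleton_self _)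
  -- the smallest value of a parameter
  obtain ⟨j, hj⟩ := Finite.exists_min (fun o : Option (Fin r) => o.elim (v B1.y) u)
  set ε : ℝ := j.elim (v B1.y) u with hε
  have hε0 : 0 < ε := by
    rw [hε]
    cases j with
    | none => exact B1.y_pos
    | some i => exact hu.pos i
  have hεy : ε ≤ v B1.y := hj none
  have hεu : ∀ i, ε ≤ u i := fun i => hj (some i)
  obtain ⟨M, hM⟩ := exists_nat_ge (κ / ε)
  have hMκ : κ ≤ M * ε := by rwa [div_le_iff₀ hε0] at hM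
  obtain ⟨P, -, hP2, hP3, hP4⟩ := NF.expand h B1 N u (fun i => ⟨hu.mem i, hu.pos i⟩) hNx hNy
    (a * w⁻¹) hgN M
  have hnκ : -κ ∈ B1.Γ := B1.Γ.neg_mem hκ
  have hQ : SuppIn B1.Γ (C (mon (-κ) 1) * P) := (SuppIn.cmon hnκ 1).mul hP2
  have hQe : B1.ev (C (mon (-κ) 1) * P) = B1.χ (-κ) * B1.ev P := by
    rw [B1.ev_mul (SuppIn.cmon hnκ 1) hP2]
    congr 1
    have := B1.ev_monomial (-κ) (1 : k) 0
    rw [pow_zero, mul_one, pow_zero, mul_one, _root_.map_one, one_mul] at this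
    exact this
  obtain ⟨B', q, c, s, hT, -, -, h4, h5⟩ := B1.exists_step h hQ
  refine ⟨B', hB1.trans (Relation.ReflTransGen.single ⟨q, c, s, hT⟩), _, h4, ?_⟩
  have hεΓ : ε ∈ B'.Γ := by
    rw [hε]
    cases j with
    | none => exact hT.β_mem
    | some i => exact hT.Γ_le (hu.mem i)
  have hle : N.R ≤ B'.R := hNR.trans hT.ext.le
  obtain ⟨e, he, hee⟩ := N.inPow_dvd B'.R hle (B'.χ ε) (fun i => by
    refine ⟨B1.χ (u i) / B'.χ (u i) * B'.χ (u i - ε), B'.R.mul_mem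
      (hT.ext.χ_un _ (hu.mem i)).1 (B'.χ_mem _ (B'.Γ.sub_mem (hT.Γ_le (hu.mem i)) hεΓ)
        (sub_nonneg.2 (hεu i))), ?_⟩
    rw [hNx i, B'.χ_sub (hT.Γ_le (hu.mem i)) hεΓ]
    have h1 := B'.χ_ne _ (hT.Γ_le (hu.mem i))
    have h2 := B'.χ_ne _ hεΓ
    field_simp) (by
    obtain ⟨γ, hγ, w', hw', hy⟩ := BF.mono_iff.1 hT.mono_y
    have hγv : γ = v B1.y := by
      rw [hy, v.map_mul (B'.χ_ne γ hγ) hw'.2.1, B'.χ_val γ hγ, hw'.2.2, add_zero]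
    refine ⟨B'.χ (γ - ε) * w', B'.R.mul_mem (B'.χ_mem _ (B'.Γ.sub_mem hγ hεΓ) (by
      rw [hγv]; exact sub_nonneg.2 hεy)) hw'.1, ?_⟩
    rw [hNy, hy, B'.χ_sub hγ hεΓ]
    have h2 := B'.χ_ne _ hεΓ
    field_simp) M _ hP4
  -- the error term
  have herr : B1.χ (-κ) * (a * w⁻¹ - B1.ev P) ∈ B'.R := by
    rw [hee]
    have h1 : B1.χ (-κ) * (B'.χ ε ^ M * e) =
        B1.χ (-κ) / B'.χ (-κ) * (B'.χ (-κ + M * ε) * e) := by
      have hMε : (M : ℝ) * ε ∈ B'.Γ := by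
        rw [← nsmul_eq_mul]; exact B'.Γ.nsmul_mem hεΓ _
      rw [B'.χ_add _ (hT.Γ_le hnκ) _ hMε, B'.χ_nsmul hεΓ]
      have h2 := B'.χ_ne _ (hT.Γ_le hnκ)
      field_simp
    rw [h1]
    refine B'.R.mul_mem (hT.ext.χ_un _ hnκ).1 (B'.R.mul_mem (B'.χ_mem _ ?_ ?_) he)
    · refine B'.Γ.add_mem (hT.Γ_le hnκ) ?_
      rw [← nsmul_eq_mul]; exact B'.Γ.nsmul_mem hεΓ _
    · linarith
  have hfin : a / b - B'.ev (tpoly (v B1.y) c s
      (pf (fun γ l => γ + l * v B1.y < 0) (C (mon (-κ) 1) * P))) =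
      B1.χ (-κ) * (a * w⁻¹ - B1.ev P) + (B1.ev (C (mon (-κ) 1) * P) -
        B'.ev (tpoly (v B1.y) c s
          (pf (fun γ l => γ + l * v B1.y < 0) (C (mon (-κ) 1) * P)))) := by
    rw [hQe, hfg]; ring
  rw [hfin]
  exact B'.R.add_mem herr h5

end Pool.Agent.LU1
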