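import Pool.Agent.Lib.LU1_h15.Basic

/-! # Constructing big frames (helper59)

`exists_BF_of`: a finitely generated `Γ`, `χ`, `y` and a finite set `F` of elements of the ring
`R' = locv k[F, χ(Γ ≥ 0)]` which are constant modulo `(χ(Γ > 0), y) R'` give a big frame. -/

set_option autoImplicit false

namespace Pool.Agent.LU1

open Pool.Agent.H15JM (RVal)
open Polynomial

universe u

variable {k Ω : Type u} [Field k] [Field Ω] [Algebra k Ω] {v : RVal Ω} {r : ℕ}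

/-- The ideal `(χ(Γ > 0), y) R`. -/
def InM (Γ : AddSubgroup ℝ) (χ : ℝ → Ω) (y : Ω) (R : Subalgebra k Ω) (f : Ω) : Prop :=
  ∃ γ ∈ Γ, 0 < γ ∧ ∃ a ∈ R, ∃ b ∈ R, f = χ γ * a + y * b

section

variable {Γ : AddSubgroup ℝ} {χ : ℝ → Ω} {y : Ω} {R : Subalgebra k Ω}

theorem InM.mul {f g : Ω} (hf : InM Γ χ y R f) (hg : g ∈ R) : InM Γ χ y R (f * g) := by
  obtain ⟨γ, hγ, h0, a, ha, b, hb, rfl⟩ := hf
  exact ⟨γ, hγ, h0, a * g, R.mul_mem ha hg, b * g, R.mul_mem hb hg, by ring⟩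

theorem InM.mul' {f g : Ω} (hf : f ∈ R) (hg : InM Γ χ y R g) : InM Γ χ y R (f * g) := by
  rw [mul_comm]; exact hg.mul hf

theorem InM.neg {f : Ω} (hf : InM Γ χ y R f) : InM Γ χ y R (-f) := by
  have := hf.mul (R.neg_mem R.one_mem)
  rwa [mul_neg, mul_one] at this

theorem InM.add (hadd : ∀ γ ∈ Γ, ∀ δ ∈ Γ, χ (γ + δ) = χ γ * χ δ)
    (hmem : ∀ γ ∈ Γ, 0 ≤ γ → χ γ ∈ R) {f g : Ω} (hf : InM Γ χ y R f) (hg : InM Γ χ y R g) :
    InM Γ χ y R (f + g) := by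
  obtain ⟨γ, hγ, h0, a, ha, b, hb, rfl⟩ := hf
  obtain ⟨δ, hδ, h1, a', ha', b', hb', rfl⟩ := hg
  rcases le_total γ δ with hle | hle
  · refine ⟨γ, hγ, h0, a + χ (δ - γ) * a', R.add_mem ha (R.mul_mem (hmem _ (Γ.sub_mem hδ hγ)
      (sub_nonneg.2 hle)) ha'), b + b', R.add_mem hb hb', ?_⟩
    have h2 : χ δ = χ γ * χ (δ - γ) := by
      rw [← hadd γ hγ _ (Γ.sub_mem hδ hγ)]; congr 1; ring
    rw [h2]; ring
  · refine ⟨δ, hδ, h1, χ (γ - δ) * a + a', R.add_mem (R.mul_mem (hmem _ (Γ.sub_mem hγ hδ)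
      (sub_nonneg.2 hle)) ha) ha', b + b', R.add_mem hb hb', ?_⟩
    have h2 : χ γ = χ δ * χ (γ - δ) := by
      rw [← hadd δ hδ _ (Γ.sub_mem hγ hδ)]; congr 1; ring
    rw [h2]; ring

theorem InM.vpos (hval : ∀ γ ∈ Γ, v (χ γ) = γ) (hy : VPos v y) (hR : ∀ f ∈ R, v.Ge 0 f) {f : Ω}
    (hf : InM Γ χ y R f) : VPos v f := by
  obtain ⟨γ, hγ, h0, a, ha, b, hb, rfl⟩ := hf
  refine VPos.add ?_ ?_
  · refine VPos.mul ?_ (hR a ha)
    intro _; rw [hval γ hγ]; exact h0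
  · exact VPos.mul hy (hR b hb)

theorem InM.zero (hne : ∃ γ ∈ Γ, 0 < γ) : InM Γ χ y R 0 := by
  obtain ⟨γ, hγ, h0⟩ := hne
  exact ⟨γ, hγ, h0, 0, R.zero_mem, 0, R.zero_mem, by simp⟩

theorem InM.mono {R' : Subalgebra k Ω} (h : R ≤ R') {f : Ω} (hf : InM Γ χ y R f) :
    InM Γ χ y R' f := by
  obtain ⟨γ, hγ, h0, a, ha, b, hb, rfl⟩ := hf
  exact ⟨γ, hγ, h0, a, h ha, b, h hb, rfl⟩

end

/-- `Γ` has a positive element. -/
theorem exists_pos_of_full (h : Ctx k v r) (Γ : AddSubgroup ℝ)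
    (full : ∀ g : Ω, g ≠ 0 → ∃ m : ℕ, 0 < m ∧ (m : ℝ) * v g ∈ Γ) : ∃ γ ∈ Γ, 0 < γ := by
  obtain ⟨X, hX0, hX, -⟩ := h.rank
  have h1 := hX.ne_zero (⟨0, h.rpos⟩ : Fin r)
  obtain ⟨m, hm, hmem⟩ := full _ (hX0 ⟨0, h.rpos⟩)
  have h2 : (m : ℝ) * v (X ⟨0, h.rpos⟩) ≠ 0 :=
    mul_ne_zero (by exact_mod_cast hm.ne') h1
  rcases lt_or_gt_of_ne h2 with h3 | h3
  · exact ⟨_, Γ.neg_mem hmem, neg_pos.2 h3⟩
  · exact ⟨_, hmem, h3⟩

/-- The generation of the maximal ideal, from generators. -/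
theorem gen_of (h : Ctx k v r) {Γ : AddSubgroup ℝ} {χ : ℝ → Ω} {y : Ω} {S : Set Ω}
    (hne : ∃ γ ∈ Γ, 0 < γ)
    (hadd : ∀ γ ∈ Γ, ∀ δ ∈ Γ, χ (γ + δ) = χ γ * χ δ) (hval : ∀ γ ∈ Γ, v (χ γ) = γ)
    (hy : VPos v y) (hS0 : ∀ s ∈ S, v.Ge 0 s)
    (hmem : ∀ γ ∈ Γ, 0 ≤ γ → χ γ ∈ locv v (Algebra.adjoin k S))
    (hS : ∀ s ∈ S, ∃ c : k, InM Γ χ y (locv v (Algebra.adjoin k S)) (s - algebraMap k Ω c)) :
    ∀ f ∈ locv v (Algebra.adjoin k S), VPos v f →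
      InM Γ χ y (locv v (Algebra.adjoin k S)) f := by
  set R := locv v (Algebra.adjoin k S) with hR
  have hge : ∀ f ∈ R, v.Ge 0 f := locv_nonneg (adjoin_nonneg h hS0)
  have h1 : ∀ f ∈ Algebra.adjoin k S, ∃ c : k, InM Γ χ y R (f - algebraMap k Ω c) := by
    intro f hf
    induction hf using Algebra.adjoin_induction with
    | mem x hx => exact hS x hx
    | algebraMap c => exact ⟨c, by rw [sub_self]; exact InM.zero hne⟩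
    | add x z _ _ hx hz =>
      obtain ⟨c, hc⟩ := hx
      obtain ⟨d, hd⟩ := hz
      refine ⟨c + d, ?_⟩
      have := hc.add hadd hmem hd
      rw [map_add]
      convert this using 1; ring
    | mul x z hx' hz' hx hz =>
      obtain ⟨c, hc⟩ := hx
      obtain ⟨d, hd⟩ := hz
      refine ⟨c * d, ?_⟩
      have := (hc.mul (le_locv _ hz')).add hadd hmem (hd.mul' (R.algebraMap_mem c))
      rw [map_mul]
      convert this using 1; ring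
  have h2 : ∀ f ∈ R, ∃ c : k, InM Γ χ y R (f - algebraMap k Ω c) := by
    rintro f ⟨a, ha, b, hb, hb0, hvb, rfl⟩
    obtain ⟨c, hc⟩ := h1 a ha
    obtain ⟨d, hd⟩ := h1 b hb
    have hbi : b⁻¹ ∈ R := locv_inv (le_locv _ hb) hb0 hvb
    have hd0 : d ≠ 0 := by
      rintro rfl
      rw [map_zero, sub_zero] at hd
      have := hd.vpos hval hy hge hb0
      rw [hvb] at this
      exact lt_irrefl _ this
    refine ⟨c / d, ?_⟩
    have hd1 : algebraMap k Ω d ≠ 0 := by simpa using hd0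
    have h3 : a / b - algebraMap k Ω (c / d) =
        (a - algebraMap k Ω c) * b⁻¹ +
          (b - algebraMap k Ω d) * (-(algebraMap k Ω (c / d) * b⁻¹)) := by
      rw [map_div₀]
      field_simp
      ring
    rw [h3]
    exact (hc.mul hbi).add hadd hmem
      (hd.mul (R.neg_mem (R.mul_mem (R.algebraMap_mem _) hbi)))
  intro f hf hv
  obtain ⟨c, hc⟩ := h2 f hf
  have h3 : VPos v (algebraMap k Ω c) := by
    have := hv.sub (hc.vpos hval hy hge)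
    rwa [sub_sub_cancel] at this
  rw [h.const_eq_zero h3, map_zero, sub_zero] at hc
  exact hc

/-- General constructor of big frames. -/
theorem exists_BF_of (h : Ctx k v r) (Γ : AddSubgroup ℝ) (fg : Γ.FG)
    (full : ∀ g : Ω, g ≠ 0 → ∃ m : ℕ, 0 < m ∧ (m : ℝ) * v g ∈ Γ) (χ : ℝ → Ω)
    (χ_ne : ∀ γ ∈ Γ, χ γ ≠ 0) (χ_add : ∀ γ ∈ Γ, ∀ δ ∈ Γ, χ (γ + δ) = χ γ * χ δ)
    (χ_val : ∀ γ ∈ Γ, v (χ γ) = γ) (y : Ω) (y_ne : y ≠ 0) (y_pos : 0 < v y) (F : Finset Ω)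
    (hF0 : ∀ f ∈ F, v.Ge 0 f)
    (y_mem : y ∈ locv v (Algebra.adjoin k ((F : Set Ω) ∪ χ '' {γ | γ ∈ Γ ∧ 0 ≤ γ})))
    (hF : ∀ f ∈ F, ∃ c : k,
      InM Γ χ y (locv v (Algebra.adjoin k ((F : Set Ω) ∪ χ '' {γ | γ ∈ Γ ∧ 0 ≤ γ})))
        (f - algebraMap k Ω c))
    (alg : ∀ g : Ω,
      IsAlgebraic (locv v (Algebra.adjoin k ((F : Set Ω) ∪ χ '' {γ | γ ∈ Γ ∧ 0 ≤ γ}))) g) :
    ∃ B : BF k v, B.Γ = Γ ∧ B.χ = χ ∧ B.y = y ∧
      B.R = locv v (Algebra.adjoin k ((F : Set Ω) ∪ χ '' {γ | γ ∈ Γ ∧ 0 ≤ γ})) := by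
  have hχ0 : χ 0 = 1 := by
    have h1 := χ_add 0 Γ.zero_mem 0 Γ.zero_mem
    rw [add_zero] at h1
    exact (mul_right_cancel₀ (χ_ne 0 Γ.zero_mem) (by rw [one_mul]; exact h1)).symm
  have hS0 : ∀ s ∈ (F : Set Ω) ∪ χ '' {γ | γ ∈ Γ ∧ 0 ≤ γ}, v.Ge 0 s := by
    rintro s (hs | ⟨γ, ⟨hγ, h0⟩, rfl⟩)
    · exact hF0 s hs
    · intro _; rw [χ_val γ hγ]; exact h0
  have hmem : ∀ γ ∈ Γ, 0 ≤ γ →
      χ γ ∈ locv v (Algebra.adjoin k ((F : Set Ω) ∪ χ '' {γ | γ ∈ Γ ∧ 0 ≤ γ})) := fun γ hγ h0 =>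
    le_locv _ (Algebra.subset_adjoin (Or.inr ⟨γ, ⟨hγ, h0⟩, rfl⟩))
  have hne := exists_pos_of_full h Γ full
  refine ⟨{ Γ := Γ, fg := fg, full := full, χ := χ, χ_ne := χ_ne, χ_add := χ_add, χ_val := χ_val,
            y := y, y_ne := y_ne, y_pos := y_pos,
            R := locv v (Algebra.adjoin k ((F : Set Ω) ∪ χ '' {γ | γ ∈ Γ ∧ 0 ≤ γ})),
            nonneg := locv_nonneg (adjoin_nonneg h hS0),
            loc := fun f hf h0 h1 => locv_inv hf h0 h1,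
            χ_mem := hmem, y_mem := y_mem, fgen := ⟨F, rfl⟩, gen := ?_, alg := alg },
    rfl, rfl, rfl, rfl⟩
  refine gen_of h hne χ_add χ_val (fun _ => y_pos) hS0 hmem ?_
  rintro s (hs | ⟨γ, ⟨hγ, h0⟩, rfl⟩)
  · exact hF s hs
  · rcases h0.lt_or_eq with h1 | h1
    · refine ⟨0, γ, hγ, h1, 1, Subalgebra.one_mem _, 0, Subalgebra.zero_mem _, ?_⟩
      simp
    · subst h1
      refine ⟨1, ?_⟩
      rw [hχ0, map_one, sub_self]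
      exact InM.zero hne

end Pool.Agent.LU1
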