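import Pool.Agent.Lib.LU1_h15.Basic

/-! # B0b: evaluation of polynomials -/

set_option autoImplicit false

open Polynomial

namespace Pool.Agent.LU1

open Pool.Agent.H15JM (RVal)

universe u

variable {k Ω : Type u} [Field k] [Field Ω] [Algebra k Ω] {v : RVal Ω} {r : ℕ}

/-! ### evaluation of polynomials -/

theorem cf_add (a b : Lau k) (γ : ℝ) : cf (a + b) γ = cf a γ + cf b γ := by
  simp [cf]

theorem evL_add (χ : ℝ → Ω) (a b : Lau k) : evL χ (a + b) = evL χ a + evL χ b := by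
  unfold evL
  rw [AddMonoidAlgebra.coeff_add]
  exact Finsupp.sum_add_index' (fun γ => by rw [map_zero, zero_mul])
    fun γ c d => by rw [map_add, add_mul]

theorem evL_mon (χ : ℝ → Ω) (γ : ℝ) (c : k) : evL χ (mon γ c) = algebraMap k Ω c * χ γ := by
  unfold evL mon
  rw [AddMonoidAlgebra.coeff_single]
  exact Finsupp.sum_single_index (by rw [map_zero, zero_mul])

namespace EvalAux

/-- `evL` as an additive homomorphism. -/
noncomputable def evLH (χ : ℝ → Ω) : Lau k →+ Ω where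
  toFun := evL χ
  map_zero' := by simp [evL]
  map_add' := evL_add χ

theorem evLH_apply (χ : ℝ → Ω) (a : Lau k) : evLH χ a = evL χ a := rfl

theorem evL_zero (χ : ℝ → Ω) : evL χ (0 : Lau k) = 0 := (evLH (k := k) χ).map_zero

/-- `ev` as an additive homomorphism. -/
noncomputable def evH (χ : ℝ → Ω) (y : Ω) : (Lau k)[X] →+ Ω where
  toFun := LU1.ev χ y
  map_zero' := by simp [LU1.ev]
  map_add' := fun P Q => by
    unfold LU1.ev
    exact Polynomial.sum_add_index P Q _ (fun l => by rw [evL_zero, zero_mul])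
      fun l a b => by rw [evL_add, add_mul]

theorem evH_apply (χ : ℝ → Ω) (y : Ω) (P : (Lau k)[X]) : evH χ y P = LU1.ev χ y P := rfl

theorem ev_C_mul (χ : ℝ → Ω) (y : Ω) (a : Lau k) (l : ℕ) :
    LU1.ev χ y (C a * X ^ l) = evL χ a * y ^ l := by
  unfold LU1.ev
  rw [Polynomial.C_mul_X_pow_eq_monomial]
  exact Polynomial.sum_monomial_index a (fun l a => evL χ a * y ^ l)
    (by simp only [evL_zero, zero_mul])

theorem eq_sum (a : Lau k) : a = ∑ γ ∈ a.coeff.support, mon γ (cf a γ) := by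
  conv_lhs => rw [← AddMonoidAlgebra.sum_coeff_single a]
  rfl

theorem mon_mul_mon (γ δ : ℝ) (c d : k) : mon γ c * mon δ d = mon (γ + δ) (c * d) := by
  unfold mon
  rw [AddMonoidAlgebra.single_mul_single]

end EvalAux

open EvalAux

/-- `evL` is multiplicative on Laurent polynomials with exponents in `Γ`. -/
theorem BF.evL_mul (B : BF k v) {a b : Lau k} (ha : ∀ γ, cf a γ ≠ 0 → γ ∈ B.Γ)
    (hb : ∀ γ, cf b γ ≠ 0 → γ ∈ B.Γ) : evL B.χ (a * b) = evL B.χ a * evL B.χ b := by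
  conv_lhs => rw [eq_sum a, eq_sum b, Finset.sum_mul_sum]
  conv_rhs => rw [eq_sum a, eq_sum b]
  rw [← evLH_apply, ← evLH_apply, ← evLH_apply, map_sum, map_sum, map_sum, Finset.sum_mul_sum]
  refine Finset.sum_congr rfl fun γ hγ => ?_
  rw [map_sum]
  refine Finset.sum_congr rfl fun δ hδ => ?_
  rw [evLH_apply, evLH_apply, evLH_apply, mon_mul_mon, evL_mon, evL_mon, evL_mon,
    B.χ_add γ (ha γ (Finsupp.mem_support_iff.1 hγ)) δ (hb δ (Finsupp.mem_support_iff.1 hδ)),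
    map_mul]
  ring

theorem BF.ev_add (B : BF k v) (P Q : (Lau k)[X]) : B.ev (P + Q) = B.ev P + B.ev Q :=
  (evH B.χ B.y).map_add P Q

theorem BF.ev_sub (B : BF k v) (P Q : (Lau k)[X]) : B.ev (P - Q) = B.ev P - B.ev Q :=
  (evH B.χ B.y).map_sub P Q

theorem BF.ev_sum (B : BF k v) {ι : Type} (s : Finset ι) (P : ι → (Lau k)[X]) :
    B.ev (∑ i ∈ s, P i) = ∑ i ∈ s, B.ev (P i) :=
  map_sum (evH B.χ B.y) P s

theorem BF.ev_monomial (B : BF k v) (γ : ℝ) (c : k) (l : ℕ) :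
    B.ev (C (mon γ c) * X ^ l) = algebraMap k Ω c * B.χ γ * B.y ^ l := by
  rw [BF.ev, ev_C_mul, evL_mon]

theorem SuppIn.add {Γ : AddSubgroup ℝ} {P Q : (Lau k)[X]} (hP : SuppIn Γ P) (hQ : SuppIn Γ Q) :
    SuppIn Γ (P + Q) := by
  intro γ l h
  rw [co, Polynomial.coeff_add, cf_add] at h
  by_cases h1 : co P γ l = 0
  · by_cases h2 : co Q γ l = 0
    · rw [co] at h1 h2
      rw [h1, h2, add_zero] at h
      exact absurd rfl h
    · exact hQ γ l h2
  · exact hP γ l h1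

theorem SuppIn.mul {Γ : AddSubgroup ℝ} {P Q : (Lau k)[X]} (hP : SuppIn Γ P) (hQ : SuppIn Γ Q) :
    SuppIn Γ (P * Q) := by
  classical
  intro γ l h
  rw [co, Polynomial.coeff_mul, cf, AddMonoidAlgebra.coeff_sum, Finsupp.finsetSum_apply] at h
  obtain ⟨⟨i, j⟩, -, hij⟩ := Finset.exists_ne_zero_of_sum_ne_zero h
  have h1 := AddMonoidAlgebra.support_coeff_mul_subset _ _ (Finsupp.mem_support_iff.2 hij)
  obtain ⟨δ, hδ, ε, hε, rfl⟩ := Finset.mem_add.1 h1
  exact Γ.add_mem (hP δ i (Finsupp.mem_support_iff.1 hδ)) (hQ ε j (Finsupp.mem_support_iff.1 hε))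

theorem BF.ev_mul (B : BF k v) {P Q : (Lau k)[X]} (hP : SuppIn B.Γ P) (hQ : SuppIn B.Γ Q) :
    B.ev (P * Q) = B.ev P * B.ev Q := by
  have h1 : ∀ R : (Lau k)[X], R = ∑ l ∈ R.support, C (R.coeff l) * X ^ l := fun R =>
    R.as_sum_support_C_mul_X_pow
  conv_lhs => rw [h1 P, h1 Q, Finset.sum_mul_sum]
  conv_rhs => rw [h1 P, h1 Q]
  rw [BF.ev, BF.ev, BF.ev, ← evH_apply, ← evH_apply, ← evH_apply, map_sum, map_sum, map_sum,
    Finset.sum_mul_sum]
  refine Finset.sum_congr rfl fun i _ => ?_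
  rw [map_sum]
  refine Finset.sum_congr rfl fun j _ => ?_
  have h2 : C (P.coeff i) * X ^ i * (C (Q.coeff j) * X ^ j) =
      C (P.coeff i * Q.coeff j) * X ^ (i + j) := by
    rw [C_mul, pow_add]; ring
  rw [h2, evH_apply, evH_apply, evH_apply, ev_C_mul, ev_C_mul, ev_C_mul,
    B.evL_mul (fun γ hγ => hP γ i hγ) (fun γ hγ => hQ γ j hγ), pow_add]
  ring

/-- `P(y)` as a sum over monomials. -/
theorem BF.ev_eq (B : BF k v) (P : (Lau k)[X]) :
    B.ev P = ∑ l ∈ P.support, ∑ γ ∈ (P.coeff l).coeff.support,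
      algebraMap k Ω (co P γ l) * B.χ γ * B.y ^ l := by
  unfold BF.ev LU1.ev
  rw [Polynomial.sum_def]
  refine Finset.sum_congr rfl fun l _ => ?_
  unfold evL
  rw [Finsupp.sum, Finset.sum_mul]
  rfl

/-- All levels `≥ κ ≥ 0`: `P(y) ∈ χ(κ) R`. -/
theorem BF.ev_mem (B : BF k v) {P : (Lau k)[X]} (hP : SuppIn B.Γ P) {κ : ℝ} (hκ : κ ∈ B.Γ)
    (h : ∀ γ l, co P γ l ≠ 0 → κ ≤ γ) : ∃ a ∈ B.R, B.ev P = B.χ κ * a := by
  refine ⟨∑ l ∈ P.support, ∑ γ ∈ (P.coeff l).coeff.support,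
    algebraMap k Ω (co P γ l) * B.χ (γ - κ) * B.y ^ l, ?_, ?_⟩
  · refine B.R.sum_mem fun l _ => B.R.sum_mem fun γ hγ => ?_
    have h0 : co P γ l ≠ 0 := Finsupp.mem_support_iff.1 hγ
    exact B.R.mul_mem (B.R.mul_mem (B.R.algebraMap_mem _)
      (B.χ_mem _ (B.Γ.sub_mem (hP γ l h0) hκ) (sub_nonneg.2 (h γ l h0)))) (B.R.pow_mem B.y_mem l)
  · rw [B.ev_eq, Finset.mul_sum]
    refine Finset.sum_congr rfl fun l _ => ?_
    rw [Finset.mul_sum]
    refine Finset.sum_congr rfl fun γ hγ => ?_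
    have h0 : co P γ l ≠ 0 := Finsupp.mem_support_iff.1 hγ
    have h1 : B.χ γ = B.χ κ * B.χ (γ - κ) := by
      rw [← B.χ_add κ hκ _ (B.Γ.sub_mem (hP γ l h0) hκ)]
      congr 1; ring
    rw [h1]; ring

namespace EvalAux

theorem suppIn_C {Γ : AddSubgroup ℝ} {γ : ℝ} (h : γ ∈ Γ) (e : k) :
    SuppIn Γ (C (mon γ e) : (Lau k)[X]) := by
  intro δ l hδ
  by_cases hl : l = 0
  · subst hl
    rw [co, Polynomial.coeff_C_zero, cf, mon, AddMonoidAlgebra.coeff_single] at hδ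
    by_cases h1 : γ = δ
    · rw [← h1]; exact h
    · rw [Finsupp.single_apply, if_neg h1] at hδ
      exact absurd rfl hδ
  · rw [co, Polynomial.coeff_C_of_ne_zero hl] at hδ
    exact absurd (by simp [cf]) hδ

theorem suppIn_one {Γ : AddSubgroup ℝ} : SuppIn Γ (1 : (Lau k)[X]) := by
  have h : (1 : (Lau k)[X]) = C (mon 0 1) := by
    rw [mon, ← AddMonoidAlgebra.one_def, C_1]
  rw [h]
  exact suppIn_C Γ.zero_mem 1

theorem suppIn_X {Γ : AddSubgroup ℝ} : SuppIn Γ (X : (Lau k)[X]) := by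
  intro δ l hδ
  rw [co, Polynomial.coeff_X] at hδ
  by_cases hl : 1 = l
  · rw [if_pos hl] at hδ
    rw [cf, AddMonoidAlgebra.one_def, AddMonoidAlgebra.coeff_single, Finsupp.single_apply] at hδ
    by_cases h1 : (0 : ℝ) = δ
    · rw [← h1]; exact Γ.zero_mem
    · rw [if_neg h1] at hδ; exact absurd rfl hδ
  · rw [if_neg hl] at hδ
    exact absurd (by simp [cf]) hδ

theorem suppIn_pow {Γ : AddSubgroup ℝ} {P : (Lau k)[X]} (hP : SuppIn Γ P) (n : ℕ) :
    SuppIn Γ (P ^ n) := by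
  induction n with
  | zero => rw [pow_zero]; exact suppIn_one
  | succ n ih => rw [pow_succ]; exact ih.mul hP

theorem ev_C (B : BF k v) (γ : ℝ) (e : k) : B.ev (C (mon γ e)) = algebraMap k Ω e * B.χ γ := by
  have h := B.ev_monomial γ e 0
  rwa [pow_zero, mul_one, pow_zero, mul_one] at h

theorem ev_one (B : BF k v) : B.ev (1 : (Lau k)[X]) = 1 := by
  have h : (1 : (Lau k)[X]) = C (mon 0 1) := by
    rw [mon, ← AddMonoidAlgebra.one_def, C_1]
  rw [h, ev_C, map_one, B.χ_zero, one_mul]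

theorem ev_X (B : BF k v) : B.ev (X : (Lau k)[X]) = B.y := by
  have h := B.ev_monomial 0 1 1
  have h1 : (C (mon 0 (1 : k)) : (Lau k)[X]) = 1 := by
    rw [mon, ← AddMonoidAlgebra.one_def, C_1]
  rwa [h1, one_mul, pow_one, map_one, one_mul, B.χ_zero, one_mul, pow_one] at h

theorem ev_pow (B : BF k v) {P : (Lau k)[X]} (hP : SuppIn B.Γ P) (n : ℕ) :
    B.ev (P ^ n) = B.ev P ^ n := by
  induction n with
  | zero => rw [pow_zero, pow_zero, ev_one]
  | succ n ih => rw [pow_succ, pow_succ, B.ev_mul (suppIn_pow hP n) hP, ih]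

end EvalAux

/-- The transform of a polynomial. -/
theorem IsTStep.ev_tpoly {B B' : BF k v} {q : ℕ} {c : k} {s : ℝ → ℤ → ℤ}
    (h : IsTStep B B' q c s) {P : (Lau k)[X]} (hP : SuppIn B.Γ P)
    (hs : ∀ γ l, co P γ l ≠ 0 → 0 ≤ s γ l) : B'.ev (tpoly (v B.y) c s P) = B.ev P := by
  rw [B.ev_eq, tpoly, Polynomial.sum_def, BF.ev, ← evH_apply, map_sum]
  refine Finset.sum_congr rfl fun l _ => ?_
  rw [Finsupp.sum, map_sum]
  refine Finset.sum_congr rfl fun γ hγ => ?_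
  have h0 : co P γ l ≠ 0 := Finsupp.mem_support_iff.1 hγ
  have hγΓ := hP γ l h0
  have hmem : γ + l * v B.y ∈ B'.Γ := by
    refine B'.Γ.add_mem (h.Γ_le hγΓ) ?_
    rw [← nsmul_eq_mul]
    exact B'.Γ.nsmul_mem h.β_mem l
  have hS : SuppIn B'.Γ (C (mon 0 c) + X : (Lau k)[X]) :=
    (suppIn_C B'.Γ.zero_mem c).add suppIn_X
  have hw : B'.ev (C (mon 0 c) + X) = B.w q := by
    rw [B'.ev_add, ev_C, ev_X, B'.χ_zero, mul_one, h.y_eq]
    ring
  have h1 := h.χ_mul hγΓ l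
  rw [zpow_natCast, Int.cast_natCast] at h1
  have h2 : B.w q ^ (s γ l).toNat = B.w q ^ (s γ l) := by
    rw [← zpow_natCast, Int.toNat_of_nonneg (hs γ l h0)]
  rw [evH_apply]
  change B'.ev _ = _
  rw [B'.ev_mul (suppIn_C hmem _) (suppIn_pow hS _), ev_pow B' hS, hw, ev_C, h2, mul_assoc,
    mul_assoc, h1]
  rfl

end Pool.Agent.LU1
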