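import Pool.Agent.Lib.LU1_h15.GalTheta
import Pool.Agent.Lib.LU1_h15.Etale
import Pool.Agent.Lib.LU1_h15.EtDesc

/-! # G1: decomposition field -/

set_option autoImplicit false

open Polynomial

namespace Pool.Agent.LU1

open Pool.Agent.H15JM (RVal)

universe u

variable {k Ω : Type u} [Field k] [Field Ω] [Algebra k Ω] {v : RVal Ω} {r : ℕ}

namespace GalDec

/-- The coefficients of a product of `X - τ`, `τ` in the valuation ring. -/
theorem ge_coeff_prod (s : Multiset Ω) (hs : ∀ τ ∈ s, v.Ge 0 τ) (i : ℕ) :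
    v.Ge 0 ((s.map fun τ => X - C τ).prod.coeff i) := by
  induction s using Multiset.induction_on generalizing i with
  | empty =>
    rw [Multiset.map_zero, Multiset.prod_zero, coeff_one]
    split_ifs
    · intro _
      rw [v.map_one]
    · exact RVal.Ge.zero
  | cons τ s ih =>
    rw [Multiset.map_cons, Multiset.prod_cons, sub_mul, coeff_sub, coeff_C_mul]
    have hs' : ∀ σ ∈ s, v.Ge 0 σ := fun σ hσ => hs σ (Multiset.mem_cons_of_mem hσ)
    have h1 : v.Ge 0 (τ * (s.map fun τ => X - C τ).prod.coeff i) := by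
      have := (hs τ (Multiset.mem_cons_self τ s)).mul (ih hs' i)
      rwa [add_zero] at this
    cases i with
    | zero =>
      rw [mul_coeff_zero, coeff_X_zero, zero_mul]
      exact RVal.Ge.zero.sub h1
    | succ i =>
      rw [coeff_X_mul]
      exact (ih hs' i).sub h1

theorem ge_prod_multiset (s : Multiset Ω) (hs : ∀ τ ∈ s, τ ≠ 0 ∧ v τ = 0) :
    s.prod ≠ 0 ∧ v s.prod = 0 := by
  induction s using Multiset.induction_on with
  | empty =>
    rw [Multiset.prod_zero]
    exact ⟨one_ne_zero, v.map_one⟩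
  | cons τ s ih =>
    rw [Multiset.prod_cons]
    have h1 := hs τ (Multiset.mem_cons_self τ s)
    have h2 := ih fun σ hσ => hs σ (Multiset.mem_cons_of_mem hσ)
    exact ⟨mul_ne_zero h1.1 h2.1, by rw [v.map_mul h1.1 h2.1, h1.2, h2.2, add_zero]⟩

/-- The element `θ` generates the fixed field of the stabiliser. -/
theorem adj_fixO (F : IntermediateField k Ω) (N : IntermediateField F Ω)
    [FiniteDimensional F N] [IsGalois F N] (H H' : Subgroup (N ≃ₐ[F] N)) (hH : H' ≤ H) (θ : N)
    (hfix : ∀ σ ∈ H', σ θ = θ) (hmov : ∀ σ ∈ H, σ ∉ H' → σ θ ≠ θ) :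
    adj (fixO F N H) (θ : Ω) = fixO F N H' := by
  apply le_antisymm
  · refine sup_le ?_ ?_
    · intro g hg
      rw [mem_fixO] at hg ⊢
      obtain ⟨n, hn, h⟩ := hg
      exact ⟨n, hn, fun σ hσ => h σ (hH hσ)⟩
    · rw [IntermediateField.adjoin_le_iff, Set.singleton_subset_iff]
      exact (mem_fixO F N H' _).2 ⟨θ, rfl, hfix⟩
  · intro g hg
    obtain ⟨n, rfl, hn⟩ := (mem_fixO F N H' g).1 hg
    have hle : F ≤ adj (fixO F N H) (θ : Ω) := by
      intro f hf
      have h1 : f ∈ fixO F N H :=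
        (mem_fixO F N H f).2 ⟨algebraMap F N ⟨f, hf⟩, rfl, fun σ _ => σ.commutes _⟩
      exact (le_sup_left : fixO F N H ≤ _) h1
    set T : IntermediateField F Ω := IntermediateField.extendScalars hle with hT
    have h2 : IntermediateField.fixedField H ⊔ IntermediateField.adjoin F {θ} ≤
        T.comap N.val := by
      refine sup_le ?_ ?_
      · intro m hm
        have h3 : (m : Ω) ∈ fixO F N H := (mem_fixO F N H _).2 ⟨m, rfl, fun σ hσ => hm ⟨σ, hσ⟩⟩
        exact (le_sup_left : fixO F N H ≤ _) h3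
      · rw [IntermediateField.adjoin_le_iff, Set.singleton_subset_iff]
        exact (le_sup_right : _ ≤ adj (fixO F N H) (θ : Ω))
          (IntermediateField.mem_adjoin_simple_self k (θ : Ω))
    set L := IntermediateField.fixedField H ⊔ IntermediateField.adjoin F {θ} with hL
    have h4 : L.fixingSubgroup ≤ H' := by
      intro σ hσ
      have h5 : σ ∈ H := by
        have : σ ∈ (IntermediateField.fixedField H).fixingSubgroup := by
          rw [IntermediateField.mem_fixingSubgroup_iff] at hσ ⊢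
          intro x hx
          exact hσ x ((le_sup_left : _ ≤ L) hx)
        rwa [IntermediateField.fixingSubgroup_fixedField] at this
      by_contra h6
      refine hmov σ h5 h6 ?_
      rw [IntermediateField.mem_fixingSubgroup_iff] at hσ
      exact hσ θ ((le_sup_right : _ ≤ L) (IntermediateField.mem_adjoin_simple_self F θ))
    have h7 : n ∈ L := by
      rw [← IsGalois.fixedField_fixingSubgroup L]
      intro σ
      exact hn σ.1 (h4 σ.2)
    exact h2 h7

/-- The minimal polynomial of `θ` over the fixed field. -/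
theorem minpoly_prop (h : Ctx k v r) (F : IntermediateField k Ω) (N : IntermediateField F Ω)
    [FiniteDimensional F N] [IsGalois F N] (H : Subgroup (N ≃ₐ[F] N)) (θ : N)
    (hfix : ∀ σ ∈ decG v F N ⊓ H, σ θ = θ) (h1 : VPos v ((θ : Ω) - 1))
    (hmov : ∀ σ ∈ H, σ ∉ decG v F N → VPos v ((σ θ : N) : Ω)) :
    IsIntegral (fixO F N H) (θ : Ω) ∧
    (∀ i, v.Ge 0 (((minpoly (fixO F N H) (θ : Ω)).map (algebraMap (fixO F N H) Ω)).coeff i)) ∧
    ((minpoly (fixO F N H) (θ : Ω)).map (algebraMap (fixO F N H) Ω)).derivative.eval (θ : Ω) ≠ 0 ∧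
    v (((minpoly (fixO F N H) (θ : Ω)).map
      (algebraMap (fixO F N H) Ω)).derivative.eval (θ : Ω)) = 0 := by
  classical
  have _ft : Fintype (N ≃ₐ[F] N) := Fintype.ofFinite _
  have hθ0 : (θ : Ω) ≠ 0 ∧ v (θ : Ω) = 0 := by
    have := val_add_vpos (v := v) one_ne_zero v.map_one h1
    rwa [add_sub_cancel] at this
  -- the conjugates
  set O : Finset N := (Finset.univ.filter fun σ : N ≃ₐ[F] N => σ ∈ H).image fun σ => σ θ with hO
  have hmemO : ∀ τ : N, τ ∈ O ↔ ∃ σ ∈ H, σ θ = τ := by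
    intro τ
    rw [hO, Finset.mem_image]
    simp only [Finset.mem_filter, Finset.mem_univ, true_and]
  set P : N[X] := ∏ τ ∈ O, (X - C τ) with hP
  have hPσ : ∀ σ ∈ H, P.map (σ : N →+* N) = P := by
    intro σ hσ
    rw [hP, Polynomial.map_prod]
    refine Finset.prod_bij (fun τ _ => σ τ) ?_ ?_ ?_ ?_
    · intro τ hτ
      obtain ⟨ρ, hρ, rfl⟩ := (hmemO τ).1 hτ
      exact (hmemO _).2 ⟨σ * ρ, H.mul_mem hσ hρ, rfl⟩
    · intro a _ b _ hab
      exact σ.injective hab
    · intro τ hτ
      obtain ⟨ρ, hρ, rfl⟩ := (hmemO τ).1 hτ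
      refine ⟨(σ⁻¹ * ρ) θ, (hmemO _).2 ⟨σ⁻¹ * ρ, H.mul_mem (H.inv_mem hσ) hρ, rfl⟩, ?_⟩
      change (σ * (σ⁻¹ * ρ)) θ = ρ θ
      rw [mul_inv_cancel_left]
    · intro τ _
      rw [Polynomial.map_sub, Polynomial.map_X, Polynomial.map_C]
      rfl
  set P' : Polynomial Ω := P.map (algebraMap N Ω) with hP'
  have hlift : P' ∈ Polynomial.lifts (algebraMap (fixO F N H) Ω) := by
    rw [Polynomial.lifts_iff_coeff_lifts]
    intro i
    have h2 : P'.coeff i ∈ fixO F N H := by
      refine (mem_fixO F N H _).2 ⟨P.coeff i, ?_, fun σ hσ => ?_⟩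
      · rw [hP', Polynomial.coeff_map]
        rfl
      · have h3 := congrArg (fun Q : N[X] => Q.coeff i) (hPσ σ hσ)
        simp only [Polynomial.coeff_map] at h3
        exact h3
    exact ⟨⟨_, h2⟩, rfl⟩
  have hP'e : P' = ∏ τ ∈ O, (X - C (τ : Ω)) := by
    rw [hP', hP, Polynomial.map_prod]
    refine Finset.prod_congr rfl fun τ _ => ?_
    rw [Polynomial.map_sub, Polynomial.map_X, Polynomial.map_C]
    rfl
  have hmonic : P'.Monic := by
    rw [hP'e]
    exact Polynomial.monic_prod_of_monic _ _ fun τ _ => Polynomial.monic_X_sub_C _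
  obtain ⟨Q, hQ, -, hQm⟩ := Polynomial.lifts_and_degree_eq_and_monic hlift hmonic
  have hθO : θ ∈ O := (hmemO θ).2 ⟨1, H.one_mem, rfl⟩
  have hroot : P'.eval (θ : Ω) = 0 := by
    rw [hP'e, Polynomial.eval_prod]
    refine Finset.prod_eq_zero hθO ?_
    rw [eval_sub, eval_X, eval_C, sub_self]
  have hint : IsIntegral (fixO F N H) (θ : Ω) := by
    refine ⟨Q, hQm, ?_⟩
    rw [← Polynomial.eval_map, hQ]
    exact hroot
  set m : Polynomial Ω := (minpoly (fixO F N H) (θ : Ω)).map (algebraMap (fixO F N H) Ω) with hm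
  have hdvd : m ∣ P' := by
    rw [hm, ← hQ]
    refine Polynomial.map_dvd _ (minpoly.dvd _ _ ?_)
    rw [Polynomial.aeval_def, ← Polynomial.eval_map, hQ]
    exact hroot
  have hmm : m.Monic := (minpoly.monic hint).map _
  have hsplit : P'.Splits := by
    rw [hP'e]
    exact Polynomial.Splits.prod fun τ _ => Polynomial.Splits.X_sub_C _
  have hms : m.Splits := hsplit.of_dvd hmonic.ne_zero hdvd
  have hroots : m.roots ≤ P'.roots := Polynomial.roots.le_of_dvd hmonic.ne_zero hdvd
  have hP'r : P'.roots = O.val.map (fun τ : N => (τ : Ω)) := by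
    rw [hP'e]
    have : (∏ τ ∈ O, (X - C (τ : Ω))) = ((O.val.map (fun τ : N => (τ : Ω))).map
        fun a => X - C a).prod := by
      rw [Multiset.map_map]
      rfl
    rw [this, Polynomial.roots_multiset_prod_X_sub_C]
  have hnodup : m.roots.Nodup := by
    refine Multiset.nodup_of_le hroots ?_
    rw [hP'r]
    exact Multiset.Nodup.map Subtype.val_injective O.nodup
  have hmem : ∀ τ ∈ m.roots, τ = (θ : Ω) ∨ VPos v τ := by
    intro τ hτ
    have h2 := Multiset.mem_of_le hroots hτ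
    rw [hP'r, Multiset.mem_map] at h2
    obtain ⟨τ', hτ', rfl⟩ := h2
    obtain ⟨σ, hσ, rfl⟩ := (hmemO τ').1 hτ'
    by_cases h3 : σ ∈ decG v F N
    · left
      rw [hfix σ ⟨h3, hσ⟩]
    · right
      exact hmov σ hσ h3
  have hge : ∀ τ ∈ m.roots, v.Ge 0 τ := by
    intro τ hτ
    rcases hmem τ hτ with h2 | h2
    · rw [h2]
      intro _
      rw [hθ0.2]
    · exact h2.ge
  have hprod : m = (m.roots.map fun a => X - C a).prod := hms.eq_prod_roots_of_monic hmm
  have hθm : (θ : Ω) ∈ m.roots := by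
    rw [Polynomial.mem_roots hmm.ne_zero, Polynomial.IsRoot.def, hm, Polynomial.eval_map,
      ← Polynomial.aeval_def, minpoly.aeval]
  have hder : m.derivative.eval (θ : Ω) =
      ((m.roots.erase (θ : Ω)).map fun a => (θ : Ω) - a).prod := by
    have e : m = (X - C (θ : Ω)) * ((m.roots.erase (θ : Ω)).map fun a => X - C a).prod := by
      conv_lhs => rw [hprod, ← Multiset.cons_erase hθm, Multiset.map_cons, Multiset.prod_cons]
    conv_lhs => rw [e]
    rw [Polynomial.derivative_mul, Polynomial.derivative_sub, Polynomial.derivative_X,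
      Polynomial.derivative_C, sub_zero, one_mul, eval_add, eval_mul, eval_sub, eval_X, eval_C,
      sub_self, zero_mul, add_zero, Polynomial.eval_multiset_prod, Multiset.map_map]
    congr 1
    refine Multiset.map_congr rfl fun a _ => ?_
    simp only [Function.comp_apply, eval_sub, eval_X, eval_C]
  have hval := ge_prod_multiset (v := v) ((m.roots.erase (θ : Ω)).map fun a => (θ : Ω) - a) (by
    intro b hb
    rw [Multiset.mem_map] at hb
    obtain ⟨a, ha, rfl⟩ := hb
    have h2 : a ≠ (θ : Ω) := by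
      rintro rfl
      exact hnodup.notMem_erase ha
    have h3 := (hmem a (Multiset.mem_of_mem_erase ha)).resolve_left h2
    have h4 := val_add_vpos (v := v) one_ne_zero v.map_one (h1.sub h3)
    have h5 : (1 : Ω) + ((θ : Ω) - 1 - a) = (θ : Ω) - a := by ring
    rwa [h5] at h4)
  refine ⟨hint, fun i => ?_, ?_, ?_⟩
  · rw [hprod]
    exact ge_coeff_prod _ hge i
  · rw [hder]
    exact hval.1
  · rw [hder]
    exact hval.2

theorem mov (F : IntermediateField k Ω) (N : IntermediateField F Ω)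
    (H : Subgroup (N ≃ₐ[F] N)) (θ : N) (h1 : VPos v ((θ : Ω) - 1))
    (hmov : ∀ σ ∈ H, σ ∉ decG v F N → VPos v ((σ θ : N) : Ω)) :
    ∀ σ ∈ H, σ ∉ decG v F N ⊓ H → σ θ ≠ θ := by
  intro σ hσ h2 h3
  have hθ0 : (θ : Ω) ≠ 0 ∧ v (θ : Ω) = 0 := by
    have := val_add_vpos (v := v) one_ne_zero v.map_one h1
    rwa [add_sub_cancel] at this
  have h4 := hmov σ hσ fun h5 => h2 ⟨h5, hσ⟩
  rw [h3] at h4
  have := h4 hθ0.1
  rw [hθ0.2] at this
  exact lt_irrefl _ this

end GalDec

open GalDec

/-- EA for the decomposition field (`H = ⊤`). -/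
theorem good_dec (p : ℕ) (hp : p.Prime) [CharP k p] [IsAlgClosed k] (h : Ctx k v r)
    (F : IntermediateField k Ω) (N : IntermediateField F Ω) [FiniteDimensional F N]
    [IsGalois F N] (hF : Good v (fixO F N ⊤)) : Good v (fixO F N (decG v F N)) := by
  obtain ⟨θ, hfix, h1, hmov⟩ := exists_theta h F N ⊤
  obtain ⟨hint, h2, h3, h4⟩ := minpoly_prop h F N ⊤ θ hfix h1 hmov
  have h5 := adj_fixO F N ⊤ (decG v F N ⊓ ⊤) inf_le_right θ hfix (mov F N ⊤ θ h1 hmov)
  rw [inf_top_eq] at h5
  rw [← h5]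
  refine Good.etale p hp h (fixO F N ⊤) hF (θ : Ω)
    ((minpoly (fixO F N ⊤) (θ : Ω)).map (algebraMap (fixO F N ⊤) Ω))
    ((minpoly.monic hint).map _) (fun i => ⟨?_, h2 i⟩) ?_ h3 h4
  · rw [Polynomial.coeff_map]
    exact ((minpoly (fixO F N ⊤) (θ : Ω)).coeff i).2
  · rw [Polynomial.eval_map, ← Polynomial.aeval_def, minpoly.aeval]

/-- ED for the decomposition field. -/
theorem good_dec_desc (p : ℕ) (hp : p.Prime) [CharP k p] [IsAlgClosed k] (h : Ctx k v r)
    (F : IntermediateField k Ω) (N : IntermediateField F Ω) [FiniteDimensional F N]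
    [IsGalois F N] (halg : ∀ g : Ω, IsAlgebraic F g) (H : Subgroup (N ≃ₐ[F] N))
    (hF : Good v (fixO F N (decG v F N ⊓ H))) : Good v (fixO F N H) := by
  obtain ⟨θ, hfix, h1, hmov⟩ := exists_theta h F N H
  obtain ⟨hint, h2, h3, h4⟩ := minpoly_prop h F N H θ hfix h1 hmov
  have h5 := adj_fixO F N H (decG v F N ⊓ H) inf_le_right θ hfix (mov F N H θ h1 hmov)
  have hle : F ≤ fixO F N H := by
    intro f hf
    exact (mem_fixO F N H f).2 ⟨algebraMap F N ⟨f, hf⟩, rfl, fun σ _ => σ.commutes _⟩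
  refine Good.etale_desc p hp h (fixO F N H) (fun g => ?_) (θ : Ω) (fun i => ?_) ?_ ?_ ?_
  · obtain ⟨Q, hQ0, hQ⟩ := halg g
    refine ⟨Q.map (IntermediateField.inclusion hle : F →+* fixO F N H), ?_, ?_⟩
    · rwa [Ne, Polynomial.map_eq_zero]
    · rw [Polynomial.aeval_def, Polynomial.eval₂_map]
      rw [Polynomial.aeval_def] at hQ
      exact hQ
  · have := h2 i
    rw [Polynomial.coeff_map] at this
    exact this
  · rw [Polynomial.aeval_def, ← Polynomial.eval_map, ← Polynomial.derivative_map]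
    exact h3
  · rw [Polynomial.aeval_def, ← Polynomial.eval_map, ← Polynomial.derivative_map]
    exact h4
  · rw [h5]
    exact hF

end Pool.Agent.LU1
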