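import Pool.Agent.Lib.LU1_h15.TameDefs

/-! # F5: T-steps and invariants of semi-invariant frames -/

set_option autoImplicit false

open Polynomial

namespace Pool.Agent.LU1

open Pool.Agent.H15JM (RVal)

universe u

variable {k Ω : Type u} [Field k] [Field Ω] [Algebra k Ω] {v : RVal Ω} {r : ℕ}

variable {L : IntermediateField k Ω} {σ : Ω →ₐ[k] Ω} {ℓ : ℕ}

/-- An eigenvector whose residue is a nonzero constant is invariant. -/
theorem SigData.fixed_of_res (h : Ctx k v r) (hσ : SigData v L σ ℓ) {w : Ω} (hw : w ∈ L)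
    (hw0 : w ≠ 0) (hv : v w = 0) {ζ : k} (hζ : σ w = algebraMap k Ω ζ * w) {c : k}
    (hc : VPos v (w - algebraMap k Ω c)) : ζ = 1 := by
  have h1 : VPos v (σ w - algebraMap k Ω c) := by
    have h2 : σ w - algebraMap k Ω c = σ (w - algebraMap k Ω c) := by
      rw [map_sub, AlgHom.commutes]
    rw [h2]
    intro h0
    have h3 : w - algebraMap k Ω c ≠ 0 := by
      intro h4
      rw [h4, map_zero] at h0
      exact h0 rfl
    rw [hσ.val _ (L.sub_mem hw (L.algebraMap_mem c)) h3]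
    exact hc h3
  have h2 : VPos v (algebraMap k Ω (ζ - 1) * w) := by
    have h3 : algebraMap k Ω (ζ - 1) * w =
        (σ w - algebraMap k Ω c) - (w - algebraMap k Ω c) := by
      rw [hζ, map_sub, map_one]; ring
    rw [h3]
    exact h1.sub hc
  have h4 : VPos v (algebraMap k Ω (ζ - 1)) := by
    intro h0
    have h5 := h2 (mul_ne_zero h0 hw0)
    rwa [v.map_mul h0 hw0, hv, add_zero] at h5
  exact sub_eq_zero.1 (h.const_eq_zero h4)

/-- A map of `k`-algebras maps `adjoin` of a set `S` to itself as soon as it maps `S` to it. -/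
theorem adjoin_stable {σ : Ω →ₐ[k] Ω} {S : Set Ω} {A : Subalgebra k Ω}
    (hS : ∀ f ∈ S, σ f ∈ A) : ∀ f ∈ Algebra.adjoin k S, σ f ∈ A := by
  intro f hf
  have h1 : Algebra.adjoin k S ≤ A.comap σ := Algebra.adjoin_le hS
  exact h1 hf

/-- F5a. -/
theorem Semi.tstep (h : Ctx k v r) (hσ : SigData v L σ ℓ) {B B' : BF k v}
    (hB : FracIs B.R L) (hS : Semi σ ℓ B) (hT : TStep B B') :
    Semi σ ℓ B' ∧ σ B'.y = B'.y := by
  have hB' : FracIs B'.R L := hT.ext.fracIs hB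
  obtain ⟨q, c, s, hT⟩ := hT
  obtain ⟨ζy, hζy, hσy⟩ := hS.y
  -- the element `w` is invariant
  have hwL : B.w q ∈ L := hB'.1 _ hT.un_w.1
  have hwσ : σ (B.w q) = B.w q := by
    obtain ⟨ζ1, hζ1, hσ1⟩ := hS.chi _ hT.q_mem
    have hζ10 : ζ1 ≠ 0 := by
      rintro rfl
      rw [zero_pow hσ.prime.ne_zero] at hζ1
      exact zero_ne_one hζ1
    have h1 : σ (B.w q) = algebraMap k Ω (ζy ^ q / ζ1) * B.w q := by
      rw [BF.w, map_div₀, map_pow, hσy, hσ1, mul_pow, map_div₀, map_pow, mul_div_mul_comm]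
    have h2 := hσ.fixed_of_res h hwL hT.w_ne hT.v_w h1 (c := c)
      (by rw [← hT.y_eq]; exact B'.vpos_y)
    rw [h1, h2, map_one, one_mul]
  have hyσ : σ B'.y = B'.y := by
    rw [hT.y_eq, map_sub, hwσ, AlgHom.commutes]
  -- the monomials
  have hζy0 : ζy ≠ 0 := by
    rintro rfl
    rw [zero_pow hσ.prime.ne_zero] at hζy
    exact zero_ne_one hζy
  have hchi : ∀ γ ∈ B'.Γ, ∃ ζ : k, ζ ^ ℓ = 1 ∧ σ (B'.χ γ) = algebraMap k Ω ζ * B'.χ γ := by
    intro γ' hγ'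
    obtain ⟨γ, hγ, l, rfl⟩ := hT.mem_Γ' hγ'
    obtain ⟨ζ1, hζ1, hσ1⟩ := hS.chi γ hγ
    refine ⟨ζ1 * ζy ^ l, ?_, ?_⟩
    · rw [mul_pow, hζ1, one_mul, ← zpow_natCast, ← zpow_mul, mul_comm l, zpow_mul,
        zpow_natCast, hζy, one_zpow]
    · rw [hT.χ_eq γ hγ l, map_mul, map_mul, map_zpow₀, map_zpow₀, hwσ, hσ1, hσy, mul_zpow,
        map_mul, map_zpow₀]
      ring
  refine ⟨⟨?_, hchi, ⟨1, one_pow _, by rw [hyσ, map_one, one_mul]⟩, ?_⟩, hyσ⟩
  · -- stability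
    intro g hg
    have hst : ∀ f ∈ Algebra.adjoin k
        ((B.R : Set Ω) ∪ B'.χ '' {γ | γ ∈ B'.Γ ∧ 0 ≤ γ} ∪ {B.w q}),
        σ f ∈ Algebra.adjoin k
          ((B.R : Set Ω) ∪ B'.χ '' {γ | γ ∈ B'.Γ ∧ 0 ≤ γ} ∪ {B.w q}) := by
      refine adjoin_stable ?_
      rintro f ((hf | ⟨γ', hγ', rfl⟩) | rfl)
      · exact Algebra.subset_adjoin (Or.inl (Or.inl (hS.stable f hf)))
      · obtain ⟨ζ, -, h2⟩ := hchi γ' hγ'.1
        rw [h2]
        exact mul_mem (Subalgebra.algebraMap_mem _ _)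
          (Algebra.subset_adjoin (Or.inl (Or.inr ⟨γ', hγ', rfl⟩)))
      · rw [hwσ]
        exact Algebra.subset_adjoin (Or.inr rfl)
    rw [hT.R_eq] at hg ⊢
    obtain ⟨a, ha, b, hb, hb0, hvb, rfl⟩ := hg
    have hbL : b ∈ L := hB'.1 _ (by rw [hT.R_eq]; exact le_locv _ hb)
    refine ⟨σ a, hst a ha, σ b, hst b hb, (map_ne_zero σ).2 hb0, ?_, map_div₀ σ a b⟩
    rw [hσ.val b hbL hb0, hvb]
  · -- generators
    classical
    obtain ⟨F, hF, hR⟩ := hS.gens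
    refine ⟨insert (B.w q) F, ?_, ?_⟩
    · intro f hf
      rcases Finset.mem_insert.1 hf with rfl | hf
      · exact ⟨1, one_pow _, by rw [hwσ, map_one, one_mul]⟩
      · exact hF f hf
    · set A := Algebra.adjoin k
        (((insert (B.w q) F : Finset Ω) : Set Ω) ∪ B'.χ '' {γ | γ ∈ B'.Γ ∧ 0 ≤ γ}) with hA
      have hwA : B.w q ∈ A := Algebra.subset_adjoin (Or.inl (by simp))
      have hχA : ∀ γ ∈ B'.Γ, 0 ≤ γ → B'.χ γ ∈ A := fun γ hγ h0 =>
        Algebra.subset_adjoin (Or.inr ⟨γ, ⟨hγ, h0⟩, rfl⟩)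
      have hwz : ∀ n : ℤ, (B.w q) ^ n ∈ locv v A := by
        intro n
        have h1 : B.w q ∈ locv v A := le_locv _ hwA
        have h2 : (B.w q)⁻¹ ∈ locv v A := locv_inv h1 hT.w_ne hT.v_w
        cases n with
        | ofNat n => simpa using pow_mem h1 n
        | negSucc n =>
          rw [zpow_negSucc, ← inv_pow]
          exact pow_mem h2 _
      have hBR : B.R ≤ locv v A := by
        rw [hR]
        refine locv_le (Algebra.adjoin_le ?_) (fun f hf h0 h1 => locv_inv hf h0 h1)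
        rintro f (hf | ⟨γ, ⟨hγ, h0⟩, rfl⟩)
        · exact le_locv _ (Algebra.subset_adjoin (Or.inl (by simp [hf])))
        · have h1 := hT.χ_mul hγ 0
          rw [zpow_zero, mul_one, Int.cast_zero, zero_mul, add_zero] at h1
          have h2 : B.χ γ ∈ locv v A := by
            rw [h1]
            exact mul_mem (le_locv _ (hχA γ (hT.Γ_le hγ) h0)) (hwz _)
          exact h2
      apply le_antisymm
      · rw [hT.R_eq]
        refine locv_le (Algebra.adjoin_le ?_) (fun f hf h0 h1 => locv_inv hf h0 h1)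
        rintro f ((hf | ⟨γ', hγ', rfl⟩) | rfl)
        · exact hBR hf
        · exact le_locv _ (hχA γ' hγ'.1 hγ'.2)
        · exact le_locv _ hwA
      · refine locv_le (Algebra.adjoin_le ?_) B'.loc
        rintro f (hf | ⟨γ', hγ', rfl⟩)
        · rcases Finset.mem_insert.1 (Finset.mem_coe.1 hf) with rfl | hf
          · exact hT.un_w.1
          · refine hT.R_le ?_
            rw [hR]
            exact le_locv _ (Algebra.subset_adjoin (Or.inl hf))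
        · exact B'.χ_mem γ' hγ'.1 hγ'.2

/-! ### iterates, norms and averages -/

theorem SigData.iter_mem (hσ : SigData v L σ ℓ) {g : Ω} (hg : g ∈ L) (i : ℕ) :
    (σ^[i]) g ∈ L := by
  induction i with
  | zero => exact hg
  | succ i ih => rw [Function.iterate_succ_apply']; exact hσ.map _ ih

theorem iter_map_mul (i : ℕ) (a b : Ω) : (σ^[i]) (a * b) = (σ^[i]) a * (σ^[i]) b := by
  induction i with
  | zero => rfl
  | succ i ih => rw [Function.iterate_succ_apply', ih, map_mul, Function.iterate_succ_apply',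
      Function.iterate_succ_apply']

theorem iter_map_add (i : ℕ) (a b : Ω) : (σ^[i]) (a + b) = (σ^[i]) a + (σ^[i]) b := by
  induction i with
  | zero => rfl
  | succ i ih => rw [Function.iterate_succ_apply', ih, map_add, Function.iterate_succ_apply',
      Function.iterate_succ_apply']

theorem iter_fixed {a : Ω} (ha : σ a = a) (i : ℕ) : (σ^[i]) a = a := by
  induction i with
  | zero => rfl
  | succ i ih => rw [Function.iterate_succ_apply', ih, ha]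

theorem iter_eig {a : Ω} {ζ : k} (ha : σ a = algebraMap k Ω ζ * a) (i : ℕ) :
    (σ^[i]) a = algebraMap k Ω (ζ ^ i) * a := by
  induction i with
  | zero => simp
  | succ i ih =>
    rw [Function.iterate_succ_apply', ih, map_mul, AlgHom.commutes, ha, pow_succ, map_mul]
    ring

theorem iter_ne {a : Ω} (ha : a ≠ 0) (i : ℕ) : (σ^[i]) a ≠ 0 := by
  induction i with
  | zero => exact ha
  | succ i ih => rw [Function.iterate_succ_apply']; exact (map_ne_zero σ).2 ih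

theorem SigData.val_iter (hσ : SigData v L σ ℓ) {g : Ω} (hg : g ∈ L) (h0 : g ≠ 0) (i : ℕ) :
    v ((σ^[i]) g) = v g := by
  induction i with
  | zero => rfl
  | succ i ih =>
    rw [Function.iterate_succ_apply', hσ.val _ (hσ.iter_mem hg i) (iter_ne h0 i), ih]

/-- The norm. -/
noncomputable def nrm (σ : Ω →ₐ[k] Ω) (ℓ : ℕ) (g : Ω) : Ω := ∏ i ∈ Finset.range ℓ, (σ^[i]) g

/-- The cofactor of `g` in the norm. -/
noncomputable def cof (σ : Ω →ₐ[k] Ω) (ℓ : ℕ) (g : Ω) : Ω :=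
  ∏ i ∈ Finset.range (ℓ - 1), (σ^[i + 1]) g

/-- The average. -/
noncomputable def avg (σ : Ω →ₐ[k] Ω) (ℓ : ℕ) (g : Ω) : Ω :=
  algebraMap k Ω (ℓ : k)⁻¹ * ∑ i ∈ Finset.range ℓ, (σ^[i]) g

theorem SigData.nrm_eq (hσ : SigData v L σ ℓ) (g : Ω) : nrm σ ℓ g = g * cof σ ℓ g := by
  have h1 : ℓ - 1 + 1 = ℓ := Nat.sub_add_cancel hσ.prime.one_le
  rw [nrm, cof, ← h1, Finset.prod_range_succ', mul_comm, Nat.add_sub_cancel]
  rfl

theorem SigData.nrm_fixed (hσ : SigData v L σ ℓ) {g : Ω} (hg : g ∈ L) :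
    σ (nrm σ ℓ g) = nrm σ ℓ g := by
  have h1 : ℓ - 1 + 1 = ℓ := Nat.sub_add_cancel hσ.prime.one_le
  rw [nrm, map_prod]
  have h2 : ∀ i, σ ((σ^[i]) g) = (σ^[i + 1]) g := fun i =>
    (Function.iterate_succ_apply' σ i g).symm
  simp only [h2]
  rw [← h1, Finset.prod_range_succ, Finset.prod_range_succ', h1, hσ.ord g hg]
  rfl

theorem SigData.avg_fixed (hσ : SigData v L σ ℓ) {g : Ω} (hg : g ∈ L) :
    σ (avg σ ℓ g) = avg σ ℓ g := by
  have h1 : ℓ - 1 + 1 = ℓ := Nat.sub_add_cancel hσ.prime.one_le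
  rw [avg, map_mul, AlgHom.commutes, map_sum]
  congr 1
  have h2 : ∀ i, σ ((σ^[i]) g) = (σ^[i + 1]) g := fun i =>
    (Function.iterate_succ_apply' σ i g).symm
  simp only [h2]
  rw [← h1, Finset.sum_range_succ, Finset.sum_range_succ', h1, hσ.ord g hg]
  rfl

theorem avg_add (a b : Ω) : avg σ ℓ (a + b) = avg σ ℓ a + avg σ ℓ b := by
  simp only [avg, iter_map_add, Finset.sum_add_distrib, mul_add]

theorem avg_mul {a : Ω} (ha : σ a = a) (b : Ω) : avg σ ℓ (a * b) = a * avg σ ℓ b := by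
  simp only [avg, iter_map_mul, iter_fixed ha, ← Finset.mul_sum]
  ring

theorem SigData.avg_of_fixed (hσ : SigData v L σ ℓ) {a : Ω} (ha : σ a = a) :
    avg σ ℓ a = a := by
  have h1 : (algebraMap k Ω (ℓ : k)) ≠ 0 := by
    rw [Ne, FaithfulSMul.algebraMap_eq_zero_iff]; exact hσ.ne
  simp only [avg, iter_fixed ha, Finset.sum_const, Finset.card_range, nsmul_eq_mul]
  rw [map_inv₀, ← mul_assoc, ← map_natCast (algebraMap k Ω), inv_mul_cancel₀ h1, one_mul]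

/-- The average of an eigenvector. -/
theorem avg_eig {a : Ω} {ζ : k} (hζ : ζ ^ ℓ = 1) (ha : σ a = algebraMap k Ω ζ * a)
    (h1 : ζ ≠ 1) : avg σ ℓ a = 0 := by
  simp only [avg, iter_eig ha, ← Finset.sum_mul, ← map_sum]
  rw [geom_sum_eq h1, hζ, sub_self, zero_div, map_zero, zero_mul, mul_zero]

/-! ### the ring of invariants -/

/-- The invariants of a ring. -/
def fixR (σ : Ω →ₐ[k] Ω) (R : Subalgebra k Ω) : Subalgebra k Ω where
  carrier := {g | g ∈ R ∧ σ g = g}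
  mul_mem' := by
    rintro a b ⟨ha, ha'⟩ ⟨hb, hb'⟩
    exact ⟨R.mul_mem ha hb, by rw [map_mul, ha', hb']⟩
  add_mem' := by
    rintro a b ⟨ha, ha'⟩ ⟨hb, hb'⟩
    exact ⟨R.add_mem ha hb, by rw [map_add, ha', hb']⟩
  algebraMap_mem' := fun c => ⟨R.algebraMap_mem c, σ.commutes c⟩

theorem mem_fixR {R : Subalgebra k Ω} {g : Ω} : g ∈ fixR σ R ↔ g ∈ R ∧ σ g = g := Iff.rfl

theorem iter_mem_of_stable {R : Subalgebra k Ω} (hst : ∀ g ∈ R, σ g ∈ R) {g : Ω} (hg : g ∈ R)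
    (i : ℕ) : (σ^[i]) g ∈ R := by
  induction i with
  | zero => exact hg
  | succ i ih => rw [Function.iterate_succ_apply']; exact hst _ ih

theorem cof_mem {R : Subalgebra k Ω} (hst : ∀ g ∈ R, σ g ∈ R) {g : Ω} (hg : g ∈ R) :
    cof σ ℓ g ∈ R := prod_mem fun i _ => iter_mem_of_stable hst hg (i + 1)

theorem avg_mem {R : Subalgebra k Ω} (hst : ∀ g ∈ R, σ g ∈ R) {g : Ω} (hg : g ∈ R) :
    avg σ ℓ g ∈ R :=
  mul_mem (R.algebraMap_mem _) (sum_mem fun i _ => iter_mem_of_stable hst hg i)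

theorem nrm_ne {g : Ω} (h0 : g ≠ 0) : nrm σ ℓ g ≠ 0 :=
  Finset.prod_ne_zero_iff.2 fun i _ => iter_ne h0 i

theorem SigData.nrm_mem_fixR (hσ : SigData v L σ ℓ) {R : Subalgebra k Ω}
    (hst : ∀ g ∈ R, σ g ∈ R) (hRL : ∀ g ∈ R, g ∈ L) {g : Ω} (hg : g ∈ R) :
    nrm σ ℓ g ∈ fixR σ R :=
  ⟨prod_mem fun i _ => iter_mem_of_stable hst hg i, hσ.nrm_fixed (hRL g hg)⟩

/-- A ring is integral over its invariants. -/
theorem SigData.integral_fixR (hσ : SigData v L σ ℓ) {R : Subalgebra k Ω}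
    (hst : ∀ g ∈ R, σ g ∈ R) (hRL : ∀ g ∈ R, g ∈ L) {g : Ω} (hg : g ∈ R) :
    IsIntegral (fixR σ R) g := by
  set P : Polynomial Ω := ∏ i ∈ Finset.range ℓ, (X - C ((σ^[i]) g)) with hP
  have hPm : P.Monic := monic_prod_of_monic _ _ fun i _ => monic_X_sub_C _
  have hPσ : P.map (σ : Ω →+* Ω) = P := by
    have h1 : ℓ - 1 + 1 = ℓ := Nat.sub_add_cancel hσ.prime.one_le
    have h2 : ∀ i, σ ((σ^[i]) g) = (σ^[i + 1]) g := fun i =>
      (Function.iterate_succ_apply' σ i g).symm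
    rw [hP, Polynomial.map_prod]
    simp only [Polynomial.map_sub, map_X, map_C, RingHom.coe_coe, h2]
    rw [← h1, Finset.prod_range_succ, Finset.prod_range_succ', h1, hσ.ord g (hRL g hg)]
    rfl
  have hPR : ∀ n, P.coeff n ∈ R := by
    have h1 : P ∈ Polynomial.lifts (algebraMap R Ω) := by
      refine Subsemiring.prod_mem _ fun i _ => ?_
      exact ⟨X - C ⟨(σ^[i]) g, iter_mem_of_stable hst hg i⟩, by simp⟩
    intro n
    obtain ⟨a, ha⟩ := (Polynomial.lifts_iff_coeff_lifts P).1 h1 n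
    rw [← ha]
    exact a.2
  have h1 : P ∈ Polynomial.lifts (algebraMap (fixR σ R) Ω) := by
    rw [Polynomial.lifts_iff_coeff_lifts]
    intro n
    have h2 : σ (P.coeff n) = P.coeff n := by
      conv_rhs => rw [← hPσ]
      rw [coeff_map]
      rfl
    exact ⟨⟨P.coeff n, hPR n, h2⟩, rfl⟩
  obtain ⟨Q, hQ, -, hQm⟩ := Polynomial.lifts_and_natDegree_eq_and_monic h1 hPm
  refine ⟨Q, hQm, ?_⟩
  rw [← Polynomial.eval_map, hQ, hP, eval_prod]
  refine Finset.prod_eq_zero (Finset.mem_range.2 hσ.prime.pos) ?_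
  simp

theorem SigData.alg_fixR (hσ : SigData v L σ ℓ) {R : Subalgebra k Ω}
    (hst : ∀ g ∈ R, σ g ∈ R) (hRL : ∀ g ∈ R, g ∈ L) (halg : ∀ g : Ω, IsAlgebraic R g) (g : Ω) :
    IsAlgebraic (fixR σ R) g := by
  have hle : fixR σ R ≤ R := fun a ha => ha.1
  let _ : Algebra (fixR σ R) R := (Subalgebra.inclusion hle).toRingHom.toAlgebra
  have _ : IsScalarTower (fixR σ R) R Ω := IsScalarTower.of_algebraMap_eq fun _ => rfl
  have _ : Algebra.IsAlgebraic (fixR σ R) R := by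
    refine ⟨fun a => ?_⟩
    have h1 := (hσ.integral_fixR hst hRL a.2).isAlgebraic
    exact (isAlgebraic_algebraMap_iff (Subtype.val_injective : Function.Injective
      (algebraMap R Ω))).1 h1
  exact (halg g).restrictScalars (fixR σ R)

/-- F5b: the invariants of a semi-invariant frame with monomial generators. -/
theorem Semi.inv (h : Ctx k v r) (hσ : SigData v L σ ℓ) (W : IntermediateField k Ω)
    (hW : ∀ g, g ∈ W ↔ g ∈ L ∧ σ g = g) {B : BF k v} (hB : FracIs B.R L) (hS : Semi σ ℓ B)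
    (hy : σ B.y = B.y) (F : Finset Ω)
    (hF : ∀ f ∈ F, (∃ ζ : k, ζ ^ ℓ = 1 ∧ σ f = algebraMap k Ω ζ * f) ∧ (f = 0 ∨ B.Mono f))
    (hR : B.R = locv v (Algebra.adjoin k
      ((F : Set Ω) ∪ {B.y} ∪ B.χ '' {γ | γ ∈ B.Γ ∧ 0 ≤ γ}))) : Good v W := by
  classical
  have hst := hS.stable
  have hRL := hB.1
  have hℓ0 : ℓ ≠ 0 := hσ.prime.ne_zero
  -- the group of invariant monomials
  let Λ : AddSubgroup ℝ :=
    { carrier := {γ | γ ∈ B.Γ ∧ σ (B.χ γ) = B.χ γ}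
      zero_mem' := ⟨B.Γ.zero_mem, by rw [B.χ_zero, map_one]⟩
      add_mem' := by
        rintro a b ⟨ha, ha'⟩ ⟨hb, hb'⟩
        exact ⟨B.Γ.add_mem ha hb, by rw [B.χ_add a ha b hb, map_mul, ha', hb']⟩
      neg_mem' := by
        rintro a ⟨ha, ha'⟩
        exact ⟨B.Γ.neg_mem ha, by rw [B.χ_neg ha, map_inv₀, ha']⟩ }
  have hΛ : ∀ γ, γ ∈ Λ ↔ γ ∈ B.Γ ∧ σ (B.χ γ) = B.χ γ := fun γ => Iff.rfl
  have hΛle : Λ ≤ B.Γ := fun γ hγ => hγ.1
  have hΛℓ : ∀ γ ∈ B.Γ, (ℓ : ℝ) * γ ∈ Λ := by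
    intro γ hγ
    obtain ⟨ζ, hζ, h1⟩ := hS.chi γ hγ
    refine ⟨by rw [← nsmul_eq_mul]; exact B.Γ.nsmul_mem hγ ℓ, ?_⟩
    rw [B.χ_nsmul hγ, map_pow, h1, mul_pow, ← map_pow, hζ, map_one, one_mul]
  have hfull : ∀ g : Ω, g ≠ 0 → ∃ m : ℕ, 0 < m ∧ (m : ℝ) * v g ∈ Λ := by
    intro g hg
    obtain ⟨m, hm, h1⟩ := B.full g hg
    refine ⟨ℓ * m, Nat.mul_pos hσ.prime.pos hm, ?_⟩
    have h2 := hΛℓ _ h1
    rwa [← mul_assoc, ← Nat.cast_mul] at h2
  obtain ⟨γ0, hγ0, hγ0pos⟩ : ∃ γ ∈ Λ, 0 < γ := by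
    obtain ⟨m, hm, h1⟩ := hfull B.y B.y_ne
    exact ⟨_, h1, mul_pos (by exact_mod_cast hm) B.y_pos⟩
  -- the generators
  let G : Finset Ω := insert B.y ((F.filter (· ≠ 0)).image fun f => f / B.χ (v f))
  let A0 := Algebra.adjoin k ((G : Set Ω) ∪ B.χ '' {γ | γ ∈ Λ ∧ 0 ≤ γ})
  have hu : ∀ f ∈ F, f ≠ 0 → B.Un (f / B.χ (v f)) ∧ σ (f / B.χ (v f)) = f / B.χ (v f) ∧
      v f ∈ B.Γ := by
    intro f hf h0
    obtain ⟨⟨ζ, hζ, h1⟩, h2⟩ := hF f hf
    have h3 : B.Mono f := h2.resolve_left h0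
    obtain ⟨ζ2, hζ2, h4⟩ := hS.chi _ h3.2.1
    have hu := h3.2.2
    obtain ⟨c, -, hc⟩ := h.res _ hu.2.1 hu.2.2
    have h5 : σ (f / B.χ (v f)) = algebraMap k Ω (ζ / ζ2) * (f / B.χ (v f)) := by
      rw [map_div₀, h1, h4, map_div₀, mul_div_mul_comm]
    have h6 := hσ.fixed_of_res h (hRL _ hu.1) hu.2.1 hu.2.2 h5 hc
    exact ⟨hu, by rw [h5, h6, map_one, one_mul], h3.2.1⟩
  have hA0 : A0 ≤ fixR σ B.R := by
    refine Algebra.adjoin_le ?_
    rintro f (hf | ⟨γ, ⟨hγ, hγ'⟩, rfl⟩)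
    · rcases Finset.mem_insert.1 (Finset.mem_coe.1 hf) with rfl | hf
      · exact ⟨B.y_mem, hy⟩
      · obtain ⟨g, hg, rfl⟩ := Finset.mem_image.1 hf
        obtain ⟨hg, hg0⟩ := Finset.mem_filter.1 hg
        obtain ⟨h1, h2, -⟩ := hu g hg hg0
        exact ⟨h1.1, h2⟩
    · exact ⟨B.χ_mem γ hγ.1 hγ', hγ.2⟩
  -- the graded ring
  let M : Submodule A0 Ω := Submodule.span A0 (B.χ '' {γ | γ ∈ B.Γ ∧ 0 ≤ γ})
  have hMχ : ∀ γ ∈ B.Γ, 0 ≤ γ → B.χ γ ∈ M := fun γ hγ h0 =>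
    Submodule.subset_span ⟨γ, ⟨hγ, h0⟩, rfl⟩
  have hMsmul : ∀ a ∈ A0, ∀ m ∈ M, a * m ∈ M := fun a ha m hm =>
    M.smul_mem (⟨a, ha⟩ : A0) hm
  have hM1 : (1 : Ω) ∈ M := by
    have h1 := hMχ 0 B.Γ.zero_mem le_rfl
    rwa [B.χ_zero] at h1
  have hMmul : ∀ a ∈ M, ∀ b ∈ M, a * b ∈ M := by
    intro a ha b hb
    induction ha using Submodule.span_induction with
    | zero => rw [zero_mul]; exact M.zero_mem
    | add a a' _ _ h1 h2 => rw [add_mul]; exact M.add_mem h1 h2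
    | smul c a _ h1 =>
      rw [Algebra.smul_mul_assoc]; exact M.smul_mem c h1
    | mem a ha =>
      obtain ⟨γ, ⟨hγ, hγ'⟩, rfl⟩ := ha
      induction hb using Submodule.span_induction with
      | zero => rw [mul_zero]; exact M.zero_mem
      | add a a' _ _ h1 h2 => rw [mul_add]; exact M.add_mem h1 h2
      | smul c a _ h1 =>
        rw [Algebra.mul_smul_comm]; exact M.smul_mem c h1
      | mem b hb =>
        obtain ⟨δ, ⟨hδ, hδ'⟩, rfl⟩ := hb
        rw [← B.χ_add γ hγ δ hδ]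
        exact hMχ _ (B.Γ.add_mem hγ hδ) (add_nonneg hγ' hδ')
  have hMA : ∀ a ∈ Algebra.adjoin k ((F : Set Ω) ∪ {B.y} ∪ B.χ '' {γ | γ ∈ B.Γ ∧ 0 ≤ γ}),
      a ∈ M := by
    intro a ha
    induction ha using Algebra.adjoin_induction with
    | algebraMap c =>
      have h1 := hMsmul _ (A0.algebraMap_mem c) 1 hM1
      rwa [mul_one] at h1
    | add a b _ _ h1 h2 => exact M.add_mem h1 h2
    | mul a b _ _ h1 h2 => exact hMmul a h1 b h2
    | mem f hf =>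
      rcases hf with (hf | rfl) | ⟨γ, ⟨hγ, hγ'⟩, rfl⟩
      · by_cases h0 : f = 0
        · rw [h0]; exact M.zero_mem
        obtain ⟨h1, h2, h3⟩ := hu f hf h0
        have hfR : f ∈ B.R := by
          rw [hR]; exact le_locv _ (Algebra.subset_adjoin (Or.inl (Or.inl hf)))
        have h4 := hMsmul (f / B.χ (v f))
          (Algebra.subset_adjoin (Or.inl (Finset.mem_coe.2 (Finset.mem_insert_of_mem
            (Finset.mem_image.2 ⟨f, Finset.mem_filter.2 ⟨hf, h0⟩, rfl⟩)))))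
          _ (hMχ (v f) h3 (B.nonneg f hfR h0))
        rwa [div_mul_cancel₀ _ (B.χ_ne _ h3)] at h4
      · have h1 := hMsmul B.y (Algebra.subset_adjoin (Or.inl (Finset.mem_coe.2
          (Finset.mem_insert_self _ _)))) 1 hM1
        rwa [mul_one] at h1
      · exact hMχ γ hγ hγ'
  have hMavg : ∀ a ∈ M, avg σ ℓ a ∈ A0 := by
    intro a ha
    induction ha using Submodule.span_induction with
    | zero =>
      rw [hσ.avg_of_fixed (map_zero σ)]; exact A0.zero_mem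
    | add a a' _ _ h1 h2 => rw [avg_add]; exact A0.add_mem h1 h2
    | smul c a _ h1 =>
      have h2 : c • a = (c : Ω) * a := rfl
      rw [h2, avg_mul (hA0 c.2).2]
      exact A0.mul_mem c.2 h1
    | mem a ha =>
      obtain ⟨γ, ⟨hγ, hγ'⟩, rfl⟩ := ha
      obtain ⟨ζ, hζ, h1⟩ := hS.chi γ hγ
      by_cases h2 : ζ = 1
      · have h3 : σ (B.χ γ) = B.χ γ := by rw [h1, h2, map_one, one_mul]
        rw [hσ.avg_of_fixed h3]
        exact Algebra.subset_adjoin (Or.inr ⟨γ, ⟨⟨hγ, h3⟩, hγ'⟩, rfl⟩)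
      · rw [avg_eig hζ h1 h2]; exact A0.zero_mem
  have hfgen : fixR σ B.R = locv v A0 := by
    apply le_antisymm
    · rintro g ⟨hg, hgσ⟩
      set A := Algebra.adjoin k ((F : Set Ω) ∪ {B.y} ∪ B.χ '' {γ | γ ∈ B.Γ ∧ 0 ≤ γ}) with hA
      have hAst : ∀ f ∈ A, σ f ∈ A := by
        refine adjoin_stable ?_
        rintro f ((hf | rfl) | ⟨γ, ⟨hγ, hγ'⟩, rfl⟩)
        · obtain ⟨⟨ζ, -, h1⟩, -⟩ := hF f hf
          rw [h1]
          exact mul_mem (Subalgebra.algebraMap_mem _ _)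
            (Algebra.subset_adjoin (Or.inl (Or.inl hf)))
        · rw [hy]; exact Algebra.subset_adjoin (Or.inl (Or.inr rfl))
        · obtain ⟨ζ, -, h1⟩ := hS.chi γ hγ
          rw [h1]
          exact mul_mem (Subalgebra.algebraMap_mem _ _)
            (Algebra.subset_adjoin (Or.inr ⟨γ, ⟨hγ, hγ'⟩, rfl⟩))
      have hAL : ∀ f ∈ A, f ∈ L := fun f hf => hRL f (by rw [hR]; exact le_locv _ hf)
      rw [hR] at hg
      obtain ⟨a, ha, b, hb, hb0, hvb, rfl⟩ := hg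
      have hN := hσ.nrm_mem_fixR hAst hAL hb
      have hN0 : nrm σ ℓ b ≠ 0 := nrm_ne hb0
      have h1 : a / b = (a * cof σ ℓ b) / nrm σ ℓ b := by
        rw [hσ.nrm_eq] at hN0 ⊢
        rw [mul_div_mul_right _ _ (right_ne_zero_of_mul hN0)]
      have h2 : σ (a * cof σ ℓ b) = a * cof σ ℓ b := by
        have h3 : a * cof σ ℓ b = (a / b) * nrm σ ℓ b := by
          rw [h1, div_mul_cancel₀ _ hN0]
        rw [h3, map_mul, hgσ, hN.2]
      have h3 : a * cof σ ℓ b ∈ A := A.mul_mem ha (cof_mem hAst hb)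
      have h4 : a * cof σ ℓ b ∈ A0 := by
        rw [← hσ.avg_of_fixed h2]; exact hMavg _ (hMA _ h3)
      have h5 : nrm σ ℓ b ∈ A0 := by
        rw [← hσ.avg_of_fixed hN.2]; exact hMavg _ (hMA _ hN.1)
      refine ⟨_, h4, _, h5, hN0, ?_, h1⟩
      rw [nrm, v.map_prod _ _ fun i _ => iter_ne hb0 i]
      refine Finset.sum_eq_zero fun i _ => ?_
      rw [hσ.val_iter (hAL b hb) hb0, hvb]
    · refine locv_le hA0 ?_
      rintro f ⟨hf, hf'⟩ h0 h1
      exact ⟨B.loc f hf h0 h1, by rw [map_inv₀, hf']⟩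
  have hgen : ∀ f ∈ fixR σ B.R, VPos v f → ∃ γ ∈ Λ, 0 < γ ∧ ∃ a ∈ fixR σ B.R,
      ∃ b ∈ fixR σ B.R, f = B.χ γ * a + B.y * b := by
    rintro f ⟨hf, hfσ⟩ hv
    obtain ⟨g, hg, hg0, a, ha, b, hb, hfab⟩ := B.gen f hf hv
    have hb' : avg σ ℓ b ∈ fixR σ B.R := ⟨avg_mem hst hb, hσ.avg_fixed (hRL b hb)⟩
    obtain ⟨ζ, hζ, hζg⟩ := hS.chi g hg
    -- the average of `χ(g) a` is divisible by `χ(g)`
    obtain ⟨a', ha', h1⟩ : ∃ a' ∈ B.R, avg σ ℓ (B.χ g * a) = B.χ g * a' := by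
      refine ⟨algebraMap k Ω (ℓ : k)⁻¹ * ∑ i ∈ Finset.range ℓ,
        algebraMap k Ω (ζ ^ i) * (σ^[i]) a, ?_, ?_⟩
      · exact mul_mem (B.R.algebraMap_mem _) (sum_mem fun i _ =>
          mul_mem (B.R.algebraMap_mem _) (iter_mem_of_stable hst ha i))
      · simp only [avg, iter_map_mul, iter_eig hζg, Finset.mul_sum]
        refine Finset.sum_congr rfl fun i _ => ?_
        ring
    set H := avg σ ℓ (B.χ g * a) with hH
    have hHL : B.χ g * a ∈ L := L.mul_mem (hRL _ (B.χ_mem g hg hg0.le)) (hRL _ ha)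
    have hHσ : σ H = H := hσ.avg_fixed hHL
    have hfH : f = H + B.y * avg σ ℓ b := by
      rw [← avg_mul hy, ← avg_add, ← hfab, hσ.avg_of_fixed hfσ]
    by_cases hH0 : H = 0
    · refine ⟨γ0, hγ0, hγ0pos, 0, (fixR σ B.R).zero_mem, _, hb', ?_⟩
      rw [hfH, hH0, mul_zero]
    have hHR : H ∈ B.R := by rw [h1]; exact B.R.mul_mem (B.χ_mem g hg hg0.le) ha'
    obtain ⟨κ, D, hκ0, hrep⟩ := B.rep_exists h hHR hH0
    have hgκ : g ≤ κ := hrep.ge_of_mem h hg ha' h1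
    obtain ⟨hκ, u, hu1, δ, hδ, hδ0, e, he, hHe⟩ := hrep
    obtain ⟨ζκ, hζκ, hσκ⟩ := hS.chi κ hκ
    obtain ⟨ζδ, hζδ, hσδ⟩ := hS.chi δ hδ
    have hχκ := B.χ_ne κ hκ
    have hζκ0 : ζκ ≠ 0 := by
      rintro rfl
      rw [zero_pow hℓ0] at hζκ
      exact zero_ne_one hζκ
    -- compare `H` and `σ H`
    have hcmp : u * B.y ^ D + B.χ δ * e = algebraMap k Ω ζκ *
        (σ u * B.y ^ D + algebraMap k Ω ζδ * B.χ δ * σ e) := by
      have h2 : σ H = algebraMap k Ω ζκ * B.χ κ *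
          (σ u * B.y ^ D + algebraMap k Ω ζδ * B.χ δ * σ e) := by
        rw [hHe, map_mul, map_add, map_mul, map_mul, map_pow, hy, hσκ, hσδ]
      rw [hHσ, hHe] at h2
      have h3 : B.χ κ * (u * B.y ^ D + B.χ δ * e) = B.χ κ * (algebraMap k Ω ζκ *
          (σ u * B.y ^ D + algebraMap k Ω ζδ * B.χ δ * σ e)) := by
        rw [h2]; ring
      exact mul_left_cancel₀ hχκ h3
    have hζ1 : ζκ = 1 := by
      by_contra hne
      obtain ⟨c, hc0, hc⟩ := h.res u hu1.2.1 hu1.2.2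
      have hσu : VPos v (σ u - algebraMap k Ω c) := by
        have h2 : σ u - algebraMap k Ω c = σ (u - algebraMap k Ω c) := by
          rw [map_sub, AlgHom.commutes]
        rw [h2]
        intro h0
        have h3 : u - algebraMap k Ω c ≠ 0 := by
          intro h4
          rw [h4, map_zero] at h0
          exact h0 rfl
        rw [hσ.val _ (L.sub_mem (hRL _ hu1.1) (L.algebraMap_mem c)) h3]
        exact hc h3
      have hu2 : B.Un (u - algebraMap k Ω ζκ * σ u) := by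
        have h2 : u - algebraMap k Ω ζκ * σ u = algebraMap k Ω (c * (1 - ζκ)) +
            ((u - algebraMap k Ω c) - algebraMap k Ω ζκ * (σ u - algebraMap k Ω c)) := by
          rw [map_mul, map_sub, map_one]; ring
        rw [h2]
        have hmR : ∀ c' : k, algebraMap k Ω c' ∈ B.R := fun c' => B.R.algebraMap_mem c'
        refine (BF.Un.const h (mul_ne_zero hc0 (sub_ne_zero.2 (Ne.symm hne)))).add_vpos ?_ ?_
        · exact B.R.sub_mem (B.R.sub_mem hu1.1 (hmR c))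
            (B.R.mul_mem (hmR ζκ) (B.R.sub_mem (hst u hu1.1) (hmR c)))
        · exact hc.sub (VPos.mul' (h.ge ζκ) hσu)
      have h3 : (u - algebraMap k Ω ζκ * σ u) * B.y ^ D =
          B.χ δ * (algebraMap k Ω (ζκ * ζδ) * σ e - e) := by
        rw [map_mul]
        linear_combination hcmp
      have hrep2 : B.Rep ((u - algebraMap k Ω ζκ * σ u) * B.y ^ D) 0 D :=
        ⟨B.Γ.zero_mem, _, hu2, δ, hδ, hδ0, 0, B.R.zero_mem, by
          rw [B.χ_zero, one_mul, mul_zero, add_zero]⟩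
      have h4 := hrep2.ge_of_mem h hδ (B.R.sub_mem (B.R.mul_mem (B.R.algebraMap_mem (ζκ * ζδ))
        (hst e he)) he) h3
      exact absurd h4 (not_le.2 hδ0)
    have hκΛ : κ ∈ Λ := ⟨hκ, by rw [hσκ, hζ1, map_one, one_mul]⟩
    refine ⟨κ, hκΛ, hg0.trans_le hgκ, u * B.y ^ D + B.χ δ * e, ⟨?_, ?_⟩, avg σ ℓ b, hb', ?_⟩
    · exact B.R.add_mem (B.R.mul_mem hu1.1 (B.R.pow_mem B.y_mem D))
        (B.R.mul_mem (B.χ_mem δ hδ hδ0.le) he)
    · have h5 : u * B.y ^ D + B.χ δ * e = H / B.χ κ := by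
        rw [hHe, mul_div_cancel_left₀ _ hχκ]
      rw [h5, map_div₀, hHσ, hκΛ.2]
    · rw [hfH, hHe]
  have hfg : Λ.FG := by
    have h1 : (AddSubgroup.toIntSubmodule B.Γ).FG :=
      (Submodule.fg_iff_addSubgroup_fg _).2 (by simpa using B.fg)
    have h2 : (AddSubgroup.toIntSubmodule Λ).FG := h1.of_le (by simpa using hΛle)
    simpa using (Submodule.fg_iff_addSubgroup_fg _).1 h2
  refine ⟨⟨Λ, hfg, hfull, B.χ, fun γ hγ => B.χ_ne γ hγ.1,
    fun γ hγ δ hδ => B.χ_add γ hγ.1 δ hδ.1, fun γ hγ => B.χ_val γ hγ.1, B.y, B.y_ne, B.y_pos,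
    fixR σ B.R, fun f hf => B.nonneg f hf.1,
    fun f hf h0 h1 => ⟨B.loc f hf.1 h0 h1, by rw [map_inv₀, hf.2]⟩,
    fun γ hγ h0 => ⟨B.χ_mem γ hγ.1 h0, hγ.2⟩, ⟨B.y_mem, hy⟩, ⟨G, hfgen⟩, hgen,
    hσ.alg_fixR hst hRL B.alg⟩, ?_⟩
  · -- the field of fractions
    refine ⟨fun f hf => (hW f).2 ⟨hRL f hf.1, hf.2⟩, fun g hg => ?_⟩
    obtain ⟨hgL, hgσ⟩ := (hW g).1 hg
    obtain ⟨a, ha, b, hb, hb0, rfl⟩ := hB.2 g hgL
    have hN := hσ.nrm_mem_fixR hst hRL hb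
    have hN0 : nrm σ ℓ b ≠ 0 := nrm_ne hb0
    have h1 : a / b = (a * cof σ ℓ b) / nrm σ ℓ b := by
      rw [hσ.nrm_eq] at hN0 ⊢
      rw [mul_div_mul_right _ _ (right_ne_zero_of_mul hN0)]
    refine ⟨a * cof σ ℓ b, ⟨B.R.mul_mem ha (cof_mem hst hb), ?_⟩, nrm σ ℓ b, hN, hN0, h1⟩
    have h3 : a * cof σ ℓ b = (a / b) * nrm σ ℓ b := by
      rw [h1, div_mul_cancel₀ _ hN0]
    rw [h3, map_mul, hgσ, hN.2]

end Pool.Agent.LU1
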