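import Pool.Agent.Lib.LU1_h15.GalDefs
import Pool.Agent.Lib.LU1_h15.Tame

/-! # G5: tame steps -/

set_option autoImplicit false

open Polynomial

namespace Pool.Agent.LU1

open Pool.Agent.H15JM (RVal)

universe u

/-- Group theory: a normal subgroup of prime index is completed by one element. -/
theorem exists_gen_of_relIndex_prime {G : Type*} [Group G] (A B : Subgroup G) (ℓ : ℕ)
    (hℓ : ℓ.Prime) (hn : ∀ b ∈ B, ∀ x ∈ A, b * x * b⁻¹ ∈ A)
    (hi : A.relIndex B = ℓ) :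
    ∃ b ∈ B, b ^ ℓ ∈ A ∧ ∀ x ∈ B, ∃ i : ℕ, x * b ^ i ∈ A := by
  have : (A.subgroupOf B).Normal := by
    refine ⟨fun x hx g => ?_⟩
    rw [Subgroup.mem_subgroupOf] at hx ⊢
    exact hn g g.2 x hx
  have hcard : Nat.card (B ⧸ A.subgroupOf B) = ℓ := hi
  have : Fact ℓ.Prime := ⟨hℓ⟩
  have : IsCyclic (B ⧸ A.subgroupOf B) := isCyclic_of_prime_card hcard
  have : Finite (B ⧸ A.subgroupOf B) := Nat.finite_of_card_ne_zero (hcard ▸ hℓ.ne_zero)
  obtain ⟨q, hq⟩ := IsCyclic.exists_monoid_generator (α := B ⧸ A.subgroupOf B)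
  obtain ⟨b, rfl⟩ := QuotientGroup.mk_surjective q
  refine ⟨b, b.2, ?_, fun x hx => ?_⟩
  · have h1 : ((b ^ ℓ : B) : B ⧸ A.subgroupOf B) = 1 := by
      rw [QuotientGroup.mk_pow, ← hcard]
      exact pow_card_eq_one'
    rw [QuotientGroup.eq_one_iff, Subgroup.mem_subgroupOf] at h1
    simpa using h1
  · have h1 := hq (((⟨x, hx⟩ : B) : B ⧸ A.subgroupOf B)⁻¹)
    rw [Submonoid.mem_powers_iff] at h1
    obtain ⟨i, hi⟩ := h1
    refine ⟨i, ?_⟩
    have h2 : (((⟨x, hx⟩ : B) * b ^ i : B) : B ⧸ A.subgroupOf B) = 1 := by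
      rw [QuotientGroup.mk_mul, QuotientGroup.mk_pow, hi, mul_inv_cancel]
    rw [QuotientGroup.eq_one_iff, Subgroup.mem_subgroupOf] at h2
    simpa using h2

variable {k Ω : Type u} [Field k] [Field Ω] [Algebra k Ω] {v : RVal Ω} {r : ℕ}

theorem good_tame_step (p : ℕ) (hp : p.Prime) [CharP k p] [IsAlgClosed k] [IsAlgClosed Ω]
    (h : Ctx k v r)
    (F : IntermediateField k Ω) (N : IntermediateField F Ω) [FiniteDimensional F N]
    [IsGalois F N] (halg : ∀ g : Ω, IsAlgebraic F g) (A B : Subgroup (N ≃ₐ[F] N)) (ℓ : ℕ)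
    (hℓ : ℓ.Prime) (hℓp : ℓ ≠ p)
    (hAB : A ≤ B) (hBD : B ≤ decG v F N) (hn : ∀ b ∈ B, ∀ x ∈ A, b * x * b⁻¹ ∈ A)
    (hi : A.relIndex B = ℓ) (hA : Good v (fixO F N A)) : Good v (fixO F N B) := by
  obtain ⟨b, hb, hbA, hgen⟩ := exists_gen_of_relIndex_prime A B ℓ hℓ hn hi
  have : Algebra.IsAlgebraic F Ω := ⟨halg⟩
  have : Normal F Ω := by
    have : IsAlgClosure F Ω := ⟨inferInstance, inferInstance⟩
    exact IsAlgClosure.normal F Ω
  let τ : Ω ≃ₐ[F] Ω := b.liftNormal Ω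
  have hτ : ∀ n : N, τ (n : Ω) = ((b n : N) : Ω) := fun n => AlgEquiv.liftNormal_commutes b Ω n
  let σ : Ω →ₐ[k] Ω := (τ : Ω →ₐ[F] Ω).restrictScalars k
  have hσ : ∀ n : N, σ (n : Ω) = ((b n : N) : Ω) := hτ
  have hiter : ∀ (i : ℕ) (n : N), (σ^[i]) (n : Ω) = (((b ^ i) n : N) : Ω) := by
    intro i
    induction i with
    | zero => intro n; rfl
    | succ i ih =>
      intro n
      rw [Function.iterate_succ_apply', ih, hσ, pow_succ', AlgEquiv.mul_apply]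
  have hinv : ∀ x ∈ A, b⁻¹ * x * b ∈ A := by
    intro x hx
    have := hn b⁻¹ (B.inv_mem hb) x hx
    rwa [inv_inv] at this
  have hS : SigData v (fixO F N A) σ ℓ := by
    refine ⟨hℓ, ?_, ?_, ?_, ?_⟩
    · intro h0
      have := (CharP.cast_eq_zero_iff k p ℓ).1 h0
      exact hℓp ((Nat.prime_dvd_prime_iff_eq hp hℓ).1 this).symm
    · intro g hg
      obtain ⟨n, rfl, hn'⟩ := (mem_fixO F N A g).1 hg
      refine (mem_fixO F N A _).2 ⟨b n, (hσ n).symm, fun a ha => ?_⟩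
      have h1 := hn' _ (hinv a ha)
      have h2 : a (b n) = b ((b⁻¹ * a * b) n) := by
        rw [← AlgEquiv.mul_apply, ← AlgEquiv.mul_apply]
        congr 1
        group
      rw [h2, h1]
    · intro g hg _
      obtain ⟨n, rfl, -⟩ := (mem_fixO F N A g).1 hg
      rw [hσ]
      exact hBD hb n
    · intro g hg
      obtain ⟨n, rfl, hn'⟩ := (mem_fixO F N A g).1 hg
      rw [hiter, hn' _ hbA]
  refine Good.tame p hp h hS (fixO F N B) (fun g => ⟨fun hg => ?_, fun hg => ?_⟩) hA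
  · obtain ⟨n, rfl, hn'⟩ := (mem_fixO F N B g).1 hg
    refine ⟨(mem_fixO F N A _).2 ⟨n, rfl, fun a ha => hn' a (hAB ha)⟩, ?_⟩
    rw [hσ, hn' b hb]
  · obtain ⟨hgA, hgσ⟩ := hg
    obtain ⟨n, rfl, hn'⟩ := (mem_fixO F N A g).1 hgA
    refine (mem_fixO F N B _).2 ⟨n, rfl, fun x hx => ?_⟩
    have hbn : b n = n := by
      rw [hσ] at hgσ
      exact Subtype.ext hgσ
    have hbi : ∀ i : ℕ, (b ^ i) n = n := by
      intro i
      induction i with
      | zero => rfl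
      | succ i ih => rw [pow_succ, AlgEquiv.mul_apply, hbn, ih]
    obtain ⟨i, hi⟩ := hgen x hx
    have h1 := hn' _ hi
    rwa [AlgEquiv.mul_apply, hbi i] at h1

end Pool.Agent.LU1
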