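import Pool.Agent.Lib.LU1_h15.GalRam
import Pool.Agent.Lib.LU1_h15.GalDec
import Pool.Agent.Lib.LU1_h15.GalSteps
import Pool.Agent.Lib.LU1_h15.GalTame
import Pool.Agent.Lib.LU1_h15.GroupThy

/-! # G6 -/

set_option autoImplicit false

open Polynomial

namespace Pool.Agent.LU1

open Pool.Agent.H15JM (RVal)

universe u

variable {k Ω : Type u} [Field k] [Field Ω] [Algebra k Ω] {v : RVal Ω} {r : ℕ}

theorem good_galois (p : ℕ) (hp : p.Prime) [CharP k p] [IsAlgClosed k] [IsAlgClosed Ω]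
    (h : Ctx k v r)
    (F : IntermediateField k Ω) (N : IntermediateField F Ω) [FiniteDimensional F N]
    [IsGalois F N] (halg : ∀ g : Ω, IsAlgebraic F g) (H : Subgroup (N ≃ₐ[F] N))
    (hF : Good v (fixO F N ⊤)) : Good v (fixO F N H) := by
  obtain ⟨V, h1, h2, h3, h4, h5⟩ := exists_ramG p hp h F N
  exact group_chain p hp (decG v F N) V H h1 h2 h3 h4 h5 (fun A => Good v (fixO F N A))
    (good_dec p hp h F N)
    (fun A B ℓ hℓ hℓp hAB _ hn hi => good_kummer_step p hp h F N A B ℓ hℓ hℓp hAB hn hi)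
    (fun A B hAB _ hn hi => good_as_step p hp h F N A B hAB hn hi)
    (fun A B ℓ hℓ hℓp hAB hBD hn hi =>
      good_tame_step p hp h F N halg A B ℓ hℓ hℓp hAB hBD hn hi)
    (good_dec_desc p hp h F N halg H) hF

end Pool.Agent.LU1
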