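import Pool.Agent.Lib.LU1_h15.NFb
import Pool.Agent.Lib.LU1_h15.Eval

/-! # B1c: expansions -/

set_option autoImplicit false

open Polynomial

namespace Pool.Agent.LU1

open Pool.Agent.H15JM (RVal)

universe u

variable {k Ω : Type u} [Field k] [Field Ω] [Algebra k Ω] {v : RVal Ω} {r : ℕ}

namespace NFc

/-- The exponents of `P` are nonnegative integral combinations of the `u i`. -/
def Cone (u : Fin r → ℝ) (P : (Lau k)[X]) : Prop :=
  ∀ γ l, co P γ l ≠ 0 → ∃ n : Fin r → ℕ, γ = ∑ i, (n i : ℝ) * u i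

theorem co_add (P Q : (Lau k)[X]) (γ : ℝ) (l : ℕ) : co (P + Q) γ l = co P γ l + co Q γ l := by
  simp [co, cf]

theorem co_mon_mul (g : ℝ) (P : (Lau k)[X]) (γ : ℝ) (l : ℕ) :
    co (C (mon g 1) * P) γ l = co P (γ - g) l := by
  unfold co cf mon
  rw [coeff_C_mul, AddMonoidAlgebra.coeff_single_mul_apply, one_mul, neg_add_eq_sub]

theorem co_X_mul_succ (P : (Lau k)[X]) (γ : ℝ) (l : ℕ) : co (X * P) γ (l + 1) = co P γ l := by
  unfold co
  rw [coeff_X_mul]

theorem co_X_mul_zero (P : (Lau k)[X]) (γ : ℝ) : co (X * P) γ 0 = 0 := by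
  unfold co
  rw [coeff_X_mul_zero]
  rfl

theorem co_C_mon (g : ℝ) (c : k) (γ : ℝ) (l : ℕ) (h : co (C (mon g c)) γ l ≠ 0) : γ = g := by
  unfold co cf mon at h
  rw [coeff_C] at h
  split_ifs at h with h1
  · by_contra h2
    rw [AddMonoidAlgebra.coeff_single, Finsupp.single_eq_of_ne h2] at h
    exact h rfl
  · exact absurd rfl h

variable {u : Fin r → ℝ}

theorem Cone.zero : Cone u (0 : (Lau k)[X]) := fun _ _ h => absurd rfl h

theorem Cone.add {P Q : (Lau k)[X]} (hP : Cone u P) (hQ : Cone u Q) : Cone u (P + Q) := by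
  intro γ l h
  rw [co_add] at h
  by_cases h1 : co P γ l = 0
  · rw [h1, zero_add] at h
    exact hQ γ l h
  · exact hP γ l h1

theorem Cone.sum {ι : Type*} (s : Finset ι) (P : ι → (Lau k)[X]) (hP : ∀ i, Cone u (P i)) :
    Cone u (∑ i ∈ s, P i) := by
  classical
  induction s using Finset.induction_on with
  | empty => simpa using Cone.zero
  | insert a s ha ih => rw [Finset.sum_insert ha]; exact (hP a).add ih

theorem Cone.const (c : k) : Cone u (C (mon 0 c) : (Lau k)[X]) := by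
  intro γ l h
  exact ⟨0, by rw [co_C_mon 0 c γ l h]; simp⟩

theorem Cone.mon_mul (i : Fin r) {P : (Lau k)[X]} (hP : Cone u P) :
    Cone u (C (mon (u i) 1) * P) := by
  intro γ l h
  rw [co_mon_mul] at h
  obtain ⟨n, hn⟩ := hP _ _ h
  refine ⟨n + Pi.single i 1, ?_⟩
  have : ∑ j, (((n + Pi.single i 1 : Fin r → ℕ) j : ℕ) : ℝ) * u j =
      ∑ j, (n j : ℝ) * u j + u i := by
    simp only [Pi.add_apply, Nat.cast_add, add_mul, Finset.sum_add_distrib]
    congr 1
    rw [Finset.sum_eq_single i]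
    · simp
    · intro b _ hb
      simp [Pi.single_eq_of_ne hb]
    · intro h
      exact absurd (Finset.mem_univ i) h
  rw [this, ← hn]
  ring

theorem Cone.X_mul {P : (Lau k)[X]} (hP : Cone u P) : Cone u (X * P) := by
  intro γ l h
  cases l with
  | zero => exact absurd (co_X_mul_zero P γ) h
  | succ l => rw [co_X_mul_succ] at h; exact hP γ l h

theorem Cone.suppIn {Γ : AddSubgroup ℝ} (hu : ∀ i, u i ∈ Γ) {P : (Lau k)[X]} (hP : Cone u P) :
    SuppIn Γ P := by
  intro γ l h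
  obtain ⟨n, rfl⟩ := hP γ l h
  refine Γ.sum_mem fun i _ => ?_
  rw [← nsmul_eq_mul]
  exact Γ.nsmul_mem (hu i) _

theorem Cone.nonneg (hu : ∀ i, 0 < u i) {P : (Lau k)[X]} (hP : Cone u P) :
    ∀ γ l, co P γ l ≠ 0 → 0 ≤ γ := by
  intro γ l h
  obtain ⟨n, rfl⟩ := hP γ l h
  exact Finset.sum_nonneg fun i _ => mul_nonneg (Nat.cast_nonneg _) (hu i).le

end NFc

open NFc

theorem NF.InPow.add {N : NF k v r} {M : ℕ} {e f : Ω} (he : N.InPow M e) (hf : N.InPow M f) :
    N.InPow M (e + f) := by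
  obtain ⟨z, hz, rfl⟩ := he
  obtain ⟨w, hw, rfl⟩ := hf
  exact ⟨z + w, Ideal.add_mem _ hz hw, rfl⟩

theorem NF.InPow.zero {N : NF k v r} {M : ℕ} : N.InPow M 0 := ⟨0, Ideal.zero_mem _, rfl⟩

theorem NF.InPow.sum {N : NF k v r} {M : ℕ} {ι : Type*} (s : Finset ι) (e : ι → Ω)
    (he : ∀ i, N.InPow M (e i)) : N.InPow M (∑ i ∈ s, e i) := by
  classical
  induction s using Finset.induction_on with
  | empty => simpa using NF.InPow.zero
  | insert a s ha ih => rw [Finset.sum_insert ha]; exact (he a).add ih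

theorem NF.InPow.x_mul {N : NF k v r} {M : ℕ} {e : Ω} (he : N.InPow M e) (i : Fin r) :
    N.InPow (M + 1) (N.x i * e) := by
  obtain ⟨z, hz, rfl⟩ := he
  refine ⟨z * ⟨N.x i, N.x_mem i⟩, ?_, mul_comm _ _⟩
  rw [pow_succ]
  exact Ideal.mul_mem_mul hz (Ideal.subset_span (Or.inl ⟨i, rfl⟩))

theorem NF.InPow.y_mul {N : NF k v r} {M : ℕ} {e : Ω} (he : N.InPow M e) :
    N.InPow (M + 1) (N.y * e) := by
  obtain ⟨z, hz, rfl⟩ := he
  refine ⟨z * ⟨N.y, N.y_mem⟩, ?_, mul_comm _ _⟩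
  rw [pow_succ]
  exact Ideal.mul_mem_mul hz (Ideal.subset_span (Or.inr rfl))

/-- Every element is a polynomial in `x, y` modulo `m^M`. -/
theorem NF.expand (h : Ctx k v r) (B : BF k v) (N : NF k v r) (u : Fin r → ℝ)
    (hu : ∀ i, u i ∈ B.Γ ∧ 0 < u i) (hx : ∀ i, N.x i = B.χ (u i)) (hy : N.y = B.y)
    (f : Ω) (hf : f ∈ N.R) (M : ℕ) :
    ∃ P : (Lau k)[X], (∀ γ l, co P γ l ≠ 0 → ∃ n : Fin r → ℕ, γ = ∑ i, (n i : ℝ) * u i) ∧
      SuppIn B.Γ P ∧ (∀ γ l, co P γ l ≠ 0 → 0 ≤ γ) ∧ N.InPow M (f - B.ev P) := by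
  suffices H : ∀ M : ℕ, ∀ f ∈ N.R, ∃ P : (Lau k)[X], Cone u P ∧ N.InPow M (f - B.ev P) by
    obtain ⟨P, h1, h2⟩ := H M f hf
    exact ⟨P, h1, h1.suppIn fun i => (hu i).1, h1.nonneg fun i => (hu i).2, h2⟩
  intro M
  induction M with
  | zero =>
    intro f hf
    refine ⟨0, Cone.zero, ⟨⟨f, hf⟩, by simp, ?_⟩⟩
    have : B.ev (0 : (Lau k)[X]) = 0 := by
      have := B.ev_sub 0 0
      simpa using this
    rw [this, sub_zero]
  | succ M ih =>
    intro f hf
    obtain ⟨c, hc⟩ := h.residue (N.nonneg f hf)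
    obtain ⟨a, ha, b, hb, hab⟩ := N.gen (f - algebraMap k Ω c)
      (N.R.sub_mem hf (N.R.algebraMap_mem c)) hc
    choose P hP hP' using fun i => ih (a i) (ha i)
    obtain ⟨Q, hQ, hQ'⟩ := ih b hb
    refine ⟨C (mon 0 c) + ∑ i, C (mon (u i) 1) * P i + X * Q,
      ((Cone.const c).add (Cone.sum _ _ fun i => (hP i).mon_mul i)).add hQ.X_mul, ?_⟩
    have e1 : B.ev (C (mon 0 c)) = algebraMap k Ω c := by
      have := B.ev_monomial 0 c 0
      rw [pow_zero, pow_zero, mul_one, mul_one, B.χ_zero, mul_one] at this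
      exact this
    have e2 : ∀ i, B.ev (C (mon (u i) 1) * P i) = N.x i * B.ev (P i) := by
      intro i
      have h1 : SuppIn B.Γ (C (mon (u i) 1) : (Lau k)[X]) := by
        intro γ l h
        rw [co_C_mon _ _ γ l h]
        exact (hu i).1
      rw [B.ev_mul h1 ((hP i).suppIn fun i => (hu i).1)]
      have := B.ev_monomial (u i) 1 0
      rw [pow_zero, pow_zero, mul_one, mul_one, map_one, one_mul] at this
      rw [this, hx]
    have e3 : B.ev (X * Q) = N.y * B.ev Q := by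
      have h0 := B.ev_monomial 0 1 1
      rw [pow_one, pow_one, map_one, one_mul, B.χ_zero, one_mul] at h0
      have h1 : SuppIn B.Γ (C (mon 0 1) * X : (Lau k)[X]) := by
        intro γ l h
        rw [mul_comm] at h
        cases l with
        | zero => exact absurd (co_X_mul_zero _ γ) h
        | succ l =>
          rw [co_X_mul_succ] at h
          rw [co_C_mon _ _ γ l h]
          exact B.Γ.zero_mem
      have h2 : (C (mon 0 1) * X : (Lau k)[X]) = X := by
        have : (mon 0 1 : Lau k) = 1 := rfl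
        rw [this, map_one, one_mul]
      rw [h2] at h0 h1
      rw [B.ev_mul h1 (hQ.suppIn fun i => (hu i).1), h0, hy]
    rw [B.ev_add, B.ev_add, e1, B.ev_sum, e3, Finset.sum_congr rfl fun i _ => e2 i]
    have e4 : f - (algebraMap k Ω c + ∑ i, N.x i * B.ev (P i) + N.y * B.ev Q) =
        ∑ i, N.x i * (a i - B.ev (P i)) + N.y * (b - B.ev Q) := by
      have : f = algebraMap k Ω c + (∑ i, N.x i * a i + N.y * b) := by rw [← hab]; ring
      rw [this]
      simp only [mul_sub, Finset.sum_sub_distrib]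
      ring
    rw [e4]
    exact (NF.InPow.sum _ _ fun i => (hP' i).x_mul i).add hQ'.y_mul

end Pool.Agent.LU1
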