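import Pool.Agent.Lib.LU1_h15.Smooth
import Pool.Agent.Lib.LU1_h15.Basic

/-! # Z3: the smooth chart of a noetherian frame -/

set_option autoImplicit false

namespace Pool.Agent.LU1

open Pool.Agent.H15JM (RVal)

universe u

section adjoin
variable {k Ω : Type*} [Field k] [Field Ω] [Algebra k Ω]

/-- The localization of a subalgebra of a field at one element. -/
theorem smooth_adjoin (S : Subalgebra k Ω) (h : S) (h0 : h ≠ 0)
    (hs : Algebra.Smooth k (Localization.Away h)) :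
    Algebra.Smooth k (Algebra.adjoin k ((S : Set Ω) ∪ {(h : Ω)⁻¹})) := by
  have h0' : (h : Ω) ≠ 0 := fun h1 => h0 (Subtype.ext h1)
  have hu : ∀ y : Submonoid.powers h, IsUnit (S.val (y : S)) := by
    rintro ⟨_, n, rfl⟩
    rw [map_pow]
    exact (isUnit_iff_ne_zero.mpr h0').pow n
  let φ : Localization.Away h →ₐ[k] Ω :=
    IsLocalization.liftAlgHom (M := Submonoid.powers h) (f := S.val) hu
  have hφ : ∀ s : S, φ (algebraMap S (Localization.Away h) s) = s := fun s =>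
    IsLocalization.lift_eq (M := Submonoid.powers h) (g := (S.val : S →+* Ω)) hu s
  have hinj : Function.Injective φ := by
    rw [injective_iff_map_eq_zero]
    intro x hx
    obtain ⟨s, t, rfl⟩ := IsLocalization.exists_mk'_eq (Submonoid.powers h) x
    have h1 : algebraMap S (Localization.Away h) s =
        IsLocalization.mk' (Localization.Away h) s t * algebraMap S (Localization.Away h) t :=
      (IsLocalization.mk'_spec _ s t).symm
    have h2 : (s : Ω) = 0 := by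
      rw [← hφ, h1, map_mul, hx, zero_mul]
    have h3 : s = 0 := Subtype.ext h2
    rw [h3, IsLocalization.mk'_zero]
  have hrange : φ.range = Algebra.adjoin k ((S : Set Ω) ∪ {(h : Ω)⁻¹}) := by
    apply le_antisymm
    · rintro _ ⟨x, rfl⟩
      obtain ⟨s, ⟨_, n, rfl⟩, rfl⟩ := IsLocalization.exists_mk'_eq (Submonoid.powers h) x
      have h1 := congrArg φ (IsLocalization.mk'_spec (Localization.Away h) s
        (⟨h ^ n, n, rfl⟩ : Submonoid.powers h))
      rw [map_mul, hφ, hφ] at h1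
      have h2 : φ (IsLocalization.mk' (Localization.Away h) s
          (⟨h ^ n, n, rfl⟩ : Submonoid.powers h)) = s * ((h : Ω)⁻¹) ^ n := by
        have h3 : ((h : Ω)) ^ n ≠ 0 := pow_ne_zero n h0'
        rw [inv_pow, ← div_eq_mul_inv, eq_div_iff h3]
        exact h1
      change φ (IsLocalization.mk' (Localization.Away h) s
          (⟨h ^ n, n, rfl⟩ : Submonoid.powers h)) ∈
        Algebra.adjoin k ((S : Set Ω) ∪ {(h : Ω)⁻¹})
      rw [h2]
      have h4 : (s : Ω) ∈ Algebra.adjoin k ((S : Set Ω) ∪ {(h : Ω)⁻¹}) :=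
        Algebra.subset_adjoin (Set.mem_union_left _ s.2)
      have h5 : (h : Ω)⁻¹ ∈ Algebra.adjoin k ((S : Set Ω) ∪ {(h : Ω)⁻¹}) :=
        Algebra.subset_adjoin (Set.mem_union_right _ rfl)
      exact mul_mem h4 (pow_mem h5 n)
    · rw [Algebra.adjoin_le_iff]
      rintro x (hx | rfl)
      · exact ⟨algebraMap S (Localization.Away h) ⟨x, hx⟩, hφ ⟨x, hx⟩⟩
      · refine ⟨IsLocalization.mk' (Localization.Away h) (1 : S)
          (⟨h, 1, pow_one h⟩ : Submonoid.powers h), ?_⟩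
        have h1 := congrArg φ (IsLocalization.mk'_spec (Localization.Away h) (1 : S)
          (⟨h, 1, pow_one h⟩ : Submonoid.powers h))
        rw [map_mul, hφ, hφ] at h1
        exact eq_inv_of_mul_eq_one_left h1
  rw [← hrange]
  exact Algebra.Smooth.of_equiv (AlgEquiv.ofInjective φ hinj)

end adjoin

section NFchart
variable {k Ω : Type u} [Field k] [Field Ω] [Algebra k Ω] {v : RVal Ω} {r : ℕ}

theorem isAlgebraic_of_locv (S : Subalgebra k Ω) (halg : ∀ g : Ω, IsAlgebraic (locv v S) g) :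
    Algebra.IsAlgebraic S Ω := by
  let _ : Algebra S (locv v S) := (Subalgebra.inclusion (le_locv S)).toAlgebra
  have h0 : IsScalarTower S (locv v S) Ω := IsScalarTower.of_algebraMap_eq fun _ => rfl
  have hinj : Function.Injective (algebraMap (locv v S) Ω) := Subtype.val_injective
  have h1 : Algebra.IsAlgebraic S (locv v S) := by
    refine ⟨fun x => ?_⟩
    rw [← isAlgebraic_algebraMap_iff (R := S) (A := Ω) hinj]
    obtain ⟨a, ha, b, hb, hb0, -, hx⟩ := x.2
    refine ⟨Polynomial.C ⟨b, hb⟩ * Polynomial.X - Polynomial.C ⟨a, ha⟩, ?_, ?_⟩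
    · intro h2
      have h3 := congrArg (fun p => Polynomial.coeff p 1) h2
      simp only [Polynomial.coeff_sub, Polynomial.coeff_C_mul, Polynomial.coeff_X_one, mul_one,
        Polynomial.coeff_C_succ, sub_zero, Polynomial.coeff_zero] at h3
      exact hb0 (congrArg Subtype.val h3)
    · rw [map_sub, map_mul, Polynomial.aeval_C, Polynomial.aeval_C, Polynomial.aeval_X]
      change b * (x : Ω) - a = 0
      rw [hx]
      field_simp
      ring
  exact ⟨fun g => (halg g).restrictScalars S⟩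

theorem trdeg_of_locv (h : Ctx k v r) (S : Subalgebra k Ω)
    (halg : ∀ g : Ω, IsAlgebraic (locv v S) g) : Algebra.trdeg k S = r + 1 := by
  have h1 := isAlgebraic_of_locv S halg
  have h2 := trdeg_add_eq k S (A := Ω)
  have h3 : Algebra.trdeg S Ω = 0 := trdeg_eq_zero
  rw [h3, add_zero, h.trdeg] at h2
  exact h2

/-- The ideal of the elements of positive value. -/
def posIdeal (S : Subalgebra k Ω) (hS : ∀ s ∈ S, v.Ge 0 s) : Ideal S where
  carrier := {s | VPos v (s : Ω)}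
  add_mem' := fun ha hb => VPos.add ha hb
  zero_mem' := VPos.zero
  smul_mem' := fun c _ hs => VPos.mul' (hS c c.2) hs

theorem mem_posIdeal (S : Subalgebra k Ω) (hS : ∀ s ∈ S, v.Ge 0 s) (s : S) :
    s ∈ posIdeal S hS ↔ VPos v (s : Ω) := Iff.rfl

theorem notMem_posIdeal (S : Subalgebra k Ω) (hS : ∀ s ∈ S, v.Ge 0 s) (s : S) :
    s ∉ posIdeal S hS ↔ (s : Ω) ≠ 0 ∧ v (s : Ω) = 0 := by
  rw [mem_posIdeal]
  constructor
  · intro h
    have h0 : (s : Ω) ≠ 0 := by
      intro h0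
      rw [h0] at h
      exact h VPos.zero
    refine ⟨h0, le_antisymm ?_ (hS s s.2 h0)⟩
    by_contra hcon
    push Not at hcon
    exact h fun _ => hcon
  · rintro ⟨h0, h1⟩ h2
    exact (h2 h0).ne' h1

instance posIdeal_isPrime (S : Subalgebra k Ω) (hS : ∀ s ∈ S, v.Ge 0 s) :
    (posIdeal S hS).IsPrime := by
  constructor
  · rw [Ideal.ne_top_iff_one, notMem_posIdeal]
    exact ⟨one_ne_zero, v.map_one⟩
  · intro a b hab
    by_contra hcon
    rw [not_or, notMem_posIdeal, notMem_posIdeal] at hcon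
    obtain ⟨⟨ha0, ha⟩, hb0, hb⟩ := hcon
    have h1 : v ((a * b : S) : Ω) = 0 := by
      change v ((a : Ω) * b) = 0
      rw [v.map_mul ha0 hb0, ha, hb, add_zero]
    have h2 : ((a * b : S) : Ω) ≠ 0 := mul_ne_zero ha0 hb0
    exact (hab h2).ne' h1

/-- The smooth chart of a noetherian frame. -/
theorem NF.exists_smooth_chart (h : Ctx k v r) (N : NF k v r) (S : Subalgebra k Ω)
    (hfg : S.FG) (hR : N.R = locv v S) :
    ∃ b ∈ S, b ≠ 0 ∧ v b = 0 ∧ Algebra.Smooth k (Algebra.adjoin k ((S : Set Ω) ∪ {b⁻¹})) := by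
  have hS : ∀ s ∈ S, v.Ge 0 s := fun s hs => N.nonneg s (by rw [hR]; exact le_locv S hs)
  have hft : Algebra.FiniteType k S := (Subalgebra.fg_iff_finiteType S).mp hfg
  have hres : ∀ s : S, ∃ c : k, s - algebraMap k S c ∈ posIdeal S hS := by
    intro s
    obtain ⟨c, hc⟩ := h.residue (hS s s.2)
    exact ⟨c, hc⟩
  have hx : ∀ i, ∃ a ∈ S, ∃ b ∈ S, b ≠ 0 ∧ v b = 0 ∧ N.x i = a / b := fun i => by
    have := N.x_mem i
    rwa [hR] at this
  obtain ⟨ay, hay, by', hby, hby0, hvby, hy⟩ : ∃ a ∈ S, ∃ b ∈ S, b ≠ 0 ∧ v b = 0 ∧ N.y = a / b := by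
    have := N.y_mem
    rwa [hR] at this
  choose a ha b hb hb0 hvb hxab using hx
  let z : Fin (r + 1) → S := Fin.snoc (fun i => ⟨a i, ha i⟩) ⟨ay, hay⟩
  have hzx : ∀ i : Fin r, z (Fin.castSucc i) = ⟨a i, ha i⟩ := fun i => Fin.snoc_castSucc _ _ i
  have hzy : z (Fin.last r) = ⟨ay, hay⟩ := Fin.snoc_last _ _
  have hzq : ∀ i, z i ∈ posIdeal S hS := by
    intro i
    refine Fin.lastCases ?_ (fun i => ?_) i
    · rw [hzy, mem_posIdeal]
      intro h0
      have h1 := N.y_pos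
      rw [hy, v.map_div h0 hby0, hvby, sub_zero] at h1
      exact h1
    · rw [hzx, mem_posIdeal]
      intro h0
      have h1 := N.x_pos i
      rw [hxab, v.map_div h0 (hb0 i), hvb, sub_zero] at h1
      exact h1
  -- elements which become combinations of the parameters after multiplication by a unit
  have gd_add : ∀ w₁ w₂ : Ω,
      (∃ t : S, (t : Ω) ≠ 0 ∧ v (t : Ω) = 0 ∧ ∃ u ∈ Ideal.span (Set.range z), (u : Ω) = t * w₁) →
      (∃ t : S, (t : Ω) ≠ 0 ∧ v (t : Ω) = 0 ∧ ∃ u ∈ Ideal.span (Set.range z), (u : Ω) = t * w₂) →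
      ∃ t : S, (t : Ω) ≠ 0 ∧ v (t : Ω) = 0 ∧
        ∃ u ∈ Ideal.span (Set.range z), (u : Ω) = t * (w₁ + w₂) := by
    rintro w₁ w₂ ⟨t₁, h10, h1v, u₁, hu₁, e₁⟩ ⟨t₂, h20, h2v, u₂, hu₂, e₂⟩
    refine ⟨t₁ * t₂, mul_ne_zero h10 h20, ?_, t₂ * u₁ + t₁ * u₂,
      Ideal.add_mem _ (Ideal.mul_mem_left _ _ hu₁) (Ideal.mul_mem_left _ _ hu₂), ?_⟩
    · change v ((t₁ : Ω) * t₂) = 0
      rw [v.map_mul h10 h20, h1v, h2v, add_zero]
    · change (t₂ : Ω) * u₁ + t₁ * u₂ = (t₁ * t₂ : Ω) * (w₁ + w₂)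
      rw [e₁, e₂]
      ring
  have gd_zero : ∃ t : S, (t : Ω) ≠ 0 ∧ v (t : Ω) = 0 ∧
      ∃ u ∈ Ideal.span (Set.range z), (u : Ω) = t * 0 :=
    ⟨1, one_ne_zero, v.map_one, 0, Ideal.zero_mem _, by
      change (0 : Ω) = 1 * 0
      ring⟩
  have gd_term : ∀ (i : Fin (r + 1)) (c α : Ω), c ∈ S → c ≠ 0 → v c = 0 → α ∈ N.R →
      ∃ t : S, (t : Ω) ≠ 0 ∧ v (t : Ω) = 0 ∧
        ∃ u ∈ Ideal.span (Set.range z), (u : Ω) = t * ((z i : Ω) / c * α) := by
    intro i c α hc hc0 hvc hα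
    rw [hR] at hα
    obtain ⟨p, hp, q, hq, hq0, hvq, rfl⟩ := hα
    refine ⟨⟨c, hc⟩ * ⟨q, hq⟩, mul_ne_zero hc0 hq0, ?_, ⟨p, hp⟩ * z i,
      Ideal.mul_mem_left _ _ (Ideal.subset_span ⟨i, rfl⟩), ?_⟩
    · change v (c * q) = 0
      rw [v.map_mul hc0 hq0, hvc, hvq, add_zero]
    · change p * (z i : Ω) = (c * q) * ((z i : Ω) / c * (p / q))
      field_simp
  have hgen : ∀ s ∈ posIdeal S hS, ∃ t, t ∉ posIdeal S hS ∧ t * s ∈ Ideal.span (Set.range z) := by
    intro s hs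
    have hsR : (s : Ω) ∈ N.R := by
      rw [hR]
      exact le_locv S s.2
    obtain ⟨α, hα, β, hβ, hsum⟩ := N.gen s hsR hs
    have hsum' : (s : Ω) = ∑ i, (z (Fin.castSucc i) : Ω) / b i * α i +
        (z (Fin.last r) : Ω) / by' * β := by
      rw [hsum, hzy, hy]
      congr 1
      refine Finset.sum_congr rfl fun i _ => ?_
      rw [hzx, hxab]
    have h1 : ∃ t : S, (t : Ω) ≠ 0 ∧ v (t : Ω) = 0 ∧
        ∃ u ∈ Ideal.span (Set.range z), (u : Ω) = t * (s : Ω) := by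
      rw [hsum']
      refine gd_add _ _ ?_ (gd_term _ _ _ hby hby0 hvby hβ)
      refine Finset.sum_induction _ (fun w => ∃ t : S, (t : Ω) ≠ 0 ∧ v (t : Ω) = 0 ∧
        ∃ u ∈ Ideal.span (Set.range z), (u : Ω) = t * w) gd_add gd_zero fun i _ => ?_
      exact gd_term _ _ _ (hb i) (hb0 i) (hvb i) (hα i)
    obtain ⟨t, ht0, htv, u, hu, htu⟩ := h1
    refine ⟨t, (notMem_posIdeal S hS t).mpr ⟨ht0, htv⟩, ?_⟩
    have : t * s = u := Subtype.ext htu.symm
    rw [this]
    exact hu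
  have htr : ((r + 1 : ℕ) : Cardinal) ≤ Algebra.trdeg k S := by
    rw [trdeg_of_locv h S fun g => by rw [← hR]; exact N.alg g]
    push_cast
    exact le_rfl
  have hind := algebraicIndependent_of_trdeg (posIdeal S hS) hres z hzq hgen htr
  obtain ⟨d, hd, hsm⟩ := exists_smooth_away (posIdeal S hS) hres z hzq hgen hind
  obtain ⟨hd0, hdv⟩ := (notMem_posIdeal S hS d).mp hd
  exact ⟨d, d.2, hd0, hdv, smooth_adjoin S d (fun h1 => hd0 (by rw [h1]; rfl)) hsm⟩

end NFchart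

end Pool.Agent.LU1
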