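import Pool.Agent.Lib.LU1_h15.StatementDefs

/-! # Z2a: the standing assumptions hold for a real valuation of an affine variety -/

set_option autoImplicit false

namespace Pool.Agent.LU1

open Pool.Agent.H15JM (RVal)

/-- The standing assumptions. -/
theorem ctx_of (k : Type) [Field k] [IsAlgClosed k] (A : Type) [CommRing A] [IsDomain A]
    [Algebra k A] [Algebra.FiniteType k A] (v : AddValuation (FractionRing A) (WithTop ℝ))
    (hv : ∀ a : A, 0 ≤ v (algebraMap A (FractionRing A) a))
    (hres : ∀ f : FractionRing A, 0 ≤ v f → ∃ c : k, 0 < v (f - algebraMap k (FractionRing A) c))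
    (hrank : Module.rank ℚ (valueSpace v) + 1 = Algebra.trdeg k A) :
    ∃ r : ℕ, Ctx k (toRVal v) r := by
  -- constants
  have hc0 : ∀ c : k, 0 ≤ v (algebraMap k (FractionRing A) c) := fun c => by
    rw [IsScalarTower.algebraMap_apply k A (FractionRing A)]
    exact hv _
  have hc1 : ∀ c : k, c ≠ 0 → v (algebraMap k (FractionRing A) c) = 0 := by
    intro c hc
    have h1 := hc0 c
    have h2 := hc0 c⁻¹
    have h3 : v (algebraMap k (FractionRing A) c) + v (algebraMap k (FractionRing A) c⁻¹) = 0 := by
      rw [← v.map_mul, ← map_mul, mul_inv_cancel₀ hc, map_one, v.map_one]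
    refine le_antisymm ?_ h1
    calc v (algebraMap k (FractionRing A) c)
        ≤ v (algebraMap k (FractionRing A) c) + v (algebraMap k (FractionRing A) c⁻¹) :=
          le_add_of_nonneg_right h2
      _ = 0 := h3
  -- transcendence degree
  have hinj : Function.Injective (algebraMap k A) := (algebraMap k A).injective
  have : FaithfulSMul k A := (faithfulSMul_iff_algebraMap_injective k A).2 hinj
  have htr : Algebra.trdeg k (FractionRing A) = Algebra.trdeg k A := by
    have h := _root_.trdeg_add_eq k A (A := FractionRing A)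
    have h0 : Algebra.trdeg A (FractionRing A) = 0 := by
      have : Algebra.IsAlgebraic A (FractionRing A) :=
        IsLocalization.isAlgebraic _ (nonZeroDivisors A)
      exact _root_.trdeg_eq_zero
    rw [h0, add_zero] at h
    exact h.symm
  have hfin : Algebra.trdeg k A < Cardinal.aleph0 := _root_.trdeg_lt_aleph0_of_finiteType
  have hrfin : Module.rank ℚ (valueSpace v) < Cardinal.aleph0 :=
    lt_of_le_of_lt (le_self_add.trans hrank.le) hfin
  have hmf : Module.Finite ℚ (valueSpace v) := Module.rank_lt_aleph0_iff.1 hrfin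
  have hmf' : Module.Finite ℚ (Submodule.span ℚ {t : ℝ | ∃ f, v f = (t : WithTop ℝ)}) := hmf
  have hrk : (Module.finrank ℚ (valueSpace v) : Cardinal) = Module.rank ℚ (valueSpace v) :=
    Module.finrank_eq_rank ℚ (valueSpace v)
  obtain ⟨f, hf1, hf2, hf3⟩ := Submodule.exists_fun_fin_finrank_span_eq ℚ
    {t : ℝ | ∃ f, v f = (t : WithTop ℝ)}
  choose X hX using hf1
  have hX0 : ∀ i, X i ≠ 0 := by
    intro i h
    have := hX i
    rw [h, v.map_zero] at this
    exact WithTop.coe_ne_top this.symm
  have hXv : ∀ i, toRVal v (X i) = f i := by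
    intro i
    have := hX i
    rw [toRVal_coe v (hX0 i)] at this
    exact WithTop.coe_injective this
  have hspan : ∀ g : FractionRing A, g ≠ 0 → toRVal v g ∈ valueSpace v := fun g hg =>
    Submodule.subset_span ⟨g, toRVal_coe v hg⟩
  refine ⟨Module.finrank ℚ (valueSpace v), ?_, ?_, ?_, ?_, X, hX0, ?_, ?_⟩
  · intro c hc
    have h1 : algebraMap k (FractionRing A) c ≠ 0 := by
      simpa using hc
    exact (toRVal_eq_zero v h1).1 (hc1 c hc)
  · intro g hg hvg
    have h0 : v g = 0 := (toRVal_eq_zero v hg).2 hvg
    obtain ⟨c, hc⟩ := hres g h0.ge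
    refine ⟨c, ?_, fun hne => (toRVal_pos v hne).1 hc⟩
    rintro rfl
    rw [map_zero, sub_zero, h0] at hc
    exact lt_irrefl _ hc
  · rw [Nat.pos_iff_ne_zero]
    intro h0
    have hbot : valueSpace v = ⊥ := by
      rw [← Submodule.finrank_eq_zero (R := ℚ)]
      exact h0
    have hall : ∀ g : FractionRing A, g ≠ 0 → v g = 0 := by
      intro g hg
      have := hspan g hg
      rw [hbot, Submodule.mem_bot] at this
      exact (toRVal_eq_zero v hg).2 this
    have hsurj : Function.Surjective (algebraMap k (FractionRing A)) := by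
      intro g
      have hg0 : 0 ≤ v g := by
        by_cases hg : g = 0
        · rw [hg, v.map_zero]; exact le_top
        · rw [hall g hg]
      obtain ⟨c, hc⟩ := hres g hg0
      refine ⟨c, ?_⟩
      by_contra hne
      have : g - algebraMap k (FractionRing A) c ≠ 0 := sub_ne_zero.2 fun h => hne h.symm
      rw [hall _ this] at hc
      exact lt_irrefl _ hc
    have halg : Algebra.IsAlgebraic k (FractionRing A) := ⟨fun g => by
      obtain ⟨c, rfl⟩ := hsurj g
      exact isAlgebraic_algebraMap c⟩
    have h1 : Algebra.trdeg k (FractionRing A) = 0 := _root_.trdeg_eq_zero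
    rw [htr, ← hrank] at h1
    exact one_ne_zero (add_eq_zero.1 h1).2
  · rw [htr, ← hrank, ← hrk]
  · have : (fun i => toRVal v (X i)) = f := funext hXv
    exact this ▸ hf3
  · intro g hg
    have h1 : (fun i => toRVal v (X i)) = f := funext hXv
    have h2 : Submodule.span ℚ (Set.range fun i => toRVal v (X i)) = valueSpace v :=
      (congrArg (fun F => Submodule.span ℚ (Set.range F)) h1).trans hf2
    exact h2.symm ▸ hspan g hg

end Pool.Agent.LU1
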