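import Pool.Agent.Lib.LU1_h15.Final
import Pool.Agent.Lib.LU1_h15.StatementA

/-! # Z2b: log uniformization of real valuations of rational rank `n - 1` -/

set_option autoImplicit false

namespace Pool.Agent.LU1

open Pool.Agent.H15JM (RVal)

namespace Z2b

section Mono

universe u

variable {k Ω : Type u} [Field k] [Field Ω] [Algebra k Ω] {v : RVal Ω} {r : ℕ}

/-- A monomial of nonnegative value. -/
theorem exists_nat {N : NF k v r} {a : Ω} (ha : N.MonoPos a) (hva : 0 ≤ v a) :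
    ∃ n : Fin r → ℕ, ∃ u : Ω, u ≠ 0 ∧ u ∈ N.R ∧ u⁻¹ ∈ N.R ∧ a = (∏ i, N.x i ^ n i) * u ∧
      ((0 < v a ∧ ∀ i, 0 < n i) ∨ (v a = 0 ∧ ∀ i, n i = 0)) := by
  obtain ⟨n, u, hu0, hu, hu', han, h1, -, h3⟩ := ha
  rcases hva.lt_or_eq with h | h
  · have h4 := h1 h
    refine ⟨fun i => (n i).toNat, u, hu0, hu, hu', ?_, Or.inl ⟨h, fun i => ?_⟩⟩
    swap
    · have h5 := h4 i
      show 0 < (n i).toNat
      omega
    rw [han]
    congr 1
    refine Finset.prod_congr rfl fun i _ => ?_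
    rw [← zpow_natCast, Int.toNat_of_nonneg (h4 i).le]
  · have h4 := h3 h.symm
    refine ⟨fun i => (n i).toNat, u, hu0, hu, hu', ?_, Or.inr ⟨h.symm, fun i => ?_⟩⟩
    swap
    · have h5 := h4 i
      show (n i).toNat = 0
      omega
    rw [han]
    congr 1
    refine Finset.prod_congr rfl fun i _ => ?_
    rw [← zpow_natCast, Int.toNat_of_nonneg (h4 i).ge]

theorem mem_of_nonneg {N : NF k v r} {a : Ω} (ha : N.MonoPos a) (hva : 0 ≤ v a) : a ∈ N.R := by
  obtain ⟨n, u, -, hu, -, rfl, -⟩ := exists_nat ha hva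
  exact N.R.mul_mem (N.R.prod_mem fun i _ => N.R.pow_mem (N.x_mem i) _) hu

/-- Products of monomials of nonnegative value. -/
theorem mul_nat {N : NF k v r} {a b : Ω}
    (ha : ∃ n : Fin r → ℕ, ∃ u : Ω, u ≠ 0 ∧ u ∈ N.R ∧ u⁻¹ ∈ N.R ∧ a = (∏ i, N.x i ^ n i) * u ∧
      ((∀ i, 0 < n i) ∨ ∀ i, n i = 0))
    (hb : ∃ n : Fin r → ℕ, ∃ u : Ω, u ≠ 0 ∧ u ∈ N.R ∧ u⁻¹ ∈ N.R ∧ b = (∏ i, N.x i ^ n i) * u ∧
      ((∀ i, 0 < n i) ∨ ∀ i, n i = 0)) :
    ∃ n : Fin r → ℕ, ∃ u : Ω, u ≠ 0 ∧ u ∈ N.R ∧ u⁻¹ ∈ N.R ∧ a * b = (∏ i, N.x i ^ n i) * u ∧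
      ((∀ i, 0 < n i) ∨ ∀ i, n i = 0) := by
  obtain ⟨n, u, hu0, hu, hu', rfl, h1⟩ := ha
  obtain ⟨m, w, hw0, hw, hw', rfl, g1⟩ := hb
  refine ⟨fun i => n i + m i, u * w, mul_ne_zero hu0 hw0, N.R.mul_mem hu hw, ?_, ?_, ?_⟩
  · rw [mul_inv]
    exact N.R.mul_mem hu' hw'
  · simp only [pow_add, Finset.prod_mul_distrib]
    ring
  · rcases h1 with h1 | h1
    · exact Or.inl fun i => Nat.add_pos_left (h1 i) _
    · rcases g1 with g1 | g1
      · exact Or.inl fun i => Nat.add_pos_right _ (g1 i)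
      · exact Or.inr fun i => by
          show n i + m i = 0
          rw [h1 i, g1 i]

end Mono

section Ring

variable {K : Type} [Field K]

/-- Two subalgebras with the same elements. -/
def equivOfMem {R1 R2 : Type} [CommRing R1] [CommRing R2] [Algebra R1 K] [Algebra R2 K]
    (S : Subalgebra R1 K) (S' : Subalgebra R2 K) (h : ∀ z, z ∈ S ↔ z ∈ S') : S ≃+* S' where
  toFun z := ⟨z, (h z).1 z.2⟩
  invFun z := ⟨z, (h z).2 z.2⟩
  left_inv _ := rfl
  right_inv _ := rfl
  map_mul' _ _ := rfl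
  map_add' _ _ := rfl

/-- A generator of an ideal has the least value. -/
theorem le_of_mem_span {A : Type} [CommRing A] [Algebra A K] (v : AddValuation K (WithTop ℝ))
    (hv : ∀ a : A, 0 ≤ v (algebraMap A K a)) (s : Set A) (m : WithTop ℝ)
    (hs : ∀ a ∈ s, m ≤ v (algebraMap A K a)) {a : A} (ha : a ∈ Ideal.span s) :
    m ≤ v (algebraMap A K a) := by
  refine Submodule.span_induction (fun x hx => hs x hx) ?_ ?_ ?_ ha
  · rw [map_zero, v.map_zero]
    exact le_top
  · intro x y _ _ hx hy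
    rw [map_add]
    exact (le_min hx hy).trans (v.map_add _ _)
  · intro c x _ hx
    rw [smul_eq_mul, map_mul, v.map_mul]
    calc m ≤ v (algebraMap A K x) := hx
      _ ≤ v (algebraMap A K c) + v (algebraMap A K x) := le_add_of_nonneg_left (hv c)

theorem exists_least {A : Type} [CommRing A] [IsDomain A] [IsNoetherianRing A]
    [Algebra A K] [FaithfulSMul A K] (v : AddValuation K (WithTop ℝ))
    (hv : ∀ a : A, 0 ≤ v (algebraMap A K a)) (J : Ideal A) (hJ : J ≠ ⊥) :
    ∃ s : Finset A, Ideal.span (s : Set A) = J ∧ ∃ j ∈ s, j ≠ 0 ∧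
      ∀ a ∈ J, v (algebraMap A K j) ≤ v (algebraMap A K a) := by
  obtain ⟨s, hs⟩ := (isNoetherianRing_iff_ideal_fg A).1 inferInstance J
  have hne : s.Nonempty := by
    rw [Finset.nonempty_iff_ne_empty]
    rintro rfl
    apply hJ
    rw [← hs, Finset.coe_empty, Ideal.span_empty]
  obtain ⟨j, hj, hmin⟩ := s.exists_min_image (fun a => v (algebraMap A K a)) hne
  have hall : ∀ a ∈ J, v (algebraMap A K j) ≤ v (algebraMap A K a) := by
    intro a ha
    rw [← hs] at ha
    exact le_of_mem_span v hv s _ (fun b hb => hmin b hb) ha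
  refine ⟨s, hs, j, hj, ?_, hall⟩
  rintro rfl
  apply hJ
  rw [eq_bot_iff]
  intro a ha
  have h1 := hall a ha
  rw [map_zero, v.map_zero, top_le_iff, v.top_iff] at h1
  rw [Ideal.mem_bot]
  exact (FaithfulSMul.algebraMap_injective A K) (by rw [h1, map_zero])

end Ring

end Z2b

/-- Every real valuation of rational rank `n - 1` with residue field `k` is log uniformizable on
every affine variety of dimension `n` over `k`. -/
theorem logUniformizable (p : ℕ) [Fact p.Prime] (k : Type) [Field k] [IsAlgClosed k] [CharP k p]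
    (A : Type) [CommRing A] [IsDomain A] [Algebra k A] [Algebra.FiniteType k A]
    (v : AddValuation (FractionRing A) (WithTop ℝ))
    (hv : ∀ a : A, 0 ≤ v (algebraMap A (FractionRing A) a))
    (hres : ∀ f : FractionRing A, 0 ≤ v f → ∃ c : k, 0 < v (f - algebraMap k (FractionRing A) c))
    (hrank : Module.rank ℚ (valueSpace v) + 1 = Algebra.trdeg k A) : LogUniformizable v := by
  classical
  obtain ⟨r, hc⟩ := ctx_of k A v hv hres hrank
  have hnoe : IsNoetherianRing A := Algebra.FiniteType.isNoetherianRing k A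
  intro D hD J hJ
  obtain ⟨sD, hsD, d0, hd0, hd00, hdmin⟩ := Z2b.exists_least v hv D hD
  obtain ⟨sJ, hsJ, j0, hj0, hj00, hjmin⟩ := Z2b.exists_least v hv J hJ
  obtain ⟨sA, hsA⟩ := (inferInstance : Algebra.FiniteType k A).out
  let φ : A →ₐ[k] FractionRing A := IsScalarTower.toAlgHom k A (FractionRing A)
  have hφ : Function.Injective φ := IsFractionRing.injective A (FractionRing A)
  have hφ0 : ∀ a : A, a ≠ 0 → φ a ≠ 0 := fun a ha h => ha (hφ (by rw [h, map_zero]))
  have hφv : ∀ a : A, a ≠ 0 → 0 ≤ toRVal v (φ a) := fun a ha =>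
    (toRVal_nonneg v (hφ0 a ha)).1 (hv a)
  have hA0 : Algebra.adjoin k ((sA.image φ : Finset (FractionRing A)) : Set (FractionRing A)) =
      φ.range := by
    rw [Finset.coe_image, ← AlgHom.map_adjoin, hsA, Algebra.map_top]
  obtain ⟨N, g, hg, hg0, hgm, G, hG, hNR, hT, hreg, hdim⟩ := local_unif k (FractionRing A) p
    Fact.out (toRVal v) r hc (sA.image φ)
    (by
      intro a ha ha0
      obtain ⟨b, hb, rfl⟩ := Finset.mem_image.1 ha
      exact (toRVal_nonneg v ha0).1 (hv b))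
    (by
      intro g
      obtain ⟨a, b, hb, hab⟩ := IsFractionRing.div_surjective (A := A) g
      refine ⟨φ a, ?_, φ b, ?_, hφ0 b (nonZeroDivisors.ne_zero hb), hab.symm⟩
      · rw [hA0]
        exact ⟨a, rfl⟩
      · rw [hA0]
        exact ⟨b, rfl⟩)
    ((sD.image φ ∪ sJ.image φ ∪ (sD.image fun d => φ d / φ d0) ∪
      (sJ.image fun j => φ j / φ j0)).filter (· ≠ 0))
    (by
      intro t ht
      exact (Finset.mem_filter.1 ht).2)
  have hT' : ∀ t ∈ (sD.image φ ∪ sJ.image φ ∪ (sD.image fun d => φ d / φ d0) ∪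
      (sJ.image fun j => φ j / φ j0)), t ≠ 0 → N.MonoPos t := fun t ht ht0 =>
    hT t (Finset.mem_filter.2 ⟨ht, ht0⟩)
  rw [hA0] at hg
  obtain ⟨gA, rfl⟩ := hg
  have hgA : gA ≠ 0 := by
    rintro rfl
    exact hg0 (map_zero φ)
  -- the ideal
  let GA : Finset A := insert gA (G.preimage φ hφ.injOn)
  let I : Ideal A := Ideal.span (GA : Set A)
  have hgI : gA ∈ I := Ideal.subset_span (Finset.mem_coe.2 (Finset.mem_insert_self _ _))
  have hI : I ≠ ⊥ := by
    intro h
    rw [h, Ideal.mem_bot] at hgI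
    exact hgA hgI
  have hGA : ∀ x ∈ GA, v (φ gA) ≤ v (φ x) := by
    intro x hx
    rcases Finset.mem_insert.1 hx with rfl | hx
    · exact le_rfl
    · obtain ⟨-, h2⟩ := hG _ (Finset.mem_preimage.1 hx)
      by_cases hx0 : φ x = 0
      · rw [hx0, v.map_zero]
        exact le_top
      · exact (toRVal_le v hg0 hx0).2 (h2 hx0)
  have hImin : ∀ a ∈ I, v (φ gA) ≤ v (φ a) := fun a ha =>
    Z2b.le_of_mem_span v hv (GA : Set A) _ (fun b hb => hGA b hb) ha
  have hj0J : j0 ∈ J := by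
    rw [← hsJ]
    exact Ideal.subset_span hj0
  have hd0D : d0 ∈ D := by
    rw [← hsD]
    exact Ideal.subset_span hd0
  have hj0' : φ j0 ≠ 0 := hφ0 j0 hj00
  have hd0' : φ d0 ≠ 0 := hφ0 d0 hd00
  -- membership in the ring of the frame
  have hAR : ∀ a : A, φ a ∈ N.R := by
    intro a
    rw [hNR]
    refine ⟨φ a, ?_, 1, one_mem _, one_ne_zero, (toRVal v).map_one, (div_one _).symm⟩
    refine Algebra.adjoin_mono Set.subset_union_left ?_
    rw [hA0]
    exact ⟨a, rfl⟩
  have hxR : ∀ x ∈ GA, φ x / φ gA ∈ N.R := by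
    intro x hx
    rcases Finset.mem_insert.1 hx with rfl | hx
    · have h1 : φ x / φ x = 1 := div_self hg0
      rw [h1]
      exact N.R.one_mem
    · rw [hNR]
      refine ⟨φ x / φ gA, ?_, 1, one_mem _, one_ne_zero, (toRVal v).map_one, (div_one _).symm⟩
      exact Algebra.subset_adjoin (Or.inr ⟨φ x, Finset.mem_preimage.1 hx, rfl⟩)
  have hjR : ∀ j ∈ sJ, φ j / φ j0 ∈ N.R := by
    intro j hj
    by_cases hj1 : j = 0
    · rw [hj1, map_zero, zero_div]
      exact N.R.zero_mem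
    · have h1 : φ j / φ j0 ≠ 0 := div_ne_zero (hφ0 j hj1) hj0'
      refine Z2b.mem_of_nonneg (hT' _ (Finset.mem_union_right _
        (Finset.mem_image_of_mem _ hj)) h1) ?_
      rw [(toRVal v).map_div (hφ0 j hj1) hj0', sub_nonneg, ← toRVal_le v hj0' (hφ0 j hj1)]
      exact hjmin j (by rw [← hsJ]; exact Ideal.subset_span hj)
  have hdR : ∀ d ∈ sD, φ d / φ d0 ∈ N.R := by
    intro j hj
    by_cases hj1 : j = 0
    · rw [hj1, map_zero, zero_div]
      exact N.R.zero_mem
    · have h1 : φ j / φ d0 ≠ 0 := div_ne_zero (hφ0 j hj1) hd0'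
      refine Z2b.mem_of_nonneg (hT' _ (Finset.mem_union_left _ (Finset.mem_union_right _
        (Finset.mem_image_of_mem _ hj))) h1) ?_
      rw [(toRVal v).map_div (hφ0 j hj1) hd0', sub_nonneg, ← toRVal_le v hd0' (hφ0 j hj1)]
      exact hdmin j (by rw [← hsD]; exact Ideal.subset_span hj)
  -- quotients of elements of the ideals
  have hquot : ∀ (s : Finset A) (c : A), φ c ≠ 0 → (∀ x ∈ s, φ x / φ c ∈ N.R) →
      ∀ a ∈ Ideal.span (s : Set A), φ a / φ c ∈ N.R := by
    intro s c _ hs a ha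
    refine Submodule.span_induction (fun x hx => hs x hx) ?_ ?_ ?_ ha
    · rw [map_zero, zero_div]
      exact N.R.zero_mem
    · intro x y _ _ hx hy
      rw [map_add, add_div]
      exact N.R.add_mem hx hy
    · intro b x _ hx
      rw [smul_eq_mul, map_mul, mul_div_assoc]
      exact N.R.mul_mem (hAR b) hx
  have hJR : ∀ a ∈ J, φ a / φ j0 ∈ N.R := by
    rw [← hsJ]
    exact hquot sJ j0 hj0' hjR
  have hDR : ∀ a ∈ D, φ a / φ d0 ∈ N.R := by
    rw [← hsD]
    exact hquot sD d0 hd0' hdR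
  have hIR : ∀ a ∈ I, φ a / φ gA ∈ N.R := hquot GA gA hg0 hxR
  have hJIR : ∀ a ∈ J * I, φ a / φ (j0 * gA) ∈ N.R := by
    intro a ha
    refine Submodule.mul_induction_on ha ?_ ?_
    · intro m hm n hn
      rw [map_mul, map_mul, ← div_mul_div_comm]
      exact N.R.mul_mem (hJR m hm) (hIR n hn)
    · intro x y hx hy
      rw [map_add, add_div]
      exact N.R.add_mem hx hy
  have hDJIR : ∀ a ∈ D * (J * I), φ a / φ (d0 * (j0 * gA)) ∈ N.R := by
    intro a ha
    refine Submodule.mul_induction_on ha ?_ ?_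
    · intro m hm n hn
      rw [map_mul, map_mul, ← div_mul_div_comm]
      exact N.R.mul_mem (hDR m hm) (hJIR n hn)
    · intro x y hx hy
      rw [map_add, add_div]
      exact N.R.add_mem hx hy
  have hg1 : j0 * gA ≠ 0 := mul_ne_zero hj00 hgA
  have hg1' : φ (j0 * gA) ≠ 0 := hφ0 _ hg1
  -- the two rings are equal
  have hSR : ∀ z ∈ chart (J * I) (j0 * gA), z ∈ N.R := by
    intro z hz
    refine Algebra.adjoin_induction (p := fun z _ => z ∈ N.R) ?_ ?_ ?_ ?_ hz
    · rintro z ⟨a, ha, rfl⟩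
      exact hJIR a ha
    · intro a
      exact hAR a
    · intro x y _ _ hx hy
      exact N.R.add_mem hx hy
    · intro x y _ _ hx hy
      exact N.R.mul_mem hx hy
  have hS' : ∀ z ∈ Algebra.adjoin k (((sA.image φ : Finset (FractionRing A)) :
      Set (FractionRing A)) ∪ (fun x => x / φ gA) '' (G : Set (FractionRing A))),
      z ∈ chart (J * I) (j0 * gA) := by
    intro z hz
    refine Algebra.adjoin_induction (p := fun z _ => z ∈ chart (J * I) (j0 * gA)) ?_ ?_ ?_ ?_ hz
    · rintro z (hz | ⟨x, hx, rfl⟩)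
      · obtain ⟨a, -, rfl⟩ := Finset.mem_image.1 (Finset.mem_coe.1 hz)
        exact (chart (J * I) (j0 * gA)).algebraMap_mem a
      · obtain ⟨h1, -⟩ := hG x hx
        rw [hA0] at h1
        obtain ⟨a, rfl⟩ := h1
        have ha : a ∈ GA := Finset.mem_insert_of_mem (Finset.mem_preimage.2 hx)
        refine Algebra.subset_adjoin ⟨j0 * a, Ideal.mul_mem_mul hj0J (Ideal.subset_span ha), ?_⟩
        change φ a / φ gA = φ (j0 * a) / φ (j0 * gA)
        rw [map_mul, map_mul, mul_div_mul_left _ _ hj0']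
    · intro c
      rw [IsScalarTower.algebraMap_apply k A (FractionRing A)]
      exact (chart (J * I) (j0 * gA)).algebraMap_mem _
    · intro x y _ _ hx hy
      exact (chart (J * I) (j0 * gA)).add_mem hx hy
    · intro x y _ _ hx hy
      exact (chart (J * I) (j0 * gA)).mul_mem hx hy
  have hmem : ∀ z, z ∈ centerRing v (chart (J * I) (j0 * gA)) ↔ z ∈ N.R := by
    intro z
    constructor
    · rintro ⟨a, ha, b, hb, hvb, rfl⟩
      have hb0 : b ≠ 0 := by
        rintro rfl
        rw [v.map_zero] at hvb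
        exact WithTop.top_ne_zero hvb
      rw [div_eq_mul_inv]
      exact N.R.mul_mem (hSR a ha) (N.inv_mem (hSR b hb) hb0 ((toRVal_eq_zero v hb0).1 hvb))
    · intro hz
      rw [hNR] at hz
      obtain ⟨a, ha, b, hb, hb0, hvb, rfl⟩ := hz
      exact ⟨a, hS' a ha, b, hS' b hb, (toRVal_eq_zero v hb0).2 hvb, rfl⟩
  let e : centerRing v (chart (J * I) (j0 * gA)) ≃+* N.R := Z2b.equivOfMem _ _ hmem
  have hregO : IsRegularLocalRing (centerRing v (chart (J * I) (j0 * gA))) :=
    IsRegularLocalRing.of_ringEquiv e.symm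
  -- the parameters
  let x : Fin (r + 1) → centerRing v (chart (J * I) (j0 * gA)) := fun i =>
    e.symm (N.par (finSuccEquiv r i))
  -- the monomial
  obtain ⟨n, u, hu0, hu, hu', hn, hns⟩ : ∃ n : Fin r → ℕ, ∃ u : FractionRing A, u ≠ 0 ∧
      u ∈ N.R ∧ u⁻¹ ∈ N.R ∧ φ (d0 * (j0 * gA)) = (∏ i, N.x i ^ n i) * u ∧
      ((∀ i, 0 < n i) ∨ ∀ i, n i = 0) := by
    rw [map_mul, map_mul]
    have h1 : ∀ a : A, a ≠ 0 → N.MonoPos (φ a) → ∃ n : Fin r → ℕ, ∃ u : FractionRing A, u ≠ 0 ∧
      u ∈ N.R ∧ u⁻¹ ∈ N.R ∧ φ a = (∏ i, N.x i ^ n i) * u ∧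
      ((∀ i, 0 < n i) ∨ ∀ i, n i = 0) := by
      intro a ha0 ha
      obtain ⟨n, u, hu0, hu, hu', hn, h | h⟩ := Z2b.exists_nat ha (hφv a ha0)
      · exact ⟨n, u, hu0, hu, hu', hn, Or.inl h.2⟩
      · exact ⟨n, u, hu0, hu, hu', hn, Or.inr h.2⟩
    refine Z2b.mul_nat (h1 d0 hd00 (hT' _ ?_ hd0')) (Z2b.mul_nat (h1 j0 hj00 (hT' _ ?_ hj0'))
      (h1 gA hgA hgm))
    · exact Finset.mem_union_left _ (Finset.mem_union_left _ (Finset.mem_union_left _
        (Finset.mem_image_of_mem _ hd0)))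
    · exact Finset.mem_union_left _ (Finset.mem_union_left _ (Finset.mem_union_right _
        (Finset.mem_image_of_mem _ hj0)))
  let s : Finset (Fin (r + 1)) := if ∀ i, 0 < n i then Finset.univ.image Fin.succ else ∅
  refine ⟨I, hI, j0 * gA, Ideal.mul_mem_mul hj0J hgI, hg1, ?_, hregO, r + 1, x, s, ?_, ?_, ?_⟩
  · intro a ha
    change v (φ (j0 * gA)) ≤ v (φ a)
    rw [map_mul, v.map_mul]
    refine Submodule.mul_induction_on ha ?_ ?_
    · intro m hm l hl
      rw [map_mul, v.map_mul]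
      exact add_le_add (hjmin m hm) (hImin l hl)
    · intro x y hx hy
      rw [map_add]
      exact (le_min hx hy).trans (v.map_add _ _)
  · rw [ringKrullDim_eq_of_ringEquiv e, hdim]
    push_cast
    rfl
  · have h1 := N.isLocalRing
    rw [← IsLocalRing.map_ringEquiv_maximalIdeal e.symm, N.maximalIdeal_eq, Ideal.map_span]
    congr 1
    ext z
    constructor
    · rintro ⟨_, ⟨o, rfl⟩, rfl⟩
      refine ⟨(finSuccEquiv r).symm o, ?_⟩
      change e.symm (N.par (finSuccEquiv r ((finSuccEquiv r).symm o))) = e.symm (N.par o)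
      rw [Equiv.apply_symm_apply]
    · rintro ⟨i, rfl⟩
      exact ⟨_, ⟨finSuccEquiv r i, rfl⟩, rfl⟩
  · ext P
    have hP := P.isPrime
    rw [PrimeSpectrum.mem_zeroLocus, PrimeSpectrum.mem_zeroLocus, Set.singleton_subset_iff,
      SetLike.coe_subset_coe, Ideal.map_le_iff_le_comap, SetLike.mem_coe]
    let O := centerRing v (chart (J * I) (j0 * gA))
    let t : O := algebraMap A O (d0 * (j0 * gA))
    let U : O := e.symm ⟨u, hu⟩
    let y : Fin r → O := fun i => e.symm (N.par (some i))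
    have hU : U ∉ P.asIdeal := by
      intro h1
      apply hP.ne_top
      rw [Ideal.eq_top_iff_one]
      have h2 : (1 : O) = U * e.symm ⟨u⁻¹, hu'⟩ := by
        apply Subtype.ext
        exact (mul_inv_cancel₀ hu0).symm
      rw [h2]
      exact Ideal.mul_mem_right _ _ h1
    have ht : t = (∏ i, y i ^ n i) * U := by
      apply Subtype.ext
      change φ (d0 * (j0 * gA)) = _
      rw [hn]
      push_cast
      rfl
    have hA : D * (J * I) ≤ Ideal.comap (algebraMap A O) P.asIdeal ↔ t ∈ P.asIdeal := by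
      constructor
      · intro h1
        exact h1 (Ideal.mul_mem_mul hd0D (Ideal.mul_mem_mul hj0J hgI))
      · intro h1 a ha
        rw [Ideal.mem_comap]
        have h2 : algebraMap A O a =
            t * (⟨φ a / φ (d0 * (j0 * gA)), (hmem _).2 (hDJIR a ha)⟩ : O) := by
          apply Subtype.ext
          change φ a = φ (d0 * (j0 * gA)) * (φ a / φ (d0 * (j0 * gA)))
          rw [mul_div_cancel₀ _ (hφ0 _ (mul_ne_zero hd00 hg1))]
        rw [h2]
        exact Ideal.mul_mem_right _ _ h1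
    rw [hA, ht]
    by_cases hall : ∀ i, 0 < n i
    · have hs : ∏ i ∈ s, x i = ∏ i, y i := by
        have h1 : s = Finset.univ.image Fin.succ := if_pos hall
        rw [h1, Finset.prod_image (fun a _ b _ h => Fin.succ_injective _ h)]
        refine Finset.prod_congr rfl fun i _ => ?_
        change e.symm (N.par (finSuccEquiv r i.succ)) = e.symm (N.par (some i))
        rw [finSuccEquiv_succ]
      rw [hs]
      constructor
      · intro h1
        rcases hP.mem_or_mem h1 with h2 | h2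
        · obtain ⟨i, -, h3⟩ := hP.prod_mem_iff.1 h2
          exact hP.prod_mem_iff.2 ⟨i, Finset.mem_univ i, hP.mem_of_pow_mem _ h3⟩
        · exact absurd h2 hU
      · intro h1
        obtain ⟨i, -, h3⟩ := hP.prod_mem_iff.1 h1
        refine Ideal.mul_mem_right _ _ (hP.prod_mem_iff.2 ⟨i, Finset.mem_univ i, ?_⟩)
        exact Ideal.pow_mem_of_mem _ h3 _ (hall i)
    · have h1 : s = ∅ := if_neg hall
      have h2 : ∀ i, n i = 0 := hns.resolve_left hall
      rw [h1, Finset.prod_empty, Finset.prod_eq_one (fun i _ => by rw [h2 i, pow_zero]), one_mul]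
      constructor
      · intro h3
        exact absurd h3 hU
      · intro h3
        exact absurd ((Ideal.eq_top_iff_one _).2 h3) hP.ne_top

end Pool.Agent.LU1
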