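import Pool.Agent.Lib.LU1_h15.Defs

/-! # Z2: log uniformization along valuations of an affine variety: definitions -/

set_option autoImplicit false

namespace Pool.Agent.LU1

open Pool.Agent.H15JM (RVal)

section Defs

variable {A : Type} [CommRing A] [IsDomain A]

/-- The coordinate ring `A[a / g : a ∈ I]` of the chart, of the blowing up of `Spec A` in the
ideal `I`, on which `g ∈ I` generates the exceptional ideal. -/
def chart (I : Ideal A) (g : A) : Subalgebra A (FractionRing A) :=
  Algebra.adjoin A {z | ∃ a ∈ I,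
    z = algebraMap A (FractionRing A) a / algebraMap A (FractionRing A) g}

/-- The ring of the quotients `a / b` with `a, b ∈ S`, `v b = 0`: if `v` is nonnegative on `S`,
this is the local ring of `Spec S` at the center of `v`. -/
def centerRing (v : AddValuation (FractionRing A) (WithTop ℝ))
    (S : Subalgebra A (FractionRing A)) : Subalgebra A (FractionRing A) where
  carrier := {z | ∃ a ∈ S, ∃ b ∈ S, v b = 0 ∧ z = a / b}
  mul_mem' := by
    rintro f g ⟨a, ha, b, hb, hvb, rfl⟩ ⟨c, hc, d, hd, hvd, rfl⟩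
    exact ⟨a * c, S.mul_mem ha hc, b * d, S.mul_mem hb hd, by rw [v.map_mul, hvb, hvd, add_zero],
      by rw [div_mul_div_comm]⟩
  add_mem' := by
    rintro f g ⟨a, ha, b, hb, hvb, rfl⟩ ⟨c, hc, d, hd, hvd, rfl⟩
    have hb0 : b ≠ 0 := by
      rintro rfl
      rw [v.map_zero] at hvb
      exact WithTop.top_ne_zero hvb
    have hd0 : d ≠ 0 := by
      rintro rfl
      rw [v.map_zero] at hvd
      exact WithTop.top_ne_zero hvd
    exact ⟨a * d + b * c, S.add_mem (S.mul_mem ha hd) (S.mul_mem hb hc), b * d,
      S.mul_mem hb hd, by rw [v.map_mul, hvb, hvd, add_zero], by rw [div_add_div _ _ hb0 hd0]⟩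
  algebraMap_mem' := by
    intro c
    exact ⟨_, S.algebraMap_mem c, 1, S.one_mem, v.map_one, by rw [div_one]⟩

/-- The blowing up of `X = Spec A` in the ideal `I` is a log desingularization of `(X, V(D))` along
the valuation `v`: if `g` is an element of `I` of least value, the local ring `O` of the blowing up
at the center of the lift of `v`, which is `centerRing v (chart I g)`, is regular, and in `Spec O`
the inverse image of `V(D) ∪ V(I)` is the zero set of the product of some of the elements of a
regular system of parameters. -/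
def IsLogDesing (v : AddValuation (FractionRing A) (WithTop ℝ)) (D I : Ideal A) : Prop :=
  ∃ g ∈ I, g ≠ 0 ∧
    (∀ a ∈ I, v (algebraMap A (FractionRing A) g) ≤ v (algebraMap A (FractionRing A) a)) ∧
    ∃ _ : IsRegularLocalRing (centerRing v (chart I g)),
      ∃ (n : ℕ) (x : Fin n → centerRing v (chart I g)) (s : Finset (Fin n)),
        ringKrullDim (centerRing v (chart I g)) = n ∧
        IsLocalRing.maximalIdeal (centerRing v (chart I g)) = Ideal.span (Set.range x) ∧
        PrimeSpectrum.zeroLocus ((D * I).map (algebraMap A (centerRing v (chart I g))) : Set _) =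
          PrimeSpectrum.zeroLocus {∏ i ∈ s, x i}

/-- The valuation `v` is log uniformizable on `X = Spec A`: for each closed subset `V(D) ≠ X` and
each blowing up of `X`, in an ideal `J ≠ 0`, some blowing up that dominates it, in an ideal
`J * I ≠ 0`, is a log desingularization of `(X, V(D))` along `v`. -/
def LogUniformizable (v : AddValuation (FractionRing A) (WithTop ℝ)) : Prop :=
  ∀ D : Ideal A, D ≠ ⊥ → ∀ J : Ideal A, J ≠ ⊥ → ∃ I : Ideal A, I ≠ ⊥ ∧ IsLogDesing v D (J * I)

/-- The rational subspace of `ℝ` spanned by the values of `v`. Its dimension is the rational rank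
of `v`. -/
noncomputable def valueSpace (v : AddValuation (FractionRing A) (WithTop ℝ)) : Submodule ℚ ℝ :=
  Submodule.span ℚ {t : ℝ | ∃ f, v f = (t : WithTop ℝ)}

end Defs

/-! ## The proof -/

section Proof

variable {K : Type} [Field K]

/-- The real valuation given by an additive valuation. -/
noncomputable def toRVal (v : AddValuation K (WithTop ℝ)) : RVal K where
  toFun f := (v f).untopD 0
  map_mul' x y hx hy := by
    have h1 := v.ne_top_iff.2 hx
    have h2 := v.ne_top_iff.2 hy
    obtain ⟨a, ha⟩ := WithTop.ne_top_iff_exists.1 h1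
    obtain ⟨b, hb⟩ := WithTop.ne_top_iff_exists.1 h2
    rw [v.map_mul, ← ha, ← hb, ← WithTop.coe_add, WithTop.untopD_coe, WithTop.untopD_coe,
      WithTop.untopD_coe]
  map_add' x y hx hy hxy := by
    have h1 := v.ne_top_iff.2 hx
    have h2 := v.ne_top_iff.2 hy
    have h3 := v.ne_top_iff.2 hxy
    obtain ⟨a, ha⟩ := WithTop.ne_top_iff_exists.1 h1
    obtain ⟨b, hb⟩ := WithTop.ne_top_iff_exists.1 h2
    obtain ⟨c, hc⟩ := WithTop.ne_top_iff_exists.1 h3
    have h4 := v.map_add x y
    rw [← ha, ← hb, ← hc, ← WithTop.coe_min, WithTop.coe_le_coe] at h4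
    rw [← ha, ← hb, ← hc, WithTop.untopD_coe, WithTop.untopD_coe, WithTop.untopD_coe]
    exact h4

theorem toRVal_coe (v : AddValuation K (WithTop ℝ)) {f : K} (hf : f ≠ 0) :
    v f = ((toRVal v f : ℝ) : WithTop ℝ) := by
  obtain ⟨a, ha⟩ := WithTop.ne_top_iff_exists.1 (v.ne_top_iff.2 hf)
  change v f = (((v f).untopD 0 : ℝ) : WithTop ℝ)
  rw [← ha, WithTop.untopD_coe]

theorem toRVal_nonneg (v : AddValuation K (WithTop ℝ)) {f : K} (hf : f ≠ 0) :
    0 ≤ v f ↔ 0 ≤ toRVal v f := by
  rw [toRVal_coe v hf, ← WithTop.coe_zero, WithTop.coe_le_coe]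

theorem toRVal_pos (v : AddValuation K (WithTop ℝ)) {f : K} (hf : f ≠ 0) :
    0 < v f ↔ 0 < toRVal v f := by
  rw [toRVal_coe v hf, ← WithTop.coe_zero, WithTop.coe_lt_coe]

theorem toRVal_eq_zero (v : AddValuation K (WithTop ℝ)) {f : K} (hf : f ≠ 0) :
    v f = 0 ↔ toRVal v f = 0 := by
  rw [toRVal_coe v hf, ← WithTop.coe_zero, WithTop.coe_inj]

theorem toRVal_le (v : AddValuation K (WithTop ℝ)) {f g : K} (hf : f ≠ 0) (hg : g ≠ 0) :
    v f ≤ v g ↔ toRVal v f ≤ toRVal v g := by
  rw [toRVal_coe v hf, toRVal_coe v hg, WithTop.coe_le_coe]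

end Proof

end Pool.Agent.LU1
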