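import Pool.Agent.Lib.LU1_h15.ML

/-! # F0: automorphisms of prime order -/

set_option autoImplicit false

open Polynomial

namespace Pool.Agent.LU1

open Pool.Agent.H15JM (RVal)

universe u

variable {k Ω : Type u} [Field k] [Field Ω] [Algebra k Ω] {v : RVal Ω} {r : ℕ}

/-- An automorphism of prime order `ℓ` of `(L, v)`, `ℓ ≠ char k`, given on `Ω`. -/
structure SigData (v : RVal Ω) (L : IntermediateField k Ω) (σ : Ω →ₐ[k] Ω) (ℓ : ℕ) : Prop where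
  prime : ℓ.Prime
  ne : (ℓ : k) ≠ 0
  map : ∀ g ∈ L, σ g ∈ L
  val : ∀ g ∈ L, g ≠ 0 → v (σ g) = v g
  ord : ∀ g ∈ L, (σ^[ℓ]) g = g

variable {L : IntermediateField k Ω} {σ : Ω →ₐ[k] Ω} {ℓ : ℕ}

namespace SigF0

/-- An element is algebraic over `R` if and only if it is algebraic over the field of fractions. -/
theorem alg_iff {R : Subalgebra k Ω} {E : IntermediateField k Ω} (h : FracIs R E) (g : Ω) :
    IsAlgebraic R g ↔ IsAlgebraic E g := by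
  let φ : R →+* E :=
    { toFun := fun x => ⟨x, h.1 x x.2⟩
      map_one' := rfl
      map_mul' := fun _ _ => rfl
      map_zero' := rfl
      map_add' := fun _ _ => rfl }
  let _ : Algebra R E := φ.toAlgebra
  have : IsScalarTower R E Ω := IsScalarTower.of_algebraMap_eq fun _ => rfl
  have hinj : Function.Injective (algebraMap R E) := by
    intro x y hxy
    exact Subtype.ext (congrArg (fun z : E => (z : Ω)) hxy)
  have : FaithfulSMul R E := (faithfulSMul_iff_algebraMap_injective R E).2 hinj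
  have : IsFractionRing R E := by
    refine IsFractionRing.of_field R E fun z => ?_
    obtain ⟨a, ha, b, hb, -, hz⟩ := h.2 z z.2
    exact ⟨⟨a, ha⟩, ⟨b, hb⟩, Subtype.ext hz⟩
  exact IsFractionRing.isAlgebraic_iff R E Ω

/-- `L` contains the monomials of a frame. -/
theorem χ_mem {B : BF k v} (hB : FracIs B.R L) {γ : ℝ} (hγ : γ ∈ B.Γ) : B.χ γ ∈ L := by
  rcases le_total 0 γ with h0 | h0
  · exact hB.1 _ (B.χ_mem γ hγ h0)
  · have h1 := hB.1 _ (B.χ_mem (-γ) (B.Γ.neg_mem hγ) (neg_nonneg.2 h0))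
    rw [B.χ_neg hγ] at h1
    have h2 := L.inv_mem h1
    rwa [inv_inv] at h2

theorem ne_zero_of {g : Ω} (h : g ≠ 0) : σ g ≠ 0 := by
  intro h0
  exact h (σ.toRingHom.injective (h0.trans (map_zero σ).symm))

theorem iter_mem (hσ : SigData v L σ ℓ) {g : Ω} (hg : g ∈ L) (j : ℕ) : (σ^[j]) g ∈ L := by
  induction j with
  | zero => exact hg
  | succ j ih => rw [Function.iterate_succ_apply']; exact hσ.map _ ih

theorem iter_ne {g : Ω} (hg : g ≠ 0) (j : ℕ) : (σ^[j]) g ≠ 0 := by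
  induction j with
  | zero => exact hg
  | succ j ih => rw [Function.iterate_succ_apply']; exact ne_zero_of ih

theorem iter_val (hσ : SigData v L σ ℓ) {g : Ω} (hg : g ∈ L) (h0 : g ≠ 0) (j : ℕ) :
    v ((σ^[j]) g) = v g := by
  induction j with
  | zero => rfl
  | succ j ih =>
    rw [Function.iterate_succ_apply', hσ.val _ (iter_mem hσ hg j) (iter_ne h0 j), ih]

/-- every element of `L` is the image of an element of `L` -/
theorem exists_pre (hσ : SigData v L σ ℓ) {g : Ω} (hg : g ∈ L) : ∃ g' ∈ L, σ g' = g := by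
  refine ⟨(σ^[ℓ - 1]) g, iter_mem hσ hg _, ?_⟩
  rw [← Function.iterate_succ_apply' σ, Nat.succ_eq_add_one,
    Nat.sub_add_cancel hσ.prime.one_le, hσ.ord g hg]

theorem map_locv {S : Subalgebra k Ω} (hσ : SigData v L σ ℓ) (hS : ∀ f ∈ S, f ∈ L) :
    (locv v S).map σ = locv v (S.map σ) := by
  ext f
  rw [Subalgebra.mem_map, mem_locv]
  constructor
  · rintro ⟨g, ⟨a, ha, b, hb, hb0, hvb, rfl⟩, rfl⟩
    exact ⟨σ a, Subalgebra.mem_map.2 ⟨a, ha, rfl⟩, σ b, Subalgebra.mem_map.2 ⟨b, hb, rfl⟩,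
      ne_zero_of hb0, (hσ.val b (hS b hb) hb0).trans hvb, map_div₀ σ a b⟩
  · rintro ⟨a', ha', b', hb', hb0, hvb, rfl⟩
    obtain ⟨a, ha, rfl⟩ := Subalgebra.mem_map.1 ha'
    obtain ⟨b, hb, rfl⟩ := Subalgebra.mem_map.1 hb'
    have hb00 : b ≠ 0 := by
      rintro rfl
      exact hb0 (map_zero σ)
    exact ⟨a / b, ⟨a, ha, b, hb, hb00, (hσ.val b (hS b hb) hb00).symm.trans hvb, rfl⟩,
      map_div₀ σ a b⟩

end SigF0

open SigF0

/-- The image of a frame. -/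
theorem SigData.image (hσ : SigData v L σ ℓ) (B : BF k v) (hB : FracIs B.R L) :
    ∃ C : BF k v, C.Γ = B.Γ ∧ (∀ γ ∈ B.Γ, C.χ γ = σ (B.χ γ)) ∧ C.y = σ B.y ∧
      ∀ f, f ∈ C.R ↔ ∃ g ∈ B.R, f = σ g := by
  classical
  have hmem : ∀ f, f ∈ B.R.map σ ↔ ∃ g ∈ B.R, f = σ g := by
    intro f
    rw [Subalgebra.mem_map]
    constructor
    · rintro ⟨g, hg, h⟩; exact ⟨g, hg, h.symm⟩
    · rintro ⟨g, hg, h⟩; exact ⟨g, hg, h.symm⟩
  have hne : ∀ {g : Ω}, σ g ≠ 0 → g ≠ 0 := by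
    rintro g h rfl
    exact h (map_zero σ)
  have hfrac : FracIs (B.R.map σ) L := by
    refine ⟨fun f hf => ?_, fun g hg => ?_⟩
    · obtain ⟨g, hg, rfl⟩ := (hmem f).1 hf
      exact hσ.map _ (hB.1 g hg)
    · obtain ⟨g', hg', rfl⟩ := exists_pre hσ hg
      obtain ⟨a, ha, b, hb, hb0, rfl⟩ := hB.2 g' hg'
      exact ⟨σ a, (hmem _).2 ⟨a, ha, rfl⟩, σ b, (hmem _).2 ⟨b, hb, rfl⟩, ne_zero_of hb0,
        map_div₀ σ a b⟩
  obtain ⟨F, hF⟩ := B.fgen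
  have hS : ∀ f ∈ Algebra.adjoin k ((F : Set Ω) ∪ B.χ '' {γ | γ ∈ B.Γ ∧ 0 ≤ γ}), f ∈ L := by
    intro f hf
    apply hB.1
    rw [hF]
    exact le_locv _ hf
  refine ⟨{
    Γ := B.Γ
    fg := B.fg
    full := B.full
    χ := fun γ => σ (B.χ γ)
    χ_ne := fun γ hγ => ne_zero_of (B.χ_ne γ hγ)
    χ_add := fun γ hγ δ hδ => by rw [B.χ_add γ hγ δ hδ, map_mul]
    χ_val := fun γ hγ => by rw [hσ.val _ (χ_mem hB hγ) (B.χ_ne γ hγ), B.χ_val γ hγ]
    y := σ B.y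
    y_ne := ne_zero_of B.y_ne
    y_pos := by rw [hσ.val _ (hB.1 _ B.y_mem) B.y_ne]; exact B.y_pos
    R := B.R.map σ
    nonneg := ?_
    loc := ?_
    χ_mem := fun γ hγ h0 => (hmem _).2 ⟨_, B.χ_mem γ hγ h0, rfl⟩
    y_mem := (hmem _).2 ⟨_, B.y_mem, rfl⟩
    fgen := ?_
    gen := ?_
    alg := ?_ }, rfl, fun _ _ => rfl, rfl, hmem⟩
  · rintro f hf h0
    obtain ⟨g, hg, rfl⟩ := (hmem f).1 hf
    have hg0 := hne h0
    rw [hσ.val g (hB.1 g hg) hg0]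
    exact B.nonneg g hg hg0
  · rintro f hf h0 hv
    obtain ⟨g, hg, rfl⟩ := (hmem f).1 hf
    have hg0 := hne h0
    rw [hσ.val g (hB.1 g hg) hg0] at hv
    exact (hmem _).2 ⟨g⁻¹, B.loc g hg hg0 hv, (map_inv₀ σ g).symm⟩
  · refine ⟨F.image σ, ?_⟩
    rw [hF, map_locv hσ hS, AlgHom.map_adjoin, Set.image_union, Finset.coe_image,
      Set.image_image]
  · intro f hf hv
    obtain ⟨g, hg, rfl⟩ := (hmem f).1 hf
    have hgv : VPos v g := by
      intro h0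
      have h1 := hv (ne_zero_of h0)
      rwa [hσ.val g (hB.1 g hg) h0] at h1
    obtain ⟨γ, hγ, h0, a, ha, b, hb, h1⟩ := B.gen g hg hgv
    refine ⟨γ, hγ, h0, σ a, (hmem _).2 ⟨a, ha, rfl⟩, σ b, (hmem _).2 ⟨b, hb, rfl⟩, ?_⟩
    rw [h1, map_add, map_mul, map_mul]
  · intro g
    exact (alg_iff hfrac g).2 ((alg_iff hB g).1 (B.alg g))

/-- The elements of `L` fixed by `σ` contain `r` elements with independent values. -/
theorem SigData.exists_inv (h : Ctx k v r) (hσ : SigData v L σ ℓ) (hL : Good v L) :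
    ∃ X : Fin r → Ω, (∀ i, X i ∈ L ∧ σ (X i) = X i ∧ X i ≠ 0) ∧
      LinearIndependent ℚ fun i => v (X i) := by
  obtain ⟨B, hB⟩ := hL
  obtain ⟨X0, hX0, hind, -⟩ := h.rank
  choose m hm hmΓ using fun i => B.full (X0 i) (hX0 i)
  have hgL : ∀ i, B.χ (m i * v (X0 i)) ∈ L := fun i => χ_mem hB (hmΓ i)
  have hg0 : ∀ i, B.χ (m i * v (X0 i)) ≠ 0 := fun i => B.χ_ne _ (hmΓ i)
  refine ⟨fun i => ∏ j ∈ Finset.range ℓ, (σ^[j]) (B.χ (m i * v (X0 i))), fun i => ⟨?_, ?_, ?_⟩,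
    ?_⟩
  · exact prod_mem fun j _ => iter_mem hσ (hgL i) j
  · rw [map_prod]
    have h1 : ∀ j, σ ((σ^[j]) (B.χ (m i * v (X0 i)))) = (σ^[j + 1]) (B.χ (m i * v (X0 i))) :=
      fun j => (Function.iterate_succ_apply' σ j _).symm
    simp only [h1]
    obtain ⟨n, hn⟩ : ∃ n, ℓ = n + 1 := ⟨ℓ - 1, (Nat.sub_add_cancel hσ.prime.one_le).symm⟩
    have hord := hσ.ord _ (hgL i)
    rw [hn] at hord ⊢
    rw [Finset.prod_range_succ, hord, Finset.prod_range_succ' _ n]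
    rfl
  · exact Finset.prod_ne_zero_iff.2 fun j _ => iter_ne (hg0 i) j
  · have hval : ∀ i, v (∏ j ∈ Finset.range ℓ, (σ^[j]) (B.χ (m i * v (X0 i)))) =
        ((ℓ * m i : ℕ) : ℝ) * v (X0 i) := by
      intro i
      rw [v.map_prod _ _ fun j _ => iter_ne (hg0 i) j,
        Finset.sum_congr rfl fun j _ => iter_val hσ (hgL i) (hg0 i) j, Finset.sum_const,
        Finset.card_range, nsmul_eq_mul, B.χ_val _ (hmΓ i)]
      push_cast
      ring
    have hu : ∀ i, ((ℓ * m i : ℕ) : ℚ) ≠ 0 := fun i => by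
      have := Nat.mul_pos hσ.prime.pos (hm i)
      exact_mod_cast this.ne'
    have h2 := hind.units_smul (fun i => Units.mk0 _ (hu i))
    have h3 : (fun i => v (∏ j ∈ Finset.range ℓ, (σ^[j]) (B.χ (m i * v (X0 i))))) =
        (fun i => Units.mk0 _ (hu i)) • (fun i => v (X0 i)) := by
      funext i
      rw [hval i, Pi.smul_apply', Units.smul_def, Units.val_mk0, Rat.smul_def]
      push_cast
      ring
    rw [h3]
    exact h2

/-- A semi-invariant frame. -/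
structure Semi (σ : Ω →ₐ[k] Ω) (ℓ : ℕ) (B : BF k v) : Prop where
  stable : ∀ g ∈ B.R, σ g ∈ B.R
  chi : ∀ γ ∈ B.Γ, ∃ ζ : k, ζ ^ ℓ = 1 ∧ σ (B.χ γ) = algebraMap k Ω ζ * B.χ γ
  y : ∃ ζ : k, ζ ^ ℓ = 1 ∧ σ B.y = algebraMap k Ω ζ * B.y
  gens : ∃ F : Finset Ω, (∀ f ∈ F, ∃ ζ : k, ζ ^ ℓ = 1 ∧ σ f = algebraMap k Ω ζ * f) ∧
    B.R = locv v (Algebra.adjoin k ((F : Set Ω) ∪ B.χ '' {γ | γ ∈ B.Γ ∧ 0 ≤ γ}))

end Pool.Agent.LU1
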