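import Pool.Agent.Lib.LU1_h15.TameDefs
import Pool.Agent.Lib.LU1_h15.Cmp

/-! # F3: a stable frame -/

set_option autoImplicit false

open Polynomial

namespace Pool.Agent.LU1

open Pool.Agent.H15JM (RVal)

universe u

variable {k Ω : Type u} [Field k] [Field Ω] [Algebra k Ω] {v : RVal Ω} {r : ℕ}

variable {L : IntermediateField k Ω} {σ : Ω →ₐ[k] Ω} {ℓ : ℕ}

namespace SigData

theorem st_iter_mem (hσ : SigData v L σ ℓ) (n : ℕ) {g : Ω} (hg : g ∈ L) : (σ^[n]) g ∈ L := by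
  induction n with
  | zero => exact hg
  | succ n ih => rw [Function.iterate_succ_apply']; exact hσ.map _ ih

theorem st_iter_ne (n : ℕ) {g : Ω} (hg : g ≠ 0) : (σ^[n]) g ≠ 0 := by
  induction n with
  | zero => exact hg
  | succ n ih =>
    rw [Function.iterate_succ_apply']
    intro h
    exact ih (σ.toRingHom.injective (by simpa using h))

theorem st_iter_val (hσ : SigData v L σ ℓ) (n : ℕ) {g : Ω} (hg : g ∈ L) (h0 : g ≠ 0) :
    v ((σ^[n]) g) = v g := by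
  induction n with
  | zero => rfl
  | succ n ih =>
    rw [Function.iterate_succ_apply', hσ.val _ (hσ.st_iter_mem n hg) (st_iter_ne n h0), ih]

end SigData

/-- F3: a stable frame. -/
theorem SigData.stab (p : ℕ) (hp : p.Prime) [CharP k p] (h : Ctx k v r)
    (hσ : SigData v L σ ℓ) (hL : Good v L) :
    ∃ B : BF k v, FracIs B.R L ∧ (∀ g ∈ B.R, σ g ∈ B.R) ∧
      ∃ X : Fin r → Ω, (∀ i, X i ∈ L ∧ σ (X i) = X i ∧ X i ≠ 0 ∧ B.Mono (X i)) ∧
        LinearIndependent ℚ fun i => v (X i) := by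
  classical
  obtain ⟨X, hX, hXi⟩ := hσ.exists_inv h hL
  obtain ⟨B0, hB0⟩ := hL
  -- `τ = σ^(ℓ - 1)` is the inverse of `σ` on `L`
  obtain ⟨m, rfl⟩ : ∃ m, ℓ = m + 1 := ⟨ℓ - 1, (Nat.succ_pred hσ.prime.pos.ne').symm⟩
  let τ : Ω →ₐ[k] Ω := (σ ^ m : Ω →ₐ[k] Ω)
  have hτ : ∀ g, τ g = (σ^[m]) g := by
    intro g
    change (σ ^ m : Ω →ₐ[k] Ω) g = _
    rw [AlgHom.coe_pow]
  have hστ : ∀ g ∈ L, σ (τ g) = g := by
    intro g hg
    rw [hτ, ← Function.iterate_succ_apply' σ m g]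
    exact hσ.ord g hg
  have hτL : ∀ g ∈ L, τ g ∈ L := fun g hg => by rw [hτ]; exact hσ.st_iter_mem m hg
  have hτv : ∀ g ∈ L, g ≠ 0 → v (τ g) = v g := fun g hg h0 => by
    rw [hτ]; exact hσ.st_iter_val m hg h0
  have hτ0 : ∀ g : Ω, g ≠ 0 → τ g ≠ 0 := fun g h0 => by rw [hτ]; exact SigData.st_iter_ne m h0
  -- the finite set
  obtain ⟨F, hF⟩ := B0.fgen
  obtain ⟨G, hG⟩ := B0.fg
  have hGΓ : ∀ u ∈ G, u ∈ B0.Γ := fun u hu => by rw [← hG]; exact AddSubgroup.subset_closure hu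
  have hχL : ∀ γ ∈ B0.Γ, B0.χ γ ∈ L := by
    intro γ hγ
    rcases le_total 0 γ with h0 | h0
    · exact hB0.1 _ (B0.χ_mem γ hγ h0)
    · have h1 := hB0.1 _ (B0.χ_mem (-γ) (B0.Γ.neg_mem hγ) (neg_nonneg.2 h0))
      rw [B0.χ_neg hγ] at h1
      exact inv_inv (B0.χ γ) ▸ L.inv_mem h1
  have hFR : ∀ f ∈ F, f ∈ B0.R := fun f hf => by
    rw [hF]; exact le_locv _ (Algebra.subset_adjoin (Or.inl hf))
  let T : Finset Ω := ((F.filter fun f => f ≠ 0).image τ) ∪ (G.image fun u => τ (B0.χ u)) ∪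
    (Finset.univ.image X)
  obtain ⟨B, hR, hT⟩ := ML p hp h B0 L hB0 T (by
    intro f hf
    simp only [T, Finset.mem_union, Finset.mem_image, Finset.mem_filter] at hf
    rcases hf with (⟨g, ⟨hg, hg0⟩, rfl⟩ | ⟨u, hu, rfl⟩) | ⟨i, -, rfl⟩
    · exact ⟨hτL g (hB0.1 g (hFR g hg)), hτ0 g hg0⟩
    · exact ⟨hτL _ (hχL u (hGΓ u hu)), hτ0 _ (B0.χ_ne u (hGΓ u hu))⟩
    · exact ⟨(hX i).1, (hX i).2.2⟩)
  have hTF : ∀ f ∈ F, f ≠ 0 → B.Mono (τ f) := fun f hf h0 => hT _ (by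
    simp only [T, Finset.mem_union, Finset.mem_image, Finset.mem_filter]
    exact Or.inl (Or.inl ⟨f, ⟨hf, h0⟩, rfl⟩))
  have hTG : ∀ u ∈ G, B.Mono (τ (B0.χ u)) := fun u hu => hT _ (by
    simp only [T, Finset.mem_union, Finset.mem_image, Finset.mem_filter]
    exact Or.inl (Or.inr ⟨u, hu, rfl⟩))
  have hTX : ∀ i, B.Mono (X i) := fun i => hT _ (by
    simp only [T, Finset.mem_union, Finset.mem_image, Finset.mem_filter]
    exact Or.inr ⟨i, Finset.mem_univ i, rfl⟩)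
  have hBL : FracIs B.R L := hR.ext.fracIs hB0
  -- `τ (χ_0 γ)` is a monomial of `B`
  have hτχ : ∀ γ ∈ B0.Γ, B.Mono (τ (B0.χ γ)) := by
    intro γ hγ
    have hγ' := hγ
    rw [← hG] at hγ'
    induction hγ' using AddSubgroup.closure_induction with
    | mem x hx => exact hTG x hx
    | zero => rw [B0.χ_zero, map_one]; exact BF.Mono.un BF.Un.one
    | add x y hx hy ihx ihy =>
      rw [hG] at hx hy
      rw [B0.χ_add x hx y hy, map_mul]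
      exact (ihx hx).mul (ihy hy)
    | neg x hx ihx =>
      rw [hG] at hx
      rw [B0.χ_neg hx, map_inv₀]
      exact (ihx hx).inv
  have hτχv : ∀ γ ∈ B0.Γ, v (τ (B0.χ γ)) = γ := fun γ hγ => by
    rw [hτv _ (hχL γ hγ) (B0.χ_ne γ hγ), B0.χ_val γ hγ]
  -- `τ B0.R ⊆ B.R`
  have hτR : ∀ f ∈ B0.R, τ f ∈ B.R := by
    have h1 : Algebra.adjoin k ((F : Set Ω) ∪ B0.χ '' {γ | γ ∈ B0.Γ ∧ 0 ≤ γ}) ≤
        B.R.comap τ := by
      rw [Algebra.adjoin_le_iff]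
      rintro f (hf | ⟨γ, ⟨hγ, h0⟩, rfl⟩)
      · change τ f ∈ B.R
        by_cases hf0 : f = 0
        · rw [hf0, map_zero]; exact B.R.zero_mem
        · refine (hTF f hf hf0).mem ?_
          rw [hτv f (hB0.1 f (hFR f hf)) hf0]
          exact B0.nonneg f (hFR f hf) hf0
      · change τ (B0.χ γ) ∈ B.R
        exact (hτχ γ hγ).mem (by rw [hτχv γ hγ]; exact h0)
    intro f hf
    have hf' := hf
    rw [hF] at hf'
    obtain ⟨a, ha, b, hb, hb0, hvb, rfl⟩ := hf'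
    have hbR : b ∈ B0.R := by rw [hF]; exact le_locv _ hb
    rw [map_div₀, div_eq_mul_inv]
    refine B.R.mul_mem (h1 ha) (B.loc _ (h1 hb) (hτ0 b hb0) ?_)
    rw [hτv b (hB0.1 b hbR) hb0, hvb]
  -- the image of `B`
  obtain ⟨C, hCΓ, hCχ, hCy, hCR⟩ := hσ.image B hBL
  have hE : Ext B0 C := by
    refine ⟨fun f hf => ?_, fun γ hγ => ?_, fun γ hγ => ?_, fun f hf => ?_⟩
    · rw [hCR]
      exact ⟨τ f, hτR f hf, (hστ f (hB0.1 f hf)).symm⟩
    · rw [hCΓ]; exact hR.ext.Γ_le γ hγ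
    · have hγB : γ ∈ B.Γ := hR.ext.Γ_le γ hγ
      rw [hCχ γ hγB]
      have h1 := (hτχ γ hγ).2.2
      rw [hτχv γ hγ] at h1
      have h2 : B0.χ γ / σ (B.χ γ) = σ (τ (B0.χ γ) / B.χ γ) := by
        rw [map_div₀, hστ _ (hχL γ hγ)]
      have h3 : τ (B0.χ γ) / B.χ γ ∈ L := hBL.1 _ h1.1
      rw [h2]
      refine ⟨(hCR _).2 ⟨_, h1.1, rfl⟩, ?_, ?_⟩
      · have := SigData.st_iter_ne (σ := σ) 1 h1.2.1
        simpa using this
      · rw [hσ.val _ h3 h1.2.1, h1.2.2]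
    · obtain ⟨g, hg, rfl⟩ := (hCR f).1 hf
      obtain ⟨a, ha, b, hb, h1, h2⟩ := hB0.2 _ (hσ.map g (hBL.1 g hg))
      exact ⟨a, ha, b, hb, h1, h2⟩
  refine ⟨B, hBL, ?_, X, fun i => ⟨(hX i).1, (hX i).2.1, (hX i).2.2, hTX i⟩, hXi⟩
  rcases cmp_reach h B0 B C hR hE with h1 | h1
  · exact fun g hg => h1 ((hCR _).2 ⟨g, hg, rfl⟩)
  · -- `B.R ≤ σ B.R`
    have h2 : ∀ n : ℕ, ∀ g ∈ B.R, ∃ g' ∈ B.R, g = (σ^[n]) g' := by
      intro n
      induction n with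
      | zero => exact fun g hg => ⟨g, hg, rfl⟩
      | succ n ih =>
        intro g hg
        obtain ⟨g1, hg1, rfl⟩ := (hCR g).1 (h1.le hg)
        obtain ⟨g2, hg2, rfl⟩ := ih g1 hg1
        exact ⟨g2, hg2, (Function.iterate_succ_apply' σ n g2).symm⟩
    intro g hg
    obtain ⟨g', hg', h3⟩ := h2 m g hg
    rw [h3, ← Function.iterate_succ_apply' σ m g', hσ.ord g' (hBL.1 g' hg')]
    exact hg'

end Pool.Agent.LU1
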